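import Pool.Agent.P.MP_9321be_ag.ND.ZBasic

/-!
The zeta function as a measure on jets of level `2 l`.
-/

namespace Pool.Agent.P.MP_9321be_ag.ND

open Set MvPolynomial

namespace Link

theorem trailingDegree_eq_iff (p : Polynomial ℂ) (l : ℕ) :
    p.trailingDegree = l ↔ (∀ k < l, p.coeff k = 0) ∧ p.coeff l ≠ 0 := by
  constructor
  · intro h
    have hp : p ≠ 0 := by rintro rfl; simp at h
    refine ⟨fun k hk => Polynomial.coeff_eq_zero_of_lt_trailingDegree (by rw [h]; exact_mod_cast hk),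
      ?_⟩
    rw [← Polynomial.natTrailingDegree_eq_of_trailingDegree_eq_some h]
    exact Polynomial.coeff_natTrailingDegree_ne_zero.2 hp
  · rintro ⟨h1, h2⟩
    have hp : p ≠ 0 := by rintro rfl; simp at h2
    rw [Polynomial.trailingDegree_eq_iff_natTrailingDegree_eq hp]
    exact le_antisymm (Polynomial.natTrailingDegree_le_of_ne_zero h2)
      (Polynomial.le_natTrailingDegree hp h1)

theorem locClosed_jets {σ : Type} (f : MvPolynomial σ ℂ) (l : ℕ) : LocClosed (jets f l) := by
  let Γ : Polynomial (MvPolynomial (σ × Fin l) ℂ) :=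
    aeval (fun i => ∑ k : Fin l, Polynomial.C (X (i, k)) * Polynomial.X ^ (k.1 + 1)) f
  have key : ∀ (c : σ × Fin l → ℂ) (k : ℕ), eval c (Γ.coeff k) = (aeval (fun i => ∑ k : Fin l,
      Polynomial.C (c (i, k)) * Polynomial.X ^ (k.1 + 1)) f : Polynomial ℂ).coeff k := by
    intro c k
    rw [← Polynomial.coeff_map]
    congr 1
    simp only [Γ]
    induction f using MvPolynomial.induction_on with
    | C a => simp
    | add p q hp hq => simp only [map_add, Polynomial.map_add, hp, hq]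
    | mul_X p i hp => simp [Polynomial.map_mul, hp, Polynomial.map_sum]
  refine ⟨_, _, ⟨Γ.coeff '' Iio l, rfl⟩, zclosed_zero (Γ.coeff l), ?_⟩
  ext c
  simp [jets, trailingDegree_eq_iff, key]

theorem coeff_zeta {σ : Type} [Finite σ] (f : MvPolynomial σ ℂ) {l : ℕ} (hl : l ≠ 0) :
    PowerSeries.coeff l (zeta f) = lefInv ^ Nat.card σ * pr {y : σ → TR l |
      ¬ tt l ^ (l + 1) ∣ aeval (fun i => tt l * y i) f ∧ tt l ^ l ∣ aeval (fun i => tt l * y i) f} := by
  cases nonempty_fintype σ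
  let j : (σ × Fin l → ℂ) →ₗ[ℂ] σ → TR l := LinearMap.pi fun i =>
    ∑ k : Fin l, (LinearMap.proj (i, k) : (σ × Fin l → ℂ) →ₗ[ℂ] ℂ).smulRight (tt l ^ (k.1 + 1))
  have hj : ∀ c i, j c i = ∑ k : Fin l, c (i, k) • tt l ^ (k.1 + 1) := fun c i => by simp [j]
  let m : (σ → TR l) →ₗ[ℂ] σ → TR l := LinearMap.pi fun i =>
    LinearMap.mulLeft ℂ (tt l) ∘ₗ LinearMap.proj i
  have hD : Cons {x : σ → TR l | ¬ tt l ^ (l + 1) ∣ aeval x f ∧ tt l ^ l ∣ aeval x f} :=
    ((CFM.aeval (fun i => CFM.id.apply i) f).cons_dvd _).not.and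
      ((CFM.aeval (fun i => CFM.id.apply i) f).cons_dvd _)
  have h1 : jets f l = j ⁻¹' {x | ¬ tt l ^ (l + 1) ∣ aeval x f ∧ tt l ^ l ∣ aeval x f} := by
    ext c
    have : aeval (j c) f = mkT l (aeval (fun i => ∑ k : Fin l,
        Polynomial.C (c (i, k)) * Polynomial.X ^ (k.1 + 1)) f) := by
      rw [← AlgHom.comp_apply, comp_aeval]
      congr 2
      funext i
      simp only [hj, map_sum, Polynomial.C_mul', map_smul, mk_X_pow]
    simp only [jets, mem_preimage, mem_ofPred_eq, this, dvd_mk le_rfl, dvd_mk (Nat.le_succ l),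
      Polynomial.X_pow_dvd_iff, trailingDegree_eq_iff, Nat.forall_lt_succ_right]
    tauto
  have h2 := pr_range j m (by
    apply le_antisymm
    · rintro _ ⟨c, rfl⟩
      refine ⟨fun i => ∑ k : Fin l, c (i, k) • tt l ^ k.1, funext fun i => ?_⟩
      simp [m, hj, pow_succ']
    · rintro _ ⟨y, rfl⟩
      choose c hc using fun i => exists_coords (y i)
      refine ⟨fun p => c p.1 p.2, funext fun i => ?_⟩
      rw [hj, ← hc]
      rfl) hD
  have h3 : Cons (jets f l) := h1 ▸ hD.preimage (CFM.lin j)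
  rw [← h1, pr, nu_pi h3, mu_of_locClosed h3.con (locClosed_jets f l)] at h2
  rw [zeta, series, PowerSeries.coeff_mk, if_neg hl, mul_assoc]
  congr 1
  refine Eq.trans ?_ h2
  simp [← pow_mul]

/-- The truncation map. -/
noncomputable def trunc {m n : ℕ} (h : m ≤ n) : TR n →ₐ[ℂ] TR m :=
  AdjoinRoot.liftAlgHom _ (Algebra.ofId ℂ (TR m)) (tt m) (by
    simp only [Polynomial.eval₂_pow, Polynomial.eval₂_X]
    exact pow_eq_zero_of_le (by omega) tt_pow)

theorem trunc_mk {m n : ℕ} (h : m ≤ n) (q : Polynomial ℂ) : trunc h (mkT n q) = mkT m q := by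
  have : (trunc h).comp (mkT n) = mkT m := Polynomial.algHom_ext (by
    have := AdjoinRoot.liftAlgHom_mk ((Polynomial.X : Polynomial ℂ) ^ (n + 1))
      (Algebra.ofId ℂ (TR m)) (tt m) (by
        simp only [Polynomial.eval₂_pow, Polynomial.eval₂_X]
        exact pow_eq_zero_of_le (by omega) tt_pow) Polynomial.X
    exact this.trans (Polynomial.eval₂_X _ _))
  exact DFunLike.congr_fun this q

theorem dvd_trunc {m n k : ℕ} (h : m ≤ n) (hk : k ≤ m + 1) (y : TR n) :
    tt m ^ k ∣ trunc h y ↔ tt n ^ k ∣ y := by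
  obtain ⟨q, rfl⟩ := mkT_surjective y
  rw [trunc_mk, dvd_mk hk, dvd_mk (by omega)]

end Link

open Link in
theorem t_Link : S_Link := by
  intro σ _ _ f
  ext l
  rw [Zs, PowerSeries.coeff_mk]
  by_cases hl : l = 0
  · rw [if_pos hl, zeta, series, PowerSeries.coeff_mk, if_pos hl]
  rw [if_neg hl, coeff_zeta f hl]
  have h1 := pr_tt Finset.univ (cons_ordf (M := l) f l)
  simp only [Finset.mem_univ, if_true, forall_const, Finset.card_univ] at h1
  have hle : l ≤ 2 * l := by omega
  let π : (σ → TR (2 * l)) →ₗ[ℂ] σ → TR l := LinearMap.pi fun i =>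
    (trunc hle).toLinearMap ∘ₗ LinearMap.proj i
  have hπ : Function.Surjective π := fun y => by
    choose q hq using fun i => mkT_surjective (y i)
    exact ⟨fun i => mkT _ (q i), funext fun i => (trunc_mk hle _).trans (hq i)⟩
  have h2 := pr_surj π hπ (D := {x : σ → TR l | (∀ i, tt l ∣ x i) ∧ ordEq l (aeval x f)})
    ((cons_forall fun i : σ => (CFM.id.apply i).cons_dvd (tt l)).and (cons_ordf f l))
  rw [Nat.card_eq_fintype_card]
  refine Eq.trans ?_ (h1.symm.trans (h2.symm.trans (pr_congr fun x => ?_)))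
  · congr 1
    exact pr_congr fun x => and_comm
  · have e : aeval (π x) f = trunc hle (aeval x f) := by
      rw [← AlgHom.comp_apply, comp_aeval]
      rfl
    have e1 : ∀ i, tt l ∣ π x i ↔ tt (2 * l) ∣ x i := fun i => by
      have := dvd_trunc hle (k := 1) (by omega) (x i)
      rwa [pow_one, pow_one] at this
    show (∀ i, tt l ∣ π x i) ∧ ordEq l (aeval (π x) f) ↔ _
    simp only [e, e1, ordEq, dvd_trunc hle le_rfl, dvd_trunc hle (Nat.le_succ l), and_true]

end Pool.Agent.P.MP_9321be_ag.ND
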