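import Pool.Agent.P.MP_9321be_ag.ND.ETool

/-!
Exact supporting data for the faces of the regular triangulation, and uniqueness of the facet
on a side of a ridge.
-/

namespace Pool.Agent.P.MP_9321be_ag.ND.E

open Filter Topology Matrix

namespace KExact

variable {α σ : Type} [Fintype α] [DecidableEq α] [Fintype σ] [DecidableEq σ]

omit [DecidableEq σ] in
/-- Every face has supporting data whose tight set is exactly the face. -/
theorem exact {v : α → σ → ℝ} {h : α → ℝ} (hI : Ind v (KK v h)) {τ : Finset α}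
    (hτ : τ ∈ KK v h) : ∃ u ω : σ → ℝ, (∀ a, 1 ≤ v a ⬝ᵥ u) ∧
      (∀ a ∈ τ, v a ⬝ᵥ u = 1 ∧ v a ⬝ᵥ ω + h a = 0) ∧
      ∀ a ∉ τ, v a ⬝ᵥ u = 1 → 0 < v a ⬝ᵥ ω + h a := by
  classical
  obtain ⟨u, ω, h1, h2, h3⟩ := hτ
  have hT : (Finset.univ.filter fun a => v a ⬝ᵥ u = 1 ∧ v a ⬝ᵥ ω + h a = 0) ∈ KK v h :=
    ⟨u, ω, h1, fun a ha => (Finset.mem_filter.1 ha).2, h3⟩
  obtain ⟨L, hL, -⟩ := Tool.exists_dual (hI _ hT)
  set d := L fun a => if a ∈ τ then 0 else 1 with hd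
  have hd1 : ∀ a, v a ⬝ᵥ u = 1 → v a ⬝ᵥ ω + h a = 0 → v a ⬝ᵥ d = if a ∈ τ then 0 else 1 :=
    fun a ha hb => hL _ a (Finset.mem_filter.2 ⟨Finset.mem_univ _, ha, hb⟩)
  have hev : ∀ᶠ s in 𝓝[>] (0 : ℝ), ∀ a, a ∉ τ → v a ⬝ᵥ u = 1 →
      0 < v a ⬝ᵥ ω + h a + s * (v a ⬝ᵥ d) := by
    refine eventually_all.2 fun a => ?_
    by_cases ha : a ∈ τ
    · exact Eventually.of_forall fun s hs => absurd ha hs
    by_cases hu : v a ⬝ᵥ u = 1
    · rcases (h3 a hu).eq_or_lt with h0 | h0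
      · filter_upwards [self_mem_nhdsWithin] with s hs _ _
        rw [hd1 a hu h0.symm, if_neg ha, ← h0]
        simpa using hs
      · have hc : Tendsto (fun s : ℝ => v a ⬝ᵥ ω + h a + s * (v a ⬝ᵥ d)) (𝓝 0)
            (𝓝 (v a ⬝ᵥ ω + h a + 0 * (v a ⬝ᵥ d))) :=
          (by fun_prop : Continuous fun s : ℝ => v a ⬝ᵥ ω + h a + s * (v a ⬝ᵥ d)).tendsto 0
        have := hc.eventually
          (lt_mem_nhds (show 0 < v a ⬝ᵥ ω + h a + 0 * (v a ⬝ᵥ d) by simpa using h0))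
        filter_upwards [nhdsWithin_le_nhds this] with s hs _ _ using hs
    · exact Eventually.of_forall fun s _ hs => absurd hs hu
  obtain ⟨s, hs⟩ := hev.exists
  refine ⟨u, ω + s • d, h1, fun a ha => ⟨(h2 a ha).1, ?_⟩, fun a ha hu => ?_⟩
  · rw [dotProduct_add, dotProduct_smul, hd1 a (h2 a ha).1 (h2 a ha).2, if_pos ha]
    simpa using (h2 a ha).2
  · have := hs a ha hu
    rw [dotProduct_add, dotProduct_smul, smul_eq_mul]
    linarith

omit [Fintype α] [DecidableEq α] in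
theorem pos {ex : α → σ → ℕ} (hC : Conv ex) {u : σ → ℝ} (hu : ∀ a, 1 ≤ rv ex a ⬝ᵥ u) (i : σ) :
    0 < u i := by
  obtain ⟨a, k, hk, e⟩ := hC.2 i
  have h1 := hu a
  have h2 : rv ex a = Pi.single i (k : ℝ) := by
    funext j
    by_cases hj : j = i
    · subst hj; simp [rv, e]
    · simp [rv, e, hj]
  rw [h2, single_dotProduct] at h1
  have hk' : (0 : ℝ) < k := by exact_mod_cast hk
  by_contra hn
  nlinarith [mul_nonneg hk'.le (neg_nonneg.2 (not_lt.1 hn))]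

theorem large {x : ℝ} (hx : 0 < x) (y : ℝ) : ∀ᶠ R : ℝ in atTop, y ≤ R * x :=
  (tendsto_id.atTop_mul_const hx).eventually_ge_atTop y

theorem kexact : S_KExact := by
  intro α σ _ _ _ _ ex h hC hI
  classical
  choose! u ω h1 h2 h3 using fun τ (hτ : τ ∈ KK (rv ex) h) => exact hI hτ
  have hγ : ∀ᶠ γ in 𝓝[>] (0 : ℝ), ∀ τ a, τ ∈ KK (rv ex) h → a ∉ τ → rv ex a ⬝ᵥ u τ = 1 →
      γ ≤ rv ex a ⬝ᵥ ω τ + h a := by
    refine eventually_all.2 fun τ => eventually_all.2 fun a => ?_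
    by_cases hp : 0 < rv ex a ⬝ᵥ ω τ + h a
    · filter_upwards [nhdsWithin_le_nhds (ge_mem_nhds hp)] with γ hγ _ _ _ using hγ
    · exact Eventually.of_forall fun γ hτ ha hu => absurd (h3 τ hτ a ha hu) hp
  obtain ⟨γ, hγ, hγ0⟩ := (hγ.and self_mem_nhdsWithin).exists
  refine ⟨γ, hγ0, fun L hL P R₀ => ?_⟩
  have e1 : ∀ᶠ R : ℝ in atTop, ∀ τ i, τ ∈ KK (rv ex) h → P - L * ω τ i ≤ R * u τ i := by
    refine eventually_all.2 fun τ => eventually_all.2 fun i => ?_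
    by_cases hτ : τ ∈ KK (rv ex) h
    · filter_upwards [large (pos hC (h1 τ hτ) i) (P - L * ω τ i)] with R hR _ using hR
    · exact Eventually.of_forall fun R h => absurd h hτ
  have e2 : ∀ᶠ R : ℝ in atTop, ∀ τ a, 1 < rv ex a ⬝ᵥ u τ →
      L * γ - L * (rv ex a ⬝ᵥ ω τ + h a) ≤ R * (rv ex a ⬝ᵥ u τ - 1) := by
    refine eventually_all.2 fun τ => eventually_all.2 fun a => ?_
    by_cases hp : 1 < rv ex a ⬝ᵥ u τ
    · filter_upwards [large (sub_pos.2 hp) (L * γ - L * (rv ex a ⬝ᵥ ω τ + h a))] with R hR _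
        using hR
    · exact Eventually.of_forall fun R h => absurd h hp
  obtain ⟨R, ⟨hR1, hR2⟩, hR3⟩ := ((e1.and e2).and (eventually_ge_atTop R₀)).exists
  refine ⟨R, hR3, fun τ => R • u τ + L • ω τ, fun τ hτ => ⟨fun i => ?_, fun a ha => ?_,
    fun a ha => ?_⟩⟩
  · have := hR1 τ i hτ
    simp only [Pi.add_apply, Pi.smul_apply, smul_eq_mul]
    linarith
  · obtain ⟨e, e'⟩ := h2 τ hτ a ha
    simp only [dotProduct_add, dotProduct_smul, smul_eq_mul, e]
    linear_combination L * e'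
  · simp only [dotProduct_add, dotProduct_smul, smul_eq_mul]
    rcases (h1 τ hτ a).eq_or_lt with e | e
    · have := mul_le_mul_of_nonneg_left (hγ τ a hτ ha e.symm) hL.le
      rw [← e]
      linarith
    · have := hR2 τ a e
      linarith

theorem zero_of {c x y : ℝ} (hx : 0 < x) (hy : 0 < y) (h1 : c * x ≤ 0) (h2 : 0 ≤ c * y) :
    c = 0 :=
  le_antisymm (by by_contra h; nlinarith [mul_pos (not_le.1 h) hx])
    (by by_contra h; nlinarith [mul_pos (neg_pos.2 (not_le.1 h)) hy])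

theorem kuniq : S_KUniq := by
  intro α σ _ _ _ _ v h hI ρ b b' d hb hb' hc hd h0 h0'
  have hbρ : b ∉ ρ := fun hm => h0.ne' (hd b hm)
  have hbρ' : b' ∉ ρ := fun hm => h0'.ne' (hd b' hm)
  have hρ : LinearIndepOn ℝ v (ρ : Set α) :=
    (hI _ hb).mono (Finset.coe_subset.2 (Finset.subset_insert _ _))
  have hd0 : d ≠ 0 := by
    rintro rfl
    simp at h0
  obtain ⟨u, ω, h1, h2, h3⟩ := hb
  obtain ⟨u', ω', h1', h2', h3'⟩ := hb'
  have m := Finset.mem_insert_self b ρ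
  have m' := Finset.mem_insert_self b' ρ
  obtain ⟨c, hcu⟩ := Tool.exists_smul hρ hc hd0 hd (d' := u - u') fun a ha => by
    rw [dotProduct_sub, (h2 a (Finset.mem_insert_of_mem ha)).1,
      (h2' a (Finset.mem_insert_of_mem ha)).1, sub_self]
  have hc0 : c = 0 := by
    have e1 := congrArg (v b ⬝ᵥ ·) hcu
    have e2 := congrArg (v b' ⬝ᵥ ·) hcu
    simp only [dotProduct_sub, dotProduct_smul, smul_eq_mul] at e1 e2
    refine zero_of h0 h0' ?_ ?_
    · linarith [(h2 b m).1, h1' b]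
    · linarith [(h2' b' m').1, h1 b']
  rw [hc0, zero_smul, sub_eq_zero] at hcu
  subst hcu
  obtain ⟨c', hcω⟩ := Tool.exists_smul hρ hc hd0 hd (d' := ω - ω') fun a ha => by
    rw [dotProduct_sub]
    linarith [(h2 a (Finset.mem_insert_of_mem ha)).2, (h2' a (Finset.mem_insert_of_mem ha)).2]
  have hc0' : c' = 0 := by
    have e1 := congrArg (v b ⬝ᵥ ·) hcω
    have e2 := congrArg (v b' ⬝ᵥ ·) hcω
    simp only [dotProduct_sub, dotProduct_smul, smul_eq_mul] at e1 e2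
    refine zero_of h0 h0' ?_ ?_
    · linarith [(h2 b m).2, h3' b (h2 b m).1]
    · linarith [(h2' b' m').2, h3 b' (h2' b' m').1]
  rw [hc0', zero_smul, sub_eq_zero] at hcω
  subst hcω
  by_contra hne
  have hK : insert b' (insert b ρ) ∈ KK v h := ⟨u, ω, h1, fun a ha => by
    rcases Finset.mem_insert.1 ha with rfl | ha
    · exact h2' _ m'
    · exact h2 a ha, h3⟩
  have hle := Tool.card_le (hI _ hK)
  rw [Finset.card_insert_of_notMem (by
    rw [Finset.mem_insert, not_or]; exact ⟨fun e => hne e.symm, hbρ'⟩),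
    Finset.card_insert_of_notMem hbρ] at hle
  omega

end KExact

theorem t_KExact : S_KExact ∧ S_KUniq := ⟨KExact.kexact, KExact.kuniq⟩

end Pool.Agent.P.MP_9321be_ag.ND.E
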