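import Pool.Agent.P.MP_9321be_ag.ND.EIface

/-!
Construction of the patchworking maps.
-/

namespace Pool.Agent.P.MP_9321be_ag.ND.E

open Pool.Agent.Lib.Helper83 Set Complex Filter Topology

namespace Imap

variable {α σ : Type} [Fintype α] [DecidableEq α] [Fintype σ] [DecidableEq σ]

/-- Product weights on the subsets. -/
noncomputable def rho (b : α → ℝ) (J : Finset α) : ℝ := (∏ a ∈ J, b a) * ∏ a ∈ Jᶜ, (1 - b a)

lemma sum_rho (b : α → ℝ) : ∑ J, rho b J = 1 := by
  unfold rho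
  rw [← Fintype.prod_add]; simp

lemma sum_rho_not (b : α → ℝ) (a : α) :
    ∑ J, rho b J * (if a ∈ J then 0 else 1) = 1 - b a := by
  have h := Fintype.prod_add (Function.update b a 0) (fun x => 1 - b x)
  have h1 : ∏ x, (Function.update b a 0 x + (1 - b x)) = 1 - b a := by
    rw [Finset.prod_eq_single a]
    · simp
    · intro x _ hx; simp [Function.update_of_ne hx]
    · simp
  rw [← h1, h]
  refine Finset.sum_congr rfl fun J _ => ?_
  by_cases hJ : a ∈ J
  · rw [if_pos hJ, Finset.prod_eq_zero hJ (by simp)]; simp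
  · rw [if_neg hJ, mul_one, rho]
    congr 1
    refine Finset.prod_congr rfl fun x hx => ?_
    rw [Function.update_of_ne]; rintro rfl; exact hJ hx

lemma rho_nonneg {b : α → ℝ} (h0 : ∀ a, 0 ≤ b a) (h1 : ∀ a, b a ≤ 1) (J : Finset α) :
    0 ≤ rho b J :=
  mul_nonneg (Finset.prod_nonneg fun a _ => h0 a)
    (Finset.prod_nonneg fun a _ => sub_nonneg.2 (h1 a))

lemma rho_sub {b : α → ℝ} {J : Finset α} (h : rho b J ≠ 0) {a : α} (ha : a ∈ J) : b a ≠ 0 :=
  fun hb => h (by rw [rho, Finset.prod_eq_zero ha hb, zero_mul])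

lemma rho_mem {b : α → ℝ} {J : Finset α} (h : rho b J ≠ 0) {a : α} (ha : b a = 1) : a ∈ J := by
  by_contra hJ
  exact h (by
    rw [rho, Finset.prod_eq_zero (Finset.mem_compl.2 hJ) (by simp [ha]), mul_zero])

lemma cont_rho {X : Type} [TopologicalSpace X] {b : X → α → ℝ} (hb : Continuous b)
    (J : Finset α) : Continuous fun x => rho (b x) J := by
  unfold rho
  fun_prop

/-- Truncated coordinates. -/
noncomputable def tr (c : ℝ) (β : α → ℝ) : α → ℝ := fun a => min 1 (c * β a)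

lemma cont_tr (c : ℝ) : Continuous (tr c : (α → ℝ) → α → ℝ) := by
  unfold tr
  fun_prop

/-- Weighted averages. -/
noncomputable def av (c : ℝ) (p : Finset α → σ → ℝ) (β : α → ℝ) : σ → ℝ :=
  ∑ J, rho (tr c β) J • p J

lemma cont_av (c : ℝ) (p : Finset α → σ → ℝ) : Continuous (av c p) := by
  unfold av
  exact continuous_finsetSum _ fun J _ => (cont_rho (cont_tr c) J).smul continuous_const

lemma dot_av (c : ℝ) (p : Finset α → σ → ℝ) (β : α → ℝ) (v : σ → ℝ) (r : ℝ) :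
    v ⬝ᵥ av c p β + r = ∑ J, rho (tr c β) J * (v ⬝ᵥ p J + r) := by
  simp only [mul_add, Finset.sum_add_distrib, ← Finset.sum_mul, sum_rho, one_mul, av,
    dotProduct_sum, dotProduct_smul, smul_eq_mul]

lemma tr_nonneg {c : ℝ} (hc : 0 ≤ c) {τ : Finset α} {β : α → ℝ} (hβ : β ∈ Dτ τ) (a : α) :
    0 ≤ tr c β a := le_min zero_le_one (mul_nonneg hc (hβ.1.1 a))

lemma tr_le (c : ℝ) (β : α → ℝ) (a : α) : tr c β a ≤ 1 := min_le_left _ _

lemma sub_of_rho {c : ℝ} {τ : Finset α} {β : α → ℝ} (hβ : β ∈ Dτ τ) {J : Finset α}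
    (h : rho (tr c β) J ≠ 0) : J ⊆ τ := by
  intro a ha
  by_contra hτ
  exact rho_sub h ha (by simp [tr, hβ.2 a hτ])

lemma KK_down {v : α → σ → ℝ} {h : α → ℝ} {τ J : Finset α} (hτ : τ ∈ KK v h) (hJ : J ⊆ τ) :
    J ∈ KK v h := by
  obtain ⟨u, ω, h1, h2, h3⟩ := hτ
  exact ⟨u, ω, h1, fun a ha => h2 a (hJ ha), h3⟩

lemma av_ge {c : ℝ} (hc : 0 ≤ c) {τ : Finset α} {β : α → ℝ} (hβ : β ∈ Dτ τ) (f g : Finset α → ℝ)
    (h : ∀ J ⊆ τ, f J ≤ g J) : ∑ J, rho (tr c β) J * f J ≤ ∑ J, rho (tr c β) J * g J := by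
  refine Finset.sum_le_sum fun J _ => ?_
  by_cases hJ : rho (tr c β) J = 0
  · simp [hJ]
  · exact mul_le_mul_of_nonneg_left (h J (sub_of_rho hβ hJ))
      (rho_nonneg (tr_nonneg hc hβ) (tr_le c β) J)

lemma av_eq {c : ℝ} {τ : Finset α} {β : α → ℝ} (hβ : β ∈ Dτ τ) {a : α} (ha : tr c β a = 1)
    (f : Finset α → ℝ) (r : ℝ) (h : ∀ J ⊆ τ, a ∈ J → f J = r) :
    ∑ J, rho (tr c β) J * f J = r := by
  rw [← one_mul r, ← sum_rho (tr c β), Finset.sum_mul]
  refine Finset.sum_congr rfl fun J _ => ?_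
  by_cases hJ : rho (tr c β) J = 0
  · simp [hJ]
  · rw [h J (sub_of_rho hβ hJ) (rho_mem hJ ha)]

lemma exists_big {τ : Finset α} {β : α → ℝ} (hβ : β ∈ Dτ τ) :
    ∃ a, tr (Fintype.card α) β a = 1 := by
  by_contra hc
  push Not at hc
  have h1 : ∀ a, (Fintype.card α : ℝ) * β a < 1 := fun a => by
    by_contra h
    exact hc a (min_eq_left (not_lt.1 h))
  have hne : (Finset.univ : Finset α).Nonempty := by
    by_contra h
    rw [Finset.not_nonempty_iff_eq_empty] at h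
    have := hβ.1.2
    rw [h] at this
    simp at this
  have := Finset.sum_lt_sum_of_nonempty hne fun a _ => h1 a
  rw [← Finset.mul_sum, hβ.1.2] at this
  simp at this

/-- The point of the torus with given logarithmic norms and arguments. -/
noncomputable def pt (p w : σ → ℝ) : σ → ℂ :=
  fun i => (Real.exp (-p i) : ℝ) * exp (2 * Real.pi * I * w i)

lemma norm_e (t : ℝ) : ‖exp (2 * Real.pi * I * t)‖ = 1 := by
  rw [Complex.norm_exp]; simp

lemma norm_pt (p w : σ → ℝ) (i : σ) : ‖pt p w i‖ = Real.exp (-p i) := by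
  rw [pt, norm_mul, norm_e, mul_one, Complex.norm_real, Real.norm_of_nonneg (Real.exp_pos _).le]

lemma lft_pt (p w : σ → ℝ) : Lft (pt p w) w := fun i =>
  ⟨mul_ne_zero (by exact_mod_cast (Real.exp_pos _).ne') (exp_ne_zero _), by rw [norm_pt]; rfl⟩

lemma term_pt (ex : α → σ → ℕ) (h : α → ℝ) (L : ℝ) (p w : σ → ℝ) (a : α) :
    vc h L a * mon (ex a) (pt p w) = (Real.exp (-(rv ex a ⬝ᵥ p + L * h a)) : ℝ) *
      exp (2 * Real.pi * I * (rv ex a ⬝ᵥ w : ℝ)) := by
  simp only [vc, mon, pt, Complex.ofReal_exp,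
    ← Complex.exp_nat_mul, ← Complex.exp_sum, ← Complex.exp_add, dotProduct, rv]
  congr 1
  push_cast
  simp only [Finset.mul_sum, neg_add, ← Finset.sum_neg_distrib]
  rw [add_comm (∑ _, _) (-(_ * _)), add_assoc, ← Finset.sum_add_distrib]
  congr 1
  exact Finset.sum_congr rfl fun i _ => by ring

lemma cont_pt {X : Type} [TopologicalSpace X] {p w : X → σ → ℝ} (hp : Continuous p)
    (hw : Continuous w) : Continuous fun x => pt (p x) (w x) := by
  unfold pt
  fun_prop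

lemma cont_ev (ex : α → σ → ℕ) (c : α → ℂ) : Continuous (ev ex c) := by
  unfold ev mon
  fun_prop

lemma small (C c : ℝ) (hc : 0 < c) : ∃ t > 0, ∀ s ≥ t, C * Real.exp (-s) < c := by
  have h := (Real.tendsto_exp_neg_atTop_nhds_zero.const_mul C).eventually_lt_const
    (u := c) (by simpa using hc)
  obtain ⟨t, ht⟩ := eventually_atTop.1 h
  exact ⟨max t 1, by positivity, fun s hs => ht s (le_trans (le_max_left _ _) hs)⟩

/-- The pointwise estimates. -/
lemma key (T θ : α → ℝ) (R η K₀ : ℝ) (hK : (Fintype.card α : ℝ) ≤ K₀) (hη : K₀ * η < 1)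
    (hη0 : 0 < η) (hT : ∀ a, R ≤ T a) (h0 : ∃ a, T a = R ∧ ∃ z : ℤ, θ a = z)
    (hd : ∀ a, (∃ z : ℤ, θ a = z) ∨ Real.exp (-T a) ≤ Real.exp (-R) * η) :
    0 < (∑ a, (Real.exp (-T a) : ℝ) * exp (2 * Real.pi * I * θ a)).re ∧
      ‖∑ a, (Real.exp (-T a) : ℝ) * exp (2 * Real.pi * I * θ a)‖ ≤ K₀ * Real.exp (-R) := by
  have hint : ∀ a, (∃ z : ℤ, θ a = z) → exp (2 * Real.pi * I * θ a) = 1 := by
    rintro a ⟨z, hz⟩
    rw [hz, ← exp_int_mul_two_pi_mul_I z]; congr 1; push_cast; ring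
  have hn : ∀ a, ‖((Real.exp (-T a) : ℝ) : ℂ) * exp (2 * Real.pi * I * θ a)‖ = Real.exp (-T a) :=
    fun a => by
      rw [norm_mul, norm_e, mul_one, Complex.norm_real, Real.norm_of_nonneg (Real.exp_pos _).le]
  have hR := Real.exp_pos (-R)
  constructor
  · obtain ⟨a0, ha0, hz0⟩ := h0
    have h1 : ∀ a, 0 ≤ (((Real.exp (-T a) : ℝ) : ℂ) * exp (2 * Real.pi * I * θ a)).re +
        Real.exp (-R) * η := fun a => by
      rcases hd a with hz | hz
      · rw [hint a hz, mul_one, ofReal_re]; positivity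
      · have := (abs_le.1 (abs_re_le_norm
          (((Real.exp (-T a) : ℝ) : ℂ) * exp (2 * Real.pi * I * θ a)))).1
        rw [hn] at this; linarith
    have h2 := Finset.single_le_sum (f := fun a => (((Real.exp (-T a) : ℝ) : ℂ) *
      exp (2 * Real.pi * I * θ a)).re + Real.exp (-R) * η) (fun a _ => h1 a) (Finset.mem_univ a0)
    simp only [Finset.sum_add_distrib, Finset.sum_const, Finset.card_univ, nsmul_eq_mul] at h2
    rw [hint a0 hz0, mul_one, ofReal_re, ha0] at h2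
    rw [re_sum]
    have h3 : (Fintype.card α : ℝ) * (Real.exp (-R) * η) ≤ K₀ * (Real.exp (-R) * η) :=
      mul_le_mul_of_nonneg_right hK (by positivity)
    nlinarith [mul_pos hR hη0]
  · refine (norm_sum_le _ _).trans ?_
    calc ∑ a, ‖((Real.exp (-T a) : ℝ) : ℂ) * exp (2 * Real.pi * I * θ a)‖
        ≤ ∑ _a : α, Real.exp (-R) := Finset.sum_le_sum fun a _ => by
          rw [hn]; exact Real.exp_le_exp.2 (neg_le_neg (hT a))
      _ ≤ _ := by
          simp only [Finset.sum_const, Finset.card_univ, nsmul_eq_mul]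
          exact mul_le_mul_of_nonneg_right hK hR.le

end Imap

open Imap in
theorem t_Imap : S_KGen → S_KExact → S_Imap := by
  intro hG hE α σ _ _ _ _ ex h K₀ hC hI hK
  obtain ⟨sec, hsec⟩ := (hG α σ (rv ex)).2 _ hI
  obtain ⟨γ, hγ, hE⟩ := hE α σ ex h hC hI
  obtain ⟨t, ht, hη⟩ := small K₀ 1 one_pos
  refine ⟨2 * t / γ, by positivity, fun L hL ε hε δ hδ => ?_⟩
  have hL0 : 0 < L := lt_of_lt_of_le (by positivity) hL
  have hη1 : K₀ * Real.exp (-(L * γ / 2)) < 1 := hη _ (by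
    rw [ge_iff_le, div_le_iff₀ hγ] at hL; linarith)
  obtain ⟨P, -, hP⟩ := small (Fintype.card σ) (ε ^ 2) (by positivity)
  obtain ⟨R₀, -, hR₀⟩ := small K₀ δ hδ
  obtain ⟨R, hR, p, hp⟩ := hE L hL0 (P / 2) R₀
  set m : ℝ := (Fintype.card α : ℝ) with hm
  have hm0 : 0 ≤ m := Nat.cast_nonneg _
  set W : (α → ℝ) → (α → ℝ) → σ → ℝ := fun k => av (2 * m) fun J => sec J k with hW
  set x : (α → ℝ) → (α → ℝ) → σ → ℂ := fun k β => pt (av m p β) (W k β) with hx
  set T : (α → ℝ) → α → ℝ := fun β a => rv ex a ⬝ᵥ av m p β + L * h a with hT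
  have hev : ∀ k β, ev ex (vc h L) (x k β) =
      ∑ a, (Real.exp (-T β a) : ℝ) * exp (2 * Real.pi * I * (rv ex a ⬝ᵥ W k β : ℝ)) :=
    fun k β => Finset.sum_congr rfl fun a _ => term_pt ex h L _ _ a
  have hTge : ∀ τ ∈ KK (rv ex) h, ∀ β ∈ Dτ τ, ∀ a, R + L * γ * (1 - tr m β a) ≤ T β a := by
    intro τ hτ β hβ a
    have := av_ge hm0 hβ (fun J => R + L * γ * (if a ∈ J then 0 else 1))
      (fun J => rv ex a ⬝ᵥ p J + L * h a) (fun J hJ => by
        obtain ⟨-, h2, h3⟩ := hp J (KK_down hτ hJ)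
        by_cases ha : a ∈ J
        · simp [ha, h2 a ha]
        · simpa [ha] using h3 a ha)
    rw [← dot_av] at this
    refine le_trans (le_of_eq ?_) this
    simp only [mul_add, Finset.sum_add_distrib, ← Finset.sum_mul, sum_rho, one_mul]
    rw [← sum_rho_not, Finset.mul_sum]
    congr 1
    exact Finset.sum_congr rfl fun J _ => by ring
  have hTeq : ∀ τ ∈ KK (rv ex) h, ∀ β ∈ Dτ τ, ∀ a, tr m β a = 1 → T β a = R := by
    intro τ hτ β hβ a ha
    exact (dot_av _ _ _ _ _).trans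
      (av_eq hβ ha _ R fun J hJ haJ => (hp J (KK_down hτ hJ)).2.1 a haJ)
  have hθ : ∀ τ ∈ KK (rv ex) h, ∀ k, ∀ β ∈ Dτ τ, ∀ a, tr (2 * m) β a = 1 →
      rv ex a ⬝ᵥ W k β = k a := by
    intro τ hτ k β hβ a ha
    have := dot_av (2 * m) (fun J => sec J k) β (rv ex a) 0
    simp only [add_zero] at this
    exact this.trans (av_eq hβ ha _ _ fun J hJ haJ => hsec.1 J (KK_down hτ hJ) a haJ k)
  have hsm : ∀ τ ∈ KK (rv ex) h, ∀ β ∈ Dτ τ, ∀ a, tr (2 * m) β a ≠ 1 →
      Real.exp (-T β a) ≤ Real.exp (-R) * Real.exp (-(L * γ / 2)) := by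
    intro τ hτ β hβ a ha
    have h1 : 2 * m * β a < 1 := by
      by_contra h; exact ha (min_eq_left (not_lt.1 h))
    have h2 : tr m β a ≤ 1 / 2 := (min_le_right _ _).trans (by linarith)
    have := hTge τ hτ β hβ a
    rw [← Real.exp_add, Real.exp_le_exp]
    nlinarith [mul_pos hL0 hγ]
  have hbig : ∀ τ ∈ KK (rv ex) h, ∀ β ∈ Dτ τ, ∃ a, T β a = R ∧ tr (2 * m) β a = 1 := by
    intro τ hτ β hβ
    obtain ⟨a, ha⟩ := exists_big hβ
    refine ⟨a, hTeq τ hτ β hβ a ha, min_eq_left ?_⟩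
    have h1 : 1 ≤ m * β a := ha.ge.trans (min_le_right _ _)
    linarith
  have hkey : ∀ τ ∈ KK (rv ex) h, ∀ k, IsInt k → ∀ β ∈ Dτ τ,
      0 < (ev ex (vc h L) (x k β)).re ∧ ‖ev ex (vc h L) (x k β)‖ ≤ K₀ * Real.exp (-R) := by
    intro τ hτ k hk β hβ
    rw [hev]
    refine key (T β) _ R _ K₀ hK hη1 (Real.exp_pos _) (fun a => ?_) ?_ (fun a => ?_)
    · have := hTge τ hτ β hβ a
      nlinarith [mul_nonneg (mul_pos hL0 hγ).le (sub_nonneg.2 (tr_le m β a))]
    · obtain ⟨a, h1, h2⟩ := hbig τ hτ β hβ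
      exact ⟨a, h1, by rw [hθ τ hτ k β hβ a h2]; exact hk a⟩
    · by_cases ha : tr (2 * m) β a = 1
      · left; rw [hθ τ hτ k β hβ a ha]; exact hk a
      · right; exact hsm τ hτ β hβ a ha
  have hcx : ∀ k, Continuous (x k) := fun k => cont_pt (cont_av _ _) (cont_av _ _)
  refine ⟨fun k β => (x k β, log (ev ex (vc h L) (x k β))), W, ?_, fun k => cont_av _ _, ?_, ?_,
    fun k β => lft_pt _ _, ?_⟩
  · intro τ hτ k hk
    exact (hcx k).continuousOn.prodMk (((cont_ev ex _).comp (hcx k)).continuousOn.clog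
      fun β hβ => Or.inl (hkey τ hτ k hk β hβ).1)
  · intro τ hτ k hk β hβ
    obtain ⟨h1, h2⟩ := hkey τ hτ k hk β hβ
    have hne : ev ex (vc h L) (x k β) ≠ 0 := fun h0 => by rw [h0] at h1; simp at h1
    refine ⟨?_, (exp_log hne).symm, ?_⟩
    · refine lt_of_le_of_lt ?_ (hP P le_rfl)
      calc ∑ i, ‖x k β i‖ ^ 2 ≤ ∑ _i : σ, Real.exp (-P) := Finset.sum_le_sum fun i _ => by
            have := av_ge hm0 hβ (fun _ => P / 2) (fun J => p J i)
              (fun J hJ => (hp J (KK_down hτ hJ)).1 i)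
            rw [← Finset.sum_mul, sum_rho] at this
            have h3 : av m p β i = ∑ J, rho (tr m β) J * p J i := by simp [av, Finset.sum_apply]
            rw [hx]
            simp only []
            rw [norm_pt, ← Real.exp_nat_mul, Real.exp_le_exp, h3]
            push_cast
            linarith
        _ = _ := by simp
    · simp only [log_re]
      exact Real.log_lt_log (norm_pos_iff.2 hne) (h2.trans_lt (hR₀ R hR))
  · intro τ hτ k k' hkk β hβ
    have : W k β = W k' β := by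
      refine Finset.sum_congr rfl fun J _ => ?_
      by_cases hJ : rho (tr (2 * m) β) J = 0
      · simp [hJ]
      · have := hsec.2 J (k - k') fun a ha => by simp [hkk a (sub_of_rho hβ hJ ha)]
        rw [map_sub, sub_eq_zero] at this
        simp only [this]
    simp only [hx, this]
  · intro τ hτ k hk β hβ a ha
    obtain ⟨h1, -⟩ := hkey τ hτ k hk β hβ
    set s := log (ev ex (vc h L) (x k β)) with hs
    have hz : ∀ b, zz ex (vc h L) b (x k β, s) = (Real.exp (-T β b) : ℝ) *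
        exp (2 * Real.pi * I * (rv ex b ⬝ᵥ W k β : ℝ)) * exp (-s) := fun b => by
      rw [zz]; exact congrArg (· * exp (-s)) (term_pt ex h L _ _ b)
    have hn : ∀ b, ‖zz ex (vc h L) b (x k β, s)‖ = Real.exp (-T β b) * ‖exp (-s)‖ := fun b => by
      rw [hz, norm_mul, norm_mul, norm_e, mul_one, Complex.norm_real,
        Real.norm_of_nonneg (Real.exp_pos _).le]
    have ha1 : tr (2 * m) β a = 1 := by
      by_contra hc
      obtain ⟨a0, h2, -⟩ := hbig τ hτ β hβ
      have h3 := (Finset.single_le_sum (f := fun b => ‖zz ex (vc h L) b (x k β, s)‖)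
        (fun b _ => norm_nonneg _) (Finset.mem_univ a0)).trans_lt ha.1
      simp only [hn, h2] at h3
      have h4 := hsm τ hτ β hβ a hc
      have h5 : 0 < ‖exp (-s)‖ := norm_pos_iff.2 (exp_ne_zero _)
      have h6 : 0 ≤ K₀ := hm0.trans hK
      have h7 : Real.exp (-R) < K₀ * Real.exp (-T β a) := by
        rw [← mul_assoc] at h3; exact lt_of_mul_lt_mul_right h3 h5.le
      have h8 := mul_le_mul_of_nonneg_left h4 h6
      nlinarith [Real.exp_pos (-R)]
    refine ⟨?_, ?_⟩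
    · by_contra hτa
      simp [tr, hβ.2 a hτa] at ha1
    · obtain ⟨z, hz0⟩ := hk a
      have him : |s.im| < Real.pi / 2 := by
        rw [hs, log_im]; exact abs_arg_lt_pi_div_two_iff.2 (Or.inl h1)
      have harg : arg (zz ex (vc h L) a (x k β, s)) = -s.im := by
        rw [hz, hθ τ hτ k β hβ a ha1, hz0]
        have : exp (2 * Real.pi * I * ((z : ℝ) : ℂ)) = 1 := by
          rw [← exp_int_mul_two_pi_mul_I z]; congr 1; push_cast; ring
        rw [this, mul_one, arg_real_mul _ (Real.exp_pos _), ← log_im, log_exp]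
        · simp
        · simp only [neg_im]; linarith [(abs_lt.1 him).2, Real.pi_pos]
        · simp only [neg_im]; linarith [(abs_lt.1 him).1, Real.pi_pos]
      rw [kap, harg, hθ τ hτ k β hβ a ha1]
      ring

end Pool.Agent.P.MP_9321be_ag.ND.E
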