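import Pool.Agent.P.MP_9321be_ag.ND.EBasic

/-!
The cycle.
-/

namespace Pool.Agent.P.MP_9321be_ag.ND.E

open Pool.Agent.Lib.Helper83 Set Complex Filter

namespace Cyc

variable {α σ : Type} [Fintype α] [DecidableEq α] [Fintype σ] [DecidableEq σ]

/-- Realisation of a formal chain on the sheet given by `ψ`. -/
noncomputable def re (ψ : (α → ℝ) → YY σ) : LC ℝ α →ₗ[ℝ] Ch ℂ (YY σ) :=
  (push ψ ∘ₗ affL ∘ₗ amap fun a => (Pi.single a 1 : α → ℝ)).restrictScalars ℝ ∘ₗ cx

omit [Fintype σ] [DecidableEq σ] in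
theorem re_apply (ψ : (α → ℝ) → YY σ) (c : LC ℝ α) :
    re ψ c = push ψ (affL (amap (fun a => (Pi.single a 1 : α → ℝ)) (cx c))) := rfl

theorem model_mem {j : ℕ} (t : Fin j → α) :
    affL (amap (fun a => (Pi.single a 1 : α → ℝ)) (cx (ax ℝ t))) ∈
      sub ℂ (Dτ (Finset.univ.image t)) j := by
  rw [cx_ax, amap_ax]
  exact affL_mem (Dτ_convex _) (ax_mem fun i =>
    single_mem_Dτ (Finset.mem_image_of_mem t (Finset.mem_univ i)))

omit [Fintype σ] [DecidableEq σ] in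
theorem zc_supp {n : ℕ} (e : Fin n ≃ σ) (v : α → σ → ℝ) (K : Set (Finset α)) :
    zc e v K ∈ Finsupp.supported ℝ ℝ {x : Ax α | x.1 = n ∧ Finset.univ.image x.2 ∈ K} := by
  classical
  refine Submodule.sum_mem _ fun t _ => ?_
  split_ifs with ht
  · exact Submodule.smul_mem _ _ (Finsupp.single_mem_supported ℝ 1 ⟨rfl, ht⟩)
  · rw [zero_smul]; exact zero_mem _

omit [Fintype α] in
theorem chi_add (g : α → ℝ) (E : Finset α) (k : α → ℝ) (a : α) :
    chi g E (k + Pi.single a 1) =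
      (if a ∈ E then exp (2 * Real.pi * I * g a) else 1) * chi g E k := by
  have : ∑ b ∈ E, g b * (k + Pi.single a 1 : α → ℝ) b =
      (if a ∈ E then g a else 0) + ∑ b ∈ E, g b * k b := by
    simp [mul_add, Finset.sum_add_distrib, Pi.single_apply, add_comm]
  rw [chi, chi, this]
  split_ifs
  · rw [← exp_add]; congr 1; push_cast; ring
  · simp

omit [Fintype α] in
theorem Dm_chi (g : α → ℝ) (E : Finset α) (c : ℂ) (ν : Multiset α) (h : ∀ a ∈ ν, a ∈ E)
    (k : α → ℝ) : Dm ν (fun k => chi g E k * c) k =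
      (ν.map fun a => exp (2 * Real.pi * I * g a) - 1).prod * (chi g E k * c) := by
  induction ν using Multiset.induction_on generalizing k with
  | empty => simp
  | cons a ν ih =>
    have ih' := ih fun b hb => h b (Multiset.mem_cons_of_mem hb)
    rw [Dm_cons, Dc, ih', ih', chi_add, if_pos (h a (Multiset.mem_cons_self _ _)),
      Multiset.map_cons, Multiset.prod_cons]
    ring

end Cyc

open Cyc

theorem t_Cyc (hZ : S_Zc) (hA : S_CycA) : S_Cyc := by
  intro α σ _ _ _ _ _ ex c K₀ K S d e τ₀ E g q Φ Ψ W μ hK hS cx' hI hP wd im hE hμ hIn ⟨c₀, h0, hc₀⟩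
  classical
  refine ⟨Dm (E.val + μ) (fun k => re (Ψ k) (zc e (rv ex) K)) 0, ?_, ?_,
    (E.val.map fun a => exp (2 * Real.pi * I * g a) - 1).prod * (chi g E 0 * c₀), ?_, ?_⟩
  · refine Dm_mem (sub ℂ S (d + 1)) _ (fun k hk => ?_) isInt_zero
    refine supp_mem (N := (sub ℂ S (d + 1)).restrictScalars ℝ) _ ?_ (zc_supp e _ K)
    rintro ⟨_, t⟩ ⟨rfl, ht⟩
    exact push_mem (im.maps _ ht k hk) (model_mem t)
  · refine (Dm_map (bd (R := ℂ) (X := YY σ)).toAddMonoidHom _ _ _).trans ?_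
    have h1 : ∀ k, IsInt k → bd (re (Ψ k) (zc e (rv ex) K)) = re (Ψ k) (abd (zc e (rv ex) K)) := by
      intro k hk
      refine supp_eq (bd.restrictScalars ℝ ∘ₗ re (Ψ k)) (re (Ψ k) ∘ₗ abd) ?_ (zc_supp e _ K)
      rintro ⟨_, t⟩ ⟨rfl, ht⟩
      change bd (re (Ψ k) (ax ℝ t)) = re (Ψ k) (abd (ax ℝ t))
      rw [re_apply, re_apply, bd_push (im.cont _ ht k hk) (model_mem t), bd_affL, abd_amap, cx_abd]
    refine (Dm_congr _ h1 isInt_zero).trans ?_
    have hy := hZ α σ _ K d e cx'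
    generalize abd (zc e (rv ex) K) = y at hy
    have h2 : ∀ k, re (Ψ k) y = ∑ x ∈ y.support, y x • re (Ψ k) (ax ℝ x.2) := fun k => by
      conv_lhs => rw [← Finsupp.sum_single y, Finsupp.sum, map_sum]
      refine Finset.sum_congr rfl fun x _ => ?_
      rw [← map_smul, ax, Finsupp.smul_single, smul_eq_mul, mul_one]
    simp only [h2]
    rw [Dm_sum]
    refine Finset.sum_eq_zero fun x hx => ?_
    obtain ⟨-, h3, h4⟩ := hy hx
    obtain ⟨a, h5, h6⟩ := Finset.not_subset.1 fun h => h4 (hIn.mono h)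
    refine Dm_eq_zero (c := a) (by simpa [or_comm] using h5) (fun k => ?_) 0
    rw [re_apply, re_apply, push_congr (im.loc _ h3 _ k fun b hb => ?_) (model_mem x.2)]
    rw [Pi.add_apply, Pi.single_eq_of_ne (fun e : b = a => h6 (e ▸ hb)), add_zero]
  · refine mul_ne_zero (Multiset.prod_ne_zero fun h => ?_)
      (mul_ne_zero (exp_ne_zero _) (ofReal_ne_zero.2 h0))
    obtain ⟨a, ha, h⟩ := Multiset.mem_map.1 h
    obtain ⟨z, hz⟩ := exp_eq_one_iff.1 (sub_eq_zero.1 h)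
    refine hE a ha z ?_
    have : (g a : ℂ) = z := mul_left_cancel₀ two_pi_I_ne_zero (by linear_combination hz)
    exact_mod_cast this
  · filter_upwards [Dm_eventually (E.val + μ)
      (hA α σ ex c K₀ K S d e τ₀ E g q Φ Ψ W hK hS cx' hI hP wd im) isInt_zero] with m hm
    refine (Dm_map (PhM ex c K₀ g E Φ ∘ₗ (Sd ^ m : Module.End ℂ _)).toAddMonoidHom _ _ _).trans
      (hm.trans ?_)
    rw [Dm_add, ← Dm_chi g E c₀ E.val (fun _ h => h)]
    congr 1
    funext k
    refine (Dm_smul μ (chi g E) (fun a ha k => by rw [chi_add, if_neg (hμ a ha), one_mul])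
      (fun k => ((NN e (rv ex) K Φ k : ℝ) : ℂ)) k).trans ?_
    rw [smul_eq_mul, ← hc₀ k]
    exact congrArg _ (Dm_map ofRealHom.toAddMonoidHom μ _ k).symm

end Pool.Agent.P.MP_9321be_ag.ND.E
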