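import Pool.Agent.P.MP_9321be_ag.ND.EBasic

/-!
Evaluation of the singular cochain on one sheet of the cycle.
-/

namespace Pool.Agent.P.MP_9321be_ag.ND.E

open Pool.Agent.Lib.Helper83 Set Filter Topology

namespace CycA

lemma abd_sd_pow {E : Type} [AddCommGroup E] [Module ℝ E] (c : LC ℝ E) (m : ℕ) :
    abd (((sd : Module.End ℝ (LC ℝ E)) ^ m) c) = ((sd : Module.End ℝ (LC ℝ E)) ^ m) (abd c) := by
  induction m with
  | zero => simp
  | succ m ih => simp only [pow_succ', Module.End.mul_apply, abd_sd, ih]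

lemma sd_pow_nil {E : Type} [AddCommGroup E] [Module ℝ E] (v : Fin 0 → E) (m : ℕ) :
    ((sd : Module.End ℝ (LC ℝ E)) ^ m) (ax ℝ v) = ax ℝ v := by
  induction m with
  | zero => simp
  | succ m ih =>
    rw [pow_succ', Module.End.mul_apply, ih]
    simp [sd, rc_zero, Subsingleton.elim v Fin.elim0]

end CycA

theorem t_CycA : S_Carr → S_CycA := by
  intro hC α σ _ _ _ _ _ ex c K₀ K S d e τ₀ E g q Φ Ψ W hK hS hx hI hΦ hW hΨ k hk
  let e₁ : α → α → ℝ := fun a => Pi.single a 1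
  let vd : (α → ℝ) → X0 α σ := fun β => (lab ex c K₀ (Ψ k β), W k β)
  let Θ : LC ℝ (α → ℝ) →ₗ[ℝ] ℂ :=
    (PhM ex c K₀ g E Φ ∘ₗ push (Ψ k) ∘ₗ affL).restrictScalars ℝ ∘ₗ cx
  let Θ' : LC ℝ (α → ℝ) →ₗ[ℝ] ℂ :=
    chi g E k • (Algebra.linearMap ℝ ℂ ∘ₗ Φ k ∘ₗ amap vd)
  have hl : ∀ τ ∈ K, ∀ β ∈ Dτ τ, (vd β).1 ∈ τ ∧ kap ex c (vd β).1 (Ψ k β) (W k β) = k (vd β).1 :=
    fun τ hτ β hβ => hΨ.labk τ hτ k hk β hβ _ (lab_mem hK (hS _ (hΨ.maps τ hτ k hk hβ)))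
  have hA : ∀ τ ∈ K, ∃ η > 0, ∀ n, ∀ x ∈ dsub ℝ (Dτ τ) n η, Θ x = Θ' x := by
    intro τ hτ
    obtain ⟨η, hη, h⟩ := Metric.uniformContinuousOn_iff_le.1
      ((Dτ_compact τ).uniformContinuousOn_of_continuous (hΨ.contW k).continuousOn) (1 / 4)
      (by norm_num)
    refine ⟨η, hη, fun n x hx => supp_eq Θ Θ' ?_ hx⟩
    rintro ⟨n, β⟩ ⟨-, hβ, hd⟩
    show PhM ex c K₀ g E Φ (push (Ψ k) (affL (cx (ax ℝ β)))) =
      chi g E k * (Φ k (amap vd (ax ℝ β)) : ℝ)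
    have hc := cont_of (hΨ.cont τ hτ k hk) (aff_mem (Dτ_convex τ) hβ)
    have hv : vtx (⟨Ψ k ∘ aff β, hc⟩ : C(Dl n, YY σ)) = Ψ k ∘ β :=
      funext fun j => congrArg (Ψ k) (aff_vertex β j)
    rw [cx_ax, affL_ax, push_sx _ _ hc, hW n _ (W k ∘ β) k, hv, amap_ax]
    · rfl
    · rw [hv]
      refine ⟨fun j => hΨ.lift k _, fun j j' i => ?_, fun j => (hl τ hτ _ (hβ j)).2⟩
      have := (dist_le_pi_dist _ _ i).trans (h _ (hβ j) _ (hβ j') (hd j j'))
      rw [Real.dist_eq] at this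
      exact this.trans_lt (by norm_num)
  have hB : ∀ t : Fin (d + 1) → α, ∀ᶠ m in atTop, Finset.univ.image t ∈ K →
      PhM ex c K₀ g E Φ ((Sd ^ m) (push (Ψ k) (affL (ax ℂ (e₁ ∘ t))))) =
        Θ' (((sd : Module.End ℝ _) ^ m) (ax ℝ (e₁ ∘ t))) := by
    intro t
    by_cases ht : Finset.univ.image t ∈ K
    · obtain ⟨η, hη, h⟩ := hA _ ht
      have h1 : ∀ j, (e₁ ∘ t) j ∈ Dτ (Finset.univ.image t) := fun j =>
        single_mem_Dτ (Finset.mem_image_of_mem t (Finset.mem_univ j))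
      have h0 : ax ℝ (e₁ ∘ t) ∈ dsub ℝ (Dτ (Finset.univ.image t)) (d + 1) 1 :=
        Finsupp.single_mem_supported ℝ 1 ⟨rfl, h1, fun i j =>
          (Metric.dist_le_diam_of_mem (bounded_stdSimplex _) (h1 i).1 (h1 j).1).trans
            diam_stdSimplex_le⟩
      have hq : Tendsto (fun m : ℕ => (((d + 1 : ℕ) : ℝ) / ((d + 1 : ℕ) + 1)) ^ m) atTop (𝓝 0) :=
        tendsto_pow_atTop_nhds_zero_of_lt_one (by positivity) (by
          rw [div_lt_one (by positivity)]; linarith)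
      filter_upwards [hq.eventually (ge_mem_nhds hη)] with m hm _
      rw [Sd_pow_real (Dτ_convex _) (hΨ.cont _ ht k hk) (ax_mem h1), ← cx_ax, ← cx_sd_pow]
      refine h (d + 1) _ fun a ha => ?_
      have := sd_pow_dsub (Dτ_convex _) h0 m ha
      exact ⟨this.1, this.2.1, fun i j => (this.2.2 i j).trans (by rwa [mul_one])⟩
    · exact Eventually.of_forall fun m h => absurd h ht
  filter_upwards [eventually_all.2 hB] with m hm
  have h1 := hC α σ (rv ex) K d e τ₀ q Φ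
    (amap vd ∘ₗ ((sd : Module.End ℝ _) ^ m) ∘ₗ amap e₁ - amap fun a => (a, 0)) hx hI hΦ
    (fun x => by simp [abd_amap, CycA.abd_sd_pow])
    (fun t => by
      simp only [LinearMap.sub_apply, LinearMap.comp_apply, amap_ax, CycA.sd_pow_nil, sub_eq_zero]
      congr 1; exact Subsingleton.elim _ _)
    (fun τ hτ j x hx => sub_mem
      (amap_mem (φ := vd) (K' := labIn σ τ) (fun β hβ => (hl τ hτ β hβ).1)
        (sd_pow_mem (Dτ_convex τ) (amap_mem (fun a ha => single_mem_Dτ ha) hx) m))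
      (amap_mem (φ := fun a => (a, 0)) (K' := labIn σ τ) (fun a ha => ha) hx)) k
  rw [LinearMap.sub_apply, map_sub, sub_eq_zero] at h1
  rw [NN, ← h1, cx_eq]
  show _ = Θ' (((sd : Module.End ℝ _) ^ m) (amap e₁ (zc e (rv ex) K)))
  simp only [zc, map_sum, map_smul, cx_ax, amap_ax, ← Complex.coe_smul]
  refine Finset.sum_congr rfl fun t _ => ?_
  split_ifs with ht
  · rw [hm t ht]
  · simp

end Pool.Agent.P.MP_9321be_ag.ND.E
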