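import Pool.Agent.P.MP_9321be_ag.ND.EBasic

/-!
Independence of the lift and nilpotence.
-/

namespace Pool.Agent.P.MP_9321be_ag.ND.E

open Pool.Agent.Lib.Helper83 Set Complex

namespace SingA

variable {α σ : Type} [Fintype α] [DecidableEq α] [Nonempty α] [Fintype σ]
  {ex : α → σ → ℕ} {c : α → ℂ} {K₀ : ℝ} {K : Set (Finset α)} {τ₀ E : Finset α} {g : α → ℝ}
  {q : ℕ} {Φ : (α → ℝ) → LC ℝ (X0 α σ) →ₗ[ℝ] ℝ}

omit [Fintype σ] in
theorem lft_int {x : σ → ℂ} {w w' : σ → ℝ} (h : Lft x w) (h' : Lft x w') (i : σ) :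
    ∃ z : ℤ, w' i - w i = z := by
  obtain ⟨z, hz⟩ := exp_eq_exp_iff_exists_int.1 (mul_left_cancel₀
    (ofReal_ne_zero.2 (norm_ne_zero_iff.2 (h i).1)) ((h' i).2.symm.trans (h i).2))
  refine ⟨z, ofReal_injective (mul_left_cancel₀ two_pi_I_ne_zero ?_)⟩
  push_cast
  linear_combination hz

theorem wd (hΦ : PhiP (rv ex) K τ₀ q Φ) (hne : τ₀.Nonempty) (hE : E ⊆ τ₀)
    (hg : ∀ i, ∃ z : ℤ, ∑ a ∈ E, g a * ex a i = z) {n : ℕ} {p : Fin n → YY σ}
    {w w' : Fin n → σ → ℝ} {k k' : α → ℝ} (h : Vld ex c K₀ p w k) (h' : Vld ex c K₀ p w' k') :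
    chi g E k' * (Φ k' (ax ℝ fun j => (lab ex c K₀ (p j), w' j)) : ℝ) =
      chi g E k * (Φ k (ax ℝ fun j => (lab ex c K₀ (p j), w j)) : ℝ) := by
  have mem : ∀ w : Fin n → σ → ℝ, (ax ℝ fun j => (lab ex c K₀ (p j), w j)) ∈
      lsub ℝ (labIn σ (Finset.univ.image fun j => lab ex c K₀ (p j))) n := fun w =>
    ax_mem fun j => by simp [labIn]
  by_cases hs : τ₀ ⊆ Finset.univ.image fun j => lab ex c K₀ (p j)
  swap
  · simp [hΦ.van _ hs _ _ _ (mem _)]
  obtain ⟨j₀, -, -⟩ := Finset.mem_image.1 (hs hne.choose_spec)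
  choose z hz using fun j => lft_int (h.1 j) (h'.1 j)
  have e : ∀ j, w' j = w j + fun i => (z j₀ i : ℝ) := fun j => funext fun i => by
    have a1 := abs_lt.1 (h.2.1 j j₀ i)
    have a2 := abs_lt.1 (h'.2.1 j j₀ i)
    have : |z j i - z j₀ i| < 1 := by
      have : |(z j i : ℝ) - z j₀ i| < 1 := by
        rw [← hz, ← hz, abs_lt]
        constructor <;> linarith
      exact_mod_cast this
    rw [Pi.add_apply, ← sub_eq_zero.1 (Int.abs_lt_one_iff.1 this), ← hz]
    ring
  have ek : ∀ a ∈ Finset.univ.image fun j => lab ex c K₀ (p j),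
      k' a = (k + fun a => rv ex a ⬝ᵥ fun i => (z j₀ i : ℝ)) a := fun a ha => by
    obtain ⟨j, -, rfl⟩ := Finset.mem_image.1 ha
    rw [Pi.add_apply, ← h.2.2, ← h'.2.2, e, kap, kap, dotProduct_add]
    ring
  rw [hΦ.loc _ _ _ ek _ _ (mem _), ← hΦ.tr k fun i => (z j₀ i : ℝ), amap_ax]
  choose y hy using hg
  congr 1
  · refine exp_eq_exp_iff_exists_int.2 ⟨∑ i, y i * z j₀ i, ?_⟩
    have : ∑ a ∈ E, g a * k' a = ∑ a ∈ E, g a * k a + ∑ i, y i * z j₀ i := by
      rw [Finset.sum_congr rfl fun a ha => congrArg (g a * ·) (ek a (hs (hE ha)))]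
      push_cast
      simp only [Pi.add_apply, mul_add, Finset.sum_add_distrib, ← hy, Finset.sum_mul, rv,
        dotProduct, Finset.mul_sum, mul_assoc]
      rw [Finset.sum_comm]
    rw [this]
    push_cast
    ring
  · simp only [e, Function.comp_def]

omit [DecidableEq α] in
theorem vld_dk {n : ℕ} {p : Fin n → YY σ} {w : Fin n → σ → ℝ} {k : α → ℝ} :
    Vld ex c K₀ (dk ∘ p) w k ↔ Vld ex c K₀ p w (k + 1) := by
  refine and_congr_right fun _ => and_congr_right fun _ => forall_congr' fun j => ?_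
  simp only [Function.comp_apply, lab_dk, kap, zz_dk, Pi.add_apply, Pi.one_apply]
  simp only [dk, add_im, mul_im, mul_re, re_ofNat, ofReal_re, im_ofNat, ofReal_im, I_im, I_re]
  rw [add_div, mul_zero, sub_zero, mul_one, mul_zero, add_zero, div_self Real.two_pi_pos.ne']
  constructor <;> intro h <;> linarith

end SingA

open SingA

theorem t_SingA : S_SingA := by
  intro α σ _ _ _ _ _ ex c K₀ K τ₀ E g q Φ hΦ hne hE hg
  have W : WD ex c K₀ g E Φ := fun n s w k h => by
    rw [PhM, sx, Finsupp.linearCombination_single, one_smul, dif_pos ⟨(w, k), h⟩]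
    exact wd hΦ hne hE hg h (Exists.choose_spec (p := fun y : (Fin n → σ → ℝ) × (α → ℝ) =>
      Vld ex c K₀ (vtx s) y.1 y.2) _)
  refine ⟨W, ?_⟩
  set lam := exp (-(2 * Real.pi * I * (∑ a ∈ E, g a : ℝ))) with hlam
  refine all_eq (PhM ex c K₀ g E Φ ∘ₗ (Tl dk lam ^ (q + 1) : Module.End ℂ _)) 0 ?_
  rintro ⟨n, s⟩
  show PhM ex c K₀ g E Φ ((Tl dk lam ^ (q + 1)) (sx ℂ s)) = 0
  have st : ∀ (N : ℕ) (s : C(Dl n, YY σ)), PhM ex c K₀ g E Φ ((Tl dk lam ^ (N + 1)) (sx ℂ s)) =
      PhM ex c K₀ g E Φ ((Tl dk lam ^ N) (sx ℂ ((⟨dk, dk_cont⟩ : C(YY σ, YY σ)).comp s))) -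
        lam * PhM ex c K₀ g E Φ ((Tl dk lam ^ N) (sx ℂ s)) := fun N s => by
    rw [pow_succ, Module.End.mul_apply, Tl_apply, map_sub, map_sub, map_smul, map_smul,
      push_sx_eq dk s ((⟨dk, dk_cont⟩ : C(YY σ, YY σ)).comp s) fun _ => rfl, smul_eq_mul]
  by_cases hv : ∃ y : (Fin n → σ → ℝ) × (α → ℝ), Vld ex c K₀ (vtx s) y.1 y.2
  · obtain ⟨⟨w, k⟩, hv⟩ := hv
    obtain ⟨P, p1, p2⟩ := hΦ.poly (ax ℝ fun j => (lab ex c K₀ (vtx s j), w j))
    let Q : Polynomial ℝ := MvPolynomial.aeval (fun a => Polynomial.C (k a) - Polynomial.X) P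
    have hQ : ∀ x, Q.eval x = MvPolynomial.eval (k - fun _ => x) P := fun x => by
      have := MvPolynomial.comp_aeval_apply (fun a => Polynomial.C (k a) - Polynomial.X)
        (Polynomial.aeval x) P
      simpa [Q, Pi.sub_def] using this
    have key : ∀ (N : ℕ) (x : ℝ) (s' : C(Dl n, YY σ)), Vld ex c K₀ (vtx s') w (k - fun _ => x) →
        (∀ j, lab ex c K₀ (vtx s' j) = lab ex c K₀ (vtx s j)) →
        PhM ex c K₀ g E Φ ((Tl dk lam ^ N) (sx ℂ s')) =
          lam ^ N * chi g E (k - fun _ => x) * ((fwdDiff 1)^[N] Q.eval x : ℝ) := by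
      intro N
      induction N with
      | zero =>
        intro x s' h1 h2
        rw [pow_zero, Module.End.one_apply, W n s' w _ h1, pow_zero, one_mul]
        simp only [h2, p2, Function.iterate_zero, id, hQ]
      | succ N ih =>
        intro x s' h1 h2
        have h3 : chi g E (k - fun _ => x + 1) = lam * chi g E (k - fun _ => x) := by
          rw [hlam, chi, chi, ← exp_add]
          simp only [Pi.sub_apply, mul_sub, mul_add, mul_one, Finset.sum_sub_distrib,
            Finset.sum_add_distrib]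
          congr 1
          rw [ofReal_sub, ofReal_add, ofReal_sub]
          ring
        have h4 : (k - fun _ => x + 1) + 1 = k - fun _ => x := by ext; simp; ring
        rw [← h4] at h1
        have h5 := ih (x + 1) ((⟨dk, dk_cont⟩ : C(YY σ, YY σ)).comp s')
          ((vld_dk (p := vtx s')).2 h1) fun j => (lab_dk ex c K₀ (vtx s' j)).trans (h2 j)
        rw [h4] at h1
        rw [st, ih x s' h1 h2, h5, h3, Function.iterate_succ_apply', fwdDiff]
        push_cast
        ring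
    rw [key _ 0 s (by simpa [Pi.sub_def] using hv) fun _ => rfl,
      Polynomial.fwdDiff_iter_eq_zero_of_degree_lt (Nat.lt_succ_of_le ?_)]
    · simp
    · simpa using MvPolynomial.aeval_natDegree_le (n := 1) P p1
        (fun a => Polynomial.C (k a) - Polynomial.X) fun a =>
        (Polynomial.natDegree_sub_le _ _).trans (by simp)
  · have key : ∀ (N : ℕ) (s' : C(Dl n, YY σ)),
        (¬ ∃ y : (Fin n → σ → ℝ) × (α → ℝ), Vld ex c K₀ (vtx s') y.1 y.2) →
        PhM ex c K₀ g E Φ ((Tl dk lam ^ N) (sx ℂ s')) = 0 := by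
      intro N
      induction N with
      | zero =>
        intro s' h
        rw [pow_zero, Module.End.one_apply, PhM, sx, Finsupp.linearCombination_single, one_smul,
          dif_neg h]
      | succ N ih =>
        intro s' h
        rw [st, ih s' h, ih _ fun ⟨y, hy⟩ => h ⟨(y.1, y.2 + 1), (vld_dk (p := vtx s')).1 hy⟩]
        simp
    exact key _ s hv

end Pool.Agent.P.MP_9321be_ag.ND.E
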