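import Pool.Agent.P.MP_9321be_ag.ND.EIface

/-!
Almost minimal exponents form a face.
-/

namespace Pool.Agent.P.MP_9321be_ag.ND.E

open Set Filter Topology

namespace KApprox

theorem bnd {E : Type} [Fintype E] (x q : E → ℝ) {C : ℝ} (h : ‖q‖ ≤ C) :
    |x ⬝ᵥ q| ≤ ∑ i, |x i| * C :=
  (Finset.abs_sum_le_sum_abs _ _).trans (Finset.sum_le_sum fun i _ => by
    rw [abs_mul]
    exact mul_le_mul_of_nonneg_left ((norm_le_pi_norm q i).trans h) (abs_nonneg _))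

theorem one (hT : S_TC) {α E : Type} [Fintype E] (w : α → E → ℝ) (M : ℝ) (G ρ : Finset α) :
    ∃ C : ℕ, ρ ⊆ G → ∀ p, (∀ a ∈ ρ, ∀ b ∈ G, w a ⬝ᵥ p ≤ w b ⬝ᵥ p + M) →
      ∃ q, ‖q‖ ≤ C ∧ ∀ a ∈ ρ, ∀ b ∈ G, w a ⬝ᵥ (p - q) ≤ w b ⬝ᵥ (p - q) := by
  classical
  by_contra hn
  push Not at hn
  choose hρ p h1 h2 using hn
  obtain ⟨a₁, ha₁, -⟩ := h2 0 0 (by simp)
  have : Nonempty G := ⟨⟨a₁, hρ 0 ha₁⟩⟩
  obtain ⟨F, q, C, ⟨a₀, ha₀⟩, h3, h4⟩ := hT G E ℕ (fun a => w a) (hyperfilter ℕ) p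
  have hF : ∀ a (ha : a ∈ ρ), (⟨a, hρ 0 ha⟩ : G) ∈ F := fun a ha => by_contra fun hn => by
    obtain ⟨j, hj⟩ := ((h4 a₀ ha₀ _ hn).eventually_gt_atTop M).exists
    have := h1 j a ha a₀ a₀.2
    simp only at hj
    linarith
  have h5 : ∀ᶠ j in hyperfilter ℕ, ∀ a ∈ F, ∀ b ∉ F,
      ∑ i, |w a i| * C + ∑ i, |w b i| * C ≤ w b ⬝ᵥ p j - w a ⬝ᵥ p j := by
    simp only [eventually_all]
    exact fun a ha b hb => (h4 a ha b hb).eventually_ge_atTop _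
  have h6 : ∀ᶠ j : ℕ in hyperfilter ℕ, C ≤ j :=
    Nat.hyperfilter_le_atTop (tendsto_natCast_atTop_atTop.eventually_ge_atTop C)
  obtain ⟨j, ⟨k1, k2⟩, k3, k4⟩ := (h3.and (h5.and h6)).exists
  obtain ⟨a, ha, b, hb, k5⟩ := h2 j (q j) (k1.trans k4)
  by_cases hbF : (⟨b, hb⟩ : G) ∈ F
  · exact k5.ne (k2 _ hbF _ (hF a ha))
  · have k6 := k3 _ (hF a ha) _ hbF
    have k7 := abs_le.1 (bnd (w a) (q j) k1)
    have k8 := abs_le.1 (bnd (w b) (q j) k1)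
    simp only [dotProduct_sub] at k5 k6
    linarith [k7.1, k8.2]

theorem all (hT : S_TC) {α E : Type} [Fintype α] [Fintype E] (w : α → E → ℝ) (M : ℝ) :
    ∃ C : ℝ, 0 ≤ C ∧ ∀ G ρ : Finset α, ρ ⊆ G → ∀ p, (∀ a ∈ ρ, ∀ b ∈ G, w a ⬝ᵥ p ≤ w b ⬝ᵥ p + M) →
      ∃ q : E → ℝ, (∀ i, 1 ≤ C - q i) ∧ ∀ a ∈ ρ, ∀ b ∈ G, w a ⬝ᵥ (p - q) ≤ w b ⬝ᵥ (p - q) := by
  choose C hC using one hT w M
  obtain ⟨D, hD⟩ := (finite_range fun x : Finset α × Finset α => C x.1 x.2).bddAbove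
  refine ⟨D + 1, by positivity, fun G ρ h p hp => ?_⟩
  obtain ⟨q, h1, h2⟩ := hC G ρ h p hp
  refine ⟨q, fun i => ?_, h2⟩
  have h3 : (C G ρ : ℝ) ≤ D := Nat.cast_le.2 (hD ⟨(G, ρ), rfl⟩)
  linarith [Real.le_norm_self (q i), norm_le_pi_norm q i]

theorem pos {α σ : Type} [Fintype σ] {ex : α → σ → ℕ} {a : α} (h : ex a ≠ 0) {x : σ → ℝ}
    (hx : ∀ i, 1 ≤ x i) : 1 ≤ rv ex a ⬝ᵥ x := by
  obtain ⟨i, hi⟩ := Function.ne_iff.1 h
  have h1 : (1 : ℝ) ≤ ex a i := Nat.one_le_cast.2 (Nat.pos_of_ne_zero hi)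
  exact (one_le_mul_of_one_le_of_one_le h1 (hx i)).trans (Finset.single_le_sum
    (f := fun i => rv ex a i * x i) (fun j _ => mul_nonneg (Nat.cast_nonneg _)
      (zero_le_one.trans (hx j))) (Finset.mem_univ i))

end KApprox

open KApprox in
theorem t_KApprox : S_TC → S_KApprox := by
  intro hT α σ _ _ _ _ ex h κ hc _
  classical
  obtain ⟨C, hC, h2⟩ := all hT (fun a (o : Option σ) => o.elim (h a) (rv ex a)) κ
  refine ⟨C + 1, by positivity, fun L hL => ?_⟩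
  obtain ⟨M, hM⟩ := (finite_range fun x : α × α => L * h x.2 + κ - L * h x.1).bddAbove
  obtain ⟨P, -, h1⟩ := all hT (rv ex) M
  refine ⟨P, fun p hp => ?_⟩
  generalize hρ : (Finset.univ.filter fun a =>
    ∀ b, rv ex a ⬝ᵥ p + L * h a ≤ rv ex b ⬝ᵥ p + L * h b + κ) = ρ
  have hn : ∀ a ∈ ρ, ∀ b, rv ex a ⬝ᵥ p + L * h a ≤ rv ex b ⬝ᵥ p + L * h b + κ := fun a ha =>
    (Finset.mem_filter.1 (hρ ▸ ha :)).2
  rcases ρ.eq_empty_or_nonempty with rfl | ⟨a₀, ha₀⟩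
  · obtain ⟨c, hc'⟩ := (finite_range fun a => -h a).bddAbove
    refine ⟨1, c • 1, fun a => pos (hc.1 a) fun _ => le_rfl, by simp, fun a ha => ?_⟩
    rw [dotProduct_smul, ha, smul_eq_mul]
    linarith [hc' ⟨a, rfl⟩]
  obtain ⟨q, k1, k2⟩ := h1 Finset.univ ρ ρ.subset_univ p fun a ha b _ => by
    linarith [hn a ha b, hM ⟨(a, b), rfl⟩]
  have hμ : 0 < rv ex a₀ ⬝ᵥ (p - q) :=
    one_pos.trans_le (pos (hc.1 a₀) fun i => (k1 i).trans (sub_le_sub_right (hp i) _))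
  obtain ⟨u, u1, u2⟩ : ∃ u : σ → ℝ, (∀ a, 1 ≤ rv ex a ⬝ᵥ u) ∧ ∀ a ∈ ρ, rv ex a ⬝ᵥ u = 1 := by
    refine ⟨(rv ex a₀ ⬝ᵥ (p - q))⁻¹ • (p - q), fun a => ?_, fun a ha => ?_⟩ <;>
      rw [dotProduct_smul, smul_eq_mul, ← div_eq_inv_mul]
    · exact (one_le_div hμ).2 (k2 a₀ ha₀ a (Finset.mem_univ _))
    · rw [(k2 a ha a₀ (Finset.mem_univ _)).antisymm (k2 a₀ ha₀ a (Finset.mem_univ _)),
        div_self hμ.ne']
  have e : ∀ a (y : Option σ → ℝ), (fun o : Option σ => o.elim (h a) (rv ex a)) ⬝ᵥ y =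
      rv ex a ⬝ᵥ (fun i => y (some i)) + y none * h a := fun a y => by
    simp only [dotProduct, Fintype.sum_option, Option.elim]
    ring
  obtain ⟨r, r1, r2⟩ := h2 (Finset.univ.filter fun a => rv ex a ⬝ᵥ u = 1) ρ
    (fun a ha => Finset.mem_filter.2 ⟨Finset.mem_univ _, u2 a ha⟩) (fun o => o.elim L p)
    fun a ha b _ => by rw [e, e]; exact hn a ha b
  simp only [e] at r2
  generalize (fun i => ((fun o : Option σ => o.elim L p) - r) (some i)) = x at r2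
  have hl : 0 < ((fun o : Option σ => o.elim L p) - r) none := by
    have := r1 none
    simp only [Pi.sub_apply, Option.elim]
    linarith
  generalize ((fun o : Option σ => o.elim L p) - r) none = l at r2 hl
  have r3 : ∀ a ∈ ρ, ∀ b, rv ex b ⬝ᵥ u = 1 →
      rv ex a ⬝ᵥ (l⁻¹ • x) + h a ≤ rv ex b ⬝ᵥ (l⁻¹ • x) + h b := fun a ha b hb => by
    have := mul_le_mul_of_nonneg_left (r2 a ha b (Finset.mem_filter.2 ⟨Finset.mem_univ _, hb⟩))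
      (inv_pos.2 hl).le
    simpa only [mul_add, inv_mul_cancel_left₀ hl.ne', dotProduct_smul, smul_eq_mul] using this
  generalize l⁻¹ • x = ω at r3
  refine ⟨u, ω - (rv ex a₀ ⬝ᵥ ω + h a₀) • u, u1, fun a ha => ⟨u2 a ha, ?_⟩, fun a ha => ?_⟩
  · rw [dotProduct_sub, dotProduct_smul, u2 a ha, smul_eq_mul]
    linarith [r3 a ha a₀ (u2 a₀ ha₀), r3 a₀ ha₀ a (u2 a ha)]
  · rw [dotProduct_sub, dotProduct_smul, ha, smul_eq_mul]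
    linarith [r3 a₀ ha₀ a ha]

end Pool.Agent.P.MP_9321be_ag.ND.E
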