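import Pool.Agent.P.MP_9321be_ag.ND.ETool

/-!
Local structure of the labels.
-/

namespace Pool.Agent.P.MP_9321be_ag.ND.E

open Set Complex Filter Topology

namespace SingB

variable {α σ : Type} [Fintype α] [Fintype σ] {ex : α → σ → ℕ} {c : α → ℂ} {K₀ : ℝ} {p : YY σ}

theorem sum_zz (h : ev ex c p.1 = exp p.2) : ∑ a, zz ex c a p = 1 := by
  simp only [zz, ← Finset.sum_mul]
  rw [← ev, h, ← exp_add, add_neg_cancel, exp_zero]

theorem one_le (h : ev ex c p.1 = exp p.2) : 1 ≤ ∑ a, ‖zz ex c a p‖ := by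
  simpa [sum_zz h] using norm_sum_le Finset.univ fun a => zz ex c a p

theorem exists_Va [Nonempty α] (hK : 3 * (Fintype.card α : ℝ) ≤ K₀) (h : ev ex c p.1 = exp p.2) :
    ∃ a, p ∈ Va ex c K₀ a := by
  by_contra hcon
  have hm : (0 : ℝ) < Fintype.card α := by exact_mod_cast Fintype.card_pos
  have h1 := one_le h
  set T := ∑ a, ‖zz ex c a p‖ with hT
  have h2 : ∀ a, K₀ * (2 * (zz ex c a p).re + ‖zz ex c a p‖) ≤ 3 * T := fun a => by
    by_cases h3 : T < K₀ * ‖zz ex c a p‖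
    · have : (zz ex c a p).re ≤ -‖zz ex c a p‖ / 2 := not_lt.1 fun h4 => hcon ⟨a, h3, h4⟩
      nlinarith
    · nlinarith [re_le_norm (zz ex c a p)]
  have h3 := Finset.sum_le_sum fun a (_ : a ∈ Finset.univ) => h2 a
  rw [← Finset.mul_sum, Finset.sum_add_distrib, ← Finset.mul_sum, ← re_sum, sum_zz h, ← hT] at h3
  simp only [one_re, Finset.sum_const, Finset.card_univ, nsmul_eq_mul] at h3
  nlinarith

theorem lab_mem [Nonempty α] (hK : 3 * (Fintype.card α : ℝ) ≤ K₀) (h : ev ex c p.1 = exp p.2) :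
    p ∈ Va ex c K₀ (lab ex c K₀ p) := Classical.epsilon_spec (exists_Va hK h)

omit [Fintype α] in
theorem kap_int {h : α → ℝ} {L : ℝ} {w : σ → ℝ} (hw : Lft p.1 w) (a : α) :
    ∃ z : ℤ, kap ex (vc h L) a p w = z := by
  have h1 : mon (ex a) p.1 = (∏ i, ‖p.1 i‖ ^ ex a i : ℝ) *
      exp (∑ i, ex a i * (2 * Real.pi * I * w i)) := by
    rw [← Tool.mon_exp, mon, mon]
    push_cast
    rw [← Finset.prod_mul_distrib]
    exact Finset.prod_congr rfl fun i _ => by rw [← mul_pow, ← (hw i).2]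
  have hρ : 0 < Real.exp (-(L * h a)) * (∏ i, ‖p.1 i‖ ^ ex a i) * Real.exp (-p.2.re) :=
    mul_pos (mul_pos (Real.exp_pos _) (Finset.prod_pos fun i _ =>
      pow_pos (norm_pos_iff.2 (hw i).1) _)) (Real.exp_pos _)
  have h2 : zz ex (vc h L) a p =
      (Real.exp (-(L * h a)) * (∏ i, ‖p.1 i‖ ^ ex a i) * Real.exp (-p.2.re) : ℝ) *
        exp ((2 * Real.pi * (rv ex a ⬝ᵥ w) - p.2.im : ℝ) * I) := by
    rw [zz, h1, vc, ofReal_mul, ofReal_mul, ofReal_exp (-p.2.re), ← mul_assoc,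
      mul_assoc (_ * _), mul_assoc (_ * _) (exp _), ← exp_add, ← exp_add]
    refine congrArg _ (congrArg _ ?_)
    conv_lhs => rw [← re_add_im p.2]
    simp only [rv, dotProduct, Finset.mul_sum]
    push_cast
    rw [sub_mul, Finset.sum_mul, Finset.sum_congr rfl fun i _ => show
      (ex a i : ℂ) * (2 * Real.pi * I * w i) = 2 * Real.pi * (ex a i * w i) * I by ring]
    ring
  refine ⟨toIocDiv Real.two_pi_pos (-Real.pi) (2 * Real.pi * (rv ex a ⬝ᵥ w) - p.2.im), ?_⟩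
  rw [kap, h2, arg_real_mul _ hρ, arg_exp_mul_I, ← self_sub_toIocDiv_zsmul, zsmul_eq_mul]
  field_simp
  ring

end SingB

open SingB

theorem t_SingB : S_SingB := by
  intro α σ _ _ _ _ _ ex h L K₀ K S hK hN p hp
  classical
  obtain ⟨e, hτ⟩ := hN p hp
  set c := vc h L
  set τ := Finset.univ.filter fun a => ∑ b, ‖zz ex c b p‖ ≤ K₀ * ‖zz ex c a p‖
  have mτ : ∀ a, a ∈ τ ↔ ∑ b, ‖zz ex c b p‖ ≤ K₀ * ‖zz ex c a p‖ := by simp [τ]
  have e1 : ∀ᶠ q in 𝓝 p, ∀ a, q ∈ Va ex c K₀ a →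
      a ∈ τ ∧ -‖zz ex c a p‖ / 2 ≤ (zz ex c a p).re := eventually_all.2 fun a => by
    by_cases h1 : a ∈ τ
    · by_cases h2 : -‖zz ex c a p‖ / 2 ≤ (zz ex c a p).re
      · exact .of_forall fun _ _ => ⟨h1, h2⟩
      · exact (ContinuousAt.eventually_lt (f := fun q => (zz ex c a q).re)
          (g := fun q => -‖zz ex c a q‖ / 2) (by fun_prop) (by fun_prop) (not_le.1 h2)).mono
          fun q hq hv => (lt_asymm hq hv.2).elim
    · exact (ContinuousAt.eventually_lt (f := fun q => K₀ * ‖zz ex c a q‖)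
        (g := fun q => ∑ b, ‖zz ex c b q‖) (by fun_prop) (by fun_prop)
        (not_le.1 (mt (mτ a).2 h1))).mono fun q hq hv => (lt_asymm hq hv.1).elim
  suffices H : ∃ (w : YY σ → σ → ℝ) (k : α → ℝ), Intr (rv ex) τ → ∀ᶠ q in 𝓝 p,
      Lft q.1 (w q) ∧ (∀ i, |w q i - w p i| < 1 / 4) ∧
      ∀ a ∈ τ, -‖zz ex c a p‖ / 2 ≤ (zz ex c a p).re → kap ex c a q (w q) = k a by
    obtain ⟨w, k, H⟩ := H
    obtain ⟨N, n1, n2, n3⟩ := eventually_nhds_iff.1 (e1.and (eventually_imp_distrib_left.2 H))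
    have l1 := fun q (hq : q ∈ S ∩ N) => (n1 q hq.2).1 _ (lab_mem hK (hN q hq.1).1)
    refine ⟨N, n2, n3, τ, hτ, fun q hq => (l1 q hq).1, fun hI => ⟨w, k, fun n t ht =>
      ⟨fun j => ((n1 _ (ht j).2).2 hI).1, fun j j' i => ?_, fun j =>
        ((n1 _ (ht j).2).2 hI).2.2 _ (l1 _ (ht j)).1 (l1 _ (ht j)).2⟩⟩⟩
    have a1 := abs_lt.1 (((n1 _ (ht j).2).2 hI).2.1 i)
    have a2 := abs_lt.1 (((n1 _ (ht j').2).2 hI).2.1 i)
    simp only [Function.comp_apply]
    rw [abs_lt]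
    constructor <;> linarith
  have nz : ∀ a ∈ τ, zz ex c a p ≠ 0 := fun a ha h0 => by
    have := (one_le e).trans ((mτ a).1 ha)
    norm_num [h0] at this
  let w : YY σ → σ → ℝ := fun q i => (arg (p.1 i) + arg (q.1 i / p.1 i)) / (2 * Real.pi)
  refine ⟨w, fun a => kap ex c a p (w p), fun hI => ?_⟩
  have hx : ∀ i, p.1 i ≠ 0 := fun i => by
    obtain ⟨a, h1, h2⟩ := hI i
    exact (Tool.mon_ne_zero_iff _ _).1 (right_ne_zero_of_mul (left_ne_zero_of_mul (nz a h1))) i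
      (by simpa [rv] using h2)
  have cw : ContinuousAt w p := continuousAt_pi.2 fun i =>
    (continuousAt_const.add (ContinuousAt.comp (f := fun q : YY σ => q.1 i / p.1 i)
      (continuousAt_arg (by simp [hx i])) (by fun_prop))).div_const _
  have e2 : ∀ᶠ q in 𝓝 p, Lft q.1 (w q) := by
    filter_upwards [eventually_all.2 fun i => ContinuousAt.eventually_ne
      (g := fun q : YY σ => q.1 i) (by fun_prop) (hx i)] with q hq i
    refine ⟨hq i, ?_⟩
    have h1 : 2 * Real.pi * I * w q i = arg (p.1 i) * I + arg (q.1 i / p.1 i) * I := by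
      simp only [w]
      push_cast
      field_simp
    have h2 : (‖q.1 i‖ : ℂ) = ‖p.1 i‖ * ‖q.1 i / p.1 i‖ := by
      rw [← ofReal_mul, ← norm_mul, mul_div_cancel₀ _ (hx i)]
    rw [h1, h2, exp_add, mul_mul_mul_comm, norm_mul_exp_arg_mul_I, norm_mul_exp_arg_mul_I,
      mul_div_cancel₀ _ (hx i)]
  have cl : ∀ {F : YY σ → ℝ} (_ : ContinuousAt F p) {r : ℝ}, 0 < r →
      ∀ᶠ q in 𝓝 p, |F q - F p| < r := fun hF _ hr => Metric.tendsto_nhds.1 hF _ hr
  refine e2.and ((eventually_all.2 fun i => cl (continuousAt_pi.1 cw i) (by norm_num)).and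
    ((eventually_all_finset _).2 fun a ha => eventually_imp_distrib_left.2 fun h2 => ?_))
  have sl : zz ex c a p ∈ slitPlane := by
    by_contra hs
    rw [mem_slitPlane_iff, not_or, not_lt, not_not] at hs
    have h3 := norm_pos_iff.2 (nz a ha)
    have h4 := norm_le_abs_re_add_abs_im (zz ex c a p)
    rw [hs.2, abs_of_nonpos hs.1, abs_zero] at h4
    linarith
  have ck : ContinuousAt (fun q => kap ex c a q (w q)) p :=
    ((ContinuousAt.comp (g := fun y => rv ex a ⬝ᵥ y) (by fun_prop) cw).sub (by fun_prop)).sub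
      ((ContinuousAt.comp (f := zz ex c a) (continuousAt_arg sl) (by fun_prop)).div_const _)
  filter_upwards [e2, cl ck one_pos] with q h3 h4
  obtain ⟨z, hz⟩ := kap_int (ex := ex) (h := h) (L := L) h3 a
  obtain ⟨z', hz'⟩ := kap_int (ex := ex) (h := h) (L := L) e2.self_of_nhds a
  simp only [c, hz, hz'] at h4 ⊢
  exact_mod_cast sub_eq_zero.1 (Int.abs_lt_one_iff.1 (by exact_mod_cast h4))

end Pool.Agent.P.MP_9321be_ag.ND.E
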