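import Pool.Agent.P.MP_9321be_ag.ND.ETool

/-!
Near the origin the large terms of the patchworking polynomial form a face.
-/

namespace Pool.Agent.P.MP_9321be_ag.ND.E

namespace Near

variable {α σ : Type} [Fintype α] [Fintype σ]

omit [Fintype α] in
theorem norm_vc (h : α → ℝ) (L : ℝ) (a : α) : ‖vc h L a‖ = Real.exp (-(L * h a)) := by
  rw [vc, Complex.norm_real, Real.norm_of_nonneg (Real.exp_pos _).le]

omit [Fintype α] in
theorem norm_tm (ex : α → σ → ℕ) (h : α → ℝ) (L : ℝ) (a : α) {x : σ → ℂ} (hx : ∀ i, x i ≠ 0) :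
    ‖vc h L a * mon (ex a) x‖ =
      Real.exp (-(rv ex a ⬝ᵥ (fun i => -Real.log ‖x i‖) + L * h a)) := by
  rw [norm_mul, norm_vc, Tool.norm_mon, neg_add, Real.exp_add, mul_comm, dotProduct,
    ← Finset.sum_neg_distrib, Real.exp_sum]
  congr 1
  refine Finset.prod_congr rfl fun i _ => ?_
  rw [rv, mul_neg, neg_neg, Real.exp_nat_mul, Real.exp_log (norm_pos_iff.2 (hx i))]

theorem face [DecidableEq α] [DecidableEq σ] (H : S_KApprox) (ex : α → σ → ℕ) (h : α → ℝ)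
    (hc : Conv ex) {K : ℝ} (hK : 0 < K) : ∃ L₀ > 0, ∀ L ≥ L₀, ∃ ε > 0, ∀ x : σ → ℂ, ‖x‖ < ε →
      0 < ∑ b, ‖vc h L b * mon (ex b) x‖ → ∀ τ : Finset α,
      (∀ a ∈ τ, ∑ b, ‖vc h L b * mon (ex b) x‖ ≤ K * ‖vc h L a * mon (ex a) x‖) →
      τ ∈ KK (rv ex) h := by
  obtain ⟨L₀, h0, H1⟩ := H α σ ex h (2 * K) hc (by positivity)
  refine ⟨L₀, h0, fun L hL => ?_⟩
  obtain ⟨P, H2⟩ := H1 L hL
  refine ⟨Real.exp (-P), Real.exp_pos _, fun x hx hS τ hτ => ?_⟩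
  have hU : IsOpen {x : σ → ℂ | ‖x‖ < Real.exp (-P) ∧ ∀ a ∈ τ,
      ∑ b, ‖vc h L b * mon (ex b) x‖ < 2 * K * ‖vc h L a * mon (ex a) x‖} := by
    refine IsOpen.and (isOpen_lt (by fun_prop) (by fun_prop)) ?_
    simp only [Set.ofPred_forall]
    exact isOpen_biInter_finset fun a _ => isOpen_lt (by fun_prop) (by fun_prop)
  have hd : Dense (Set.pi Set.univ fun _ : σ => ({0}ᶜ : Set ℂ)) :=
    dense_pi _ fun _ _ => dense_compl_singleton 0
  obtain ⟨y, hy, hy1, hy2⟩ := hd.exists_mem_open hU ⟨x, hx, fun a ha => by linarith [hτ a ha]⟩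
  have hy0 : ∀ i, y i ≠ 0 := fun i => hy i trivial
  obtain ⟨u, ω, h1, h2, h3⟩ := H2 (fun i => -Real.log ‖y i‖) fun i => by
    have := Real.log_le_log (norm_pos_iff.2 (hy0 i)) ((norm_le_pi_norm y i).trans hy1.le)
    rw [Real.log_exp] at this
    linarith
  refine ⟨u, ω, h1, fun a ha => h2 a (Finset.mem_filter.2 ⟨Finset.mem_univ _, fun b => ?_⟩), h3⟩
  have h4 := (Finset.single_le_sum (f := fun b => ‖vc h L b * mon (ex b) y‖)
    (fun _ _ => norm_nonneg _) (Finset.mem_univ b)).trans (hy2 a ha).le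
  have h5 : 2 * K ≤ Real.exp (2 * K) := by linarith [Real.add_one_le_exp (2 * K)]
  have h6 := h4.trans (mul_le_mul_of_nonneg_right h5 (norm_nonneg _))
  simp only [norm_tm ex h L _ hy0] at h6
  rw [← Real.exp_add, Real.exp_le_exp] at h6
  linarith

theorem bound (ex : α → σ → ℕ) {K : Set (Finset α)} (hI : Ind (rv ex) K) :
    ∃ C : ℝ, 0 ≤ C ∧ ∀ τ ∈ K, ∀ y : α → ℂ, ∀ b ∈ τ,
      ‖y b‖ ≤ C * ∑ i, ‖∑ a ∈ τ, y a * ex a i‖ := by
  classical
  have key : ∀ (τ : Finset α) (b : α), ∃ C : ℝ, 0 ≤ C ∧ (τ ∈ K → b ∈ τ → ∀ y : α → ℂ,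
      ‖y b‖ ≤ C * ∑ i, ‖∑ a ∈ τ, y a * ex a i‖) := fun τ b => by
    by_cases hτ : τ ∈ K
    swap
    · exact ⟨0, le_rfl, fun h => absurd h hτ⟩
    obtain ⟨L, hL, -⟩ := Tool.exists_dual (hI τ hτ)
    refine ⟨‖L (Pi.single b 1)‖, norm_nonneg _, fun _ hb y => ?_⟩
    have h1 : y b = ∑ i, (L (Pi.single b 1) i : ℂ) * ∑ a ∈ τ, y a * ex a i := by
      simp only [Finset.mul_sum]
      rw [Finset.sum_comm, Finset.sum_congr rfl (g := fun a => y a * (Pi.single b 1 : α → ℝ) a)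
        fun a ha => ?_, Finset.sum_eq_single b (fun a _ hab => by simp [hab]) (by simp [hb])]
      · simp
      · rw [← hL (Pi.single b 1) a ha, dotProduct, Complex.ofReal_sum, Finset.mul_sum]
        refine Finset.sum_congr rfl fun i _ => ?_
        simp only [rv, Complex.ofReal_mul, Complex.ofReal_natCast]
        ring
    rw [h1, Finset.mul_sum]
    refine (norm_sum_le _ _).trans (Finset.sum_le_sum fun i _ => ?_)
    rw [norm_mul, Complex.norm_real]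
    exact mul_le_mul_of_nonneg_right (norm_le_pi_norm _ i) (norm_nonneg _)
  choose C h0 hC using key
  refine ⟨∑ τ, ∑ b, C τ b, Finset.sum_nonneg fun _ _ => Finset.sum_nonneg fun _ _ => h0 _ _,
    fun τ hτ y b hb => (hC τ b hτ hb y).trans (mul_le_mul_of_nonneg_right ?_ (by positivity))⟩
  exact (Finset.single_le_sum (fun b _ => h0 τ b) (Finset.mem_univ b)).trans
    (Finset.single_le_sum (f := fun τ => ∑ b, C τ b)
      (fun _ _ => Finset.sum_nonneg fun _ _ => h0 _ _) (Finset.mem_univ τ))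

theorem grad (ex : α → σ → ℕ) {K : Set (Finset α)} (hI : Ind (rv ex) K) :
    ∃ K₁ > 0, ∃ M : ℝ, 0 ≤ M ∧ ∀ y : α → ℂ,
      (∀ τ : Finset α, (∀ a ∈ τ, ∑ b, ‖y b‖ ≤ K₁ * ‖y a‖) → τ ∈ K) →
      ∑ b, ‖y b‖ ≤ M * ∑ i, ‖∑ a, y a * ex a i‖ := by
  classical
  obtain ⟨C, hC0, hC⟩ := bound ex hI
  obtain ⟨D, hD⟩ : ∃ D : ℝ, D = ∑ i, ∑ a, (ex a i : ℝ) := ⟨_, rfl⟩
  obtain ⟨m, hm⟩ : ∃ m : ℝ, m = Fintype.card α := ⟨_, rfl⟩
  have hD0 : 0 ≤ D := by rw [hD]; positivity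
  have hm0 : 0 ≤ m := by rw [hm]; positivity
  obtain ⟨K₁, hK⟩ : ∃ K₁, K₁ = m * C * D + m + 1 := ⟨_, rfl⟩
  have hK0 : 0 < K₁ := by rw [hK]; positivity
  refine ⟨K₁, hK0, m * C * K₁, by positivity, fun y hy => ?_⟩
  obtain ⟨S, hS⟩ : ∃ S, S = ∑ b, ‖y b‖ := ⟨_, rfl⟩
  have hS0 : 0 ≤ S := by rw [hS]; positivity
  rw [← hS] at hy ⊢
  obtain ⟨τ, hτ⟩ : ∃ τ : Finset α, ∀ a, a ∈ τ ↔ S ≤ K₁ * ‖y a‖ :=
    ⟨Finset.univ.filter fun a => S ≤ K₁ * ‖y a‖, by simp⟩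
  have h1 := hC τ (hy τ fun a => (hτ a).1) y
  obtain ⟨W, hW⟩ : ∃ W, W = ∑ i, ‖∑ a ∈ τ, y a * ex a i‖ := ⟨_, rfl⟩
  have hW0 : 0 ≤ W := by rw [hW]; positivity
  rw [← hW] at h1
  have h2 : K₁ * W ≤ K₁ * ∑ i, ‖∑ a, y a * ex a i‖ + D * S := by
    rw [hW, hD, Finset.mul_sum, Finset.mul_sum, Finset.sum_mul, ← Finset.sum_add_distrib]
    refine Finset.sum_le_sum fun i _ => ?_
    have h3 : K₁ * ‖∑ a ∈ τᶜ, y a * ex a i‖ ≤ (∑ a, (ex a i : ℝ)) * S := by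
      refine (mul_le_mul_of_nonneg_left (norm_sum_le _ _) hK0.le).trans ?_
      rw [Finset.mul_sum, Finset.sum_mul]
      refine (Finset.sum_le_sum fun a ha => ?_).trans (Finset.sum_le_sum_of_subset_of_nonneg
        (Finset.subset_univ τᶜ) fun _ _ _ => by positivity)
      rw [norm_mul, Complex.norm_natCast, ← mul_assoc, mul_comm]
      exact mul_le_mul_of_nonneg_left
        (not_le.1 fun h => Finset.mem_compl.1 ha ((hτ a).2 h)).le (by positivity)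
    have h4 : ‖∑ a ∈ τ, y a * ex a i‖ ≤ ‖∑ a, y a * ex a i‖ + ‖∑ a ∈ τᶜ, y a * ex a i‖ := by
      rw [eq_sub_of_add_eq (Finset.sum_add_sum_compl τ fun a => y a * ex a i)]
      exact norm_sub_le _ _
    nlinarith
  have h3 : K₁ * S ≤ m * (K₁ * (C * W) + S) := by
    conv_lhs => rw [hS, Finset.mul_sum]
    refine (Finset.sum_le_card_nsmul _ _ (K₁ * (C * W) + S) fun b _ => ?_).trans_eq (by simp [hm, mul_add])
    by_cases hb : b ∈ τ
    · exact (mul_le_mul_of_nonneg_left (h1 b hb) hK0.le).trans (le_add_of_nonneg_right hS0)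
    · exact (not_le.1 fun h => hb ((hτ b).2 h)).le.trans (le_add_of_nonneg_left (by positivity))
  have h4 := mul_le_mul_of_nonneg_left h2 (mul_nonneg hm0 hC0)
  have h5 : K₁ * S = m * C * D * S + m * S + S := by rw [hK]; ring
  nlinarith

end Near

theorem t_Near : S_KApprox → S_Near := by
  intro H α σ _ _ _ _ ex h K₀ hc hI hK
  obtain ⟨K₁, hK1, M, hM, hg⟩ := Near.grad ex hI
  obtain ⟨L₁, h1, H1⟩ := Near.face H ex h hc hK1
  obtain ⟨L₂, -, H2⟩ := Near.face H ex h hc hK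
  refine ⟨max L₁ L₂, lt_max_of_lt_left h1, fun L hL => ⟨?_, ?_⟩⟩
  · obtain ⟨ε, hε, H3⟩ := H1 L ((le_max_left _ _).trans hL)
    obtain ⟨E, hE⟩ : ∃ E : ℝ, E = ∑ a, Real.exp (L * h a) := ⟨_, rfl⟩
    have hE0 : 0 ≤ E := by rw [hE]; positivity
    refine ⟨ε, hε, (E * M + 1)⁻¹, by positivity, fun x hx => ?_⟩
    have h2 : Sm ex x ≤ E * ∑ b, ‖vc h L b * mon (ex b) x‖ := by
      rw [Sm, Finset.mul_sum]
      refine Finset.sum_le_sum fun a _ => ?_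
      rw [norm_mul, Near.norm_vc, ← mul_assoc]
      refine le_mul_of_one_le_left (norm_nonneg _) ?_
      rw [Real.exp_neg, ← div_eq_mul_inv, one_le_div (Real.exp_pos _), hE]
      exact Finset.single_le_sum (f := fun a => Real.exp (L * h a))
        (fun _ _ => (Real.exp_pos _).le) (Finset.mem_univ a)
    have h3 : ∑ b, ‖vc h L b * mon (ex b) x‖ ≤ M * ∑ i, ‖lg ex (vc h L) x i‖ := by
      rcases (Finset.sum_nonneg fun b (_ : b ∈ Finset.univ) =>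
        norm_nonneg (vc h L b * mon (ex b) x)).eq_or_lt with h0 | h0
      · rw [← h0]; positivity
      · simpa only [lg, mul_right_comm _ (mon _ x)] using hg _ (H3 x hx h0)
    rw [inv_mul_le_iff₀ (by positivity)]
    have h4 : 0 ≤ ∑ i, ‖lg ex (vc h L) x i‖ := by positivity
    nlinarith [mul_le_mul_of_nonneg_left h3 hE0]
  · obtain ⟨ε, hε, H3⟩ := H2 L ((le_max_right _ _).trans hL)
    refine ⟨ε, hε, fun δ p hp => ⟨hp.2.1, H3 p.1 (Tool.norm_lt_of_sq hε hp.1) ?_ _ fun a ha => ?_⟩⟩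
    · refine (norm_pos_iff.2 (Complex.exp_ne_zero p.2)).trans_le ?_
      rw [← hp.2.1]
      exact norm_sum_le _ _
    · have h2 := (Finset.mem_filter.1 ha).2
      simp only [zz, norm_mul _ (Complex.exp _)] at h2
      rw [← Finset.sum_mul, ← mul_assoc] at h2
      exact le_of_mul_le_mul_right h2 (norm_pos_iff.2 (Complex.exp_ne_zero _))

end Pool.Agent.P.MP_9321be_ag.ND.E
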