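import Pool.Agent.P.MP_9321be_ag.ND.EIface

/-!
The eigenvalue property is locally constant on polynomials satisfying the gradient inequality.
-/

namespace Pool.Agent.P.MP_9321be_ag.ND.E

open Pool.Agent.Lib.Helper83 Set Complex Filter Topology

namespace Step

variable {α σ : Type} [Fintype α] [Fintype σ] {ex : α → σ → ℕ}

theorem Sm_nonneg (x : σ → ℂ) : 0 ≤ Sm ex x := Finset.sum_nonneg fun _ _ => norm_nonneg _

theorem sum_le (d : α → ℂ) (y : α → ℂ) : ‖∑ a, d a * y a‖ ≤ ‖d‖ * ∑ a, ‖y a‖ := by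
  rw [Finset.mul_sum]
  refine (norm_sum_le _ _).trans (Finset.sum_le_sum fun a _ => ?_)
  rw [norm_mul]
  exact mul_le_mul_of_nonneg_right (norm_le_pi_norm d a) (norm_nonneg _)

theorem ev_sub_le (c c' : α → ℂ) (x : σ → ℂ) : ‖ev ex c x - ev ex c' x‖ ≤ ‖c - c'‖ * Sm ex x := by
  refine le_trans (le_of_eq ?_) (sum_le (c - c') fun a => mon (ex a) x)
  simp only [ev, Pi.sub_apply, sub_mul, Finset.sum_sub_distrib]

theorem Sm_pos {c : α → ℂ} {x : σ → ℂ} {s : ℂ} (h : ev ex c x = exp s) : 0 < Sm ex x := by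
  refine (Sm_nonneg x).lt_of_ne fun h0 => ?_
  have := sum_le c fun a => mon (ex a) x
  change ‖ev ex c x‖ ≤ ‖c‖ * Sm ex x at this
  rw [← h0, mul_zero, h, norm_le_zero_iff] at this
  exact exp_ne_zero s this

theorem niq {c c' : α → ℂ} {ε κ : ℝ} (h : NIq ex c ε κ)
    (hc : ‖c' - c‖ * (∑ a, ∑ i, ex a i : ℕ) ≤ κ / 2) : NIq ex c' ε (κ / 2) := fun x hx => by
  have h1 : ∀ i, ‖lg ex c x i‖ ≤
      ‖lg ex c' x i‖ + ‖c' - c‖ * ∑ a, ex a i * ‖mon (ex a) x‖ := fun i => by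
    have := sum_le (c' - c) fun a => ex a i * mon (ex a) x
    simp only [norm_mul, Complex.norm_natCast] at this
    refine le_trans (le_of_eq ?_) ((norm_sub_le _ _).trans (add_le_add le_rfl this))
    simp only [lg, Pi.sub_apply, sub_mul, Finset.sum_sub_distrib, mul_assoc, sub_sub_cancel]
  have h2 : ∑ i, ∑ a, ex a i * ‖mon (ex a) x‖ ≤ (∑ a, ∑ i, ex a i : ℕ) * Sm ex x := by
    rw [Finset.sum_comm, Sm, Finset.mul_sum]
    refine Finset.sum_le_sum fun a _ => ?_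
    rw [← Finset.sum_mul, ← Nat.cast_sum]
    exact mul_le_mul_of_nonneg_right (Nat.cast_le.2 (Finset.single_le_sum
      (f := fun a => ∑ i, ex a i) (fun _ _ => Nat.zero_le _) (Finset.mem_univ a))) (norm_nonneg _)
  have h3 := (h x hx).trans (Finset.sum_le_sum fun i _ => h1 i)
  rw [Finset.sum_add_distrib, ← Finset.mul_sum] at h3
  have h4 := mul_le_mul_of_nonneg_left h2 (norm_nonneg (c' - c))
  have h5 := mul_le_mul_of_nonneg_right hc (Sm_nonneg (ex := ex) x)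
  linarith

theorem norm_lt {x : σ → ℂ} {e : ℝ} (he : 0 < e) (h : ∑ i, ‖x i‖ ^ 2 < e ^ 2) : ‖x‖ < e :=
  (pi_norm_lt_iff he).2 fun i => lt_of_pow_lt_pow_left₀ 2 he.le
    ((Finset.single_le_sum (f := fun i => ‖x i‖ ^ 2) (fun _ _ => sq_nonneg _)
      (Finset.mem_univ i)).trans_lt h)

theorem sq_mul {x m : σ → ℂ} {e e' : ℝ} (he : 0 < e) (he' : 3 / 2 * e ≤ e')
    (hm : ∀ j, ‖m j - 1‖ ≤ 1 / 2) (h : ∑ i, ‖x i‖ ^ 2 < e ^ 2) :
    ∑ i, ‖(x * m) i‖ ^ 2 < e' ^ 2 := by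
  have h1 : ∑ i, ‖(x * m) i‖ ^ 2 ≤ (3 / 2) ^ 2 * ∑ i, ‖x i‖ ^ 2 := by
    rw [Finset.mul_sum]
    refine Finset.sum_le_sum fun i _ => ?_
    have := norm_le_norm_sub_add (m i) 1
    rw [norm_one] at this
    rw [Pi.mul_apply, norm_mul, mul_pow, mul_comm]
    exact mul_le_mul_of_nonneg_right
      (pow_le_pow_left₀ (norm_nonneg _) (by linarith [hm i]) 2) (sq_nonneg _)
  have h2 := pow_le_pow_left₀ (by positivity) he' 2
  rw [mul_pow] at h2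
  linarith

theorem mon_mul (a : σ → ℕ) (x m : σ → ℂ) : mon a (x * m) = mon a x * mon a m := by
  simp only [mon, Pi.mul_apply, mul_pow, Finset.prod_mul_distrib]

theorem exists_eta (ex : α → σ → ℕ) {B β : ℝ} (hB : 0 < B) (hβ : 0 < β) :
    ∃ η > 0, ∀ (c : α → ℂ) (x m : σ → ℂ), ‖c‖ ≤ B → (∀ j, ‖m j - 1‖ < η) →
      ‖ev ex c (x * m) - ev ex c x‖ ≤ β * Sm ex (x * m) := by
  have h0 : 0 < min (1 / 2) (β / (2 * B)) := by positivity
  have h1 : ∀ᶠ m in 𝓝 (1 : σ → ℂ), ∀ a, dist (mon (ex a) m) 1 < min (1 / 2) (β / (2 * B)) :=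
    eventually_all.2 fun a => by
      have : Continuous (mon (ex a) : (σ → ℂ) → ℂ) := by unfold mon; fun_prop
      have h2 := this.tendsto' 1 1 (by simp [mon])
      exact Metric.tendsto_nhds.1 h2 _ h0
  obtain ⟨η, hη, h2⟩ := Metric.eventually_nhds_iff.1 h1
  refine ⟨η, hη, fun c x m hc hm => ?_⟩
  have h3 := h2 ((dist_pi_lt_iff hη).2 fun j => by rw [dist_eq_norm]; exact hm j)
  have h4 := sum_le c fun a => mon (ex a) (x * m) - mon (ex a) x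
  simp only [mul_sub, Finset.sum_sub_distrib] at h4
  refine h4.trans ((mul_le_mul_of_nonneg_right hc
    (Finset.sum_nonneg fun _ _ => norm_nonneg _)).trans ?_)
  rw [Sm, Finset.mul_sum, Finset.mul_sum]
  refine Finset.sum_le_sum fun a _ => ?_
  obtain ⟨a1, a2⟩ := lt_min_iff.1 (h3 a)
  rw [dist_eq_norm] at a1 a2
  rw [lt_div_iff₀ (by positivity)] at a2
  have a3 := norm_sub_norm_le 1 (mon (ex a) m)
  rw [norm_one, norm_sub_rev] at a3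
  rw [mon_mul, ← mul_sub_one, norm_mul, norm_mul, mul_left_comm, mul_left_comm β]
  exact mul_le_mul_of_nonneg_left (by nlinarith) (norm_nonneg _)

theorem mem_Ap {c c' : α → ℂ} {e ε β δ : ℝ} (he : 0 < e) (hε : e ≤ ε) (hc : ‖c - c'‖ ≤ β)
    {p : YY σ} (hp : p ∈ Mset (ev ex c') e δ) : p ∈ Ap ex c ε β :=
  ⟨(norm_lt he hp.1).trans_le hε, hp.2.1 ▸ (ev_sub_le c c' p.1).trans
    (mul_le_mul_of_nonneg_right hc (Sm_nonneg _))⟩

end Step

open Step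

theorem t_Step : S_TR → S_Retr → S_Step := by
  rintro hT hR α σ _ _ _ _ ex c lam ⟨ε, ε0, κ, κ0, hN⟩
  obtain ⟨β, β0, C, C0, hR⟩ := hR α σ ex (κ / 2) (‖c‖ + 1) (half_pos κ0)
  obtain ⟨η, η0, hη⟩ := exists_eta ex (B := ‖c‖ + 1) (by positivity) β0
  obtain ⟨D, hD⟩ : ∃ D : ℝ, D = (∑ a, ∑ i, ex a i : ℕ) := ⟨_, rfl⟩
  have D0 : 0 ≤ D := hD ▸ Nat.cast_nonneg _
  refine ⟨min (min 1 (κ / 2 / (D + 1))) (min (β / 2) (η / (2 * C))), by positivity,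
    fun c' c'' h' h'' => ?_⟩
  simp only [lt_min_iff] at h' h''
  have hB : ∀ d : α → ℂ, ‖d - c‖ < 1 → ‖d‖ ≤ ‖c‖ + 1 := fun d hd => by
    linarith [norm_le_norm_sub_add d c]
  have hq : ∀ d : α → ℂ, ‖d - c‖ < κ / 2 / (D + 1) → NIq ex d ε (κ / 2) := fun d hd => by
    rw [lt_div_iff₀ (by positivity)] at hd
    exact niq hN (by rw [← hD]; linarith [norm_nonneg (d - c)])
  have d0 : ‖c' - c''‖ ≤ ‖c' - c‖ + ‖c'' - c‖ := by
    simpa using norm_sub_le (c' - c) (c'' - c)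
  have d1 : ‖c' - c''‖ ≤ β := by linarith [h'.2.1, h''.2.1]
  have d2 : ‖c'' - c'‖ ≤ β := by rwa [norm_sub_rev]
  have d3 : C * ‖c'' - c'‖ < η := by
    have a1 := (lt_div_iff₀ (by positivity)).1 h'.2.2
    have a2 := (lt_div_iff₀ (by positivity)).1 h''.2.2
    rw [norm_sub_rev]
    nlinarith
  refine ⟨⟨ε, ε0, κ / 2, half_pos κ0, hq c' h'.1.2⟩, fun ⟨e₀, e0, hE⟩ => ?_⟩
  obtain ⟨μ', c1, k1, r1⟩ := hR c' ε (hB c' h'.1.1) (hq c' h'.1.2)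
  obtain ⟨μ'', c2, -, r2⟩ := hR c'' ε (hB c'' h''.1.1) (hq c'' h''.1.2)
  refine ⟨min (2 / 3 * e₀) ε, by positivity, fun f₁ f1 => ?_⟩
  obtain ⟨e₁, e1, b1, b2, b3⟩ : ∃ e₁ > 0, 3 / 2 * e₁ ≤ f₁ ∧ 3 / 2 * (3 / 2 * e₁) ≤ e₀ ∧
      3 / 2 * e₁ ≤ ε := ⟨min (2 / 3 * f₁) (min (4 / 9 * e₀) (2 / 3 * ε)), by positivity,
    by linarith [min_le_left (2 / 3 * f₁) (min (4 / 9 * e₀) (2 / 3 * ε))],
    by linarith [min_le_right (2 / 3 * f₁) (min (4 / 9 * e₀) (2 / 3 * ε)),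
      min_le_left (4 / 9 * e₀) (2 / 3 * ε)],
    by linarith [min_le_right (2 / 3 * f₁) (min (4 / 9 * e₀) (2 / 3 * ε)),
      min_le_right (4 / 9 * e₀) (2 / 3 * ε)]⟩
  obtain ⟨δ₀, δ0, hE⟩ := hE e₁ e1
  refine ⟨δ₀, δ0, fun δ hδ => ?_⟩
  have s1 : Mset (ev ex c') e₁ δ ⊆ Ap ex c'' ε β := fun p => mem_Ap e1 (by linarith) d2
  have s2 : Mset (ev ex c'') (min (2 / 3 * e₀) ε) δ ⊆ Ap ex c' ε β :=
    fun p => mem_Ap (by positivity) (min_le_right _ _) d1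
  have ch : ContinuousOn (fun p : YY σ => ((p.1 * μ' p, p.2) : YY σ)) (Ap ex c' ε β) :=
    (continuousOn_fst.mul c1).prodMk continuousOn_snd
  have hm : ∀ q ∈ Mset (ev ex c') e₁ δ ×ˢ Icc (0 : ℝ) 1, ∀ j,
      ‖(1 + q.2 • (μ'' q.1 - 1)) j - 1‖ ≤ ‖μ'' q.1 j - 1‖ := fun q hq j => by
    simp only [Pi.add_apply, Pi.one_apply, Pi.smul_apply, Pi.sub_apply, add_sub_cancel_left,
      norm_smul, Real.norm_eq_abs, abs_of_nonneg hq.2.1]
    exact mul_le_of_le_one_left (norm_nonneg _) hq.2.2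
  have hs : ∀ q ∈ Mset (ev ex c') e₁ δ ×ˢ Icc (0 : ℝ) 1,
      ∑ i, ‖(q.1.1 * (1 + q.2 • (μ'' q.1 - 1))) i‖ ^ 2 < (3 / 2 * e₁) ^ 2 := fun q hq =>
    sq_mul e1 le_rfl (fun j => (hm q hq j).trans ((r2 _ (s1 hq.1)).2 j).1) hq.1.1
  have hk : MapsTo (fun q : YY σ × ℝ => ((q.1.1 * (1 + q.2 • (μ'' q.1 - 1)), q.1.2) : YY σ))
      (Mset (ev ex c') e₁ δ ×ˢ Icc (0 : ℝ) 1) (Ap ex c' ε β) := fun q hq => by
    refine ⟨(norm_lt (by positivity) (hs q hq)).trans_le b3, ?_⟩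
    rw [← hq.1.2.1]
    refine hη c' _ _ (hB c' h'.1.1) fun j => (hm q hq j).trans_lt (lt_of_le_of_lt ?_ d3)
    have a1 := ((r2 _ (s1 hq.1)).2 j).2
    rw [← hq.1.2.1] at a1
    refine le_of_mul_le_mul_right (a1.trans ?_) (Sm_pos hq.1.2.1)
    rw [mul_assoc]
    exact mul_le_mul_of_nonneg_left (ev_sub_le _ _ _) C0.le
  refine hT (YY σ) (YY σ) dk dk lam (Mset (ev ex c') e₁ δ) (Mset (ev ex c') e₀ δ) _ _
    (fun p => (p.1 * μ'' p, p.2))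
    (fun p => (p.1 * μ' p, p.2)) ((fun p => (p.1 * μ' p, p.2)) ∘
      fun q : YY σ × ℝ => ((q.1.1 * (1 + q.2 • (μ'' q.1 - 1)), q.1.2) : YY σ))
    (by unfold dk; fun_prop) (fun p hp => ⟨hp.1, ?_, ?_⟩)
    ((continuousOn_fst.mul (c2.mono s1)).prodMk continuousOn_snd)
    (fun p hp => ⟨sq_mul e1 b1 (fun j => ((r2 p (s1 hp)).2 j).1) hp.1, (r2 p (s1 hp)).1, hp.2.2⟩)
    (ch.mono s2) (fun p hp => ⟨sq_mul (by positivity)
      (by linarith [min_le_left (2 / 3 * e₀) ε]) (fun j => ((r1 p (s2 hp)).2 j).1) hp.1,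
      (r1 p (s2 hp)).1, hp.2.2⟩)
    (fun p _ => by rw [k1]; rfl) (ch.comp ?_ hk)
    (fun q hq => ⟨sq_mul (by positivity) b2 (fun j => ((r1 _ (hk hq)).2 j).1) (hs q hq),
      (r1 _ (hk hq)).1, hq.1.2.2⟩) (fun p hp => ?_) (fun p _ => by simp) (hE δ hδ)
  · exact hp.2.1.trans (exp_periodic p.2).symm
  · simpa [dk] using hp.2.2
  · have := c2.comp (continuousOn_fst (s := Mset (ev ex c') e₁ δ ×ˢ Icc (0 : ℝ) 1))
      fun q hq => s1 hq.1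
    exact (continuousOn_fst.fst.mul (continuousOn_const.add (continuousOn_snd.smul
      (this.sub continuousOn_const)))).prodMk continuousOn_fst.snd
  · have : μ' p = 1 := funext fun j => by
      have a1 := ((r1 p (mem_Ap e1 (by linarith) (by simpa using β0.le) hp)).2 j).2
      rw [hp.2.1, sub_self, norm_zero, mul_zero] at a1
      exact sub_eq_zero.1 (norm_le_zero_iff.1 (nonpos_of_mul_nonpos_left a1 (Sm_pos hp.2.1)))
    simp [this]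

end Pool.Agent.P.MP_9321be_ag.ND.E
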