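import Pool.Agent.P.MP_9321be_ag.ND.EIface

/-!
Retraction of the approximate Milnor fibre onto the Milnor fibre.
-/

namespace Pool.Agent.P.MP_9321be_ag.ND.E

open Pool.Agent.Lib.Helper83 Set Complex Filter Topology

namespace Retr

variable {α σ : Type} [Fintype α] [DecidableEq α] [Fintype σ] [DecidableEq σ]

theorem est1 (a : σ → ℕ) {e : ℝ} (he : 0 < e) : ∃ s ∈ 𝓝 (0 : σ → ℂ), ∀ u ∈ s, ∀ u' ∈ s,
    ‖mon a (1 + u) - mon a (1 + u') - ∑ j, (a j : ℂ) * (u j - u' j)‖ ≤ e * ‖u - u'‖ := by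
  have h1 : ∀ i, HasStrictFDerivAt (fun u : σ → ℂ => (1 + u i) ^ a i)
      ((a i : ℂ) • (ContinuousLinearMap.proj i : (σ → ℂ) →L[ℂ] ℂ)) 0 := fun i => by
    have h2 : HasStrictFDerivAt (fun u : σ → ℂ => 1 + u i)
        (ContinuousLinearMap.proj i : (σ → ℂ) →L[ℂ] ℂ) 0 :=
      (ContinuousLinearMap.proj i : (σ → ℂ) →L[ℂ] ℂ).hasStrictFDerivAt.const_add 1
    have h3 := HasStrictDerivAt.comp_hasStrictFDerivAt (f := fun u : σ → ℂ => 1 + u i) 0
      (hasStrictDerivAt_pow (a i) _) h2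
    simpa [Function.comp_def] using h3
  have h4 := HasStrictFDerivAt.finsetProd (u := Finset.univ) fun i _ => h1 i
  obtain ⟨s, hs, h5⟩ := h4.approximates_deriv_on_nhds (c := ⟨e, he.le⟩) (Or.inr he)
  refine ⟨s, hs, fun u hu u' hu' => ?_⟩
  have h6 : _ ≤ e * ‖u - u'‖ := h5 u hu u' hu'
  simpa [mon] using h6

omit [DecidableEq α] in
theorem est (ex : α → σ → ℕ) {e : ℝ} (he : 0 < e) : ∃ δ > 0, ∀ a, ∀ u u' : σ → ℂ, ‖u‖ ≤ δ →
    ‖u'‖ ≤ δ → ‖mon (ex a) (1 + u) - mon (ex a) (1 + u') - ∑ j, (ex a j : ℂ) * (u j - u' j)‖ ≤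
      e * ‖u - u'‖ := by
  choose s hs h using fun a => est1 (ex a) he
  obtain ⟨δ, hδ, h1⟩ := Metric.nhds_basis_closedBall.mem_iff.1 (iInter_mem.2 hs)
  exact ⟨δ, hδ, fun a u u' hu hu' => h a u (mem_iInter.1 (h1 (mem_closedBall_zero_iff.2 hu)) a)
    u' (mem_iInter.1 (h1 (mem_closedBall_zero_iff.2 hu')) a)⟩

/-- The square norm of the logarithmic gradient. -/
noncomputable def DD (ex : α → σ → ℕ) (c : α → ℂ) (x : σ → ℂ) : ℝ := ∑ j, ‖lg ex c x j‖ ^ 2

/-- The direction of the correction. -/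
noncomputable def eta (ex : α → σ → ℕ) (c : α → ℂ) (x : σ → ℂ) (j : σ) : ℂ :=
  (starRingEnd ℂ) (lg ex c x j) * (Sm ex x / DD ex c x : ℝ)

omit [DecidableEq α] [DecidableEq σ]

variable {ex : α → σ → ℕ} {c : α → ℂ} {x : σ → ℂ} {κ : ℝ}

theorem DD_pos (h0 : 0 < κ * Sm ex x) (h : κ * Sm ex x ≤ ∑ i, ‖lg ex c x i‖) :
    0 < DD ex c x := by
  obtain ⟨i, -, hi⟩ := Finset.exists_ne_zero_of_sum_ne_zero (h0.trans_le h).ne'
  exact Finset.sum_pos' (fun _ _ => by positivity) ⟨i, Finset.mem_univ _, by positivity⟩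

theorem eta_sum (hD : 0 < DD ex c x) : ∑ j, eta ex c x j * lg ex c x j = Sm ex x := by
  have : ∀ j, eta ex c x j * lg ex c x j = (‖lg ex c x j‖ ^ 2 * (Sm ex x / DD ex c x) : ℝ) := by
    intro j
    rw [eta, mul_right_comm, Complex.conj_mul']; push_cast; ring
  simp only [this]
  rw [← ofReal_sum, ← Finset.sum_mul]
  congr 1
  exact mul_div_cancel₀ _ hD.ne'

theorem eta_le (hκ : 0 < κ) (h0 : 0 < Sm ex x) (h : κ * Sm ex x ≤ ∑ i, ‖lg ex c x i‖) :
    ‖eta ex c x‖ ≤ Fintype.card σ / κ + 1 := by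
  have hD := DD_pos (mul_pos hκ h0) h
  refine (pi_norm_le_iff_of_nonneg (by positivity)).2 fun j => le_trans ?_
    (le_add_of_nonneg_right zero_le_one)
  have h1 : ∀ i, ‖lg ex c x i‖ ^ 2 ≤ DD ex c x := fun i =>
    Finset.single_le_sum (f := fun i => ‖lg ex c x i‖ ^ 2) (fun _ _ => by positivity)
      (Finset.mem_univ i)
  have h2 : ‖lg ex c x j‖ * ∑ i, ‖lg ex c x i‖ ≤ Fintype.card σ * DD ex c x := by
    rw [Finset.mul_sum, ← nsmul_eq_mul]
    exact Finset.sum_le_card_nsmul _ _ _ fun i _ => by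
      nlinarith [h1 i, h1 j, sq_nonneg (‖lg ex c x j‖ - ‖lg ex c x i‖)]
  rw [eta, norm_mul, norm_conj, norm_real, Real.norm_of_nonneg (by positivity), ← mul_div_assoc,
    div_le_div_iff₀ hD hκ]
  nlinarith [mul_le_mul_of_nonneg_left h (norm_nonneg (lg ex c x j))]

theorem lip {B e : ℝ} (hc : ‖c‖ ≤ B) {η : σ → ℂ} (hη : ∑ j, η j * lg ex c x j = Sm ex x)
    {t t' : ℂ} (h : ∀ a, ‖mon (ex a) (1 + t • η) - mon (ex a) (1 + t' • η) -
      ∑ j, (ex a j : ℂ) * ((t • η) j - (t' • η) j)‖ ≤ e) :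
    ‖ev ex c (x * (1 + t • η)) - ev ex c (x * (1 + t' • η)) - (t - t') * Sm ex x‖ ≤
      B * e * Sm ex x := by
  have hm : ∀ a (y : σ → ℂ), mon a (x * y) = mon a x * mon a y := fun a y => by
    simp only [mon, Pi.mul_apply, mul_pow, Finset.prod_mul_distrib]
  have e1 : ev ex c (x * (1 + t • η)) - ev ex c (x * (1 + t' • η)) - (t - t') * Sm ex x =
      ∑ a, c a * mon (ex a) x * (mon (ex a) (1 + t • η) - mon (ex a) (1 + t' • η) -
        ∑ j, (ex a j : ℂ) * ((t • η) j - (t' • η) j)) := by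
    rw [← hη]
    simp only [ev, lg, hm, mul_sub, Finset.sum_sub_distrib, Finset.mul_sum, mul_assoc, sub_mul,
      Pi.smul_apply, smul_eq_mul]
    congr 2 <;> rw [Finset.sum_comm] <;>
      exact Finset.sum_congr rfl fun _ _ => Finset.sum_congr rfl fun _ _ => by ring
  rw [e1, Sm, Finset.mul_sum]
  refine norm_sum_le_of_le _ fun a _ => ?_
  rw [norm_mul, norm_mul, mul_right_comm]
  exact mul_le_mul_of_nonneg_right (mul_le_mul ((norm_le_pi_norm c a).trans hc) (h a)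
    (norm_nonneg _) ((norm_nonneg _).trans hc)) (norm_nonneg _)

theorem Sm_pos {E : ℂ} {β : ℝ} (hE : E ≠ 0) (h : ‖ev ex c x - E‖ ≤ β * Sm ex x) :
    0 < Sm ex x := by
  refine lt_of_le_of_ne (Finset.sum_nonneg fun _ _ => norm_nonneg _) fun h0 => hE ?_
  have h1 := (Finset.sum_eq_zero_iff_of_nonneg fun _ _ => norm_nonneg _).1 h0.symm
  have h2 : ev ex c x = 0 := Finset.sum_eq_zero fun a ha => by
    rw [norm_eq_zero.1 (h1 a ha), mul_zero]
  rw [← h0, h2] at h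
  simpa using h

theorem cont_ev : Continuous (ev ex c) := by unfold ev mon; fun_prop

theorem cont_Sm : Continuous (Sm ex) := by unfold Sm mon; fun_prop

theorem cont_eta : ContinuousOn (eta ex c) {x | 0 < DD ex c x} := by
  have h1 : ∀ j, Continuous fun x => lg ex c x j := fun j => by unfold lg mon; fun_prop
  have h2 : Continuous (DD ex c) := by unfold DD; fun_prop
  exact continuousOn_pi.2 fun j => (continuous_conj.comp (h1 j)).continuousOn.mul
    (continuous_ofReal.comp_continuousOn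
      (cont_Sm.continuousOn.div h2.continuousOn fun x hx => ne_of_gt hx))

end Retr

open Retr in
theorem t_Retr : S_Root → S_Retr := by
  intro hR α σ _ _ _ _ ex κ B hκ
  set H : ℝ := Fintype.card σ / κ + 1 with hH
  have H0 : 0 < H := by positivity
  obtain ⟨δ, δ0, hδ⟩ := est ex (e := 1 / (2 * (|B| + 1) * H)) (by positivity)
  set ρ := min δ (1 / 2) / H with hρ
  have ρ0 : 0 < ρ := div_pos (lt_min δ0 (by norm_num)) H0
  have hρH : ρ * H = min δ (1 / 2) := div_mul_cancel₀ _ H0.ne'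
  refine ⟨ρ / 2, by positivity, 2 * H, by positivity, fun c ε hc hN => ?_⟩
  let A : Set (YY σ) := {q | ‖q.1‖ < ε ∧ ‖ev ex c q.1 - q.2‖ ≤ ρ / 2 * Sm ex q.1 ∧ q.2 ≠ 0}
  let T : YY σ → ℂ → ℂ := fun q t =>
    t - (ev ex c (q.1 * (1 + t • eta ex c q.1)) - q.2) / Sm ex q.1
  have hS : ∀ q ∈ A, 0 < Sm ex q.1 := fun q hq => Sm_pos hq.2.2 hq.2.1
  have hD : ∀ q ∈ A, 0 < DD ex c q.1 := fun q hq => DD_pos (mul_pos hκ (hS q hq)) (hN _ hq.1)
  have hη : ∀ q ∈ A, ∀ t : ℂ, ‖t • eta ex c q.1‖ ≤ ‖t‖ * H := fun q hq t => by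
    rw [norm_smul]
    exact mul_le_mul_of_nonneg_left (eta_le hκ (hS q hq) (hN _ hq.1)) (norm_nonneg _)
  have hη' : ∀ q ∈ A, ∀ t ∈ Metric.closedBall (0 : ℂ) ρ, ‖t • eta ex c q.1‖ ≤ min δ (1 / 2) :=
    fun q hq t ht => (hη q hq t).trans
      (hρH ▸ mul_le_mul_of_nonneg_right (mem_closedBall_zero_iff.1 ht) H0.le)
  have hL : ∀ q ∈ A, ∀ t ∈ Metric.closedBall (0 : ℂ) ρ, ∀ t' ∈ Metric.closedBall (0 : ℂ) ρ,
      ‖T q t - T q t'‖ ≤ 1 / 2 * ‖t - t'‖ := fun q hq t ht t' ht' => by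
    have h0 := hS q hq
    have h1 : (Sm ex q.1 : ℂ) ≠ 0 := by exact_mod_cast h0.ne'
    have h2 := lip (hc.trans ((le_abs_self B).trans (le_add_of_nonneg_right zero_le_one)))
      (eta_sum (hD q hq)) (e := 1 / (2 * (|B| + 1) * H) * (‖t - t'‖ * H)) fun a =>
        (hδ a _ _ ((hη' q hq t ht).trans (min_le_left _ _))
          ((hη' q hq t' ht').trans (min_le_left _ _))).trans
          (mul_le_mul_of_nonneg_left (by rw [← sub_smul]; exact hη q hq _) (by positivity))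
    have e : T q t - T q t' = -((ev ex c (q.1 * (1 + t • eta ex c q.1)) -
        ev ex c (q.1 * (1 + t' • eta ex c q.1)) - (t - t') * Sm ex q.1) / Sm ex q.1) := by
      simp only [T]; field_simp; ring
    rw [e, norm_neg, norm_div, norm_real, Real.norm_of_nonneg h0.le, div_le_iff₀ h0]
    refine h2.trans (le_of_eq ?_)
    field_simp
  have hT0 : ∀ q ∈ A, ‖T q 0‖ = ‖ev ex c q.1 - q.2‖ / Sm ex q.1 := fun q hq => by
    simp [T, abs_of_pos (hS q hq)]
  have hT : ∀ q ∈ A, ∀ t ∈ Metric.closedBall (0 : ℂ) ρ,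
      ‖T q t‖ ≤ ‖ev ex c q.1 - q.2‖ / Sm ex q.1 + 1 / 2 * ‖t‖ := fun q hq t ht => by
    have h1 := hL q hq t ht 0 (Metric.mem_closedBall_self ρ0.le)
    rw [sub_zero] at h1
    linarith [norm_sub_norm_le (T q t) (T q 0), hT0 q hq]
  have hc1 : ContinuousOn (fun q : YY σ => eta ex c q.1) A :=
    cont_eta.comp continuousOn_fst hD
  obtain ⟨τ, hτ, hτ'⟩ := hR (YY σ) A T ρ ρ0.le (by
      have h1 : ContinuousOn (fun q : YY σ × ℂ => eta ex c q.1.1) (A ×ˢ Metric.closedBall 0 ρ) :=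
        hc1.comp continuousOn_fst fun q hq => hq.1
      exact continuousOn_snd.sub (((cont_ev.comp_continuousOn (continuousOn_fst.fst.mul
        (continuousOn_const.add (continuousOn_snd.smul h1)))).sub continuousOn_fst.snd).div
        (continuous_ofReal.comp (cont_Sm.comp continuous_fst.fst)).continuousOn
        fun q hq => by exact_mod_cast (hS _ hq.1).ne'))
    (fun q hq t ht => by
      have h1 := (div_le_iff₀ (hS q hq)).2 hq.2.1
      have h2 := mem_closedBall_zero_iff.1 ht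
      exact mem_closedBall_zero_iff.2 (by linarith [hT q hq t ht])) hL
  have hA : ∀ p ∈ Ap ex c ε (ρ / 2), (p.1, exp p.2) ∈ A := fun p hp => ⟨hp.1, hp.2, exp_ne_zero _⟩
  have hc2 : Continuous fun p : YY σ => ((p.1, exp p.2) : YY σ) := by fun_prop
  refine ⟨fun p => 1 + τ (p.1, exp p.2) • eta ex c p.1, continuousOn_const.add
    ((hτ.comp hc2.continuousOn hA).smul
      (cont_eta.comp continuousOn_fst fun p hp => hD (p.1, exp p.2) (hA p hp))), fun p => ?_,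
    fun p hp => ?_⟩
  · simp only [dk, exp_add, exp_two_pi_mul_I, mul_one]
  · obtain ⟨h1, h2⟩ := hτ' _ (hA p hp)
    have h0 := hS _ (hA p hp)
    have h3 : (Sm ex p.1 : ℂ) ≠ 0 := by exact_mod_cast h0.ne'
    refine ⟨sub_eq_zero.1 ((div_eq_zero_iff.1 (sub_eq_self.1 h2)).resolve_right h3), fun j => ?_⟩
    have h4 := norm_le_pi_norm (τ (p.1, exp p.2) • eta ex c p.1) j
    have h5 := hT _ (hA p hp) _ h1
    rw [h2] at h5
    have h6 : 1 / 2 * ‖τ (p.1, exp p.2)‖ * Sm ex p.1 ≤ ‖ev ex c p.1 - exp p.2‖ :=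
      (le_div_iff₀ h0).1 (by linarith)
    simp only [Pi.add_apply, Pi.one_apply, add_sub_cancel_left]
    refine ⟨h4.trans ((hη' _ (hA p hp) _ h1).trans (min_le_right _ _)), ?_⟩
    refine (mul_le_mul_of_nonneg_right (h4.trans (hη _ (hA p hp) _)) h0.le).trans ?_
    linarith [mul_le_mul_of_nonneg_left h6 H0.le]

end Pool.Agent.P.MP_9321be_ag.ND.E
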