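import Pool.Agent.P.MP_9321be_ag.ND.EIface

/-!
Continuous dependence of the fixed point of a contraction.
-/

namespace Pool.Agent.P.MP_9321be_ag.ND.E

open Set Filter Topology

theorem t_Root : S_Root := by
  intro P _ A T ρ hρ hc hm hl
  have ex : ∀ p, ∃ t : ℂ, p ∈ A → t ∈ Metric.closedBall (0 : ℂ) ρ ∧ T p t = t := fun p => by
    by_cases hp : p ∈ A
    · have h1 : ContractingWith (1 / 2) ((hm p hp).restrict (T p) _ _) :=
        ⟨by norm_num, LipschitzWith.of_dist_le_mul fun t t' => by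
          simpa [Subtype.dist_eq, dist_eq_norm] using hl p hp t t.2 t' t'.2⟩
      obtain ⟨t, h2, h3, -⟩ := h1.exists_fixedPoint' Metric.isClosed_closedBall.isComplete
        (hm p hp) (Metric.mem_closedBall_self hρ) (edist_ne_top _ _)
      exact ⟨t, fun _ => ⟨h2, h3⟩⟩
    · exact ⟨0, fun h => (hp h).elim⟩
  choose τ hτ using ex
  refine ⟨τ, fun p hp => ?_, hτ⟩
  have h1 : ContinuousWithinAt (fun q => T q (τ p)) A p :=
    (hc.comp (f := fun q => (q, τ p)) (by fun_prop) fun q hq => ⟨hq, (hτ p hp).1⟩) p hp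
  have h2 := (tendsto_iff_norm_sub_tendsto_zero.1 h1).const_mul 2
  rw [mul_zero] at h2
  refine tendsto_iff_norm_sub_tendsto_zero.2 (squeeze_zero' (.of_forall fun _ => norm_nonneg _)
    (eventually_nhdsWithin_of_forall fun q hq => ?_) h2)
  have h3 := hl q hq _ (hτ q hq).1 _ (hτ p hp).1
  have h4 := norm_sub_le_norm_sub_add_norm_sub (T q (τ q)) (T q (τ p)) (T p (τ p))
  rw [(hτ q hq).2] at h3 h4
  beta_reduce
  rw [(hτ p hp).2] at h4 ⊢
  linarith

end Pool.Agent.P.MP_9321be_ag.ND.E
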