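import Pool.Agent.P.MP_9321be_ag.ND.EIface

/-!
Linear algebra and elementary estimates for the eigenvalue part.
-/

namespace Pool.Agent.P.MP_9321be_ag.ND.E.Tool

variable {σ α : Type} [Fintype σ] {v : α → σ → ℝ} {τ : Finset α}

theorem mon_mul (a : σ → ℕ) (x y : σ → ℂ) : mon a (x * y) = mon a x * mon a y := by
  simp [mon, mul_pow, Finset.prod_mul_distrib]

theorem norm_mon (a : σ → ℕ) (x : σ → ℂ) : ‖mon a x‖ = ∏ i, ‖x i‖ ^ a i := by simp [mon]

theorem mon_exp (a : σ → ℕ) (ξ : σ → ℂ) :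
    mon a (fun i => Complex.exp (ξ i)) = Complex.exp (∑ i, a i * ξ i) := by
  simp [mon, Complex.exp_sum, Complex.exp_nat_mul]

theorem mon_ne_zero_iff (a : σ → ℕ) (x : σ → ℂ) : mon a x ≠ 0 ↔ ∀ i, a i ≠ 0 → x i ≠ 0 := by
  simp only [mon, Finset.prod_ne_zero_iff, Finset.mem_univ, true_imp_iff, ne_eq, pow_eq_zero_iff',
    not_and, not_not]
  exact forall_congr' fun i => by tauto

@[fun_prop] theorem continuous_mon (a : σ → ℕ) : Continuous (mon a) := by unfold mon; fun_prop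

theorem norm_lt_of_sq {x : σ → ℂ} {ε : ℝ} (hε : 0 < ε) (h : ∑ i, ‖x i‖ ^ 2 < ε ^ 2) : ‖x‖ < ε :=
  (pi_norm_lt_iff hε).2 fun i =>
    lt_of_pow_lt_pow_left₀ 2 hε.le ((Finset.single_le_sum (f := fun i => ‖x i‖ ^ 2)
      (fun _ _ => by positivity) (Finset.mem_univ i)).trans_lt h)

theorem sq_mul_le {x μ : σ → ℂ} {C : ℝ} (h : ∀ i, ‖μ i‖ ≤ C) :
    ∑ i, ‖(x * μ) i‖ ^ 2 ≤ C ^ 2 * ∑ i, ‖x i‖ ^ 2 := by
  simp only [Finset.mul_sum, Pi.mul_apply, norm_mul, mul_pow]
  exact Finset.sum_le_sum fun i _ => by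
    rw [mul_comm]; gcongr; exact h i

theorem norm_mon_le {a : σ → ℕ} (ha : a ≠ 0) {x : σ → ℂ} {ε : ℝ} (h1 : ε ≤ 1)
    (h : ∀ i, ‖x i‖ ≤ ε) : ‖mon a x‖ ≤ ε := by
  classical
  obtain ⟨i, hi⟩ := Function.ne_iff.1 ha
  rw [norm_mon, ← Finset.mul_prod_erase _ _ (Finset.mem_univ i)]
  refine (mul_le_of_le_one_right (by positivity) (Finset.prod_le_one (fun _ _ => by positivity)
    fun j _ => pow_le_one₀ (norm_nonneg _) ((h j).trans h1))).trans ?_
  exact (pow_le_of_le_one (norm_nonneg _) ((h i).trans h1) hi).trans (h i)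

omit [Fintype σ] in
@[fun_prop] theorem continuous_dk : Continuous (dk : YY σ → _) := by unfold dk; fun_prop

@[fun_prop] theorem continuous_ev [Fintype α] (ex : α → σ → ℕ) (c : α → ℂ) :
    Continuous (ev ex c) := by unfold ev; fun_prop

@[fun_prop] theorem continuous_Sm [Fintype α] (ex : α → σ → ℕ) : Continuous (Sm ex) := by
  unfold Sm; fun_prop

@[fun_prop] theorem continuous_zz (ex : α → σ → ℕ) (c : α → ℂ) (a : α) :
    Continuous (zz ex c a) := by unfold zz; fun_prop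

theorem card_le (h : LinearIndepOn ℝ v (τ : Set α)) : τ.card ≤ Fintype.card σ := by
  simpa using LinearIndependent.fintype_card_le_finrank h

/-- A linear solution operator for an independent family. -/
theorem exists_dual (h : LinearIndepOn ℝ v (τ : Set α)) :
    ∃ L : (α → ℝ) →ₗ[ℝ] (σ → ℝ), (∀ b, ∀ a ∈ τ, v a ⬝ᵥ L b = b a) ∧
      ∀ b, (∀ a ∈ τ, b a = 0) → L b = 0 := by
  classical
  have hs : Function.Surjective (Matrix.of fun (a : τ) i => v a i).mulVecLin := by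
    rw [← LinearMap.range_eq_top]
    refine Submodule.eq_top_of_finrank_eq ?_
    exact (LinearIndependent.rank_matrix (M := Matrix.of fun (a : τ) i => v a i) h).trans
      (by simp)
  obtain ⟨L, hL⟩ := LinearMap.exists_rightInverse_of_surjective _ (LinearMap.range_eq_top.2 hs)
  refine ⟨L ∘ₗ LinearMap.funLeft ℝ ℝ Subtype.val, fun b a ha =>
    congrFun (LinearMap.congr_fun hL fun a : τ => b a) ⟨a, ha⟩, fun b hb => ?_⟩
  have : LinearMap.funLeft ℝ ℝ (Subtype.val : τ → α) b = 0 := funext fun a => hb a a.2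
  rw [LinearMap.comp_apply, this, map_zero]

theorem ind_insert [DecidableEq α] (h : LinearIndepOn ℝ v (τ : Set α)) {d : σ → ℝ}
    (hd : ∀ a ∈ τ, v a ⬝ᵥ d = 0) {j : α} (hj : v j ⬝ᵥ d ≠ 0) :
    LinearIndepOn ℝ v (insert j τ : Finset α) := by
  rw [Finset.coe_insert]
  refine LinearIndepOn.insert h fun hm => hj ?_
  have : Submodule.span ℝ (v '' (τ : Set α)) ≤ LinearMap.ker ((dotProductBilin ℝ ℝ).flip d) :=
    Submodule.span_le.2 (by rintro _ ⟨a, ha, rfl⟩; exact hd a ha)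
  exact this hm

/-- The annihilator of a family. -/
def perp (v : α → σ → ℝ) (τ : Finset α) : Submodule ℝ (σ → ℝ) :=
  LinearMap.ker (LinearMap.pi fun a : τ => dotProductBilin ℝ ℝ (v a))

theorem mem_perp {d : σ → ℝ} : d ∈ perp v τ ↔ ∀ a ∈ τ, v a ⬝ᵥ d = 0 := by
  simp only [perp, LinearMap.mem_ker, funext_iff, Subtype.forall]
  rfl

theorem card_le_finrank_perp (v : α → σ → ℝ) (τ : Finset α) :
    Fintype.card σ ≤ Module.finrank ℝ (perp v τ) + τ.card := by
  have h1 := (LinearMap.pi fun a : τ => dotProductBilin ℝ ℝ (v a)).finrank_range_add_finrank_ker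
  have h2 := (LinearMap.range (LinearMap.pi fun a : τ => dotProductBilin ℝ ℝ (v a))).finrank_le
  simp only [Module.finrank_fintype_fun_eq_card, Fintype.card_coe] at h1 h2
  unfold perp
  omega

theorem finrank_perp (h : LinearIndepOn ℝ v (τ : Set α)) :
    Module.finrank ℝ (perp v τ) + τ.card = Fintype.card σ := by
  classical
  obtain ⟨L, hL, -⟩ := exists_dual h
  have h1 := (LinearMap.pi fun a : τ => dotProductBilin ℝ ℝ (v a)).finrank_range_add_finrank_ker
  have h2 : LinearMap.range (LinearMap.pi fun a : τ => dotProductBilin ℝ ℝ (v a)) = ⊤ :=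
    LinearMap.range_eq_top.2 fun b => ⟨L fun a => if ha : a ∈ τ then b ⟨a, ha⟩ else 0,
      funext fun a => (hL _ a a.2).trans (dif_pos a.2)⟩
  rw [h2] at h1
  simp only [finrank_top, Module.finrank_fintype_fun_eq_card, Fintype.card_coe] at h1
  unfold perp
  omega

theorem exists_perp (v : α → σ → ℝ) (h : τ.card < Fintype.card σ) :
    ∃ d : σ → ℝ, d ≠ 0 ∧ ∀ a ∈ τ, v a ⬝ᵥ d = 0 := by
  have := card_le_finrank_perp v τ
  obtain ⟨d, h1, h2⟩ := (perp v τ).exists_mem_ne_zero_of_ne_bot (by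
    intro e; rw [e, finrank_bot] at this; omega)
  exact ⟨d, h2, mem_perp.1 h1⟩

theorem eq_zero_of_perp (h : LinearIndepOn ℝ v (τ : Set α)) (hc : τ.card = Fintype.card σ)
    {d : σ → ℝ} (hd : ∀ a ∈ τ, v a ⬝ᵥ d = 0) : d = 0 := by
  have := finrank_perp h
  have e : perp v τ = ⊥ := Submodule.finrank_eq_zero.1 (by omega)
  simpa [e] using mem_perp.2 hd

theorem exists_smul (h : LinearIndepOn ℝ v (τ : Set α)) (hc : τ.card + 1 = Fintype.card σ)
    {d d' : σ → ℝ} (h0 : d ≠ 0) (hd : ∀ a ∈ τ, v a ⬝ᵥ d = 0) (hd' : ∀ a ∈ τ, v a ⬝ᵥ d' = 0) :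
    ∃ c : ℝ, d' = c • d := by
  have := finrank_perp h
  have h1 : Module.finrank ℝ (perp v τ) = 1 := by omega
  obtain ⟨c, hc⟩ := (finrank_eq_one_iff_of_nonzero' (⟨d, mem_perp.2 hd⟩ : perp v τ)
    (by simpa using h0)).1 h1 ⟨d', mem_perp.2 hd'⟩
  exact ⟨c, (congrArg Subtype.val hc).symm⟩

/-- A vector orthogonal to the annihilator lies in the span. -/
theorem mem_span_of_perp {y : σ → ℝ} (h : ∀ d, (∀ a ∈ τ, v a ⬝ᵥ d = 0) → y ⬝ᵥ d = 0) :
    y ∈ Submodule.span ℝ (v '' (τ : Set α)) := by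
  classical
  by_contra hy
  obtain ⟨φ, h1, h2⟩ := Submodule.exists_dual_map_eq_bot_of_notMem hy inferInstance
  have e : ∀ z, φ z = z ⬝ᵥ fun i => φ (Pi.single i 1) := fun z => by
    conv_lhs => rw [pi_eq_sum_univ' z]
    simp [dotProduct]
  refine h1 ((e y).trans (h _ fun a ha => (e _).symm.trans ?_))
  exact (Submodule.eq_bot_iff _).1 h2 _ ⟨_, Submodule.subset_span ⟨a, ha, rfl⟩, rfl⟩

end Pool.Agent.P.MP_9321be_ag.ND.E.Tool
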