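import Pool.Agent.P.MP_9321be_ag.ND.EIface

/-!
The acyclic carrier lemma, and the cocycle property on small chains.
-/

namespace Pool.Agent.P.MP_9321be_ag.ND.E

open Pool.Agent.Lib.Helper83 Set

theorem t_Carr (hZ : S_Zc) : S_Carr := by
  intro α σ _ _ _ _ v K d e τ₀ q Φ A cx hI hΦ hA h0 hm k
  classical
  let H : LC ℝ α →ₗ[ℝ] LC ℝ (X0 α σ) := rc (-1) 0 (fun _ t => (t 0, 0)) A
  have mem : ∀ τ ∈ K, ∀ (j : ℕ) (t : Fin j → α), Finset.univ.image t = τ →
      H (ax ℝ t) ∈ lsub ℝ (labIn σ τ) (j + 1) :=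
    fun τ hτ j t ht => rc_mem (K := (τ : Set α)) (K' := labIn σ τ) (d := 1) (Or.inr rfl)
      (fun _ t h => h 0) (fun j c hc => hm τ hτ (j + 1) c hc) (ax_mem fun i => by simp [← ht])
  have h1 : Φ k (abd (H (zc e v K))) = 0 := by
    rw [zc, map_sum, map_sum, map_sum]
    refine Finset.sum_eq_zero fun t _ => ?_
    rw [map_smul, map_smul, map_smul]
    split_ifs with h
    · rw [hΦ.coc _ h k _ _ (mem _ h _ t rfl), smul_zero]
    · simp
  have h2 : Φ k (H (abd (zc e v K))) = 0 := by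
    refine supp_eq (Φ k ∘ₗ H) 0 ?_ (hZ α σ v K d e cx)
    rintro ⟨j, t⟩ ⟨-, h1, h2⟩
    exact hΦ.van _ (fun hs => h2 fun i => (hI i).imp fun a ha => ⟨hs ha.1, ha.2⟩) k _ _
      (mem _ h1 j t rfl)
  have h3 : abd (H (zc e v K)) + H (abd (zc e v K)) = A (zc e v K) := rc_htpy hA h0 _
  rw [← h3, map_add, h1, h2, add_zero]

theorem vtx_comp_face {Y : Type} [TopologicalSpace Y] {n : ℕ} (s : C(Dl (n + 1), Y))
    (i : Fin (n + 1)) : vtx (s.comp (face i)) = vtx s ∘ i.succAbove := by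
  funext j
  simp [vtx, face]

theorem t_SingC (hB : S_SingB) : S_SingC := by
  intro α σ _ _ _ _ _ ex h L K₀ K S τ₀ E g q Φ hK hN hΦ hI wd
  choose N n1 n2 τ n3 n4 n5 using hB α σ ex h L K₀ K S hK hN
  classical
  refine ⟨fun p => if hp : p ∈ S then N p hp else ∅, fun p => ?_, fun p hp => by simp [hp, n2],
    fun n x hx => small_ind (P := ⊥) (PhM ex (vc h L) K₀ g E Φ ∘ₗ bd) (fun p c hc =>
      sub_ind (N := ⊥) _ (fun s hs => ?_) hc) hx⟩
  · beta_reduce
    split_ifs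
    exacts [n1 _ _, isOpen_empty]
  obtain _ | n := n
  · simp
  have hp : p ∈ S := by_contra fun hp => by simpa [hp] using hs (stdSimplex.vertex 0)
  simp only [hp, dif_pos] at hs
  rw [Submodule.mem_bot, LinearMap.comp_apply, bd_succ, map_sum]
  by_cases h1 : Intr (rv ex) (τ p hp)
  · obtain ⟨w, k, hw⟩ := n5 p hp h1
    have := hΦ.coc _ (n3 p hp) k _ _ (ax_mem (R := ℝ)
      (v := fun j => (lab ex (vc h L) K₀ (vtx s j), w (vtx s j))) fun j => n4 p hp _ (hs _))
    rw [abd_succ, map_sum] at this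
    have h2 := congrArg (fun x : ℝ => chi g E k * x) this
    simp only [map_smul, smul_eq_mul, Complex.ofReal_sum, Finset.mul_sum] at h2
    refine (Finset.sum_congr rfl fun i _ => ?_).trans (h2.trans (by simp))
    rw [map_smul, wd n _ _ k (hw n _ fun j => hs _), vtx_comp_face, smul_eq_mul]
    push_cast
    exact mul_left_comm _ _ _
  · refine Finset.sum_eq_zero fun i _ => ?_
    rw [map_smul, PhM, sx, Finsupp.linearCombination_single, one_smul]
    split_ifs with h2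
    · rw [hΦ.van _ (fun hs => h1 fun i => (hI i).imp fun a ha => ⟨hs ha.1, ha.2⟩) _ _ _
        (ax_mem fun j => n4 p hp _ (hs _))]
      simp
    · simp

end Pool.Agent.P.MP_9321be_ag.ND.E
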