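import Pool.Agent.P.MP_9321be_ag.ND.EBasic

/-!
The straightening chains.
-/

namespace Pool.Agent.P.MP_9321be_ag.ND.E

open Pool.Agent.Lib.Helper83 Set

namespace G

variable {α σ : Type} [Fintype α] [DecidableEq α]

lemma ind {E M : Type} [AddCommGroup M] [Module ℝ M] (T T' : LC ℝ E →ₗ[ℝ] M)
    (h : ∀ k (y : Fin k → E), T (ax ℝ y) = T' (ax ℝ y)) (c : LC ℝ E) : T c = T' c :=
  all_eq T T' (fun a => h a.1 a.2) c

omit [Fintype α] in
lemma sg_perm {p : ℕ} (r : Fin p → α) (π : Equiv.Perm (Fin p)) (c : LC ℝ (X0 α σ)) :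
    sg (r ∘ π) c = (Equiv.Perm.sign π : ℤ) • sg r c := by
  refine ind (sg (r ∘ π)) ((Equiv.Perm.sign π : ℤ) • sg r) (fun k y => ?_) c
  by_cases h : k = p
  · subst h
    rw [LinearMap.smul_apply, sg_ax, sg_ax, zsmul_eq_mul, ← Matrix.det_permute]
    rfl
  · simp [sg_ax_ne _ _ h]

lemma sg_abd {p : ℕ} (r : Fin p → α) (c : LC ℝ (X0 α σ)) :
    sg r (abd c) = ∑ b, sg (Fin.cons b r : Fin (p + 1) → α) c := by
  rw [← LinearMap.sum_apply]
  refine ind (sg r ∘ₗ abd) _ (fun k y => ?_) c
  rw [LinearMap.comp_apply, LinearMap.sum_apply]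
  cases k with
  | zero => simp [sg_ax_ne _ y (Nat.succ_ne_zero p).symm]
  | succ k =>
    by_cases h : k = p
    · subst h
      simp only [abd_succ, map_sum, map_smul, sg_ax, Matrix.det_succ_row_zero, smul_eq_mul]
      rw [Finset.sum_comm]
      refine Finset.sum_congr rfl fun j _ => ?_
      simp only [Matrix.of_apply, Fin.cons_zero, mul_ite, mul_one, mul_zero, ite_mul, zero_mul,
        Finset.sum_ite_eq', Finset.mem_univ, if_true]
      rfl
    · have h' : k + 1 ≠ p + 1 := fun e => h (Nat.succ_injective e)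
      simp [abd_succ, sg_ax_ne _ _ h, sg_ax_ne _ _ h']

lemma perm (q : ℕ) : ∀ (p : ℕ) (r : Fin p → α) (π : Equiv.Perm (Fin p)) (c : LC ℝ (X0 α σ)),
    GG q p (r ∘ π) c = (Equiv.Perm.sign π : ℤ) • GG q p r c := by
  induction q with
  | zero => intros; simp
  | succ q ih =>
    intro p r π c
    refine ind (GG (q + 1) p (r ∘ π)) ((Equiv.Perm.sign π : ℤ) • GG (q + 1) p r) (fun k y => ?_) c
    rw [LinearMap.smul_apply]
    cases k with
    | zero => simp [GG_nil]
    | succ k =>
      have h1 : Finset.univ.image (r ∘ π) = Finset.univ.image r := by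
        rw [← Finset.image_image, Finset.image_univ_equiv]
      have h2 : ∀ b, GG q (p + 1) (Fin.cons b (r ∘ π)) (ax ℝ y) =
          (Equiv.Perm.sign π : ℤ) • GG q (p + 1) (Fin.cons b r) (ax ℝ y) := fun b => by
        have h3 := ih (p + 1) (Fin.cons b r) (Equiv.Perm.decomposeFin.symm (0, π)) (ax ℝ y)
        rw [Equiv.Perm.decomposeFin.symm_sign, if_pos rfl, one_mul] at h3
        rw [← h3]
        congr 2
        funext i
        refine Fin.cases ?_ (fun i => ?_) i <;> simp
      rw [GG_succ, GG_succ, h1, ← map_zsmul]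
      congr 1
      cases q with
      | zero => rw [RH0_zero, RH0_zero, sg_perm, smul_assoc]
      | succ q =>
        rw [RH0_succ, RH0_succ, ih, smul_add, Finset.smul_sum, smul_comm]
        simp only [h2]

lemma neg_self {M : Type} [AddCommGroup M] [Module ℝ M] {x : M} (h : x = -x) : x = 0 := by
  have : (2 : ℝ) • x = 0 := by rw [two_smul]; exact add_eq_zero_iff_eq_neg.2 h
  simpa using this

lemma noninj (q p : ℕ) (r : Fin p → α) (h : ¬ Function.Injective r) (c : LC ℝ (X0 α σ)) :
    GG q p r c = 0 := by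
  obtain ⟨i, j, h1, h2⟩ := Function.not_injective_iff.1 h
  have h3 := perm q p r (Equiv.swap i j) c
  have h4 : r ∘ Equiv.swap i j = r := funext fun k => Equiv.apply_swap_eq_self h1 k
  rw [h4, Equiv.Perm.sign_swap h2] at h3
  exact neg_self (by simpa using h3)

lemma two (q p : ℕ) (r : Fin p → α) (c : LC ℝ (X0 α σ)) :
    ∑ b, ∑ b', GG q (p + 2) (Fin.cons b' (Fin.cons b r)) c = 0 := by
  refine neg_self (Finset.sum_comm.trans ?_)
  rw [← Finset.sum_neg_distrib]
  refine Finset.sum_congr rfl fun b' _ => ?_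
  rw [← Finset.sum_neg_distrib]
  refine Finset.sum_congr rfl fun b _ => ?_
  have h3 := perm q (p + 2) (Fin.cons b (Fin.cons b' r)) (Equiv.swap 0 1) c
  rw [Equiv.Perm.sign_swap zero_ne_one] at h3
  refine Eq.trans ?_ (h3.trans (by simp))
  congr 2
  funext i
  refine Fin.cases (by simp) (fun i => Fin.cases (by simp) (fun i => ?_) i) i
  rw [Function.comp_apply, Equiv.swap_apply_of_ne_of_ne (Fin.succ_ne_zero _)
    (Fin.succ_succ_ne_one i)]
  simp

lemma bdry (q : ℕ) : ∀ (p : ℕ) (r : Fin p → α), 0 < p → ∀ c : LC ℝ (X0 α σ),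
    abd (GG (q + 1) p r c) = RH0 q (GG q) p r c := by
  have step : ∀ q p (r : Fin p → α), 0 < p →
      (∀ c : LC ℝ (X0 α σ), abd (RH0 q (GG q) p r c) = 0) →
      ∀ c : LC ℝ (X0 α σ), abd (GG (q + 1) p r c) = RH0 q (GG q) p r c := by
    intro q p r hp h c
    refine ind (abd ∘ₗ GG (q + 1) p r) _ (fun k y => ?_) c
    rw [LinearMap.comp_apply]
    cases k with
    | zero =>
      cases q with
      | zero => simp [GG_nil, RH0_zero, sg_ax_ne _ y hp.ne]
      | succ q => simp [GG_nil, RH0_succ]
    | succ k => rw [GG_succ, abd_cone, h, map_zero, sub_zero]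
  induction q with
  | zero => exact fun p r hp => step 0 p r hp fun c => by simp [RH0_zero]
  | succ q ih =>
    refine fun p r hp => step (q + 1) p r hp fun c => ?_
    rw [RH0_succ, map_add, map_smul, map_sum, ih p r hp]
    simp only [ih (p + 1) _ p.succ_pos]
    cases q with
    | zero => simp [RH0_zero, sg_abd, Finset.sum_smul]
    | succ q =>
      simp only [RH0_succ, abd_abd, map_zero, smul_zero, zero_add, Finset.sum_add_distrib, two,
        add_zero, ← Finset.smul_sum]
      rw [pow_succ (-1 : ℝ) (q + 1)]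
      simp

lemma supp (q : ℕ) : ∀ (p : ℕ) (r : Fin p → α) (τ : Finset α) (j : ℕ),
    ∀ c ∈ lsub ℝ (labIn σ τ) j,
      GG q p r c ∈ lsub ℝ {y : Sy α σ | Finset.univ.image r ⊆ y.1 ∧ y.1 ⊆ τ} q ∧
      (¬ Finset.univ.image r ⊆ τ → GG q p r c = 0) := by
  induction q with
  | zero => intros; simp
  | succ q ih =>
    intro p r τ j c hc
    have hsub : ∀ b, Finset.univ.image r ⊆ Finset.univ.image (Fin.cons b r : Fin (p + 1) → α) :=
      fun b a ha => by
        obtain ⟨i, -, rfl⟩ := Finset.mem_image.1 ha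
        exact Finset.mem_image.2 ⟨i.succ, Finset.mem_univ _, rfl⟩
    have h0 : ¬ Finset.univ.image r ⊆ τ → GG (q + 1) p r c = 0 := fun hn => by
      refine lsub_eq (GG (q + 1) p r) 0 (fun y hy => ?_) hc
      cases j with
      | zero => exact GG_nil _ _ _ _
      | succ j =>
        rw [GG_succ, LinearMap.zero_apply]
        suffices h : RH0 q (GG q) p r (ax ℝ y) = 0 by rw [h, map_zero]
        cases q with
        | zero =>
          rw [RH0_zero]
          by_cases h : j + 1 = p
          · subst h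
            obtain ⟨a, ha, hn⟩ := Finset.not_subset.1 hn
            obtain ⟨i, -, rfl⟩ := Finset.mem_image.1 ha
            rw [sg_ax, Matrix.det_eq_zero_of_row_eq_zero i, zero_smul]
            intro k
            exact if_neg fun e : r i = (y k).1 => hn (e ▸ hy k)
          · rw [sg_ax_ne _ _ h, zero_smul]
        | succ q =>
          rw [RH0_succ, (ih p r τ j _ (abd_mem (ax_mem hy))).2 hn, smul_zero, zero_add]
          exact Finset.sum_eq_zero fun b _ =>
            (ih _ _ τ _ _ (ax_mem hy)).2 fun h => hn ((hsub b).trans h)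
    refine ⟨?_, h0⟩
    by_cases hn : Finset.univ.image r ⊆ τ
    · refine lsub_mem (GG (q + 1) p r) (fun y hy => ?_) hc
      cases j with
      | zero => rw [GG_nil]; exact zero_mem _
      | succ j =>
        rw [GG_succ]
        refine cone_mem (R := ℝ) (by exact ⟨Finset.Subset.refl _, hn⟩) ?_
        cases q with
        | zero => rw [RH0_zero]; exact Submodule.smul_mem _ _ (ax_mem fun i => i.elim0)
        | succ q =>
          rw [RH0_succ]
          exact add_mem (Submodule.smul_mem _ _ (ih p r τ j _ (abd_mem (ax_mem hy))).1)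
            (Submodule.sum_mem _ fun b _ => lsub_mono (fun z hz => And.intro ((hsub b).trans hz.1) hz.2)
              (ih _ _ τ _ _ (ax_mem hy)).1)
    · rw [h0 hn]; exact zero_mem _

lemma nat (m : σ → ℝ) (q : ℕ) : ∀ (p : ℕ) (r : Fin p → α) (c : LC ℝ (X0 α σ)),
    GG q p r (amap (fun x : X0 α σ => (x.1, x.2 + m)) c) =
      amap (fun y : Sy α σ => (y.1, y.2 + m)) (GG q p r c) := by
  induction q with
  | zero => intros; simp
  | succ q ih =>
    intro p r c
    refine ind (GG (q + 1) p r ∘ₗ amap _) (amap _ ∘ₗ GG (q + 1) p r) (fun k y => ?_) c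
    simp only [LinearMap.comp_apply, amap_ax]
    cases k with
    | zero => simp [GG_nil]
    | succ k =>
      rw [GG_succ, GG_succ, amap_cone]
      congr 1
      cases q with
      | zero =>
        rw [RH0_zero, RH0_zero, map_smul, amap_ax]
        congr 1
        · by_cases h : k + 1 = p
          · subst h; rw [sg_ax, sg_ax]; rfl
          · rw [sg_ax_ne _ _ h, sg_ax_ne _ _ h]
        · congr 1; exact Subsingleton.elim _ _
      | succ q =>
        rw [RH0_succ, RH0_succ, ← amap_ax, abd_amap, map_add, map_smul, map_sum]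
        simp only [ih]

end G

theorem t_G : S_G := fun _ _ _ _ _ _ q p r =>
  ⟨G.bdry q p r, G.noninj q p r, fun τ j c hc => (G.supp q p r τ j c hc).1,
    fun m c => G.nat m q p r c⟩

end Pool.Agent.P.MP_9321be_ag.ND.E
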