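import Pool.Agent.P.MP_9321be_ag.ND.ETool

/-!
Generic heights and linear sections.
-/

namespace Pool.Agent.P.MP_9321be_ag.ND.E

open Set Polynomial

namespace KGen

variable {α : Type} [Fintype α] [DecidableEq α]

/-- A nonnegative vector vanishing on `s` that avoids finitely many hyperplanes. -/
theorem avoid {ι : Type} [Fintype ι] (s : Finset α) (c : ι → α → ℝ)
    (hc : ∀ j, ∃ a ∉ s, c j a ≠ 0) :
    ∃ h : α → ℝ, (∀ a, 0 ≤ h a) ∧ (∀ a ∈ s, h a = 0) ∧ ∀ j, ∑ a, c j a * h a ≠ 0 := by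
  let idx : α → ℕ := fun a => Fintype.equivFin α a
  have hidx : Function.Injective idx := fun a b e => (Fintype.equivFin α).injective (Fin.ext e)
  let P : ι → ℝ[X] := fun j => ∑ a, monomial (idx a) (if a ∈ s then 0 else c j a)
  have hP : ∀ j, P j ≠ 0 := fun j e => by
    obtain ⟨a, ha, hca⟩ := hc j
    have := congrArg (coeff · (idx a)) e
    simp only [P, finsetSum_coeff, coeff_monomial, hidx.eq_iff, Finset.sum_ite_eq',
      Finset.mem_univ, if_true, if_neg ha, coeff_zero] at this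
    exact hca this
  obtain ⟨x, hx, hr⟩ := (Ioi_infinite (0 : ℝ)).exists_notMem_finite
    (finite_setOfPred_isRoot (Finset.prod_ne_zero_iff.2 fun j (_ : j ∈ Finset.univ) => hP j))
  refine ⟨fun a => if a ∈ s then 0 else x ^ idx a, fun a => ?_, fun a ha => if_pos ha,
    fun j e => hr ?_⟩
  · have : 0 < x := hx
    dsimp only
    split_ifs <;> positivity
  · simp only [mem_ofPred, IsRoot, eval_prod]
    refine Finset.prod_eq_zero (Finset.mem_univ j) (Eq.trans ?_ e)
    simp only [P, eval_finsetSum, eval_monomial]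
    exact Finset.sum_congr rfl fun a _ => by split_ifs <;> simp

end KGen

theorem t_KGen : S_KGen := by
  intro α σ _ _ _ _ v
  classical
  refine ⟨fun s hs => ?_, fun K hK => ?_⟩
  · have : ∀ τ : {τ : Finset α // ¬ LinearIndepOn ℝ v (τ : Set α)}, ∃ c : α → ℝ,
        (∀ a ∉ τ.1, c a = 0) ∧ ∑ a, c a • v a = 0 ∧ ∃ a ∉ s, c a ≠ 0 := fun τ => by
      obtain ⟨c, h1, a, ha, h2⟩ := (not_linearIndepOn_finset_iff).1 τ.2
      have e : ∑ a, (if a ∈ τ.1 then c a else 0) • v a = 0 := by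
        simpa [ite_smul, Finset.sum_ite_mem] using h1
      refine ⟨fun a => if a ∈ τ.1 then c a else 0, fun a ha => if_neg ha, e, ?_⟩
      by_contra hn
      push Not at hn
      refine h2 ?_
      by_cases has : a ∈ s
      · have := linearIndepOn_finset_iff.1 hs (fun a => if a ∈ τ.1 then c a else 0) (by
          rw [← e]
          exact Finset.sum_subset (Finset.subset_univ _) fun b _ hb => by
            rw [hn b hb, zero_smul]) a has
        simpa [ha] using this
      · simpa [ha] using hn a has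
    choose c c0 c1 c2 using this
    obtain ⟨h, h0, h1, h2⟩ := KGen.avoid s c c2
    refine ⟨h, h0, h1, fun τ hτ => by_contra fun hn => h2 ⟨τ, hn⟩ ?_⟩
    obtain ⟨u, ω, -, h3, -⟩ := hτ
    have := congrArg (· ⬝ᵥ ω) (c1 ⟨τ, hn⟩)
    simp only [sum_dotProduct, smul_dotProduct, zero_dotProduct, smul_eq_mul] at this
    rw [← neg_eq_zero, ← this, ← Finset.sum_neg_distrib]
    refine Finset.sum_congr rfl fun a _ => ?_
    by_cases ha : a ∈ τ
    · rw [eq_neg_of_add_eq_zero_left (h3 a ha).2, mul_neg]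
    · rw [c0 ⟨τ, hn⟩ a ha]; simp
  · have : ∀ ρ : Finset α, ∃ L : (α → ℝ) →ₗ[ℝ] (σ → ℝ),
        (ρ ∈ K → ∀ a ∈ ρ, ∀ y, v a ⬝ᵥ L y = y a) ∧ ∀ y, (∀ a ∈ ρ, y a = 0) → L y = 0 := fun ρ => by
      by_cases h : ρ ∈ K
      · obtain ⟨L, h1, h2⟩ := Tool.exists_dual (hK ρ h)
        exact ⟨L, fun _ a ha y => h1 y a ha, h2⟩
      · exact ⟨0, fun h' => (h h').elim, fun _ _ => rfl⟩
    choose sec h1 h2 using this
    exact ⟨sec, h1, h2⟩

end Pool.Agent.P.MP_9321be_ag.ND.E
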