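import Pool.Agent.P.MP_9321be_ag.ND.EIface

/-!
Non-degeneracy gives the gradient inequality.
-/

namespace Pool.Agent.P.MP_9321be_ag.ND.E

open Pool.Agent.Lib.Helper83 Set Complex Filter Topology

namespace NDNI

variable {α σ : Type} [Fintype α] [Fintype σ]

theorem mon_cont (a : σ → ℕ) : Continuous (mon a : (σ → ℂ) → ℂ) := by
  unfold mon
  fun_prop

theorem torus (ex : α → σ → ℕ) (c : α → ℂ) (ε κ : ℝ)
    (h : ∀ x : σ → ℂ, (∀ i, x i ≠ 0) → ‖x‖ < ε → κ * Sm ex x ≤ ∑ i, ‖lg ex c x i‖) :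
    NIq ex c ε κ := by
  intro x hx
  have hd : Dense (Set.pi univ fun _ : σ => ({0}ᶜ : Set ℂ)) :=
    dense_pi univ fun _ _ => dense_compl_singleton 0
  have hc : IsClosed {x : σ → ℂ | κ * Sm ex x ≤ ∑ i, ‖lg ex c x i‖} :=
    isClosed_le (continuous_const.mul (continuous_finsetSum _ fun a _ => (mon_cont _).norm))
      (continuous_finsetSum _ fun i _ =>
        (continuous_finsetSum _ fun a _ => continuous_const.mul (mon_cont _)).norm)
  exact closure_minimal (fun y hy => h y (fun i => hy.2 i trivial) (mem_ball_zero_iff.1 hy.1)) hc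
    (hd.open_subset_closure_inter Metric.isOpen_ball (mem_ball_zero_iff.2 hx))

omit [Fintype α] in
theorem mon_exp (ex : α → σ → ℕ) (b : α) (x : σ → ℂ) (u : σ → ℝ) :
    mon (ex b) (fun i => x i * (Real.exp (u i) : ℝ)) =
      mon (ex b) x * (Real.exp (rv ex b ⬝ᵥ u) : ℝ) := by
  simp only [mon, mul_pow, Finset.prod_mul_distrib, dotProduct, rv, Real.exp_sum, Real.exp_nat_mul,
    ofReal_prod, ofReal_pow]

end NDNI

open NDNI in
theorem t_NDNI : S_TC → S_NDNI := by
  intro htc α σ _ _ _ _ ex c hnd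
  by_contra hc
  have h1 : ∀ j : ℕ, ∃ x : σ → ℂ, (∀ i, x i ≠ 0) ∧ ‖x‖ < 1 / (j + 1) ∧
      ∑ i, ‖lg ex c x i‖ < 1 / (j + 1) * Sm ex x := fun j => by
    by_contra h
    push Not at h
    exact hc ⟨_, Nat.one_div_pos_of_nat, _, Nat.one_div_pos_of_nat, torus ex c _ _ h⟩
  choose x hx0 hx1 hx2 using h1
  have : Nonempty α := by
    by_contra h
    have := not_nonempty_iff.1 h
    simpa [lg, Sm] using hx2 0
  have hU : (hyperfilter ℕ : Filter ℕ) ≤ atTop := Nat.hyperfilter_le_atTop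
  obtain ⟨F, q, C, ⟨a₀, ha₀⟩, hq, hF⟩ := htc α σ ℕ (rv ex) (hyperfilter ℕ)
    fun j i => -Real.log ‖x j i‖
  set p : ℕ → σ → ℝ := fun j i => -Real.log ‖x j i‖ with hp
  set y : ℕ → σ → ℂ := fun j i => x j i * (Real.exp ((p j - q j) i) : ℝ) with hy
  have ny : ∀ j i, ‖y j i‖ = Real.exp (-q j i) := fun j i => by
    simp only [hy, hp, Pi.sub_apply]
    rw [norm_mul, norm_real, Real.norm_of_nonneg (Real.exp_pos _).le, sub_eq_add_neg, Real.exp_add,
      Real.exp_neg (Real.log _), Real.exp_log (norm_pos_iff.2 (hx0 j i)),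
      mul_inv_cancel_left₀ (norm_ne_zero_iff.2 (hx0 j i))]
  have hqi : ∀ᶠ j in (hyperfilter ℕ : Filter ℕ), ∀ i, |q j i| ≤ C :=
    hq.mono fun j hj i => (norm_le_pi_norm (q j) i).trans hj.1
  obtain ⟨q₀, -, tq⟩ := (isCompact_closedBall (0 : σ → ℝ) C).ultrafilter_le_nhds'
    ((hyperfilter ℕ).map q) (hq.mono fun j hj => mem_closedBall_zero_iff.2 hj.1)
  obtain ⟨y₀, -, ty⟩ := (isCompact_closedBall (0 : σ → ℂ) (Real.exp C)).ultrafilter_le_nhds'
    ((hyperfilter ℕ).map y) (hqi.mono fun j hj => mem_closedBall_zero_iff.2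
      ((pi_norm_le_iff_of_nonneg (Real.exp_pos C).le).2 fun i =>
        (ny j i).trans_le (Real.exp_le_exp.2 (neg_le.1 (abs_le.1 (hj i)).1))))
  replace tq : Tendsto q (hyperfilter ℕ) (𝓝 q₀) := tq
  replace ty : Tendsto y (hyperfilter ℕ) (𝓝 y₀) := ty
  have hy₀ : ∀ i, y₀ i ≠ 0 := fun i => norm_pos_iff.1 ((Real.exp_pos (-C)).trans_le
    (ge_of_tendsto (tendsto_pi_nhds.1 ty i).norm (hqi.mono fun j hj =>
      (Real.exp_le_exp.2 (neg_le_neg (abs_le.1 (hj i)).2)).trans_eq (ny j i).symm)))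
  set d : α → ℕ → ℝ := fun b j => rv ex b ⬝ᵥ (p j - q j) - rv ex a₀ ⬝ᵥ (p j - q j) with hd
  have d0 : ∀ᶠ j in (hyperfilter ℕ : Filter ℕ), ∀ b ∈ F, d b j = 0 :=
    hq.mono fun j hj b hb => sub_eq_zero.2 (hj.2 b hb a₀ ha₀)
  have d1 : ∀ b ∉ F, Tendsto (d b) (hyperfilter ℕ) atTop := fun b hb => by
    have c1 : Continuous fun z : σ → ℝ => rv ex a₀ ⬝ᵥ z - rv ex b ⬝ᵥ z := by fun_prop
    refine ((hF a₀ ha₀ b hb).atTop_add ((c1.tendsto q₀).comp tq)).congr fun j => ?_
    simp only [hd, dotProduct_sub, Function.comp_apply]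
    ring
  have tm : ∀ b, Tendsto (fun j => mon (ex b) (x j) * (Real.exp (rv ex a₀ ⬝ᵥ (p j - q j)) : ℝ))
      (hyperfilter ℕ) (𝓝 (if b ∈ F then mon (ex b) y₀ else 0)) := fun b => by
    have t1 : Tendsto (fun j => ((Real.exp (-d b j) : ℝ) : ℂ)) (hyperfilter ℕ)
        (𝓝 (if b ∈ F then 1 else 0)) := by
      split_ifs with hb
      · exact tendsto_const_nhds.congr' (d0.mono fun j hj => by simp [hj b hb])
      · exact (continuous_ofReal.tendsto' 0 0 ofReal_zero).comp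
          (Real.tendsto_exp_neg_atTop_nhds_zero.comp (d1 b hb))
    have t2 := (((mon_cont (ex b)).tendsto y₀).comp ty).mul t1
    rw [mul_ite, mul_one, mul_zero] at t2
    refine t2.congr fun j => ?_
    rw [Function.comp_apply, hy, mon_exp, mul_assoc, ← ofReal_mul, ← Real.exp_add]
    simp only [hd, neg_sub, add_sub_cancel]
  have t3 := tendsto_finsetSum Finset.univ fun (i : σ) _ =>
    (tendsto_finsetSum Finset.univ fun a _ => (tm a).const_mul (c a * ex a i)).norm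
  have t4 := ((tendsto_one_div_add_atTop_nhds_zero_nat (𝕜 := ℝ)).mono_left hU).mul
    (tendsto_finsetSum Finset.univ fun a _ => (tm a).norm)
  rw [zero_mul] at t4
  have h5 := le_of_tendsto_of_tendsto' t3 t4 fun j => by
    simp only [← mul_assoc, ← Finset.sum_mul, norm_mul]
    exact mul_le_mul_of_nonneg_right (hx2 j).le (norm_nonneg _)
  have h6 := (Finset.sum_eq_zero_iff_of_nonneg fun _ _ => norm_nonneg _).1
    (le_antisymm h5 (Finset.sum_nonneg fun _ _ => norm_nonneg _))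
  have tp : ∀ i, ∀ᶠ j in (hyperfilter ℕ : Filter ℕ), C < p j i := fun i => by
    have t5 : Tendsto (fun j => ‖x j i‖) atTop (𝓝[>] 0) :=
      tendsto_nhdsWithin_iff.2 ⟨squeeze_zero (fun _ => norm_nonneg _)
        (fun j => (norm_le_pi_norm (x j) i).trans (hx1 j).le)
        tendsto_one_div_add_atTop_nhds_zero_nat,
        Eventually.of_forall fun j => norm_pos_iff.2 (hx0 j i)⟩
    exact ((tendsto_neg_atBot_atTop.comp (Real.tendsto_log_nhdsGT_zero.comp t5)).mono_left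
      hU).eventually_gt_atTop C
  have d2 : ∀ᶠ j in (hyperfilter ℕ : Filter ℕ), ∀ b, b ∉ F → 0 < d b j :=
    eventually_all.2 fun b => by
      by_cases hb : b ∈ F
      · exact Eventually.of_forall fun _ h => (h hb).elim
      · exact ((d1 b hb).eventually_gt_atTop 0).mono fun _ h _ => h
  obtain ⟨j, ⟨e1, e2⟩, e3, e4⟩ := ((hqi.and (eventually_all.2 tp)).and (d0.and d2)).exists
  obtain ⟨i, hi⟩ := hnd (p j - q j) (fun i => sub_pos.2 ((abs_le.1 (e1 i)).2.trans_lt (e2 i))) y₀ hy₀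
  refine hi (Eq.trans ?_ (norm_eq_zero.1 (h6 i (Finset.mem_univ i))))
  rw [Finset.sum_filter]
  refine Finset.sum_congr rfl fun a _ => ?_
  by_cases ha : a ∈ F
  · rw [if_pos ha, if_pos fun b => ?_]
    have a1 := e3 a ha
    by_cases hb : b ∈ F
    · have a2 := e3 b hb
      simp only [hd] at a1 a2
      linarith
    · have a2 := e4 b hb
      simp only [hd] at a1 a2
      linarith
  · rw [if_neg ha, mul_zero, if_neg fun h => ?_]
    have a2 := e4 a ha
    simp only [hd] at a2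
    linarith [h a₀]

end Pool.Agent.P.MP_9321be_ag.ND.E
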