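import Pool.Agent.P.MP_9321be_ag.ND.EIface

/-!
The gradient inequality implies non-degeneracy.
-/

namespace Pool.Agent.P.MP_9321be_ag.ND.E

open Pool.Agent.Lib.Helper83 Set Complex Filter Topology

namespace NIND

theorem lim {d : ℝ} (hd : 0 < d) : Tendsto (fun s : ℝ => Real.exp (-(s * d))) atTop (𝓝 0) :=
  Real.tendsto_exp_neg_atTop_nhds_zero.comp (tendsto_id.atTop_mul_const hd)

theorem mon_scale {α σ : Type} [Fintype σ] (ex : α → σ → ℕ) (a : α) (x : σ → ℂ) (w : σ → ℝ)
    (s μ : ℝ) : (Real.exp (s * μ) : ℝ) * mon (ex a) (fun i => x i * (Real.exp (-(s * w i)) : ℝ)) =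
      mon (ex a) x * (Real.exp (-(s * (rv ex a ⬝ᵥ w - μ))) : ℝ) := by
  simp only [mon, mul_pow, Finset.prod_mul_distrib, ← ofReal_pow, ← ofReal_prod,
    ← Real.exp_nat_mul, ← Real.exp_sum]
  rw [mul_left_comm, ← ofReal_mul, ← Real.exp_add]
  congr 3
  simp only [rv, dotProduct, mul_sub, Finset.mul_sum, mul_neg, Finset.sum_neg_distrib,
    mul_left_comm s]
  ring

end NIND

open NIND

theorem t_NIND : S_NIND := by
  classical
  rintro α σ _ _ _ _ _ ex c ⟨ε, ε0, κ, κ0, hN⟩ w hw x hx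
  by_contra hc
  push Not at hc
  obtain ⟨a₀, -, h0⟩ := Finset.exists_min_image Finset.univ (fun a => rv ex a ⬝ᵥ w)
    Finset.univ_nonempty
  simp only [Finset.mem_univ, forall_const] at h0
  set y : ℝ → σ → ℂ := fun s i => x i * (Real.exp (-(s * w i)) : ℝ) with hy
  set E : ℝ → ℝ := fun s => Real.exp (s * (rv ex a₀ ⬝ᵥ w)) with hE
  have t0 : Tendsto y atTop (𝓝 0) := tendsto_pi_nhds.2 fun i => by
    simpa [hy] using ((continuous_ofReal.tendsto 0).comp (lim (hw i))).const_mul (x i)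
  have t1 : ∀ a, Tendsto (fun s => (E s : ℂ) * mon (ex a) (y s)) atTop
      (𝓝 (if ∀ b, rv ex a ⬝ᵥ w ≤ rv ex b ⬝ᵥ w then mon (ex a) x else 0)) := fun a => by
    simp only [hE, hy, mon_scale]
    split_ifs with h
    · simp [le_antisymm (h a₀) (h0 a)]
    · have : 0 < rv ex a ⬝ᵥ w - rv ex a₀ ⬝ᵥ w := sub_pos.2 (not_le.1 fun h' =>
        h fun b => h'.trans (h0 b))
      simpa using ((continuous_ofReal.tendsto 0).comp (lim this)).const_mul (mon (ex a) x)
  have t2 : ∀ i, Tendsto (fun s => ‖∑ a, c a * ex a i * ((E s : ℂ) * mon (ex a) (y s))‖) atTop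
      (𝓝 0) := fun i => by
    have := (tendsto_finsetSum Finset.univ fun a _ => (t1 a).const_mul (c a * ex a i)).norm
    simp only [mul_ite, mul_zero, ← Finset.sum_filter] at this
    have e := hc i
    convert this using 2
    rw [eq_comm, norm_eq_zero]
    convert e
  have t3 := tendsto_finsetSum Finset.univ fun i _ => t2 i
  have t4 := ((t1 a₀).norm).const_mul κ
  rw [if_pos h0] at t4
  have := le_of_tendsto_of_tendsto t4 t3 (by
    filter_upwards [t0.norm.eventually (gt_mem_nhds (by simpa using ε0))] with s hs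
    have p : 0 ≤ E s := (Real.exp_pos _).le
    have a1 := mul_le_mul_of_nonneg_left (hN (y s) hs) p
    have a2 : ‖mon (ex a₀) (y s)‖ ≤ Sm ex (y s) := Finset.single_le_sum
      (f := fun a => ‖mon (ex a) (y s)‖) (fun _ _ => norm_nonneg _) (Finset.mem_univ a₀)
    simp only [mul_left_comm _ (E s : ℂ), ← Finset.mul_sum, norm_mul, norm_real, Real.norm_eq_abs,
      abs_of_nonneg p]
    refine le_trans ?_ a1
    rw [mul_left_comm]
    exact mul_le_mul_of_nonneg_left (mul_le_mul_of_nonneg_left a2 κ0.le) p)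
  have m0 : 0 < ‖mon (ex a₀) x‖ :=
    norm_pos_iff.2 (Finset.prod_ne_zero_iff.2 fun i _ => pow_ne_zero _ (hx i))
  simp only [Finset.sum_const_zero] at this
  exact absurd this (not_le.2 (mul_pos κ0 m0))

end Pool.Agent.P.MP_9321be_ag.ND.E
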