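import Pool.Agent.P.MP_9321be_ag.ND.EIface

/-!
The non-vanishing statement, by repeated stellar subdivision.
-/

namespace Pool.Agent.P.MP_9321be_ag.ND.E

open Set

namespace NV

variable {B σ : Type} [DecidableEq B] [Fintype σ]

/-- The edges cut by the hyperplane `m`. -/
def mix (w : B → σ → ℝ) (Δ : Set (Finset B)) (m : σ → ℝ) : Set (B × B) :=
  {p | {p.1, p.2} ∈ Δ ∧ 0 < w p.1 ⬝ᵥ m ∧ w p.2 ⬝ᵥ m < 0}

theorem unm_of_mix {w : B → σ → ℝ} {Δ : Set (Finset B)} {m : σ → ℝ}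
    (hd : ∀ τ ∈ Δ, ∀ ρ ⊆ τ, ρ ∈ Δ) (h : ¬ (mix w Δ m).Nonempty) : Unm w Δ m := by
  intro ρ hρ
  by_contra h1
  push Not at h1
  obtain ⟨⟨b', a1, a2⟩, b, a3, a4⟩ := h1
  exact h ⟨(b, b'), hd ρ hρ _ (Finset.insert_subset a3 (Finset.singleton_subset_iff.2 a1)), a4, a2⟩

omit [DecidableEq B] in
theorem stw_none (b b' : B) (x y : ℝ) (w : B → σ → ℝ) (m : σ → ℝ) :
    stw b b' x y w none ⬝ᵥ m = x * (w b ⬝ᵥ m) + y * (w b' ⬝ᵥ m) := by
  simp [stw, add_dotProduct, smul_dotProduct]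

theorem unm_stel {w : B → σ → ℝ} {Δ : Set (Finset B)} {m : σ → ℝ} (b b' : B) {x y : ℝ}
    (hx : 0 < x) (hy : 0 < y) (h : Unm w Δ m) : Unm (stw b b' x y w) (stel b b' Δ) m := by
  rintro ρ ⟨-, h2, h3⟩
  by_cases hn : none ∈ ρ
  · have m1 : b ∈ insert b (insert b' (Finset.eraseNone ρ)) := by simp
    have m2 : b' ∈ insert b (insert b' (Finset.eraseNone ρ)) := by simp
    have m3 : ∀ c, some c ∈ ρ → c ∈ insert b (insert b' (Finset.eraseNone ρ)) := by
      simp +contextual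
    refine (h _ (h3 hn)).imp (fun a o ho => ?_) fun a o ho => ?_
    · cases o with
      | none => rw [stw_none]; exact add_nonneg (mul_nonneg hx.le (a b m1)) (mul_nonneg hy.le (a b' m2))
      | some c => exact a c (m3 c ho)
    · cases o with
      | none =>
        rw [stw_none]
        exact add_nonpos (mul_nonpos_of_nonneg_of_nonpos hx.le (a b m1))
          (mul_nonpos_of_nonneg_of_nonpos hy.le (a b' m2))
      | some c => exact a c (m3 c ho)
  · refine (h _ h2).imp (fun a o ho => ?_) fun a o ho => ?_ <;> cases o with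
    | none => exact absurd ho hn
    | some c => exact a c (Finset.mem_eraseNone.2 ho)

theorem mix_lt [Finite B] {w : B → σ → ℝ} {Δ : Set (Finset B)} {m : σ → ℝ} {b b' : B}
    (h : (b, b') ∈ mix w Δ m) :
    (mix (stw b b' (-(w b' ⬝ᵥ m)) (w b ⬝ᵥ m) w) (stel b b' Δ) m).ncard < (mix w Δ m).ncard := by
  have h0 : stw b b' (-(w b' ⬝ᵥ m)) (w b ⬝ᵥ m) w none ⬝ᵥ m = 0 := by rw [stw_none]; ring
  have h1 : mix (stw b b' (-(w b' ⬝ᵥ m)) (w b ⬝ᵥ m) w) (stel b b' Δ) m ⊆
      Prod.map some some '' (mix w Δ m \ {(b, b')}) := by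
    rintro ⟨o, o'⟩ ⟨⟨a1, a2, -⟩, a3, a4⟩
    cases o with
    | none => exact absurd h0 a3.ne'
    | some c =>
      cases o' with
      | none => exact absurd h0 a4.ne
      | some c' =>
        refine ⟨(c, c'), ⟨⟨?_, a3, a4⟩, fun e => a1 ?_⟩, rfl⟩
        · convert a2 using 1
          ext d; simp
        · obtain ⟨rfl, rfl⟩ := Prod.mk.inj e
          simp
  exact ((ncard_le_ncard h1).trans (ncard_image_le)).trans_lt
    (ncard_sdiff_singleton_lt_of_mem h)

end NV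

open NV in
theorem t_NV : S_NVBase → S_NVStep → S_NV := by
  intro hB hS B Z σ _ _ _ _ _ _ M w Δ Λ P j hN hP
  have step : ∀ (l : List (σ → ℝ)), (∀ (B : Type) [Fintype B] [DecidableEq B] (w : B → σ → ℝ)
      (Δ : Set (Finset B)) (Λ : MvPolynomial B ℝ →ₗ[ℝ] ℝ), NOk M w Δ Λ →
      (∀ m ∈ l, Unm w Δ m) → NCo P j w Λ) → NCo P j w Λ := by
    intro l
    induction l with
    | nil => exact fun h => h B w Δ Λ hN (by simp)
    | cons m l ih =>
      intro h
      refine ih fun B _ _ w Δ Λ hN hl => ?_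
      induction hn : (mix w Δ m).ncard using Nat.strong_induction_on generalizing B with
      | _ n ih' =>
        by_cases hm : (mix w Δ m).Nonempty
        · obtain ⟨⟨b, b'⟩, hb⟩ := hm
          have hx : 0 < -(w b' ⬝ᵥ m) := neg_pos.2 hb.2.2
          have hy : 0 < w b ⬝ᵥ m := hb.2.1
          obtain ⟨Λ', a1, a2⟩ := hS B σ M w Δ Λ b b' _ _ hN
            (fun e => by rw [← e] at hx; linarith) hx hy
          exact a2 Z P j (fun a => (hP.1 a).1) (@ih' _ (hn ▸ mix_lt hb) (Option B) _ _ _ _ Λ' a1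
            (fun m' hm' => unm_stel b b' hx hy (hl m' hm')) rfl)
        · exact h B w Δ Λ hN (List.forall_mem_cons.2 ⟨unm_of_mix hN.down hm, hl⟩)
  refine step ((Finset.univ : Finset (σ × σ)).toList.map
    fun p => Pi.single p.1 1 - Pi.single p.2 1) fun B _ _ w Δ Λ hN hl => ?_
  exact hB B Z σ M w Δ Λ P j hN hP fun a i _ i' _ =>
    hl _ (List.mem_map.2 ⟨(i, i'), by simp, rfl⟩)

end Pool.Agent.P.MP_9321be_ag.ND.E
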