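import Pool.Agent.P.MP_9321be_ag.ND.ETool

/-!
The two-colouring argument.
-/

namespace Pool.Agent.P.MP_9321be_ag.ND.E

namespace NVApp

open MvPolynomial Tool

variable {α σ : Type} [Fintype α] [DecidableEq α] [Fintype σ] [DecidableEq σ]

/-- The vertices outside `s`. -/
abbrev BB (s : Finset α) : Type := {b // b ∉ s}

/-- The inclusion on faces. -/
def up {s : Finset α} (ρ : Finset (BB s)) : Finset α := ρ.map (Function.Embedding.subtype _)

/-- The functional on the link of `s`. -/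
noncomputable def Ls (s F : Finset α) (Λ : MvPolynomial α ℝ →ₗ[ℝ] ℝ) :
    MvPolynomial (BB s) ℝ →ₗ[ℝ] ℝ :=
  Λ ∘ₗ LinearMap.mulLeft ℝ (∏ a ∈ F, X a) ∘ₗ (rename (Subtype.val : BB s → α)).toLinearMap

omit [Fintype α] [DecidableEq α] in
theorem Ls_apply (s F : Finset α) (Λ : MvPolynomial α ℝ →ₗ[ℝ] ℝ) (f : MvPolynomial (BB s) ℝ) :
    Ls s F Λ f = Λ ((∏ a ∈ F, X a) * rename Subtype.val f) := rfl

omit [Fintype α] [DecidableEq α] in
theorem mem_up {s : Finset α} {ρ : Finset (BB s)} {a : α} :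
    a ∈ up ρ ↔ ∃ h : a ∉ s, ⟨a, h⟩ ∈ ρ := by
  simp [up]

omit [Fintype α] [DecidableEq α] in
theorem disj_up {s F : Finset α} (h : F ⊆ s) (ρ : Finset (BB s)) : Disjoint (up ρ) F :=
  Finset.disjoint_left.2 fun _ ha ha' => (mem_up.1 ha).1 (h ha')

theorem sum_split {M : Type} [AddCommMonoid M] (s : Finset α) (f : α → M) :
    ∑ a, f a = ∑ a ∈ s, f a + ∑ b : BB s, f b := by
  rw [← Finset.sum_add_sum_compl s]
  congr 1
  exact Finset.sum_subtype _ (by simp) _

theorem rename_lf (s : Finset α) (c : BB s → ℝ) :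
    rename Subtype.val (lf c) = ∑ b : BB s, C (c b) * (X b.1 : MvPolynomial α ℝ) := by
  simp [lf]

omit [Fintype α] in
theorem prod_up {s F : Finset α} (h : F ⊆ s) (ρ : Finset (BB s)) :
    (∏ a ∈ F, X a) * rename Subtype.val (∏ b ∈ ρ, X b : MvPolynomial (BB s) ℝ) =
      ∏ a ∈ up ρ ∪ F, X a := by
  rw [Finset.prod_union (disj_up h ρ), mul_comm]
  simp [up]

omit [DecidableEq σ] in
theorem nok {v : α → σ → ℝ} {K : Set (Finset α)} {s τ₀ : Finset α}
    {Λ : MvPolynomial α ℝ →ₗ[ℝ] ℝ} (hK : Cx v K) (hs : s ∈ K) (hi : Intr v s) (hτ : τ₀ ⊆ s)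
    (hΛ : StP v K τ₀ Λ) :
    NOk (perp v s) (fun b : BB s => v b) {ρ | up ρ ∪ s ∈ K} (Ls s (s \ τ₀) Λ) := by
  have hr := finrank_perp (hK.ind s hs)
  have hc : ∀ ρ : Finset (BB s), (up ρ ∪ s).card = ρ.card + s.card := fun ρ => by
    rw [Finset.card_union_of_disjoint (disj_up subset_rfl ρ), up, Finset.card_map]
  refine ⟨fun τ h ρ hρ => hK.down _ h _ (Finset.union_subset_union_left
    (Finset.map_subset_map.2 hρ)), by simpa [up] using hs, fun ρ h => ?_, fun ρ h y => ?_,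
    fun m hm f => ?_, fun ρ h f => ?_, fun ρ h h' => ?_⟩
  · have := card_le (hK.ind _ h)
    rw [hc] at this
    omega
  · obtain ⟨τ, h1, h2, t, h3, h4, h5⟩ := hK.cl _ h (fun i => by
      obtain ⟨a, ha, ha'⟩ := hi i
      exact ⟨a, Finset.mem_union_right _ ha, ha'⟩) y
    refine ⟨τ.subtype _, hK.down τ h1 _ (Finset.union_subset (fun a ha => ?_)
      (Finset.subset_union_right.trans h2)), fun b hb => ?_, fun b => t b, fun b hb => h3 _ ?_,
      fun b hb => h4 _ (by simpa using hb), fun m hm => ?_⟩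
    · obtain ⟨_, h6⟩ := mem_up.1 ha
      simpa using h6
    · exact Finset.mem_subtype.2 (h2 (Finset.mem_union_left _ (mem_up.2 ⟨b.2, hb⟩)))
    · rw [Finset.mem_union, mem_up]
      rintro (⟨_, h6⟩ | h6)
      · exact hb h6
      · exact b.2 h6
    · rw [h5, sum_dotProduct, sum_split s, Finset.sum_eq_zero fun a ha => by
        rw [smul_dotProduct, mem_perp.1 hm a ha, smul_zero], zero_add]
      simp
  · have : rename Subtype.val (lf fun b : BB s => v b ⬝ᵥ m) = lf fun a => v a ⬝ᵥ m := by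
      rw [rename_lf, lf, sum_split s, Finset.sum_eq_zero (s := s) fun a ha => by
        rw [mem_perp.1 hm a ha, C_0, zero_mul], zero_add]
    rw [Ls_apply, map_mul (rename _), this, mul_left_comm]
    exact hΛ.th m _
  · rw [Ls_apply, map_mul (rename _), ← mul_assoc, prod_up Finset.sdiff_subset]
    refine hΛ.nf _ ?_ _
    rwa [Finset.union_assoc, Finset.sdiff_union_of_subset hτ]
  · have := hΛ.pos _ h (hτ.trans Finset.subset_union_right) (by rw [hc]; omega)
    rwa [Ls_apply, prod_up Finset.sdiff_subset, ← (disj_up hτ ρ).sdiff_eq_left,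
      ← Finset.union_sdiff_distrib]

omit [Fintype α] [DecidableEq α] in
theorem prod_toMultiset (μ : α →₀ ℕ) :
    ((Finsupp.toMultiset μ).map X).prod = (monomial μ 1 : MvPolynomial α ℝ) := by
  induction μ using Finsupp.induction_linear with
  | zero => simp
  | add a b ha hb => rw [map_add, Multiset.map_add, Multiset.prod_add, ha, hb, monomial_mul, one_mul]
  | single a n => simp [Multiset.nsmul_singleton, X_pow_eq_monomial]

omit [Fintype σ] [DecidableEq σ] in
theorem mn_eq_zero {P : Finset σ} {y : σ → ℝ} (h : ∀ i, 0 ≤ y i) {i : σ} (hi : i ∈ P)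
    (h0 : y i = 0) : mn P y = 0 :=
  le_antisymm (csInf_le (P.finite_toSet.image y).bddBelow ⟨i, hi, h0⟩)
    (Real.sInf_nonneg (by rintro _ ⟨j, -, rfl⟩; exact h j))

/-- Vertices with a private coordinate of exponent one. -/
abbrev ZZ (ex : α → σ → ℕ) (s : Finset α) : Type :=
  {a // a ∈ s ∧ ∃ i, ex a i = 1 ∧ ∀ b ∈ s, b ≠ a → ex b i = 0}

/-- The private coordinates. -/
def PP (ex : α → σ → ℕ) (s : Finset α) (a : ZZ ex s) : Finset σ :=
  Finset.univ.filter fun i => ex a i ≠ 0 ∧ ∀ b ∈ s, b ≠ a → ex b i = 0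

omit [DecidableEq σ] in
theorem mem_PP {ex : α → σ → ℕ} {s : Finset α} {a : ZZ ex s} {i : σ} :
    i ∈ PP ex s a ↔ ex a i ≠ 0 ∧ ∀ b ∈ s, b ≠ a → ex b i = 0 := by
  simp [PP]

omit [Fintype α] [DecidableEq α] [Fintype σ] [DecidableEq σ] in
theorem single_out {ex : α → σ → ℕ} {s : Finset α} {g : α → ℝ} {a : α} {i : σ} (ha : a ∈ s)
    (h : ∑ a ∈ s, g a * ex a i = 1) (h' : ∀ b ∈ s, b ≠ a → ex b i = 0) : g a * ex a i = 1 := by
  rw [← h, Finset.sum_eq_single_of_mem a ha fun b hb hb' => by simp [h' b hb hb']]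

omit [Fintype α] [Fintype σ] [DecidableEq σ] in
theorem exists_priv {ex : α → σ → ℕ} {s : Finset α} {g : α → ℝ} {i : σ}
    (h : ∑ a ∈ s, g a * ex a i = 1) (hg : ∀ a ∈ s, ex a i ≠ 0 → 1 ≤ g a) :
    ∃ a ∈ s, ex a i = 1 ∧ ∀ b ∈ s, b ≠ a → ex b i = 0 := by
  have h1 : ∑ a ∈ s, ex a i ≤ 1 := by
    have : ∑ a ∈ s, (ex a i : ℝ) ≤ ∑ a ∈ s, g a * ex a i := Finset.sum_le_sum fun a ha => by
      by_cases h0 : ex a i = 0
      · simp [h0]
      · exact le_mul_of_one_le_left (Nat.cast_nonneg _) (hg a ha h0)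
    rw [h] at this
    exact_mod_cast this
  obtain ⟨a, ha, ha'⟩ := Finset.exists_ne_zero_of_sum_ne_zero (h.trans_ne one_ne_zero)
  have h2 : ex a i ≠ 0 := fun h0 => ha' (by simp [h0])
  have h3 := Finset.single_le_sum (f := fun a => ex a i) (fun _ _ => Nat.zero_le _) ha
  refine ⟨a, ha, by omega, fun b hb hba => ?_⟩
  have h4 : ∑ c ∈ {a, b}, ex c i ≤ ∑ c ∈ s, ex c i :=
    Finset.sum_le_sum_of_subset (by simp [Finset.insert_subset_iff, ha, hb])
  rw [Finset.sum_pair hba.symm] at h4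
  omega

theorem rename_Dv {ex : α → σ → ℕ} {s : Finset α} {a : α} {j : σ} (ha : a ∈ s) (h1 : ex a j = 1)
    (h2 : ∀ b ∈ s, b ≠ a → ex b j = 0) (P : Finset σ) :
    rename Subtype.val (Dv P j fun b : BB s => rv ex b) =
      lf (fun c => rv ex c ⬝ᵥ Pi.single j 1) - X a -
        ∑ b : BB s, C (mn P (rv ex b)) * X b.1 := by
  rw [Dv, rename_lf, lf, sum_split s, Finset.sum_eq_single_of_mem a ha fun b hb hb' => by
    simp [rv, h2 b hb hb']]
  simp [rv, h1, sub_mul]

end NVApp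

open NVApp MvPolynomial Tool in
theorem t_NVApp : S_NV → S_NVApp := by
  intro hNV α σ _ _ _ _ ex K s E τ₀ g Λ hK hs hg hE hτ hap hΛ
  classical
  have hi : Intr (rv ex) s := fun i => by
    obtain ⟨a, ha, ha'⟩ := Finset.exists_ne_zero_of_sum_ne_zero ((hg i).trans_ne one_ne_zero)
    exact ⟨a, ha, right_ne_zero_of_mul ha'⟩
  have hj := fun a : ZZ ex s => a.2.2
  choose j hj hj' using hj
  have hg1 : ∀ a : ZZ ex s, g a = 1 := fun a => by
    simpa [hj a] using single_out a.2.1 (hg (j a)) (hj' a)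
  have hP1 : ∀ a : ZZ ex s, ∀ i ∈ PP ex s a, ex a i = 1 := fun a i h => by
    have := single_out a.2.1 (hg i) (mem_PP.1 h).2
    rw [hg1, one_mul] at this
    exact_mod_cast this
  have hjP : ∀ a, j a ∈ PP ex s a := fun a => mem_PP.2 ⟨by simp [hj a], hj' a⟩
  have hPH : PHy (perp (rv ex) s) (PP ex s) j := by
    refine ⟨fun a => ⟨hjP a, ?_⟩, fun a a' h => Finset.disjoint_left.2 fun i h1 h2 =>
      (mem_PP.1 h2).1 ((mem_PP.1 h1).2 _ a'.2.1 fun h3 => h (Subtype.ext h3.symm)),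
      fun a i h i' h' => mem_perp.2 fun b hb => ?_⟩
    · obtain ⟨i, h1, h2⟩ := hap a a.2.1 (j a) (hj a) (hj' a)
      exact Finset.one_lt_card.2 ⟨i, mem_PP.2 h2, j a, hjP a, h1⟩
    · by_cases hba : b = a
      · simp [rv, hba, hP1 a i h, hP1 a i' h']
      · simp [rv, (mem_PP.1 h).2 b hb hba, (mem_PP.1 h').2 b hb hba]
  obtain ⟨μ, S, hfull, hne⟩ :=
    hNV _ _ σ _ _ _ _ _ j (nok hK hs hi (fun a ha => ((hτ a).1 ha).1) hΛ) hPH
  by_contra hcon
  have hcon' : ∀ ν : Multiset α, (∀ a ∈ ν, a ∉ E) → Intr (rv ex) (ν.toFinset ∪ E) →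
      Λ (ν.map X).prod = 0 := fun ν h1 h2 => by_contra fun h => hcon ⟨ν, h, h1, h2⟩
  have key : ∀ (S : Finset (ZZ ex s)) (ν : Multiset α), (∀ a ∈ ν, a ∉ E) →
      (∀ a ∈ s \ τ₀, a ∈ ν) → (∀ a ∉ S, ∀ i ∈ PP ex s a, ∃ b ∈ ν, ex b i ≠ 0) →
      Λ ((ν.map X).prod * ∏ a ∈ S,
        rename Subtype.val (Dv (PP ex s a) (j a) fun b : BB s => rv ex b)) = 0 := by
    intro S
    induction S using Finset.induction_on with
    | empty =>
      intro ν h1 h2 h3
      rw [Finset.prod_empty, mul_one]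
      refine hcon' ν h1 fun i => by_contra fun h4 => ?_
      have h5 : ∀ a, a ∈ ν ∨ a ∈ E → ex a i = 0 := fun a ha => by_contra fun h6 =>
        h4 ⟨a, by simpa using ha, by simpa [rv] using h6⟩
      obtain ⟨a, ha, ha'⟩ := exists_priv (hg i) fun a ha h6 => by
        have h7 : a ∈ τ₀ := by_contra fun h => h6 (h5 a (Or.inl (h2 a (by simp [ha, h]))))
        obtain ⟨z, hz⟩ : ∃ z : ℤ, g a = z := by_contra fun h =>
          h6 (h5 a (Or.inr ((hE a).2 ⟨ha, fun z hz => h ⟨z, hz⟩⟩)))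
        have h8 : ¬ z ≤ 0 := fun h => ((hτ a).1 h7).2 z h hz
        rw [hz]
        exact_mod_cast (by omega : 1 ≤ z)
      obtain ⟨b, hb, hb'⟩ := h3 ⟨a, ha, i, ha'⟩ (by simp) i (mem_PP.2 ⟨by simp [ha'.1], ha'.2⟩)
      exact hb' (h5 b (Or.inl hb))
    | insert a S haS ih =>
      intro ν h1 h2 h3
      have step : ∀ b : α, b ∉ E → (∀ i ∈ PP ex s a, ex b i ≠ 0) →
          Λ (X b * ((ν.map X).prod * ∏ a ∈ S,
            rename Subtype.val (Dv (PP ex s a) (j a) fun b : BB s => rv ex b))) = 0 := by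
        intro b hb hb'
        have := ih (b ::ₘ ν) (by simpa [hb] using h1)
          (fun c hc => Multiset.mem_cons_of_mem (h2 c hc)) fun c hc i hi => by
            by_cases hca : c = a
            · exact ⟨b, Multiset.mem_cons_self _ _, hb' i (hca ▸ hi)⟩
            · obtain ⟨b', h4, h5⟩ := h3 c (by simp [hca, hc]) i hi
              exact ⟨b', Multiset.mem_cons_of_mem h4, h5⟩
        rwa [Multiset.map_cons, Multiset.prod_cons, mul_assoc] at this
      rw [Finset.prod_insert haS, mul_left_comm, rename_Dv a.2.1 (hj a) (hj' a), sub_mul, sub_mul,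
        map_sub, map_sub, hΛ.th, step a (fun h => ((hE a).1 h).2 1 (by simp [hg1]))
          fun i h => (mem_PP.1 h).1, Finset.sum_mul, map_sum, Finset.sum_eq_zero, sub_zero,
        sub_zero]
      intro b _
      rw [mul_assoc, C_mul', map_smul, smul_eq_mul]
      by_cases h4 : ∀ i ∈ PP ex s a, ex b i ≠ 0
      · rw [step b (fun h => b.2 ((hE b).1 h).1) h4, mul_zero]
      · push Not at h4
        obtain ⟨i, h5, h6⟩ := h4
        rw [mn_eq_zero (y := rv ex b) (fun _ => Nat.cast_nonneg _) h5 (by simp [rv, h6]), zero_mul]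
  refine hne ?_
  have := key S ((s \ τ₀).val + (Finsupp.toMultiset μ).map Subtype.val) (fun a ha h => ?_)
    (fun a ha => Multiset.mem_add.2 (Or.inl ha)) fun a ha i h => ?_
  · rw [Ls_apply, map_mul (rename _), ← prod_toMultiset, ← mul_assoc, ← this,
      Multiset.map_add, Multiset.prod_add, Finset.prod_map_val]
    simp [map_multiset_prod]
  · rcases Multiset.mem_add.1 ha with ha | ha
    · have h1 : a ∈ s \ τ₀ := ha
      exact (Finset.mem_sdiff.1 h1).2 ((hτ a).2 ⟨((hE a).1 h).1, fun z _ => ((hE a).1 h).2 z⟩)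
    · obtain ⟨b, -, rfl⟩ := Multiset.mem_map.1 ha
      exact b.2 ((hE b).1 h).1
  · obtain ⟨b, hb, i', -, h1⟩ := hfull a ha i h
    refine ⟨b, Multiset.mem_add.2 (Or.inr (Multiset.mem_map_of_mem _ (by simpa using hb))), ?_⟩
    have h2 : ex b i' < ex b i := by simpa [rv] using h1
    omega

end Pool.Agent.P.MP_9321be_ag.ND.E
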