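import Pool.Agent.P.MP_9321be_ag.ND.EIface

/-!
The non-vanishing statement when no cone is cut.
-/

namespace Pool.Agent.P.MP_9321be_ag.ND.E

open MvPolynomial

namespace NVBase

variable {B Z σ : Type} [Fintype B] [DecidableEq B] [Fintype Z] [DecidableEq Z] [Fintype σ]
  [DecidableEq σ] {M : Submodule ℝ (σ → ℝ)} {w : B → σ → ℝ} {Δ : Set (Finset B)}
  {Λ : MvPolynomial B ℝ →ₗ[ℝ] ℝ} {P : Z → Finset σ} {j k : Z → σ}

theorem dot_diff (y : σ → ℝ) (i i' : σ) :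
    y ⬝ᵥ (Pi.single i 1 - Pi.single i' 1) = y i - y i' := by
  simp [dotProduct_sub]

omit [Fintype σ] [DecidableEq σ] in
theorem mn_le {Q : Finset σ} (y : σ → ℝ) {i : σ} (hi : i ∈ Q) : mn Q y ≤ y i :=
  csInf_le (Q.finite_toSet.image y).bddBelow ⟨i, hi, rfl⟩

omit [Fintype σ] [DecidableEq σ] in
theorem mn_eq {Q : Finset σ} {y : σ → ℝ} {i : σ} (hi : i ∈ Q) (h : ∀ i' ∈ Q, y i ≤ y i') :
    y i = mn Q y :=
  le_antisymm (le_csInf ⟨_, i, hi, rfl⟩ (by rintro _ ⟨i', hi', rfl⟩; exact h i' hi')) (mn_le y hi)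

omit [Fintype B] [DecidableEq B] in
theorem argmin {Q : Finset σ} (hQ : Q.Nonempty)
    (hu : ∀ i ∈ Q, ∀ i' ∈ Q, Unm w Δ (Pi.single i 1 - Pi.single i' 1)) {ρ : Finset B}
    (hρ : ρ ∈ Δ) : ∃ i ∈ Q, ∀ b ∈ ρ, ∀ i' ∈ Q, w b i ≤ w b i' := by
  obtain ⟨i, hi, h⟩ := Q.exists_min_image (fun i => ∑ b ∈ ρ, w b i) hQ
  refine ⟨i, hi, fun b hb i' hi' => ?_⟩
  rcases hu i hi i' hi' ρ hρ with h1 | h1 <;> simp only [dot_diff] at h1
  · have h2 : ∑ b ∈ ρ, (w b i - w b i') = 0 := le_antisymm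
      (by rw [Finset.sum_sub_distrib]; exact sub_nonpos.2 (h i' hi')) (Finset.sum_nonneg h1)
    exact sub_nonpos.1 ((Finset.sum_eq_zero_iff_of_nonneg h1).1 h2 b hb).le
  · exact sub_nonpos.1 (h1 b hb)

theorem expand (hN : NOk M w Δ Λ) {Q : Finset σ} {i i₀ : σ} (hi : i ∈ Q)
    (hm : (Pi.single i₀ 1 - Pi.single i 1 : σ → ℝ) ∈ M) {ρ : Finset B}
    (h : ∀ b ∈ ρ, ∀ i' ∈ Q, w b i ≤ w b i') (G : MvPolynomial B ℝ) :
    Λ ((∏ b ∈ ρ, X b) * (Dv Q i₀ w * G)) =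
      ∑ c ∈ ρᶜ, (w c i - mn Q (w c)) * Λ ((∏ b ∈ insert c ρ, X b) * G) := by
  have e : Dv Q i₀ w = lf (fun b => w b ⬝ᵥ (Pi.single i₀ 1 - Pi.single i 1)) + Dv Q i w := by
    simp only [Dv, lf, dot_diff, ← Finset.sum_add_distrib, ← add_mul, ← C_add, sub_add_sub_cancel]
  rw [mul_left_comm, e, add_mul, map_add, hN.th _ hm, zero_add, Dv, lf, Finset.sum_mul, map_sum,
    ← Finset.sum_compl_add_sum ρ, Finset.sum_eq_zero (s := ρ), add_zero]
  · refine Finset.sum_congr rfl fun c hc => ?_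
    rw [Finset.prod_insert (Finset.mem_compl.1 hc), mul_assoc, C_mul', map_smul, smul_eq_mul,
      mul_assoc]
  · intro b hb
    rw [← mn_eq hi (h b hb), sub_self, C_0, zero_mul, zero_mul, map_zero]

omit [Fintype Z] in
theorem nonneg (hN : NOk M w Δ Λ) (hP : PHy M P j)
    (hu : ∀ a, ∀ i ∈ P a, ∀ i' ∈ P a, Unm w Δ (Pi.single i 1 - Pi.single i' 1)) (s : Finset Z) :
    ∀ ρ : Finset B, ρ.card + s.card = Module.finrank ℝ M →
      0 ≤ Λ ((∏ b ∈ ρ, X b) * ∏ a ∈ s, Dv (P a) (j a) w) := by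
  induction s using Finset.induction_on with
  | empty =>
    intro ρ h
    by_cases hρ : ρ ∈ Δ
    · simpa using (hN.pos ρ hρ h).le
    · exact (hN.nf ρ hρ _).ge
  | insert a s ha ih =>
    intro ρ h
    by_cases hρ : ρ ∈ Δ
    · obtain ⟨i, hi, h1⟩ := argmin ⟨_, (hP.1 a).1⟩ (hu a) hρ
      rw [Finset.prod_insert ha, expand hN hi (hP.2.2 a _ (hP.1 a).1 i hi) h1]
      refine Finset.sum_nonneg fun c hc => mul_nonneg (sub_nonneg.2 (mn_le _ hi)) (ih _ ?_)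
      rw [Finset.card_insert_of_notMem (Finset.mem_compl.1 hc), ← h,
        Finset.card_insert_of_notMem ha]
      omega
    · exact (hN.nf ρ hρ _).ge

omit [DecidableEq σ] in
theorem ext (hN : NOk M w Δ Λ) {ρ : Finset B} (hρ : ρ ∈ Δ) {y m₀ : σ → ℝ} (hm : m₀ ∈ M)
    (h0 : ∀ b ∈ ρ, w b ⬝ᵥ m₀ = 0) (hy : 0 < y ⬝ᵥ m₀) :
    ∃ c ∉ ρ, insert c ρ ∈ Δ ∧ 0 < w c ⬝ᵥ m₀ ∧ ∀ m ∈ M, Unm w Δ m → (∀ b ∈ ρ, 0 ≤ w b ⬝ᵥ m) →
      0 ≤ y ⬝ᵥ m → 0 ≤ w c ⬝ᵥ m := by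
  obtain ⟨τ, hτ, h1, t, t1, t2, t3⟩ := hN.cl ρ hρ y
  rw [t3 m₀ hm] at hy
  obtain ⟨c, -, hc⟩ := Finset.exists_lt_of_sum_lt (f := fun _ => (0 : ℝ)) (by simpa using hy)
  have c1 : c ∉ ρ := fun h => by simp [h0 c h] at hc
  have c2 : c ∈ τ := by
    by_contra h
    simp [t2 c h] at hc
  have c3 : 0 < t c := (t1 c c1).lt_of_ne fun h => by simp [← h] at hc
  refine ⟨c, c1, hN.down τ hτ _ (Finset.insert_subset c2 h1), (pos_iff_pos_of_mul_pos hc).1 c3,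
    fun m hm' hU h2 h3 => ?_⟩
  rcases hU τ hτ with h | h
  · exact h c c2
  · have h4 : ∀ b ∈ Finset.univ, t b * (w b ⬝ᵥ m) ≤ 0 := fun b _ => by
      by_cases hb : b ∈ ρ
      · rw [le_antisymm (h b (h1 hb)) (h2 b hb), mul_zero]
      by_cases hb' : b ∈ τ
      · exact mul_nonpos_of_nonneg_of_nonpos (t1 b hb) (h b hb')
      · rw [t2 b hb', zero_mul]
    have h5 := (Finset.sum_eq_zero_iff_of_nonpos h4).1
      (le_antisymm (Finset.sum_nonpos h4) (h3.trans_eq (t3 m hm'))) c (Finset.mem_univ _)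
    exact ((mul_eq_zero.1 h5).resolve_left c3.ne').ge

/-- Two given coordinates are minimal in each block of `s`. -/
def InR (P : Z → Finset σ) (j k : Z → σ) (s : Finset Z) (y : σ → ℝ) : Prop :=
  ∀ a ∈ s, ∀ i ∈ P a, y (j a) ≤ y i ∧ y (k a) ≤ y i

omit [Fintype Z] [DecidableEq Z] in
theorem extR (hN : NOk M w Δ Λ) (hP : PHy M P j) (hk : ∀ a, k a ∈ P a)
    (hu : ∀ a, ∀ i ∈ P a, ∀ i' ∈ P a, Unm w Δ (Pi.single i 1 - Pi.single i' 1)) {s : Finset Z}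
    {ρ : Finset B} (hρ : ρ ∈ Δ) (hR : ∀ b ∈ ρ, InR P j k s (w b)) {y m₀ : σ → ℝ} (hm : m₀ ∈ M)
    (h0 : ∀ b ∈ ρ, w b ⬝ᵥ m₀ = 0) (hy : 0 < y ⬝ᵥ m₀) (hy' : InR P j k s y) :
    ∃ c ∉ ρ, insert c ρ ∈ Δ ∧ 0 < w c ⬝ᵥ m₀ ∧ ∀ b ∈ insert c ρ, InR P j k s (w b) := by
  obtain ⟨c, c1, c2, c3, c4⟩ := ext hN hρ hm h0 hy
  refine ⟨c, c1, c2, c3, Finset.forall_mem_insert _ _ _ |>.2 ⟨fun a ha i hi => ?_, hR⟩⟩
  have h1 := c4 _ (hP.2.2 a i hi _ (hP.1 a).1) (hu a i hi _ (hP.1 a).1)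
  have h2 := c4 _ (hP.2.2 a i hi _ (hk a)) (hu a i hi _ (hk a))
  simp only [dot_diff, sub_nonneg] at h1 h2
  exact ⟨h1 (fun b hb => (hR b hb a ha i hi).1) (hy' a ha i hi).1,
    h2 (fun b hb => (hR b hb a ha i hi).2) (hy' a ha i hi).2⟩

omit [Fintype Z] in
theorem pos (hN : NOk M w Δ Λ) (hP : PHy M P j) (hk : ∀ a, k a ∈ P a ∧ k a ≠ j a)
    (hu : ∀ a, ∀ i ∈ P a, ∀ i' ∈ P a, Unm w Δ (Pi.single i 1 - Pi.single i' 1)) (s : Finset Z) :
    ∀ ρ ∈ Δ, (∀ b ∈ ρ, InR P j k s (w b)) → ρ.card + s.card ≤ Module.finrank ℝ M ∧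
      (ρ.card + s.card = Module.finrank ℝ M →
        0 < Λ ((∏ b ∈ ρ, X b) * ∏ a ∈ s, Dv (P a) (j a) w)) := by
  induction s using Finset.induction_on with
  | empty => exact fun ρ hρ _ => ⟨hN.card ρ hρ, fun h => by simpa using hN.pos ρ hρ h⟩
  | insert a s ha ih =>
    intro ρ hρ hR
    have hj := (hP.1 a).1
    have ha' := Finset.mem_insert_self a s
    obtain ⟨c, c1, c2, c3, c4⟩ := extR (s := s) hN hP (fun a => (hk a).1) hu hρ
      (fun b hb a' h => hR b hb a' (Finset.mem_insert_of_mem h)) (y := Pi.single (j a) 1)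
      (hP.2.2 a _ hj _ (hk a).1)
      (fun b hb => by
        rw [dot_diff, sub_eq_zero]
        exact le_antisymm (hR b hb a ha' _ (hk a).1).1 (hR b hb a ha' _ hj).2)
      (by simp [(hk a).2])
      (fun a' h i hi => by
        have h1 : ∀ i ∈ P a', i ≠ j a := fun i hi e => Finset.disjoint_left.1
          (hP.2.1 a a' fun e => ha (e ▸ h)) hj (e ▸ hi)
        simp [h1 i hi, h1 _ (hP.1 a').1, h1 _ (hk a').1])
    obtain ⟨h1, h2⟩ := ih _ c2 c4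
    rw [Finset.card_insert_of_notMem c1] at h1 h2
    rw [Finset.card_insert_of_notMem ha]
    refine ⟨by omega, fun h => ?_⟩
    rw [Finset.prod_insert ha, expand hN hj (hP.2.2 a _ hj _ hj)
      fun b hb i hi => (hR b hb a ha' i hi).1]
    refine Finset.sum_pos' (fun c hc => mul_nonneg (sub_nonneg.2 (mn_le _ hj))
      (nonneg hN hP hu s _ ?_)) ⟨c, Finset.mem_compl.2 c1, mul_pos ?_ (h2 (by omega))⟩
    · rw [Finset.card_insert_of_notMem (Finset.mem_compl.1 hc)]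
      omega
    · rw [dot_diff] at c3
      linarith [mn_le (w c) (hk a).1]

theorem test (hP : PHy M P j) (hk : ∀ a, k a ∈ P a) {m : σ → ℝ} (h0 : ∀ a, m (j a) = 0)
    (h : ∀ y, InR P j k Finset.univ y → y ⬝ᵥ m = 0) : m = 0 := by
  have h1 : ∀ i, (∀ a, k a ≠ i) → m i = 0 := fun i hi => by
    by_cases hj : ∃ a, j a = i
    · obtain ⟨a, rfl⟩ := hj
      exact h0 a
    · simpa using h (Pi.single i 1) fun a _ i' _ => by
        rw [Pi.single_eq_of_ne (hi a), Pi.single_eq_of_ne fun e => hj ⟨a, e⟩, and_self]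
        rw [Pi.single_apply]
        split_ifs <;> norm_num
  funext i
  by_cases hi : ∃ a, k a = i
  · obtain ⟨a, rfl⟩ := hi
    have h2 := h (fun i => if i ∈ P a then 1 else 0) fun a' _ i hi => by
      by_cases e : a' = a
      · subst e
        simp [hi, hk a', (hP.1 a').1]
      · have := fun i (hi : i ∈ P a') => Finset.disjoint_left.1 (hP.2.1 a' a e) hi
        simp [this i hi, this _ (hk a'), this _ (hP.1 a').1]
    rw [dotProduct, Finset.sum_eq_single (k a), if_pos (hk a), one_mul] at h2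
    · exact h2
    · intro i _ hi
      by_cases hi' : i ∈ P a
      · rw [h1 i fun a' e => ?_, mul_zero]
        by_cases e' : a' = a
        · exact hi (e' ▸ e).symm
        · exact Finset.disjoint_left.1 (hP.2.1 a' a e') (e ▸ hk a') hi'
      · rw [if_neg hi', zero_mul]
    · simp
  · exact h1 i fun a e => hi ⟨a, e⟩

end NVBase

open NVBase

theorem t_NVBase : S_NVBase := by
  intro B Z σ _ _ _ _ _ _ M w Δ Λ P j hN hP hu
  choose k hk using fun a => Finset.exists_mem_ne (hP.1 a).2 (j a)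
  obtain ⟨ρ, ⟨hρ, hR⟩, hmax⟩ := Set.exists_max_image
    {ρ | ρ ∈ Δ ∧ ∀ b ∈ ρ, InR P j k Finset.univ (w b)} Finset.card (Set.toFinite _)
    ⟨∅, hN.emp, by simp⟩
  obtain ⟨h1, h2⟩ := pos hN hP hk hu Finset.univ ρ hρ hR
  have h3 : Module.finrank ℝ M ≤ ρ.card + (Finset.univ : Finset Z).card := by
    by_contra hc
    let L : M →ₗ[ℝ] (ρ → ℝ) × (Z → ℝ) := LinearMap.prod
      (LinearMap.pi fun b => dotProductBilin ℝ ℝ (w b) ∘ₗ M.subtype)
      (LinearMap.pi fun a => LinearMap.proj (j a) ∘ₗ M.subtype)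
    obtain ⟨m, hm, hm0⟩ := (Submodule.ne_bot_iff _).1
      (LinearMap.ker_ne_bot_of_finrank_lt (f := L) (by simpa using hc))
    have e1 : ∀ b ∈ ρ, w b ⬝ᵥ m.1 = 0 := fun b hb => congrFun (congrArg Prod.fst hm) ⟨b, hb⟩
    have e2 : ∀ a, m.1 (j a) = 0 := fun a => congrFun (congrArg Prod.snd hm) a
    have key : ∀ m₀ ∈ M, (∀ b ∈ ρ, w b ⬝ᵥ m₀ = 0) → ∀ y, InR P j k Finset.univ y →
        y ⬝ᵥ m₀ ≤ 0 := fun m₀ hm₀ h0 y hy => by
      by_contra h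
      obtain ⟨c, c1, c2, -, c4⟩ := extR hN hP (fun a => (hk a).1) hu hρ hR hm₀ h0 (not_le.1 h) hy
      have := hmax _ ⟨c2, c4⟩
      rw [Finset.card_insert_of_notMem c1] at this
      omega
    refine hm0 (Subtype.ext (test hP (fun a => (hk a).1) e2 fun y hy =>
      le_antisymm (key _ m.2 e1 y hy) ?_))
    simpa using key _ (M.neg_mem m.2) (by simpa using e1) y hy
  refine ⟨∑ b ∈ ρ, Finsupp.single b 1, Finset.univ, by simp, ?_⟩
  rw [monomial_sum_one]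
  exact (h2 (le_antisymm h1 h3)).ne'

end Pool.Agent.P.MP_9321be_ag.ND.E
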