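import Pool.Agent.P.MP_9321be_ag.ND.EIface

/-!
Stellar subdivision: the integration functional and the descent of the conclusion.
-/

namespace Pool.Agent.P.MP_9321be_ag.ND.E

open MvPolynomial Finset

namespace NVStep

variable {B : Type} [DecidableEq B] {b b' : B} {x y : ℝ}

/-- The ring of the blow-up. -/
abbrev QQ (b b' : B) (x y : ℝ) := QuadraticAlgebra (MvPolynomial B ℝ)
  (-(C x⁻¹ * C y⁻¹ * (X b * X b'))) (C x⁻¹ * X b + C y⁻¹ * X b')

/-- The multiplicities. -/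
def kk (b b' : B) (x y : ℝ) (c : B) : ℝ := (if c = b then x else 0) + if c = b' then y else 0

/-- The strict transforms. -/
noncomputable def psi (b b' : B) (x y : ℝ) : MvPolynomial (Option B) ℝ →ₐ[ℝ] QQ b b' x y :=
  aeval fun o => o.elim ⟨0, 1⟩ fun c => ⟨X c, -C (kk b b' x y c)⟩

theorem psi_none : psi b b' x y (X none) = ⟨0, 1⟩ := aeval_X _ _

theorem psi_some (c : B) : psi b b' x y (X (some c)) = ⟨X c, -C (kk b b' x y c)⟩ := aeval_X _ _

theorem kk0 {c : B} (h : c ≠ b) (h' : c ≠ b') : kk b b' x y c = 0 := by simp [kk, h, h']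

theorem d_none {z : QQ b b' x y} (h : psi b b' x y (X none) ∣ z) : X b ∣ z.re ∧ X b' ∣ z.re := by
  obtain ⟨z, rfl⟩ := h
  rw [psi_none, QuadraticAlgebra.re_mul]
  exact ⟨⟨-(C x⁻¹ * C y⁻¹ * X b' * z.im), by ring⟩, ⟨-(C x⁻¹ * C y⁻¹ * X b * z.im), by ring⟩⟩

theorem d_some {c : B} {z : QQ b b' x y} (h : psi b b' x y (X (some c)) ∣ z) : X c ∣ z.re := by
  obtain ⟨z, rfl⟩ := h
  rw [psi_some, QuadraticAlgebra.re_mul]
  refine dvd_add (dvd_mul_right _ _) (Dvd.dvd.mul_right ?_ _)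
  by_cases h : c = b
  · exact h ▸ ((dvd_mul_right _ _).mul_left _).neg_right.mul_right _
  by_cases h' : c = b'
  · exact h' ▸ ((dvd_mul_left _ _).mul_left _).neg_right.mul_right _
  simp [kk0 h h']

theorem both (h : b ≠ b') (hx : 0 < x) (hy : 0 < y) :
    psi b b' x y (X (some b)) * psi b b' x y (X (some b')) = 0 := by
  have e1 : (C x * C x⁻¹ : MvPolynomial B ℝ) = 1 := by rw [← C_mul, mul_inv_cancel₀ hx.ne', C_1]
  have e2 : (C y * C y⁻¹ : MvPolynomial B ℝ) = 1 := by rw [← C_mul, mul_inv_cancel₀ hy.ne', C_1]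
  rw [psi_some, psi_some, show kk b b' x y b = x by simp [kk, h],
    show kk b b' x y b' = y by simp [kk, h.symm]]
  refine QuadraticAlgebra.ext ?_ ?_
  · rw [QuadraticAlgebra.re_mul, QuadraticAlgebra.re_zero]
    linear_combination -(X b * X b' * C y * C y⁻¹) * e1 - X b * X b' * e2
  · rw [QuadraticAlgebra.im_mul, QuadraticAlgebra.im_zero]
    linear_combination (X b * C y) * e1 + (X b' * C x) * e2

theorem psi_prod {ρ : Finset B} (h : b ∉ ρ) (h' : b' ∉ ρ) :
    ∏ c ∈ ρ, psi b b' x y (X (some c)) = algebraMap _ _ (∏ c ∈ ρ, X c : MvPolynomial B ℝ) := by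
  rw [map_prod]
  refine prod_congr rfl fun c hc => ?_
  rw [psi_some, kk0 (ne_of_mem_of_not_mem hc h) (ne_of_mem_of_not_mem hc h'), C_0, neg_zero]
  rfl

theorem psi_lf [Fintype B] (g : Option B → ℝ) : psi b b' x y (lf g) =
    algebraMap _ _ (lf fun c => g (some c)) +
      algebraMap ℝ _ (g none - x * g (some b) - y * g (some b')) * psi b b' x y (X none) := by
  have e : x * g (some b) + y * g (some b') = ∑ c, g (some c) * kk b b' x y c := by
    simp only [kk, mul_add, sum_add_distrib]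
    simp [mul_comm]
  simp only [lf, Fintype.sum_option, map_add, map_sum, map_mul, sub_sub, e, map_sub, sub_mul,
    sum_mul, algHom_C]
  rw [add_sub_left_comm, ← sum_sub_distrib]
  refine congrArg _ (sum_congr rfl fun c _ => ?_)
  rw [psi_none, psi_some]
  refine QuadraticAlgebra.ext ?_ ?_ <;>
    simp [IsScalarTower.algebraMap_apply ℝ (MvPolynomial B ℝ) (QQ b b' x y)]

theorem van {L : MvPolynomial B ℝ →ₗ[ℝ] ℝ} {H : MvPolynomial B ℝ}
    (h : ∀ ν : B →₀ ℕ, (∀ c, X c ∣ H → c ∈ ν.support) → L (monomial ν 1) = 0) : L H = 0 := by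
  rw [H.as_sum, map_sum]
  refine sum_eq_zero fun ν hν => ?_
  rw [← mul_one (coeff ν H), ← smul_eq_mul, ← smul_monomial, map_smul, h ν, smul_zero]
  rintro c ⟨G, rfl⟩
  by_contra hc
  exact mem_support_iff.1 hν (by rw [coeff_X_mul', if_neg hc])

omit [DecidableEq B] in
theorem prod_dvd {ρ : Finset B} {ν : B →₀ ℕ} (h : ρ ⊆ ν.support) :
    (∏ c ∈ ρ, X c : MvPolynomial B ℝ) ∣ monomial ν 1 := by
  rw [← prod_X_pow_eq_monomial]
  exact (prod_dvd_prod_of_subset _ _ _ h).trans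
    (prod_dvd_prod_of_dvd _ _ fun c hc => dvd_pow_self _ (Finsupp.mem_support_iff.1 hc))

variable {σ : Type} {w : B → σ → ℝ} {P : Finset σ}

theorem full (hx : 0 < x) (hy : 0 < y)
    (h : mn P (x • w b + y • w b') ≠ x * mn P (w b) + y * mn P (w b')) : Full P w {b, b'} := by
  by_contra hc
  simp only [Full, not_forall, not_exists, not_and, not_lt] at hc
  obtain ⟨j, hj, H⟩ := hc
  have e : ∀ u : σ → ℝ, (∀ i ∈ P, u j ≤ u i) → mn P u = u j := fun u hu =>
    IsLeast.csInf_eq ⟨⟨j, hj, rfl⟩, by rintro _ ⟨i, hi, rfl⟩; exact hu i hi⟩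
  have h1 := H b (by simp)
  have h2 := H b' (by simp)
  refine h ((e _ fun i hi => add_le_add (mul_le_mul_of_nonneg_left (h1 i hi) hx.le)
    (mul_le_mul_of_nonneg_left (h2 i hi) hy.le)).trans ?_)
  rw [e _ h1, e _ h2]
  rfl

/-- The new functional. -/
noncomputable def lam (b b' : B) (x y : ℝ) (Λ : MvPolynomial B ℝ →ₗ[ℝ] ℝ) :
    MvPolynomial (Option B) ℝ →ₗ[ℝ] ℝ :=
  Λ ∘ₗ (QuadraticAlgebra.reₗ _ _).restrictScalars ℝ ∘ₗ (psi b b' x y).toLinearMap

theorem lam_apply (Λ : MvPolynomial B ℝ →ₗ[ℝ] ℝ) (f : MvPolynomial (Option B) ℝ) :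
    lam b b' x y Λ f = Λ (psi b b' x y f).re := rfl

omit [DecidableEq B] in
theorem re_alg (D : MvPolynomial B ℝ) (z : QQ b b' x y) : (algebraMap _ _ D * z).re = D * z.re := by
  simp

theorem desc0 [Fintype B] {Z : Type} [DecidableEq Z] (hx : 0 < x) (hy : 0 < y) {P : Z → Finset σ}
    {j : Z → σ} {Λ : MvPolynomial B ℝ →ₗ[ℝ] ℝ} {μ : Option B →₀ ℕ} {S T : Finset Z}
    (h1 : ∀ a ∉ S, Full (P a) (stw b b' x y w) μ.support) (hc : ¬NCo P j w Λ)
    (h0 : ¬ ∃ a ∈ S \ T, mn (P a) (x • w b + y • w b') = x * mn (P a) (w b) + y * mn (P a) (w b'))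
    {z : QQ b b' x y} (d1 : psi b b' x y (monomial μ 1) ∣ z)
    (d2 : ∀ a ∈ S \ T, psi b b' x y (X none) ∣ z) : Λ (z.re * ∏ a ∈ T, Dv (P a) (j a) w) = 0 := by
  refine van (L := Λ ∘ₗ LinearMap.mulRight ℝ _) fun ν hν => by_contra fun h3 =>
    hc ⟨ν, T, fun a ha i hi => ?_, h3⟩
  by_cases hS : a ∈ S
  · have ha' := mem_sdiff.2 ⟨hS, ha⟩
    obtain ⟨c, c1, c2⟩ := full hx hy (fun h => h0 ⟨a, ha', h⟩) i hi
    refine ⟨c, hν c ?_, c2⟩
    rcases mem_insert.1 c1 with rfl | c1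
    · exact (d_none (d2 a ha')).1
    · exact mem_singleton.1 c1 ▸ (d_none (d2 a ha')).2
  · obtain ⟨o, o1, i', hi', o2⟩ := h1 a hS i hi
    have d := (map_dvd (psi b b' x y)
      (X_dvd_monomial.2 (Or.inr (Finsupp.mem_support_iff.1 o1)))).trans d1
    rcases o with _ | c
    · by_cases h4 : w b i' < w b i
      · exact ⟨b, hν b (d_none d).1, i', hi', h4⟩
      · refine ⟨b', hν b' (d_none d).2, i', hi', lt_of_mul_lt_mul_left (a := y) ?_ hy.le⟩
        simp only [stw, Option.elim, Pi.add_apply, Pi.smul_apply, smul_eq_mul] at o2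
        linarith [mul_le_mul_of_nonneg_left (not_lt.1 h4) hx.le]
    · exact ⟨c, hν c (d_some d), i', hi', o2⟩

theorem desc [Fintype B] {Z : Type} [DecidableEq Z] (hx : 0 < x) (hy : 0 < y) {P : Z → Finset σ}
    {j : Z → σ} {Λ : MvPolynomial B ℝ →ₗ[ℝ] ℝ} (h : NCo P j (stw b b' x y w) (lam b b' x y Λ)) :
    NCo P j w Λ := by
  obtain ⟨μ, S, h1, h2⟩ := h
  by_contra hc
  refine h2 ?_
  rw [lam_apply, map_mul, map_prod]
  simp only [Dv, psi_lf]
  rw [prod_add, mul_sum]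
  refine (congrArg Λ (map_sum (QuadraticAlgebra.reₗ _ _) _ _)).trans ?_
  rw [map_sum]
  refine sum_eq_zero fun T _ => ?_
  rw [← map_prod, mul_left_comm (psi b b' x y _)]
  refine (congrArg Λ ((re_alg _ _).trans (mul_comm _ _))).trans ?_
  by_cases h0 : ∃ a ∈ S \ T,
    mn (P a) (x • w b + y • w b') = x * mn (P a) (w b) + y * mn (P a) (w b')
  · obtain ⟨a, ha, h0⟩ := h0
    rw [prod_eq_zero ha, mul_zero, QuadraticAlgebra.re_zero, zero_mul, map_zero]
    refine mul_eq_zero_of_left ((congrArg _ ?_).trans (map_zero _)) _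
    simp only [stw, Option.elim, h0, Pi.add_apply, Pi.smul_apply, smul_eq_mul]
    ring
  exact desc0 hx hy h1 hc h0 (dvd_mul_right _ _) fun a ha =>
    ((dvd_mul_left _ _).trans (dvd_prod_of_mem _ ha)).mul_left _

theorem split {ρ : Finset B} (h : ¬ (b ∈ ρ ∧ b' ∈ ρ)) : (b ∉ ρ ∧ b' ∉ ρ) ∨
    ∃ c ρ₁, c ∉ ρ₁ ∧ ρ = insert c ρ₁ ∧ b ∉ ρ₁ ∧ b' ∉ ρ₁ ∧ (c = b ∨ c = b') := by
  by_cases h1 : b ∈ ρ
  · exact Or.inr ⟨b, ρ.erase b, notMem_erase _ _, (insert_erase h1).symm, notMem_erase _ _,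
      fun h2 => h ⟨h1, mem_of_mem_erase h2⟩, Or.inl rfl⟩
  by_cases h2 : b' ∈ ρ
  · exact Or.inr ⟨b', ρ.erase b', notMem_erase _ _, (insert_erase h2).symm,
      fun h3 => h1 (mem_of_mem_erase h3), notMem_erase _ _, Or.inr rfl⟩
  exact Or.inl ⟨h1, h2⟩

end NVStep

open NVStep in
theorem t_NVStep : S_NVGeo → S_NVStep := by
  intro hgeo B σ _ _ _ _ M w Δ Λ b b' x y h hb hx hy
  refine ⟨lam b b' x y Λ, ⟨fun τ hτ ρ hρ => ⟨fun a => hτ.1 ⟨hρ a.1, hρ a.2⟩,
    h.down _ hτ.2.1 _ (eraseNone.monotone hρ), fun a => h.down _ (hτ.2.2 (hρ a)) _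
      (insert_subset_insert _ (insert_subset_insert _ (eraseNone.monotone hρ)))⟩,
    ⟨by simp, by simpa using h.emp, by simp⟩, fun ρ hρ => ?_, hgeo B σ M w Δ Λ b b' x y h hb hx hy,
    fun m hm f => ?_, fun ρ hρ f => ?_, fun ρ hρ hc => ?_⟩, fun Z _ _ P j _ => desc hx hy⟩
  · by_cases h0 : none ∈ ρ
    · have h1 := card_lt_card (s := eraseNone ρ) (t := insert b (insert b' (eraseNone ρ)))
        ⟨(subset_insert _ _).trans (subset_insert _ _), fun a => hρ.1
          ⟨mem_eraseNone.1 (a (by simp)), mem_eraseNone.1 (a (by simp))⟩⟩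
      have h2 := h.card _ (hρ.2.2 h0)
      have h3 := card_eraseNone_of_mem h0
      omega
    · exact card_eraseNone_of_not_mem h0 ▸ h.card _ hρ.2.1
  · rw [lam_apply, map_mul, psi_lf, show stw b b' x y w none ⬝ᵥ m - x * (stw b b' x y w (some b) ⬝ᵥ m)
      - y * (stw b b' x y w (some b') ⬝ᵥ m) = 0 by simp [stw], map_zero, zero_mul, add_zero, re_alg]
    exact h.th m hm _
  · have d : ∀ o ∈ ρ, psi b b' x y (X o) ∣ psi b b' x y ((∏ o ∈ ρ, X o) * f) := fun o ho =>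
      map_dvd _ ((dvd_prod_of_mem _ ho).mul_right _)
    have key : ∀ τ ∉ Δ, (∀ c ∈ τ, X c ∣ (psi b b' x y ((∏ o ∈ ρ, X o) * f)).re) →
        lam b b' x y Λ ((∏ o ∈ ρ, X o) * f) = 0 := fun τ hτ H => van (L := Λ) fun ν hν => by
      obtain ⟨G, hG⟩ := prod_dvd fun c hc => hν c (H c hc)
      exact hG ▸ h.nf τ hτ G
    by_cases h1 : some b ∈ ρ ∧ some b' ∈ ρ
    · obtain ⟨G, hG⟩ := prod_dvd_prod_of_subset {some b, some b'} ρ
        (X : _ → MvPolynomial (Option B) ℝ) (insert_subset h1.1 (singleton_subset_iff.2 h1.2))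
      rw [lam_apply, hG, prod_pair (by simpa using hb), map_mul, map_mul, map_mul, both hb hx hy,
        zero_mul, zero_mul, QuadraticAlgebra.re_zero, map_zero]
    by_cases h2 : eraseNone ρ ∈ Δ
    · obtain ⟨h3, h4⟩ := Classical.not_imp.1 fun a => hρ ⟨h1, h2, a⟩
      refine key _ h4 fun c hc => ?_
      rcases mem_insert.1 hc with rfl | hc
      · exact (d_none (d _ h3)).1
      rcases mem_insert.1 hc with rfl | hc
      · exact (d_none (d _ h3)).2
      exact d_some (d _ (mem_eraseNone.1 hc))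
    · exact key _ h2 fun c hc => d_some (d _ (mem_eraseNone.1 hc))
  · have h1 := split (ρ := eraseNone ρ) (b := b) (b' := b') (by simpa using hρ.1)
    rw [lam_apply, map_prod]
    by_cases h0 : none ∈ ρ
    · have h2 := hρ.2.2 h0
      have h3 := h.card _ h2
      have h4 := card_eraseNone_of_mem h0
      have h5 := card_pos.2 ⟨_, h0⟩
      rw [← insert_eq_of_mem h0, ← insertNone_eraseNone, prod_insertNone]
      rcases h1 with ⟨a1, a2⟩ | ⟨c, ρ₁, a1, a2, a3, a4, a5⟩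
      · rw [card_insert_of_notMem (by simp [hb, a1]), card_insert_of_notMem a2] at h3
        omega
      have e : insert b (insert b' (insert c ρ₁)) = insert b (insert b' ρ₁) := by
        rcases a5 with rfl | rfl <;> simp [insert_comm]
      rw [a2] at h2 h4 ⊢
      rw [e] at h2
      have a6 : b ∉ insert b' ρ₁ := by simp [hb, a3]
      have h6 := h.pos _ h2 (by
        rw [card_insert_of_notMem a1] at h4
        rw [card_insert_of_notMem a6, card_insert_of_notMem a4]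
        omega)
      have h7 : 0 < kk b b' x y c := by rcases a5 with rfl | rfl <;> simp [kk, hb, hb.symm, hx, hy]
      rw [prod_insert a6, prod_insert a4] at h6
      refine (mul_pos (mul_pos (mul_pos (inv_pos.2 hx) (inv_pos.2 hy)) h7) h6).trans_eq ?_
      rw [← smul_eq_mul, ← map_smul, prod_insert a1, psi_prod a3 a4, psi_none, psi_some,
        smul_eq_C_mul]
      congr 1
      simp [-map_prod]
      ring
    · have h6 := h.pos _ hρ.2.1 ((card_eraseNone_of_not_mem h0).trans hc)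
      rw [← erase_eq_of_notMem h0, ← map_some_eraseNone, prod_map]
      refine h6.trans_eq (congrArg Λ ?_)
      rcases h1 with ⟨a1, a2⟩ | ⟨c, ρ₁, a1, a2, a3, a4, -⟩
      · exact congrArg QuadraticAlgebra.re (psi_prod a1 a2).symm
      · simp only [a2, prod_insert a1, Function.Embedding.some_apply, psi_prod a3 a4]
        simp [psi_some, -map_prod]

end Pool.Agent.P.MP_9321be_ag.ND.E
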