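import Pool.Agent.P.MP_9321be_ag.ND.EIface

/-!
Degenerate points on a complex line are algebraic over the field of the coefficients.
-/

namespace Pool.Agent.P.MP_9321be_ag.ND.E

open Pool.Agent.Lib.Helper83 Set Complex Filter Topology

namespace Path

open MvPolynomial in
theorem field {K τ : Type} [Field K] [Finite τ] (φ₀ φ₁ : K →+* ℂ) (y : τ → ℂ) :
    ∃ y' : τ → ℂ, ∀ p : MvPolynomial τ K, eval₂ φ₀ y p = 0 → eval₂ φ₁ y' p = 0 := by
  obtain ⟨m, hm, hle⟩ := Ideal.exists_le_maximal _ (RingHom.ker_ne_top (eval₂Hom φ₀ y))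
  let := φ₁.toAlgebra
  obtain ⟨y', rfl⟩ := eq_vanishingIdeal_singleton_of_isMaximal ℂ hm
  exact ⟨y', fun p hp => (mem_vanishingIdeal_singleton_iff y' p).1 (hle hp)⟩

open MvPolynomial in
theorem domain {R τ : Type} [CommRing R] [Finite τ] (K : Type) [Field K] [Algebra R K]
    [IsFractionRing R K] {φ₀ φ₁ : R →+* ℂ}
    (h₀ : Function.Injective φ₀) (h₁ : Function.Injective φ₁) (y : τ → ℂ) :
    ∃ y' : τ → ℂ, ∀ p : MvPolynomial τ R, eval₂ φ₀ y p = 0 → eval₂ φ₁ y' p = 0 := by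
  have e : ∀ φ : R →+* ℂ, Function.Injective φ → ∃ ψ : K →+* ℂ,
      ψ.comp (algebraMap R K) = φ := fun φ hφ =>
    ⟨IsFractionRing.lift hφ, RingHom.ext (IsFractionRing.lift_algebraMap (K := K) hφ)⟩
  obtain ⟨ψ₀, rfl⟩ := e _ h₀
  obtain ⟨ψ₁, rfl⟩ := e _ h₁
  obtain ⟨y', h⟩ := field ψ₀ ψ₁ y
  refine ⟨y', fun p hp => ?_⟩
  rw [← eval₂_map] at hp ⊢
  exact h _ hp

variable {α σ : Type} [Fintype α] [Fintype σ]

open MvPolynomial in
theorem transfer (ex : α → σ → ℕ) {R : Type} [CommRing R] [IsDomain R] {φ₀ φ₁ : R →+* ℂ}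
    (h₀ : Function.Injective φ₀) (h₁ : Function.Injective φ₁) (c : α → R)
    (h : NDc ex fun a => φ₁ (c a)) : NDc ex fun a => φ₀ (c a) := by
  classical
  intro w hw x hx
  by_contra hc
  push Not at hc
  obtain ⟨y, hy⟩ := domain (FractionRing R) h₀ h₁ (Sum.elim x fun i => (x i)⁻¹)
  obtain ⟨i, hi⟩ := h w hw (fun i => y (Sum.inl i)) fun i h0 => by
    have := hy (X (Sum.inl i) * X (Sum.inr i) - 1) (by simp [hx i])
    simp [h0] at this
  refine hi ?_
  have := hy (∑ a with ∀ b, rv ex a ⬝ᵥ w ≤ rv ex b ⬝ᵥ w,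
    C (c a) * C (ex a i : R) * ∏ j, X (Sum.inl j) ^ ex a j)
  simp only [eval₂_sum, eval₂_mul, eval₂_C, eval₂_prod, eval₂_pow, eval₂_X, map_natCast φ₀,
    map_natCast φ₁, Sum.elim_inl] at this
  exact this (hc i)

end Path

theorem t_Path : S_Path := by
  intro α σ _ _ _ _ ex c₀ c₁ h
  let k := Subfield.closure (range c₀ ∪ range c₁)
  have hk : Countable k := Cardinal.mk_le_aleph0_iff.1 ((Subfield.cardinalMk_closure_le_max _).trans
    (max_le (Cardinal.le_aleph0_iff_set_countable.2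
      ((finite_range c₀).union (finite_range c₁)).countable) le_rfl))
  have hA : {t : ℂ | IsAlgebraic k t}.Countable := Algebraic.countable k ℂ
  obtain ⟨t₁, a1, a2⟩ := (hA.dense_compl ℂ).inter_nhds_nonempty h
  refine hA.mono fun t₀ ht => by_contra fun b1 => ht ?_
  let c : α → Polynomial k := fun a =>
    Polynomial.C ⟨c₀ a, Subfield.subset_closure (Or.inl ⟨a, rfl⟩)⟩ +
      Polynomial.X * Polynomial.C ⟨c₁ a, Subfield.subset_closure (Or.inr ⟨a, rfl⟩)⟩
  have e : ∀ t : ℂ, c₀ + t • c₁ = fun a => (Polynomial.aeval t).toRingHom (c a) := fun t => by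
    funext a
    simp [c]
    exact congrArg _ (mul_comm _ _)
  rw [e]
  refine Path.transfer ex (transcendental_iff_injective.1 b1) (transcendental_iff_injective.1 a1) c ?_
  rw [← e]
  exact a2

end Pool.Agent.P.MP_9321be_ag.ND.E
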