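import Pool.Agent.P.MP_9321be_ag.ND.EVal

/-!
The formal cocycle has the required properties.
-/

namespace Pool.Agent.P.MP_9321be_ag.ND.E

open Pool.Agent.Lib.Helper83 Set Val

namespace Phi

variable {α σ : Type} [Fintype α] [Fintype σ]

theorem Vd_ne {q n : ℕ} (u : Fin q → σ → ℝ) (z : Fin n → σ → ℝ) (h : n ≠ q + 1) :
    Vd u (ax ℝ z) = 0 := by
  simp [Vd, ax, h]

theorem Vd_abd {q : ℕ} (u : Fin q → σ → ℝ) (c : LC ℝ (σ → ℝ)) : Vd u (abd c) = 0 := by
  refine all_eq (Vd u ∘ₗ abd) 0 ?_ c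
  rintro ⟨n, z⟩
  show Vd u (abd (ax ℝ z)) = 0
  cases n with
  | zero => simp
  | succ n =>
    rw [abd_succ, map_sum]
    by_cases h : n = q + 1
    · subst h
      let N : Matrix (Fin (q + 2)) (Fin (q + 2)) ℝ := Matrix.of fun i j =>
        (Fin.cons 1 (Fin.cons 1 (fun i => u i ⬝ᵥ z j) : Fin (q + 1) → ℝ) : Fin (q + 2) → ℝ) i
      have h0 : N.det = 0 := Matrix.det_zero_of_row_eq (i := 0) (j := Fin.succ 0)
        (Fin.succ_ne_zero 0).symm (funext fun j => rfl)
      rw [← h0, Matrix.det_succ_row_zero]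
      refine Finset.sum_congr rfl fun j _ => ?_
      rw [map_smul, Vd_ax, smul_eq_mul]
      have : N 0 j = 1 := rfl
      rw [this, mul_one]
      rfl
    · exact Finset.sum_eq_zero fun j _ => by rw [map_smul, Vd_ne u _ h, smul_zero]

theorem Vd_shift {q : ℕ} (u : Fin q → σ → ℝ) (m : σ → ℝ) (c : LC ℝ (σ → ℝ)) :
    Vd u (amap (fun z => z + m) c) = Vd u c := by
  refine all_eq (Vd u ∘ₗ amap (fun z => z + m)) (Vd u) ?_ c
  rintro ⟨n, z⟩
  show Vd u (amap _ (ax ℝ z)) = Vd u (ax ℝ z)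
  rw [amap_ax]
  by_cases h : n = q + 1
  · subst h
    rw [Vd_ax, Vd_ax]
    refine Matrix.det_eq_of_forall_row_eq_smul_add_const
      (Fin.cons 0 (fun i => u i ⬝ᵥ m) : Fin (q + 1) → ℝ) 0 rfl fun i j => ?_
    refine Fin.cases ?_ (fun i => ?_) i <;> simp
  · rw [Vd_ne u _ h, Vd_ne u _ h]

theorem Vd_flat {q : ℕ} (u : Fin q → σ → ℝ) (s : Fin q → ℝ) (hs : s ≠ 0) (κ : ℝ)
    (z : Fin (q + 1) → σ → ℝ) (hz : ∀ j, (∑ i, s i • u i) ⬝ᵥ z j = κ) : Vd u (ax ℝ z) = 0 := by
  rw [Vd_ax, ← Matrix.exists_vecMul_eq_zero_iff]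
  refine ⟨(Fin.cons (-κ) s : Fin (q + 1) → ℝ), fun h => hs (funext fun i => congrFun h i.succ), ?_⟩
  funext j
  have := hz j
  rw [sum_dotProduct] at this
  simp only [smul_dotProduct, smul_eq_mul] at this
  simp [Matrix.vecMul, dotProduct, Fin.sum_univ_succ] at this ⊢
  linarith

omit [Fintype α] in
open MvPolynomial in
theorem deg_det {n : Type} [Fintype n] [DecidableEq n] (M : Matrix n n (MvPolynomial α ℝ))
    (d : n → ℕ) (h : ∀ i j, (M i j).totalDegree ≤ d i) : M.det.totalDegree ≤ ∑ i, d i := by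
  rw [Matrix.det_apply]
  refine totalDegree_finsetSum_le fun s _ => ?_
  rw [Units.smul_def, zsmul_eq_mul]
  refine (totalDegree_mul _ _).trans ?_
  rw [← map_intCast (C : ℝ →+* MvPolynomial α ℝ), totalDegree_C, zero_add, ← Equiv.sum_comp s d]
  exact (totalDegree_finsetProd _ _).trans (Finset.sum_le_sum fun i _ => h _ _)

open MvPolynomial in
theorem aff_poly (c : ℝ) (l : (α → ℝ) →ₗ[ℝ] ℝ) :
    ∃ P : MvPolynomial α ℝ, P.totalDegree ≤ 1 ∧ ∀ k, eval k P = c + l k := by
  classical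
  refine ⟨C c + ∑ a, C (l (Pi.single a 1)) * X a, ?_, fun k => ?_⟩
  · refine (totalDegree_add _ _).trans (max_le (by simp) ?_)
    exact totalDegree_finsetSum_le fun a _ => (totalDegree_mul _ _).trans (by simp)
  · conv_rhs => rw [pi_eq_sum_univ' k]
    simp [mul_comm]

open MvPolynomial in
theorem poly (v : α → σ → ℝ) (sec : Finset α → (α → ℝ) →ₗ[ℝ] (σ → ℝ)) {q : ℕ}
    (u : Fin q → σ → ℝ) (c : LC ℝ (Sy α σ)) : ∃ P : MvPolynomial α ℝ, P.totalDegree ≤ q ∧
      ∀ k, Vd u (amap (evk v sec k) c) = eval k P := by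
  induction c using Finsupp.induction_linear with
  | zero => exact ⟨0, by simp, by simp⟩
  | add c c' h h' =>
    obtain ⟨P, h1, h2⟩ := h
    obtain ⟨P', h1', h2'⟩ := h'
    exact ⟨P + P', (totalDegree_add _ _).trans (max_le h1 h1'), fun k => by simp [h2, h2']⟩
  | single x t =>
    obtain ⟨n, y⟩ := x
    have e : (Finsupp.single ⟨n, y⟩ t : LC ℝ (Sy α σ)) = t • ax ℝ y := by simp [ax]
    by_cases h : n = q + 1
    · subst h
      choose A hA1 hA2 using fun (i : Fin q) (j : Fin (q + 1)) => aff_poly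
        (u i ⬝ᵥ (y j).2 - u i ⬝ᵥ sec (y j).1 fun a => v a ⬝ᵥ (y j).2)
        (dotProductBilin ℝ ℝ (u i) ∘ₗ sec (y j).1)
      let M : Matrix (Fin (q + 1)) (Fin (q + 1)) (MvPolynomial α ℝ) := Matrix.of fun i j =>
        (Fin.cons 1 (fun i => A i j) : Fin (q + 1) → MvPolynomial α ℝ) i
      refine ⟨t • M.det, (totalDegree_smul_le _ _).trans ((deg_det M
        (Fin.cons 0 fun _ => 1) fun i j => ?_).trans (by simp [Fin.sum_univ_succ])), fun k => ?_⟩
      · refine Fin.cases ?_ (fun i => hA1 i j) i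
        simp [M]
      · rw [e, map_smul, map_smul, amap_ax, Vd_ax, smul_eval, smul_eq_mul, RingHom.map_det]
        congr 2
        ext i j
        refine Fin.cases ?_ (fun i => ?_) i
        · simp [M]
        · simp [M, hA2, evk]
          ring
    · exact ⟨0, by simp, fun k => by rw [e, map_smul, map_smul, amap_ax, Vd_ne u _ h]; simp⟩

end Phi

open Phi in
theorem t_Phi : S_G → S_Phi := by
  intro hG α σ _ _ _ _ v K sec p q r u hK hind hsec hp hs
  refine ⟨fun τ hτ k j c hc => ?_, fun k m c => ?_, fun τ hτ k j c hc => ?_,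
    fun τ k k' hk j c hc => ?_, fun c => poly v sec u _⟩
  · have h1 := congrArg (fun x => Vd u (amap (evk v sec k) x)) ((hG α σ (q + 1) p r).1 hp c)
    have h2 : ∀ b, Vd u (amap (evk v sec k) (GG (q + 1) (p + 1) (Fin.cons b r) c)) = 0 := by
      intro b
      by_cases hb : Function.Injective (Fin.cons b r : Fin (p + 1) → α)
      swap
      · rw [(hG α σ (q + 1) (p + 1) (Fin.cons b r)).2.1 hb]; simp
      refine lsub_eq (Vd u ∘ₗ amap (evk v sec k)) 0 (fun y hy => ?_)
        ((hG α σ (q + 1) (p + 1) (Fin.cons b r)).2.2.1 τ j c hc)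
      have hm : ∀ l i, (Fin.cons b r : Fin (p + 1) → α) i ∈ (y l).1 := fun l i =>
        (hy l).1 (Finset.mem_image_of_mem _ (Finset.mem_univ i))
      have hd : ∀ l i, v ((Fin.cons b r : Fin (p + 1) → α) i) ⬝ᵥ evk v sec k (y l) =
          k ((Fin.cons b r : Fin (p + 1) → α) i) := fun l i =>
        evk_dot hsec k (hK _ hτ _ (hy l).2) (hm l i)
      have hli : LinearIndependent ℝ (v ∘ (Fin.cons b r : Fin (p + 1) → α)) :=
        (hind _ (hK _ hτ _ (hy 0).2)).comp (fun i => ⟨_, hm 0 i⟩)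
          fun a b h => hb (congrArg Subtype.val h)
      have hv := hs (Submodule.mem_top (x := v b))
      rw [Submodule.span_union, Submodule.mem_sup] at hv
      obtain ⟨_, hx, w, hw, e⟩ := hv
      obtain ⟨s, rfl⟩ := (Submodule.mem_span_range_iff_exists_fun ℝ).1 hx
      have hs0 : s ≠ 0 := by
        rintro rfl
        rw [Fin.comp_cons, linearIndependent_finCons] at hli
        exact hli.2 (by simpa [← e] using hw)
      obtain ⟨t, rfl⟩ := (Submodule.mem_span_range_iff_exists_fun ℝ).1 hw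
      simp only [LinearMap.comp_apply, amap_ax, LinearMap.zero_apply]
      refine Vd_flat u s hs0 (k b - ∑ i, t i * k (r i)) _ fun l => ?_
      have h3 := hd l 0
      have h4 := fun i : Fin p => hd l i.succ
      simp only [Fin.cons_zero, Fin.cons_succ] at h3 h4
      rw [← h3, ← e, add_dotProduct, sum_dotProduct _ (fun i => t i • (v ∘ r) i)]
      simp [h4]
    simp only [← abd_amap, Vd_abd, RH0, Nat.succ_ne_zero, if_false, zero_add, LinearMap.add_apply,
      LinearMap.smul_apply, LinearMap.comp_apply, LinearMap.sum_apply, map_add, map_smul, map_sum,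
      h2, Finset.sum_const_zero, add_zero, smul_eq_mul] at h1
    exact (mul_eq_zero.1 h1.symm).resolve_left (by simp)
  · simp only [Ph, LinearMap.comp_apply]
    rw [(hG α σ (q + 1) p r).2.2.2, ← Vd_shift u m (amap (evk v sec k) _), amap_amap, amap_amap]
    congr 3
    funext y
    simp only [Function.comp_apply, evk]
    rw [add_right_comm]
    congr 3
    funext a
    simp
  · simp only [Ph, LinearMap.comp_apply]
    rw [lsub_empty (fun s hs => hτ (hs.1.trans hs.2)) ((hG α σ (q + 1) p r).2.2.1 τ j c hc)]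
    simp
  · refine congrArg (Vd u) (lsub_eq (amap (evk v sec k)) (amap (evk v sec k')) (fun y hy => ?_)
      ((hG α σ (q + 1) p r).2.2.1 τ j c hc))
    rw [amap_ax, amap_ax]
    congr 1
    funext l
    exact evk_congr hsec fun a ha => hk a ((hy l).2 ha)

end Pool.Agent.P.MP_9321be_ag.ND.E
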