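import Pool.Agent.P.MP_9321be_ag.ND.EIface

/-!
The top degree part of a polynomial function as a functional.
-/

namespace Pool.Agent.P.MP_9321be_ag.ND.E

namespace Top

variable {α : Type} [Fintype α] [DecidableEq α]

/-- A monomial function. -/
def mo (μ : Multiset α) : (α → ℝ) → ℝ := fun k => (μ.map k).prod

/-- Polynomial functions of degree less than `n`. -/
def W (α : Type) (n : ℕ) : Submodule ℝ ((α → ℝ) → ℝ) :=
  Submodule.span ℝ {F | ∃ ν : Multiset α, ν.card < n ∧ F = mo ν}

omit [Fintype α] [DecidableEq α] in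
theorem mo_mem {n : ℕ} {ν : Multiset α} (h : ν.card < n) : mo ν ∈ W α n :=
  Submodule.subset_span ⟨ν, h, rfl⟩

omit [Fintype α] [DecidableEq α] in
theorem W_mono {n m : ℕ} (h : n ≤ m) : W α n ≤ W α m :=
  Submodule.span_mono fun _ ⟨ν, h1, h2⟩ => ⟨ν, lt_of_lt_of_le h1 h, h2⟩

omit [Fintype α] [DecidableEq α] in
theorem mul_mem {n : ℕ} (a : α) {F : (α → ℝ) → ℝ} (h : F ∈ W α n) :
    (fun k => k a * F k) ∈ W α (n + 1) := by
  induction h using Submodule.span_induction with
  | mem F hF =>
    obtain ⟨ν, h1, rfl⟩ := hF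
    have : (fun k : α → ℝ => k a * mo ν k) = mo (a ::ₘ ν) := by
      funext k; simp [mo]
    rw [this]
    exact mo_mem (by simp; omega)
  | zero =>
    have : (fun k : α → ℝ => k a * (0 : (α → ℝ) → ℝ) k) = 0 := by
      funext k; simp
    rw [this]; exact zero_mem _
  | add F G _ _ h1 h2 =>
    have : (fun k : α → ℝ => k a * (F + G) k) = (fun k => k a * F k) + fun k => k a * G k := by
      funext k; simp [mul_add]
    rw [this]; exact add_mem h1 h2
  | smul c F _ h1 =>
    have : (fun k : α → ℝ => k a * (c • F) k) = c • fun k => k a * F k := by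
      funext k; simp [mul_left_comm]
    rw [this]; exact Submodule.smul_mem _ _ h1

omit [Fintype α] in
theorem Dc_mo (c : α) (μ : Multiset α) : Dc c (mo μ) ∈ W α μ.card := by
  induction μ using Multiset.induction_on with
  | empty =>
    have : Dc c (mo (0 : Multiset α)) = 0 := by
      funext k; simp [Dc, mo]
    rw [this]; exact zero_mem _
  | cons a μ ih =>
    have : Dc c (mo (a ::ₘ μ)) = (fun k => k a * Dc c (mo μ) k) +
        ((Pi.single c 1 : α → ℝ) a • Dc c (mo μ) + (Pi.single c 1 : α → ℝ) a • mo μ) := by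
      funext k
      simp only [Dc, mo, Multiset.map_cons, Multiset.prod_cons, Pi.add_apply, Pi.smul_apply,
        smul_eq_mul]
      ring
    rw [this, Multiset.card_cons]
    exact add_mem (mul_mem a ih) (add_mem (Submodule.smul_mem _ _ (W_mono (by omega) ih))
      (Submodule.smul_mem _ _ (mo_mem (by omega))))

omit [Fintype α] in
theorem Dc_mem {n : ℕ} (c : α) {F : (α → ℝ) → ℝ} (h : F ∈ W α (n + 1)) : Dc c F ∈ W α n := by
  induction h using Submodule.span_induction with
  | mem F hF =>
    obtain ⟨ν, h1, rfl⟩ := hF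
    exact W_mono (by omega) (Dc_mo c ν)
  | zero =>
    have : Dc c (0 : (α → ℝ) → ℝ) = 0 := by
      funext k; simp [Dc]
    rw [this]; exact zero_mem _
  | add F G _ _ h1 h2 =>
    have : Dc c (F + G) = Dc c F + Dc c G := by
      funext k; simp only [Dc, Pi.add_apply]; ring
    rw [this]; exact add_mem h1 h2
  | smul a F _ h1 =>
    have : Dc c (a • F) = a • Dc c F := by
      funext k; simp only [Dc, Pi.smul_apply, smul_eq_mul]; ring
    rw [this]; exact Submodule.smul_mem _ _ h1

omit [Fintype α] in
theorem Dm_cons (c : α) (μ : Multiset α) (F : (α → ℝ) → ℝ) : Dm (c ::ₘ μ) F = Dc c (Dm μ F) :=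
  Multiset.foldr_cons _ _ _ _

omit [Fintype α] in
theorem Dm_mem (μ : Multiset α) {F : (α → ℝ) → ℝ} :
    ∀ n : ℕ, F ∈ W α (n + μ.card) → Dm μ F ∈ W α n := by
  induction μ using Multiset.induction_on with
  | empty => intro n h; simpa [Dm] using h
  | cons a μ ih =>
    intro n h
    rw [Dm_cons]
    refine Dc_mem a (ih (n + 1) ?_)
    rw [Multiset.card_cons] at h
    rwa [show n + 1 + μ.card = n + (μ.card + 1) by omega]

omit [Fintype α] [DecidableEq α] in
theorem const_of_mem {F : (α → ℝ) → ℝ} (h : F ∈ W α 1) (k : α → ℝ) : F k = F 0 := by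
  induction h using Submodule.span_induction with
  | mem F hF =>
    obtain ⟨ν, h1, rfl⟩ := hF
    have : ν = 0 := Multiset.card_eq_zero.1 (by omega)
    subst this; simp [mo]
  | zero => rfl
  | add F G _ _ h1 h2 => simp [h1, h2]
  | smul a F _ h1 => simp [h1]

theorem aff_of_mem {F : (α → ℝ) → ℝ} (h : F ∈ W α 2) (k : α → ℝ) :
    F k = F 0 + ∑ c, k c * Dc c F 0 := by
  induction h using Submodule.span_induction with
  | mem F hF =>
    obtain ⟨ν, h1, rfl⟩ := hF
    rcases (show ν.card = 0 ∨ ν.card = 1 by omega) with h | h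
    · have : ν = 0 := Multiset.card_eq_zero.1 h
      subst this; simp [mo, Dc]
    · obtain ⟨a, rfl⟩ := Multiset.card_eq_one.1 h
      simp [mo, Dc, Pi.single_apply]
  | zero => simp [Dc]
  | add F G _ _ h1 h2 =>
    simp only [Dc, Pi.add_apply] at h1 h2 ⊢
    rw [h1, h2, add_add_add_comm, ← Finset.sum_add_distrib]
    congr 1
    exact Finset.sum_congr rfl fun c _ => by ring
  | smul a F _ h1 =>
    simp only [Dc, Pi.smul_apply, smul_eq_mul] at h1 ⊢
    rw [h1, mul_add, Finset.mul_sum]
    congr 1
    exact Finset.sum_congr rfl fun c _ => by ring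

omit [Fintype α] in
theorem Dm_inv (μ : Multiset α) {F : (α → ℝ) → ℝ} (y : α → ℝ) (h : ∀ k, F (k + y) = F k) :
    ∀ k, Dm μ F (k + y) = Dm μ F k := by
  induction μ using Multiset.induction_on with
  | empty => simpa [Dm] using h
  | cons a μ ih =>
    intro k
    rw [Dm_cons]
    simp only [Dc]
    rw [add_right_comm, ih, ih]

omit [Fintype α] in
theorem prod_X (μ : Multiset α) : (μ.map MvPolynomial.X).prod =
    (MvPolynomial.monomial (Multiset.toFinsupp μ) 1 : MvPolynomial α ℝ) := by
  induction μ using Multiset.induction_on with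
  | empty => simp
  | cons a μ ih =>
    rw [Multiset.map_cons, Multiset.prod_cons, ih, ← Multiset.singleton_add,
      Multiset.toFinsupp_add, Multiset.toFinsupp_singleton, MvPolynomial.X,
      MvPolynomial.monomial_mul, one_mul]

omit [Fintype α] in
theorem mono_eq (s : α →₀ ℕ) : (MvPolynomial.monomial s 1 : MvPolynomial α ℝ) =
    ((Finsupp.toMultiset s).map MvPolynomial.X).prod := by
  rw [prod_X, Finsupp.toMultiset_toFinsupp]

omit [Fintype α] in
theorem eval_mem (P : MvPolynomial α ℝ) (q : ℕ) (h : P.totalDegree ≤ q) :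
    (fun k => MvPolynomial.eval k P) ∈ W α (q + 1) := by
  have : (fun k => MvPolynomial.eval k P) =
      ∑ s ∈ P.support, P.coeff s • mo (Finsupp.toMultiset s) := by
    funext k
    conv_lhs => rw [P.as_sum]
    rw [map_sum, Finset.sum_apply]
    refine Finset.sum_congr rfl fun s _ => ?_
    have e : (MvPolynomial.monomial s (P.coeff s) : MvPolynomial α ℝ) =
        MvPolynomial.C (P.coeff s) * MvPolynomial.monomial s 1 := by
      rw [MvPolynomial.C_mul_monomial, mul_one]
    rw [e, map_mul, mono_eq, map_multiset_prod, Multiset.map_map]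
    simp [mo]
  rw [this]
  refine Submodule.sum_mem _ fun s hs => Submodule.smul_mem _ _ (mo_mem ?_)
  have := MvPolynomial.le_totalDegree hs
  rw [Finsupp.card_toMultiset]
  exact Nat.lt_succ_of_le (le_trans this h)

end Top

open Top in
theorem t_Top : S_Top := by
  intro α _ _ P q hq
  set F : (α → ℝ) → ℝ := fun k => MvPolynomial.eval k P with hF
  have hW : F ∈ W α (q + 1) := eval_mem P q hq
  let Λ : MvPolynomial α ℝ →ₗ[ℝ] ℝ := (MvPolynomial.basisMonomials α ℝ).constr ℝ
    fun s => if (Finsupp.toMultiset s).card = q then Dm (Finsupp.toMultiset s) F 0 else 0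
  have hΛ : ∀ μ : Multiset α, Λ (μ.map MvPolynomial.X).prod =
      if μ.card = q then Dm μ F 0 else 0 := by
    intro μ
    have := (MvPolynomial.basisMonomials α ℝ).constr_basis ℝ
      (fun s => if (Finsupp.toMultiset s).card = q then Dm (Finsupp.toMultiset s) F 0 else 0)
      (Multiset.toFinsupp μ)
    rw [Multiset.toFinsupp_toMultiset, MvPolynomial.coe_basisMonomials] at this
    rw [prod_X]
    exact this
  refine ⟨Λ, fun μ hμ k => ?_, fun μ hμ => by rw [hΛ, if_neg hμ], fun y hy f => ?_⟩
  · rw [hΛ, if_pos hμ]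
    exact const_of_mem (Dm_mem μ 1 (by rwa [hμ, add_comm])) k
  · have key : Λ ∘ₗ LinearMap.mulLeft ℝ (lf y) = 0 := by
      refine (MvPolynomial.basisMonomials α ℝ).ext fun s => ?_
      rw [MvPolynomial.coe_basisMonomials]
      simp only [LinearMap.comp_apply, LinearMap.mulLeft_apply, LinearMap.zero_apply]
      rw [mono_eq, lf, Finset.sum_mul, map_sum]
      set ν := Finsupp.toMultiset s
      have e : ∀ b, Λ (MvPolynomial.C (y b) * MvPolynomial.X b * (ν.map MvPolynomial.X).prod) =
          y b * if ν.card + 1 = q then Dc b (Dm ν F) 0 else 0 := by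
        intro b
        rw [mul_assoc, ← Multiset.prod_cons, ← Multiset.map_cons, MvPolynomial.C_mul', map_smul,
          hΛ, Multiset.card_cons, Dm_cons, smul_eq_mul]
      simp only [e]
      split_ifs with hν
      · have h2 : Dm ν F ∈ W α 2 := Dm_mem ν 2 (by rwa [show 2 + ν.card = q + 1 by omega])
        have h3 := aff_of_mem h2 y
        have h4 := Dm_inv ν (F := F) y (fun k => by simpa [hF] using hy k 1) 0
        rw [zero_add] at h4
        linarith
      · simp
    exact LinearMap.congr_fun key f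

end Pool.Agent.P.MP_9321be_ag.ND.E
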