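import Pool.Agent.P.MP_9321be_ag.ND.EVal
import Pool.Agent.P.MP_9321be_ag.ND.ETop

/-!
The stress defined by the formal cocycle.
-/

namespace Pool.Agent.P.MP_9321be_ag.ND.E

open Pool.Agent.Lib.Helper83 Set

namespace Str

variable {α σ : Type} [Fintype α] [DecidableEq α] [Fintype σ] [DecidableEq σ]
  {v : α → σ → ℝ} {K : Set (Finset α)} {τ₀ : Finset α} {q n : ℕ}
  {Φ : (α → ℝ) → LC ℝ (X0 α σ) →ₗ[ℝ] ℝ}

omit [Fintype σ] [DecidableEq σ] in
open Classical in
theorem Dm_NN (e : Fin n ≃ σ) (μ : Multiset α) (k : α → ℝ) :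
    Dm μ (NN e v K Φ) k = ∑ t : Fin n → α,
      (if Finset.univ.image t ∈ K then (SignType.sign (dt e v t) : ℝ) else 0) *
        Dm μ (fun k => Φ k (ax ℝ fun j => (t j, 0))) k := by
  have : NN e v K Φ = fun k => ∑ t : Fin n → α,
      (if Finset.univ.image t ∈ K then (SignType.sign (dt e v t) : ℝ) else 0) *
        Φ k (ax ℝ fun j => (t j, 0)) := by
    funext k
    simp only [NN, zc, map_sum, map_smul, amap_ax, smul_eq_mul]
    rfl
  rw [this, Val.dm_sum]
  exact Finset.sum_congr rfl fun t _ => congrFun (Val.dm_mul μ _ _ fun _ _ _ => rfl) k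

omit [Fintype α] [Fintype σ] [DecidableEq σ] in
theorem ax_lab (t : Fin n → α) :
    ax ℝ (fun j => ((t j, 0) : X0 α σ)) ∈ lsub ℝ (labIn σ (Finset.univ.image t)) n :=
  ax_mem fun j => Finset.mem_image_of_mem t (Finset.mem_univ j)

omit [Fintype α] [DecidableEq σ] in
/-- The terms that do not contain `τ₀` and the support of `μ` vanish. -/
theorem Dm_zero (hP : PhiP v K τ₀ q Φ) (t : Fin n → α) (μ : Multiset α)
    (h : ¬ (μ.toFinset ∪ τ₀ ⊆ Finset.univ.image t)) (k : α → ℝ) :
    Dm μ (fun k => Φ k (ax ℝ fun j => (t j, 0))) k = 0 := by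
  by_cases h0 : τ₀ ⊆ Finset.univ.image t
  · obtain ⟨a, h1, h2⟩ := Finset.not_subset.1 fun h' => h (Finset.union_subset h' h0)
    refine Val.dm_kill μ _ (Multiset.mem_toFinset.1 h1) (fun k => ?_) k
    refine hP.loc _ _ _ (fun b hb => ?_) _ _ (ax_lab t)
    rw [Pi.add_apply, Pi.single_eq_of_ne (fun e : b = a => h2 (e ▸ hb)), add_zero]
  · simp only [hP.van _ h0 _ _ _ (ax_lab t)]
    exact congrFun (Val.dm_zero μ) k

omit [Fintype α] [DecidableEq α] [Fintype σ] [DecidableEq σ] in
theorem dt_zero (e : Fin n ≃ σ) {t : Fin n → α} (h : ¬ Function.Injective t) : dt e v t = 0 := by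
  obtain ⟨i, j, h1, h2⟩ := Function.not_injective_iff.1 h
  exact Matrix.det_zero_of_row_eq h2 (funext fun l => by simp [h1])

theorem mul_sign_pos {κ x y : ℝ} (h : 0 < κ * x * y) : 0 < κ * ((SignType.sign x : ℝ) * y) := by
  rcases lt_trichotomy x 0 with hx | rfl | hx
  · rw [sign_neg hx]
    simp only [SignType.coe_neg_one]
    nlinarith
  · simp at h
  · rw [sign_pos hx]
    simp only [SignType.coe_one]
    nlinarith

end Str

open Str

theorem t_Stress (hT : S_Top) (hC : S_Carr) : S_Stress := by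
  intro α σ _ _ _ _ v K d e τ₀ q Φ cx hI hq hP ⟨κ, hκ⟩
  classical
  obtain ⟨P, hd, hPe⟩ := hP.poly (amap (fun a => ((a, 0) : X0 α σ)) (zc e v K))
  have hN : NN e v K Φ = fun k => MvPolynomial.eval k P := funext hPe
  obtain ⟨Λ, h1, h2, h3⟩ := hT α P q hd
  rw [← hN] at h1
  have hσ : Fintype.card σ = d + 1 := by simpa using (Fintype.card_congr e).symm
  refine ⟨κ • Λ, ⟨fun m f => ?_, fun ρ hρ f => ?_, fun τ hτ h0 hc => ?_⟩, fun μ hμ => ?_⟩
  · rw [LinearMap.smul_apply, h3 _ (fun k t => ?_) f, smul_zero]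
    have e1 : k + t • (fun a => v a ⬝ᵥ m) = k + fun a => v a ⬝ᵥ (t • m) := by
      funext a; simp
    rw [← hPe, ← hPe, e1, ← hP.tr k (t • m), amap_amap, ← sub_eq_zero, ← map_sub]
    refine hC α σ v K d e τ₀ q Φ (amap (fun a => ((a, 0) : X0 α σ)) -
      amap ((fun x : X0 α σ => (x.1, x.2 + t • m)) ∘ fun a => (a, 0))) cx hI hP
      (fun c => by simp [abd_amap]) (fun s => ?_) (fun τ _ j c hc => ?_) _
    · rw [LinearMap.sub_apply, amap_ax, amap_ax, sub_eq_zero]
      congr 1
      exact Subsingleton.elim _ _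
    · refine Submodule.sub_mem _ (amap_mem ?_ hc) (amap_mem ?_ hc) <;> exact fun a ha => ha
  · rw [LinearMap.smul_apply, smul_eq_mul]
    refine mul_eq_zero_of_right _ ?_
    induction f using MvPolynomial.induction_on' with
    | add f g hf hg => rw [mul_add, map_add, hf, hg, add_zero]
    | monomial s c =>
      have e1 : (∏ a ∈ ρ, MvPolynomial.X a) * MvPolynomial.monomial s c =
          c • ((ρ.val + Finsupp.toMultiset s).map (MvPolynomial.X (R := ℝ))).prod := by
        rw [Multiset.map_add, Multiset.prod_add, ← Top.mono_eq, ← mul_smul_comm,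
          MvPolynomial.smul_monomial, smul_eq_mul, mul_one]
        rfl
      rw [e1, map_smul, smul_eq_mul]
      refine mul_eq_zero_of_right _ ?_
      by_cases hc : (ρ.val + Finsupp.toMultiset s).card = q
      · rw [← h1 _ hc 0, Dm_NN]
        refine Finset.sum_eq_zero fun t _ => ?_
        split_ifs with ht
        · refine mul_eq_zero_of_right _ (Dm_zero hP t _ (fun h => hρ (cx.down _ ht _ ?_)) 0)
          refine (Finset.union_subset_union_left fun a ha => ?_).trans h
          simp [ha]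
        · exact zero_mul _
      · exact h2 _ hc
  · have hc' : (τ \ τ₀).val.card = q := by
      have := Finset.card_sdiff_add_card_eq_card h0
      change (τ \ τ₀).card = q
      omega
    rw [LinearMap.smul_apply, smul_eq_mul]
    change 0 < κ * Λ ((τ \ τ₀).val.map MvPolynomial.X).prod
    rw [← h1 _ hc' 0, Dm_NN, Finset.mul_sum]
    have key : ∀ t : Fin (d + 1) → α, Function.Injective t → Finset.univ.image t = τ →
        0 < κ * ((if Finset.univ.image t ∈ K then (SignType.sign (dt e v t) : ℝ) else 0) *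
          Dm (τ \ τ₀).val (fun k => Φ k (ax ℝ fun j => (t j, 0))) 0) := by
      rintro t ht rfl
      rw [if_pos hτ]
      exact mul_sign_pos (hκ t ht hτ h0 0)
    refine Finset.sum_pos' (fun t _ => ?_) ?_
    · by_cases ht : Function.Injective t
      · by_cases hs : τ ⊆ Finset.univ.image t
        · refine (key t ht (Finset.eq_of_subset_of_card_le hs ?_).symm).le
          exact Finset.card_image_le.trans (by simp [hc, hσ])
        · rw [Dm_zero hP t _ (by rwa [Finset.val_toFinset, Finset.sdiff_union_of_subset h0])]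
          simp
      · simp [dt_zero e ht]
    · let t : Fin (d + 1) → α := fun i => (τ.equivFinOfCardEq (hc.trans hσ)).symm i
      refine ⟨t, Finset.mem_univ _, key t
        (Subtype.val_injective.comp (Equiv.injective _)) ?_⟩
      ext a
      simp only [Finset.mem_image, Finset.mem_univ, true_and]
      exact ⟨fun ⟨i, e⟩ => e ▸ Subtype.prop _, fun ha =>
        ⟨τ.equivFinOfCardEq (hc.trans hσ) ⟨a, ha⟩, by simp [t]⟩⟩
  · rw [LinearMap.smul_apply, smul_eq_mul] at hμ
    have h := right_ne_zero_of_mul hμ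
    exact ⟨_, h, h1 μ (by_contra fun hc => h (h2 μ hc))⟩

end Pool.Agent.P.MP_9321be_ag.ND.E
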