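import Pool.Agent.P.MP_9321be_ag.ND.EIface

/-!
Tropical compactness.
-/

namespace Pool.Agent.P.MP_9321be_ag.ND.E

open Pool.Agent.Lib.Helper83 Set Complex Filter Topology

namespace TC

theorem sec {E ι : Type} [Fintype E] [Fintype ι] (f : (E → ℝ) →ₗ[ℝ] (ι → ℝ)) :
    ∃ M ≥ 0, ∀ y, ∃ z, f z = f y ∧ ‖z‖ ≤ M * ‖f y‖ := by
  obtain ⟨S, hS⟩ := f.rangeRestrict.exists_rightInverse_of_surjective f.range_rangeRestrict
  refine ⟨_, (LinearMap.toContinuousLinearMap S).opNorm_nonneg, fun y =>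
    ⟨S (f.rangeRestrict y), ?_, (LinearMap.toContinuousLinearMap S).le_opNorm _⟩⟩
  exact congrArg Subtype.val (LinearMap.congr_fun hS (f.rangeRestrict y))

end TC

theorem t_TC : S_TC := by
  classical
  intro ι E J _ _ _ v U p
  obtain ⟨a₀, ha₀⟩ : ∃ a₀, ∀ᶠ j in U, ∀ b, v a₀ ⬝ᵥ p j ≤ v b ⬝ᵥ p j :=
    Ultrafilter.eventually_exists_iff.1 (Eventually.of_forall fun j =>
      Finite.exists_min fun a => v a ⬝ᵥ p j)
  set F := Finset.univ.filter fun a => ∃ C, ∀ᶠ j in U, v a ⬝ᵥ p j ≤ v a₀ ⬝ᵥ p j + C with hF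
  have mem : ∀ a, a ∈ F ↔ ∃ C, ∀ᶠ j in U, v a ⬝ᵥ p j ≤ v a₀ ⬝ᵥ p j + C := fun a => by simp [hF]
  obtain ⟨M, M0, hM⟩ := TC.sec (LinearMap.pi fun a =>
    if a ∈ F then dotProductBilin ℝ ℝ (v a - v a₀) else 0)
  choose z hz hn using hM
  have hC : ∀ a, ∃ C, ∀ᶠ j in U, a ∈ F → v a ⬝ᵥ p j ≤ v a₀ ⬝ᵥ p j + C := fun a => by
    by_cases ha : a ∈ F
    · exact ((mem a).1 ha).imp fun C h => h.mono fun _ h _ => h
    · exact ⟨0, Eventually.of_forall fun _ h => (ha h).elim⟩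
  choose C hC using hC
  refine ⟨F, fun j => z (p j), M * ‖C‖, ⟨a₀, (mem a₀).2 ⟨0, by simp⟩⟩, ?_, fun a ha b hb => ?_⟩
  · filter_upwards [ha₀, eventually_all.2 hC] with j h1 h2
    have e : ∀ a ∈ F, v a ⬝ᵥ (p j - z (p j)) = v a₀ ⬝ᵥ (p j - z (p j)) := fun a ha => by
      have := congrFun (hz (p j)) a
      simp only [LinearMap.pi_apply, if_pos ha, dotProductBilin_apply_apply, sub_dotProduct] at this
      rw [dotProduct_sub, dotProduct_sub]
      linarith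
    refine ⟨(hn _).trans (mul_le_mul_of_nonneg_left
      ((pi_norm_le_iff_of_nonneg (norm_nonneg _)).2 fun a => ?_) M0),
      fun a ha a' ha' => (e a ha).trans (e a' ha').symm⟩
    by_cases ha : a ∈ F
    · simp only [LinearMap.pi_apply, if_pos ha, dotProductBilin_apply_apply, sub_dotProduct]
      rw [Real.norm_of_nonneg (sub_nonneg.2 (h1 a))]
      exact (sub_le_iff_le_add'.2 (h2 a ha)).trans ((le_abs_self _).trans (norm_le_pi_norm C a))
    · simp [ha]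
  · refine tendsto_atTop.2 fun R => ?_
    filter_upwards [hC a, Ultrafilter.eventually_not.2 fun h => hb ((mem b).2 ⟨R + C a, h⟩)]
      with j h1 h2
    linarith [h1 ha, not_le.1 h2]

end Pool.Agent.P.MP_9321be_ag.ND.E
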