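import Pool.Agent.P.MP_9321be_ag.ND.EIface

/-!
The mixed differences of the formal cocycle on a facet.
-/

namespace Pool.Agent.P.MP_9321be_ag.ND.E

open Pool.Agent.Lib.Helper83 Set

namespace Val

variable {α σ : Type} [Fintype α] [DecidableEq α] [Fintype σ] [DecidableEq σ]

/-! ### Differences -/

omit [Fintype α] in
theorem dm_cons (c : α) (μ : Multiset α) (F : (α → ℝ) → ℝ) :
    Dm (c ::ₘ μ) F = Dc c (Dm μ F) := Multiset.foldr_cons _ _ _ _

omit [Fintype α] in
theorem dm_add (μ : Multiset α) (F G : (α → ℝ) → ℝ) :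
    Dm μ (fun k => F k + G k) = fun k => Dm μ F k + Dm μ G k := by
  induction μ using Multiset.induction_on with
  | empty => rfl
  | cons c μ ih => funext k; simp only [dm_cons, ih, Dc]; ring

omit [Fintype α] in
theorem dm_mul (μ : Multiset α) (φ F : (α → ℝ) → ℝ)
    (h : ∀ c ∈ μ, ∀ k, φ (k + Pi.single c 1) = φ k) :
    Dm μ (fun k => φ k * F k) = fun k => φ k * Dm μ F k := by
  induction μ using Multiset.induction_on with
  | empty => rfl
  | cons c μ ih =>
    funext k
    rw [dm_cons, dm_cons, ih fun c hc => h c (Multiset.mem_cons_of_mem hc)]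
    simp only [Dc, h c (Multiset.mem_cons_self _ _)]
    ring

omit [Fintype α] in
theorem dm_zero (μ : Multiset α) : Dm μ (fun _ => (0 : ℝ)) = fun _ => 0 := by
  simpa using dm_mul μ (fun _ => 0) (fun _ => 0) fun _ _ _ => rfl

omit [Fintype α] in
theorem dm_sum {ι : Type} (s : Finset ι) (μ : Multiset α) (F : ι → (α → ℝ) → ℝ) :
    Dm μ (fun k => ∑ i ∈ s, F i k) = fun k => ∑ i ∈ s, Dm μ (F i) k := by
  classical
  induction s using Finset.induction_on with
  | empty => simpa using dm_zero μ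
  | insert a s ha ih => simp only [Finset.sum_insert ha, dm_add, ih]

omit [Fintype α] in
theorem dm_kill (μ : Multiset α) (F : (α → ℝ) → ℝ) {c : α} (hc : c ∈ μ)
    (h : ∀ k, F (k + Pi.single c 1) = F k) (k : α → ℝ) : Dm μ F k = 0 := by
  obtain ⟨μ, rfl⟩ := Multiset.exists_cons_of_mem hc
  have : ∀ k, Dm μ F (k + Pi.single c 1) = Dm μ F k := by
    clear hc
    induction μ using Multiset.induction_on with
    | empty => exact h
    | cons b μ ih => intro k; simp only [dm_cons, Dc]; rw [add_right_comm, ih, ih]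
  rw [dm_cons, Dc, this, sub_self]

/-! ### Alternating forms -/

theorem alt_zero {V : Type} [AddCommGroup V] [Module ℝ V] {p q : ℕ} (h : V [⋀^Fin q]→ₗ[ℝ] ℝ)
    (u : Fin q → V) (x : Fin p → V) (hs : ⊤ ≤ Submodule.span ℝ (range u ∪ range x))
    (h1 : h u = 0) (h2 : ∀ w i m, w i = x m → h w = 0) (w : Fin q → V) : h w = 0 := by
  let φ := Fintype.linearCombination ℝ (Sum.elim u x)
  have hφ : Function.Surjective φ := by
    rw [← LinearMap.range_eq_top, Fintype.range_linearCombination, Sum.elim_range, eq_top_iff]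
    exact hs
  have h3 : h.compLinearMap φ = 0 := by
    refine (Pi.basisFun ℝ _).ext_alternating fun j hj => ?_
    have h4 : ∀ a, φ (Pi.basisFun ℝ _ a) = Sum.elim u x a := fun a => by simp [φ]
    simp only [AlternatingMap.compLinearMap_apply, h4, AlternatingMap.zero_apply]
    by_cases hc : ∀ i, ∃ l, j i = Sum.inl l
    · choose s hs using hc
      have hs' : Function.Injective s := fun a b hab => hj (by rw [hs, hs, hab])
      have := h.map_perm u (Equiv.ofBijective s (Finite.injective_iff_bijective.1 hs'))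
      rw [h1, smul_zero] at this
      simpa [hs, Function.comp_def] using this
    · push Not at hc
      obtain ⟨i, hi⟩ := hc
      rcases hji : j i with l | m
      · exact absurd hji (hi l)
      · exact h2 _ i m (by simp [hji])
  choose w' hw' using fun i => hφ (w i)
  have := DFunLike.congr_fun h3 w'
  simpa [hw'] using this

/-- The determinant as a form of top degree. -/
noncomputable def tp {n : ℕ} (e : Fin n ≃ σ) : ExteriorAlgebra ℝ (σ → ℝ) →ₗ[ℝ] ℝ :=
  ExteriorAlgebra.liftAlternating (Function.update 0 n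
    (Matrix.detRowAlternating.compLinearMap (LinearMap.funLeft ℝ ℝ e)))

/-- The determinant of the reversed first tuple followed by the second. -/
noncomputable def WW {n p : ℕ} (e : Fin n ≃ σ) (q : ℕ) (x : Fin p → σ → ℝ) :
    (σ → ℝ) [⋀^Fin q]→ₗ[ℝ] ℝ :=
  (tp e ∘ₗ LinearMap.mulRight ℝ (ExteriorAlgebra.ιMulti ℝ p x) ∘ₗ
    CliffordAlgebra.reverse).compAlternatingMap (ExteriorAlgebra.ιMulti ℝ q)

omit [Fintype σ] [DecidableEq σ] in
theorem WW_apply {n p q : ℕ} (e : Fin n ≃ σ) (x : Fin p → σ → ℝ) (w : Fin q → σ → ℝ) :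
    WW e q x w = tp e (CliffordAlgebra.reverse (ExteriorAlgebra.ιMulti ℝ q w) *
      ExteriorAlgebra.ιMulti ℝ p x) := rfl

omit [Fintype σ] [DecidableEq σ] in
theorem WW_zero {n : ℕ} (e : Fin n ≃ σ) (x : Fin n → σ → ℝ) (w : Fin 0 → σ → ℝ) :
    WW e 0 x w = (Matrix.of fun i j => x i (e j)).det := by
  rw [WW_apply, ExteriorAlgebra.ιMulti_zero_apply, CliffordAlgebra.reverse.map_one, one_mul, tp,
    ExteriorAlgebra.liftAlternating_apply_ιMulti, Function.update_self]
  rfl

omit [Fintype σ] [DecidableEq σ] in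
theorem WW_succ {n p q : ℕ} (e : Fin n ≃ σ) (x : Fin p → σ → ℝ) (w : Fin (q + 1) → σ → ℝ)
    (i : Fin (q + 1)) :
    WW e (q + 1) x w = (-1) ^ (i : ℕ) * WW e q (Fin.cons (w i) x : Fin (p + 1) → σ → ℝ)
      (w ∘ i.succAbove) := by
  conv_lhs => rw [← i.insertNth_self_removeNth w, AlternatingMap.map_insertNth]
  rw [WW_apply, WW_apply, ExteriorAlgebra.ιMulti_succ_apply, ExteriorAlgebra.ιMulti_succ_apply,
    CliffordAlgebra.reverse.map_mul, ExteriorAlgebra.ι, CliffordAlgebra.reverse_ι, mul_assoc]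
  simp only [zsmul_eq_mul, Int.cast_pow, Int.cast_neg, Int.cast_one]
  rfl

omit [Fintype σ] [DecidableEq σ] in
theorem WW_noninj {n p q : ℕ} (e : Fin n ≃ σ) {x : Fin p → σ → ℝ} (hx : ¬ Function.Injective x)
    (w : Fin q → σ → ℝ) : WW e q x w = 0 := by
  rw [WW_apply, AlternatingMap.map_eq_zero_of_not_injective _ x hx, mul_zero, map_zero]

omit [Fintype σ] [DecidableEq σ] in
theorem WW_kill {n p q : ℕ} (e : Fin n ≃ σ) (x : Fin p → σ → ℝ) (w : Fin q → σ → ℝ) (i : Fin q)
    (m : Fin p) (h : w i = x m) : WW e q x w = 0 := by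
  obtain _ | q := q
  · exact i.elim0
  rw [WW_succ e x w i, WW_noninj, mul_zero]
  intro hi
  exact (Fin.succ_ne_zero m).symm (hi (by simpa using h))

omit [DecidableEq σ] in
theorem WW_ne {n : ℕ} (e : Fin n ≃ σ) : ∀ (q p : ℕ) (x : Fin p → σ → ℝ) (w : Fin q → σ → ℝ),
    p + q = n → ⊤ ≤ Submodule.span ℝ (range w ∪ range x) → WW e q x w ≠ 0 := by
  intro q
  induction q with
  | zero =>
    intro p x w hn hs
    obtain rfl : p = n := hn
    rw [range_eq_empty, empty_union] at hs
    have h1 : LinearIndependent ℝ x := linearIndependent_of_top_le_span_of_card_eq_finrank hs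
      (by simp [Fintype.card_congr e])
    have h2 := h1.map' (LinearEquiv.funCongrLeft ℝ ℝ e).toLinearMap (LinearEquiv.ker _)
    rw [WW_zero]
    exact ((Matrix.isUnit_iff_isUnit_det _).1
      (Matrix.linearIndependent_rows_iff_isUnit.1 h2)).ne_zero
  | succ q ih =>
    intro p x w hn hs
    rw [WW_succ e x w 0]
    refine mul_ne_zero (by simp) (ih _ _ _ (by omega) (hs.trans (Submodule.span_mono ?_)))
    rintro _ (⟨i, rfl⟩ | ⟨i, rfl⟩)
    · refine Fin.cases (Or.inr ⟨0, rfl⟩) (fun i => Or.inl ⟨i, rfl⟩) i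
    · exact Or.inr ⟨i.succ, rfl⟩

/-! ### Volumes -/

omit [DecidableEq σ] in
theorem Vd_ax {q : ℕ} (w : Fin q → σ → ℝ) (z : Fin (q + 1) → σ → ℝ) :
    Vd w (ax ℝ z) = (Matrix.of fun i j : Fin (q + 1) =>
      (Fin.cons 1 (fun i => w i ⬝ᵥ z j) : Fin (q + 1) → ℝ) i).det := by
  simp [Vd, ax]

omit [DecidableEq σ] in
theorem Vd_cone {q : ℕ} (w : Fin (q + 1) → σ → ℝ) (i : Fin (q + 1)) (κ : ℝ) (x : σ → ℝ)
    {c : LC ℝ (σ → ℝ)} (hc : c ∈ lsub ℝ {z | w i ⬝ᵥ z = κ} (q + 1)) :
    Vd w (cone x c) = (-1) ^ ((i : ℕ) + 1) * (w i ⬝ᵥ x - κ) * Vd (w ∘ i.succAbove) c := by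
  refine lsub_eq (Vd w ∘ₗ cone x)
    (((-1) ^ ((i : ℕ) + 1) * (w i ⬝ᵥ x - κ)) • Vd (w ∘ i.succAbove)) (fun z hz => ?_) hc
  simp only [LinearMap.comp_apply, cone_ax, LinearMap.smul_apply, smul_eq_mul, Vd_ax]
  rw [← Matrix.det_updateRow_add_smul_self _ (Fin.succ_ne_zero i) (-κ),
    Matrix.det_succ_row _ i.succ, Fin.sum_univ_succ, Finset.sum_eq_zero, add_zero]
  · congr 1
    · simp [sub_eq_add_neg]
    · congr 1
      ext a b
      refine Fin.cases ?_ (fun a => ?_) a
      · simp [Matrix.updateRow_apply, (Fin.succ_ne_zero i).symm]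
      · simp [Matrix.updateRow_apply]
  · intro j _
    have : w i ⬝ᵥ z j = κ := hz j
    simp [this]

omit [DecidableEq σ] in
theorem Vd_change {n p q : ℕ} (e : Fin n ≃ σ) (x : Fin p → σ → ℝ) (κ : Fin p → ℝ)
    (u w : Fin q → σ → ℝ) (hs : ⊤ ≤ Submodule.span ℝ (range u ∪ range x))
    {c : LC ℝ (σ → ℝ)} (hc : c ∈ lsub ℝ {z | ∀ m, x m ⬝ᵥ z = κ m} (q + 1)) :
    WW e q x w * Vd u c = WW e q x u * Vd w c := by
  refine lsub_eq (WW e q x w • Vd u) (WW e q x u • Vd w) (fun z hz => ?_) hc
  let f : (σ → ℝ) [⋀^Fin q]→ₗ[ℝ] ℝ := (Matrix.detRowAlternating.curryLeft fun _ => 1).compLinearMap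
    (LinearMap.pi fun j : Fin (q + 1) => (dotProductBilin ℝ ℝ).flip (z j))
  have hf : ∀ w, Vd w (ax ℝ z) = f w := fun w => by
    rw [Vd_ax]
    refine congrArg Matrix.det ?_
    ext a b
    refine Fin.cases rfl (fun a => rfl) a
  have := alt_zero (f u • WW e q x - WW e q x u • f) u x hs (by simp [mul_comm])
    (fun w i m h => by
      have h1 : f w = 0 := by
        rw [← hf, Vd_ax, ← Matrix.det_updateRow_add_smul_self _ (Fin.succ_ne_zero i) (-κ m)]
        refine Matrix.det_eq_zero_of_row_eq_zero i.succ fun j => ?_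
        have : x m ⬝ᵥ z j = κ m := hz j m
        simp [h, this]
      simp [h1, WW_kill e x w i m h]) w
  simp only [LinearMap.smul_apply, smul_eq_mul, hf]
  simp only [AlternatingMap.sub_apply, AlternatingMap.smul_apply, smul_eq_mul] at this
  linarith

theorem lsub_empty {E : Type} {S : Set E} (hS : ∀ x, x ∉ S) {m : ℕ} {c : LC ℝ E}
    (hc : c ∈ lsub ℝ S (m + 1)) : c = 0 :=
  lsub_eq LinearMap.id 0 (fun _ hz => absurd (hz 0) (hS _)) hc

/-! ### The recursion -/

omit [Fintype σ] [DecidableEq σ] in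
theorem GG_succ (q p : ℕ) (r : Fin p → α) {m : ℕ} (y : Fin (m + 1) → X0 α σ) :
    GG (q + 1) p r (ax ℝ y) =
      cone (Finset.univ.image r, (y 0).2) (RH0 q (GG q) p r (ax ℝ y)) := by
  simp [GG, cn, ax]

variable {v : α → σ → ℝ} {K : Set (Finset α)} {sec : Finset α → (α → ℝ) →ₗ[ℝ] (σ → ℝ)}

omit [Fintype α] [DecidableEq α] [DecidableEq σ] in
theorem evk_congr (hsec : Sec v K sec) {k k' : α → ℝ} {s : Sy α σ} (h : ∀ a ∈ s.1, k a = k' a) :
    evk v sec k s = evk v sec k' s := by
  have := hsec.2 s.1 (k - k') fun a ha => by simp [h a ha]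
  simp only [evk, map_sub] at this ⊢
  rw [sub_eq_zero.1 this]

omit [Fintype α] [DecidableEq α] [DecidableEq σ] in
theorem evk_dot (hsec : Sec v K sec) (k : α → ℝ) {s : Sy α σ} (hs : s.1 ∈ K) {a : α}
    (ha : a ∈ s.1) : v a ⬝ᵥ evk v sec k s = k a := by
  rw [evk, dotProduct_add, hsec.1 _ hs a ha]; simp

theorem core (hG : S_G) (hK : ∀ τ ∈ K, ∀ ρ ⊆ τ, ρ ∈ K) (hsec : Sec v K sec) {n : ℕ}
    (e : Fin (n + 1) ≃ σ) (t : Fin (n + 1) → α) (ht : Function.Injective t)
    (hτ : Finset.univ.image t ∈ K) : ∀ (q p : ℕ) (r : Fin p → α) (u : Fin q → α),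
    p + q = n + 1 → Function.Injective u → (∀ i, u i ∉ range r) →
    (∀ a, a ∈ range t ↔ a ∈ range r ∨ a ∈ range u) → ∀ k,
    dt e v t * Dm (Finset.univ.val.map u)
      (fun k => Ph v sec r (v ∘ u) k (ax ℝ fun j => (t j, 0))) k =
      q.factorial * WW e q (v ∘ r) (v ∘ u) := by
  intro q
  induction q with
  | zero =>
    intro p r u hn _ _ hc k
    obtain rfl : p = n + 1 := hn
    have h1 : ∀ k, Ph v sec r (v ∘ u) k (ax ℝ fun j => (t j, 0)) =
        (Matrix.of fun i j => if r i = t j then (1 : ℝ) else 0).det := fun k => by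
      simp only [Ph, LinearMap.comp_apply, GG_succ]
      have : sg r (ax ℝ fun j => ((t j, 0) : X0 α σ)) =
        (Matrix.of fun i j => if r i = t j then (1 : ℝ) else 0).det := by simp [sg, ax]
      simp [RH0, GG, Vd_ax, this]
    simp only [h1, WW_zero, Nat.factorial_zero, Nat.cast_one, one_mul]
    rw [show Finset.univ.val.map u = 0 by simp]
    change _ * Matrix.det _ = _
    rw [dt, mul_comm, ← Matrix.det_mul]
    congr 1
    ext i j
    obtain ⟨l, hl⟩ := (hc (r i)).2 (Or.inl ⟨i, rfl⟩)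
    simp [Matrix.mul_apply, ← hl, ht.eq_iff]
  | succ q ih =>
    intro p r u hn hu hur hc k
    let y : Fin (n + 1) → X0 α σ := fun j => (t j, 0)
    let o : Sy α σ := (Finset.univ.image r, 0)
    let T : LC ℝ (Sy α σ) → (α → ℝ) → ℝ := fun c k => Vd (v ∘ u) (amap (evk v sec k) (cone o c))
    let S : α → LC ℝ (Sy α σ) := fun b => GG (q + 1) (p + 1) (Fin.cons b r) (ax ℝ y)
    have hS : ∀ b, S b ∈ lsub ℝ {s : Sy α σ | Finset.univ.image (Fin.cons b r : Fin (p + 1) → α)
        ⊆ s.1 ∧ s.1 ⊆ Finset.univ.image t} (q + 1) := fun b =>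
      (hG α σ (q + 1) (p + 1) (Fin.cons b r)).2.2.1 _ _ _
        (ax_mem fun j => Finset.mem_image_of_mem t (Finset.mem_univ j))
    have hb : ∀ b (s : Finset α), Finset.univ.image (Fin.cons b r : Fin (p + 1) → α) ⊆ s →
        b ∈ s := fun b s hs => hs (Finset.mem_image.2 ⟨0, Finset.mem_univ _, rfl⟩)
    have hS0 : ∀ b ∉ range u, S b = 0 := fun b hbu => by
      by_cases hbr : b ∈ range r
      · obtain ⟨m, rfl⟩ := hbr
        exact (hG α σ (q + 1) (p + 1) (Fin.cons (r m) r)).2.1
          (fun hi => (Fin.succ_ne_zero m).symm (hi (by simp))) _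
      · refine lsub_empty (fun s hs => ?_) (hS b)
        have := hs.2 (hb b _ hs.1)
        rw [Finset.mem_image] at this
        obtain ⟨j, -, hj⟩ := this
        exact ((hc b).1 ⟨j, hj⟩).elim hbr hbu
    have h1 : (fun k => Ph v sec r (v ∘ u) k (ax ℝ y)) = fun k =>
        (∑ j : Fin (n + 1), ((-1) ^ (q + 1) * (-1) ^ (j : ℕ)) *
          T (GG (q + 1) p r (ax ℝ (y ∘ j.succAbove))) k) + ∑ i, T (S (u i)) k := by
      funext k
      rw [Fintype.sum_of_injective u hu (fun i => T (S (u i)) k) (fun b => T (S b) k)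
        (fun b hbu => by simp [T, hS0 b hbu]) fun _ => rfl]
      simp only [Ph, LinearMap.comp_apply]
      rw [GG_succ]
      simp [RH0, abd_succ, T, S, o, y, Finset.mul_sum, mul_assoc]
    have hface : ∀ j : Fin (n + 1), Dm (Finset.univ.val.map u)
        (T (GG (q + 1) p r (ax ℝ (y ∘ j.succAbove)))) k = 0 := fun j => by
      have h2 := (hG α σ (q + 1) p r).2.2.1 ((Finset.univ.image t).erase (t j)) n
        (ax ℝ (y ∘ j.succAbove)) (ax_mem fun l => Finset.mem_erase.2
          ⟨ht.ne (Fin.succAbove_ne j l), Finset.mem_image_of_mem t (Finset.mem_univ _)⟩)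
      rcases (hc (t j)).1 ⟨j, rfl⟩ with ⟨m, hm⟩ | ⟨i, hi⟩
      · rw [lsub_empty (fun s hs => ?_) h2]
        · simpa [T] using congrFun (dm_zero (Finset.univ.val.map u)) k
        · exact (Finset.mem_erase.1 (hs.2 (hs.1
            (Finset.mem_image_of_mem r (Finset.mem_univ m))))).1 hm
      · refine dm_kill _ _ (c := u i) (Multiset.mem_map_of_mem u (Finset.mem_univ i))
          (fun k => ?_) k
        have h3 : cone o (GG (q + 1) p r (ax ℝ (y ∘ j.succAbove))) ∈
            lsub ℝ {s : Sy α σ | u i ∉ s.1} (q + 2) :=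
          cone_mem (by simpa [o] using hur i)
            (lsub_mono (by intro s hs h; exact (Finset.mem_erase.1 (hs.2 h)).1 hi) h2)
        refine congrArg (Vd (v ∘ u)) (lsub_eq _ _ (fun z hz => ?_) h3)
        rw [amap_ax, amap_ax]
        congr 1
        funext l
        refine evk_congr hsec fun a ha => ?_
        have : a ≠ u i := fun h => hz l (h ▸ ha)
        simp [this]
    have hi : ∀ i, dt e v t * Dm (Finset.univ.val.map u) (T (S (u i))) k =
        q.factorial * WW e (q + 1) (v ∘ r) (v ∘ u) := fun i => by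
      let φ : (α → ℝ) → ℝ := fun k => (-1) ^ ((i : ℕ) + 1) * (v (u i) ⬝ᵥ evk v sec k o - k (u i))
      have ho : ∀ l k, evk v sec (k + Pi.single (u l) 1) o = evk v sec k o := fun l k =>
        evk_congr hsec fun a ha => by
          have : a ≠ u l := fun h => hur l (by simpa [o, h] using ha)
          simp [this]
      have h2 : T (S (u i)) = fun k => φ k * Ph v sec (Fin.cons (u i) r : Fin (p + 1) → α)
          (v ∘ (u ∘ i.succAbove)) k (ax ℝ y) := by
        funext k
        simp only [T, amap_cone]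
        refine Vd_cone (v ∘ u) i (k (u i)) _ (amap_mem ?_ (hS (u i)))
        intro s hs
        exact evk_dot hsec k (hK _ hτ _ hs.2) (hb _ _ hs.1)
      have h3 : Finset.univ.val.map u = u i ::ₘ Finset.univ.val.map (u ∘ i.succAbove) := by
        rw [Fin.univ_succAbove q i, Finset.cons_val, Multiset.map_cons, Finset.map_val,
          Multiset.map_map]
        rfl
      have h4 := ih (p + 1) (Fin.cons (u i) r) (u ∘ i.succAbove) (by omega)
        (hu.comp Fin.succAbove_right_injective) (fun l => by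
          rw [Fin.range_cons]
          rintro (h | h)
          · exact Fin.succAbove_ne i l (hu h)
          · exact hur _ h) (fun a => by
          rw [hc a, Fin.range_cons, mem_insert_iff]
          constructor
          · rintro (h | ⟨l, rfl⟩)
            · exact Or.inl (Or.inr h)
            · by_cases hl : l = i
              · exact Or.inl (Or.inl (by rw [hl]))
              · obtain ⟨m, rfl⟩ := Fin.exists_succAbove_eq hl
                exact Or.inr ⟨m, rfl⟩
          · rintro ((rfl | h) | ⟨l, rfl⟩)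
            · exact Or.inr ⟨i, rfl⟩
            · exact Or.inl h
            · exact Or.inr ⟨_, rfl⟩)
      rw [h2, h3, dm_cons, dm_mul _ _ _ (fun c hc k => by
        obtain ⟨l, -, rfl⟩ := Multiset.mem_map.1 hc
        have : u i ≠ u (i.succAbove l) := hu.ne (Fin.succAbove_ne i l).symm
        simp [φ, ho, this]), Dc, mul_sub, mul_left_comm, mul_left_comm _ (φ k), h4, h4,
        WW_succ e _ _ i, Fin.comp_cons]
      simp only [φ, ho, Pi.add_apply, Pi.single_eq_same, Function.comp_assoc, Function.comp_apply]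
      ring
    change dt e v t * Dm _ (fun k => Ph v sec r (v ∘ u) k (ax ℝ y)) k = _
    rw [h1, dm_add, dm_sum, dm_sum]
    simp only [dm_mul _ (fun _ => _) _ fun _ _ _ => rfl, hface, mul_zero, Finset.sum_const_zero,
      zero_add, Finset.mul_sum, hi, Finset.sum_const, Finset.card_univ, Fintype.card_fin,
      nsmul_eq_mul, Nat.factorial_succ]
    push_cast
    ring

end Val

open Val in
theorem t_Val : S_G → S_Val := by
  intro hG α σ _ _ _ _ v K sec p q n e r u hK hind hsec hp hn hs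
  obtain ⟨n, rfl⟩ : ∃ m, n = m + 1 := ⟨n - 1, by omega⟩
  have hW := WW_ne e q p (v ∘ r) u hn hs
  have hr : Function.Injective r := by
    by_contra h
    exact hW (WW_noninj e (fun h' => h h'.of_comp) u)
  refine ⟨WW e q (v ∘ r) u, fun t ht hτ h0 k => ?_⟩
  have hcard : (Finset.univ.image t \ Finset.univ.image r).card = q := by
    rw [Finset.card_sdiff_of_subset h0, Finset.card_image_of_injective _ ht,
      Finset.card_image_of_injective _ hr]
    simp; omega
  let u' : Fin q → α := fun i => ((Finset.equivFinOfCardEq hcard).symm i).1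
  have hu' : Function.Injective u' :=
    Subtype.val_injective.comp (Finset.equivFinOfCardEq hcard).symm.injective
  have hm : ∀ a, a ∈ range u' ↔ a ∈ range t ∧ a ∉ range r := fun a => by
    constructor
    · rintro ⟨i, rfl⟩
      have := Finset.mem_sdiff.1 ((Finset.equivFinOfCardEq hcard).symm i).2
      simpa [u'] using this
    · intro h
      exact ⟨Finset.equivFinOfCardEq hcard ⟨a, by simpa using h⟩, by simp [u']⟩
  have hc : ∀ a, a ∈ range t ↔ a ∈ range r ∨ a ∈ range u' := fun a => by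
    have : a ∈ range r → a ∈ range t := fun h => by simpa using @h0 a (by simpa using h)
    rw [hm]
    tauto
  have hμ : (Finset.univ.image t \ Finset.univ.image r).val = Finset.univ.val.map u' := by
    have : Finset.univ.image t \ Finset.univ.image r = Finset.univ.map ⟨u', hu'⟩ := by
      ext a
      simpa using (hm a).symm
    rw [this, Finset.map_val]
    rfl
  have h1 := core hG hK hsec e t ht hτ q p r u' hn hu' (fun i => ((hm _).1 ⟨i, rfl⟩).2) hc k
  have hW' : WW e q (v ∘ r) (v ∘ u') ≠ 0 := by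
    refine WW_ne e q p _ _ hn ?_
    have h2 : LinearIndependent ℝ (v ∘ t) := (hind _ hτ).comp
      (fun j => ⟨t j, Finset.mem_image_of_mem t (Finset.mem_univ j)⟩)
      fun a b h => ht (congrArg Subtype.val h)
    rw [← h2.span_eq_top_of_card_eq_finrank' (by simp [Fintype.card_congr e])]
    refine Submodule.span_mono ?_
    rintro _ ⟨j, rfl⟩
    rcases (hc (t j)).1 ⟨j, rfl⟩ with ⟨m, hm⟩ | ⟨m, hm⟩
    · exact Or.inr ⟨m, congrArg v hm⟩
    · exact Or.inl ⟨m, congrArg v hm⟩
  have h2 : (fun k => WW e q (v ∘ r) (v ∘ u') * Ph v sec r u k (ax ℝ fun j => (t j, 0))) =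
      fun k => WW e q (v ∘ r) u * Ph v sec r (v ∘ u') k (ax ℝ fun j => (t j, 0)) := by
    funext k
    refine Vd_change e (v ∘ r) (k ∘ r) u (v ∘ u') hs (amap_mem ?_
      ((hG α σ (q + 1) p r).2.2.1 _ _ _
        (ax_mem fun j => Finset.mem_image_of_mem t (Finset.mem_univ j))))
    intro s hs m
    exact evk_dot hsec k (hK _ hτ _ hs.2) (hs.1 (Finset.mem_image_of_mem r (Finset.mem_univ m)))
  have h3 := congrArg (fun F => Dm (Finset.univ.val.map u') F k) h2
  simp only [dm_mul _ (fun _ => _) _ fun _ _ _ => rfl] at h3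
  rw [hμ, mul_assoc]
  have h4 : dt e v t * Dm (Finset.univ.val.map u')
      (fun k => Ph v sec r u k (ax ℝ fun j => (t j, 0))) k = q.factorial * WW e q (v ∘ r) u := by
    apply mul_left_cancel₀ hW'
    rw [mul_left_comm, h3, mul_left_comm, h1]
    ring
  rw [h4, mul_left_comm]
  exact mul_pos (by exact_mod_cast q.factorial_pos) (mul_self_pos.2 hW)

end Pool.Agent.P.MP_9321be_ag.ND.E
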