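import Pool.Agent.P.MP_9321be_ag.ND.EIface

/-!
The boundary of the fundamental chain.
-/

namespace Pool.Agent.P.MP_9321be_ag.ND.E

open Pool.Agent.Lib.Helper83 Set

set_option linter.unusedSectionVars false

namespace Zc

variable {α σ : Type} [Fintype α] [DecidableEq α] [Fintype σ] [DecidableEq σ] {v : α → σ → ℝ}
  {K : Set (Finset α)} {d : ℕ}

/-- The vector of cofactors. -/
noncomputable def del (e : Fin (d + 1) ≃ σ) (v : α → σ → ℝ) (t : Fin d → α) (s : σ) : ℝ :=
  (-1) ^ (e.symm s : ℕ) * (Matrix.of fun k l => v (t k) (e ((e.symm s).succAbove l))).det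

theorem dt_ins (e : Fin (d + 1) ≃ σ) (i : Fin (d + 1)) (b : α) (t : Fin d → α) :
    dt e v (i.insertNth b t) = (-1) ^ (i : ℕ) * (v b ⬝ᵥ del e v t) := by
  rw [dt, Matrix.det_succ_row _ i, dotProduct, ← e.sum_comp, Finset.mul_sum]
  refine Finset.sum_congr rfl fun j _ => ?_
  have : (Matrix.of fun k j => v ((i.insertNth b t : Fin (d + 1) → α) k) (e j)).submatrix
      i.succAbove j.succAbove = Matrix.of fun k l => v (t k) (e (j.succAbove l)) := by
    ext k l
    simp
  rw [this, del, e.symm_apply_apply, pow_add]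
  simp only [Matrix.of_apply, Fin.insertNth_apply_same]
  ring

theorem image_ins (i : Fin (d + 1)) (b : α) (t : Fin d → α) :
    Finset.univ.image (i.insertNth b t : Fin (d + 1) → α) = insert b (Finset.univ.image t) := by
  ext a
  simp only [Finset.mem_image, Finset.mem_univ, true_and, Finset.mem_insert]
  rw [Fin.exists_iff_succAbove i]
  simp [eq_comm]

theorem del_perp (e : Fin (d + 1) ≃ σ) (t : Fin d → α) (k : Fin d) : v (t k) ⬝ᵥ del e v t = 0 := by
  have := dt_ins (v := v) e 0 (t k) t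
  rw [dt, Matrix.det_zero_of_row_eq (Fin.succ_ne_zero k).symm (by ext j; simp)] at this
  simpa using this.symm

theorem side (h : Cx v K) {ρ : Finset α} (h1 : ρ ∈ K) (h2 : Intr v ρ)
    (h3 : ρ.card + 1 = Fintype.card σ) {y : σ → ℝ} (h4 : y ≠ 0) (h5 : ∀ a ∈ ρ, v a ⬝ᵥ y = 0) :
    ∃ b₀, ∀ b, (insert b ρ ∈ K ∧ 0 < v b ⬝ᵥ y) ↔ b = b₀ := by
  obtain ⟨τ, g1, g2, t, g3, g4, g5⟩ := h.cl ρ h1 h2 y
  have e : 0 < ∑ a, t a * (v a ⬝ᵥ y) := by
    have := (dotProduct_self_eq_zero.not.2 h4)
    refine (lt_of_le_of_ne (Finset.sum_nonneg fun i _ => mul_self_nonneg (y i))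
      (Ne.symm this)).trans_eq ?_
    change y ⬝ᵥ y = _
    conv_lhs => enter [1]; rw [g5]
    simp only [sum_dotProduct, smul_dotProduct, smul_eq_mul]
  obtain ⟨a, -, ha⟩ := Finset.exists_lt_of_sum_lt (f := fun _ => (0 : ℝ)) (by simpa using e)
  have a1 : a ∉ ρ := fun h => by simp [h5 a h] at ha
  have a2 : a ∈ τ := not_not.1 fun h => by simp [g4 a h] at ha
  have a3 : 0 < v a ⬝ᵥ y := pos_of_mul_pos_right ha (g3 a a1)
  have a4 := h.down τ g1 _ (Finset.insert_subset a2 g2)
  exact ⟨a, fun b => ⟨fun hb => h.uniq ρ b a y hb.1 a4 h3 h5 hb.2 a3, fun e => e ▸ ⟨a4, a3⟩⟩⟩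

open Classical in
theorem sum_zero (h : Cx v K) (e : Fin (d + 1) ≃ σ) (t : Fin d → α)
    (ht : ¬ (Finset.univ.image t ∈ K ∧ ¬ Intr v (Finset.univ.image t))) :
    ∑ b, (if insert b (Finset.univ.image t) ∈ K then (SignType.sign (v b ⬝ᵥ del e v t) : ℝ)
      else 0) = 0 := by
  by_cases h1 : Finset.univ.image t ∈ K
  swap
  · exact Finset.sum_eq_zero fun b _ => if_neg fun h2 => h1 (h.down _ h2 _ (Finset.subset_insert _ _))
  by_cases h4 : del e v t = 0
  · simp [h4]
  have h2 : Intr v (Finset.univ.image t) := not_not.1 fun h => ht ⟨h1, h⟩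
  have h3 : (Finset.univ.image t).card + 1 = Fintype.card σ := by
    rw [Finset.card_image_of_injective _ fun k l hkl => not_not.1 fun h => h4 (funext fun s => by
      rw [del, Matrix.det_zero_of_row_eq h (by ext j; simp [hkl]), mul_zero]; rfl),
      ← Fintype.card_congr e]
    simp
  have h5 : ∀ a ∈ Finset.univ.image t, v a ⬝ᵥ del e v t = 0 := fun a ha => by
    obtain ⟨k, -, rfl⟩ := Finset.mem_image.1 ha
    exact del_perp e t k
  obtain ⟨b₁, g1⟩ := side h h1 h2 h3 h4 h5
  obtain ⟨b₂, g2⟩ := side h h1 h2 h3 (neg_ne_zero.2 h4) fun a ha => by simp [h5 a ha]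
  have : ∀ b, (if insert b (Finset.univ.image t) ∈ K then (SignType.sign (v b ⬝ᵥ del e v t) : ℝ)
      else 0) = (if b = b₁ then 1 else 0) - if b = b₂ then 1 else 0 := fun b => by
    simp only [← g1, ← g2, dotProduct_neg, neg_pos]
    by_cases h6 : insert b (Finset.univ.image t) ∈ K
    · rcases lt_trichotomy 0 (v b ⬝ᵥ del e v t) with h7 | h7 | h7
      · simp [h6, h7, h7.not_gt]
      · simp [← h7]
      · simp [h6, h7, h7.not_gt]
    · simp [h6]
  simp [this]

end Zc

open Zc in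
theorem t_Zc : S_Zc := by
  classical
  intro α σ _ _ _ _ v K d e h
  have e1 : abd (zc e v K) = ∑ _i : Fin (d + 1), ∑ t : Fin d → α,
      (∑ b, (if insert b (Finset.univ.image t) ∈ K then (SignType.sign (v b ⬝ᵥ del e v t) : ℝ)
        else 0)) • ax ℝ t := by
    simp only [zc, map_sum, map_smul, abd_succ, Finset.smul_sum]
    rw [Finset.sum_comm]
    refine Finset.sum_congr rfl fun i _ => ?_
    rw [← (Fin.insertNthEquiv (fun _ => α) i).sum_comp, Fintype.sum_prod_type, Finset.sum_comm]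
    refine Finset.sum_congr rfl fun t _ => ?_
    rw [Finset.sum_smul]
    refine Finset.sum_congr rfl fun b _ => ?_
    have : (i.insertNth b t : Fin (d + 1) → α) ∘ i.succAbove = t := by
      funext k; simp
    rw [show Fin.insertNthEquiv (fun _ => α) i (b, t) = i.insertNth b t from rfl, image_ins,
      dt_ins, smul_smul, this]
    congr 1
    split_ifs
    · rcases neg_one_pow_eq_or ℝ (i : ℕ) with h | h <;> simp [h, Left.sign_neg]
    · simp
  rw [e1]
  refine Submodule.sum_mem _ fun _ _ => Submodule.sum_mem _ fun t _ => ?_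
  by_cases ht : Finset.univ.image t ∈ K ∧ ¬ Intr v (Finset.univ.image t)
  · exact Submodule.smul_mem _ _ (Finsupp.single_mem_supported _ _ ⟨rfl, ht⟩)
  · rw [sum_zero h e t ht, zero_smul]
    exact Submodule.zero_mem _

end Pool.Agent.P.MP_9321be_ag.ND.E
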