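import Pool.Agent.P.MP_9321be_ag.ND.ZBasic

/-!
Boxes are cut into pinned boxes.
-/

namespace Pool.Agent.P.MP_9321be_ag.ND

open MvPolynomial

namespace Box

variable {σ : Type} [Fintype σ] [DecidableEq σ]

theorem split_lo {lo : σ → ℚ} {hi : σ → WithTop ℚ} {j : σ} {c : ℚ} (hc : lo j ≤ c) (l : ℕ)
    (x : σ → TR (2 * l)) :
    inBox (Function.update lo j c) hi l x ↔ inBox lo hi l x ∧ tt (2 * l) ^ th c l ∣ x j := by
  constructor
  · intro h
    have hj : tt (2 * l) ^ th c l ∣ x j := by simpa using (h j).1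
    refine ⟨fun i => ⟨?_, (h i).2⟩, hj⟩
    by_cases hi : i = j
    · subst hi
      exact (pow_dvd_pow _ (th_mono hc l)).trans hj
    · simpa [Function.update_of_ne hi] using (h i).1
  · rintro ⟨h, hj⟩ i
    refine ⟨?_, (h i).2⟩
    by_cases hi : i = j
    · subst hi; simpa using hj
    · simpa [Function.update_of_ne hi] using (h i).1

theorem split_hi {lo : σ → ℚ} {hi : σ → WithTop ℚ} {j : σ} (c : ℚ) (hj : hi j = ⊤) (l : ℕ)
    (x : σ → TR (2 * l)) :
    inBox lo (Function.update hi j c) l x ↔ inBox lo hi l x ∧ ¬ tt (2 * l) ^ th c l ∣ x j := by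
  constructor
  · intro h
    refine ⟨fun i => ⟨(h i).1, fun γ hγ => ?_⟩, (h j).2 c (by simp)⟩
    by_cases hij : i = j
    · subst hij; simp [hj] at hγ
    · exact (h i).2 γ (by rwa [Function.update_of_ne hij])
  · rintro ⟨h, hx⟩ i
    refine ⟨(h i).1, fun γ hγ => ?_⟩
    by_cases hij : i = j
    · subst hij
      rw [Function.update_self, WithTop.coe_inj] at hγ
      exact hγ ▸ hx
    · exact (h i).2 γ (by rwa [Function.update_of_ne hij] at hγ)

theorem gen {f : MvPolynomial σ ℂ} {α : ℚ} {Γ : Option σ → Set ℚ} (hΓ : Dns Γ)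
    {W : ∀ l : ℕ, (σ → TR (2 * l)) → Prop} (hW : CW W) (D : Set (σ → ℝ) → Prop)
    (hD : ∀ A B, A ⊆ B → D B → D A)
    (hpin : ∀ lo hi, BoxOK Γ lo hi → (∀ j, hi j = ⊤ → 1 < lo j) → D (clBox lo hi) →
      Good α (Zs f fun l x => inBox lo hi l x ∧ W l x)) (n : ℕ) :
    ∀ (lo : σ → ℚ) (hi : σ → WithTop ℚ),
      (Finset.univ.filter fun j => hi j = ⊤ ∧ lo j ≤ 1).card ≤ n → BoxOK Γ lo hi →
      D (clBox lo hi) → Good α (Zs f fun l x => inBox lo hi l x ∧ W l x) := by
  induction n with
  | zero =>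
    intro lo hi hn hb hd
    refine hpin lo hi hb (fun j hj => ?_) hd
    by_contra hlt
    have : j ∈ Finset.univ.filter fun j => hi j = ⊤ ∧ lo j ≤ 1 := by
      simp [hj, not_lt.1 hlt]
    rw [Finset.card_eq_zero.1 (Nat.le_zero.1 hn)] at this
    simp at this
  | succ n ih =>
    intro lo hi hn hb hd
    by_cases hex : ∃ j, hi j = ⊤ ∧ lo j ≤ 1
    swap
    · push_neg at hex
      exact hpin lo hi hb hex hd
    obtain ⟨j, hj, hlo⟩ := hex
    obtain ⟨c, hcΓ, hc1, hc2⟩ := hΓ (some j) 1 2 (by norm_num)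
    have hc1' : (1 : ℚ) < c := by exact_mod_cast hc1
    have hc2' : c < 2 := by exact_mod_cast hc2
    have hle : lo j ≤ c := hlo.trans hc1'.le
    have hcard : ∀ (lo' : σ → ℚ) (hi' : σ → WithTop ℚ), (∀ i, i ≠ j → lo' i = lo i ∧ hi' i = hi i) →
        ¬ (hi' j = ⊤ ∧ lo' j ≤ 1) →
        (Finset.univ.filter fun i => hi' i = ⊤ ∧ lo' i ≤ 1).card ≤ n := by
      intro lo' hi' h1 h2
      refine Nat.le_of_lt_succ (lt_of_lt_of_le (Finset.card_lt_card ⟨fun i hi => ?_, fun h => ?_⟩) hn)
      · simp only [Finset.mem_filter, Finset.mem_univ, true_and] at hi ⊢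
        by_cases hij : i = j
        · subst hij; exact ⟨hj, hlo⟩
        · rwa [(h1 i hij).1, (h1 i hij).2] at hi
      · exact h2 (Finset.mem_filter.1 (h (Finset.mem_filter.2 ⟨Finset.mem_univ j, hj, hlo⟩))).2
    rw [Zs_split f ((cw_inBox lo hi).and hW) (cw_dvd j c)]
    refine Rt.add ?_ ?_
    · have := ih (Function.update lo j c) hi
        (hcard _ _ (fun i hij => ⟨Function.update_of_ne hij _ _, rfl⟩)
          (by simp [not_le.2 hc1'])) (fun i => ?_) (hD _ (clBox lo hi) (fun r hr i => ⟨?_, (hr i).2⟩) hd)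
      · rwa [Zs_congr f fun l x _ _ _ => by rw [split_lo hle, and_right_comm]] at this
      · by_cases hij : i = j
        · subst hij
          rw [Function.update_self]
          exact ⟨Or.inl hcΓ, by linarith, hc2', (hb i).2.2.2⟩
        · rw [Function.update_of_ne hij]; exact hb i
      · by_cases hij : i = j
        · subst hij
          have h1 := (hr i).1
          rw [Function.update_self] at h1
          exact le_trans (by exact_mod_cast hle) h1
        · simpa [Function.update_of_ne hij] using (hr i).1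
    · have := ih lo (Function.update hi j c)
        (hcard _ _ (fun i hij => ⟨rfl, Function.update_of_ne hij _ _⟩) (by simp))
        (fun i => ?_) (hD _ (clBox lo hi) (fun r hr i => ⟨(hr i).1, fun γ hγ => ?_⟩) hd)
      · rwa [Zs_congr f fun l x _ _ _ => by rw [split_hi c hj, and_right_comm]] at this
      · by_cases hij : i = j
        · subst hij
          refine ⟨(hb i).1, (hb i).2.1, (hb i).2.2.1, fun γ hγ => ?_⟩
          rw [Function.update_self, WithTop.coe_inj] at hγ
          exact hγ ▸ ⟨hcΓ, by linarith, hc2'⟩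
        · have := hb i
          rwa [Function.update_of_ne hij]
      · by_cases hij : i = j
        · subst hij; simp [hj] at hγ
        · exact (hr i).2 γ (by rwa [Function.update_of_ne hij])

end Box

theorem t_Box : S_Pin → S_Box := by
  intro hpin σ _ _ f α Γ lo hi θ hctx hb
  refine ⟨fun hd => ?_, fun h1 h2 => ?_⟩
  · have := Box.gen (f := f) (α := α) hctx.dns (cw_const True)
      (fun A => Disjoint A (Kset f.support α)) (fun A B hAB h => h.mono_left hAB)
      (fun lo hi hb hp hd => by simpa using (hpin σ f α Γ lo hi θ hctx hb hp).1 hd) _ lo hi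
      le_rfl hb hd
    simpa using this
  · exact Box.gen (f := f) (α := α) hctx.dns (cw_nGe f.support θ).not (fun _ => True)
      (fun _ _ _ h => h) (fun lo hi hb hp _ => (hpin σ f α Γ lo hi θ hctx hb hp).2 h1 h2) _ lo hi
      le_rfl hb trivial

end Pool.Agent.P.MP_9321be_ag.ND
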