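import Pool.Agent.P.MP_9321be_ag.ND.RtBasic

/-!
The series of a polyhedral cell away from the dangerous set.
-/

namespace Pool.Agent.P.MP_9321be_ag.ND

namespace Cell

theorem int_form {ι : Type} [Fintype ι] (f : (ι → ℚ) →ₗ[ℚ] ℚ) :
    ∃ (w : ι → ℤ) (c : ℚ), 0 < c ∧ ∀ y : ι → ℚ, ∑ i, w i * y i = c * f y := by
  classical
  set q : ι → ℚ := fun i => f fun j => if i = j then 1 else 0 with hq
  have h : ∀ i, ∃ w : ℤ, (w : ℚ) = (∏ j, ((q j).den : ℚ)) * q i := fun i =>
    ⟨(∏ j ∈ Finset.univ.erase i, ((q j).den : ℤ)) * (q i).num, by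
      rw [← Finset.prod_erase_mul _ _ (Finset.mem_univ i), mul_assoc, Rat.den_mul_eq_num]
      push_cast; rfl⟩
  choose w hw using h
  refine ⟨w, ∏ j, ((q j).den : ℚ), Finset.prod_pos fun j _ => Nat.cast_pos.2 (q j).den_pos,
    fun y => ?_⟩
  rw [f.pi_apply_eq_sum_univ, Finset.mul_sum]
  exact Finset.sum_congr rfl fun i _ => by rw [hw, smul_eq_mul]; ring

theorem sliceQ (hS : S_Slice) {R : Type 1} [CommRing R] (u : R) {ι κ : Type} [Fintype ι]
    [Fintype κ] (ℓ : κ → (ι → ℚ) →ₗ[ℚ] ℚ) (b : κ → ℚ) (st : κ → Prop) (e d : ι → ℤ) (α : ℚ)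
    (C : (ι → ℤ) → Prop)
    (hC : ∀ z, C z ↔ ∀ k, b k ≤ ℓ k (fun i => z i) ∧ (st k → b k < ℓ k fun i => z i))
    (h1 : ∀ l : ℕ, {z | C z ∧ d ⬝ᵥ z = l}.Finite) (h2 : ∀ z, C z → 0 ≤ d ⬝ᵥ z ∧ 0 ≤ e ⬝ᵥ z)
    (h3 : ∀ r : ι → ℤ, r ≠ 0 → (∀ k, 0 ≤ ℓ k fun i => r i) → 0 < d ⬝ᵥ r ∧ 0 < e ⬝ᵥ r ∧
      ∀ c : κ → ℚ, (∀ k, c k ≠ 0 → ℓ k (fun i => r i) = 0) →
        ¬ ∀ y, ∑ k, c k * ℓ k y = ∑ i, ((e i : ℚ) - α * d i) * y i) :
    Rt u (· ≠ α) (PowerSeries.mk fun l : ℕ =>
      ∑ᶠ z ∈ {z | C z ∧ d ⬝ᵥ z = l}, u ^ (e ⬝ᵥ z).toNat) := by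
  classical
  choose w c c0 hw using fun k => int_form (ℓ k)
  have hw' : ∀ k (z : ι → ℤ), ((w k ⬝ᵥ z : ℤ) : ℚ) = c k * ℓ k fun i => z i := fun k z => by
    rw [← hw, dotProduct]; push_cast; rfl
  have key : ∀ z, C z ↔ ∀ k, (if st k then ⌊c k * b k⌋ + 1 else ⌈c k * b k⌉) ≤ w k ⬝ᵥ z := by
    intro z
    rw [hC]
    refine forall_congr' fun k => ?_
    by_cases h : st k
    · rw [if_pos h, Int.add_one_le_iff, Int.floor_lt, hw', mul_lt_mul_iff_right₀ (c0 k)]
      exact ⟨fun h' => h'.2 h, fun h' => ⟨h'.le, fun _ => h'⟩⟩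
    · rw [if_neg h, Int.ceil_le, hw', mul_le_mul_iff_right₀ (c0 k)]
      exact ⟨fun h' => h'.1, fun h' => ⟨h', fun h'' => (h h'').elim⟩⟩
  simp only [key] at h1 h2 ⊢
  refine hS R u ι κ w _ e d α h1 h2 fun r hr h => ?_
  obtain ⟨a1, a2, a3⟩ := h3 r hr fun k => by
    have : (0 : ℚ) ≤ ((w k ⬝ᵥ r : ℤ) : ℚ) := by exact_mod_cast h k
    rw [hw'] at this
    exact (mul_nonneg_iff_of_pos_left (c0 k)).1 this
  refine ⟨a1, a2, fun hm => ?_⟩
  obtain ⟨t, ht, et⟩ := (Finsupp.mem_span_image_iff_linearCombination _).1 hm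
  rw [Finsupp.linearCombination_apply, Finsupp.sum_fintype _ _ (by simp)] at et
  refine a3 (fun k => t k * c k) (fun k hk => ?_) fun y => ?_
  · have h4 : w k ⬝ᵥ r = 0 := (Finsupp.mem_supported' _ _).1 ht k |>.mt (left_ne_zero_of_mul hk)
      |> not_not.1
    have := hw' k r
    rw [h4, Int.cast_zero] at this
    exact (mul_eq_zero.1 this.symm).resolve_left (c0 k).ne'
  · simp only [← congrFun et, Finset.sum_apply, Finset.sum_mul, mul_assoc, ← hw, Finset.mul_sum,
      Pi.smul_apply, smul_eq_mul]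
    exact Finset.sum_comm

variable {σ : Type} [Fintype σ] [DecidableEq σ]

omit [DecidableEq σ] in
theorem core {A : Finset (σ →₀ ℕ)} {α : ℚ} {lo hi : Option σ → ℚ} (hA : ConvA A)
    (hK : NoK A α lo hi) {r : σ → ℚ} (h1 : ∀ j, lo (some j) ≤ r j ∧ r j ≤ hi (some j))
    (h2 : lo none ≤ 1) (h3 : 1 ≤ hi none) (h4 : ∀ a ∈ A, 1 ≤ ∑ i, vec a i * r i)
    (h5 : ∑ i, r i = α) {lam : (σ →₀ ℕ) → ℚ} {κ : σ → ℚ}
    (h6 : ∀ a ∈ A, lam a ≠ 0 → ∑ i, vec a i * r i = 1) (h7 : ∀ j, κ j ≠ 0 → r j = 0)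
    (h8 : ∀ i, ∑ a ∈ A, lam a * vec a i + κ i = 1) : False := by
  classical
  have r0 : ∀ i, 0 < r i := fun i => by
    obtain ⟨k, hk⟩ := hA.2.2 i
    have := h4 _ hk
    rw [Finset.sum_eq_single i (fun j _ hj => by simp [vec, Finsupp.single_eq_of_ne hj])
      (by simp), vec, Finsupp.single_eq_same] at this
    by_contra! h
    linarith [mul_nonpos_of_nonneg_of_nonpos (Nat.cast_nonneg (α := ℚ) k) h]
  have e : ∀ a, dr a (fun i => (r i : ℝ)) = ((∑ i, vec a i * r i : ℚ) : ℝ) := fun a => by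
    simp [dr, vec]
  refine hK (fun i => (r i : ℝ)) ⟨fun i => Rat.cast_nonneg.2 (r0 i).le,
    fun a ha => by rw [e]; exact_mod_cast h4 a ha, by rw [← h5, Rat.cast_sum], ?_⟩
    (fun j => ⟨by exact_mod_cast (h1 j).1, by exact_mod_cast (h1 j).2⟩) h2 h3
  have : (fun _ => 1 : σ → ℚ) = ∑ a ∈ A, lam a • vec a := funext fun i => by
    have h9 : κ i = 0 := not_not.1 fun h => (r0 i).ne' (h7 i h)
    rw [← h8 i, h9]; simp
  rw [this]
  refine Submodule.sum_mem _ fun a ha => ?_
  by_cases h : lam a = 0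
  · simp [h]
  · refine Submodule.smul_mem _ _ (Submodule.subset_span ⟨a, ?_, rfl⟩)
    exact Finset.mem_coe.2 (Finset.mem_filter.2 ⟨ha, by rw [e, h6 a ha h, Rat.cast_one]⟩)

/-- coordinates -/
abbrev Io (σ : Type) := Option (Option σ)

/-- constraints -/
abbrev Ko (A : Finset (σ →₀ ℕ)) := (Option σ × Bool) ⊕ σ ⊕ (A × Bool) ⊕ Bool

/-- coordinate forms -/
abbrev cf (i : Io σ) : (Io σ → ℚ) →ₗ[ℚ] ℚ := LinearMap.proj i

/-- the linear forms -/
noncomputable def form (A F : Finset (σ →₀ ℕ)) (lo hi : Option σ → ℚ) :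
    Ko A → (Io σ → ℚ) →ₗ[ℚ] ℚ
  | .inl (o, false) => cf (some o) - lo o • cf none
  | .inl (o, true) => hi o • cf none - cf (some o)
  | .inr (.inl j) => cf (some (some j))
  | .inr (.inr (.inl (a, false))) => ∑ i, vec a i • cf (some (some i)) - cf (some none)
  | .inr (.inr (.inl (a, true))) =>
      if a.1 ∈ F then cf (some none) - ∑ i, vec a i • cf (some (some i)) else 0
  | .inr (.inr (.inr false)) => cf none - cf (some none)
  | .inr (.inr (.inr true)) => cf none

/-- the bounds -/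
def bd (A : Finset (σ →₀ ℕ)) (κ : Option σ → ℕ) : Ko A → ℚ
  | .inl (o, true) => -κ o
  | .inr (.inl _) => 1
  | _ => 0

/-- the strict constraints -/
def st (A F : Finset (σ →₀ ℕ)) : Ko A → Prop
  | .inl (_, true) => True
  | .inr (.inr (.inl (a, false))) => a.1 ∉ F
  | _ => False

/-- the polyhedron -/
structure Con (A F : Finset (σ →₀ ℕ)) (lo hi : Option σ → ℚ) (κ : Option σ → ℕ)
    (y : Io σ → ℚ) : Prop where
  lo : ∀ o, lo o * y none ≤ y (some o)
  hi : ∀ o, y (some o) < hi o * y none + κ o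
  one : ∀ j, 1 ≤ y (some (some j))
  ge : ∀ a ∈ A, y (some none) ≤ ∑ i, vec a i * y (some (some i))
  gt : ∀ a ∈ A, a ∉ F → y (some none) < ∑ i, vec a i * y (some (some i))
  le : ∀ a ∈ A, a ∈ F → ∑ i, vec a i * y (some (some i)) ≤ y (some none)
  lN : y (some none) ≤ y none
  l0 : 0 ≤ y none

variable {A F : Finset (σ →₀ ℕ)} {lo hi : Option σ → ℚ} {κ : Option σ → ℕ}

theorem con_iff (y : Io σ → ℚ) : Con A F lo hi κ y ↔
    ∀ k, bd A κ k ≤ form A F lo hi k y ∧ (st A F k → bd A κ k < form A F lo hi k y) := by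
  constructor
  · rintro h (⟨o, _ | _⟩ | j | ⟨a, _ | _⟩ | _ | _)
    · simpa [bd, st, form] using h.lo o
    · have := h.hi o
      simp only [bd, st, form, LinearMap.sub_apply, LinearMap.smul_apply, LinearMap.proj_apply,
        smul_eq_mul]
      exact ⟨by linarith, fun _ => by linarith⟩
    · simpa [bd, st, form] using h.one j
    · simpa [bd, st, form] using And.intro (h.ge a a.2) (h.gt a a.2)
    · by_cases ha : a.1 ∈ F
      · simpa [bd, st, form, ha] using h.le a a.2 ha
      · simp [bd, st, form, ha]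
    · simpa [bd, st, form] using h.lN
    · simpa [bd, st, form] using h.l0
  · intro h
    refine ⟨fun o => ?_, fun o => ?_, fun j => ?_, fun a ha => ?_, fun a ha h' => ?_,
      fun a ha h' => ?_, ?_, ?_⟩
    · simpa [bd, form] using (h (.inl (o, false))).1
    · have := (h (.inl (o, true))).2 trivial
      simp only [bd, form, LinearMap.sub_apply, LinearMap.smul_apply, LinearMap.proj_apply,
        smul_eq_mul] at this
      linarith
    · simpa [bd, form] using (h (.inr (.inl j))).1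
    · simpa [bd, form] using (h (.inr (.inr (.inl (⟨a, ha⟩, false))))).1
    · simpa [bd, form] using (h (.inr (.inr (.inl (⟨a, ha⟩, false))))).2 h'
    · simpa [bd, form, h'] using (h (.inr (.inr (.inl (⟨a, ha⟩, true))))).1
    · simpa [bd, form] using (h (.inr (.inr (.inr false)))).1
    · simpa [bd, form] using (h (.inr (.inr (.inr true)))).1

omit [DecidableEq σ] in
theorem Con.nonneg {y : Io σ → ℚ} (h : Con A F lo hi κ y) (h0 : 0 ≤ lo none) (i : Io σ) :
    0 ≤ y i := by
  rcases i with _ | _ | j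
  · exact h.l0
  · exact (mul_nonneg h0 h.l0).trans (h.lo none)
  · exact zero_le_one.trans (h.one j)

/-- the lattice point of a weight -/
def pt (l : ℕ) (p : (σ → ℕ) × ℕ) : Io σ → ℤ
  | none => l
  | some none => p.2
  | some (some j) => p.1 j

theorem con_pt (hF : F ⊆ A) (l : ℕ) (p : (σ → ℕ) × ℕ) :
    Con A F lo hi κ (fun i => pt l p i) ↔ p ∈ cellSet A F lo hi κ l := by
  have e : ∀ a, ∑ i, vec a i * ((pt l p (some (some i)) : ℤ) : ℚ) = (dn a p.1 : ℕ) := fun a => by
    simp [vec, pt, dn]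
  constructor
  · intro h
    refine ⟨⟨fun j => ⟨?_, ?_, ?_⟩, ?_, ?_⟩, ?_, fun a ha => le_antisymm ?_ ?_, fun a ha h' => ?_⟩
    · simpa [pt] using h.one j
    · simpa [pt] using h.lo (some j)
    · simpa [pt] using h.hi (some j)
    · simpa [pt] using h.lo none
    · simpa [pt] using h.hi none
    · simpa [pt] using h.lN
    · have := h.le a (hF ha) ha
      rw [e] at this; simpa [pt] using this
    · have := h.ge a (hF ha)
      rw [e] at this; simpa [pt] using this
    · have := h.gt a ha h'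
      rw [e] at this; simpa [pt] using this
  · rintro ⟨⟨h1, h2, h3⟩, h4, h5, h6⟩
    refine ⟨fun o => ?_, fun o => ?_, fun j => ?_, fun a ha => ?_, fun a ha h' => ?_,
      fun a _ h' => ?_, ?_, ?_⟩
    · rcases o with _ | j
      · simpa [pt] using h2
      · simpa [pt] using (h1 j).2.1
    · rcases o with _ | j
      · simpa [pt] using h3
      · simpa [pt] using (h1 j).2.2
    · simpa [pt] using (h1 j).1
    · rw [e]
      by_cases h' : a ∈ F
      · simpa [pt] using (h5 a h').ge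
      · simpa [pt] using (h6 a ha h').le
    · rw [e]; simpa [pt] using h6 a ha h'
    · rw [e]; simpa [pt] using (h5 a h').le
    · simpa [pt] using h4
    · simp [pt]

/-- the order -/
def dd : Io σ → ℤ
  | none => 1
  | some _ => 0

/-- the codimension -/
def ee : Io σ → ℤ
  | some none => -1
  | _ => 1

omit [DecidableEq σ] in
theorem dd_dot (z : Io σ → ℤ) : dd ⬝ᵥ z = z none := by simp [dotProduct, dd]

omit [DecidableEq σ] in
theorem ee_dot (z : Io σ → ℤ) :
    ee ⬝ᵥ z = ∑ j, z (some (some j)) + z none - z (some none) := by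
  simp [dotProduct, ee]; ring

theorem ray {α : ℚ} {Γ : Option σ → Set ℚ} (hA : ConvA A) (hG : Gen A α Γ)
    (hW : WallOK Γ lo hi) (hK : NoK A α lo hi) {y : Io σ → ℚ} (l0 : 0 < y none)
    (h : ∀ k, 0 ≤ form A F lo hi k y) (c : Ko A → ℚ)
    (hc : ∀ k, c k ≠ 0 → form A F lo hi k y = 0)
    (e : ∀ y, ∑ k, c k * form A F lo hi k y = ∑ i, ((ee i : ℚ) - α * dd i) * y i) : False := by
  classical
  have e0 := e y
  rw [Finset.sum_eq_zero fun k _ => by
    by_cases hk : c k = 0
    · rw [hk, zero_mul]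
    · rw [hc k hk, mul_zero]] at e0
  simp only [Fintype.sum_option, ee, dd] at e0
  set lam : (σ →₀ ℕ) → ℚ := fun a => if h : a ∈ A then c (.inr (.inr (.inl (⟨a, h⟩, false)))) -
    if a ∈ F then c (.inr (.inr (.inl (⟨a, h⟩, true)))) else 0 else 0 with hlam
  have ex : ∀ y : Io σ → ℚ, ∑ k, c k * form A F lo hi k y =
      ∑ o, (c (.inl (o, true)) * (hi o * y none - y (some o)) +
        c (.inl (o, false)) * (y (some o) - lo o * y none)) +
      (∑ j, c (.inr (.inl j)) * y (some (some j)) +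
        (∑ a ∈ A, lam a * (∑ i, vec a i * y (some (some i)) - y (some none)) +
          (c (.inr (.inr (.inr true))) * y none +
            c (.inr (.inr (.inr false))) * (y none - y (some none))))) := fun y => by
    simp only [Fintype.sum_sum_type, Fintype.sum_prod_type, Fintype.sum_bool]
    rw [← Finset.sum_coe_sort A]
    refine congrArg₂ _ rfl (congrArg₂ _ rfl (congrArg₂ _ (Finset.sum_congr rfl fun a _ => ?_) rfl))
    by_cases ha : a.1 ∈ F <;> simp [form, hlam, ha]
    ring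
  simp only [ex, Fintype.sum_option, ee, dd] at e
  have dv : ∀ a, ∑ i, vec a i * (y (some (some i)) / y none) =
      (∑ i, vec a i * y (some (some i))) / y none := fun a => by
    simp only [Finset.sum_div, mul_div_assoc]
  have t1 : ∀ o, c (.inl (o, false)) ≠ 0 → y (some o) / y none = lo o := fun o h => by
    have := hc _ h
    rw [div_eq_iff l0.ne']
    simpa [form, sub_eq_zero] using this
  have t2 : ∀ o, c (.inl (o, true)) ≠ 0 → y (some o) / y none = hi o := fun o h => by
    have := hc _ h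
    rw [div_eq_iff l0.ne', eq_comm]
    simpa [form, sub_eq_zero] using this
  have s1 : ∀ o, lo o ≤ y (some o) / y none := fun o =>
    (le_div_iff₀ l0).2 (by simpa [form] using h (.inl (o, false)))
  have s2 : ∀ o, y (some o) / y none ≤ hi o := fun o =>
    (div_le_iff₀ l0).2 (by simpa [form] using h (.inl (o, true)))
  have e1 : ∑ i, y (some (some i)) / y none - y (some none) / y none = α - 1 := by
    rw [← Finset.sum_div, ← sub_div, div_eq_iff l0.ne']
    simp only [Int.cast_one, Int.cast_zero, mul_zero, sub_zero, one_mul, Int.cast_neg] at e0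
    linarith
  obtain ⟨hN, lam', κ', g1, g2, g3⟩ := hG (fun j => y (some (some j)) / y none)
    (y (some none) / y none) lam
    (fun j => c (.inl (some j, false)) - c (.inl (some j, true)) + c (.inr (.inl j)))
    (c (.inl (none, false)) - c (.inl (none, true)) - c (.inr (.inr (.inr false))))
    (fun a ha h0 => by
      rw [dv]
      congr 1
      by_cases h1 : c (.inr (.inr (.inl (⟨a, ha⟩, false)))) = 0
      · by_cases h2 : a ∈ F
        · have := hc (.inr (.inr (.inl (⟨a, ha⟩, true)))) fun h3 => h0 (by simp [hlam, h1, h3])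
          exact Eq.symm (by simpa [form, h2, sub_eq_zero] using this)
        · exact (h0 (by simp [hlam, ha, h1, h2])).elim
      · simpa [form, sub_eq_zero] using hc _ h1)
    (fun j h0 => by
      by_cases h1 : c (.inl (some j, false)) = 0
      · by_cases h2 : c (.inl (some j, true)) = 0
        · have := hc (.inr (.inl j)) fun h3 => h0 (by simp [h1, h2, h3])
          exact Or.inr (div_eq_zero_iff.2 (Or.inl this))
        · exact Or.inl (by rw [t2 _ h2]; exact (hW.1 j).2)
      · rw [t1 _ h1]; exact (hW.1 j).1)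
    (fun h0 => by
      by_cases h1 : c (.inl (none, false)) = 0
      · by_cases h2 : c (.inl (none, true)) = 0
        · have := hc (.inr (.inr (.inr false))) fun h3 => h0 (by simp [h1, h2, h3])
          refine Or.inr (Or.inr ?_)
          rw [div_eq_one_iff_eq l0.ne', eq_comm]
          simpa [form, sub_eq_zero] using this
        · rw [t2 _ h2]; exact hW.2.2.1.imp_right Or.inr
      · rw [t1 _ h1]; exact hW.2.1)
    (fun i => by
      have := e (Pi.single (some (some i)) 1)
      simp [Pi.single_apply, Finset.sum_add_distrib] at this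
      linarith)
    (by
      have := e (Pi.single (some none) 1)
      simp at this
      linarith) e1
  rw [hN] at g1 e1
  refine core hA hK (fun j => ⟨s1 _, s2 _⟩) (hN ▸ s1 none) (hN ▸ s2 none) (fun a ha => ?_)
    (by linarith) g1 g2 g3
  rw [dv, ← hN]
  exact div_le_div_of_nonneg_right
    (by simpa [form] using h (.inr (.inr (.inl (⟨a, ha⟩, false))))) l0.le

omit [DecidableEq σ] in
theorem fin_con (h0 : 0 ≤ lo none) (l : ℕ) :
    {z : Io σ → ℤ | Con A F lo hi κ (fun i => z i) ∧ dd ⬝ᵥ z = l}.Finite := by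
  refine (Set.Finite.pi' fun i : Io σ => Set.finite_Icc (0 : ℤ)
    (i.elim l fun o => ⌈hi o * l + κ o⌉)).subset fun z ⟨h, hl⟩ i => ⟨?_, ?_⟩
  · exact_mod_cast h.nonneg h0 i
  · rw [dd_dot] at hl
    rcases i with _ | o
    · exact hl.le
    · have := h.hi o
      rw [hl] at this
      exact (Int.lt_ceil.2 this).le

theorem ray0 (hA : ConvA A) {r : Io σ → ℤ} (hr : r ≠ 0)
    (h : ∀ k, 0 ≤ form A F lo hi k fun i => r i) : 0 < dd ⬝ᵥ r ∧ 0 < ee ⬝ᵥ r := by
  have l0 : 0 ≤ r none := by simpa [form] using h (.inr (.inr (.inr true)))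
  have lN : r (some none) ≤ r none := by simpa [form] using h (.inr (.inr (.inr false)))
  have v0 : ∀ j, 0 ≤ r (some (some j)) := fun j => by simpa [form] using h (.inr (.inl j))
  have l1 : 0 < r none := by
    refine l0.lt_of_ne fun e => hr (funext fun i => ?_)
    have a1 : ∀ o, r (some o) ≤ 0 := fun o => by simpa [form, ← e] using h (.inl (o, true))
    rcases i with _ | _ | j
    · exact e.symm
    · exact le_antisymm (a1 _) (by simpa [form, ← e] using h (.inl (none, false)))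
    · exact le_antisymm (a1 _) (v0 j)
  rw [dd_dot, ee_dot]
  refine ⟨l1, not_le.1 fun h1 => ?_⟩
  have h2 := Finset.sum_nonneg fun j (_ : j ∈ Finset.univ) => v0 j
  have h3 : ∀ j, r (some (some j)) = 0 := fun j =>
    (Finset.sum_eq_zero_iff_of_nonneg fun j _ => v0 j).1 (by omega) j (Finset.mem_univ j)
  obtain ⟨a, ha⟩ := hA.1
  have h4 : r (some none) ≤ 0 := by
    simpa [form, h3] using h (.inr (.inr (.inl (⟨a, ha⟩, false))))
  omega

end Cell

open Cell in
theorem t_Cell : S_Slice → S_Cell := by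
  intro hS R _ u σ _ _ A F α Γ lo hi κ hA hF hG hW hK
  have h0 := hW.2.2.2
  have key := sliceQ hS u (form A F lo hi) (bd A κ) (st A F) ee dd α
    (fun z => Cell.Con A F lo hi κ fun i => z i) (fun z => con_iff _) (fin_con h0)
    (fun z h => by
      have h1 : ∀ i, 0 ≤ z i := fun i => by exact_mod_cast h.nonneg h0 i
      have h2 : z (some none) ≤ z none := by exact_mod_cast h.lN
      have h3 := Finset.sum_nonneg fun j (_ : j ∈ Finset.univ) => h1 (some (some j))
      rw [dd_dot, ee_dot]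
      exact ⟨h1 _, by omega⟩)
    fun r hr h => by
      obtain ⟨h1, h2⟩ := ray0 hA hr h
      exact ⟨h1, h2, ray hA hG hW hK (by rw [dd_dot] at h1; exact_mod_cast h1) h⟩
  convert key using 3 with l
  refine finsum_mem_eq_of_bijOn (pt l) ⟨fun p hp => ⟨(con_pt hF l p).2 hp, dd_dot _⟩,
    fun p _ q _ e => Prod.ext (funext fun j => ?_) ?_, fun z hz => ?_⟩ fun p hp => ?_
  · exact Nat.cast_injective (congrFun e (some (some j)))
  · exact Nat.cast_injective (congrFun e (some none))
  · have h1 : ∀ i, 0 ≤ z i := fun i => by exact_mod_cast hz.1.nonneg h0 i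
    have e : pt l (fun j => (z (some (some j))).toNat, (z (some none)).toNat) = z := by
      funext i
      rcases i with _ | _ | j
      · exact ((dd_dot z).symm.trans hz.2).symm
      · exact Int.toNat_of_nonneg (h1 _)
      · exact Int.toNat_of_nonneg (h1 _)
    exact ⟨_, (con_pt hF l _).1 (by rw [e]; exact hz.1), e⟩
  · have := hp.2.1
    rw [ee_dot]
    simp only [pt, ← Nat.cast_sum]
    congr 1
    omega

end Pool.Agent.P.MP_9321be_ag.ND
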