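import Pool.Agent.P.MP_9321be_ag.ND.ZBasic

/-!
Boxes whose unbounded sides start beyond one.
-/

namespace Pool.Agent.P.MP_9321be_ag.ND

open MvPolynomial

set_option linter.unusedSectionVars false

namespace Pin

variable {σ : Type} [Fintype σ] [DecidableEq σ]

/-- The unbounded directions. -/
def topI (hi : σ → WithTop ℚ) : Finset σ := Finset.univ.filter fun j => hi j = ⊤

theorem mem_topI {hi : σ → WithTop ℚ} {j : σ} : j ∈ topI hi ↔ hi j = ⊤ := by simp [topI]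

/-- Lower walls. -/
def loW (lo : σ → ℚ) : Option σ → ℚ := fun o => o.elim 0 lo

/-- Upper walls. -/
def hiW (lo : σ → ℚ) (hi : σ → WithTop ℚ) (hN : ℚ) : Option σ → ℚ :=
  fun o => o.elim hN fun j => (hi j).untopD (lo j)

/-- Offsets. -/
def kW (hi : σ → WithTop ℚ) (kN : ℕ) : Option σ → ℕ :=
  fun o => o.elim kN fun j => if hi j = ⊤ then 1 else 0

/-- The coordinate walls. -/
def CWalls (lo : σ → ℚ) (hi : σ → WithTop ℚ) (l : ℕ) (v : σ → ℕ) : Prop :=
  ∀ j, 1 ≤ v j ∧ th (lo j) l ≤ v j ∧ (hi j = ⊤ → v j = th (lo j) l) ∧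
    ∀ γ : ℚ, hi j = γ → v j < th γ l

theorem walls_iff (lo : σ → ℚ) (hi : σ → WithTop ℚ) (h0 : ∀ j, 0 ≤ lo j) (hN : ℚ) (kN l : ℕ)
    (v : σ → ℕ) (N : ℕ) :
    Walls (loW lo) (hiW lo hi hN) (kW hi kN) l v N ↔
      CWalls lo hi l v ∧ (N : ℚ) < hN * l + kN := by
  unfold Walls CWalls
  refine and_congr (forall_congr' fun j => and_congr_right fun _ => ?_) ?_
  · simp only [loW, hiW, kW, Option.elim]
    rw [th_le_iff]
    refine and_congr_right fun h1 => ?_
    by_cases h : hi j = ⊤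
    · simp only [h, WithTop.untopD_top, if_true, Nat.cast_one, forall_true_left, WithTop.top_ne_coe,
        false_imp_iff, implies_true, and_true]
      constructor
      · intro h2
        refine le_antisymm ?_ ((th_le_iff _ _ _).2 h1)
        have h3 : lo j * l ≤ (th (lo j) l : ℚ) := (th_le_iff _ _ _).1 le_rfl
        have : (v j : ℚ) < (th (lo j) l : ℚ) + 1 := by linarith
        exact Nat.lt_succ_iff.1 (by exact_mod_cast this)
      · intro h2
        rw [h2]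
        exact Nat.ceil_lt_add_one (mul_nonneg (h0 j) l.cast_nonneg)
    · obtain ⟨γ, e⟩ := WithTop.ne_top_iff_exists.1 h
      simp only [← e, WithTop.untopD_coe, WithTop.coe_ne_top, if_false, Nat.cast_zero, add_zero,
        false_imp_iff, true_and, WithTop.coe_eq_coe, forall_eq', lt_th_iff]
  · simp [loW, hiW, kW]

variable {lo : σ → ℚ} {hi : σ → WithTop ℚ} {l : ℕ} {v : σ → ℕ}

theorem lt_of_top (ht : ∀ j, hi j = ⊤ → 1 < lo j) (hl : l ≠ 0) (hv : CWalls lo hi l v) {j : σ}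
    (hj : j ∈ topI hi) : l < v j := by
  have h1 := (th_le_iff _ _ _).1 (hv j).2.1
  have h2 := ht j (mem_topI.1 hj)
  have h3 : (0 : ℚ) < l := by exact_mod_cast Nat.pos_of_ne_zero hl
  have : (l : ℚ) < v j := by nlinarith
  exact_mod_cast this

theorem fc_zero {A : Finset (σ →₀ ℕ)} {I : Finset σ} (hI : ∀ j ∈ I, l < v j) (hn : nn A v ≤ l)
    {a : σ →₀ ℕ} (ha : a ∈ fc A v) {j : σ} (hj : j ∈ I) : a j = 0 := by
  by_contra h0
  have h1 : a j * v j ≤ dn a v :=
    Finset.single_le_sum (f := fun i => a i * v i) (fun _ _ => Nat.zero_le _) (Finset.mem_univ j)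
  have h2 : v j ≤ a j * v j := Nat.le_mul_of_pos_left _ (Nat.pos_of_ne_zero h0)
  have := (mem_fc.1 ha).2
  have := hI j hj
  omega

theorem smooth {f : MvPolynomial σ ℂ} (hf : Nondeg f) {I : Finset σ} (h1 : ∀ j, 1 ≤ v j)
    (hI : ∀ j ∈ I, l < v j) (hn : nn f.support v ≤ l) : Smooth (fp f (fc f.support v)) I := by
  intro p hp _
  obtain ⟨j, hj⟩ := hf (fun i => (v i : ℝ)) (fun i => by exact_mod_cast h1 i)
    (fun i => if i ∈ I then 1 else p i) fun i => by
      split_ifs with h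
      · exact one_ne_zero
      · exact hp i h
  refine ⟨j, ?_⟩
  rw [facePoly_nat] at hj
  convert hj using 1
  simp only [fp, map_sum, pderiv_monomial, eval_monomial]
  refine Finset.sum_congr rfl fun a ha => ?_
  congr 1
  refine Finsupp.prod_congr fun i hi => ?_
  rw [if_neg fun h => ?_]
  have h2 := Finsupp.mem_support_iff.1 hi
  rw [Finsupp.tsub_apply, fc_zero hI hn ha h] at h2
  omega

theorem nn_le_l {f : MvPolynomial σ ℂ} {M : ℕ} {I : Finset σ} {x : σ → TR M} (hx : inCell v I x)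
    (ho : ordEq l (aeval x f)) : nn f.support v ≤ l := by
  by_contra h
  refine ho.2 ?_
  rw [aeval_eq_sum]
  refine Finset.dvd_sum fun a ha => Dvd.dvd.mul_left ?_ _
  exact (pow_dvd_pow _ ((Nat.succ_le_of_lt (not_le.1 h)).trans (nn_le ha v))).trans
    (prod_dvd Finset.univ a fun i _ => (hx i).1)

theorem nGe_iff {A : Finset (σ →₀ ℕ)} (hA : A.Nonempty) {I : Finset σ} {θ : ℚ} (hθ : θ < 1)
    {x : σ → TR (2 * l)} (hx : inCell v I x) (hI : ∀ j ∈ I, l < v j) (hn : nn A v ≤ l) :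
    nGe A θ l x ↔ th θ l ≤ nn A v := by
  constructor
  · intro h
    obtain ⟨a, ha⟩ := fc_nonempty hA v
    obtain ⟨c, hc, e⟩ := prod_ordEq (x := x) (v := v) Finset.univ a fun i _ h0 =>
      ⟨(hx i).1, (hx i).2 fun hi => h0 (fc_zero hI hn ha hi)⟩
    have h1 := h a (mem_fc.1 ha).1
    rw [e, hc.dvd_mul_right] at h1
    rw [← (mem_fc.1 ha).2]
    exact (tt_pow_dvd_iff ((th_le_two (by linarith) l).trans (Nat.le_succ _))).1 h1
  · intro h a ha
    exact (pow_dvd_pow _ (h.trans (nn_le ha v))).trans (prod_dvd Finset.univ a fun i _ => (hx i).1)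

theorem exists_cell (ht : ∀ j, hi j = ⊤ → 1 < lo j) (hl : l ≠ 0) {x : σ → TR (2 * l)}
    (h1 : ∀ i, tt (2 * l) ∣ x i) (hb : inBox lo hi l x) :
    ∃ v, CWalls lo hi l v ∧ inCell v (topI hi) x := by
  have key : ∀ j, ∃ n : ℕ, (1 ≤ n ∧ th (lo j) l ≤ n ∧ (hi j = ⊤ → n = th (lo j) l) ∧
      ∀ γ : ℚ, hi j = γ → n < th γ l) ∧
      (tt (2 * l) ^ n ∣ x j ∧ (j ∉ topI hi → ¬ tt (2 * l) ^ (n + 1) ∣ x j)) := fun j => by
    by_cases h : hi j = ⊤
    · refine ⟨th (lo j) l, ⟨?_, le_rfl, fun _ => rfl, fun γ e => ?_⟩, (hb j).1,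
        fun hj => (hj (mem_topI.2 h)).elim⟩
      · have h3 : (0 : ℚ) < l := by exact_mod_cast Nat.pos_of_ne_zero hl
        have h2 := ht j h
        exact (lt_th_iff _ _ 0).2 (by push_cast; nlinarith)
      · rw [h] at e; exact (WithTop.top_ne_coe e).elim
    · obtain ⟨γ, e⟩ := WithTop.ne_top_iff_exists.1 h
      obtain ⟨n, h2, h3⟩ := exists_ordEq ((hb j).2 γ e.symm)
      refine ⟨n, ⟨(h3.dvd_iff 1).1 (by simpa using h1 j), (h3.dvd_iff _).1 (hb j).1,
        fun e' => (h e').elim, fun γ' e' => ?_⟩, h3.1, fun _ => h3.2⟩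
      rw [← e] at e'
      rwa [← WithTop.coe_eq_coe.1 e']
  choose v h2 h3 using key
  exact ⟨v, h2, h3⟩

theorem of_cell {x : σ → TR (2 * l)} (hv : CWalls lo hi l v) (hx : inCell v (topI hi) x) :
    (∀ i, tt (2 * l) ∣ x i) ∧ inBox lo hi l x := by
  refine ⟨fun i => ?_, fun j => ⟨(pow_dvd_pow _ (hv j).2.1).trans (hx j).1, fun γ e h => ?_⟩⟩
  · simpa using (pow_dvd_pow _ (hv i).1).trans (hx i).1
  · refine (hx j).2 (fun hj => ?_) ((pow_dvd_pow _ ((hv j).2.2.2 γ e)).trans h)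
    rw [mem_topI.1 hj] at e
    exact WithTop.top_ne_coe e

theorem core (hH : S_Hensel) (hS : S_Ser) {f : MvPolynomial σ ℂ} {α : ℚ} {Γ : Option σ → Set ℚ}
    (hc : Ctx f α Γ) (hb : BoxOK Γ lo hi) (ht : ∀ j, hi j = ⊤ → 1 < lo j) (hN : ℚ) (kN : ℕ)
    (hN' : hN ∈ Γ none ∨ hN = 1) (hK : NoK f.support α (loW lo) (hiW lo hi hN))
    (W : ∀ l : ℕ, (σ → TR (2 * l)) → Prop)
    (hW : ∀ l, l ≠ 0 → ∀ v x, CWalls lo hi l v → inCell v (topI hi) x → nn f.support v ≤ l →
      (W l x ↔ (nn f.support v : ℚ) < hN * l + kN)) :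
    Good α (Zs f fun l x => inBox lo hi l x ∧ W l x) := by
  have hw : WallOK Γ (loW lo) (hiW lo hi hN) := by
    refine ⟨fun j => ⟨(hb j).1, ?_⟩, Or.inr (Or.inl rfl), hN', le_rfl⟩
    by_cases h : hi j = ⊤
    · have := ht j h
      simp only [hiW, Option.elim, h, WithTop.untopD_top]
      exact (hb j).1.resolve_right (by linarith)
    · obtain ⟨γ, e⟩ := WithTop.ne_top_iff_exists.1 h
      simp only [hiW, Option.elim, ← e, WithTop.untopD_coe]
      exact ((hb j).2.2.2 γ e.symm).1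
  refine (hS σ f α Γ (topI hi) Set.univ _ _ (kW hi kN) hc.conv hc.gen hw hK).congr_ev (l₀ := 1)
    fun l hl => ?_
  have hl0 : l ≠ 0 := by omega
  have h0 : ∀ j, 0 ≤ lo j := fun j => (hb j).2.1
  rw [PowerSeries.coeff_mk, coeff_Zs_cells f hl0 (topI hi)
    (V := {v | Walls (loW lo) (hiW lo hi hN) (kW hi kN) l v (nn f.support v) ∧
      fc f.support v ∈ (Set.univ : Set (Finset (σ →₀ ℕ)))})
    ((walls_finite _ _ _ l (nn f.support)).subset fun v hv => hv.1)]
  · refine finsum_mem_congr rfl fun v hv => ?_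
    have hv' := ((walls_iff lo hi h0 hN kN l v _).1 hv.1).1
    refine hH σ f (2 * l) l v (topI hi) (by omega) (fun i => ?_) fun hn =>
      smooth hc.nd (fun j => (hv' j).1) (fun j hj => lt_of_top ht hl0 hv' hj) hn
    by_cases h : hi i = ⊤
    · rw [(hv' i).2.2.1 h]
      exact th_le_two (hb i).2.2.1.le l
    · obtain ⟨γ, e⟩ := WithTop.ne_top_iff_exists.1 h
      exact ((hv' i).2.2.2 γ e.symm).le.trans (th_le_two ((hb i).2.2.2 γ e.symm).2.2.le l)
  · intro x ho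
    constructor
    · rintro ⟨h1, h2, h3⟩
      obtain ⟨v, h4, h5⟩ := exists_cell ht hl0 h1 h2
      exact ⟨v, ⟨(walls_iff lo hi h0 hN kN l v _).2
        ⟨h4, (hW l hl0 v x h4 h5 (nn_le_l h5 ho)).1 h3⟩, trivial⟩, h5⟩
    · rintro ⟨v, hv, h5⟩
      obtain ⟨h4, h6⟩ := (walls_iff lo hi h0 hN kN l v _).1 hv.1
      exact ⟨(of_cell h4 h5).1, (of_cell h4 h5).2, (hW l hl0 v x h4 h5 (nn_le_l h5 ho)).2 h6⟩
  · intro v hv w hw x h1 h2
    have hv' := ((walls_iff lo hi h0 hN kN l v _).1 hv.1).1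
    have hw' := ((walls_iff lo hi h0 hN kN l w _).1 hw.1).1
    funext j
    by_cases h : hi j = ⊤
    · rw [(hv' j).2.2.1 h, (hw' j).2.2.1 h]
    · have hj : j ∉ topI hi := fun hj => h (mem_topI.1 hj)
      exact ordEq.unique ⟨(h1 j).1, (h1 j).2 hj⟩ ⟨(h2 j).1, (h2 j).2 hj⟩

end Pin

open Pin in
theorem t_Pin : S_Hensel → S_Ser → S_Pin := by
  intro hH hS σ _ _ f α Γ lo hi θ hc hb ht
  constructor
  · intro hd
    have := core hH hS hc hb ht 1 1 (Or.inr rfl) (fun r hr h _ _ => ?_) (fun _ _ => True)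
      fun l _ v x _ _ hn => ?_
    · simpa using this
    · refine Set.disjoint_left.1 hd (fun j => ⟨(h j).1, fun γ e => ?_⟩) hr
      have := (h j).2
      simpa [hiW, e] using this
    · have : (nn f.support v : ℚ) ≤ l := by exact_mod_cast hn
      simp only [true_iff]
      push_cast
      linarith
  · intro hθ hθ1
    refine core hH hS hc hb ht θ 0 (Or.inl hθ) (fun r _ _ _ h => ?_) _ fun l hl v x hv hx hn => ?_
    · exact absurd h (not_le.2 hθ1)
    · rw [nGe_iff hc.conv.1 hθ1 hx (fun j hj => lt_of_top ht hl hv hj) hn, not_le, lt_th_iff]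
      simp

end Pool.Agent.P.MP_9321be_ag.ND
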