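import Pool.Agent.P.MP_9321be_ag.ND.ZBasic

/-!
The series of the measures of the cells is a combination of lattice point series.
-/

namespace Pool.Agent.P.MP_9321be_ag.ND

open MvPolynomial

namespace Ser

variable {σ : Type} [Fintype σ] [DecidableEq σ]

/-- The weights that satisfy the wall conditions. -/
noncomputable def wv (A : Finset (σ →₀ ℕ)) (lo hi : Option σ → ℚ) (κ : Option σ → ℕ) (l : ℕ) :
    Finset (σ → ℕ) := (walls_finite lo hi κ l (nn A)).toFinset

theorem mem_wv {A : Finset (σ →₀ ℕ)} {lo hi : Option σ → ℚ} {κ : Option σ → ℕ} {l : ℕ}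
    {v : σ → ℕ} : v ∈ wv A lo hi κ l ↔ Walls lo hi κ l v (nn A v) := by
  simp [wv]

theorem cell_sum {A F : Finset (σ →₀ ℕ)} (hF : F ⊆ A) (hne : F.Nonempty) (lo hi : Option σ → ℚ)
    (κ : Option σ → ℕ) (l : ℕ) (g : (σ → ℕ) × ℕ → MM) :
    ∑ᶠ p ∈ cellSet A F lo hi κ l, g p =
      ∑ v ∈ (wv A lo hi κ l).filter (fun v => nn A v ≤ l ∧ fc A v = F), g (v, nn A v) := by
  have e : cellSet A F lo hi κ l = (fun v => (v, nn A v)) ''
      ((wv A lo hi κ l).filter (fun v => nn A v ≤ l ∧ fc A v = F) : Finset (σ → ℕ)) := by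
    ext ⟨v, N⟩
    simp only [cellSet, Set.mem_ofPred_eq, Set.mem_image, Finset.mem_coe, Finset.mem_filter,
      mem_wv, Prod.mk.injEq]
    constructor
    · rintro ⟨h1, h2, h3, h4⟩
      have h5 : nn A v = N := nn_eq (fun a ha => by
        by_cases h : a ∈ F
        · exact (h3 a h).ge
        · exact (h4 a ha h).le) (hne.elim fun a ha => ⟨a, hF ha, h3 a ha⟩)
      subst h5
      refine ⟨v, ⟨h1, h2, Finset.ext fun a => ?_⟩, rfl, rfl⟩
      rw [mem_fc]
      refine ⟨fun h => ?_, fun h => ⟨hF h, h3 a h⟩⟩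
      by_contra h6
      exact (h4 a h.1 h6).ne' h.2
    · rintro ⟨w, ⟨h1, h2, rfl⟩, rfl, rfl⟩
      refine ⟨h1, h2, fun a ha => (mem_fc.1 ha).2, fun a ha h => ?_⟩
      exact lt_of_le_of_ne (nn_le ha w) fun h3 => h (mem_fc.2 ⟨ha, h3.symm⟩)
  rw [e, finsum_mem_image fun a _ b _ h => (Prod.mk.inj h).1, finsum_mem_coe_finset]

theorem good_le (hC : S_Cell) {A F : Finset (σ →₀ ℕ)} {α : ℚ} {Γ : Option σ → Set ℚ}
    {lo hi : Option σ → ℚ} (κ : Option σ → ℕ) (hA : ConvA A) (hF : F ⊆ A) (hne : F.Nonempty)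
    (hG : Gen A α Γ) (hW : WallOK Γ lo hi) (hK : NoK A α lo hi) :
    Good α (PowerSeries.mk fun l : ℕ =>
      ∑ v ∈ (wv A lo hi κ l).filter (fun v => nn A v ≤ l ∧ fc A v = F),
        lefInv ^ (∑ i, v i + l - nn A v)) := by
  have := hC MM lefInv σ A F α Γ lo hi κ hA hF hG hW hK
  simpa only [cell_sum hF hne] using this

theorem good_eq (hC : S_Cell) {A F : Finset (σ →₀ ℕ)} {α : ℚ} {Γ : Option σ → Set ℚ}
    {lo hi : Option σ → ℚ} (κ : Option σ → ℕ) (hA : ConvA A) (hF : F ⊆ A) (hne : F.Nonempty)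
    (hG : Gen A α Γ) (hW : WallOK Γ lo hi) (hK : NoK A α lo hi) :
    Good α (PowerSeries.mk fun l : ℕ =>
      ∑ v ∈ (wv A lo hi κ l).filter (fun v => nn A v = l ∧ fc A v = F),
        lefInv ^ (∑ i, v i + l - nn A v)) := by
  by_cases hc : lo none ≤ 1 ∧ (1 < hi none ∨ (hi none = 1 ∧ 1 ≤ κ none))
  · have h1 : (1 : ℚ) ≤ hi none := hc.2.elim le_of_lt fun h => h.1.ge
    have := good_le hC (lo := Function.update lo none 1) (hi := Function.update hi none 1)
      (Function.update κ none 1) hA hF hne hG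
      ⟨fun j => by simpa using hW.1 j, by simp, by simp, by simp⟩
      fun r hr h2 _ _ => hK r hr (fun j => by simpa using h2 j) hc.1 h1
    refine this.congr_ev (l₀ := 1) fun l hl => ?_
    rw [PowerSeries.coeff_mk, PowerSeries.coeff_mk]
    refine Finset.sum_congr (Finset.ext fun v => ?_) fun _ _ => rfl
    have hl' : (1 : ℚ) ≤ l := by exact_mod_cast hl
    simp only [Finset.mem_filter, mem_wv, Walls, Function.update_self, ne_eq, reduceCtorEq,
      not_false_eq_true, Function.update_of_ne, one_mul, Nat.cast_one, Nat.cast_le]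
    constructor
    · rintro ⟨⟨h2, -, -⟩, h3, h4⟩
      exact ⟨⟨h2, h3.ge, by rw [h3]; linarith⟩, h3.le, h4⟩
    · rintro ⟨⟨h2, h3, -⟩, h4, h5⟩
      have h6 := le_antisymm h4 h3
      refine ⟨⟨h2, by rw [h6]; nlinarith [hc.1], ?_⟩, h6, h5⟩
      rw [h6]
      rcases hc.2 with h | h
      · nlinarith [Nat.cast_nonneg (α := ℚ) (κ none)]
      · have : (1 : ℚ) ≤ κ none := by exact_mod_cast h.2
        rw [h.1]; linarith
  · obtain ⟨l₀, hl₀⟩ : ∃ l₀ : ℕ, ∀ l, l₀ ≤ l →
        ¬ (lo none * (l : ℚ) ≤ l ∧ (l : ℚ) < hi none * l + κ none) := by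
      by_cases h1 : lo none ≤ 1
      · rcases lt_trichotomy (hi none) 1 with h | h | h
        · obtain ⟨k, hk⟩ := exists_nat_ge ((κ none : ℚ) / (1 - hi none))
          refine ⟨k, fun l hl h2 => ?_⟩
          have h3 : (k : ℚ) ≤ l := by exact_mod_cast hl
          have h4 := (div_le_iff₀ (sub_pos.2 h)).1 (hk.trans h3)
          linarith [h2.2]
        · have h2 : κ none = 0 := by
            by_contra h2
            exact hc ⟨h1, Or.inr ⟨h, Nat.one_le_iff_ne_zero.2 h2⟩⟩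
          exact ⟨0, fun l _ h3 => by simpa [h, h2] using h3.2⟩
        · exact (hc ⟨h1, Or.inl h⟩).elim
      · refine ⟨1, fun l hl h2 => ?_⟩
        have hl' : (1 : ℚ) ≤ l := by exact_mod_cast hl
        nlinarith [h2.1, not_le.1 h1]
    refine rt_of_eventually_zero (l₀ := l₀) fun l hl => ?_
    rw [PowerSeries.coeff_mk]
    refine Finset.sum_eq_zero fun v hv => (hl₀ l hl ?_).elim
    obtain ⟨h1, h2, -⟩ := Finset.mem_filter.1 hv
    have h3 := (mem_wv.1 h1).2
    rwa [h2] at h3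

end Ser

open Ser in
theorem t_Ser : S_Cell → S_Ser := by
  classical
  intro hC σ _ _ f α Γ I 𝓕 lo hi κ hA hG hW hK
  let cz : Finset (σ →₀ ℕ) → MM := fun F => (algebraMap K0 MM lef - 1) *
    pr {p : σ → ℂ | (∀ i ∉ I, p i ≠ 0) ∧ eval p (fp f F) = 0}
  let cu : Finset (σ →₀ ℕ) → MM := fun F =>
    pr {p : σ → ℂ | (∀ i ∉ I, p i ≠ 0) ∧ eval p (fp f F) ≠ 0}
  have := rt_sum (u := lefInv) (P := (· ≠ α))
    (f.support.powerset.filter fun F => F.Nonempty ∧ F ∈ 𝓕) fun F hF =>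
      ((good_le hC κ hA (Finset.mem_powerset.1 (Finset.mem_filter.1 hF).1)
        (Finset.mem_filter.1 hF).2.1 hG hW hK).C_mul (cz F)).add
      ((good_eq hC κ hA (Finset.mem_powerset.1 (Finset.mem_filter.1 hF).1)
        (Finset.mem_filter.1 hF).2.1 hG hW hK).C_mul (cu F - cz F))
  refine this.congr_ev (l₀ := 0) fun l _ => ?_
  have e : {v | Walls lo hi κ l v (nn f.support v) ∧ fc f.support v ∈ 𝓕} =
      ((wv f.support lo hi κ l).filter fun v => fc f.support v ∈ 𝓕 : Finset (σ → ℕ)) := by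
    ext v; simp [mem_wv]
  simp only [map_sum, map_add, PowerSeries.coeff_C_mul, PowerSeries.coeff_mk]
  rw [e, finsum_mem_coe_finset]
  simp only [Finset.sum_filter (s := wv f.support lo hi κ l), Finset.mul_sum,
    ← Finset.sum_add_distrib]
  rw [Finset.sum_comm]
  refine Finset.sum_congr rfl fun v _ => ?_
  have hm : fc f.support v ∈ f.support.powerset.filter (fun F => F.Nonempty ∧ F ∈ 𝓕) ↔
      fc f.support v ∈ 𝓕 := by
    simp only [Finset.mem_filter, Finset.mem_powerset, fc_nonempty hA.1 v, true_and]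
    exact and_iff_right (Finset.filter_subset _ _)
  by_cases h : fc f.support v ∈ 𝓕
  · rw [Finset.sum_eq_single_of_mem _ (hm.2 h) (fun F _ h => by simp [h.symm]), if_pos h, hval]
    simp only [and_true]
    rcases lt_trichotomy l (nn f.support v) with h1 | h1 | h1
    · rw [if_pos h1, if_neg (not_le.2 h1), if_neg h1.ne']; simp
    · rw [if_neg h1.not_lt, if_pos h1, if_pos h1.ge, if_pos h1.symm]; ring
    · rw [if_neg h1.not_gt, if_neg h1.ne', if_pos h1.le, if_neg h1.ne]; ring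
  · rw [if_neg h]
    refine (Finset.sum_eq_zero fun F hF => ?_).symm
    have : fc f.support v ≠ F := fun h1 => h (h1 ▸ (Finset.mem_filter.1 hF).2.2)
    simp [this]

end Pool.Agent.P.MP_9321be_ag.ND
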