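import Pool.Agent.P.MP_9321be_ag.ND.ZBasic

/-!
Small admissible boxes around a weight.
-/

namespace Pool.Agent.P.MP_9321be_ag.ND

open Filter Topology

namespace Boxes

theorem ev_lt {c B : ℝ} (hc : 0 < c) : ∀ᶠ x in 𝓝[>] (0 : ℝ), B * x < c := by
  have h : Tendsto (fun x : ℝ => B * x) (𝓝 0) (𝓝 (B * 0)) :=
    (continuous_const.mul continuous_id).tendsto 0
  rw [mul_zero] at h
  exact (h.eventually (gt_mem_nhds hc)).filter_mono nhdsWithin_le_nhds

end Boxes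

open Boxes in
theorem t_Boxes : S_Boxes := by
  classical
  intro σ _ _ A Γ u D ρ hΓ hρ hu hA hD
  set B : ℝ := 1 + ∑ a ∈ A, ∑ j, (a j : ℝ) with hBdef
  have hs0 : ∀ a : σ →₀ ℕ, (0 : ℝ) ≤ ∑ j, (a j : ℝ) := fun a =>
    Finset.sum_nonneg fun _ _ => Nat.cast_nonneg _
  have hB1 : 1 ≤ B := by
    have := Finset.sum_nonneg fun a (_ : a ∈ A) => hs0 a
    linarith
  have hBa : ∀ a ∈ A, ∑ j, (a j : ℝ) ≤ B := fun a ha => by
    have := Finset.single_le_sum (f := fun a : σ →₀ ℕ => ∑ j, (a j : ℝ)) (fun a _ => hs0 a) ha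
    linarith
  have e1 : ∀ᶠ x in 𝓝[>] (0 : ℝ), ∀ i, 1 * x < u i :=
    eventually_all.2 fun i => ev_lt (hu i).1
  have e2 : ∀ᶠ x in 𝓝[>] (0 : ℝ), ∀ a ∈ A, a ∉ fr A u → B * x < dr a u - 1 := by
    refine (eventually_all_finset A).2 fun a ha => ?_
    by_cases h : a ∈ fr A u
    · exact Eventually.of_forall fun _ h' => absurd h h'
    · have : dr a u ≠ 1 := fun h' => h (Finset.mem_filter.2 ⟨ha, h'⟩)
      exact (ev_lt (sub_pos.2 (lt_of_le_of_ne (hA a ha) this.symm))).mono fun _ h' _ => h'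
  obtain ⟨l, ⟨⟨⟨⟨h1, h2⟩, h3⟩, h4⟩, h0⟩⟩ := ((((e1.and e2).and (ev_lt (B := 1) hρ)).and
    (ev_lt (B := 1) one_pos)).and self_mem_nhdsWithin).exists
  simp only [one_mul] at h1 h3 h4
  have h0 : 0 < l := h0
  set θ : ℝ := l / (4 * B) with hθ
  have θ0 : 0 < θ := by positivity
  have θB : B * θ = l / 4 := by rw [hθ]; field_simp
  have θl : θ < l := by nlinarith
  have key : ∀ j, ∃ lo ∈ Γ (some j), ∃ hi ∈ Γ (some j),
      (u j - l < lo ∧ (lo : ℝ) < u j ∧ u j < hi ∧ (hi : ℝ) < u j + l) ∧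
      (j ∈ D → (lo : ℝ) < u j - l / 2 ∧ u j + l / 2 < hi) ∧
      (j ∉ D → u j - θ < lo ∧ (hi : ℝ) < u j + θ) := by
    intro j
    by_cases hj : j ∈ D
    · obtain ⟨lo, m1, a1, a2⟩ := hΓ (some j) (u j - l) (u j - l / 2) (by linarith)
      obtain ⟨hi, m2, b1, b2⟩ := hΓ (some j) (u j + l / 2) (u j + l) (by linarith)
      exact ⟨lo, m1, hi, m2, ⟨a1, by linarith, by linarith, b2⟩, fun _ => ⟨a2, b1⟩,
        fun h => absurd hj h⟩
    · obtain ⟨lo, m1, a1, a2⟩ := hΓ (some j) (u j - θ) (u j) (by linarith)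
      obtain ⟨hi, m2, b1, b2⟩ := hΓ (some j) (u j) (u j + θ) (by linarith)
      exact ⟨lo, m1, hi, m2, ⟨by linarith, a2, b1, by linarith⟩, fun h => absurd h hj,
        fun _ => ⟨a1, b2⟩⟩
  choose lo mlo hi mhi k1 k2 k3 using key
  refine ⟨lo, hi, fun j => ?_, fun j => ⟨(k1 j).2.1, (k1 j).2.2.1⟩, fun r hr => ?_,
    fun a ha hf => ?_, fun i hi' a ha h => ?_⟩
  · obtain ⟨a1, a2, a3, a4⟩ := k1 j
    have := h1 j
    have := (hu j).2
    refine ⟨Or.inl (mlo j), ?_, ?_, fun γ hγ => ?_⟩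
    · exact_mod_cast (show (0 : ℝ) ≤ lo j by linarith)
    · exact_mod_cast (show (lo j : ℝ) < 2 by linarith)
    · obtain rfl : hi j = γ := WithTop.coe_injective hγ
      refine ⟨mhi j, ?_, ?_⟩
      · exact_mod_cast (show (0 : ℝ) ≤ hi j by linarith)
      · exact_mod_cast (show (hi j : ℝ) < 2 by linarith)
  · refine (dist_pi_lt_iff hρ).2 fun j => ?_
    obtain ⟨a1, a2, a3, a4⟩ := k1 j
    have b1 := (hr j).1
    have b2 := (hr j).2 (hi j) rfl
    rw [Real.dist_eq, abs_lt]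
    constructor <;> linarith
  · have b : (1 : ℝ) < ∑ j, (a j : ℝ) * lo j := by
      have c1 : ∑ j, (a j : ℝ) * (u j - l) ≤ ∑ j, (a j : ℝ) * lo j :=
        Finset.sum_le_sum fun j _ => mul_le_mul_of_nonneg_left (k1 j).1.le (Nat.cast_nonneg _)
      have c2 : ∑ j, (a j : ℝ) * (u j - l) = dr a u - (∑ j, (a j : ℝ)) * l := by
        simp only [dr, mul_sub, Finset.sum_sub_distrib, Finset.sum_mul]
      have c3 := h2 a ha hf
      have c4 := mul_le_mul_of_nonneg_right (hBa a ha) h0.le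
      linarith
    simp only [vec]
    exact_mod_cast b
  · obtain ⟨e, z⟩ := hD.eq_one ha hi' h
    obtain ⟨haA, hd⟩ := Finset.mem_filter.1 ha
    have d1 : u i + ∑ j ∈ ({i}ᶜ : Finset σ), (a j : ℝ) * u j = 1 := by
      rw [← hd, dr, ← Finset.sum_add_sum_compl {i}, Finset.sum_singleton, e]
      simp
    have d2 : ∑ j ∈ ({i}ᶜ : Finset σ), (a j : ℝ) * θ ≤ l / 4 := by
      rw [← Finset.sum_mul, ← θB]
      refine mul_le_mul_of_nonneg_right (le_trans ?_ (hBa a haA)) θ0.le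
      exact Finset.sum_le_sum_of_subset_of_nonneg (Finset.subset_univ _)
        fun _ _ _ => Nat.cast_nonneg _
    have d3 : ∀ j ∈ ({i}ᶜ : Finset σ), (a j : ℝ) * hi j ≤ a j * u j + a j * θ ∧
        (a j : ℝ) * u j - a j * θ ≤ a j * lo j := by
      intro j hj
      by_cases hjD : j ∈ D
      · have : a j = 0 := z j hjD (by simpa using hj)
        simp [this]
      · rw [← mul_add, ← mul_sub]
        exact ⟨mul_le_mul_of_nonneg_left (k3 j hjD).2.le (Nat.cast_nonneg _),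
          mul_le_mul_of_nonneg_left (k3 j hjD).1.le (Nat.cast_nonneg _)⟩
    have d4 := Finset.sum_le_sum fun j hj => (d3 j hj).1
    have d5 := Finset.sum_le_sum fun j hj => (d3 j hj).2
    rw [Finset.sum_add_distrib] at d4
    rw [Finset.sum_sub_distrib] at d5
    obtain ⟨f1, f2⟩ := k2 i hi'
    have g1 : (lo i : ℝ) + ∑ j ∈ ({i}ᶜ : Finset σ), (a j : ℝ) * hi j < 1 := by linarith
    have g2 : 1 < (hi i : ℝ) + ∑ j ∈ ({i}ᶜ : Finset σ), (a j : ℝ) * lo j := by linarith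
    simp only [vec]
    exact ⟨by exact_mod_cast g1, by exact_mod_cast g2⟩

end Pool.Agent.P.MP_9321be_ag.ND
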