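import Pool.Agent.P.MP_9321be_ag.ND.ZBasic

/-!
The covering argument.
-/

namespace Pool.Agent.P.MP_9321be_ag.ND

open MvPolynomial

namespace Cover

variable {σ : Type} [Fintype σ] [DecidableEq σ]

theorem sum_compl {Y : Finset (σ →₀ ℕ)} {S : Finset σ} (h : Indep Y S) {a : σ →₀ ℕ} (ha : a ∈ Y)
    {i : σ} (hi : i ∈ S) (h0 : a i ≠ 0) (w : σ → ℚ) :
    ∑ j ∈ Sᶜ, vec a j * w j = ∑ j ∈ {i}ᶜ, vec a j * w j := by
  refine Finset.sum_subset (Finset.compl_subset_compl.mpr (by simpa using hi)) fun j h1 h2 => ?_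
  have h3 : j ∈ S := by simpa using h2
  have h4 : j ≠ i := by simpa using h1
  simp [vec, (h.eq_one ha hi h0).2 j h3 h4]

omit [Fintype σ] [DecidableEq σ] in
theorem sum_mono (s : Finset σ) (a : σ →₀ ℕ) {w w' : σ → ℚ} (h : ∀ j, w j ≤ w' j) :
    ∑ j ∈ s, vec a j * w j ≤ ∑ j ∈ s, vec a j * w' j :=
  Finset.sum_le_sum fun j _ => mul_le_mul_of_nonneg_left (h j) (Nat.cast_nonneg _)

end Cover

open Cover in
theorem t_Cover : S_Kc → S_Lab → S_Boxes → S_IE → S_Box → S_Inter → S_Cover := by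
  intro hKc hLab hBoxes hIE hBox hInter σ _ _ f α Γ hctx hHB
  classical
  obtain ⟨hcomp, hK⟩ := hKc σ f.support α
  obtain ⟨D, ρ, hρ, hD, hS⟩ := hLab σ f.support α hcomp hHB
  choose lo hi h1 h2 h3 h4 h5 using fun u : Kset f.support α =>
    hBoxes σ f.support Γ u (D u) ρ hctx.dns hρ
      (fun i => ⟨(hK u u.2).2.2 hctx.conv i, (hK u u.2).2.1 i⟩) u.2.2.1 (hD u u.2)
  obtain ⟨T, hT⟩ := hcomp.elim_finite_subcover
    (fun u : Kset f.support α => {r : σ → ℝ | ∀ j, (lo u j : ℝ) < r j ∧ r j < hi u j})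
    (fun u => by
      rw [Set.ofPred_forall]
      exact isOpen_iInter_of_finite fun j =>
        (isOpen_lt continuous_const (continuous_apply j)).inter
          (isOpen_lt (continuous_apply j) continuous_const))
    (fun u hu => Set.mem_iUnion.mpr ⟨⟨u, hu⟩, h2 ⟨u, hu⟩⟩)
  refine hIE σ f α Γ (Kset f.support α) _ T lo hi
    (fun lo' hi' hb hd => (hBox σ f α Γ lo' hi' 0 hctx hb).1 hd) (fun k _ => h1 k)
    (fun u hu => by simpa using hT hu) fun T' _ hne => ?_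
  let lo' : σ → ℚ := fun j => T'.sup' hne fun k => lo k j
  let hi' : σ → ℚ := fun j => T'.inf' hne fun k => hi k j
  have e1 : ∀ j, ∃ k ∈ T', lo' j = lo k j := fun j => T'.exists_mem_eq_sup' hne _
  have e2 : ∀ j, ∃ k ∈ T', hi' j = hi k j := fun j => T'.exists_mem_eq_inf' hne _
  have l1 : ∀ k ∈ T', ∀ j, lo k j ≤ lo' j := fun k hk j => T'.le_sup' (fun k => lo k j) hk
  have l2 : ∀ k ∈ T', ∀ j, hi' j ≤ hi k j := fun k hk j => T'.inf'_le (fun k => hi k j) hk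
  have he : (fun l (x : σ → TR (2 * l)) =>
      ∀ k ∈ T', inBox (lo k) (fun j => (hi k j : WithTop ℚ)) l x) =
      inBox lo' fun j => (hi' j : WithTop ℚ) := by
    funext l x
    refine propext ⟨fun h j => ⟨?_, fun γ hγ => ?_⟩, fun h k hk j => ⟨?_, fun γ hγ => ?_⟩⟩
    · obtain ⟨k, hk, e⟩ := e1 j
      rw [e]; exact (h k hk j).1
    · obtain ⟨k, hk, e⟩ := e2 j
      exact (h k hk j).2 γ (by rw [← hγ]; exact congrArg _ e.symm)
    · exact (pow_dvd_pow _ (th_mono (l1 k hk j) l)).trans (h j).1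
    · have e : hi k j = γ := WithTop.coe_injective hγ
      exact fun hd => (h j).2 (hi' j) rfl
        ((pow_dvd_pow _ (th_mono (e ▸ l2 k hk j) l)).trans hd)
  rw [he]
  have hb : BoxOK Γ lo' fun j => (hi' j : WithTop ℚ) := by
    intro j
    obtain ⟨k, -, e⟩ := e1 j
    obtain ⟨k', -, e'⟩ := e2 j
    refine ⟨e ▸ (h1 k j).1, e ▸ (h1 k j).2.1, e ▸ (h1 k j).2.2.1, fun γ hγ => ?_⟩
    exact (h1 k' j).2.2.2 γ (by rw [← hγ]; exact congrArg _ e'.symm)
  by_cases hd : Disjoint (clBox lo' fun j => (hi' j : WithTop ℚ)) (Kset f.support α)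
  · exact (hBox σ f α Γ _ _ 0 hctx hb).1 hd
  obtain ⟨r, hr, hrK⟩ := Set.not_disjoint_iff.mp hd
  have r1 : ∀ j, (lo' j : ℝ) ≤ r j := fun j => (hr j).1
  have r2 : ∀ j, r j ≤ (hi' j : ℝ) := fun j => (hr j).2 _ rfl
  obtain ⟨S, hSr⟩ := hS r
  have hSk : ∀ k ∈ T', S ⊆ D k ∧ Valid (fr f.support k) S := fun k hk =>
    hSr k k.2 (h3 k r fun j => ⟨le_trans (by exact_mod_cast l1 k hk j) (r1 j), fun γ hγ => by
      have e : hi k j = γ := WithTop.coe_injective hγ
      exact (r2 j).trans (by exact_mod_cast e ▸ l2 k hk j)⟩)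
  let Y := f.support.filter fun a => ∀ k ∈ T', a ∈ fr f.support (k : σ → ℝ)
  have hY : ∀ k ∈ T', Y ⊆ fr f.support (k : σ → ℝ) := fun k hk a ha =>
    (Finset.mem_filter.mp ha).2 k hk
  have hval : Valid Y S := by
    obtain ⟨k, hk⟩ := hne
    exact (hSk k hk).2.mono (hY k hk)
  have hout : ∀ a ∈ f.support, a ∉ Y → 1 < ∑ j, vec a j * lo' j := by
    intro a ha haY
    have : ∃ k ∈ T', a ∉ fr f.support (k : σ → ℝ) := by
      by_contra h
      push Not at h
      exact haY (Finset.mem_filter.mpr ⟨ha, h⟩)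
    obtain ⟨k, hk, hak⟩ := this
    exact (h4 k a ha hak).trans_le (sum_mono _ a (l1 k hk))
  refine hInter σ f α Γ lo' hi' Y S hctx hb (fun j => by exact_mod_cast (r1 j).trans (r2 j))
    (Finset.filter_subset _ _) hval hout (fun i hi0 => ?_) fun i hi0 a ha hai => ?_
  · obtain ⟨a, ha, hai⟩ := (hK r hrK).1 i
    obtain ⟨ha1, ha2⟩ := mem_fr.mp ha
    have haY : a ∈ Y := by
      by_contra h
      have h6 : (1 : ℝ) < ∑ j, (a j : ℝ) * lo' j := by
        have := hout a ha1 h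
        unfold vec at this
        exact_mod_cast this
      have h7 : ∑ j, (a j : ℝ) * lo' j ≤ dr a r :=
        Finset.sum_le_sum fun j _ => mul_le_mul_of_nonneg_left (r1 j) (Nat.cast_nonneg _)
      linarith
    refine ⟨a, haY, (hval.1.eq_one haY hi0 hai).1, ?_⟩
    obtain ⟨k, hk, e⟩ := e1 i
    have h6 := (h5 k i ((hSk k hk).1 hi0) a (hY k hk haY) hai).1
    have h7 := sum_mono {i}ᶜ a (l2 k hk)
    rw [sum_compl hval.1 haY hi0 hai, e]
    linarith
  · have hai' : a i ≠ 0 := by omega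
    obtain ⟨k, hk, e⟩ := e2 i
    have h6 := (h5 k i ((hSk k hk).1 hi0) a (hY k hk ha) hai').2
    have h7 := sum_mono {i}ᶜ a (l1 k hk)
    rw [sum_compl hval.1 ha hi0 hai', e]
    linarith

end Pool.Agent.P.MP_9321be_ag.ND
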