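import Pool.Agent.P.MP_9321be_ag.ND.ZBasic

/-!
Inclusion and exclusion for boxes.
-/

namespace Pool.Agent.P.MP_9321be_ag.ND

open MvPolynomial Set

set_option linter.unusedSectionVars false

namespace IE

variable {σ : Type} [Fintype σ] [DecidableEq σ] {f : MvPolynomial σ ℂ} {α : ℚ}
  {Γ : Option σ → Set ℚ}

theorem good_congr {W W' : ∀ l : ℕ, (σ → TR (2 * l)) → Prop} (h : Good α (Zs f W))
    (e : ∀ l x, W' l x ↔ W l x) : Good α (Zs f W') := by
  rwa [Zs_congr f fun l x _ _ _ => e l x]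

theorem union {ι : Type} {N : ι → ∀ l : ℕ, (σ → TR (2 * l)) → Prop} (hN : ∀ k, CW (N k))
    (T : Finset ι) : ∀ W, CW W →
    (∀ T' ⊆ T, T'.Nonempty → Good α (Zs f fun l x => W l x ∧ ∀ k ∈ T', N k l x)) →
    Good α (Zs f fun l x => W l x ∧ ∀ k ∈ T, ¬ N k l x) → Good α (Zs f W) := by
  classical
  induction T using Finset.induction_on with
  | empty => exact fun W _ _ h => good_congr h (by simp)
  | insert k T _ ih =>
    intro W hW h1 h2
    rw [Zs_split f hW (hN k)]
    refine (good_congr (h1 {k} (by simp) (by simp)) (by simp)).add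
      (ih _ (hW.and (hN k).not) (fun T' h3 h4 => ?_) (good_congr h2 (by simp [and_assoc])))
    have e := Zs_split f (hW.and (cw_forall T' fun i _ => hN i)) (hN k)
    have g1 := h1 T' (h3.trans (Finset.subset_insert _ _)) h4
    have g2 : Good α (Zs f fun l x => (W l x ∧ ∀ i ∈ T', N i l x) ∧ N k l x) :=
      good_congr (h1 (insert k T') (Finset.insert_subset_insert _ h3) (by simp)) fun l x => by
        simp only [Finset.forall_mem_insert]; tauto
    have g3 := g1.sub g2
    rw [e, add_sub_cancel_left] at g3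
    exact good_congr g3 fun l x => by tauto

theorem dvd_mono {γ γ' : ℚ} (h : γ ≤ γ') {l : ℕ} {y : TR (2 * l)}
    (hy : tt (2 * l) ^ th γ' l ∣ y) : tt (2 * l) ^ th γ l ∣ y :=
  (pow_dvd_pow _ (th_mono h l)).trans hy

theorem inBox_mono {lo lo' : σ → ℚ} {hi hi' : σ → WithTop ℚ} (h1 : ∀ j, lo j ≤ lo' j)
    (h2 : ∀ j, hi' j ≤ hi j) {l : ℕ} {x : σ → TR (2 * l)} (h : inBox lo' hi' l x) :
    inBox lo hi l x := fun j => ⟨dvd_mono (h1 j) (h j).1, fun γ e hd => by
      obtain ⟨δ, h3, h4⟩ := WithTop.le_coe_iff.1 (e ▸ h2 j)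
      exact (h j).2 δ h3 (dvd_mono h4 hd)⟩

theorem inBox_up (lo : σ → ℚ) (hi : σ → WithTop ℚ) (j : σ) (γ : ℚ) (l : ℕ)
    (x : σ → TR (2 * l)) : inBox lo hi l x ∧ tt (2 * l) ^ th γ l ∣ x j ↔
      inBox (Function.update lo j (max (lo j) γ)) hi l x := by
  refine ⟨fun h i => ⟨?_, (h.1 i).2⟩, fun h => ⟨inBox_mono (fun i => ?_) (fun _ => le_rfl) h,
    dvd_mono (le_max_right (lo j) γ) (by simpa using (h j).1)⟩⟩
  · by_cases e : i = j
    · subst e
      rw [Function.update_self]
      rcases max_choice (lo i) γ with e | e <;> rw [e]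
      exacts [(h.1 i).1, h.2]
    · rw [Function.update_of_ne e]; exact (h.1 i).1
  · by_cases e : i = j
    · subst e; simp
    · simp [e]

theorem inBox_down (lo : σ → ℚ) (hi : σ → WithTop ℚ) (j : σ) (γ : ℚ) (l : ℕ)
    (x : σ → TR (2 * l)) : inBox lo hi l x ∧ ¬ tt (2 * l) ^ th γ l ∣ x j ↔
      inBox lo (Function.update hi j (min (hi j) γ)) l x := by
  refine ⟨fun h i => ⟨(h.1 i).1, ?_⟩, fun h => ⟨inBox_mono (fun _ => le_rfl) (fun i => ?_) h,
    fun hd => ?_⟩⟩
  · by_cases e : i = j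
    · subst e
      rw [Function.update_self]
      rcases min_choice (hi i) γ with e | e <;> rw [e]
      · exact (h.1 i).2
      · intro δ e'
        cases e'
        exact h.2
    · rw [Function.update_of_ne e]; exact (h.1 i).2
  · by_cases e : i = j
    · subst e; simp
    · simp [e]
  · obtain ⟨δ, h3, h4⟩ := WithTop.le_coe_iff.1 (min_le_right (hi j) (γ : WithTop ℚ))
    exact (h j).2 δ (by rw [Function.update_self, h3]) (dvd_mono h4 hd)

theorem split {W : ∀ l : ℕ, (σ → TR (2 * l)) → Prop} (hW : CW W) (P : Finset (σ × ℚ))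
    (hP : ∀ w ∈ P, (w.2 ∈ Γ (some w.1) ∨ w.2 = 0) ∧ 0 ≤ w.2 ∧ w.2 < 2) :
    ∀ lo hi, BoxOK Γ lo hi → (∀ lo' hi', BoxOK Γ lo' hi' → (∀ j, lo j ≤ lo' j) →
      (∀ j, hi' j ≤ hi j) → (∀ w ∈ P, w.2 ≤ lo' w.1 ∨ hi' w.1 ≤ w.2) →
      Good α (Zs f fun l x => inBox lo' hi' l x ∧ W l x)) →
    Good α (Zs f fun l x => inBox lo hi l x ∧ W l x) := by
  induction P using Finset.induction_on with
  | empty => exact fun lo hi h H => H lo hi h (fun _ => le_rfl) (fun _ => le_rfl) (by simp)
  | insert w P _ ih =>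
    intro lo hi h H
    obtain ⟨j, γ⟩ := w
    have key : ∀ lo' hi', BoxOK Γ lo' hi' → (∀ j, lo j ≤ lo' j) → (∀ j, hi' j ≤ hi j) →
        (γ ≤ lo' j ∨ hi' j ≤ γ) → Good α (Zs f fun l x => inBox lo' hi' l x ∧ W l x) :=
      fun lo' hi' h1 h2 h3 h4 => ih (fun w hw => hP w (Finset.mem_insert_of_mem hw)) lo' hi' h1
        fun lo'' hi'' g1 g2 g3 g4 => H lo'' hi'' g1 (fun i => (h2 i).trans (g2 i))
          (fun i => (g3 i).trans (h3 i)) (Finset.forall_mem_insert _ _ _ |>.2
            ⟨h4.imp (fun e => e.trans (g2 j)) fun e => (g3 j).trans e, g4⟩)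
    obtain ⟨h1 | h1, h2, h3⟩ := hP _ (Finset.mem_insert_self _ _)
    · rw [Zs_split f ((cw_inBox lo hi).and hW) (cw_dvd j γ)]
      refine (good_congr (key (Function.update lo j (max (lo j) γ)) hi (fun i => ?_)
        (fun i => ?_) (fun _ => le_rfl) (Or.inl (by simp))) fun l x => ?_).add
        (good_congr (key lo (Function.update hi j (min (hi j) γ)) (fun i => ?_) (fun _ => le_rfl)
        (fun i => ?_) (Or.inr (by simp))) fun l x => ?_)
      · by_cases e : i = j
        · subst e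
          rw [Function.update_self]
          rcases max_choice (lo i) γ with e | e <;> rw [e]
          exacts [h i, ⟨Or.inl h1, h2, h3, (h i).2.2.2⟩]
        · rw [Function.update_of_ne e]; exact h i
      · by_cases e : i = j
        · subst e; simp
        · simp [e]
      · rw [← inBox_up]; tauto
      · by_cases e : i = j
        · subst e
          rw [Function.update_self]
          rcases min_choice (hi i) γ with e | e <;> rw [e]
          · exact h i
          · refine ⟨(h i).1, (h i).2.1, (h i).2.2.1, fun δ e' => ?_⟩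
            cases e'
            exact ⟨h1, h2, h3⟩
        · rw [Function.update_of_ne e]; exact h i
      · by_cases e : i = j
        · subst e; simp
        · simp [e]
      · rw [← inBox_down]; tauto
    · exact key lo hi h (fun _ => le_rfl) (fun _ => le_rfl) (Or.inl (h1.trans_le (h j).2.1))

end IE

open IE in
theorem t_IE : S_IE := by
  classical
  intro σ _ _ f α Γ K ι T lo hi H0 H1 H2 H3
  have hN : ∀ k, CW (inBox (lo k) fun j => (hi k j : WithTop ℚ)) := fun k => cw_inBox _ _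
  refine union hN T _ (cw_const True) (fun T' h1 h2 => good_congr (H3 T' h1 h2) (by simp)) ?_
  refine good_congr (split (Γ := Γ) (cw_forall T fun k _ => (hN k).not)
    (((T ×ˢ Finset.univ).image fun p : ι × σ => (p.2, lo p.1 p.2)) ∪
      (T ×ˢ Finset.univ).image fun p : ι × σ => (p.2, hi p.1 p.2)) (fun w hw => ?_)
    (fun _ => 0) (fun _ => ⊤) (fun j => by simp) fun lo' hi' h1 _ _ h2 => ?_)
    fun l x => by simp [inBox, th]
  · rcases Finset.mem_union.1 hw with hw | hw <;> obtain ⟨p, h1, rfl⟩ := Finset.mem_image.1 hw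
    · have := H1 _ (Finset.mem_product.1 h1).1 p.2
      exact ⟨this.1, this.2.1, this.2.2.1⟩
    · have := (H1 _ (Finset.mem_product.1 h1).1 p.2).2.2.2 _ rfl
      exact ⟨Or.inl this.1, this.2⟩
  · by_cases h : ∃ k ∈ T, ∀ j, lo k j ≤ lo' j ∧ hi' j ≤ hi k j
    · obtain ⟨k, h3, h4⟩ := h
      refine good_congr (W := fun _ _ => False) (by rw [Zs_false]; exact rt_zero) fun l x =>
        iff_false_intro fun h => h.2 k h3 (inBox_mono (fun j => (h4 j).1) (fun j => (h4 j).2) h.1)
    · have h3 : ∀ k ∈ T, ∃ j, hi' j ≤ lo k j ∨ hi k j ≤ lo' j := fun k hk => by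
        by_contra h4
        push Not at h4
        refine h ⟨k, hk, fun j => ⟨(h2 (j, lo k j) ?_).resolve_right (h4 j).1.not_ge,
          (h2 (j, hi k j) ?_).resolve_left (h4 j).2.not_ge⟩⟩
        · exact Finset.mem_union_left _ (Finset.mem_image.2 ⟨(k, j), by simp [hk], rfl⟩)
        · exact Finset.mem_union_right _ (Finset.mem_image.2 ⟨(k, j), by simp [hk], rfl⟩)
      refine good_congr (H0 lo' hi' h1 (disjoint_left.2 fun u h4 h5 => ?_)) fun l x =>
        and_iff_left_of_imp fun h4 k hk h5 => ?_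
      · obtain ⟨k, hk, h6⟩ := H2 u h5
        obtain ⟨j, h7 | h7⟩ := h3 k hk
        · obtain ⟨δ, h8, h9⟩ := WithTop.le_coe_iff.1 h7
          have h10 : (δ : ℝ) ≤ lo k j := by exact_mod_cast h9
          linarith [(h4 j).2 δ h8, (h6 j).1]
        · have h10 : (hi k j : ℝ) ≤ lo' j := by exact_mod_cast h7
          linarith [(h4 j).1, (h6 j).2]
      · obtain ⟨j, h7 | h7⟩ := h3 k hk
        · obtain ⟨δ, h8, h9⟩ := WithTop.le_coe_iff.1 h7
          exact (h4 j).2 δ h8 (dvd_mono h9 (h5 j).1)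
        · exact (h5 j).2 _ rfl (dvd_mono h7 (h4 j).1)

end Pool.Agent.P.MP_9321be_ag.ND
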