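import Pool.Agent.P.MP_9321be_ag.ND.ZBasic

/-!
The upper part of a cylinder in the directions of a valid set.
-/

namespace Pool.Agent.P.MP_9321be_ag.ND

open MvPolynomial

namespace Cyl

variable {σ : Type} [Fintype σ] [DecidableEq σ]

theorem prod_one' {β : Type} [CommMonoid β] {Y : Finset (σ →₀ ℕ)} {S : Finset σ} (h : Indep Y S)
    {a : σ →₀ ℕ} (ha : a ∈ Y) {i : σ} (hi : i ∈ S) (h0 : a i ≠ 0) (g : σ → ℕ → β)
    (hg : ∀ j, g j 0 = 1) : ∏ j, g j (a j) = g i 1 * ∏ j ∈ Sᶜ, g j (a j) := by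
  obtain ⟨h1, h2⟩ := h.eq_one ha hi h0
  rw [← Finset.prod_mul_prod_compl S, Finset.prod_eq_single_of_mem i hi
    fun j hj hne => by rw [h2 j hj hne, hg], h1]

theorem prod_zero' {β : Type} [CommMonoid β] {S : Finset σ} {a : σ →₀ ℕ} (h : ∀ i ∈ S, a i = 0)
    (g : σ → ℕ → β) (hg : ∀ j, g j 0 = 1) : ∏ j, g j (a j) = ∏ j ∈ Sᶜ, g j (a j) := by
  rw [← Finset.prod_mul_prod_compl S, Finset.prod_eq_one fun j hj => by rw [h j hj, hg], one_mul]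

theorem sum_one {β : Type} [AddCommMonoid β] {Y : Finset (σ →₀ ℕ)} {S : Finset σ} (h : Indep Y S)
    {a : σ →₀ ℕ} (ha : a ∈ Y) {i : σ} (hi : i ∈ S) (h0 : a i ≠ 0) (g : σ → ℕ → β)
    (hg : ∀ j, g j 0 = 0) : ∑ j, g j (a j) = g i 1 + ∑ j ∈ Sᶜ, g j (a j) :=
  prod_one' (β := Multiplicative β) h ha hi h0 g hg

theorem sum_zero {β : Type} [AddCommMonoid β] {S : Finset σ} {a : σ →₀ ℕ} (h : ∀ i ∈ S, a i = 0)
    (g : σ → ℕ → β) (hg : ∀ j, g j 0 = 0) : ∑ j, g j (a j) = ∑ j ∈ Sᶜ, g j (a j) :=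
  prod_zero' (β := Multiplicative β) h g hg

theorem dn_one {Y : Finset (σ →₀ ℕ)} {S : Finset σ} (h : Indep Y S)
    {a : σ →₀ ℕ} (ha : a ∈ Y) {i : σ} (hi : i ∈ S) (h0 : a i ≠ 0) (w : σ → ℕ) :
    dn a w = w i + ∑ j ∈ Sᶜ, a j * w j := by
  simpa [dn] using sum_one h ha hi h0 (fun j k => k * w j) (by simp)

/-- The lattice points indexing the cells. -/
def V (A Y : Finset (σ →₀ ℕ)) (S : Finset σ) (lo hi c : σ → ℚ) (θ : ℚ) (l : ℕ) : Set (σ → ℕ) :=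
  {v | Walls (fun o => o.elim θ fun j => if j ∈ S then 0 else lo j)
    (fun o => o.elim θ fun j => if j ∈ S then c j else hi j) (fun o => o.elim 1 fun _ => 0) l v
    (nn A v) ∧ fc A v ∈ {F | F ⊆ Y ∧ ∀ i ∈ S, ∃ a ∈ F, a i ≠ 0}}

theorem mem_V {A Y : Finset (σ →₀ ℕ)} {S : Finset σ} {lo hi c : σ → ℚ} {θ : ℚ} (h0 : 0 < θ)
    {l : ℕ} {v : σ → ℕ} : v ∈ V A Y S lo hi c θ l ↔ (∀ j, 1 ≤ v j) ∧
      (∀ j ∉ S, lo j * l ≤ v j ∧ (v j : ℚ) < hi j * l) ∧ (∀ j ∈ S, (v j : ℚ) < c j * l) ∧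
      nn A v = th θ l ∧ fc A v ⊆ Y ∧ ∀ i ∈ S, ∃ a ∈ fc A v, a i ≠ 0 := by
  have hp : 0 ≤ θ * l := by positivity
  simp only [V, Walls, Option.elim, Set.mem_ofPred_eq, Nat.cast_zero, add_zero, Nat.cast_one]
  constructor
  · rintro ⟨⟨h1, h2, h3⟩, h4⟩
    refine ⟨fun j => (h1 j).1, fun j hj => by simpa [hj] using (h1 j).2,
      fun j hj => by simpa [hj] using (h1 j).2.2, le_antisymm ?_ ((th_le_iff _ _ _).2 h2), h4⟩
    have h5 : θ * l ≤ th θ l := Nat.le_ceil _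
    have : (nn A v : ℚ) < (th θ l + 1 : ℕ) := by push_cast; linarith
    exact Nat.lt_succ_iff.1 (by exact_mod_cast this)
  · rintro ⟨h1, h2, h3, h4, h5⟩
    refine ⟨⟨fun j => ⟨h1 j, ?_⟩, (th_le_iff _ _ _).1 h4.ge, ?_⟩, h5⟩
    · by_cases hj : j ∈ S
      · simpa [hj] using h3 j hj
      · simpa [hj] using h2 j hj
    · rw [h4]; exact Nat.ceil_lt_add_one hp

theorem sum_le_hi {S : Finset σ} {hi : σ → ℚ} {l : ℕ} {v : σ → ℕ} (a : σ →₀ ℕ)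
    (h : ∀ j ∉ S, (v j : ℚ) < hi j * l) :
    ((∑ j ∈ Sᶜ, a j * v j : ℕ) : ℚ) ≤ (∑ j ∈ Sᶜ, vec a j * hi j) * l := by
  rw [Finset.sum_mul]
  push_cast
  exact Finset.sum_le_sum fun j hj => by
    rw [mul_assoc]
    exact mul_le_mul_of_nonneg_left (h j (Finset.mem_compl.1 hj)).le (Nat.cast_nonneg _)

theorem sum_lt_hi {S : Finset σ} {hi : σ → ℚ} {l : ℕ} {v : σ → ℕ} (a : σ →₀ ℕ)
    (h : ∀ j ∉ S, (v j : ℚ) < hi j * l) (h0 : ∑ j ∈ Sᶜ, a j * v j ≠ 0) :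
    ((∑ j ∈ Sᶜ, a j * v j : ℕ) : ℚ) < (∑ j ∈ Sᶜ, vec a j * hi j) * l := by
  obtain ⟨k, hk, h1⟩ := Finset.exists_ne_zero_of_sum_ne_zero h0
  rw [Finset.sum_mul]
  push_cast
  refine Finset.sum_lt_sum (fun j hj => ?_) ⟨k, hk, ?_⟩
  · rw [mul_assoc]
    exact mul_le_mul_of_nonneg_left (h j (Finset.mem_compl.1 hj)).le (Nat.cast_nonneg _)
  · rw [mul_assoc]
    exact mul_lt_mul_of_pos_left (h k (Finset.mem_compl.1 hk))
      (Nat.cast_pos.2 (Nat.pos_of_ne_zero (left_ne_zero_of_mul h1)))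

theorem disj {A Y : Finset (σ →₀ ℕ)} {S : Finset σ} {lo hi c : σ → ℚ} {θ : ℚ} (h0 : 0 < θ)
    (hY : Indep Y S) {l M : ℕ} {v w : σ → ℕ} (hv : v ∈ V A Y S lo hi c θ l)
    (hw : w ∈ V A Y S lo hi c θ l) {x : σ → TR M} (h1 : inCell v S x) (h2 : inCell w S x)
    (i : σ) : v i ≤ w i := by
  have e : ∀ j ∉ S, v j = w j := fun j hj =>
    ordEq.unique ⟨(h1 j).1, (h1 j).2 hj⟩ ⟨(h2 j).1, (h2 j).2 hj⟩
  by_cases hi : i ∈ S
  · obtain ⟨-, -, -, a1, a2, a3⟩ := (mem_V h0).1 hv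
    obtain ⟨-, -, -, b1, -⟩ := (mem_V h0).1 hw
    obtain ⟨a, ha, h3⟩ := a3 i hi
    have h4 := nn_le (mem_fc.1 ha).1 w
    rw [b1, ← a1, ← (mem_fc.1 ha).2, dn_one hY (a2 ha) hi h3, dn_one hY (a2 ha) hi h3,
      Finset.sum_congr rfl fun j hj => by rw [e j (Finset.mem_compl.1 hj)]] at h4
    omega
  · exact (e i hi).le

theorem back {A Y : Finset (σ →₀ ℕ)} {S : Finset σ} {lo hi c : σ → ℚ} {θ : ℚ} (h0 : 0 < θ)
    (hA : Y ⊆ A) (hY : Indep Y S)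
    (hin : ∀ i ∈ S, ∃ a ∈ Y, a i = 1 ∧ lo i + ∑ j ∈ Sᶜ, vec a j * hi j ≤ θ)
    {l : ℕ} {w : σ → ℕ} (hw : w ∈ V A Y S lo hi c θ l) {x : σ → TR (2 * l)} (hx : inCell w S x) :
    (∀ i, tt (2 * l) ∣ x i) ∧
      inBox lo (fun j => if j ∈ S then ⊤ else (hi j : WithTop ℚ)) l x ∧ nGe A θ l x := by
  obtain ⟨a1, a2, -, a4, -⟩ := (mem_V h0).1 hw
  refine ⟨fun i => (dvd_pow_self _ (by have := a1 i; omega)).trans (hx i).1, fun j => ⟨?_, ?_⟩,
    fun a ha => (pow_dvd_pow _ (a4 ▸ nn_le ha w)).trans (prod_dvd _ _ fun i _ => (hx i).1)⟩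
  · refine (pow_dvd_pow _ ((th_le_iff _ _ _).2 ?_)).trans (hx j).1
    by_cases hj : j ∈ S
    · obtain ⟨a, ha, h1, h2⟩ := hin j hj
      have h3 := nn_le (hA ha) w
      rw [a4, dn_one hY ha hj (by omega), th_le_iff, Nat.cast_add] at h3
      have h4 := sum_le_hi a fun j hj => (a2 j hj).2
      have h5 := mul_le_mul_of_nonneg_right h2 (l.cast_nonneg (α := ℚ))
      linarith
    · exact (a2 j hj).1
  · intro γ e
    by_cases hj : j ∈ S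
    · simp [hj] at e
    · simp only [hj, if_false, WithTop.coe_eq_coe] at e
      subst e
      rw [ordEq.dvd_iff ⟨(hx j).1, (hx j).2 hj⟩, not_le, lt_th_iff]
      exact (a2 j hj).2

theorem forth {A Y : Finset (σ →₀ ℕ)} {S : Finset σ} {lo hi c : σ → ℚ} {θ : ℚ} (h0 : 0 < θ)
    (h1 : θ < 1) (hA : Y ⊆ A) (hY : Valid Y S) (hlo : ∀ j, 0 ≤ lo j) (hc : ∀ j, 1 < c j)
    (hout : ∀ a ∈ A, a ∉ Y → 1 < ∑ j, vec a j * lo j)
    (hin : ∀ i ∈ S, ∃ a ∈ Y, a i = 1 ∧ lo i + ∑ j ∈ Sᶜ, vec a j * hi j ≤ θ)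
    {l : ℕ} (hl : l ≠ 0) {x : σ → TR (2 * l)} (ht : ∀ i, tt (2 * l) ∣ x i)
    (hb : inBox lo (fun j => if j ∈ S then ⊤ else (hi j : WithTop ℚ)) l x) (hn : nGe A θ l x) :
    ∃ w ∈ V A Y S lo hi c θ l, inCell w S x := by
  have hl' : (0 : ℚ) < l := Nat.cast_pos.2 (Nat.pos_of_ne_zero hl)
  have hM : th θ l ≤ l := (th_le_iff _ _ _).2 (by nlinarith)
  have hM' : θ * l ≤ th θ l := Nat.le_ceil _
  have ex : ∀ j, ∃ v, j ∉ S → v < th (hi j) l ∧ ordEq v (x j) := fun j => by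
    by_cases hj : j ∈ S
    · exact ⟨0, fun h => (h hj).elim⟩
    · obtain ⟨v, h⟩ := exists_ordEq ((hb j).2 (hi j) (by simp [hj]))
      exact ⟨v, fun _ => h⟩
  choose v hv using ex
  have hv' : ∀ j ∉ S, (v j : ℚ) < hi j * l := fun j hj => (lt_th_iff _ _ _).1 (hv j hj).1
  obtain ⟨s, hs⟩ : ∃ s : (σ →₀ ℕ) → ℕ, ∀ a, s a = ∑ j ∈ Sᶜ, a j * v j := ⟨_, fun _ => rfl⟩
  obtain ⟨w, hw, hw'⟩ : ∃ w : σ → ℕ, (∀ j ∉ S, w j = v j) ∧
      ∀ i ∈ S, w i = (Y.filter fun a => a i ≠ 0).sup fun a => th θ l - s a :=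
    ⟨fun i => if i ∈ S then (Y.filter fun a => a i ≠ 0).sup fun a => th θ l - s a else v i,
      fun j hj => if_neg hj, fun j hj => if_pos hj⟩
  have hsw : ∀ a, ∑ j ∈ Sᶜ, a j * w j = s a := fun a => by
    rw [hs]; exact Finset.sum_congr rfl fun j hj => by rw [hw j (Finset.mem_compl.1 hj)]
  have hu : ∀ a : σ →₀ ℕ, ∃ u, IsUnit u ∧ ∏ j ∈ Sᶜ, x j ^ a j = tt (2 * l) ^ s a * u := fun a => by
    rw [hs]; exact prod_ordEq _ _ fun j hj _ => (hv j (Finset.mem_compl.1 hj)).2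
  have hge : ∀ i ∈ S, ∀ a ∈ Y, a i ≠ 0 → th θ l - s a ≤ w i := fun i hi a ha h => by
    rw [hw' i hi]
    exact Finset.le_sup (f := fun a => th θ l - s a) (Finset.mem_filter.2 ⟨ha, h⟩)
  have hlow : ∀ i, 1 ≤ w i ∧ lo i * l ≤ w i := fun i => by
    by_cases hi : i ∈ S
    · obtain ⟨a, ha, h2, h3⟩ := hin i hi
      have h4 := hge i hi a ha (by omega)
      have h5 := mul_le_mul_of_nonneg_right h3 hl'.le
      have h6 := sum_le_hi a hv'
      have h7 : s a < th θ l := by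
        rw [lt_th_iff, hs]
        by_cases h8 : ∑ j ∈ Sᶜ, a j * v j = 0
        · rw [h8]; positivity
        · have := sum_lt_hi a hv' h8
          nlinarith [mul_nonneg (hlo i) hl'.le]
      have h9 : ((th θ l : ℕ) : ℚ) ≤ (w i + s a : ℕ) := Nat.cast_le.2 (by omega)
      rw [← hs] at h6
      push_cast at h9
      exact ⟨by omega, by linarith⟩
    · rw [hw i hi]
      exact ⟨((hv i hi).2.dvd_iff 1).1 (by simpa using ht i),
        (th_le_iff _ _ _).1 (((hv i hi).2.dvd_iff _).1 (hb i).1)⟩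
  have hatt : ∀ i ∈ S, ∃ a ∈ Y, a i ≠ 0 ∧ dn a w = th θ l := fun i hi => by
    obtain ⟨b, hb, h2, -⟩ := hin i hi
    obtain ⟨a, ha, h3⟩ := Finset.exists_mem_eq_sup (Y.filter fun a => a i ≠ 0)
      ⟨b, Finset.mem_filter.2 ⟨hb, by omega⟩⟩ fun a => th θ l - s a
    obtain ⟨h4, h5⟩ := Finset.mem_filter.1 ha
    refine ⟨a, h4, h5, ?_⟩
    rw [dn_one hY.1 h4 hi h5, hsw]
    rw [← hw' i hi] at h3
    have := (hlow i).1
    omega
  have hbig : ∀ a ∈ A, a ∉ Y → th θ l < dn a w := fun a ha h => by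
    have h2 := mul_lt_mul_of_pos_right (hout a ha h) hl'
    have h3 : (∑ j, vec a j * lo j) * l ≤ (dn a w : ℕ) := by
      rw [Finset.sum_mul, dn]
      push_cast
      exact Finset.sum_le_sum fun j _ => by
        rw [mul_assoc]
        exact mul_le_mul_of_nonneg_left (hlow j).2 (Nat.cast_nonneg _)
    have : (l : ℚ) < (dn a w : ℕ) := by linarith
    exact hM.trans_lt (Nat.cast_lt.1 this)
  have hnn : nn A w = th θ l := by
    obtain ⟨i, hi⟩ := hY.nonempty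
    obtain ⟨b, h2, -, h3⟩ := hatt i hi
    refine nn_eq (fun a ha => ?_) ⟨b, hA h2, h3⟩
    by_cases h : a ∈ Y
    · by_cases h4 : ∀ i ∈ S, a i = 0
      · obtain ⟨u, h5, h6⟩ := hu a
        have h7 := hn a ha
        rw [prod_zero' h4 (fun j k => x j ^ k) (by simp), h6, h5.dvd_mul_right,
          tt_pow_dvd_iff (by omega)] at h7
        rwa [dn, sum_zero h4 (fun j k => k * w j) (by simp), hsw]
      · push Not at h4
        obtain ⟨i, hi, h4⟩ := h4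
        have := hge i hi a h h4
        rw [dn_one hY.1 h hi h4, hsw]
        omega
    · exact (hbig a ha h).le
  refine ⟨w, (mem_V h0).2 ⟨fun j => (hlow j).1, fun j hj => ⟨(hlow j).2, hw j hj ▸ hv' j hj⟩,
    fun j hj => ?_, hnn, fun a ha => ?_, fun i hi => ?_⟩, fun i => ?_⟩
  · have h2 : w j ≤ l := by
      rw [hw' j hj]
      exact Finset.sup_le fun a _ => by omega
    have h3 : (w j : ℚ) ≤ l := Nat.cast_le.2 h2
    nlinarith [hc j]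
  · by_contra h
    have := hbig a (mem_fc.1 ha).1 h
    rw [(mem_fc.1 ha).2, hnn] at this
    exact lt_irrefl _ this
  · obtain ⟨a, h2, h3, h4⟩ := hatt i hi
    exact ⟨a, mem_fc.2 ⟨hA h2, h4.trans hnn.symm⟩, h3⟩
  · by_cases hi : i ∈ S
    · refine ⟨?_, fun h => (h hi).elim⟩
      obtain ⟨a, h2, h3, h4⟩ := hatt i hi
      obtain ⟨u, h5, h6⟩ := hu a
      have h7 := hn a (hA h2)
      rw [dn_one hY.1 h2 hi h3, hsw] at h4
      rw [prod_one' hY.1 h2 hi h3 (fun j k => x j ^ k) (by simp), h6, ← mul_assoc,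
        h5.dvd_mul_right, pow_one, mul_comm (x i), ← h4, add_comm, cancel (by omega)] at h7
      exact h7
    · rw [hw i hi]
      exact ⟨(hv i hi).2.1, fun _ => (hv i hi).2.2⟩

end Cyl

theorem t_Cyl : S_Hensel → S_Ser → S_Smooth → S_Cyl := by
  intro hH hS hSm σ _ _ f α Γ lo hi θ Y S ctx hbox hθ h0 h1 hA hY hout hin
  have ex : ∀ j, ∃ c ∈ Γ (some j), 1 < c ∧ c < 2 := fun j => by
    obtain ⟨c, h2, h3, h4⟩ := ctx.dns (some j) 1 2 (by norm_num)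
    exact ⟨c, h2, by exact_mod_cast h3, by exact_mod_cast h4⟩
  choose c hc hc1 hc2 using ex
  have key := hS σ f α Γ S {F | F ⊆ Y ∧ ∀ i ∈ S, ∃ a ∈ F, a i ≠ 0}
    (fun o => o.elim θ fun j => if j ∈ S then 0 else lo j)
    (fun o => o.elim θ fun j => if j ∈ S then c j else hi j) (fun o => o.elim 1 fun _ => 0)
    ctx.conv ctx.gen ⟨fun j => ?_, Or.inl hθ, Or.inl hθ, h0.le⟩
    fun _ _ _ _ h => absurd h (not_le.2 h1)
  · refine key.congr_ev (l₀ := 1) fun l hl => ?_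
    have hl' : l ≠ 0 := by omega
    have hfin : (Cyl.V f.support Y S lo hi c θ l).Finite :=
      (walls_finite (fun o => o.elim θ fun j => if j ∈ S then 0 else lo j)
        (fun o => o.elim θ fun j => if j ∈ S then c j else hi j) (fun o => o.elim 1 fun _ => 0) l
        (nn f.support)).subset fun _ h => h.1
    rw [PowerSeries.coeff_mk]
    refine (coeff_Zs_cells f hl' S hfin
      (fun x _ => ⟨fun h => Cyl.forth h0 h1 hA hY (fun j => (hbox j).2.1) hc1 hout hin hl' h.1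
        h.2.1 h.2.2, fun ⟨w, h2, h3⟩ => Cyl.back h0 hA hY.1 hin h2 h3⟩)
      fun v hv w hw x h2 h3 => funext fun i =>
        le_antisymm (Cyl.disj h0 hY.1 hv hw h2 h3 i) (Cyl.disj h0 hY.1 hw hv h3 h2 i)).trans ?_
    refine finsum_mem_congr rfl fun v hv => ?_
    obtain ⟨a1, a2, a3, -, a5, a6⟩ := (Cyl.mem_V h0).1 hv
    refine hH σ f (2 * l) l v S (by omega) (fun i => ?_)
      fun _ => hSm σ f Y S v ctx.nd a1 hY a5 a6
    have h2 : (0 : ℚ) ≤ l := l.cast_nonneg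
    have : (v i : ℚ) ≤ (2 * l : ℕ) := by
      push_cast
      by_cases h : i ∈ S
      · nlinarith [a3 i h, hc2 i]
      · nlinarith [(a2 i h).2, ((hbox i).2.2.2 _ rfl).2.2]
    exact Nat.cast_le.1 this
  · by_cases h : j ∈ S
    · simpa [h] using hc j
    · simpa [h] using ⟨(hbox j).1, ((hbox j).2.2.2 _ rfl).1⟩

end Pool.Agent.P.MP_9321be_ag.ND
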