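import Pool.Agent.P.MP_9321be_ag.ND.ZBasic

/-!
Boxes that are long in the directions of a valid set.
-/

namespace Pool.Agent.P.MP_9321be_ag.ND

open MvPolynomial

namespace Inter

variable {σ : Type} [Fintype σ] [DecidableEq σ]

/-- Remove the upper walls in the directions of `S`. -/
def up (hi : σ → ℚ) (S : Finset σ) : σ → WithTop ℚ :=
  fun j => if j ∈ S then ⊤ else (hi j : WithTop ℚ)

omit [Fintype σ] in
theorem up_eq {hi : σ → ℚ} {S : Finset σ} {j : σ} {γ : ℚ} :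
    up hi S j = γ ↔ j ∉ S ∧ hi j = γ := by
  unfold up
  split_ifs with h <;> simp [h]

omit [Fintype σ] in
theorem ok_up {Γ : Option σ → Set ℚ} {lo hi : σ → ℚ}
    (h : BoxOK Γ lo fun j => (hi j : WithTop ℚ)) (S : Finset σ) : BoxOK Γ lo (up hi S) :=
  fun j => ⟨(h j).1, (h j).2.1, (h j).2.2.1, fun γ e =>
    (h j).2.2.2 γ (congrArg _ (up_eq.1 e).2)⟩

omit [Fintype σ] in
theorem ok_upd {Γ : Option σ → Set ℚ} {lo hi : σ → ℚ}
    (h : BoxOK Γ lo fun j => (hi j : WithTop ℚ)) (S : Finset σ) (i : σ) :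
    BoxOK Γ (Function.update lo i (hi i)) (up hi S) := fun j => by
  by_cases hj : j = i
  · subst hj
    rw [Function.update_self]
    have := (h j).2.2.2 _ rfl
    exact ⟨Or.inl this.1, this.2.1, this.2.2, (ok_up h S j).2.2.2⟩
  · rw [Function.update_of_ne hj]
    exact ok_up h S j

theorem split (f : MvPolynomial σ ℂ) {lo hi : σ → ℚ} (h : ∀ j, lo j ≤ hi j) {S : Finset σ} {i : σ}
    (hi' : i ∉ S) : Zs f (inBox lo (up hi (insert i S))) =
      Zs f (inBox (Function.update lo i (hi i)) (up hi (insert i S))) +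
        Zs f (inBox lo (up hi S)) := by
  rw [Zs_split f (cw_inBox lo _) (cw_dvd i (hi i))]
  congr 1 <;> refine Zs_congr f fun l x _ _ _ => ?_
  · refine ⟨fun ⟨h1, h2⟩ j => ⟨?_, (h1 j).2⟩, fun h1 => ⟨fun j => ⟨?_, (h1 j).2⟩, ?_⟩⟩
    · by_cases hj : j = i
      · rwa [hj, Function.update_self]
      · rw [Function.update_of_ne hj]; exact (h1 j).1
    · have := (h1 j).1
      by_cases hj : j = i
      · rw [hj, Function.update_self] at this
        exact hj ▸ (pow_dvd_pow _ (th_mono (h i) l)).trans this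
      · rwa [Function.update_of_ne hj] at this
    · simpa using (h1 i).1
  · refine ⟨fun ⟨h1, h2⟩ j => ⟨(h1 j).1, fun γ e => ?_⟩,
      fun h1 => ⟨fun j => ⟨(h1 j).1, fun γ e => (h1 j).2 γ ?_⟩, (h1 i).2 _ (up_eq.2 ⟨hi', rfl⟩)⟩⟩
    · obtain ⟨a1, rfl⟩ := up_eq.1 e
      by_cases hj : j = i
      · rwa [hj]
      · exact (h1 j).2 _ (up_eq.2 ⟨by simp [hj, a1], rfl⟩)
    · obtain ⟨a1, a2⟩ := up_eq.1 e
      exact up_eq.2 ⟨fun h => a1 (Finset.mem_insert_of_mem h), a2⟩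

theorem miss (hK : S_Kc) {A Y : Finset (σ →₀ ℕ)} {α : ℚ} {lo hi : σ → ℚ} {S : Finset σ}
    (h : ∀ j, lo j ≤ hi j) (hV : Indep Y S) (h1 : ∀ a ∈ A, a ∉ Y → 1 < ∑ j, vec a j * lo j)
    {i : σ} (hS : i ∈ S) (h2 : ∀ a ∈ Y, a i = 1 → 1 < hi i + ∑ j ∈ Sᶜ, vec a j * lo j)
    (H : σ → WithTop ℚ) : Disjoint (clBox (Function.update lo i (hi i)) H) (Kset A α) := by
  refine Set.disjoint_left.2 fun r hr hr' => ?_
  have a1 : (hi i : ℝ) ≤ r i := by simpa using (hr i).1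
  have a2 : ∀ j, (lo j : ℝ) ≤ r j := fun j => by
    by_cases hj : j = i
    · exact hj ▸ le_trans (by exact_mod_cast h i) a1
    · simpa [hj] using (hr j).1
  have a3 : ∀ (a : σ →₀ ℕ) (T : Finset σ),
      ((∑ j ∈ T, vec a j * lo j : ℚ) : ℝ) ≤ ∑ j ∈ T, (a j : ℝ) * r j := fun a T => by
    push_cast
    exact Finset.sum_le_sum fun j _ => by
      simpa [vec] using mul_le_mul_of_nonneg_left (a2 j) (Nat.cast_nonneg (a j))
  obtain ⟨a, ha, h0⟩ := ((hK σ A α).2 r hr').1 i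
  obtain ⟨b1, b2⟩ := mem_fr.1 ha
  have b3 : a ∈ Y := by_contra fun hY => by
    have : ((1 : ℚ) : ℝ) < ((∑ j, vec a j * lo j : ℚ) : ℝ) := by exact_mod_cast h1 a b1 hY
    exact absurd (this.trans_le ((a3 a _).trans_eq b2)) (by simp)
  obtain ⟨b4, b5⟩ := hV.eq_one b3 hS h0
  have b6 : ((1 : ℚ) : ℝ) < ((hi i + ∑ j ∈ Sᶜ, vec a j * lo j : ℚ) : ℝ) := by
    exact_mod_cast h2 a b3 b4
  rw [dr, ← Finset.sum_add_sum_compl S,
    Finset.sum_eq_single_of_mem i hS fun j hj hne => by simp [b5 j hj hne], b4] at b2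
  have := a3 a Sᶜ
  rw [Rat.cast_add] at b6
  simp only [Rat.cast_one, Nat.cast_one, one_mul] at b2 b6
  linarith

end Inter

theorem t_Inter : S_Box → S_Cyl → S_Kc → S_Inter := by
  intro hB hC hK σ _ _ f α Γ lo hi Y S ctx ok hle hY hV h1 h2 h3
  choose! a ha using h2
  obtain ⟨θ, t1, t2, t3⟩ := ctx.dns none
    ((S.fold max 0 fun i => lo i + ∑ j ∈ Sᶜ, vec (a i) j * hi j : ℚ) : ℝ) 1 (by
      exact_mod_cast (Finset.fold_max_lt _).2 ⟨one_pos, fun i hi => (ha i hi).2.2⟩)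
  replace t3 : θ < 1 := by exact_mod_cast t3
  obtain ⟨t0, t4⟩ := (Finset.fold_max_lt _).1 (Rat.cast_lt.1 t2)
  have top : Good α (Zs f (inBox lo (Inter.up hi S))) := by
    rw [Zs_split f (cw_inBox lo _) (cw_nGe f.support θ)]
    exact (hC σ f α Γ lo hi θ Y S ctx ok t1 t0 t3 hY hV h1 fun i hi =>
      ⟨a i, (ha i hi).1, (ha i hi).2.1, (t4 i hi).le⟩).add
      ((hB σ f α Γ lo _ θ ctx (Inter.ok_up ok S)).2 t1 t3)
  have key : ∀ T : Finset σ, T ⊆ S → Good α (Zs f (inBox lo (Inter.up hi T))) →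
      Good α (Zs f (inBox lo fun j => (hi j : WithTop ℚ))) := by
    intro T
    induction T using Finset.induction_on with
    | empty => exact fun _ h => h
    | insert i T hi' ih =>
      intro hT h
      have hS := hT (Finset.mem_insert_self _ _)
      refine ih ((Finset.subset_insert _ _).trans hT) ?_
      have := h.sub ((hB σ f α Γ _ _ θ ctx (Inter.ok_upd ok (insert i T) i)).1
        (Inter.miss hK hle hV.1 h1 hS (h3 i hS) _))
      rwa [Inter.split f hle hi', add_sub_cancel_left] at this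
  exact key S subset_rfl top

end Pool.Agent.P.MP_9321be_ag.ND
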