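import Pool.Agent.P.MP_9321be_ag.ND.ZBasic

/-!
Smoothness of the initial form in the directions of a valid set.
-/

namespace Pool.Agent.P.MP_9321be_ag.ND

open MvPolynomial

namespace Smooth

variable {σ : Type} [Fintype σ] [DecidableEq σ]

theorem euler (f : MvPolynomial σ ℂ) (F : Finset (σ →₀ ℕ)) (x : σ → ℂ) (j : σ) :
    x j * eval x (pderiv j (fp f F)) = ∑ a ∈ F, (a j : ℂ) * (coeff a f * ∏ i, x i ^ a i) := by
  have h : x j * eval x (pderiv j (fp f F)) = eval x (X j * pderiv j (fp f F)) := by simp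
  rw [h, fp, map_sum, Finset.mul_sum, map_sum]
  refine Finset.sum_congr rfl fun a _ => ?_
  rw [X_mul_pderiv_monomial, map_nsmul, eval_monomial, nsmul_eq_mul,
    Finsupp.prod_fintype _ _ (by simp)]

theorem sub_face {f : MvPolynomial σ ℂ} (hf : Nondeg f) {v : σ → ℕ} (hv : ∀ i, 0 < v i)
    (T : Finset σ) (hne : ((fc f.support v).filter fun a => ∀ i ∈ T, a i = 0).Nonempty)
    (q : σ → ℂ) (hq : ∀ i, q i ≠ 0) :
    ∃ j, ∑ a ∈ (fc f.support v).filter (fun a => ∀ i ∈ T, a i = 0),
      (a j : ℂ) * (coeff a f * ∏ i, q i ^ a i) ≠ 0 := by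
  let w : σ → ℕ := fun i => v i + if i ∈ T then 1 else 0
  have hd : ∀ a : σ →₀ ℕ, dn a w = dn a v + ∑ i ∈ T, a i := by
    intro a
    simp only [dn, w, mul_add, Finset.sum_add_distrib, mul_ite, mul_one, mul_zero]
    rw [Finset.sum_ite_mem, Finset.univ_inter]
  obtain ⟨b, hb⟩ := hne
  obtain ⟨hb1, hb2⟩ := Finset.mem_filter.mp hb
  have hn : nn f.support w = nn f.support v := by
    refine nn_eq (fun a ha => ?_) ⟨b, (mem_fc.mp hb1).1, ?_⟩
    · rw [hd]; exact (nn_le ha v).trans (Nat.le_add_right _ _)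
    · rw [hd, Finset.sum_eq_zero hb2, add_zero, (mem_fc.mp hb1).2]
  have he : fc f.support w = (fc f.support v).filter fun a => ∀ i ∈ T, a i = 0 := by
    ext a
    rw [Finset.mem_filter, mem_fc, mem_fc, hn, hd]
    constructor
    · rintro ⟨h1, h2⟩
      have := nn_le h1 v
      refine ⟨⟨h1, by omega⟩, fun i hi => ?_⟩
      have := Finset.single_le_sum (f := fun i => a i) (fun _ _ => Nat.zero_le _) hi
      omega
    · rintro ⟨⟨h1, h2⟩, h3⟩
      exact ⟨h1, by rw [Finset.sum_eq_zero h3, add_zero, h2]⟩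
  obtain ⟨j, hj⟩ := hf (fun i => (w i : ℝ)) (fun i => by
    have := hv i
    have : 0 < w i := by simp only [w]; omega
    exact_mod_cast this) q hq
  rw [facePoly_nat, he] at hj
  exact ⟨j, by rw [← euler]; exact mul_ne_zero (hq j) hj⟩

theorem rank_le (F : Finset (σ →₀ ℕ)) {κ : Type} [Fintype κ] (u : κ → σ → ℂ)
    (hu : ∀ k, u k ∈ Submodule.span ℂ ((fun a : σ →₀ ℕ => fun i => (a i : ℂ)) '' F))
    (hli : LinearIndependent ℂ u) :
    Fintype.card κ ≤ Module.finrank ℚ (Submodule.span ℚ (vec '' (F : Set (σ →₀ ℕ)))) := by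
  let V := Submodule.span ℚ (vec '' (F : Set (σ →₀ ℕ)))
  let b := Module.finBasis ℚ V
  let e : Fin (Module.finrank ℚ V) → σ → ℂ := fun k i => ((b k : σ → ℚ) i : ℂ)
  have h1 : Submodule.span ℂ ((fun a : σ →₀ ℕ => fun i => (a i : ℂ)) '' F) ≤
      Submodule.span ℂ (Set.range e) := by
    rw [Submodule.span_le]
    rintro _ ⟨a, ha, rfl⟩
    have hm : vec a ∈ V := Submodule.subset_span ⟨a, ha, rfl⟩
    have h2 := congrArg (fun z : V => (z : σ → ℚ)) (b.sum_repr ⟨vec a, hm⟩)
    simp only [AddSubmonoidClass.coe_finsetSum, Submodule.coe_smul] at h2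
    have h3 : (fun i => (a i : ℂ)) = ∑ k, ((b.repr ⟨vec a, hm⟩ k : ℚ) : ℂ) • e k := by
      funext i
      have h4 := congrFun h2 i
      simp only [Finset.sum_apply, Pi.smul_apply, smul_eq_mul, vec] at h4 ⊢
      simp only [e]
      exact_mod_cast h4.symm
    change (fun i => (a i : ℂ)) ∈ _
    rw [h3]
    exact Submodule.sum_mem _ fun k _ => Submodule.smul_mem _ _ (Submodule.subset_span ⟨k, rfl⟩)
  let u' : κ → Submodule.span ℂ (Set.range e) := fun k => ⟨u k, h1 (hu k)⟩
  have h5 : LinearIndependent ℂ u' := LinearIndependent.of_comp (Submodule.subtype _) hli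
  have h6 := h5.fintype_card_le_finrank
  have h7 := finrank_range_le_card (R := ℂ) e
  rw [Fintype.card_fin] at h7
  exact h6.trans h7

end Smooth

open Smooth in
theorem t_Smooth : S_Smooth := by
  intro σ _ _ f Y S v hf hv hY hFY hS p hp _
  by_contra hc
  push Not at hc
  set F := fc f.support v with hF
  have hval : Valid F S := hY.mono hFY
  let T := S.filter fun i => p i = 0
  let p' : σ → ℂ := fun i => if i ∈ T then 1 else p i
  have hp' : ∀ i, p' i ≠ 0 := by
    intro i
    simp only [p']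
    split_ifs with h
    · exact one_ne_zero
    · by_cases hi : i ∈ S
      · exact fun h0 => h (Finset.mem_filter.mpr ⟨hi, h0⟩)
      · exact hp i hi
  by_cases hne : (F.filter fun a => ∀ i ∈ T, a i = 0).Nonempty
  · obtain ⟨j, hj⟩ := sub_face hf hv T hne p' hp'
    apply hj
    have h1 := euler f F p j
    rw [hc j, mul_zero] at h1
    rw [h1, Finset.sum_filter]
    refine Finset.sum_congr rfl fun a _ => ?_
    split_ifs with h
    · congr 2
      refine Finset.prod_congr rfl fun i _ => ?_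
      simp only [p']
      split_ifs with hi
      · rw [h i hi, pow_zero, pow_zero]
      · rfl
    · push Not at h
      obtain ⟨i, hi, hai⟩ := h
      rw [Finset.prod_eq_zero (Finset.mem_univ i)
        (by rw [(Finset.mem_filter.mp hi).2, zero_pow hai])]
      simp
  have hone : ∀ a ∈ F, ∃ i ∈ T, a i ≠ 0 := by
    intro a ha
    by_contra h
    push Not at h
    exact hne ⟨a, Finset.mem_filter.mpr ⟨ha, h⟩⟩
  have hTS : ∀ i ∈ S, i ∈ T := by
    intro i hi
    obtain ⟨a, ha, hai⟩ := hS i hi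
    obtain ⟨k, hk, hak⟩ := hone a ha
    by_contra h
    exact hak ((hval.1.eq_one ha hi hai).2 k (Finset.mem_filter.mp hk).1 fun e => h (e ▸ hk))
  have hp1 : ∀ i ∈ S, p' i = 1 := fun i hi => if_pos (hTS i hi)
  have hp2 : ∀ i ∉ S, p' i = p i := fun i hi => if_neg fun h => hi (Finset.mem_filter.mp h).1
  let y : (σ →₀ ℕ) → ℂ := fun a => coeff a f * ∏ i, p' i ^ a i
  have hy : ∀ i ∈ S, ∑ a ∈ F, (a i : ℂ) * y a = 0 := by
    intro i hi
    rw [← hc i, fp, map_sum, map_sum]
    refine Finset.sum_congr rfl fun a ha => ?_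
    rw [pderiv_monomial, eval_monomial, Finsupp.prod_fintype _ _ (by simp)]
    by_cases h0 : a i = 0
    · simp [h0]
    obtain ⟨h1, h2⟩ := hval.1.eq_one ha hi h0
    simp only [y]
    rw [h1, Nat.cast_one, one_mul, mul_one]
    congr 1
    refine Finset.prod_congr rfl fun k _ => ?_
    by_cases hk : k ∈ S
    · rw [hp1 k hk, one_pow]
      by_cases e : k = i
      · subst e; simp [h1]
      · simp [h2 k hk e]
    · have e : i ≠ k := fun e => hk (e ▸ hi)
      rw [hp2 k hk]
      simp [Finsupp.single_eq_of_ne' e]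
  let δ : S → σ → ℂ := fun i => ∑ a ∈ F, ((a i : ℂ) * y a) • fun k => (a k : ℂ)
  have hδ : ∀ (i : S) k, δ i k = ∑ a ∈ F, (a i : ℂ) * y a * a k := by
    intro i k
    simp [δ, Finset.sum_apply]
  have hδ0 : ∀ (i : S), ∀ k ∈ S, δ i k = 0 := by
    intro i k hk
    rw [hδ]
    by_cases e : k = i
    · rw [← hy i i.2]
      refine Finset.sum_congr rfl fun a ha => ?_
      by_cases h0 : a i = 0
      · simp [h0]
      · rw [e, (hval.1.eq_one ha i.2 h0).1]; simp
    · refine Finset.sum_eq_zero fun a ha => ?_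
      by_cases h0 : a i = 0
      · simp [h0]
      · rw [(hval.1.eq_one ha i.2 h0).2 k hk e]; simp
  have hdep : ¬ LinearIndependent ℂ δ := by
    intro hli
    choose c hc1 hc2 using fun i : S => hS i i.2
    have h1 : LinearIndependent ℂ (Sum.elim δ fun i : S => fun k => (c i k : ℂ)) := by
      rw [Fintype.linearIndependent_iff]
      intro g hg
      rw [Fintype.sum_sum_type] at hg
      simp only [Sum.elim_inl, Sum.elim_inr] at hg
      have h2 : ∀ k : S, g (.inr k) = 0 := by
        intro k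
        have h3 := congrFun hg k
        simp only [Pi.add_apply, Finset.sum_apply, Pi.smul_apply, smul_eq_mul, Pi.zero_apply,
          hδ0 _ _ k.2, mul_zero, Finset.sum_const_zero, zero_add] at h3
        rw [Finset.sum_eq_single k] at h3
        · rwa [(hval.1.eq_one (hc1 k) k.2 (hc2 k)).1, Nat.cast_one, mul_one] at h3
        · intro i _ hik
          rw [(hval.1.eq_one (hc1 i) i.2 (hc2 i)).2 k k.2 fun e => hik (Subtype.ext e.symm)]
          simp
        · simp
      simp only [h2, zero_smul, Finset.sum_const_zero, add_zero] at hg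
      rintro (i | i)
      · exact Fintype.linearIndependent_iff.mp hli _ hg i
      · exact h2 i
    have h2 := rank_le F _ (by
      rintro (i | i)
      · exact Submodule.sum_mem _ fun a ha =>
          Submodule.smul_mem _ _ (Submodule.subset_span ⟨a, ha, rfl⟩)
      · exact Submodule.subset_span ⟨c i, hc1 i, rfl⟩) h1
    have h3 := hval.2
    rw [Finset.filter_true_of_mem (fun a ha => by
      obtain ⟨i, hi, hai⟩ := hone a ha
      have hi' := (Finset.mem_filter.mp hi).1
      obtain ⟨h4, h5⟩ := hval.1.eq_one ha hi' hai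
      rw [Finset.sum_eq_single i (fun k hk e => h5 k hk e) (fun h => absurd hi' h), h4])] at h3
    simp only [Fintype.card_sum, Fintype.card_coe] at h2
    omega
  obtain ⟨g, hg, i0, hi0⟩ := Fintype.not_linearIndependent_iff.mp hdep
  let lam : σ → ℂ := fun i => if h : i ∈ S then g ⟨i, h⟩ else 0
  have hlam : ∀ i : S, lam i = g i := fun i => dif_pos i.2
  let T' := S.filter fun i => lam i = 0
  let q : σ → ℂ := fun i => if i ∈ S ∧ lam i ≠ 0 then lam i else p' i
  have hq : ∀ i, q i ≠ 0 := by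
    intro i
    simp only [q]
    split_ifs with h
    · exact h.2
    · exact hp' i
  obtain ⟨j, hj⟩ := sub_face hf hv T' (by
    obtain ⟨a, ha, hai⟩ := hS i0 i0.2
    refine ⟨a, Finset.mem_filter.mpr ⟨ha, fun k hk => ?_⟩⟩
    obtain ⟨hk1, hk2⟩ := Finset.mem_filter.mp hk
    exact (hval.1.eq_one ha i0.2 hai).2 k hk1 fun e => hi0 (by rw [← hlam, ← e, hk2])) q hq
  apply hj
  have h1 := congrFun hg j
  simp only [Finset.sum_apply, Pi.smul_apply, smul_eq_mul, Pi.zero_apply, hδ, Finset.mul_sum] at h1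
  rw [Finset.sum_comm] at h1
  rw [← h1, Finset.sum_filter]
  refine Finset.sum_congr rfl fun a ha => ?_
  obtain ⟨i, hi, hai⟩ := hone a ha
  have hi' := (Finset.mem_filter.mp hi).1
  obtain ⟨h4, h5⟩ := hval.1.eq_one ha hi' hai
  rw [Finset.sum_eq_single (⟨i, hi'⟩ : S)
    (fun k _ e => by rw [h5 k k.2 fun e' => e (Subtype.ext e')]; simp) (by simp), ← hlam]
  simp only [h4, Nat.cast_one, one_mul]
  split_ifs with h
  · have hl : lam i ≠ 0 := fun h0 => hai (h i (Finset.mem_filter.mpr ⟨hi', h0⟩))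
    have h6 : ∏ k, q k ^ a k = lam i * ∏ k, p' k ^ a k := by
      rw [← Finset.mul_prod_erase _ _ (Finset.mem_univ i),
        ← Finset.mul_prod_erase _ (fun k => p' k ^ a k) (Finset.mem_univ i), h4, hp1 i hi']
      simp only [q, if_pos (And.intro hi' hl), pow_one, one_mul]
      congr 1
      refine Finset.prod_congr rfl fun k hk => ?_
      split_ifs with hk'
      · rw [h5 k hk'.1 (Finset.ne_of_mem_erase hk), pow_zero, pow_zero]
      · rfl
    rw [h6]
    simp only [y]
    ring
  · push Not at h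
    obtain ⟨k, hk, hak⟩ := h
    obtain ⟨hk1, hk2⟩ := Finset.mem_filter.mp hk
    have e : k = i := by
      by_contra e
      exact hak (h5 k hk1 e)
    rw [← e, hk2, zero_mul]

end Pool.Agent.P.MP_9321be_ag.ND
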