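import Pool.Agent.P.MP_9321be_ag.ND.ZBasic

/-!
Compatible labels on the dangerous set.
-/

namespace Pool.Agent.P.MP_9321be_ag.ND

open Set Filter Topology

set_option linter.unusedSectionVars false

namespace Lab

variable {σ : Type} [Fintype σ] [DecidableEq σ]

theorem lebesgue (A : Finset (σ →₀ ℕ)) {K : Set (σ → ℝ)} (hK : IsCompact K)
    (h1 : ∀ u ∈ K, ∀ a ∈ A, 1 ≤ dr a u) :
    ∃ η : ℝ, 0 < η ∧ ∀ u ∈ K, ∃ u' ∈ K, ∀ a ∈ A, dr a u - 1 < η → a ∈ fr A u' := by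
  refine hK.induction_on (p := fun s => ∃ η : ℝ, 0 < η ∧ ∀ u ∈ s, ∃ u' ∈ K, ∀ a ∈ A,
    dr a u - 1 < η → a ∈ fr A u') ⟨1, one_pos, by simp⟩
    (fun s t hst ⟨η, h, H⟩ => ⟨η, h, fun u hu => H u (hst hu)⟩) ?_ fun u' hu' => ?_
  · rintro s t ⟨η, h, H⟩ ⟨η', h', H'⟩
    refine ⟨min η η', lt_min h h', fun u hu => ?_⟩
    rcases hu with hu | hu
    · obtain ⟨u', h2, h3⟩ := H u hu
      exact ⟨u', h2, fun a ha hl => h3 a ha (hl.trans_le (min_le_left _ _))⟩
    · obtain ⟨u', h2, h3⟩ := H' u hu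
      exact ⟨u', h2, fun a ha hl => h3 a ha (hl.trans_le (min_le_right _ _))⟩
  · have e1 : ∀ᶠ γ : ℝ in 𝓝[>] 0, ∀ a ∈ A, a ∉ fr A u' → γ < dr a u' - 1 := by
      refine (eventually_all_finset A).2 fun a ha => ?_
      by_cases h : a ∈ fr A u'
      · simp [h]
      · have : 0 < dr a u' - 1 := sub_pos.2 ((h1 u' hu' a ha).lt_of_ne fun e =>
          h (mem_fr.2 ⟨ha, e.symm⟩))
        exact ((eventually_lt_nhds this).filter_mono nhdsWithin_le_nhds).mono fun γ h _ => h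
    obtain ⟨γ, h2, h3⟩ := (e1.and self_mem_nhdsWithin).exists
    have e2 : ∀ᶠ u in 𝓝 u', ∀ a ∈ A, a ∉ fr A u' → γ < dr a u - 1 := by
      refine (eventually_all_finset A).2 fun a ha => ?_
      by_cases h : a ∈ fr A u'
      · simp [h]
      · have c : Continuous fun u : σ → ℝ => dr a u - 1 := by unfold dr; fun_prop
        exact (c.continuousAt.eventually (eventually_gt_nhds (h2 a ha h))).mono fun u h _ => h
    exact ⟨_, nhdsWithin_le_nhds e2, γ, h3, fun u hu => ⟨u', hu', fun a ha hl =>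
      not_not.1 fun h => lt_asymm hl (hu a ha h)⟩⟩

theorem gap {α : Type} (A : Finset α) (l : α → ℕ) :
    ∃ j, j + 3 ≤ 3 * (A.card + 1) ∧ ∀ a ∈ A, l a ≤ j ∨ j + 3 ≤ l a := by
  classical
  obtain ⟨k, h1, h2⟩ := Finset.exists_mem_notMem_of_card_lt_card
    (s := A.image fun a => l a / 3) (t := Finset.range (A.card + 1))
    (by rw [Finset.card_range]; exact Nat.lt_succ_of_le Finset.card_image_le)
  refine ⟨3 * k, by have := Finset.mem_range.1 h1; omega, fun a ha => ?_⟩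
  have : l a / 3 ≠ k := fun e => h2 (Finset.mem_image.2 ⟨a, ha, e⟩)
  omega

theorem descend (X : ℕ → Finset (σ →₀ ℕ)) (hX : Monotone X) (n : ℕ) : ∀ S0, Valid (X n) S0 →
    ∃ S ⊆ S0, Valid (X 0) S ∧ ∀ j ≤ n, ∃ S', MinValid (X j) S' ∧ S ⊆ S' := by
  induction n with
  | zero =>
    intro S0 h
    obtain ⟨S, h1, h2⟩ := h.exists_min
    exact ⟨S, h1, h2.1, fun j hj => ⟨S, Nat.le_zero.1 hj ▸ h2, subset_rfl⟩⟩
  | succ n ih =>
    intro S0 h
    obtain ⟨S1, h1, h2⟩ := h.exists_min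
    obtain ⟨S, h3, h4, h5⟩ := ih S1 (h2.1.mono (hX n.le_succ))
    refine ⟨S, h3.trans h1, h4, fun j hj => ?_⟩
    rcases hj.lt_or_eq with hj | rfl
    · exact h5 j (Nat.lt_succ_iff.1 hj)
    · exact ⟨S1, h2, h3⟩

theorem indep_of_pairs {X : Finset (σ →₀ ℕ)} {D : Finset σ}
    (h : ∀ i ∈ D, ∀ j ∈ D, Indep X {i, j}) : Indep X D := fun a ha => by
  by_cases h0 : ∃ i ∈ D, a i ≠ 0
  · obtain ⟨i, hi, h1⟩ := h0
    rw [Finset.sum_eq_single i (fun j hj hne => ((h i hi j hj).eq_one ha (by simp) h1).2 j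
      (by simp) hne) fun h' => absurd hi h']
    exact ((h i hi i hi).eq_one ha (by simp) h1).1.le
  · push Not at h0
    rw [Finset.sum_eq_zero h0]
    exact zero_le_one

theorem dr_sub (a : σ →₀ ℕ) (u p : σ → ℝ) : |dr a u - dr a p| ≤ (∑ i, (a i : ℝ)) * dist u p := by
  rw [dr, dr, ← Finset.sum_sub_distrib, Finset.sum_mul]
  refine (Finset.abs_sum_le_sum_abs _ _).trans (Finset.sum_le_sum fun i _ => ?_)
  rw [← mul_sub, abs_mul, Nat.abs_cast]
  exact mul_le_mul_of_nonneg_left (dist_le_pi_dist u p i) (Nat.cast_nonneg _)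

/-- Level sets of a label. -/
def lev (A : Finset (σ →₀ ℕ)) (l : (σ →₀ ℕ) → ℕ) (j : ℕ) : Finset (σ →₀ ℕ) :=
  A.filter fun a => l a ≤ j

theorem mem_lev {A : Finset (σ →₀ ℕ)} {l : (σ →₀ ℕ) → ℕ} {j : ℕ} {a : σ →₀ ℕ} :
    a ∈ lev A l j ↔ a ∈ A ∧ l a ≤ j := Finset.mem_filter

theorem lev_mono (A : Finset (σ →₀ ℕ)) (l : (σ →₀ ℕ) → ℕ) : Monotone (lev A l) :=
  fun _ _ h _ ha => mem_lev.2 ⟨(mem_lev.1 ha).1, (mem_lev.1 ha).2.trans h⟩

/-- The choice of a valid set for each label. -/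
theorem labels (A : Finset (σ →₀ ℕ)) : ∃ (J : ((σ →₀ ℕ) → ℕ) → ℕ)
    (S : ((σ →₀ ℕ) → ℕ) → Finset σ), (∀ l, J l + 3 ≤ 3 * (A.card + 1)) ∧
    (∀ l, (∃ T, Strong (lev A l (J l)) T) → Valid (lev A l 0) (S l)) ∧
    ∀ l l', (∃ T, Strong (lev A l (J l)) T) → (∃ T, Strong (lev A l' (J l')) T) →
      (∀ a ∈ A, l a ≤ l' a + 1 ∧ l' a ≤ l a + 1) → ∀ Y, Y ⊆ lev A l 0 → Y ⊆ lev A l' 0 →
      Indep Y (S l ∪ S l') := by
  choose J J1 J2 using gap A
  have h0 : ∀ X : Finset (σ →₀ ℕ), ∃ S0, (∃ T, Strong X T) → Strong X S0 := fun X =>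
    ⟨Classical.epsilon (Strong X), Classical.epsilon_spec⟩
  choose S0 hS0 using h0
  have h1 : ∀ l, ∃ S, (∃ T, Strong (lev A l (J l)) T) → S ⊆ S0 (lev A l (J l)) ∧
      Valid (lev A l 0) S ∧ ∀ j ≤ J l, ∃ S', MinValid (lev A l j) S' ∧ S ⊆ S' := fun l => by
    by_cases h : ∃ T, Strong (lev A l (J l)) T
    · obtain ⟨S, hS⟩ := descend _ (lev_mono A l) (J l) _ (hS0 _ h).1.1
      exact ⟨S, fun _ => hS⟩
    · exact ⟨∅, fun h' => absurd h' h⟩
  choose S hS using h1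
  have key : ∀ l l', (∃ T, Strong (lev A l (J l)) T) → (∃ T, Strong (lev A l' (J l')) T) →
      (∀ a ∈ A, l a ≤ l' a + 1 ∧ l' a ≤ l a + 1) → J l ≤ J l' →
      Indep (lev A l 0) (S l ∪ S l') := by
    intro l l' h h' hd hJ
    obtain ⟨j, hj, e⟩ : ∃ j ≤ J l', lev A l (J l) = lev A l' j := by
      refine ⟨min (J l + 1) (J l'), min_le_right _ _, ?_⟩
      ext a
      rw [mem_lev, mem_lev]
      refine and_congr_right fun ha => ?_
      have := hd a ha
      have := J2 l a ha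
      have := J2 l' a ha
      omega
    obtain ⟨S', h2, h3⟩ := (hS l' h').2.2 j hj
    exact ((hS0 _ h).2 S' (e ▸ h2)).mono (lev_mono A l (Nat.zero_le _))
      (Finset.union_subset_union (hS l h).1 h3)
  refine ⟨J, S, J1, fun l h => (hS l h).2.1, fun l l' h h' hd Y hY hY' => ?_⟩
  rcases le_total (J l) (J l') with hJ | hJ
  · exact (key l l' h h' hd hJ).mono hY subset_rfl
  · exact (key l' l h' h (fun a ha => (hd a ha).symm) hJ).mono hY' (Finset.union_comm _ _).subset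

end Lab

open Lab in
theorem t_Lab : S_Lab := by
  classical
  intro σ _ _ A α hK hB
  obtain ⟨η₀, hη₀, hL⟩ := lebesgue A hK fun u hu => hu.2.1
  obtain ⟨J, S, h1, h2, h3⟩ := labels A
  set r : ℕ := 3 * (A.card + 1) with hr
  have hr0 : (0 : ℝ) < r := by rw [hr]; positivity
  set η : ℝ := η₀ / r with hη
  have hη' : 0 < η := div_pos hη₀ hr0
  let c : (σ → ℝ) → (σ →₀ ℕ) → ℝ := fun u a => min ((dr a u - 1) / η) r
  let Adm : ((σ →₀ ℕ) → ℕ) → (σ → ℝ) → Prop := fun l u => ∀ a ∈ A, |(l a : ℝ) - c u a| < 1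
  have a1 : ∀ l u, Adm l u → fr A u ⊆ lev A l 0 := fun l u h a ha => by
    obtain ⟨h4, h5⟩ := mem_fr.1 ha
    have := h a h4
    simp only [c, h5, sub_self, zero_div, min_eq_left hr0.le, sub_zero, Nat.abs_cast,
      Nat.cast_lt_one] at this
    exact mem_lev.2 ⟨h4, this.le⟩
  have a2 : ∀ l, ∀ u ∈ Kset A α, Adm l u → ∃ T, Strong (lev A l (J l)) T := fun l u hu h => by
    obtain ⟨u', h4, h5⟩ := hL u hu
    refine hB _ u hu u' h4 ((a1 l u h).trans (lev_mono A l (Nat.zero_le _))) fun a ha => ?_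
    obtain ⟨h6, h7⟩ := mem_lev.1 ha
    refine h5 a h6 ?_
    have h8 : (l a : ℝ) + 3 ≤ r := by exact_mod_cast (Nat.add_le_add_right h7 3).trans (h1 l)
    have h9 : c u a < r := by linarith [(abs_lt.1 (h a h6)).1]
    have := (min_lt_iff.1 h9).resolve_right (lt_irrefl _)
    rwa [div_lt_iff₀ hη', hη, mul_div_cancel₀ _ hr0.ne'] at this
  set B : ℝ := ∑ a ∈ A, ∑ i, (a i : ℝ) + 1 with hB'
  have hB0 : 0 < B := by rw [hB']; positivity
  refine ⟨fun u => Finset.univ.filter fun i => ∃ l, Adm l u ∧ i ∈ S l, η / (2 * B),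
    by positivity, fun u hu => indep_of_pairs fun i hi j hj => ?_, fun p => ?_⟩
  · obtain ⟨l, h4, h5⟩ := (Finset.mem_filter.1 hi).2
    obtain ⟨l', h6, h7⟩ := (Finset.mem_filter.1 hj).2
    refine (h3 l l' (a2 l u hu h4) (a2 l' u hu h6) (fun a ha => ?_) _ (a1 l u h4)
      (a1 l' u h6)).mono subset_rfl (by simp [Finset.insert_subset_iff, h5, h7])
    have b1 := abs_lt.1 (h4 a ha)
    have b2 := abs_lt.1 (h6 a ha)
    have b3 : (l a : ℝ) < l' a + 2 := by linarith [b1.2, b2.1]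
    have b4 : (l' a : ℝ) < l a + 2 := by linarith [b1.1, b2.2]
    have b5 : l a < l' a + 2 := by exact_mod_cast b3
    have b6 : l' a < l a + 2 := by exact_mod_cast b4
    omega
  · refine ⟨S fun a => ⌊c p a + 1 / 2⌋₊, fun u hu hd => ?_⟩
    have h4 : Adm (fun a => ⌊c p a + 1 / 2⌋₊) u := fun a ha => by
      have b1 : ∑ i, (a i : ℝ) ≤ B := by
        have := Finset.single_le_sum (f := fun a : σ →₀ ℕ => ∑ i, (a i : ℝ))
          (fun _ _ => by positivity) ha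
        linarith
      have b2 : |dr a u - dr a p| < η / 2 := by
        refine ((dr_sub a u p).trans (mul_le_mul_of_nonneg_right b1 dist_nonneg)).trans_lt ?_
        rw [lt_div_iff₀ (by positivity)] at hd
        linarith
      have b3 : |c u a - c p a| < 1 / 2 := by
        refine (abs_min_sub_min_le_max _ _ _ _).trans_lt ?_
        rw [sub_self, abs_zero, max_eq_left (abs_nonneg _), ← sub_div, abs_div, abs_of_pos hη', div_lt_iff₀ hη', sub_sub_sub_cancel_right]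
        linarith
      have b4 : 0 ≤ c u a := le_min (div_nonneg (sub_nonneg.2 (hu.2.1 a ha)) hη'.le) hr0.le
      have b5 := abs_lt.1 b3
      have b6 := Nat.floor_le (a := c p a + 1 / 2) (by linarith [b5.2])
      have b7 := Nat.lt_floor_add_one (c p a + 1 / 2)
      exact abs_lt.2 ⟨by linarith [b5.2], by linarith [b5.1]⟩
    exact ⟨fun i hi => Finset.mem_filter.2 ⟨Finset.mem_univ _, _, h4, hi⟩,
      (h2 _ (a2 _ u hu h4)).mono (a1 _ u h4)⟩

end Pool.Agent.P.MP_9321be_ag.ND
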