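import Pool.Agent.P.MP_9321be_ag.ND.RtBasic

/-!
Combining rational forms with different bad slopes.
-/

namespace Pool.Agent.P.MP_9321be_ag.ND

namespace Alg

variable {R : Type 1} [CommRing R] {u : R} {P : ℚ → Prop} {G : PowerSeries R}

/-- The allowed factors. -/
def fac (u : R) (P : ℚ → Prop) : Set (Polynomial R) :=
  {f | ∃ m s : ℕ, 0 < m ∧ 0 < s ∧ P ((s : ℚ) / m) ∧
    f = 1 - Polynomial.C (u ^ s) * Polynomial.X ^ m}

/-- The denominators of `G`. -/
def den (G : PowerSeries R) : Ideal (Polynomial R) where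
  carrier := {p | ∃ q : Polynomial R, (p : PowerSeries R) * G = q}
  add_mem' := fun ⟨q, h⟩ ⟨q', h'⟩ => ⟨q + q', by push_cast; rw [add_mul, h, h']⟩
  zero_mem' := ⟨0, by simp⟩
  smul_mem' := fun c _ ⟨q, h⟩ => ⟨c * q, by rw [smul_eq_mul]; push_cast; rw [mul_assoc, h]⟩

theorem of_rt (h : Rt u P G) : ∃ D ∈ Submonoid.closure (fac u P), D ∈ den G := by
  obtain ⟨S, h1, h2⟩ := h
  induction h2 using Algebra.adjoin_induction with
  | mem x hx =>
    rcases hx with rfl | ⟨q, hq, e⟩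
    · exact ⟨1, one_mem _, Polynomial.X, by simp⟩
    · exact ⟨_, Submonoid.subset_closure ⟨q.1, q.2, (h1 q hq).1, (h1 q hq).2.1, (h1 q hq).2.2, rfl⟩,
        1, by simpa using e⟩
  | algebraMap c => exact ⟨1, one_mem _, Polynomial.C c, by simp⟩
  | add x y _ _ hx hy =>
    obtain ⟨D, hD, q, e⟩ := hx
    obtain ⟨D', hD', q', e'⟩ := hy
    exact ⟨D * D', mul_mem hD hD', D' * q + D * q', by push_cast; rw [← e, ← e']; ring⟩
  | mul x y _ _ hx hy =>
    obtain ⟨D, hD, q, e⟩ := hx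
    obtain ⟨D', hD', q', e'⟩ := hy
    exact ⟨D * D', mul_mem hD hD', q * q', by push_cast; rw [← e, ← e']; ring⟩

theorem cancel {D : Polynomial R} (hD : D ∈ Submonoid.closure (fac u P)) :
    ∀ G : PowerSeries R, Rt u P ((D : PowerSeries R) * G) → Rt u P G := by
  induction hD using Submonoid.closure_induction with
  | mem x hx =>
    obtain ⟨m, s, hm, hs, hP, rfl⟩ := hx
    exact fun G h => Rt.of_mul hm hs hP (by simpa using h)
  | one => exact fun G h => by simpa using h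
  | mul x y _ _ hx hy => exact fun G h => hy _ (hx _ (by simpa [mul_assoc] using h))

theorem prime_fac {J : Ideal (Polynomial R)} (hJ : J.IsPrime) (hG : den G ≤ J) (h : Rt u P G) :
    ∃ f ∈ fac u P, f ∈ J := by
  obtain ⟨D, hD, h⟩ := of_rt h
  replace h := hG h
  induction hD using Submonoid.closure_induction with
  | mem x hx => exact ⟨x, hx, h⟩
  | one => exact (hJ.ne_top ((Ideal.eq_top_iff_one _).2 h)).elim
  | mul x y _ _ hx hy => exact (hJ.mem_or_mem h).elim hx hy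

theorem slope_one {K : Type*} [CommRing K] [IsDomain K] {a t : K} {m s m' s' : ℕ} (hs : 0 < s)
    (h : a ^ s * t ^ m = 1) (h' : a ^ s' * t ^ m' = 1) (hlt : s * m' ≠ s' * m) :
    ∃ k, 0 < k ∧ a ^ k = 1 := by
  have a0 : a ≠ 0 := by
    rintro rfl
    simp [hs.ne'] at h
  have t0 : t ^ (m * m') ≠ 0 := fun h0 => by
    have := congrArg (· ^ m') h
    simp [mul_pow, ← pow_mul, h0] at this
  have e : a ^ (s * m') = a ^ (s' * m) := by
    refine mul_right_cancel₀ t0 ?_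
    rw [pow_mul, pow_mul, ← mul_pow, h, ← pow_mul t, mul_comm m, pow_mul, pow_mul, ← mul_pow, h']
    simp
  rcases lt_or_gt_of_ne hlt with h1 | h1
  · obtain ⟨k, hk⟩ := Nat.exists_eq_add_of_le h1.le
    rw [hk, pow_add] at e
    exact ⟨k, by omega, (mul_left_cancel₀ (pow_ne_zero _ a0) ((mul_one _).trans e)).symm⟩
  · obtain ⟨k, hk⟩ := Nat.exists_eq_add_of_le h1.le
    rw [hk, pow_add] at e
    exact ⟨k, by omega, mul_left_cancel₀ (pow_ne_zero _ a0) (e.trans (mul_one _).symm)⟩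

theorem mem_iff {J : Ideal (Polynomial R)} {m s : ℕ} :
    1 - Polynomial.C (u ^ s) * Polynomial.X ^ m ∈ J ↔
      Ideal.Quotient.mk J (Polynomial.C u) ^ s * Ideal.Quotient.mk J Polynomial.X ^ m = 1 := by
  rw [← Ideal.Quotient.eq_zero_iff_mem, map_sub, map_one, sub_eq_zero, eq_comm]
  simp

end Alg

theorem t_Alg : S_Alg := by
  intro R _ u _ P P1 G h hT
  by_contra hG
  have hd : Disjoint (Alg.den G : Set (Polynomial R)) (Submonoid.closure (Alg.fac u P)) :=
    Set.disjoint_left.2 fun D ⟨q, e⟩ hD => hG (Alg.cancel hD G (e ▸ rt_poly q))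
  obtain ⟨J, hJ, h1, h2⟩ := Ideal.exists_le_prime_disjoint _ _ hd
  have nf : ∀ f ∈ Alg.fac u P, f ∉ J := fun f hf hJ =>
    Set.disjoint_left.1 h2 hJ (Submonoid.subset_closure hf)
  obtain ⟨_, ⟨m, s, hm, hs, -, rfl⟩, a1⟩ := Alg.prime_fac hJ h1 hT
  obtain ⟨_, ⟨m', s', hm', -, hne, rfl⟩, a2⟩ := Alg.prime_fac hJ h1
    (h ((s : ℚ) / m) fun hP => nf _ ⟨m, s, hm, hs, hP, rfl⟩ a1)
  rw [Alg.mem_iff] at a1 a2
  obtain ⟨k, k0, hk⟩ := Alg.slope_one hs a1 a2 fun e => hne (by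
    rw [div_eq_div_iff (by positivity) (by positivity)]
    exact_mod_cast e.symm)
  have mk : 0 < m * k := Nat.mul_pos hm k0
  refine nf _ ⟨m * k, m * k, mk, mk, by rwa [div_self (by positivity)], rfl⟩ (Alg.mem_iff.2 ?_)
  have := congrArg (· ^ k) a1
  simp only [mul_pow, ← pow_mul, one_pow] at this
  rw [mul_comm s, pow_mul, hk, one_pow] at this
  rwa [mul_comm m k, pow_mul, hk, one_pow, mul_comm k m]

end Pool.Agent.P.MP_9321be_ag.ND
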