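import Pool.Agent.P.MP_9321be_ag.ND.RtBasic

/-!
Dense sets of rationals avoiding finitely many linear relations.
-/

namespace Pool.Agent.P.MP_9321be_ag.ND

namespace Dense

theorem ex_frac (q : ℕ) (hq : q.Prime) (B : ℚ) (x y : ℝ) (h : x < y) :
    ∃ (k : ℤ) (m : ℕ), ¬ (q : ℤ) ∣ k ∧ B < (q : ℚ) ^ m ∧ x < (k : ℝ) / (q : ℝ) ^ m ∧
      (k : ℝ) / (q : ℝ) ^ m < y := by
  have hq1 : (1 : ℝ) < q := by exact_mod_cast hq.one_lt
  obtain ⟨m, hm⟩ := pow_unbounded_of_one_lt (max (B : ℝ) (3 / (y - x))) hq1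
  have hpos : (0 : ℝ) < (q : ℝ) ^ m := by positivity
  have h1 : (B : ℝ) < (q : ℝ) ^ m := (le_max_left _ _).trans_lt hm
  have h2 : 3 < (q : ℝ) ^ m * (y - x) := by
    have := (le_max_right _ _).trans_lt hm
    rwa [div_lt_iff₀ (by linarith)] at this
  have hB : B < (q : ℚ) ^ m := by exact_mod_cast h1
  have hf1 := Int.floor_le (x * (q : ℝ) ^ m)
  have hf2 := Int.lt_floor_add_one (x * (q : ℝ) ^ m)
  by_cases hd : (q : ℤ) ∣ ⌊x * (q : ℝ) ^ m⌋ + 1
  · refine ⟨⌊x * (q : ℝ) ^ m⌋ + 2, m, fun hd' => ?_, hB, ?_, ?_⟩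
    · have h3 : (q : ℤ) ∣ 1 := by
        have := dvd_sub hd' hd
        rwa [show ⌊x * (q : ℝ) ^ m⌋ + 2 - (⌊x * (q : ℝ) ^ m⌋ + 1) = 1 by ring] at this
      exact hq.one_lt.ne' (by exact_mod_cast Int.eq_one_of_dvd_one (by positivity) h3)
    · rw [lt_div_iff₀ hpos]; push_cast; linarith
    · rw [div_lt_iff₀ hpos]; push_cast; linarith
  · refine ⟨⌊x * (q : ℝ) ^ m⌋ + 1, m, hd, hB, ?_, ?_⟩
    · rw [lt_div_iff₀ hpos]; push_cast; linarith
    · rw [div_lt_iff₀ hpos]; push_cast; linarith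

theorem norm_sum_le {ι : Type} (q : ℕ) [Fact q.Prime] (s : Finset ι) (a : ι → ℚ) :
    padicNorm q (∑ i ∈ s, a i) ≤ ∑ i ∈ s, padicNorm q (a i) := by
  classical
  induction s using Finset.induction_on with
  | empty => simp
  | insert i s hi ih =>
    rw [Finset.sum_insert hi, Finset.sum_insert hi]
    exact (padicNorm.triangle_ineq _ _).trans (by linarith)

end Dense

theorem t_Dense : S_Dense := by
  classical
  intro ι _ D hD
  let q : ι → ℕ := fun i => Nat.nth Nat.Prime (Fintype.equivFin ι i)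
  have hq : ∀ i, (q i).Prime := fun i => Nat.prime_nth_prime _
  have hqi : Function.Injective q := fun i j h =>
    (Fintype.equivFin ι).injective (Fin.ext (Nat.nth_injective Nat.infinite_setOfPred_prime h))
  let B : ι → ℚ := fun i => ∑ p ∈ D,
    (∑ j, padicNorm (q i) (p.1 j) + padicNorm (q i) p.2) / padicNorm (q i) (p.1 i)
  refine ⟨fun i => {γ | B i < padicNorm (q i) γ ∧ ∀ j, j ≠ i → padicNorm (q j) γ ≤ 1}, ?_, ?_⟩
  · intro i x y hxy
    obtain ⟨k, m, hk, hB, h1, h2⟩ := Dense.ex_frac (q i) (hq i) (B i) x y hxy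
    refine ⟨(k : ℚ) / (q i : ℚ) ^ m, ⟨?_, fun j hj => ?_⟩, by simpa using h1, by simpa using h2⟩
    · have := Fact.mk (hq i)
      rw [padicNorm.div, (padicNorm.int_eq_one_iff k).2 hk, IsAbsoluteValue.abv_pow (padicNorm _),
        padicNorm.padicNorm_p (hq i).one_lt]
      simpa using hB
    · have := Fact.mk (hq i)
      have := Fact.mk (hq j)
      rw [padicNorm.div, IsAbsoluteValue.abv_pow (padicNorm _),
        padicNorm.padicNorm_of_prime_of_ne (hqi.ne hj)]
      simpa using padicNorm.of_int k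
  · intro γ p hp hγ heq
    obtain ⟨i, hi⟩ : ∃ i, p.1 i ≠ 0 := Function.ne_iff.1 (hD p hp)
    have := Fact.mk (hq i)
    have hpos : 0 < padicNorm (q i) (p.1 i) :=
      lt_of_le_of_ne (padicNorm.nonneg _) (padicNorm.nonzero hi).symm
    have h1 : p.1 i * γ i = p.2 - ∑ j ∈ Finset.univ.erase i, p.1 j * γ j := by
      rw [← heq, ← Finset.add_sum_erase _ _ (Finset.mem_univ i)]; ring
    have h2 : padicNorm (q i) (∑ j ∈ Finset.univ.erase i, p.1 j * γ j) ≤
        ∑ j, padicNorm (q i) (p.1 j) := by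
      refine (Dense.norm_sum_le _ _ _).trans ((Finset.sum_le_sum fun j hj => ?_).trans
        (Finset.sum_le_sum_of_subset_of_nonneg (Finset.erase_subset i _)
          fun j _ _ => padicNorm.nonneg _))
      by_cases h0 : p.1 j = 0
      · simp [h0]
      · rw [padicNorm.mul]
        exact mul_le_of_le_one_right (padicNorm.nonneg _)
          ((hγ j h0).2 i (Finset.ne_of_mem_erase hj).symm)
    have h3 : padicNorm (q i) (p.1 i) * padicNorm (q i) (γ i) ≤
        ∑ j, padicNorm (q i) (p.1 j) + padicNorm (q i) p.2 := by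
      rw [← padicNorm.mul, h1, sub_eq_add_neg]
      refine (padicNorm.triangle_ineq _ _).trans ?_
      rw [padicNorm.neg]; linarith
    have h4 : (∑ j, padicNorm (q i) (p.1 j) + padicNorm (q i) p.2) / padicNorm (q i) (p.1 i) ≤
        B i :=
      Finset.single_le_sum (f := fun p : (ι → ℚ) × ℚ =>
        (∑ j, padicNorm (q i) (p.1 j) + padicNorm (q i) p.2) / padicNorm (q i) (p.1 i))
        (fun p _ => div_nonneg (add_nonneg (Finset.sum_nonneg fun _ _ => padicNorm.nonneg _)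
          (padicNorm.nonneg _)) (padicNorm.nonneg _)) hp
    have h5 := h4.trans_lt (hγ i hi).1
    rw [div_lt_iff₀ hpos] at h5
    linarith

end Pool.Agent.P.MP_9321be_ag.ND
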