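import Pool.Agent.P.MP_9321be_ag.ND.RtBasic

/-!
Existence of generic walls.
-/

namespace Pool.Agent.P.MP_9321be_ag.ND

namespace Gen

variable {σ : Type} [Fintype σ] [DecidableEq σ]

/-- Solutions of the linear system with prescribed supports. -/
def Sol (A F : Finset (σ →₀ ℕ)) (J : Finset (Option σ))
    (x : ((σ →₀ ℕ) → ℚ) × (Option σ → ℚ)) : Prop :=
  (∀ a ∈ A, x.1 a ≠ 0 → a ∈ F) ∧ (∀ o, x.2 o ≠ 0 → o ∈ J) ∧
    (∀ i, ∑ a ∈ A, x.1 a * vec a i + x.2 (some i) = 1) ∧ ∑ a ∈ A, x.1 a - x.2 none = 1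

/-- The relation attached to the chosen solution. -/
noncomputable def rel (A : Finset (σ →₀ ℕ)) (α : ℚ)
    (q : Finset (σ →₀ ℕ) × Finset (Option σ) × Finset (Option σ) × Bool) : (Option σ → ℚ) × ℚ :=
  (fun o => if o ∈ q.2.2.1 then (Classical.epsilon (Sol A q.1 q.2.1)).2 o else 0,
    if q.2.2.2 then α - 1 else α - 1 - (Classical.epsilon (Sol A q.1 q.2.1)).2 none)

omit [DecidableEq σ] in
theorem pairing {A : Finset (σ →₀ ℕ)} {r : σ → ℚ} {N : ℚ} {lam : (σ →₀ ℕ) → ℚ}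
    {c : Option σ → ℚ} (h1 : ∀ a ∈ A, lam a ≠ 0 → ∑ i, vec a i * r i = N)
    (h2 : ∀ i, ∑ a ∈ A, lam a * vec a i + c (some i) = 1) (h3 : ∑ a ∈ A, lam a - c none = 1) :
    c none * N + ∑ i, c (some i) * r i = ∑ i, r i - N := by
  have e1 : ∑ i, r i = ∑ a ∈ A, lam a * N + ∑ i, c (some i) * r i := by
    calc ∑ i, r i = ∑ i, (∑ a ∈ A, lam a * vec a i + c (some i)) * r i := by simp [h2]
      _ = ∑ a ∈ A, lam a * ∑ i, vec a i * r i + ∑ i, c (some i) * r i := by
        simp only [add_mul, Finset.sum_add_distrib, Finset.sum_mul, Finset.mul_sum, mul_assoc]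
        rw [Finset.sum_comm]
      _ = _ := by
        congr 1
        refine Finset.sum_congr rfl fun a ha => ?_
        by_cases h : lam a = 0
        · simp [h]
        · rw [h1 a ha h]
  rw [e1, ← Finset.sum_mul, eq_add_of_sub_eq h3]
  ring

end Gen

theorem t_Gen : S_Dense → S_Gen := by
  classical
  intro hD σ _ _ A α hα
  obtain ⟨Γ, h0, hΓ⟩ := hD (Option σ)
    (((A.powerset ×ˢ Finset.univ).image (Gen.rel A α)).filter fun p => p.1 ≠ 0)
    fun p hp => (Finset.mem_filter.1 hp).2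
  refine ⟨Γ, h0, fun r N lam κ μ h1 h2 h3 h4 h5 h6 => ?_⟩
  set F := A.filter fun a => lam a ≠ 0 with hF
  set J : Finset (Option σ) := Finset.univ.filter fun o => o.elim μ κ ≠ 0 with hJ
  obtain ⟨a1, a2, a3, a4⟩ : Gen.Sol A F J (Classical.epsilon (Gen.Sol A F J)) :=
    Classical.epsilon_spec ⟨(lam, fun o => o.elim μ κ), fun a ha h => Finset.mem_filter.2 ⟨ha, h⟩,
      fun o h => Finset.mem_filter.2 ⟨Finset.mem_univ _, h⟩, h4, h5⟩
  set T : Finset (Option σ) := Finset.univ.filter fun o => o.elim N r ∈ Γ o with hT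
  have key : ∀ b, (Gen.rel A α (F, J, T, b)).1 ≠ 0 →
      ∑ o, (Gen.rel A α (F, J, T, b)).1 o * o.elim N r ≠ (Gen.rel A α (F, J, T, b)).2 :=
    fun b hb => hΓ _ _ (Finset.mem_filter.2 ⟨Finset.mem_image_of_mem _ (Finset.mem_product.2
      ⟨Finset.mem_powerset.2 (Finset.filter_subset _ _), Finset.mem_univ _⟩), hb⟩) fun o ho =>
        (Finset.mem_filter.1 (by_contra fun h : o ∉ T => ho (if_neg h))).2
  simp only [Gen.rel, Fintype.sum_option, Option.elim] at key
  generalize Classical.epsilon (Gen.Sol A F J) = x at a1 a2 a3 a4 key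
  have b1 : ∀ a ∈ A, x.1 a ≠ 0 → ∑ i, vec a i * r i = N := fun a ha h =>
    h1 a ha (Finset.mem_filter.1 (a1 a ha h)).2
  have b2 := (Gen.pairing b1 a3 a4).trans h6
  have b3 : ∀ j, some j ∉ T → x.2 (some j) ≠ 0 → r j = 0 := fun j hj h =>
    (h2 j (Finset.mem_filter.1 (a2 _ h)).2).resolve_left fun h' =>
      hj (Finset.mem_filter.2 ⟨Finset.mem_univ _, h'⟩)
  have b4 : none ∉ T → x.2 none ≠ 0 → N = 0 ∨ N = 1 := fun hj h =>
    (h3 (Finset.mem_filter.1 (a2 _ h)).2).resolve_left fun h' =>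
      hj (Finset.mem_filter.2 ⟨Finset.mem_univ _, h'⟩)
  have b5 : ∑ i, (if some i ∈ T then x.2 (some i) else 0) * r i = ∑ i, x.2 (some i) * r i :=
    Finset.sum_congr rfl fun i _ => by
      split_ifs with h
      · rfl
      · by_cases h' : x.2 (some i) = 0
        · rw [h']
        · rw [b3 i h h', mul_zero, mul_zero]
  rw [b5] at key
  have b6 : (fun o => if o ∈ T then x.2 o else 0) = 0 := by
    by_contra hb
    have k1 := key true hb
    have k2 := key false hb
    simp only [if_true, Bool.false_eq_true, if_false] at k1 k2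
    by_cases h : none ∈ T
    · rw [if_pos h] at k1
      exact k1 b2
    · rw [if_neg h] at k1 k2
      by_cases h' : x.2 none = 0
      · exact k1 (by rw [← b2, h'])
      · rcases b4 h h' with rfl | rfl
        · exact k1 (by linarith)
        · exact k2 (by linarith)
  have b7 : ∀ o, x.2 o ≠ 0 → o ∉ T := fun o h h' => h (by simpa [h'] using congrFun b6 o)
  have b8 : ∀ j, x.2 (some j) ≠ 0 → r j = 0 := fun j h => b3 j (b7 _ h) h
  have b9 : ∑ i, x.2 (some i) * r i = 0 := Finset.sum_eq_zero fun i _ => by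
    by_cases h : x.2 (some i) = 0
    · rw [h, zero_mul]
    · rw [b8 i h, mul_zero]
  rw [b9, add_zero] at b2
  have c1 : x.2 none * N ≠ 0 := b2 ▸ sub_ne_zero.2 hα
  exact ⟨(b4 (b7 _ (left_ne_zero_of_mul c1)) (left_ne_zero_of_mul c1)).resolve_left
    (right_ne_zero_of_mul c1), x.1, fun j => x.2 (some j), b1, b8, a3⟩

end Pool.Agent.P.MP_9321be_ag.ND
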