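import Pool.Agent.P.MP_9321be_ag.ND.ZBasic

/-!
Hensel lifting for the motivic measure on a cell.
-/

namespace Pool.Agent.P.MP_9321be_ag.ND

open MvPolynomial Set

set_option linter.unusedSectionVars false

namespace Hensel

variable {σ : Type} [Fintype σ] [DecidableEq σ] {M : ℕ}

theorem scale (m : ℕ) (hm : m ≤ M + 1) : ∀ (v : σ → ℕ), (∀ i, v i ≤ m) →
    ∀ Φ : (σ → TR M) → Prop, Cons {x | Φ x} →
    pr {x | (∀ i, tt M ^ v i ∣ x i) ∧ Φ x} =
      lefInv ^ (∑ i, v i) * pr {y : σ → TR M | Φ fun i => tt M ^ v i * y i} := by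
  induction m with
  | zero =>
    intro v hv Φ _
    obtain rfl : v = fun _ => 0 := funext fun i => Nat.le_zero.1 (hv i)
    simp
  | succ m ih =>
    intro v hv Φ hΦ
    set J : Finset σ := Finset.univ.filter fun i => v i ≠ 0 with hJ
    have c0 : Cons {x : σ → TR M | (∀ i, tt M ^ v i ∣ x i) ∧ Φ x} :=
      Cons.and (cons_forall fun i : σ => (CFM.id.apply i).cons_dvd _) hΦ
    have c1 : CFM fun x : σ → TR M => fun s => if s ∈ J then tt M * x s else x s :=
      CFM.pi fun s => by
        by_cases h : s ∈ J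
        · simpa [h] using (CFM.const (tt M)).mul (CFM.id.apply s)
        · simpa [h] using CFM.id.apply s
    have h1 := pr_tt J c0
    have h2 := ih (by omega) (fun i => v i - 1) (fun i => by have := hv i; omega)
      (fun x => Φ fun s => if s ∈ J then tt M * x s else x s) (hΦ.preimage c1)
    have e1 : ∑ i, v i = J.card + ∑ i, (v i - 1) := by
      rw [hJ, Finset.card_filter, ← Finset.sum_add_distrib]
      exact Finset.sum_congr rfl fun i _ => by split_ifs <;> omega
    have e2 : ∀ y : σ → TR M, (fun s => if s ∈ J then tt M * (tt M ^ (v s - 1) * y s)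
        else tt M ^ (v s - 1) * y s) = fun s => tt M ^ v s * y s := fun y => by
      funext s
      rcases h : v s with _ | k
      · simp [hJ, h]
      · simp [hJ, h, pow_succ', mul_assoc]
    simp only [e2] at h2
    rw [e1, pow_add, mul_assoc, ← h2]
    refine Eq.trans (pr_congr fun x => (and_iff_right_of_imp fun h s hs => ?_).symm)
      (h1.trans (congrArg _ (pr_congr fun x => and_congr_left' (forall_congr' fun s => ?_))))
    · exact (dvd_pow_self _ (Finset.mem_filter.1 hs).2).trans (h.1 s)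
    · rcases h : v s with _ | k
      · simp
      · have := hv s
        simp [hJ, h, cancel_one (show k ≤ M by omega)]

theorem cfm_eval (P : MvPolynomial σ (TR M)) : CFM fun y : σ → TR M => eval y P := by
  induction P using MvPolynomial.induction_on with
  | C a => simpa using CFM.const a
  | add p q hp hq => simpa using hp.add hq
  | mul_X p i hp => simpa using hp.mul (CFM.id.apply i)

theorem taylor {R : Type} [CommRing R] (P : MvPolynomial σ R) (y : σ → R) (j : σ) (w : R) :
    ∃ r, eval (y + Pi.single j w) P = eval y P + w * eval y (pderiv j P) + w ^ 2 * r := by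
  induction P using MvPolynomial.induction_on with
  | C a => exact ⟨0, by simp⟩
  | add p q hp hq =>
    obtain ⟨r, hr⟩ := hp
    obtain ⟨s, hs⟩ := hq
    exact ⟨r + s, by simp only [map_add, hr, hs]; ring⟩
  | mul_X p i hp =>
    obtain ⟨r, hr⟩ := hp
    by_cases h : i = j
    · subst h
      exact ⟨eval y (pderiv i p) + r * (y i + w), by simp [hr]; ring⟩
    · exact ⟨r * y i, by simp [hr, h]; ring⟩

/-- Reduction modulo the uniformiser. -/
noncomputable def red (M : ℕ) : (σ → TR M) →ₗ[ℂ] σ → ℂ :=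
  LinearMap.pi fun i => (eps M).toLinearMap ∘ₗ LinearMap.proj i

theorem red_apply (y : σ → TR M) (i : σ) : red M y i = eps M (y i) := rfl

theorem red_surj : Function.Surjective (red M : (σ → TR M) → σ → ℂ) := fun p =>
  ⟨fun i => algebraMap ℂ _ (p i), funext fun i => by simp [red_apply]⟩

theorem eps_eval (P : MvPolynomial σ (TR M)) (y : σ → TR M) :
    eps M (eval y P) = eval (red M y) (map (eps M : TR M →+* ℂ) P) := by
  induction P using MvPolynomial.induction_on with
  | C a => simp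
  | add p q hp hq => simp [hp, hq]
  | mul_X p i hp => simp [hp, red_apply]

theorem eps_tt : eps M (tt M) = 0 := (eps_eq_zero _).2 dvd_rfl

theorem cons_U (I : Finset σ) : Cons {p : σ → ℂ | ∀ i ∉ I, p i ≠ 0} :=
  cons_forall fun i => (cons_const _).imp (CFM.id.apply i).cons_zero.not

theorem step (P : MvPolynomial σ (TR M)) (I : Finset σ)
    (hs : Smooth (map (eps M : TR M →+* ℂ) P) I) {k : ℕ} (hk : k + 1 ≤ M) :
    pr {y : σ → TR M | (∀ i ∉ I, red M y i ≠ 0) ∧ tt M ^ (k + 2) ∣ eval y P} =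
      lefInv * pr {y : σ → TR M | (∀ i ∉ I, red M y i ≠ 0) ∧ tt M ^ (k + 1) ∣ eval y P} := by
  obtain ⟨l, l1, l2⟩ := exists_coef hk
  set g := map (eps M : TR M →+* ℂ) P with hg
  obtain ⟨w, hw, H⟩ := exists_choice (Finset.univ : Finset σ)
    (G := fun j (p : σ → ℂ) => eval p (pderiv j g) ≠ 0)
    (fun j => Cons.not ⟨_, cf_eval _, rfl⟩)
    (r := fun j p => (Pi.single j ((eval p (pderiv j g))⁻¹ • tt M ^ (k + 1)) : σ → TR M))
    fun j => (CFM.smul (cf_eval _).inv (CFM.const _)).app
      (LinearMap.single ℂ (fun _ : σ => TR M) j)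
  have c0 : Cons {y : σ → TR M | (∀ i ∉ I, red M y i ≠ 0) ∧ tt M ^ (k + 1) ∣ eval y P} :=
    Cons.and ((cons_U I).preimage (CFM.lin (red M))) ((cfm_eval P).cons_dvd _)
  have key : ∀ (y : σ → TR M) (a : ℂ), ((∀ i ∉ I, red M y i ≠ 0) ∧ tt M ^ (k + 1) ∣ eval y P) →
      red M (y + a • w (red M y)) = red M y ∧
      ∃ s, eval (y + a • w (red M y)) P = eval y P + a • tt M ^ (k + 1) + tt M ^ (k + 2) * s := by
    intro y a hy
    have h0 : eval (red M y) g = 0 := by
      rw [hg, ← eps_eval, eps_eq_zero]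
      exact (dvd_pow_self _ k.succ_ne_zero).trans hy.2
    obtain ⟨j, -, h1, h2⟩ := H (red M y) (by
      obtain ⟨j, hj⟩ := hs _ hy.1 h0
      exact ⟨j, Finset.mem_univ _, hj⟩)
    rw [h2, ← Pi.single_smul]
    refine ⟨funext fun i => ?_, ?_⟩
    · by_cases h : i = j
      · subst h
        simp [red_apply, eps_tt]
      · simp [red_apply, h]
    · obtain ⟨r, hr⟩ := taylor P y j (a • (eval (red M y) (pderiv j g))⁻¹ • tt M ^ (k + 1))
      have h3 : eps M (eval y (pderiv j P)) = eval (red M y) (pderiv j g) := by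
        rw [eps_eval, hg, pderiv_map]
      generalize eval (red M y) (pderiv j g) = d at *
      obtain ⟨s, hs'⟩ : tt M ∣ eval y (pderiv j P) - algebraMap ℂ _ d := by
        rw [← eps_eq_zero]
        simp [h3]
      have h4 : algebraMap ℂ (TR M) d⁻¹ * algebraMap ℂ (TR M) d = 1 := by
        rw [← map_mul, inv_mul_cancel₀ h1, map_one]
      refine ⟨algebraMap ℂ _ a * algebraMap ℂ _ d⁻¹ * s +
        (algebraMap ℂ _ a * algebraMap ℂ _ d⁻¹) ^ 2 * tt M ^ k * r, ?_⟩
      rw [hr, eq_add_of_sub_eq hs']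
      simp only [Algebra.smul_def]
      linear_combination (algebraMap ℂ (TR M) a * tt M ^ (k + 1)) * h4
  have e := pr_flow c0 (cfm_eval P l) (v := fun y => w (red M y)) (hw.comp (CFM.lin (red M)))
    (fun y a hy => ?_) (fun y a hy => by rw [(key y a hy).1]) fun y a hy => ?_
  · refine Eq.trans (pr_congr fun y => ⟨fun h => ?_, fun h => ⟨h.2.1, (l2 _ h.2.2).1 h.1⟩⟩) e
    have := (pow_dvd_pow _ (Nat.le_succ (k + 1))).trans h.2
    exact ⟨(l2 _ this).2 h.2, h.1, this⟩
  · obtain ⟨h1, s, h2⟩ := key y a hy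
    rw [h1, h2]
    exact ⟨hy.1, (hy.2.add (by rw [Algebra.smul_def]; exact dvd_mul_left _ _)).add
      ((pow_dvd_pow _ (Nat.le_succ (k + 1))).mul_right _)⟩
  · obtain ⟨h1, s, h2⟩ := key y a hy
    have := (l2 (tt M ^ (k + 2) * s) ((pow_dvd_pow _ (Nat.le_succ (k + 1))).mul_right _)).2
      (dvd_mul_right _ _)
    simp only [h2, map_add, this, map_smul, l1]
    simp

theorem level (P : MvPolynomial σ (TR M)) (I : Finset σ)
    (hs : Smooth (map (eps M : TR M →+* ℂ) P) I) {k : ℕ} (hk : k ≤ M) :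
    pr {y : σ → TR M | (∀ i ∉ I, red M y i ≠ 0) ∧ tt M ^ (k + 1) ∣ eval y P} =
      lefInv ^ k * pr {p : σ → ℂ | (∀ i ∉ I, p i ≠ 0) ∧
        eval p (map (eps M : TR M →+* ℂ) P) = 0} := by
  induction k with
  | zero =>
    rw [pow_zero, one_mul, ← pr_surj (red M) red_surj ((cons_U I).and ⟨_, cf_eval _, rfl⟩)]
    exact pr_congr fun y => and_congr_right fun _ => by
      rw [zero_add, pow_one, ← eps_eq_zero, eps_eval]
  | succ k ih => rw [step P I hs hk, ih (by omega), pow_succ', mul_assoc]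

theorem ord (P : MvPolynomial σ (TR M)) (I : Finset σ)
    (hs : Smooth (map (eps M : TR M →+* ℂ) P) I) {k : ℕ} (hk : k ≤ M) :
    pr {y : σ → TR M | (∀ i ∉ I, red M y i ≠ 0) ∧ ordEq k (eval y P)} =
      lefInv ^ k * if k = 0 then pr {p : σ → ℂ | (∀ i ∉ I, p i ≠ 0) ∧
        eval p (map (eps M : TR M →+* ℂ) P) ≠ 0} else (algebraMap K0 MM lef - 1) *
        pr {p : σ → ℂ | (∀ i ∉ I, p i ≠ 0) ∧ eval p (map (eps M : TR M →+* ℂ) P) = 0} := by
  rcases k with _ | k
  · rw [if_pos rfl, pow_zero, one_mul,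
      ← pr_surj (red M) red_surj ((cons_U I).and (Cons.not ⟨_, cf_eval _, rfl⟩))]
    exact pr_congr fun y => and_congr_right fun _ => by
      rw [ordEq, zero_add, pow_one, ← eps_eq_zero, eps_eval]
      simp
  · have c0 : Cons {y : σ → TR M | (∀ i ∉ I, red M y i ≠ 0) ∧ tt M ^ (k + 1) ∣ eval y P} :=
      Cons.and ((cons_U I).preimage (CFM.lin (red M))) ((cfm_eval P).cons_dvd _)
    have e := pr_split c0 ((cfm_eval P).cons_dvd (tt M ^ (k + 1 + 1)))
    have e1 : pr {y : σ → TR M | tt M ^ (k + 1 + 1) ∣ eval y P ∧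
        (∀ i ∉ I, red M y i ≠ 0) ∧ tt M ^ (k + 1) ∣ eval y P} = _ :=
      (pr_congr fun y => ⟨fun h => ⟨h.2.1, h.1⟩, fun h =>
        ⟨h.2, h.1, (pow_dvd_pow _ (Nat.le_succ (k + 1))).trans h.2⟩⟩).trans (level P I hs hk)
    have e2 : pr {y : σ → TR M | ¬ tt M ^ (k + 1 + 1) ∣ eval y P ∧
        (∀ i ∉ I, red M y i ≠ 0) ∧ tt M ^ (k + 1) ∣ eval y P} =
        pr {y : σ → TR M | (∀ i ∉ I, red M y i ≠ 0) ∧ ordEq (k + 1) (eval y P)} :=
      pr_congr fun y => ⟨fun h => ⟨h.2.1, h.2.2, h.1⟩, fun h => ⟨h.2.2, h.1, h.2.1⟩⟩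
    rw [e1, e2, level P I hs (show k ≤ M by omega)] at e
    rw [if_neg k.succ_ne_zero]
    generalize pr {p : σ → ℂ | (∀ i ∉ I, p i ≠ 0) ∧
      eval p (map (eps M : TR M →+* ℂ) P) = 0} = P0 at *
    linear_combination (-1 : MM) * e - lefInv ^ k * P0 * lef_mul_inv

/-- The rescaled polynomial. -/
noncomputable def resc (M : ℕ) (f : MvPolynomial σ ℂ) (v : σ → ℕ) : MvPolynomial σ (TR M) :=
  ∑ a ∈ f.support, monomial a (algebraMap ℂ _ (coeff a f) * tt M ^ (dn a v - nn f.support v))

theorem map_resc (f : MvPolynomial σ ℂ) (v : σ → ℕ) :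
    map (eps M : TR M →+* ℂ) (resc M f v) = fp f (fc f.support v) := by
  rw [resc, map_sum, fp, fc, Finset.sum_filter]
  refine Finset.sum_congr rfl fun a ha => ?_
  have := nn_le ha v
  split_ifs with h
  · simp [h]
  · have h' : dn a v - nn f.support v ≠ 0 := by omega
    simp [eps_tt, h']

theorem aeval_resc (f : MvPolynomial σ ℂ) (v : σ → ℕ) (y : σ → TR M) :
    aeval (fun i => tt M ^ v i * y i) f = tt M ^ nn f.support v * eval y (resc M f v) := by
  rw [aeval_eq_sum, resc, map_sum, Finset.mul_sum]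
  refine Finset.sum_congr rfl fun a ha => ?_
  have h : tt M ^ dn a v = tt M ^ nn f.support v * tt M ^ (dn a v - nn f.support v) := by
    rw [← pow_add, Nat.add_sub_cancel' (nn_le ha v)]
  have h' : ∏ i, (tt M ^ v i) ^ a i = tt M ^ dn a v := by
    rw [dn, ← Finset.prod_pow_eq_pow_sum]
    exact Finset.prod_congr rfl fun i _ => by rw [← pow_mul, mul_comm]
  rw [eval_monomial, Finsupp.prod_fintype _ _ (by simp)]
  simp only [mul_pow, Finset.prod_mul_distrib, h', h]
  ring

end Hensel

open Hensel in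
theorem t_Hensel : S_Hensel := by
  intro σ _ _ f M l v I hl hv hs
  rw [hval]
  split_ifs with h1 h2
  · rw [← pr_empty (E := σ → TR M)]
    refine pr_congr fun x => iff_false_intro fun h => h.2.2 ?_
    rw [aeval_eq_sum]
    refine Finset.dvd_sum fun a ha => Dvd.dvd.mul_left ?_ _
    exact (pow_dvd_pow _ ((Nat.succ_le_of_lt h1).trans (nn_le ha v))).trans
      (prod_dvd Finset.univ a fun i _ => (h.1 i).1)
  all_goals
    have hN := not_lt.1 h1
    obtain ⟨k, rfl⟩ := Nat.exists_eq_add_of_le hN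
    have e1 := scale (M + 1) le_rfl v (fun i => (hv i).trans M.le_succ) _
      ((cons_inCell v I).and (cons_ordf f (nn f.support v + k)))
    have e2 := ord (resc M f v) I (by rw [map_resc]; exact hs hN) (k := k) (by omega)
    have e3 : pr {y : σ → TR M | inCell v I (fun i => tt M ^ v i * y i) ∧
        ordEq (nn f.support v + k) (aeval (fun i => tt M ^ v i * y i) f)} =
        pr {y : σ → TR M | (∀ i ∉ I, red M y i ≠ 0) ∧ ordEq k (eval y (resc M f v))} := by
      refine pr_congr fun y => and_congr (forall_congr' fun i => ?_) ?_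
      · have := hv i
        rw [cancel (by omega), pow_one, ← eps_eq_zero, red_apply]
        simp
      · rw [aeval_resc, ordEq, ordEq, add_assoc, cancel (by omega), cancel (by omega)]
    rw [map_resc, ← e3] at e2
    rw [e2, ← mul_assoc, ← pow_add] at e1
    rw [show ∑ i, v i + (nn f.support v + k) - nn f.support v = ∑ i, v i + k by omega]
    refine Eq.trans (pr_congr fun x => (and_iff_right_of_imp fun h i => (h.1 i).1).symm)
      (e1.trans ?_)
  · rw [if_pos (by omega)]
  · rw [if_neg (by omega)]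

end Pool.Agent.P.MP_9321be_ag.ND
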