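import Pool.Agent.P.MP_9321be_ag.ND.RtBasic

/-!
Generating series of the lattice points of a polyhedron.
-/

namespace Pool.Agent.P.MP_9321be_ag.ND

namespace Slice

open PowerSeries

variable {R : Type 1} [CommRing R] {ι : Type} [Fintype ι]

/-- Lattice points of a polyhedron. -/
def PP {κ : Type} (ℓ : κ → ι → ℤ) (b : κ → ℤ) : Set (ι → ℤ) := {z | ∀ k, b k ≤ ℓ k ⬝ᵥ z}

/-- Generating series of a set of lattice points. -/
noncomputable def gen (u : R) (e d : ι → ℤ) (S : Set (ι → ℤ)) : PowerSeries R :=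
  PowerSeries.mk fun l : ℕ => ∑ᶠ z ∈ {z : ι → ℤ | z ∈ S ∧ d ⬝ᵥ z = l}, u ^ (e ⬝ᵥ z).toNat

/-- Constraints that do not vanish identically on the recession cone. -/
def Kp {κ : Type} (ℓ : κ → ι → ℤ) : Set κ := {k | ∃ r, (∀ j, 0 ≤ ℓ j ⬝ᵥ r) ∧ 0 < ℓ k ⬝ᵥ r}

/-- The hypothesis on the point set. -/
def HP (e d : ι → ℤ) (S : Set (ι → ℤ)) : Prop :=
  (∀ l : ℕ, {z : ι → ℤ | z ∈ S ∧ d ⬝ᵥ z = l}.Finite) ∧ ∀ z ∈ S, 0 ≤ d ⬝ᵥ z ∧ 0 ≤ e ⬝ᵥ z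

/-- The hypothesis on the cone. -/
def HC {κ : Type} (ℓ : κ → ι → ℤ) (e d : ι → ℤ) (α : ℚ) : Prop :=
  ∀ r : ι → ℤ, r ≠ 0 → (∀ k, 0 ≤ ℓ k ⬝ᵥ r) → 0 < d ⬝ᵥ r ∧ 0 < e ⬝ᵥ r ∧
    (fun i => (e i : ℚ) - α * d i) ∉
      Submodule.span ℚ ((fun k i => (ℓ k i : ℚ)) '' {k | ℓ k ⬝ᵥ r = 0})

variable {u : R} {e d : ι → ℤ} {α : ℚ}

theorem HP.mono {S T : Set (ι → ℤ)} (h : HP e d T) (hS : S ⊆ T) : HP e d S :=
  ⟨fun l => (h.1 l).subset fun _ hz => ⟨hS hz.1, hz.2⟩, fun z hz => h.2 z (hS hz)⟩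

theorem PP_anti {κ : Type} (ℓ : κ → ι → ℤ) {b b' : κ → ℤ} (h : ∀ k, b k ≤ b' k) :
    PP ℓ b' ⊆ PP ℓ b := fun _ hz k => (h k).trans (hz k)

theorem gen_union {S T : Set (ι → ℤ)} (hd : Disjoint S T) (h : HP e d (S ∪ T)) :
    gen u e d (S ∪ T) = gen u e d S + gen u e d T := by
  ext l
  simp only [gen, map_add, coeff_mk]
  rw [← finsum_mem_union (hd.mono (fun _ hz => hz.1) fun _ hz => hz.1)
    ((h.mono Set.subset_union_left).1 l) ((h.mono Set.subset_union_right).1 l)]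
  have : {z : ι → ℤ | z ∈ S ∪ T ∧ d ⬝ᵥ z = l} =
      {z : ι → ℤ | z ∈ S ∧ d ⬝ᵥ z = l} ∪ {z : ι → ℤ | z ∈ T ∧ d ⬝ᵥ z = l} := by
    ext z
    simp only [Set.mem_union, Set.mem_ofPred_eq]
    tauto
  rw [this]

theorem gen_shift {S : Set (ι → ℤ)} (h : HP e d S) (r : ι → ℤ) (hd : 0 ≤ d ⬝ᵥ r)
    (he : 0 ≤ e ⬝ᵥ r) :
    C (u ^ (e ⬝ᵥ r).toNat) * X ^ (d ⬝ᵥ r).toNat * gen u e d S =
      gen u e d ((fun z => z + r) '' S) := by
  ext l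
  rw [mul_assoc, coeff_C_mul, coeff_X_pow_mul']
  simp only [gen, coeff_mk]
  split_ifs with hl
  · rw [mul_finsum_mem' _ _ (h.1 _)]
    refine finsum_mem_eq_of_bijOn (fun z => z + r) ⟨?_, ?_, ?_⟩ ?_
    · rintro z ⟨hz, hz'⟩
      refine ⟨⟨z, hz, rfl⟩, ?_⟩
      rw [dotProduct_add, hz']
      omega
    · exact fun z _ w _ hzw => add_right_cancel hzw
    · rintro _ ⟨⟨z, hz, rfl⟩, hz'⟩
      refine ⟨z, ⟨hz, ?_⟩, rfl⟩
      rw [dotProduct_add] at hz'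
      omega
    · rintro z ⟨hz, -⟩
      have := (h.2 z hz).2
      rw [← pow_add, dotProduct_add]
      congr 1
      omega
  · have : {z : ι → ℤ | z ∈ (fun z => z + r) '' S ∧ d ⬝ᵥ z = l} = ∅ := by
      ext w
      simp only [Set.mem_ofPred_eq, Set.mem_empty_iff_false, iff_false]
      rintro ⟨⟨z, hz, rfl⟩, hz'⟩
      have := (h.2 z hz).1
      rw [dotProduct_add] at hz'
      omega
    rw [this, finsum_mem_empty, mul_zero]

theorem PP_shift {κ : Type} (ℓ : κ → ι → ℤ) (b : κ → ℤ) (r : ι → ℤ) :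
    (fun z => z + r) '' PP ℓ b = PP ℓ fun k => b k + ℓ k ⬝ᵥ r := by
  ext w
  constructor
  · rintro ⟨z, hz, rfl⟩ k
    have := hz k
    change b k + ℓ k ⬝ᵥ r ≤ _
    rw [dotProduct_add]
    omega
  · intro hw
    refine ⟨w - r, fun k => ?_, sub_add_cancel _ _⟩
    have : b k + ℓ k ⬝ᵥ r ≤ _ := hw k
    rw [dotProduct_sub]
    omega

theorem gen_finite {S : Set (ι → ℤ)} (hS : S.Finite) {P : ℚ → Prop} : Rt u P (gen u e d S) := by
  obtain ⟨M, hM⟩ := (hS.image fun z => d ⬝ᵥ z).bddAbove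
  refine rt_of_eventually_zero (l₀ := M.toNat + 1) fun l hl => ?_
  have : {z : ι → ℤ | z ∈ S ∧ d ⬝ᵥ z = l} = ∅ := by
    ext w
    simp only [Set.mem_ofPred_eq, Set.mem_empty_iff_false, iff_false]
    rintro ⟨hw, hw'⟩
    have : d ⬝ᵥ w ≤ M := hM ⟨w, hw, rfl⟩
    omega
  simp only [gen, coeff_mk]
  rw [this, finsum_mem_empty]

theorem PP_finite {κ : Type} [Finite κ] (ℓ : κ → ι → ℤ) (b : κ → ℤ)
    (h : ∀ r : ι → ℤ, (∀ k, 0 ≤ ℓ k ⬝ᵥ r) → r = 0) : (PP ℓ b).Finite := by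
  by_contra hinf
  let f := Set.Infinite.natEmbedding _ hinf
  obtain ⟨m, n, hmn, hle⟩ := wellQuasiOrdered_le (α := κ → ℕ)
    fun n k => (ℓ k ⬝ᵥ (f n : ι → ℤ) - b k).toNat
  have h0 : (f n : ι → ℤ) - f m = 0 := by
    refine h _ fun k => ?_
    have h1 : (ℓ k ⬝ᵥ (f m : ι → ℤ) - b k).toNat ≤ (ℓ k ⬝ᵥ (f n : ι → ℤ) - b k).toNat := hle k
    have h2 := (f m).2 k
    have h3 := (f n).2 k
    rw [dotProduct_sub]
    omega
  exact hmn.ne' (f.injective (Subtype.ext (sub_eq_zero.1 h0)))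

theorem cast_dot (a x : ι → ℤ) : ((a ⬝ᵥ x : ℤ) : ℚ) = ∑ i, (a i : ℚ) * x i := by
  simp [dotProduct]

/-- An integral vector orthogonal to given integral vectors and not to another vector. -/
theorem exists_int {κ : Type} (ℓ : κ → ι → ℤ) (T : Set κ) (H : ι → ℚ)
    (h : H ∉ Submodule.span ℚ ((fun k i => (ℓ k i : ℚ)) '' T)) :
    ∃ x : ι → ℤ, (∀ k ∈ T, ℓ k ⬝ᵥ x = 0) ∧ ∑ i, H i * x i ≠ 0 := by
  classical
  obtain ⟨f, hf, hf'⟩ := Submodule.exists_dual_map_eq_bot_of_notMem h inferInstance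
  obtain ⟨c, hc⟩ := IsLocalization.exist_integer_multiples_of_finite (nonZeroDivisors ℤ)
    (S := ℚ) fun i => f fun j => if i = j then 1 else 0
  choose x hx using hc
  have hc0 : ((c : ℤ) : ℚ) ≠ 0 := by exact_mod_cast nonZeroDivisors.coe_ne_zero c
  have key : ∀ y : ι → ℚ, ∑ i, y i * x i = ((c : ℤ) : ℚ) * f y := by
    intro y
    rw [LinearMap.pi_apply_eq_sum_univ f y, Finset.mul_sum]
    refine Finset.sum_congr rfl fun i _ => ?_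
    have := hx i
    simp only [algebraMap_int_eq, eq_intCast, zsmul_eq_mul] at this
    rw [this, smul_eq_mul]
    ring
  refine ⟨x, fun k hk => ?_, by rw [key]; exact mul_ne_zero hc0 hf⟩
  have h1 : f (fun i => (ℓ k i : ℚ)) = 0 := by
    have : f (fun i => (ℓ k i : ℚ)) ∈ (⊥ : Submodule ℚ ℚ) := by
      rw [← hf']
      exact Submodule.mem_map_of_mem (Submodule.subset_span ⟨k, hk, rfl⟩)
    simpa using this
  have h2 := key fun i => (ℓ k i : ℚ)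
  rw [h1, mul_zero, ← cast_dot] at h2
  exact_mod_cast h2

/-- A vector of the cone of allowed slope. -/
theorem exists_ray {κ : Type} [Fintype κ] {ℓ : κ → ι → ℤ} (h : HC ℓ e d α)
    (hK : (Kp ℓ).Nonempty) : ∃ r : ι → ℤ, (∀ k, 0 ≤ ℓ k ⬝ᵥ r) ∧ 0 < d ⬝ᵥ r ∧ 0 < e ⬝ᵥ r ∧
      ((e ⬝ᵥ r : ℤ) : ℚ) ≠ α * ((d ⬝ᵥ r : ℤ) : ℚ) := by
  classical
  have h1 : ∀ k, ∃ r : ι → ℤ, (∀ j, 0 ≤ ℓ j ⬝ᵥ r) ∧ (k ∈ Kp ℓ → 0 < ℓ k ⬝ᵥ r) := by
    intro k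
    by_cases hk : k ∈ Kp ℓ
    · obtain ⟨r, hr, hr'⟩ := hk
      exact ⟨r, hr, fun _ => hr'⟩
    · exact ⟨0, by simp, fun h => absurd h hk⟩
  choose w hw hw' using h1
  obtain ⟨r₀, hr, hr'⟩ : ∃ r₀ : ι → ℤ, (∀ j, 0 ≤ ℓ j ⬝ᵥ r₀) ∧ ∀ k ∈ Kp ℓ, 0 < ℓ k ⬝ᵥ r₀ := by
    refine ⟨∑ k, w k, fun j => ?_, fun k hk => ?_⟩
    · rw [dotProduct_sum]
      exact Finset.sum_nonneg fun k _ => hw k j
    · rw [dotProduct_sum]
      exact Finset.sum_pos' (fun j _ => hw j k) ⟨k, Finset.mem_univ _, hw' k hk⟩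
  obtain ⟨k₀, hk₀⟩ := hK
  have hne : ∀ r : ι → ℤ, 0 < ℓ k₀ ⬝ᵥ r → r ≠ 0 := by
    rintro r hr rfl
    simp at hr
  have hH : ∀ x : ι → ℤ, ∑ i, ((e i : ℚ) - α * d i) * x i =
      ((e ⬝ᵥ x : ℤ) : ℚ) - α * ((d ⬝ᵥ x : ℤ) : ℚ) := by
    intro x
    rw [cast_dot, cast_dot, Finset.mul_sum, ← Finset.sum_sub_distrib]
    exact Finset.sum_congr rfl fun i _ => by ring
  obtain ⟨hd, he, hs⟩ := h r₀ (hne _ (hr' k₀ hk₀)) hr
  by_cases h0 : ((e ⬝ᵥ r₀ : ℤ) : ℚ) = α * ((d ⬝ᵥ r₀ : ℤ) : ℚ)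
  swap
  · exact ⟨r₀, hr, hd, he, h0⟩
  obtain ⟨x, hx, hx'⟩ := exists_int ℓ _ _ hs
  rw [hH] at hx'
  set N : ℤ := ∑ k, |ℓ k ⬝ᵥ x| + 1 with hN
  have hN' : ∀ k, |ℓ k ⬝ᵥ x| < N := fun k => by
    have := Finset.single_le_sum (f := fun k => |ℓ k ⬝ᵥ x|) (fun j _ => abs_nonneg _)
      (Finset.mem_univ k)
    omega
  have hpos : ∀ k, 0 < ℓ k ⬝ᵥ r₀ → 0 < ℓ k ⬝ᵥ (N • r₀ + x) := fun k hk => by
    rw [dotProduct_add, dotProduct_smul, smul_eq_mul]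
    have h2 := hN' k
    have h3 := neg_abs_le (ℓ k ⬝ᵥ x)
    have h4 := abs_nonneg (ℓ k ⬝ᵥ x)
    nlinarith
  have hC : ∀ k, 0 ≤ ℓ k ⬝ᵥ (N • r₀ + x) := fun k => by
    rcases (hr k).eq_or_lt with hk | hk
    · rw [dotProduct_add, dotProduct_smul, ← hk, hx k hk.symm]
      simp
    · exact (hpos k hk).le
  obtain ⟨hd', he', -⟩ := h _ (hne _ (hpos k₀ (hr' k₀ hk₀))) hC
  refine ⟨_, hC, hd', he', fun h5 => hx' ?_⟩
  simp only [dotProduct_add, dotProduct_smul, smul_eq_mul, Int.cast_add, Int.cast_mul] at h5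
  rw [h0] at h5
  linear_combination h5

/-- The constraints of a slice. -/
def ext {κ : Type} (ℓ : κ → ι → ℤ) (k : κ) : Option κ → ι → ℤ
  | none => -ℓ k
  | some j => ℓ j

theorem ext_cone {κ : Type} {ℓ : κ → ι → ℤ} {k : κ} {r : ι → ℤ} (h : ∀ j, 0 ≤ ext ℓ k j ⬝ᵥ r) :
    (∀ j, 0 ≤ ℓ j ⬝ᵥ r) ∧ ℓ k ⬝ᵥ r = 0 := by
  have h1 : 0 ≤ -ℓ k ⬝ᵥ r := h none
  have h2 : 0 ≤ ℓ k ⬝ᵥ r := h (some k)
  rw [neg_dotProduct] at h1
  exact ⟨fun j => h (some j), by omega⟩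

theorem HC.ext {κ : Type} {ℓ : κ → ι → ℤ} (h : HC ℓ e d α) (k : κ) : HC (ext ℓ k) e d α := by
  intro r hr hC
  obtain ⟨h1, h2⟩ := ext_cone hC
  obtain ⟨hd, he, hs⟩ := h r hr h1
  refine ⟨hd, he, fun h3 => hs (Submodule.span_le.2 ?_ h3)⟩
  rintro _ ⟨j, hj, rfl⟩
  cases j with
  | none =>
    have : (fun i => (ℓ k i : ℚ)) ∈
        Submodule.span ℚ ((fun k i => (ℓ k i : ℚ)) '' {k | ℓ k ⬝ᵥ r = 0}) :=
      Submodule.subset_span ⟨k, h2, rfl⟩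
    have e1 : (fun i => ((Slice.ext ℓ k none i : ℤ) : ℚ)) = -fun i => (ℓ k i : ℚ) := by
      funext i
      simp [Slice.ext]
    have h4 := neg_mem this
    rw [← e1] at h4
    exact h4
  | some j => exact Submodule.subset_span ⟨j, hj, rfl⟩

theorem ncard_ext {κ : Type} [Finite κ] (ℓ : κ → ι → ℤ) {k : κ} (hk : k ∈ Kp ℓ) :
    (Kp (ext ℓ k)).ncard < (Kp ℓ).ncard := by
  have : Kp (ext ℓ k) ⊆ some '' (Kp ℓ \ {k}) := by
    rintro j ⟨r, hr, hj⟩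
    obtain ⟨h1, h2⟩ := ext_cone hr
    cases j with
    | none =>
      have h3 : 0 < -ℓ k ⬝ᵥ r := hj
      rw [neg_dotProduct] at h3
      omega
    | some j =>
      have h3 : 0 < ℓ j ⬝ᵥ r := hj
      refine ⟨j, ⟨⟨r, h1, h3⟩, ?_⟩, rfl⟩
      rintro rfl
      omega
  refine (Set.ncard_le_ncard this).trans_lt ?_
  rw [Set.ncard_image_of_injective _ (Option.some_injective _)]
  exact Set.ncard_sdiff_singleton_lt_of_mem hk

theorem telescope {κ : Type} [Finite κ] {ℓ : κ → ι → ℤ} {b : κ → ℤ} {P : ℚ → Prop}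
    (h : HP e d (PP ℓ b))
    (ih : ∀ k ∈ Kp ℓ, ∀ b' : Option κ → ℤ, HP e d (PP (ext ℓ k) b') →
      Rt u P (gen u e d (PP (ext ℓ k) b')))
    (c : κ → ℕ) (hc : ∀ k, c k ≠ 0 → k ∈ Kp ℓ) :
    Rt u P (gen u e d (PP ℓ b) - gen u e d (PP ℓ fun k => b k + c k)) := by
  classical
  induction c using WellFoundedLT.induction with
  | ind c ihc =>
  by_cases h0 : ∀ k, c k = 0
  · simpa [h0] using rt_zero
  push Not at h0
  obtain ⟨k, hk⟩ := h0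
  set c' : κ → ℕ := Function.update c k (c k - 1) with hc'
  have e1 : c' k = c k - 1 := by simp [hc']
  have e2 : ∀ j, j ≠ k → c' j = c j := fun j hj => by simp [hc', hj]
  have hlt : c' < c := by
    rw [hc', update_lt_self_iff]
    omega
  have hc'' : ∀ j, c' j ≠ 0 → j ∈ Kp ℓ := fun j hj => hc j fun h1 => hj (by
    have : c' j ≤ c j := hlt.le j
    omega)
  let b' : Option κ → ℤ := fun j => j.elim (-(b k + c' k)) fun j => b j + c' j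
  have hU : (PP ℓ fun j => b j + c' j) = (PP ℓ fun j => b j + c j) ∪ PP (ext ℓ k) b' := by
    ext z
    constructor
    · intro hz
      by_cases h1 : b k + c k ≤ ℓ k ⬝ᵥ z
      · refine Or.inl fun j => ?_
        by_cases hj : j = k
        · rw [hj]
          exact h1
        · have : b j + c' j ≤ _ := hz j
          rwa [e2 j hj] at this
      · refine Or.inr fun j => ?_
        cases j with
        | none =>
          change -(b k + c' k) ≤ -ℓ k ⬝ᵥ z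
          rw [neg_dotProduct]
          omega
        | some j => exact hz j
    · rintro (hz | hz) j
      · have h1 : b j + c j ≤ _ := hz j
        have h2 : c' j ≤ c j := hlt.le j
        change b j + c' j ≤ _
        omega
      · exact hz (some j)
  have hD : Disjoint (PP ℓ fun j => b j + c j) (PP (ext ℓ k) b') := by
    refine Set.disjoint_left.2 fun z hz hz' => ?_
    have h1 : b k + c k ≤ ℓ k ⬝ᵥ z := hz k
    have h2 : -(b k + c' k) ≤ -ℓ k ⬝ᵥ z := hz' none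
    rw [neg_dotProduct] at h2
    omega
  have hP : HP e d (PP ℓ fun j => b j + c' j) := h.mono (PP_anti ℓ fun j => by omega)
  have h1 := ihc c' hlt hc''
  rw [hU] at hP
  rw [hU, gen_union hD hP] at h1
  have h2 := h1.add (ih k (hc k hk) b' (hP.mono Set.subset_union_right))
  convert h2 using 1
  ring

theorem main (n : ℕ) : ∀ (κ : Type) [Fintype κ] (ℓ : κ → ι → ℤ) (b : κ → ℤ),
    (Kp ℓ).ncard = n → HP e d (PP ℓ b) → HC ℓ e d α → Rt u (· ≠ α) (gen u e d (PP ℓ b)) := by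
  induction n using Nat.strong_induction_on with
  | _ n ih =>
  intro κ _ ℓ b hn hP hC
  rcases (Kp ℓ).eq_empty_or_nonempty with hK | hK
  · refine gen_finite (PP_finite ℓ b fun r hr => ?_)
    by_contra hr0
    have h0 : ∀ k, 0 ≤ ℓ k ⬝ᵥ (-r) := fun k => by
      have h1 : ¬ 0 < ℓ k ⬝ᵥ r := fun h => (hK.subset ⟨r, hr, h⟩ : k ∈ (∅ : Set κ))
      rw [dotProduct_neg]
      omega
    have h1 := (hC r hr0 hr).1
    have h2 := (hC (-r) (neg_ne_zero.2 hr0) h0).1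
    rw [dotProduct_neg] at h2
    omega
  obtain ⟨r, hr, hd, he, hs⟩ := exists_ray hC hK
  have h1 := telescope (u := u) (P := (· ≠ α)) hP
    (fun k hk b' hb' => ih _ (hn ▸ ncard_ext ℓ hk) _ _ b' rfl hb' (hC.ext k))
    (fun k => (ℓ k ⬝ᵥ r).toNat) fun k hk => ⟨r, hr, by omega⟩
  have h2 : (fun k => b k + ((ℓ k ⬝ᵥ r).toNat : ℤ)) = fun k => b k + ℓ k ⬝ᵥ r :=
    funext fun k => by rw [Int.toNat_of_nonneg (hr k)]
  rw [h2, ← PP_shift, ← gen_shift hP r hd.le he.le] at h1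
  refine Rt.of_mul (m := (d ⬝ᵥ r).toNat) (s := (e ⬝ᵥ r).toNat) (by omega) (by omega) ?_ ?_
  · have h3 : (((d ⬝ᵥ r).toNat : ℕ) : ℚ) = ((d ⬝ᵥ r : ℤ) : ℚ) := by
      rw [← Int.cast_natCast, Int.toNat_of_nonneg hd.le]
    have h4 : (((e ⬝ᵥ r).toNat : ℕ) : ℚ) = ((e ⬝ᵥ r : ℤ) : ℚ) := by
      rw [← Int.cast_natCast, Int.toNat_of_nonneg he.le]
    have h5 : ((d ⬝ᵥ r : ℤ) : ℚ) ≠ 0 := by exact_mod_cast hd.ne'
    rw [h3, h4]
    exact fun h6 => hs ((div_eq_iff h5).1 h6)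
  · rwa [sub_mul, one_mul]

end Slice

theorem t_Slice : S_Slice := fun _ _ _ _ κ _ _ ℓ b _ _ _ h1 h2 h3 =>
  Slice.main _ κ ℓ b rfl ⟨h1, h2⟩ h3

end Pool.Agent.P.MP_9321be_ag.ND
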