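import Pool.Agent.P.MP_9321be_ag.ND.CBStep

/-!
Claim B: if every contributing simplex has an apex, there is a strong set.
-/

namespace Pool.Agent.P.MP_9321be_ag.ND

open Finset Submodule Module CB

set_option linter.unusedSectionVars false

variable {ι : Type} [Fintype ι] [DecidableEq ι] {X : Finset (ι →₀ ℕ)} {T T' Q H : Finset ι}

theorem CB.indep_iff : Indep X T ↔
    ∀ a ∈ X, ∀ i ∈ T, a i ≠ 0 → a i = 1 ∧ ∀ j ∈ T, j ≠ i → a j = 0 := by
  refine forall₂_congr fun a _ => ⟨fun h i hi h0 => ?_, fun h => ?_⟩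
  · rw [← add_sum_erase _ _ hi] at h
    exact ⟨by omega, fun j hj hne =>
      sum_eq_zero_iff.1 (by omega : ∑ j ∈ T.erase i, a j = 0) j (mem_erase.2 ⟨hne, hj⟩)⟩
  · by_cases h0 : ∃ i ∈ T, a i ≠ 0
    · obtain ⟨i, hi, h0⟩ := h0
      rw [sum_eq_single_of_mem i hi (h i hi h0).2, (h i hi h0).1]
    · rw [sum_eq_zero fun i hi => by_contra fun h1 => h0 ⟨i, hi, h1⟩]
      exact zero_le_one

theorem CB.valid_iff : Valid X T ↔ Indep X T ∧ rk (ZZ X T) < 2 * T.card := by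
  refine and_congr_right fun h => ?_
  have : (X.filter fun a => ∑ i ∈ T, a i = 1) = ZZ X T := filter_congr fun a ha => by
    have := h a ha
    rw [← not_iff_not]
    push Not
    rw [← sum_eq_zero_iff]
    omega
  rw [this, rk]

theorem Indep.same (h : Indep X T) {a : ι →₀ ℕ} (ha : a ∈ X) {i j : ι} (hi : i ∈ T) (hj : j ∈ T)
    (h1 : a i ≠ 0) (h2 : a j ≠ 0) : i = j :=
  by_contra fun e => h2 ((indep_iff.1 h a ha i hi h1).2 j hj (Ne.symm e))

/-- The rank count for a minimal valid set. -/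
theorem MinValid.rel (h : MinValid X T) (hQ : Q ⊆ T) (hQ0 : Q.Nonempty) (hH : 2 * Q.card ≤ H.card)
    (hv : ∀ a ∈ X, ∀ t ∈ T, t ∉ Q → a t ≠ 0 → ∀ j ∈ H, a j = 0) :
    ∃ γ : ι → ℚ, γ ≠ 0 ∧ (∀ j ∉ H, γ j = 0) ∧ ∀ a ∈ ZZ X T, ∑ j, a j * γ j = 0 := by
  obtain ⟨h1, h2⟩ := valid_iff.1 h.1
  have h3 : 2 * (T \ Q).card ≤ rk (ZZ X (T \ Q)) := not_lt.1 fun h3 =>
    h.2 _ (sdiff_ssubset hQ hQ0) (valid_iff.2
      ⟨fun a ha => (sum_le_sum_of_subset sdiff_subset).trans (h1 a ha), h3⟩)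
  let U := span ℚ (vec '' (ZZ X T : Set (ι →₀ ℕ)))
  let V := span ℚ ((Hᶜ.image fun j => Pi.single j 1 : Finset (ι → ℚ)) : Set (ι → ℚ))
  have h4 : finrank ℚ V ≤ Hᶜ.card := (finrank_span_finset_le_card _).trans card_image_le
  have h5 : rk (ZZ X (T \ Q)) ≤ finrank ℚ (U ⊓ V : Submodule ℚ (ι → ℚ)) := by
    refine Submodule.finrank_mono (span_le.2 ?_)
    rintro _ ⟨a, ha, rfl⟩
    obtain ⟨ha, t, ht, h0⟩ := mem_ZZ.1 ha
    obtain ⟨ht, ht'⟩ := Finset.mem_sdiff.1 ht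
    refine ⟨subset_span ⟨a, mem_ZZ.2 ⟨ha, t, ht, h0⟩, rfl⟩, ?_⟩
    rw [pi_eq_sum_univ' (vec a)]
    refine sum_mem fun j _ => ?_
    by_cases hj : j ∈ H
    · simp [vec, hv a ha t ht ht' h0 j hj]
    · exact smul_mem _ _ (subset_span (by simpa using ⟨j, hj, rfl⟩))
  have h6 := Submodule.finrank_sup_add_finrank_inf_eq U V
  have h7 := card_add_card_compl H
  have h8 := card_sdiff_add_card_eq_card hQ
  obtain ⟨f, f0, f1⟩ := (U ⊔ V).exists_le_ker_of_lt_top (lt_top_iff_ne_top.2 fun e => by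
    rw [e, finrank_top, finrank_fintype_fun_eq_card] at h6
    change finrank ℚ U < _ at h2
    omega)
  have hf : ∀ x, f x = ∑ j, x j * f (Pi.single j 1) := fun x => by
    conv_lhs => rw [pi_eq_sum_univ' x]
    simp
  refine ⟨fun j => f (Pi.single j 1), fun e => f0 (LinearMap.ext fun x => ?_), fun j hj =>
    f1 (mem_sup_right (subset_span (by simpa using ⟨j, hj, rfl⟩))), fun a ha =>
    (hf (vec a)).symm.trans (f1 (mem_sup_left (subset_span ⟨a, ha, rfl⟩)))⟩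
  rw [hf]
  exact sum_eq_zero fun j _ => by rw [show f (Pi.single j 1) = 0 from congrFun e j, mul_zero]

/-- The conflict graph of two sets. -/
def CB.Conf (X : Finset (ι →₀ ℕ)) (T T' : Finset ι) (i k : ι) : Prop :=
  ((i ∈ T ∧ i ∉ T' ∧ k ∈ T' ∧ k ∉ T) ∨ (k ∈ T ∧ k ∉ T' ∧ i ∈ T' ∧ i ∉ T)) ∧
    ∃ a ∈ X, a i ≠ 0 ∧ a k ≠ 0

theorem CB.Conf.swap {i k : ι} (h : Conf X T T' i k) : Conf X T' T i k := ⟨by
  have := h.1
  tauto, h.2⟩

/-- Inside a component of the conflict graph a relation is determined by one value. -/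
theorem MinValid.comp (h : MinValid X T) (h' : Indep X T') {C : Finset ι} {i0 : ι}
    (hC : ∀ j, j ∈ C ↔ Relation.ReflTransGen (Conf X T T') i0 j)
    (hD : ∀ j ∈ C, (j ∈ T ∧ j ∉ T') ∨ (j ∈ T' ∧ j ∉ T)) (h0 : (C ∩ T).Nonempty) (hH : H ⊆ C)
    (hc : 2 * (C ∩ T).card ≤ H.card) :
    ∃ r : ℚ, r ≠ 0 ∧ H = C ∧
      ∀ a ∈ ZZ X T, ∑ j ∈ C ∩ T, a j = ∑ j ∈ C ∩ T', a j := by
  obtain ⟨γ, g0, g1, g2⟩ := h.rel inter_subset_right h0 hc fun a ha t ht ht' h1 j hj =>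
    by_contra fun h2 => ht' (mem_inter.2 ⟨by
      rcases hD j (hH hj) with h3 | h3
      · exact h.1.1.same ha h3.1 ht h2 h1 ▸ hH hj
      · exact (hC t).2 (((hC j).1 (hH hj)).tail ⟨.inr ⟨ht, fun h4 =>
          h3.2 (h'.same ha h4 h3.1 h1 h2 ▸ ht), h3⟩, a, ha, h2, h1⟩), ht⟩)
  have e1 : ∀ i ∈ C, ∀ k, i ∈ T → i ∉ T' → k ∈ T' → k ∉ T → ∀ a ∈ X, a i ≠ 0 → a k ≠ 0 →
      γ i + γ k = 0 := fun i hi k h1 h2 h3 h4 a ha h5 h6 => by
    have := g2 a (mem_ZZ.2 ⟨ha, i, h1, h5⟩)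
    rw [← sum_subset (subset_univ {i, k}) fun j _ hj => ?_, sum_pair (by rintro rfl; exact h2 h3),
      (indep_iff.1 h.1.1 a ha i h1 h5).1, (indep_iff.1 h' a ha k h3 h6).1] at this
    · simpa using this
    · by_cases h7 : j ∈ H
      · rw [show a j = 0 from by_contra fun h8 => hj ?_, Nat.cast_zero, zero_mul]
        rcases hD j (hH h7) with h9 | h9
        · simp [h.1.1.same ha h9.1 h1 h8 h5]
        · simp [h'.same ha h9.1 h3 h8 h6]
      · rw [g1 j h7, mul_zero]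
  set r := if i0 ∈ T then γ i0 else -γ i0 with hr
  have e2 : ∀ j ∈ C, γ j = if j ∈ T then r else -r := fun j hj => by
    replace hj := (hC j).1 hj
    induction hj with
    | refl => split_ifs with h1 <;> simp [hr, h1]
    | @tail i k h1 h2 ih =>
      obtain ⟨h2 | h2, a, ha, h3, h4⟩ := id h2
      · have := e1 i ((hC i).2 h1) k h2.1 h2.2.1 h2.2.2.1 h2.2.2.2 a ha h3 h4
        rw [if_pos h2.1] at ih
        rw [if_neg h2.2.2.2]
        linarith
      · have := e1 k ((hC k).2 (h1.tail ‹_›)) i h2.1 h2.2.1 h2.2.2.1 h2.2.2.2 a ha h4 h3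
        rw [if_neg h2.2.2.2] at ih
        rw [if_pos h2.1]
        linarith
  have e3 : r ≠ 0 := fun e => g0 (funext fun j => by
    by_cases hj : j ∈ H
    · simp [e2 j (hH hj), e]
    · exact g1 j hj)
  refine ⟨r, e3, hH.antisymm fun j hj => by_contra fun h1 => e3 ?_, fun a ha => ?_⟩
  · have := e2 j hj
    rw [g1 j h1] at this
    split_ifs at this <;> linarith
  · have h1 := g2 a ha
    rw [← sum_subset (subset_univ C) fun j _ hj => by rw [g1 j fun h => hj (hH h), mul_zero],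
      ← sum_inter_add_sum_sdiff C T, show C \ T = C ∩ T' by
        ext j
        simp only [Finset.mem_sdiff, mem_inter, and_congr_right_iff]
        intro hj
        have := hD j hj
        tauto, sum_congr rfl (g := fun j => a j * r) fun j hj => by
        rw [e2 j (mem_inter.1 hj).1, if_pos (mem_inter.1 hj).2],
      sum_congr rfl (s₁ := C ∩ T') (g := fun j => a j * -r) fun j hj => by
        have := hD j (mem_inter.1 hj).1
        have := (mem_inter.1 hj).2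
        rw [e2 j (mem_inter.1 hj).1, if_neg (by tauto)], ← sum_mul, ← sum_mul, mul_neg,
      ← sub_eq_add_neg, ← sub_mul, mul_eq_zero, sub_eq_zero] at h1
    exact_mod_cast h1.resolve_right e3

theorem CB.exists_minValid (h : Valid X T) : ∃ T' ⊆ T, MinValid X T' := by
  obtain ⟨T', h1, h2⟩ := exists_minimal_le_of_wellFoundedLT (Valid X) T h
  exact ⟨T', h1, h2.1, fun S hS h => hS.not_ge (h2.2 h hS.le)⟩

/-- A minimal valid set of free coordinates is strong. -/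
theorem CB.Setup.Gen.strong {D : Setup X} {ν : (ι →₀ ℕ) → ℚ} (g : D.Gen X ν) (hT : T ⊆ D.SS X ν)
    (h : MinValid X T) : Strong X T := by
  classical
  refine ⟨h, fun T' h' => by_contra fun hn => ?_⟩
  obtain ⟨i0, k0, h0⟩ : ∃ i k, (i ∈ T ∧ i ∉ T' ∧ k ∈ T' ∧ k ∉ T) ∧ ∃ a ∈ X, a i ≠ 0 ∧ a k ≠ 0 := by
    by_contra hc
    refine hn (indep_iff.2 fun a ha i hi h1 => ⟨?_, fun j hj hne => by_contra fun h2 => ?_⟩)
    · exact (mem_union.1 hi).elim (fun hi => (indep_iff.1 h.1.1 a ha i hi h1).1)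
        fun hi => (indep_iff.1 h'.1.1 a ha i hi h1).1
    · have e1 : ¬ (i ∈ T ∧ j ∈ T) := fun e => hne (h.1.1.same ha e.2 e.1 h2 h1)
      have e2 : ¬ (i ∈ T' ∧ j ∈ T') := fun e => hne (h'.1.1.same ha e.2 e.1 h2 h1)
      rw [mem_union] at hi hj
      by_cases e3 : i ∈ T
      · exact hc ⟨i, j, by tauto, a, ha, h1, h2⟩
      · exact hc ⟨j, i, by tauto, a, ha, h2, h1⟩
  let C := univ.filter (Relation.ReflTransGen (Conf X T T') i0)
  have hC : ∀ j, j ∈ C ↔ Relation.ReflTransGen (Conf X T T') i0 j := fun j => by simp [C]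
  have hC' : ∀ j, j ∈ C ↔ Relation.ReflTransGen (Conf X T' T) i0 j := fun j =>
    (hC j).trans ⟨Relation.ReflTransGen.mono (fun _ _ => Conf.swap) _ _,
      Relation.ReflTransGen.mono (fun _ _ => Conf.swap) _ _⟩
  have hD : ∀ j ∈ C, (j ∈ T ∧ j ∉ T') ∨ (j ∈ T' ∧ j ∉ T) := fun j hj => by
    rcases ((hC j).1 hj).cases_tail with rfl | ⟨_, _, h1, -⟩
    · exact .inl ⟨h0.1.1, h0.1.2.1⟩
    · tauto
  have hi0 : i0 ∈ C ∩ T := mem_inter.2 ⟨(hC _).2 .refl, h0.1.1⟩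
  have hk0 : k0 ∈ C ∩ T' := mem_inter.2 ⟨(hC _).2 (.single ⟨.inl h0.1, h0.2⟩), h0.1.2.2.1⟩
  have hcard : (C ∩ T).card + (C ∩ T').card = C.card := by
    rw [← card_union_of_disjoint (disjoint_left.2 fun j h1 h2 => by
      have := hD j (mem_inter.1 h1).1
      have := (mem_inter.1 h1).2
      have := (mem_inter.1 h2).2
      tauto), ← inter_union_distrib_left, inter_eq_left.2 fun j hj => by
      have := hD j hj
      rw [mem_union]
      tauto]
  have h1 : (C ∩ T').card ≤ (C ∩ T).card := not_lt.1 fun h1 => by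
    have := card_erase_add_one (mem_inter.1 hi0).1
    obtain ⟨-, -, h2, -⟩ := h.comp h'.1.1 hC hD ⟨_, hi0⟩ (erase_subset i0 C) (by omega)
    rw [h2] at this
    omega
  have h2 : (C ∩ T).card ≤ (C ∩ T').card := not_lt.1 fun h2 => by
    have := card_erase_add_one (mem_inter.1 hi0).1
    obtain ⟨-, -, h2, -⟩ := h'.comp h.1.1 hC' (fun j hj => (hD j hj).symm) ⟨_, hk0⟩
      (erase_subset i0 C) (by omega)
    rw [h2] at this
    omega
  obtain ⟨-, -, -, h3⟩ := h'.comp h.1.1 hC' (fun j hj => (hD j hj).symm) ⟨_, hk0⟩ subset_rfl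
    (by omega)
  have h4 : ∑ j ∈ C ∩ T', PP X ν j ≤ ∑ j ∈ C ∩ T, PP X ν j := by
    simp only [PP_apply]
    rw [sum_comm, sum_comm (s := C ∩ T)]
    refine sum_le_sum fun a ha => ?_
    rw [← mul_sum, ← mul_sum]
    refine mul_le_mul_of_nonneg_left ?_ (g.adm.2.1 a)
    by_cases h4 : a ∈ ZZ X T'
    · exact_mod_cast (h3 a h4).le
    · rw [sum_eq_zero fun j hj => Nat.cast_eq_zero.2 (by_contra fun h5 =>
        h4 (mem_ZZ.2 ⟨ha, j, (mem_inter.1 hj).2, h5⟩))]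
      positivity
  have h5 : ∑ j ∈ C ∩ T, PP X ν j = (C ∩ T).card := by
    rw [sum_congr rfl fun j hj =>
      g.adm.2.2.2.1 j (D.sub (Setup.mem_SS.1 (hT (mem_inter.1 hj).2)).1)]
    simp
  have h6 : ∑ j ∈ C ∩ T', (1 : ℚ) < ∑ j ∈ C ∩ T', PP X ν j :=
    sum_lt_sum_of_nonempty ⟨_, hk0⟩ fun k hk => (g.adm.2.2.1 k).lt_of_ne' fun h6 => by
      obtain ⟨hk, hk'⟩ := mem_inter.1 hk
      rcases ((hC k).1 hk).cases_tail with rfl | ⟨i, -, h7 | h7, a, ha, h8, h9⟩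
      · exact h0.1.2.1 hk'
      · exact h9 (g.avoid (hT h7.1) ha h8 (by rintro rfl; exact h7.2.1 hk') h6)
      · exact h7.2.1 hk'
  have h7 : ((C ∩ T).card : ℚ) ≤ (C ∩ T').card := by exact_mod_cast h2
  simp only [sum_const, nsmul_eq_mul, mul_one] at h6
  linarith

/-- Claim B holds for every finite set of exponents. -/
theorem claimAt (X : Finset (ι →₀ ℕ)) : ClaimAt X := by
  intro h1 hX
  obtain ⟨c, hc⟩ := (mem_span_image_finset_iff_exists_fun' ℚ).1 h1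
  have hc' : PP X (fun a => if a ∈ X then c a else 0) = 1 := by
    rw [PP_eq]
    exact (sum_congr rfl fun a ha => by rw [if_pos ha]).trans hc
  obtain ⟨D, μ, h2, h3⟩ := exists_setup (X := X) (fun i => by
    by_contra! h
    have := congrFun hc' i
    rw [PP_apply, sum_eq_zero fun a ha => by simp [h a ha]] at this
    simp at this)
  obtain ⟨Y, ν, h4, g, h5⟩ := exists_gen subset_rfl h2
  obtain rfl : Y = X := h4.antisymm fun a ha => h5 μ h2 a (h3 a ha)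
  obtain ⟨T, h6, h7⟩ : ∃ T ⊆ D.SS Y ν, rk (ZZ Y T) < 2 * T.card := by
    by_contra! h
    exact no_state hX Y ν _ g h (fun a ha => if_neg ha) hc'
  have hS : ∀ i ∈ T, i ∈ D.S := fun i hi => (Setup.mem_SS.1 (h6 hi)).1
  obtain ⟨T', h8, h9⟩ := exists_minValid (valid_iff.2 ⟨indep_iff.2 fun a ha i hi h =>
    ⟨(D.one a ha i (hS i hi) h).1, fun j hj => (D.one a ha i (hS i hi) h).2.1 j
      (D.sub (hS j hj))⟩, h7⟩)
  exact ⟨T', g.strong (h8.trans h6) h9⟩

theorem claimB : ClaimB := fun _ _ _ X _ _ _ => claimAt X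

end Pool.Agent.P.MP_9321be_ag.ND
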