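import Pool.Agent.P.MP_9321be_ag.ND.ZBasic

/-!
From the combinatorial claim to the existence of strong sets.
-/

namespace Pool.Agent.P.MP_9321be_ag.ND

namespace HB

theorem exists_pos_functional {ι : Type} [Fintype ι] (x : ι → ℝ) (hx : ∀ i, 0 < x i) :
    ∃ φ : ℝ →ₗ[ℚ] ℚ, ∀ i, 0 < φ (x i) := by
  classical
  let b := Module.Basis.ofVectorSpace ℚ ℝ
  let U : Set (Module.Basis.ofVectorSpaceIndex ℚ ℝ → ℝ) :=
    ⋂ i, {y | 0 < ∑ j ∈ (b.repr (x i)).support, ((b.repr (x i) j : ℚ) : ℝ) * y j}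
  have hU : IsOpen U := by
    refine isOpen_iInter_of_finite fun i => isOpen_lt continuous_const ?_
    exact continuous_finsetSum _ fun j _ => continuous_const.mul (continuous_apply j)
  have hne : U.Nonempty := by
    refine ⟨fun j => b j, Set.mem_iInter.2 fun i => ?_⟩
    have h := b.linearCombination_repr (x i)
    rw [Finsupp.linearCombination_apply, Finsupp.sum] at h
    have h2 : ∑ j ∈ (b.repr (x i)).support, ((b.repr (x i) j : ℚ) : ℝ) * b j = x i := by
      rw [← h]
      conv_lhs => rw [h]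
      exact Finset.sum_congr rfl fun j _ => by rw [Rat.smul_def]
    change 0 < ∑ j ∈ (b.repr (x i)).support, ((b.repr (x i) j : ℚ) : ℝ) * b j
    rw [h2]
    exact hx i
  have hd : DenseRange (Pi.map fun (_ : Module.Basis.ofVectorSpaceIndex ℚ ℝ) (q : ℚ) => (q : ℝ)) :=
    DenseRange.piMap fun _ => Rat.denseRange_cast
  obtain ⟨q, hq⟩ := hd.exists_mem_open hU hne
  refine ⟨b.constr ℚ q, fun i => ?_⟩
  have h := Set.mem_iInter.1 hq i
  rw [Module.Basis.constr_apply, Finsupp.sum]
  have h' : (0 : ℝ) < ((∑ j ∈ (b.repr (x i)).support, b.repr (x i) j • q j : ℚ) : ℝ) := by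
    push_cast
    simpa [smul_eq_mul] using h
  exact_mod_cast h'

theorem exists_rat {σ : Type} [Fintype σ] (X : Finset (σ →₀ ℕ)) (u : σ → ℝ) (hu : ∀ i, 0 < u i)
    (hX : ∀ a ∈ X, dr a u = 1) :
    ∃ w : σ → ℚ, (∀ i, 0 < w i) ∧ ∀ a ∈ X, ∑ i, vec a i * w i = 1 := by
  obtain ⟨φ, hφ⟩ := exists_pos_functional (fun o : Option σ => o.elim 1 u) (by
    rintro (_ | i)
    · exact one_pos
    · exact hu i)
  have h1 : 0 < φ 1 := hφ none
  refine ⟨fun i => φ (u i) / φ 1, fun i => div_pos (hφ (some i)) h1, fun a ha => ?_⟩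
  have h : ∑ i, vec a i * φ (u i) = φ 1 := by
    rw [← hX a ha, dr, map_sum]
    refine Finset.sum_congr rfl fun i _ => ?_
    rw [← smul_eq_mul, ← map_smul, Rat.smul_def]
    simp [vec]
  simp only [← mul_div_assoc]
  rw [← Finset.sum_div, h, div_self h1.ne']

end HB

theorem t_HB : S_Kc → S_HB := by
  intro hK σ _ _ A α hA hC hU X u hu u' hu' h1 h2
  have hpos := ((hK σ A α).2 u' hu').2.2 hA
  obtain ⟨w, hw, hw1⟩ := HB.exists_rat X u' hpos fun a ha => by
    have := h2 ha
    simp only [fr, Finset.mem_filter] at this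
    exact this.2
  have hXA : X ⊆ A := fun a ha => by
    have := h2 ha
    simp only [fr, Finset.mem_filter] at this
    exact this.1
  refine hC X hXA w hw hw1 ?_ fun s hs hc => hU u' hu' s (hs.trans h2) hc
  exact Submodule.span_mono (Set.image_mono (Finset.coe_subset.2 h1)) hu.2.2.2

end Pool.Agent.P.MP_9321be_ag.ND
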