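import Pool.Agent.P.MP_9321be_ag.ND.CBRank

/-!
Generic admissible weights, the shift lemma, the clamp lemma, and the independent case.
-/

namespace Pool.Agent.P.MP_9321be_ag.ND.CB

open Finset Filter Topology

set_option linter.unusedSectionVars false

variable {ι : Type} [Fintype ι] [DecidableEq ι] {X Y W : Finset (ι →₀ ℕ)} {D : Setup X}
  {μ ν w : (ι →₀ ℕ) → ℚ}

/-- `ν` is a generic admissible weight with support `Y`. -/
structure Setup.Gen (D : Setup X) (Y : Finset (ι →₀ ℕ)) (ν : (ι →₀ ℕ) → ℚ) : Prop where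
  sub : Y ⊆ X
  adm : D.Adm Y ν
  pos : ∀ a ∈ Y, 0 < ν a
  gen : ∀ μ, D.Adm Y μ → ∀ j, PP X ν j = 1 → PP X μ j = 1

/-- The free coordinates of a state. -/
noncomputable def Setup.SS (D : Setup X) (Y : Finset (ι →₀ ℕ)) (ν : (ι →₀ ℕ) → ℚ) : Finset ι :=
  open Classical in D.S.filter fun i => ∃ a ∈ Y, a i ≠ 0 ∧ ∀ j ≠ i, PP X ν j = 1 → a j = 0

theorem Setup.mem_SS {i : ι} :
    i ∈ D.SS Y ν ↔ i ∈ D.S ∧ ∃ a ∈ Y, a i ≠ 0 ∧ ∀ j ≠ i, PP X ν j = 1 → a j = 0 := by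
  simp only [Setup.SS, mem_filter]

theorem Setup.Adm.mono (h : D.Adm W μ) (hW : W ⊆ Y) : D.Adm Y μ :=
  ⟨fun a ha => h.1 a fun h' => ha (hW h'), h.2⟩

theorem Setup.disj (D : Setup X) {a : ι →₀ ℕ} (ha : a ∈ X) {i j : ι} (hi : i ∈ D.S) (hj : j ∈ D.E)
    (h : a i ≠ 0) (h' : a j ≠ 0) : i = j :=
  by_contra fun e => h' ((D.one a ha i hi h).2.1 j hj (Ne.symm e))

theorem exists_gen (hW : W ⊆ X) (h : D.Adm W μ) :
    ∃ Y ν, Y ⊆ W ∧ D.Gen Y ν ∧ ∀ μ, D.Adm W μ → ∀ a, 0 < μ a → a ∈ Y := by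
  obtain ⟨ν, h1, h2⟩ := exists_generic (D.Adm W) (fun x y => (1 / 2 : ℚ) • (x + y))
    (Sum.elim (fun a μ => 0 < μ a) fun j μ => 1 < PP X μ j)
    (fun x y hx hy => ⟨fun a ha => by simp [hx.1 a ha, hy.1 a ha], fun a => by
      simpa using add_nonneg (hx.2.1 a) (hy.2.1 a), fun j => by
      have := hx.2.2.1 j
      have := hy.2.2.1 j
      simp only [map_smul, map_add, Pi.smul_apply, Pi.add_apply, smul_eq_mul]
      linarith, fun j hj => by
      simp only [map_smul, map_add, Pi.smul_apply, Pi.add_apply, smul_eq_mul, hx.2.2.2.1 j hj,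
        hy.2.2.2.1 j hj]
      norm_num, by
      have := hx.2.2.2.2
      have := hy.2.2.2.2
      simp only [map_smul, map_add, smul_eq_mul]
      linarith⟩)
    (by
      rintro (a | j) x y hx hy h
      · have := hx.2.1 a
        have := hy.2.1 a
        simp only [Sum.elim_inl, Pi.smul_apply, Pi.add_apply, smul_eq_mul] at h ⊢
        rcases h with h | h <;> linarith
      · have := hx.2.2.1 j
        have := hy.2.2.1 j
        simp only [Sum.elim_inr, map_smul, map_add, Pi.smul_apply, Pi.add_apply,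
          smul_eq_mul] at h ⊢
        rcases h with h | h <;> linarith) ⟨μ, h⟩ (W.disjSum univ)
  refine ⟨W.filter (0 < ν ·), ν, filter_subset _ _, ⟨(filter_subset _ _).trans hW,
    ⟨fun a ha => ?_, h1.2⟩, fun a ha => (mem_filter.1 ha).2, fun μ hμ j hj => ?_⟩,
    fun μ hμ a ha => ?_⟩
  · by_cases h : a ∈ W
    · exact le_antisymm (by simpa [h] using ha) (h1.2.1 a)
    · exact h1.1 a h
  · exact le_antisymm (not_lt.1 fun h => hj.not_gt
      (h2 (.inr j) (by simp) μ (hμ.mono (filter_subset _ _)) h)) (hμ.2.2.1 j)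
  · have h : a ∈ W := by_contra fun h => ha.ne' (hμ.1 a h)
    exact mem_filter.2 ⟨h, h2 (.inl a) (by simpa using h) μ hμ ha⟩

/-- The shift lemma. -/
theorem shift (hW : W ⊆ X) (h : D.Adm W μ) {a a' : ι →₀ ℕ} (h0 : 0 < μ a) (ha' : a' ∈ W) {i : ι}
    (hi : i ∈ D.S) (h1 : a i ≠ 0) (h1' : a' i ≠ 0) (h2 : ∀ j ≠ i, PP X μ j = 1 → a j = 0) :
    ∃ (η : ℚ) (μ' : (ι →₀ ℕ) → ℚ), 0 < η ∧ D.Adm W μ' ∧ 0 < μ' a' ∧ PP X μ' = PP X μ + η • (vec a' - vec a) := by
  have ha : a ∈ W := by_contra fun h' => h0.ne' (h.1 a h')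
  obtain ⟨e1, e2, e3⟩ := D.one a (hW ha) i hi h1
  obtain ⟨e1', e2', e3'⟩ := D.one a' (hW ha') i hi h1'
  have hev : ∀ j, ∀ᶠ η in 𝓝[>] (0 : ℚ), 1 ≤ PP X μ j + η * (a' j - a j) := fun j => by
    have h3 := h.2.2.1 j
    by_cases hj : j = i
    · exact .of_forall fun η => by simpa [hj, e1, e1'] using hj ▸ h3
    · rcases h3.eq_or_lt with h3 | h3
      · filter_upwards [self_mem_nhdsWithin] with η hη
        have : 0 ≤ η * a' j := mul_nonneg (le_of_lt hη) (Nat.cast_nonneg _)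
        simpa [← h3, h2 j hj h3.symm] using this
      · filter_upwards [ev_pos ((a' j : ℚ) - a j) (sub_pos.2 h3)] with η hη
        linarith
  obtain ⟨η, h3, h4, h5⟩ := ev_ex ((ev_pos (-1) h0).and (eventually_all.2 hev))
  have hP : PP X (μ + η • (Pi.single a' 1 - Pi.single a 1)) = PP X μ + η • (vec a' - vec a) := by
    rw [map_add, map_smul, map_sub, PP_single (hW ha), PP_single (hW ha')]
  have hv : ∀ c, (μ + η • (Pi.single a' 1 - Pi.single a 1) : (ι →₀ ℕ) → ℚ) c =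
      μ c + η * ((if c = a' then 1 else 0) - if c = a then 1 else 0) := fun c => by
    simp [Pi.single_apply]
  refine ⟨η, _, h3, ⟨fun c hc => ?_, fun c => ?_, ?_⟩, ?_, hP⟩
  · rw [hv, h.1 c hc, if_neg (by rintro rfl; exact hc ha'), if_neg (by rintro rfl; exact hc ha)]
    simp
  · have := h.2.1 c
    rw [hv]
    split_ifs with c1 c2 c2 <;> subst_vars <;> linarith
  · refine ⟨hP ▸ h5, fun j hj => ?_, by
      simpa [FF_eq X D.g (Pi.single _ _), Pi.single_apply, e3, e3'] using h.2.2.2.2⟩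
    rw [hP]
    by_cases hji : j = i
    · simp [vec, h.2.2.2.1 j hj, hji ▸ e1, hji ▸ e1']
    · simp [vec, h.2.2.2.1 j hj, e2 j hj hji, e2' j hj hji]
  · have := h.2.1 a'
    rw [hv, if_pos rfl]
    split_ifs with c1 <;> subst_vars <;> linarith

/-- The dichotomy: all elements touching a free coordinate avoid the other tight coordinates. -/
theorem Setup.Gen.avoid (h : D.Gen Y ν) {i : ι} (hi : i ∈ D.SS Y ν) {a : ι →₀ ℕ} (ha : a ∈ Y)
    (h1 : a i ≠ 0) {j : ι} (hj : j ≠ i) (h2 : PP X ν j = 1) : a j = 0 := by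
  obtain ⟨hi, b, hb, h3, h4⟩ := Setup.mem_SS.1 hi
  obtain ⟨η, μ, h5, h6, -, h7⟩ := shift h.sub h.adm (h.pos b hb) ha hi h3 h1 h4
  have := h.gen μ h6 j h2
  simpa [h7, h2, vec, h4 j hj h2, h5.ne'] using this

theorem PP_ge (hW : W ⊆ X) (h0 : ∀ a, 0 ≤ μ a) (j : ι) : ∑ a ∈ W, μ a * a j ≤ PP X μ j := by
  rw [PP_apply]
  exact sum_le_sum_of_subset_of_nonneg hW fun a _ _ => mul_nonneg (h0 a) (Nat.cast_nonneg _)

theorem PP_ZZ (hY : Y ⊆ X) (h0 : ∀ a ∉ Y, μ a = 0) {j : ι} (h : ∀ a ∈ Y, a j ≠ 0 → a j = 1) :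
    PP X μ j = ∑ a ∈ ZZ Y {j}, μ a := by
  rw [PP_apply, ← sum_subset ((filter_subset _ _).trans hY : ZZ Y {j} ⊆ X) fun a _ ha => ?_]
  · exact sum_congr rfl fun a ha => by simp [h a (mem_ZZ_one.1 ha).1 (mem_ZZ_one.1 ha).2]
  · by_cases h1 : a ∈ Y
    · simp [show a j = 0 by simpa [mem_ZZ_one, h1] using ha]
    · simp [h0 a h1]

/-- A state with the rank condition has no apex. -/
theorem Setup.Gen.not_apex (h : D.Gen Y ν) (hR : RR Y (D.SS Y ν)) (b : ι →₀ ℕ) : ¬ UApex Y b := by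
  rintro ⟨hb, k, h1, ⟨-, h2⟩, h3⟩
  have hZ : ZZ Y {k} = {b} := eq_singleton_iff_unique_mem.2 ⟨mem_ZZ_one.2 ⟨hb, by simp [h1]⟩,
    fun a ha => by_contra fun e => (mem_ZZ_one.1 ha).2 (h2 a (mem_ZZ_one.1 ha).1 e)⟩
  have h4 : 1 ≤ ν b := by
    have := h.adm.2.2.1 k
    rwa [PP_ZZ h.sub h.adm.1 fun a ha h5 => by
      rw [(by simpa [hZ] using mem_ZZ_one.2 ⟨ha, h5⟩ : a = b), h1], hZ, sum_singleton] at this
  have h5 : ∀ j ≠ k, PP X ν j = 1 → b j = 0 := fun j hj h5 => by_contra fun h6 =>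
    hj (h3 j ⟨h6, fun a ha hne => ?_⟩)
  · have h6 : D.g b < 1 := by
      have h7 := h.adm.2.2.2.2
      rw [FF_eq] at h7
      have h8 := single_le_sum (f := fun a => ν a * D.g a)
        (fun a ha => mul_nonneg (h.adm.2.1 a) (D.nonneg a ha)) (h.sub hb)
      have := D.nonneg b (h.sub hb)
      nlinarith
    have := hR.two (Setup.mem_SS.2 ⟨D.apex b (h.sub hb) h6 k h1 fun j hj hne =>
      h5 j hne (h.adm.2.2.2.1 j hj), b, hb, by simp [h1], h5⟩)
    simp [hZ] at this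
  · have h7 := PP_ge (X := X) (W := {a, b}) (by simp [insert_subset_iff, h.sub ha, h.sub hb]) h.adm.2.1 j
    rw [sum_pair hne, h5] at h7
    have h8 : (1 : ℚ) ≤ b j := by exact_mod_cast Nat.one_le_iff_ne_zero.2 h6
    have h9 := h.pos a ha
    have : (a j : ℚ) ≤ 0 := by nlinarith
    exact_mod_cast le_antisymm this (Nat.cast_nonneg _)

/-- The clamp lemma. -/
theorem clamp (hY : Y ⊆ X) {S : Finset ι} (hS : S ⊆ D.S) (h0 : ∀ a ∉ Y, w a = 0)
    (h1 : ∀ a ∉ Inn Y S, 0 ≤ w a) (h2 : D.Pt w) :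
    ∃ μ, D.Adm Y μ ∧ (∀ a, w a = 0 → μ a = 0) ∧ ∀ a, 0 < w a → 0 < μ a := by
  classical
  let μ : (ι →₀ ℕ) → ℚ := fun a => if a ∈ Inn Y S then max 0 (min 1 (w a)) else w a
  have hz : ∀ a, w a = 0 → μ a = 0 := fun a ha => by simp [μ, ha]
  have hn : ∀ a, 0 ≤ μ a := fun a => by
    simp only [μ]
    split_ifs with h
    exacts [le_max_left _ _, h1 a h]
  refine ⟨μ, ⟨fun a ha => hz a (h0 a ha), hn, fun j => ?_, fun j hj => ?_, ?_⟩, hz,
    fun a ha => ?_⟩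
  · by_cases h : ∃ a ∈ Inn Y S, 1 < w a ∧ a j ≠ 0
    · obtain ⟨a, ha, h3, h4⟩ := h
      have h5 := PP_ge (X := X) (W := {a}) (by simpa using hY (mem_ZZ.1 ha).1) hn j
      have h6 : (1 : ℚ) ≤ a j := by exact_mod_cast Nat.one_le_iff_ne_zero.2 h4
      simp [μ, ha, h3.le] at h5
      linarith
    · refine (h2.1 j).trans ?_
      rw [PP_apply, PP_apply]
      refine sum_le_sum fun a _ => ?_
      by_cases h3 : a j = 0
      · simp [h3]
      · refine mul_le_mul_of_nonneg_right ?_ (Nat.cast_nonneg _)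
        simp only [μ]
        split_ifs with h4
        · rw [min_eq_right (not_lt.1 fun h5 => h ⟨a, h4, h5, h3⟩)]
          exact le_max_right _ _
        · exact le_rfl
  · by_cases h : j ∈ S ∧ (ZZ Y {j}).card = 2
    · obtain ⟨e, e', h3, h4⟩ := card_eq_two.1 h.2
      have h5 : ∀ a ∈ Y, a j ≠ 0 → a j = 1 := fun a ha h5 => (D.one a (hY ha) j (hS h.1) h5).1
      have h6 := h2.2.1 j hj
      have h7 : ∀ a ∈ ZZ Y {j}, a ∈ Inn Y S := fun a ha =>
        mem_ZZ.2 ⟨(mem_ZZ_one.1 ha).1, j, mem_filter.2 h, (mem_ZZ_one.1 ha).2⟩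
      rw [PP_ZZ hY h0 h5, h4, sum_pair h3] at h6
      rw [PP_ZZ hY (fun a ha => hz a (h0 a ha)) h5, h4, sum_pair h3]
      simp only [μ, if_pos (h7 e (by simp [h4])), if_pos (h7 e' (by simp [h4])), max_def, min_def]
      split_ifs <;> linarith
    · rw [← h2.2.1 j hj, PP_apply, PP_apply]
      refine sum_congr rfl fun a ha => ?_
      simp only [μ]
      split_ifs with h3
      · obtain ⟨-, i, hi, h4⟩ := mem_ZZ.1 h3
        have : a j = 0 := by_contra fun h5 =>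
          h (D.disj ha (hS (mem_filter.1 hi).1) hj h4 h5 ▸ mem_filter.1 hi)
        simp [this]
      · rfl
  · refine lt_of_eq_of_lt ?_ h2.2.2
    rw [FF_eq, FF_eq]
    refine sum_congr rfl fun a ha => ?_
    simp only [μ]
    split_ifs with h3
    · obtain ⟨-, i, hi, h4⟩ := mem_ZZ.1 h3
      simp [(D.one a ha i (hS (mem_filter.1 hi).1) h4).2.2]
    · rfl
  · simp only [μ]
    split_ifs
    · simp [ha]
    · exact ha

end Pool.Agent.P.MP_9321be_ag.ND.CB
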