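import Pool.Agent.P.MP_9321be_ag.ND.EIface

/-!
Transfer of eigenclasses, and eigenclasses from small cocycles.
-/

namespace Pool.Agent.P.MP_9321be_ag.ND.E

open Pool.Agent.Lib.Helper83 Set Filter

namespace Sml

variable {Y Y' : Type} [TopologicalSpace Y] [TopologicalSpace Y']

theorem Tl_apply (T : Y → Y) (lam : ℂ) (c : Ch ℂ Y) : Tl T lam c = push T c - lam • c := rfl

theorem Sd_push [Nonempty Y] [Nonempty Y'] {T : Y → Y'} (hT : Continuous T) (c : Ch ℂ Y) :
    Sd (push T c) = push T (Sd c) := by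
  refine all_eq (Sd ∘ₗ push T) (push T ∘ₗ Sd) ?_ c
  rintro ⟨k, s⟩
  show Sd (push T (sx ℂ s)) = push T (Sd (sx ℂ s))
  rw [← push_ext, push_push T (ext_cont s) (affL_mem (convex_stdSimplex _ _) (ee_mem k)),
    Sd_real (convex_stdSimplex _ _) (hT.comp_continuousOn (ext_cont s)) (ee_mem k),
    Sd_real (convex_stdSimplex _ _) (ext_cont s) (ee_mem k), push_push T (ext_cont s)
      (affL_mem (convex_stdSimplex _ _) (sd_mem (convex_stdSimplex _ _) (ee_mem k)))]

theorem Tl_pow {T : Y → Y} {T' : Y' → Y'} {lam : ℂ} {S : Set Y'} {h : Y' → Y}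
    (hT : Continuous T') (mT : MapsTo T' S S) (hh : ContinuousOn h S)
    (e : ∀ y ∈ S, h (T' y) = T (h y)) {k : ℕ} (N : ℕ) {c : Ch ℂ Y'} (hc : c ∈ sub ℂ S k) :
    push h ((Tl T' lam ^ N) c) = (Tl T lam ^ N) (push h c) := by
  induction N generalizing c with
  | zero => rfl
  | succ N ih =>
    rw [pow_succ, pow_succ, Module.End.mul_apply, Module.End.mul_apply, Tl_apply, Tl_apply,
      ih (sub_mem (push_mem mT hc) (Submodule.smul_mem _ _ hc)), LinearMap.map_sub, map_smul,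
      push_push h hT.continuousOn hc, push_push T hh hc,
      push_congr (g := h ∘ T') (g' := T ∘ h) e hc]

end Sml

open Sml

theorem t_TR : S_TR := by
  rintro Y Y' _ _ _ T T' lam S₁ S₂ S₁' S₂' g h H hT mT hg mg hh mh e hH mH h0 h1
    ⟨k, N, φ, k1, k2, z, hz, hb, hne⟩
  refine ⟨k, N, φ ∘ₗ push h, fun c hc => ?_, fun c hc hc0 => ?_, push g z, push_mem mg hz, ?_, ?_⟩
  · rw [LinearMap.comp_apply, ← bd_push hh hc]
    exact k1 _ (push_mem mh hc)
  · rw [LinearMap.comp_apply, Tl_pow hT mT hh e N hc]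
    exact k2 _ (push_mem mh hc) (by rw [bd_push hh hc, hc0, map_zero])
  · rw [bd_push hg hz, hb, map_zero]
  · have := k1 _ (Pri_mem mH hz)
    rw [eq_sub_of_add_eq (bd_Pri hH hz), hb, map_zero, sub_zero, push_eq_self h0 hz,
      push_congr (g' := h ∘ g) h1 hz, map_sub, sub_eq_zero] at this
    rwa [LinearMap.comp_apply, push_push h hg hz, this]

theorem t_Small : S_Small := by
  rintro Y _ _ T lam S₁ S₂ N k M Φ hT - - hN cov hb nil ⟨z, z1, z2, c, hc, z3⟩
  let Z : Submodule ℂ (ℕ → ℂ) :=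
    { carrier := {f | ∀ᶠ m in atTop, f m = 0}
      add_mem' := fun ha hb => (ha.and hb).mono fun m h => by simp [h.1, h.2]
      zero_mem' := Eventually.of_forall fun _ => rfl
      smul_mem' := fun r _ ha => ha.mono fun m h => by simp [h] }
  obtain ⟨π, p1, p2⟩ := Submodule.exists_dual_map_eq_bot_of_notMem (p := Z) (x := fun _ => c)
    (fun h => hc (Eventually.exists h).choose_spec) inferInstance
  have p3 : ∀ f ∈ Z, π f = 0 := fun f hf => (Submodule.eq_bot_iff _).1 p2 _ ⟨f, hf, rfl⟩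
  have cm : Commute (Sd : Module.End ℂ (Ch ℂ Y)) (Tl T lam) := LinearMap.ext fun c => by
    simp only [Module.End.mul_apply, Tl_apply, map_sub, map_smul, Sd_push hT]
  refine ⟨k, M, π ∘ₗ LinearMap.pi fun m : ℕ => Φ ∘ₗ (Sd ^ m : Module.End ℂ _), fun x hx => p3 _ ?_,
    fun x _ _ => p3 _ (Eventually.of_forall fun m => ?_), z, z1, z2, fun h => p1 ?_⟩
  · exact (eventually_small hN (fun p hp => mem_iUnion.2 ⟨p, cov p hp⟩) hx).mono fun m hm => by
      simpa [← bd_Sd_pow] using hb _ hm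
  · simpa [← (cm.pow_pow m M).eq, ← Module.End.mul_apply] using nil ((Sd ^ m) x)
  · have := p3 ((fun _ => c) - LinearMap.pi (fun m : ℕ => Φ ∘ₗ (Sd ^ m : Module.End ℂ _)) z)
      (z3.mono fun m hm => by simp [hm])
    rwa [map_sub, show π _ = 0 from h, sub_zero] at this

end Pool.Agent.P.MP_9321be_ag.ND.E
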