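import Pool.Agent.P.MP_9321be_ag.ND.ETool

/-!
Links of interior faces are complete.
-/

namespace Pool.Agent.P.MP_9321be_ag.ND.E

open Set Filter Topology

namespace KCl

variable {α σ : Type} [Fintype α] [DecidableEq α] [Fintype σ]

/-- The optimality condition at a minimiser. -/
theorem kkt (v : α → σ → ℝ) (c : α → ℝ) (R : ℝ) (ρ τ : Finset α) (y p₀ : σ → ℝ)
    (h1 : ∀ a ∈ ρ, v a ⬝ᵥ p₀ + c a = R) (h2 : ∀ a, R ≤ v a ⬝ᵥ p₀ + c a)
    (h3 : ∀ a ∉ τ, R < v a ⬝ᵥ p₀ + c a)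
    (hm : ∀ p : σ → ℝ, (∀ a ∈ ρ, v a ⬝ᵥ p + c a = R) → (∀ a, R ≤ v a ⬝ᵥ p + c a) →
      y ⬝ᵥ p₀ ≤ y ⬝ᵥ p)
    (d : σ → ℝ) (d1 : ∀ a ∈ ρ, v a ⬝ᵥ d = 0) (d2 : ∀ a ∈ τ, 0 ≤ v a ⬝ᵥ d) : 0 ≤ y ⬝ᵥ d := by
  have e : ∀ᶠ s in 𝓝 (0 : ℝ), ∀ a, a ∉ τ → R < v a ⬝ᵥ p₀ + c a + s * (v a ⬝ᵥ d) := by
    refine eventually_all.2 fun a => ?_
    by_cases ha : a ∈ τ
    · exact Eventually.of_forall fun _ h => (h ha).elim
    · have : ContinuousAt (fun s : ℝ => v a ⬝ᵥ p₀ + c a + s * (v a ⬝ᵥ d)) 0 := by fun_prop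
      exact (this.eventually (lt_mem_nhds (by simpa using h3 a ha))).mono fun _ h _ => h
  obtain ⟨s, hs, hs0⟩ := ((e.filter_mono nhdsWithin_le_nhds).and
    (self_mem_nhdsWithin (a := (0 : ℝ)) (s := Ioi 0))).exists
  have hs0 : 0 < s := hs0
  have := hm (p₀ + s • d) (fun a ha => by
    rw [dotProduct_add, dotProduct_smul, d1 a ha, smul_zero, add_zero, h1 a ha]) fun a => by
      rw [dotProduct_add, dotProduct_smul, smul_eq_mul]
      by_cases ha : a ∈ τ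
      · have := mul_nonneg hs0.le (d2 a ha)
        linarith [h2 a]
      · linarith [hs a ha]
  rw [dotProduct_add, dotProduct_smul, smul_eq_mul] at this
  exact nonneg_of_mul_nonneg_right (by linarith) hs0

/-- The representation of `y` from the optimality condition. -/
theorem rep (v : α → σ → ℝ) (ρ τ : Finset α) (y : σ → ℝ) (hi : LinearIndepOn ℝ v (τ : Set α))
    (hρ : ρ ⊆ τ)
    (hk : ∀ d : σ → ℝ, (∀ a ∈ ρ, v a ⬝ᵥ d = 0) → (∀ a ∈ τ, 0 ≤ v a ⬝ᵥ d) → 0 ≤ y ⬝ᵥ d) :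
    ∃ t : α → ℝ, (∀ a ∉ ρ, 0 ≤ t a) ∧ (∀ a ∉ τ, t a = 0) ∧ y = ∑ a, t a • v a := by
  have hs : y ∈ Submodule.span ℝ (v '' (τ : Set α)) := Tool.mem_span_of_perp fun d hd => by
    have h1 := hk d (fun a ha => hd a (hρ ha)) fun a ha => (hd a ha).ge
    have h2 := hk (-d) (fun a ha => by rw [dotProduct_neg, hd a (hρ ha), neg_zero])
      fun a ha => by rw [dotProduct_neg, hd a ha, neg_zero]
    rw [dotProduct_neg] at h2
    linarith
  obtain ⟨c, hc⟩ := (Submodule.mem_span_image_finset_iff_exists_fun' ℝ).1 hs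
  obtain ⟨L, hL, -⟩ := Tool.exists_dual hi
  refine ⟨fun a => if a ∈ τ then c a else 0, fun b hb => ?_, fun a ha => if_neg ha, ?_⟩
  · by_cases hbτ : b ∈ τ
    · have := hk (L (Pi.single b 1)) (fun a ha => by
        rw [hL _ a (hρ ha), Pi.single_eq_of_ne (by rintro rfl; exact hb ha)]) fun a ha => by
          rw [hL _ a ha, Pi.single_apply]; split_ifs <;> norm_num
      rw [← hc, sum_dotProduct, Finset.sum_eq_single b (fun a ha hab => by
        rw [smul_dotProduct, hL _ a ha, Pi.single_eq_of_ne hab, smul_zero])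
        (fun h => (h hbτ).elim), smul_dotProduct, hL _ b hbτ] at this
      simpa [hbτ] using this
    · simp [hbτ]
  · rw [← hc]
    simp [ite_smul, Finset.sum_ite_mem]

end KCl

theorem t_KCl : S_KApprox → S_KExact → S_KCl := by
  intro hA hE α σ _ _ _ _ ex h hC hI ρ hρ hint y
  classical
  rcases isEmpty_or_nonempty σ with hσ | hσ
  · exact ⟨ρ, hρ, subset_rfl, 0, fun _ _ => le_rfl, fun _ _ => rfl, Subsingleton.elim _ _⟩
  obtain ⟨a₀, ha₀, -⟩ := hint hσ.some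
  obtain ⟨L, hL, hP⟩ := hA α σ ex h 0 hC le_rfl
  obtain ⟨P, hP⟩ := hP L le_rfl
  obtain ⟨γ, hγ, hR⟩ := hE α σ ex h hC hI
  choose b k hk hb using hC.2
  obtain ⟨R, hR, p, hp⟩ := hR L hL 0 (∑ i, |k i * max P 0 + L * h (b i)|)
  set Q : Set (σ → ℝ) := {p | (∀ a ∈ ρ, rv ex a ⬝ᵥ p + L * h a = R) ∧
    ∀ a, R ≤ rv ex a ⬝ᵥ p + L * h a} with hQ
  have hlow : ∀ q ∈ Q, ∀ i, max P 0 ≤ q i := fun q hq i => by
    have h1 := hq.2 (b i)
    have h2 : rv ex (b i) ⬝ᵥ q = k i * q i := by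
      simp [dotProduct, rv, hb, Pi.single_apply, ite_mul]
    have h3 : k i * max P 0 + L * h (b i) ≤ R := (le_abs_self _).trans
      ((Finset.single_le_sum (f := fun i => |k i * max P 0 + L * h (b i)|)
        (fun _ _ => abs_nonneg _) (Finset.mem_univ i)).trans hR)
    exact le_of_mul_le_mul_left (by linarith) (Nat.cast_pos.2 (hk i) : (0 : ℝ) < k i)
  have hne : Q.Nonempty := ⟨p ρ, (hp ρ hρ).2.1, fun a => by
    by_cases ha : a ∈ ρ
    · exact ((hp ρ hρ).2.1 a ha).ge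
    · linarith [(hp ρ hρ).2.2 a ha, mul_pos hL hγ]⟩
  have hcl : IsClosed Q := by
    simp only [hQ, ofPred_and, ofPred_forall]
    refine (isClosed_iInter fun a => isClosed_iInter fun _ => isClosed_eq ?_ ?_).inter
      (isClosed_iInter fun a => isClosed_le ?_ ?_) <;> fun_prop
  have hcp : IsCompact Q := (isCompact_Icc (a := (0 : σ → ℝ))
      (b := fun _ => ∑ a, |R - L * h a|)).of_isClosed_subset hcl fun q hq => by
    have h0 : ∀ i, 0 ≤ q i := fun i => (le_max_right _ _).trans (hlow q hq i)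
    refine ⟨h0, fun i => ?_⟩
    obtain ⟨a, ha, hai⟩ := hint i
    have h1 : (1 : ℝ) ≤ rv ex a i := by
      simp only [rv, ne_eq, Nat.cast_eq_zero] at hai
      exact Nat.one_le_cast.2 (Nat.pos_of_ne_zero hai)
    have h2 : rv ex a i * q i ≤ rv ex a ⬝ᵥ q :=
      Finset.single_le_sum (f := fun i => rv ex a i * q i)
        (fun j _ => mul_nonneg (Nat.cast_nonneg _) (h0 j)) (Finset.mem_univ i)
    have h3 : R - L * h a ≤ ∑ a, |R - L * h a| := (le_abs_self _).trans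
      (Finset.single_le_sum (f := fun a => |R - L * h a|) (fun _ _ => abs_nonneg _)
        (Finset.mem_univ a))
    have h4 := hq.1 a ha
    have h5 := mul_le_mul_of_nonneg_right h1 (h0 i)
    show q i ≤ ∑ a, |R - L * h a|
    linarith
  obtain ⟨p₀, hp₀, hm⟩ := hcp.exists_isMinOn hne
    (f := fun q => y ⬝ᵥ q) (Continuous.continuousOn (by fun_prop))
  have hτ := hP p₀ fun i => (le_max_left _ _).trans (hlow p₀ hp₀ i)
  set τ := Finset.univ.filter fun a =>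
    ∀ b, rv ex a ⬝ᵥ p₀ + L * h a ≤ rv ex b ⬝ᵥ p₀ + L * h b + 0 with hτd
  have hsub : ρ ⊆ τ := fun a ha => Finset.mem_filter.2 ⟨Finset.mem_univ _, fun b => by
    rw [hp₀.1 a ha, add_zero]; exact hp₀.2 b⟩
  refine ⟨τ, hτ, hsub, KCl.rep _ ρ τ y (hI τ hτ) hsub (KCl.kkt (rv ex) (fun a => L * h a) R ρ τ y
    p₀ hp₀.1 hp₀.2 (fun a ha => ?_) fun q h1 h2 => hm (show q ∈ Q from ⟨h1, h2⟩))⟩
  refine lt_of_le_of_ne (hp₀.2 a) fun e => ha (Finset.mem_filter.2 ⟨Finset.mem_univ _, fun b => ?_⟩)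
  rw [← e, add_zero]
  exact hp₀.2 b

end Pool.Agent.P.MP_9321be_ag.ND.E
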