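import Pool.Agent.P.MP_9321be_ag.ND.EIface

/-!
Bridge to the singular homology of Mathlib.
-/

namespace Pool.Agent.P.MP_9321be_ag.ND.E

open Pool.Agent.Lib.Helper83 Set Complex Filter Topology CategoryTheory AlgebraicTopology

namespace BR

variable {X Y : Type} [TopologicalSpace X] [TopologicalSpace Y] {lam : ℂ}

/-- The singular chain complex. -/
noncomputable abbrev KX (X : Type) [TopologicalSpace X] := Pool.Agent.Lib.Helper83.KK ℂ X

theorem Tl_apply (g : X → X) (c : Ch ℂ X) : Tl g lam c = push g c - lam • c := rfl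

theorem Tl_mem (g : X → X) {k : ℕ} {c : Ch ℂ X} (hc : c ∈ sub ℂ univ k) :
    Tl g lam c ∈ sub ℂ univ k :=
  Submodule.sub_mem _ (push_mem (mapsTo_univ _ _) hc) (Submodule.smul_mem _ _ hc)

theorem bd_Tl {g : X → X} (hg : Continuous g) {k : ℕ} {c : Ch ℂ X} (hc : c ∈ sub ℂ univ k) :
    bd (Tl g lam c) = Tl g lam (bd c) := by
  rw [Tl_apply, Tl_apply, map_sub, map_smul, bd_push hg.continuousOn hc]

theorem cyc0 (K : ChainComplex (ModuleCat.{0} ℂ) ℕ) (x : K.X 0) :
    ∃ z, (K.iCycles 0).hom z = x := by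
  have h1 : (ModuleCat.ofHom (LinearMap.toSpanSingleton ℂ _ x) : ModuleCat.of ℂ ℂ ⟶ K.X 0) ≫
      K.d 0 0 = 0 := by rw [K.shape 0 0 (by simp), Limits.comp_zero]
  exact ⟨(K.liftCycles _ 0 (by simp) h1).hom 1,
    (congrArg (fun f => f.hom (1 : ℂ)) (K.liftCycles_i _ 0 (by simp) h1)).trans (one_smul _ _)⟩

theorem cyc {k : ℕ} {c : Ch ℂ X} (hc : c ∈ sub ℂ univ (k + 1)) (h0 : bd c = 0) :
    ∃ z, toCh k (((KX X).iCycles k).hom z) = c := by
  rcases k with _ | k
  · obtain ⟨z, hz⟩ := cyc0 (KX X) (ofCh 0 c)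
    exact ⟨z, by rw [hz, toCh_ofCh hc]⟩
  · obtain ⟨z, hz⟩ := exists_cycle (KX X) k (ofCh (k + 1) c) (toCh_inj k (by
      rw [toCh_d, toCh_ofCh hc, h0, map_zero]))
    exact ⟨z, by rw [hz, toCh_ofCh hc]⟩

theorem surj [Nonempty X] (g : C(X, X)) (h1 : lam ≠ 1) (k : ℕ) (h : ¬ Module.End.HasEigenvalue
    (((singularHomologyFunctor (ModuleCat.{0} ℂ) k).obj (ModuleCat.of ℂ ℂ)).map
      (TopCat.ofHom g)).hom.dualMap lam) {c : Ch ℂ X} (hc : c ∈ sub ℂ univ (k + 1))
    (h0 : bd c = 0) : ∃ y ∈ sub ℂ univ (k + 1), bd y = 0 ∧ ∃ e ∈ sub ℂ univ (k + 2),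
      c = Tl g lam y + bd e := by
  let ψ : KX X ⟶ KX X :=
    SSet.chainComplexMap (TopCat.toSSet.map (TopCat.ofHom g)) (ModuleCat.of ℂ ℂ)
  let T : (KX X).homology k →ₗ[ℂ] (KX X).homology k :=
    (HomologicalComplex.homologyMap ψ k).hom
  change ¬ Module.End.HasEigenvalue T.dualMap lam at h
  have hs : Function.Surjective (T - lam • LinearMap.id : _ →ₗ[ℂ] _) := by
    rw [← LinearMap.dualMap_injective_iff, injective_iff_map_eq_zero]
    intro a ha
    by_contra a0
    refine h (Module.End.hasEigenvalue_of_hasEigenvector ⟨Module.End.mem_eigenspace_iff.2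
      (LinearMap.ext fun v => ?_), a0⟩)
    simpa [sub_eq_zero] using LinearMap.congr_fun ha v
  obtain ⟨z, hz⟩ := cyc hc h0
  obtain ⟨a, ha⟩ := hs (((KX X).homologyπ k).hom z)
  obtain ⟨w, rfl⟩ := (ModuleCat.epi_iff_surjective ((KX X).homologyπ k)).1 inferInstance a
  have h2 : T (((KX X).homologyπ k).hom w) =
      ((KX X).homologyπ k).hom ((HomologicalComplex.cyclesMap ψ k).hom w) :=
    congrArg (fun f => f.hom w) (HomologicalComplex.homologyπ_naturality ψ k)
  have h3 : ((KX X).iCycles k).hom ((HomologicalComplex.cyclesMap ψ k).hom w) =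
      (ψ.f k).hom (((KX X).iCycles k).hom w) :=
    congrArg (fun f => f.hom w) (HomologicalComplex.cyclesMap_i ψ k)
  obtain ⟨x, hx⟩ := (pi_eq_zero (KX X) k
    (z - ((HomologicalComplex.cyclesMap ψ k).hom w - lam • w))).1 (by
      rw [map_sub, map_sub, map_smul, ← h2, ← ha]; simp)
  have h4 := congrArg (toCh k) hx
  rw [toCh_d, map_sub, map_sub, map_sub, map_sub, map_smul, map_smul, hz, h3, toCh_map] at h4
  set y := toCh k (((KX X).iCycles k).hom w) with hy
  have hym : y ∈ sub ℂ univ (k + 1) := toCh_mem k _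
  refine ⟨y, hym, ?_, _, toCh_mem (k + 1) x, by rw [h4, Tl_apply]; abel⟩
  rcases k with _ | k
  · have h5 := congrArg bd h4
    have h6 : bd y ∈ sub ℂ ∅ 0 := sub_ind LinearMap.id
      (fun s _ => sx_mem fun t => by simpa using t.2.2) (bd_mem hym)
    rw [bd_bd, map_sub, map_sub, map_smul, h0, bd_push g.continuous.continuousOn hym,
      push_eq_self (fun x hx => hx.elim) h6] at h5
    have h7 : (1 - lam) • bd y = 0 := by rw [sub_smul, one_smul, ← neg_eq_zero, h5, zero_sub]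
    exact (smul_eq_zero.1 h7).resolve_left (sub_ne_zero.2 h1.symm)
  · rw [hy, ← toCh_d]
    have := congrArg (fun f => f.hom w) ((KX X).iCycles_d (k + 1) k)
    exact (congrArg (toCh k) this).trans (map_zero _)

theorem eig (g : C(X, X)) (h1 : lam ≠ 1) (h : EigOn g lam univ univ) :
    ∃ k, Module.End.HasEigenvalue
      (((singularHomologyFunctor (ModuleCat.{0} ℂ) k).obj (ModuleCat.of ℂ ℂ)).map
        (TopCat.ofHom g)).hom.dualMap lam := by
  obtain ⟨k, N, φ, h2, h3, z, hz, hz0, hφ⟩ := h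
  have : Nonempty X := by
    by_contra hX
    rw [not_nonempty_iff, ← univ_eq_empty_iff] at hX
    rw [hX] at hz
    exact hφ (by rw [sub_empty hz, map_zero])
  refine ⟨k, by_contra fun h => hφ ?_⟩
  have key : ∀ N : ℕ, ∀ c ∈ sub ℂ (univ : Set X) (k + 1), bd c = 0 →
      ∃ y ∈ sub ℂ univ (k + 1), bd y = 0 ∧ ∃ e ∈ sub ℂ univ (k + 2),
        c = (Tl g lam ^ N) y + bd e := by
    intro N
    induction N with
    | zero => exact fun c hc h0 => ⟨c, hc, h0, 0, zero_mem _, by simp⟩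
    | succ N ih =>
      intro c hc h0
      obtain ⟨y, hy, hy0, e, he, rfl⟩ := surj g h1 k h hc h0
      obtain ⟨y', hy', hy0', e', he', rfl⟩ := ih y hy hy0
      refine ⟨y', hy', hy0', Tl g lam e' + e, add_mem (Tl_mem _ he') he, ?_⟩
      rw [map_add, map_add, bd_Tl g.continuous he', pow_succ', Module.End.mul_apply, add_assoc]
  obtain ⟨y, hy, hy0, e, he, rfl⟩ := key N z hz hz0
  rw [map_add, h3 y hy hy0, h2 e he, add_zero]

theorem pull {T : Y → Y} {S : Set Y} {g : X → X} (hg : Continuous g) {v : X → Y}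
    (hv : IsInducing v) (hS : range v = S) (e : ∀ x, v (g x) = T (v x)) (h : EigOn T lam S S) :
    EigOn g lam univ univ := by
  obtain ⟨k, N, φ, h2, h3, z, hz, hz0, hφ⟩ := h
  have hc := hv.continuous.continuousOn (s := univ)
  have hm : MapsTo v univ S := fun x _ => hS ▸ mem_range_self x
  have h4 : ∀ N : ℕ, ∀ c ∈ sub ℂ (univ : Set X) (k + 1), (Tl g lam ^ N) c ∈ sub ℂ univ (k + 1) ∧
      push v ((Tl g lam ^ N) c) = (Tl T lam ^ N) (push v c) := by
    intro N c hc'
    induction N with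
    | zero => exact ⟨hc', rfl⟩
    | succ N ih =>
      rw [pow_succ', pow_succ', Module.End.mul_apply, Module.End.mul_apply, ← ih.2]
      refine ⟨Tl_mem _ ih.1, ?_⟩
      rw [Tl_apply, Tl_apply, map_sub, map_smul, push_push v hg.continuousOn ih.1,
        push_push T hc ih.1, show v ∘ g = T ∘ v from funext e]
  have : Nonempty X := by
    by_contra hX
    rw [not_nonempty_iff] at hX
    rw [← hS, range_eq_empty v] at hz
    exact hφ (by rw [sub_empty hz, map_zero])
  have hr : ∀ y ∈ S, v (Function.invFun v y) = y := fun y hy =>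
    Function.invFun_eq (hS ▸ hy : y ∈ range v)
  have cr : ContinuousOn (Function.invFun v) S :=
    hv.continuousOn_iff.2 (continuousOn_id.congr hr)
  refine ⟨k, N, φ ∘ₗ push v, fun c hc' => ?_, fun c hc' h0 => ?_, push (Function.invFun v) z,
    push_mem (mapsTo_univ _ _) hz, by rw [bd_push cr hz, hz0, map_zero], ?_⟩
  · rw [LinearMap.comp_apply, ← bd_push hc hc']; exact h2 _ (push_mem hm hc')
  · rw [LinearMap.comp_apply, (h4 N c hc').2]
    exact h3 _ (push_mem hm hc') (by rw [bd_push hc hc', h0, map_zero])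
  · rwa [LinearMap.comp_apply, push_push v cr hz, push_eq_self (g := v ∘ Function.invFun v) hr hz]

end BR

theorem t_BR : S_BR := by
  intro σ _ _ f lam h1 ⟨ε₀, h0, h⟩
  refine ⟨ε₀, h0, fun ε hε => ?_⟩
  obtain ⟨δ₀, hδ₀, h⟩ := h ε hε.1
  refine ⟨δ₀, hδ₀, fun δ hδ => BR.eig _ h1 (BR.pull (T := dk) (v := Subtype.val)
    (S := Mset (fun x => MvPolynomial.eval x f) ε δ) (deck f 0 ε δ).continuous
    IsInducing.subtypeVal ?_ (fun _ => rfl) ?_)⟩
  · refine Subtype.range_coe_subtype.trans ?_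
    simp only [finsum_eq_sum_of_fintype, Pi.zero_apply, sub_zero, Mset]
  · obtain ⟨k, N, φ, h2, h3, h4⟩ := h δ hδ
    have hs : Mset (fun x => MvPolynomial.eval x f) ε δ ⊆
        Mset (fun x => MvPolynomial.eval x f) ε₀ δ := fun p hp =>
      ⟨hp.1.trans (pow_lt_pow_left₀ hε.2 hε.1.le two_ne_zero), hp.2⟩
    exact ⟨k, N, φ, fun c hc => h2 c (sub_mono hs hc), fun c hc => h3 c (sub_mono hs hc), h4⟩

end Pool.Agent.P.MP_9321be_ag.ND.E
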