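import Pool.Agent.P.MP_9321be_ag.ND.RtBasic

/-!
Toolbox: orders in truncated rings, constructibility, additivity, monotonicity.
-/

namespace Pool.Agent.P.MP_9321be_ag.ND

open MvPolynomial Set

set_option linter.unusedSectionVars false

section Ord

variable {M : ℕ}

theorem exists_ordEq {y : TR M} {m : ℕ} (h : ¬ tt M ^ m ∣ y) : ∃ v < m, ordEq v y := by
  induction m with
  | zero => simp at h
  | succ m ih =>
    by_cases h' : tt M ^ m ∣ y
    · exact ⟨m, m.lt_succ_self, h', h⟩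
    · obtain ⟨v, h1, h2⟩ := ih h'
      exact ⟨v, h1.trans m.lt_succ_self, h2⟩

theorem ordEq.dvd_iff {y : TR M} {v : ℕ} (h : ordEq v y) (m : ℕ) : tt M ^ m ∣ y ↔ m ≤ v :=
  ⟨fun h' => not_lt.1 fun hm => h.2 ((pow_dvd_pow _ hm).trans h'),
    fun h' => (pow_dvd_pow _ h').trans h.1⟩

theorem ordEq.unique {y : TR M} {v w : ℕ} (h : ordEq v y) (h' : ordEq w y) : v = w :=
  le_antisymm ((h'.dvd_iff v).1 h.1) ((h.dvd_iff w).1 h'.1)

theorem ordEq.le {y : TR M} {v : ℕ} (h : ordEq v y) : v ≤ M :=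
  not_lt.1 fun hv => h.2 (by
    obtain ⟨z, rfl⟩ := h.1
    rw [pow_eq_zero_of_le (Nat.succ_le_of_lt hv) tt_pow]; simp)

theorem ordEq.exists_unit {y : TR M} {v : ℕ} (h : ordEq v y) :
    ∃ c : TR M, IsUnit c ∧ y = tt M ^ v * c := by
  obtain ⟨z, rfl⟩ := h.1
  exact ⟨z, IsUnit.of_mul_eq_one_right _ (rinv_mul fun hz => h.2 (by
    rw [pow_succ]; exact mul_dvd_mul_left _ hz)), rfl⟩

theorem tt_pow_dvd_iff {a b : ℕ} (ha : a ≤ M + 1) : tt M ^ a ∣ tt M ^ b ↔ a ≤ b := by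
  refine ⟨fun h => not_lt.1 fun hb => ?_, pow_dvd_pow _⟩
  have := (cancel (k := b) (m := 1) (n := M) (by omega) 1).1
    (by simpa using (pow_dvd_pow _ (Nat.succ_le_of_lt hb)).trans h)
  exact not_tt_dvd_one (by simpa using this)

/-- A product of powers of elements of known order is a power of `t` times a unit. -/
theorem prod_ordEq {σ : Type} (s : Finset σ) {x : σ → TR M} {v : σ → ℕ} (a : σ → ℕ)
    (h : ∀ i ∈ s, a i ≠ 0 → ordEq (v i) (x i)) :
    ∃ c : TR M, IsUnit c ∧ ∏ i ∈ s, x i ^ a i = tt M ^ (∑ i ∈ s, a i * v i) * c := by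
  classical
  induction s using Finset.induction_on with
  | empty => exact ⟨1, isUnit_one, by simp⟩
  | insert i s hi ih =>
    obtain ⟨c, h1, h2⟩ := ih fun j hj => h j (Finset.mem_insert_of_mem hj)
    rw [Finset.prod_insert hi, Finset.sum_insert hi, h2]
    by_cases ha : a i = 0
    · exact ⟨c, h1, by simp [ha]⟩
    · obtain ⟨c', h3, h4⟩ := (h i (Finset.mem_insert_self _ _) ha).exists_unit
      exact ⟨c' ^ a i * c, (h3.pow _).mul h1, by rw [h4]; ring⟩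

theorem prod_dvd {σ : Type} (s : Finset σ) {x : σ → TR M} {v : σ → ℕ} (a : σ → ℕ)
    (h : ∀ i ∈ s, tt M ^ v i ∣ x i) : tt M ^ (∑ i ∈ s, a i * v i) ∣ ∏ i ∈ s, x i ^ a i := by
  rw [← Finset.prod_pow_eq_pow_sum]
  exact Finset.prod_dvd_prod_of_dvd _ _ fun i hi => by
    rw [mul_comm, pow_mul]; exact pow_dvd_pow_of_dvd (h i hi) _

end Ord

section Meas

variable {E : Type} [AddCommGroup E] [Module ℂ E]

theorem CFM.cons_ordEq {M : ℕ} {φ : E → TR M} (h : CFM φ) (l : ℕ) : Cons {x | ordEq l (φ x)} :=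
  (h.cons_dvd _).and (h.cons_dvd _).not

theorem cons_exists_mem {ι : Type*} (s : Finset ι) {C : ι → E → Prop}
    (h : ∀ i ∈ s, Cons {x | C i x}) : Cons {x | ∃ i ∈ s, C i x} := by
  have := cons_biUnion s h
  convert this using 1
  ext x; simp

theorem cons_forall_mem {ι : Type*} (s : Finset ι) {C : ι → E → Prop}
    (h : ∀ i ∈ s, Cons {x | C i x}) : Cons {x | ∀ i ∈ s, C i x} := by
  have := cons_biInter s h
  convert this using 1
  ext x; simp

/-- Finite additivity. -/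
theorem pr_sum [FiniteDimensional ℂ E] {ι : Type*} (s : Finset ι) {C : ι → E → Prop}
    (h : ∀ i ∈ s, Cons {x | C i x})
    (hd : ∀ i ∈ s, ∀ j ∈ s, ∀ x, C i x → C j x → i = j) :
    pr {x | ∃ i ∈ s, C i x} = ∑ i ∈ s, pr {x | C i x} := by
  classical
  induction s using Finset.induction_on with
  | empty => simpa using pr_empty
  | insert i s hi ih =>
    rw [Finset.sum_insert hi, ← ih (fun j hj => h j (Finset.mem_insert_of_mem hj))
      fun j hj k hk => hd j (Finset.mem_insert_of_mem hj) k (Finset.mem_insert_of_mem hk),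
      pr_split (cons_exists_mem _ h) (h i (Finset.mem_insert_self _ _))]
    congr 1
    · exact pr_congr fun x => ⟨fun h => h.1, fun h => ⟨h, i, Finset.mem_insert_self _ _, h⟩⟩
    · refine pr_congr fun x => ⟨fun ⟨h1, j, h2, h3⟩ => ⟨j, (Finset.mem_insert.1 h2).resolve_left
        fun e => h1 (e ▸ h3), h3⟩, fun ⟨j, h2, h3⟩ => ⟨fun h1 => hi ?_, j,
        Finset.mem_insert_of_mem h2, h3⟩⟩
      rw [hd i (Finset.mem_insert_self _ _) j (Finset.mem_insert_of_mem h2) x h1 h3]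
      exact h2

end Meas

variable {σ : Type} [Fintype σ] [DecidableEq σ]

theorem aeval_eq_sum {B : Type} [CommRing B] [Algebra ℂ B] (x : σ → B) (f : MvPolynomial σ ℂ) :
    aeval x f = ∑ a ∈ f.support, algebraMap ℂ B (coeff a f) * ∏ i, x i ^ a i := by
  rw [aeval_def, eval₂_eq']

theorem cons_inCell {M : ℕ} (v : σ → ℕ) (I : Finset σ) : Cons {x : σ → TR M | inCell v I x} :=
  cons_forall fun i => ((CFM.id.apply i).cons_dvd _).and
    ((cons_const _).imp ((CFM.id.apply i).cons_dvd _).not)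

theorem cons_ordf {M : ℕ} (f : MvPolynomial σ ℂ) (l : ℕ) :
    Cons {x : σ → TR M | ordEq l (aeval x f)} :=
  CFM.cons_ordEq (CFM.aeval (fun i => CFM.id.apply i) f) l

/-- Constructible conditions. -/
def CW (W : ∀ l : ℕ, (σ → TR (2 * l)) → Prop) : Prop := ∀ l, Cons {x | W l x}

theorem CW.and {W W' : ∀ l : ℕ, (σ → TR (2 * l)) → Prop} (h : CW W) (h' : CW W') :
    CW fun l x => W l x ∧ W' l x := fun l => (h l).and (h' l)

theorem CW.not {W : ∀ l : ℕ, (σ → TR (2 * l)) → Prop} (h : CW W) : CW fun l x => ¬ W l x :=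
  fun l => (h l).not

theorem cw_const (p : Prop) : CW fun l (_ : σ → TR (2 * l)) => p := fun _ => cons_const p

theorem cw_forall {ι : Type*} (s : Finset ι) {W : ι → ∀ l : ℕ, (σ → TR (2 * l)) → Prop}
    (h : ∀ i ∈ s, CW (W i)) : CW fun l x => ∀ i ∈ s, W i l x :=
  fun l => cons_forall_mem s fun i hi => h i hi l

theorem cw_exists {ι : Type*} (s : Finset ι) {W : ι → ∀ l : ℕ, (σ → TR (2 * l)) → Prop}
    (h : ∀ i ∈ s, CW (W i)) : CW fun l x => ∃ i ∈ s, W i l x :=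
  fun l => cons_exists_mem s fun i hi => h i hi l

theorem cw_dvd (j : σ) (γ : ℚ) : CW fun l (x : σ → TR (2 * l)) => tt (2 * l) ^ th γ l ∣ x j :=
  fun _ => (CFM.id.apply j).cons_dvd _

theorem cw_inBox (lo : σ → ℚ) (hi : σ → WithTop ℚ) : CW (inBox lo hi) := fun l =>
  cons_forall fun j => (cw_dvd j _ l).and (by
    rcases h : hi j with _ | γ
    · convert cons_univ (E := σ → TR (2 * l)) using 1
      ext x
      simp only [mem_ofPred_eq, mem_univ, iff_true]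
      intro γ e
      cases e
    · convert (cw_dvd j γ l).not using 1
      ext x
      simp only [mem_ofPred_eq]
      exact ⟨fun h => h γ rfl, fun h γ' e => by cases e; exact h⟩)

theorem cw_nGe (A : Finset (σ →₀ ℕ)) (θ : ℚ) : CW (nGe A θ) := fun l =>
  cons_forall_mem A fun a _ => CFM.cons_dvd (by
    have := CFM.aeval (φ := fun x : σ → TR (2 * l) => x) (fun i => CFM.id.apply i)
      (∏ i, X i ^ a i)
    simpa using this) _

theorem coeff_Zs (f : MvPolynomial σ ℂ) (W : ∀ l : ℕ, (σ → TR (2 * l)) → Prop) {l : ℕ}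
    (hl : l ≠ 0) : PowerSeries.coeff l (Zs f W) =
      pr {x : σ → TR (2 * l) | (∀ i, tt (2 * l) ∣ x i) ∧ ordEq l (aeval x f) ∧ W l x} := by
  rw [Zs, PowerSeries.coeff_mk, if_neg hl]

theorem Zs_congr (f : MvPolynomial σ ℂ) {W W' : ∀ l : ℕ, (σ → TR (2 * l)) → Prop}
    (h : ∀ l x, l ≠ 0 → (∀ i, tt (2 * l) ∣ x i) → ordEq l (aeval x f) → (W l x ↔ W' l x)) :
    Zs f W = Zs f W' := by
  ext l
  by_cases hl : l = 0
  · simp [Zs, hl]
  · rw [coeff_Zs f W hl, coeff_Zs f W' hl]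
    exact pr_congr fun x => and_congr_right fun h1 => and_congr_right fun h2 => h l x hl h1 h2

theorem Zs_false (f : MvPolynomial σ ℂ) : (Zs f fun _ _ => False) = 0 := by
  ext l
  by_cases hl : l = 0
  · simp [Zs, hl]
  · rw [coeff_Zs f _ hl]
    simpa using pr_empty

theorem Zs_split (f : MvPolynomial σ ℂ) {W W' : ∀ l : ℕ, (σ → TR (2 * l)) → Prop} (h : CW W)
    (h' : CW W') : Zs f W = (Zs f fun l x => W l x ∧ W' l x) + Zs f fun l x => W l x ∧ ¬ W' l x := by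
  ext l
  by_cases hl : l = 0
  · simp [Zs, hl]
  · have h0 : Cons {x : σ → TR (2 * l) | ∀ i, tt (2 * l) ∣ x i} :=
      cons_forall fun i => (CFM.id.apply i).cons_dvd _
    rw [map_add, coeff_Zs f _ hl, coeff_Zs f _ hl, coeff_Zs f _ hl,
      pr_split (h0.and ((cons_ordf f l).and (h l))) (h' l)]
    congr 1 <;> exact pr_congr fun x => by tauto

/-- Summation over a finite family of disjoint cells. -/
theorem coeff_Zs_cells (f : MvPolynomial σ ℂ) {W : ∀ l : ℕ, (σ → TR (2 * l)) → Prop} {l : ℕ}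
    (hl : l ≠ 0) (I : Finset σ) {V : Set (σ → ℕ)} (hV : V.Finite)
    (h : ∀ x : σ → TR (2 * l), ordEq l (aeval x f) →
      (((∀ i, tt (2 * l) ∣ x i) ∧ W l x) ↔ ∃ v ∈ V, inCell v I x))
    (hd : ∀ v ∈ V, ∀ w ∈ V, ∀ x : σ → TR (2 * l), inCell v I x → inCell w I x → v = w) :
    PowerSeries.coeff l (Zs f W) =
      ∑ᶠ v ∈ V, pr {x : σ → TR (2 * l) | inCell v I x ∧ ordEq l (aeval x f)} := by
  rw [coeff_Zs f W hl, finsum_mem_eq_finite_toFinset_sum _ hV, ← pr_sum hV.toFinset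
    (fun v _ => (cons_inCell v I).and (cons_ordf f l))
    fun v hv w hw x h1 h2 => hd v (hV.mem_toFinset.1 hv) w (hV.mem_toFinset.1 hw) x h1.1 h2.1]
  refine pr_congr fun x => ⟨fun ⟨h1, h2, h3⟩ => ?_, fun ⟨v, h1, h2, h3⟩ => ?_⟩
  · obtain ⟨v, h4, h5⟩ := (h x h2).1 ⟨h1, h3⟩
    exact ⟨v, hV.mem_toFinset.2 h4, h5, h2⟩
  · have := (h x h3).2 ⟨v, hV.mem_toFinset.1 h1, h2⟩
    exact ⟨this.1, h3, this.2⟩

theorem th_le_iff (γ : ℚ) (l v : ℕ) : th γ l ≤ v ↔ γ * l ≤ v := Nat.ceil_le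

theorem lt_th_iff (γ : ℚ) (l v : ℕ) : v < th γ l ↔ (v : ℚ) < γ * l := Nat.lt_ceil

theorem th_mono {γ γ' : ℚ} (h : γ ≤ γ') (l : ℕ) : th γ l ≤ th γ' l :=
  Nat.ceil_mono (mul_le_mul_of_nonneg_right h l.cast_nonneg)

theorem th_le_two {γ : ℚ} (h : γ ≤ 2) (l : ℕ) : th γ l ≤ 2 * l :=
  (th_le_iff _ _ _).2 (by push_cast; exact mul_le_mul_of_nonneg_right h l.cast_nonneg)

theorem nn_le {A : Finset (σ →₀ ℕ)} {a : σ →₀ ℕ} (ha : a ∈ A) (v : σ → ℕ) : nn A v ≤ dn a v :=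
  Nat.sInf_le ⟨a, ha, rfl⟩

theorem fc_nonempty {A : Finset (σ →₀ ℕ)} (hA : A.Nonempty) (v : σ → ℕ) : (fc A v).Nonempty := by
  obtain ⟨a, h1, h2⟩ := Nat.sInf_mem (s := (fun a => dn a v) '' A) (hA.to_set.image _)
  exact ⟨a, Finset.mem_filter.2 ⟨h1, h2⟩⟩

theorem mem_fc {A : Finset (σ →₀ ℕ)} {v : σ → ℕ} {a : σ →₀ ℕ} :
    a ∈ fc A v ↔ a ∈ A ∧ dn a v = nn A v := Finset.mem_filter

theorem mem_fr {A : Finset (σ →₀ ℕ)} {u : σ → ℝ} {a : σ →₀ ℕ} :
    a ∈ fr A u ↔ a ∈ A ∧ dr a u = 1 := by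
  simp [fr]

theorem nn_eq {A : Finset (σ →₀ ℕ)} {v : σ → ℕ} {N : ℕ} (h : ∀ a ∈ A, N ≤ dn a v)
    (h' : ∃ a ∈ A, dn a v = N) : nn A v = N := by
  obtain ⟨a, h1, h2⟩ := h'
  obtain ⟨b, hb⟩ := fc_nonempty ⟨a, h1⟩ v
  exact le_antisymm (h2 ▸ nn_le h1 v) ((mem_fc.1 hb).2 ▸ h b (mem_fc.1 hb).1)

theorem facePoly_nat (f : MvPolynomial σ ℂ) (v : σ → ℕ) :
    facePoly f (fun i => (v i : ℝ)) = fp f (fc f.support v) := by
  refine Finset.sum_congr ?_ fun _ _ => rfl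
  ext a
  simp only [Finset.mem_filter, mem_fc]
  refine and_congr_right fun ha => ⟨fun h => (nn_eq (fun b hb => ?_) ⟨a, ha, rfl⟩).symm,
    fun h b hb => ?_⟩
  · have := h b hb
    unfold dn
    exact_mod_cast this
  · have := h ▸ nn_le hb v
    unfold dn at this
    exact_mod_cast this

theorem walls_finite (lo hi : Option σ → ℚ) (κ : Option σ → ℕ) (l : ℕ) (N : (σ → ℕ) → ℕ) :
    {v | Walls lo hi κ l v (N v)}.Finite :=
  (Set.Finite.pi' fun j => Set.finite_Iio ⌈hi (some j) * l + κ (some j)⌉₊).subset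
    fun _ hv j => Nat.lt_ceil.2 (hv.1 j).2.2

theorem Indep.mono {X Y : Finset (σ →₀ ℕ)} {S S' : Finset σ} (h : Indep X S) (hY : Y ⊆ X)
    (hS : S' ⊆ S) : Indep Y S' := fun a ha =>
  (Finset.sum_le_sum_of_subset hS).trans (h a (hY ha))

theorem Indep.eq_one {X : Finset (σ →₀ ℕ)} {S : Finset σ} (h : Indep X S) {a : σ →₀ ℕ}
    (ha : a ∈ X) {i : σ} (hi : i ∈ S) (h0 : a i ≠ 0) :
    a i = 1 ∧ ∀ j ∈ S, j ≠ i → a j = 0 := by
  have h1 := h a ha
  refine ⟨by have := Finset.single_le_sum (f := fun i => a i) (fun _ _ => Nat.zero_le _) hi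
             omega, fun j hj hne => ?_⟩
  have := Finset.sum_le_sum_of_subset (f := fun i => a i) (s := {i, j}) (t := S)
    (by simp [Finset.insert_subset_iff, hi, hj])
  rw [Finset.sum_pair hne.symm] at this
  omega

theorem Valid.mono {X Y : Finset (σ →₀ ℕ)} {S : Finset σ} (h : Valid X S) (hY : Y ⊆ X) :
    Valid Y S :=
  ⟨h.1.mono hY subset_rfl, lt_of_le_of_lt (Submodule.finrank_mono (Submodule.span_mono
    (Set.image_mono (Finset.coe_subset.2 (Finset.filter_subset_filter _ hY))))) h.2⟩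

theorem Valid.nonempty {X : Finset (σ →₀ ℕ)} {S : Finset σ} (h : Valid X S) : S.Nonempty := by
  rcases S.eq_empty_or_nonempty with rfl | h'
  · simpa using h.2
  · exact h'

theorem Valid.exists_min {X : Finset (σ →₀ ℕ)} {S : Finset σ} (h : Valid X S) :
    ∃ S' ⊆ S, MinValid X S' := by
  induction S using Finset.strongInduction with
  | H S ih =>
    by_cases h' : ∃ S' ⊂ S, Valid X S'
    · obtain ⟨S', h1, h2⟩ := h'
      obtain ⟨S'', h3, h4⟩ := ih S' h1 h2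
      exact ⟨S'', h3.trans h1.subset, h4⟩
    · exact ⟨S, subset_rfl, h, fun S' h1 h2 => h' ⟨S', h1, h2⟩⟩

end Pool.Agent.P.MP_9321be_ag.ND
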