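import Pool.Agent.P.MP_9321be_ag.ND.EIface

/-!
The eigenvalue property is constant on non-degenerate polynomials.
-/

namespace Pool.Agent.P.MP_9321be_ag.ND.E

open Set Filter Topology

theorem t_Const : S_Step → S_NDNI → S_NIND → S_Path → S_Const := by
  intro hS hA hB hP α σ _ _ _ _ _ ex c₀ c₁ lam h₀ h₁ hE
  have hc : Continuous fun t : ℂ => c₀ + t • (c₁ - c₀) := by fun_prop
  have hloc : ∀ t₀ : ℂ, NI ex (c₀ + t₀ • (c₁ - c₀)) → ∀ᶠ t in 𝓝 t₀, NI ex (c₀ + t • (c₁ - c₀)) ∧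
      (Eig (ev ex (c₀ + t • (c₁ - c₀))) lam ↔ Eig (ev ex (c₀ + t₀ • (c₁ - c₀))) lam) :=
    fun t₀ h => by
      obtain ⟨r, hr, h'⟩ := hS α σ ex _ lam h
      filter_upwards [hc.continuousAt.eventually (Metric.ball_mem_nhds _ hr)] with t ht
      rw [dist_eq_norm] at ht
      have h0 : ‖c₀ + t₀ • (c₁ - c₀) - (c₀ + t₀ • (c₁ - c₀))‖ < r := by simpa using hr
      exact ⟨(h' _ _ ht h0).1, (h' _ _ ht h0).2, (h' _ _ h0 ht).2⟩
  have h₀' : NI ex (c₀ + (0 : ℂ) • (c₁ - c₀)) := by simpa using h₀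
  have h₁' : NI ex (c₀ + (1 : ℂ) • (c₁ - c₀)) := by simpa using h₁
  have hcount : {t : ℂ | ¬ NI ex (c₀ + t • (c₁ - c₀))}.Countable :=
    (hP α σ ex c₀ (c₁ - c₀) ((hloc 0 h₀').mono fun t ht => hB α σ ex _ ht.1)).mono
      fun t ht h => ht (hA α σ ex _ h)
  have hconn := (hcount.isConnected_compl_of_one_lt_rank (by
    rw [Complex.rank_real_complex]; norm_num)).isPreconnected
  have key := hconn.induction₂' (fun s t : ℂ => Eig (ev ex (c₀ + s • (c₁ - c₀))) lam ↔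
      Eig (ev ex (c₀ + t • (c₁ - c₀))) lam)
    (fun s hs => ((hloc s (not_not.1 hs)).mono fun t ht => ⟨ht.2.symm, ht.2⟩).filter_mono
      nhdsWithin_le_nhds)
    (fun _ _ _ _ _ _ h h' => h.trans h') (x := 1) (y := 0) (not_not.2 h₁') (not_not.2 h₀')
  simpa using key.1 (by simpa using hE)

end Pool.Agent.P.MP_9321be_ag.ND.E
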