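import Pool.Agent.P.MP_9321be_ag.ND.ZDefs

/-!
Exact statements of the steps of the zeta function part, and of the eigenvalue theorem.
-/

namespace Pool.Agent.P.MP_9321be_ag.ND

open MvPolynomial

/-- Combining the rational forms obtained for the different bad slopes. -/
def S_Alg : Prop :=
  ∀ (R : Type 1) [CommRing R] (u : R), IsUnit u → ∀ (P : ℚ → Prop), P 1 →
    ∀ G : PowerSeries R, (∀ α, ¬ P α → Rt u (· ≠ α) G) → Rt u (fun _ => True) G → Rt u P G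

/-- Generating series of the lattice points of a polyhedron. -/
def S_Slice : Prop :=
  ∀ (R : Type 1) [CommRing R] (u : R) (ι κ : Type) [Fintype ι] [Fintype κ]
    (ℓ : κ → ι → ℤ) (b : κ → ℤ) (e d : ι → ℤ) (α : ℚ),
    (∀ l : ℕ, {z : ι → ℤ | (∀ k, b k ≤ ℓ k ⬝ᵥ z) ∧ d ⬝ᵥ z = l}.Finite) →
    (∀ z : ι → ℤ, (∀ k, b k ≤ ℓ k ⬝ᵥ z) → 0 ≤ d ⬝ᵥ z ∧ 0 ≤ e ⬝ᵥ z) →
    (∀ r : ι → ℤ, r ≠ 0 → (∀ k, 0 ≤ ℓ k ⬝ᵥ r) → 0 < d ⬝ᵥ r ∧ 0 < e ⬝ᵥ r ∧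
      (fun i => (e i : ℚ) - α * d i) ∉
        Submodule.span ℚ ((fun k i => (ℓ k i : ℚ)) '' {k | ℓ k ⬝ᵥ r = 0})) →
    Rt u (· ≠ α) (PowerSeries.mk fun l : ℕ =>
      ∑ᶠ z ∈ {z : ι → ℤ | (∀ k, b k ≤ ℓ k ⬝ᵥ z) ∧ d ⬝ᵥ z = l}, u ^ (e ⬝ᵥ z).toNat)

/-- Dense sets of rationals avoiding finitely many linear relations. -/
def S_Dense : Prop :=
  ∀ (ι : Type) [Fintype ι] (D : Finset ((ι → ℚ) × ℚ)), (∀ p ∈ D, p.1 ≠ 0) →
    ∃ Γ : ι → Set ℚ, Dns Γ ∧ ∀ γ : ι → ℚ, ∀ p ∈ D, (∀ i, p.1 i ≠ 0 → γ i ∈ Γ i) →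
      ∑ i, p.1 i * γ i ≠ p.2

/-- Existence of generic walls. -/
def S_Gen : Prop :=
  ∀ (σ : Type) [Fintype σ] [DecidableEq σ] (A : Finset (σ →₀ ℕ)) (α : ℚ), α ≠ 1 →
    ∃ Γ : Option σ → Set ℚ, Dns Γ ∧ Gen A α Γ

/-- The series of a polyhedral cell away from the dangerous set. -/
def S_Cell : Prop :=
  ∀ (R : Type 1) [CommRing R] (u : R) (σ : Type) [Fintype σ] [DecidableEq σ]
    (A F : Finset (σ →₀ ℕ)) (α : ℚ) (Γ : Option σ → Set ℚ) (lo hi : Option σ → ℚ)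
    (κ : Option σ → ℕ), ConvA A → F ⊆ A → Gen A α Γ → WallOK Γ lo hi → NoK A α lo hi →
    Rt u (· ≠ α) (PowerSeries.mk fun l : ℕ =>
      ∑ᶠ p ∈ cellSet A F lo hi κ l, u ^ (∑ i, p.1 i + l - p.2))

/-- The series of the Hensel values over a union of cells. -/
def S_Ser : Prop :=
  ∀ (σ : Type) [Fintype σ] [DecidableEq σ] (f : MvPolynomial σ ℂ) (α : ℚ) (Γ : Option σ → Set ℚ)
    (I : Finset σ) (𝓕 : Set (Finset (σ →₀ ℕ))) (lo hi : Option σ → ℚ) (κ : Option σ → ℕ),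
    ConvA f.support → Gen f.support α Γ → WallOK Γ lo hi → NoK f.support α lo hi →
    Good α (PowerSeries.mk fun l : ℕ =>
      ∑ᶠ v ∈ {v | Walls lo hi κ l v (nn f.support v) ∧ fc f.support v ∈ 𝓕}, hval f I l v)

/-- Hensel's lemma on a cell. -/
def S_Hensel : Prop :=
  ∀ (σ : Type) [Fintype σ] [DecidableEq σ] (f : MvPolynomial σ ℂ) (M l : ℕ) (v : σ → ℕ)
    (I : Finset σ), l ≤ M → (∀ i, v i ≤ M) →
    (nn f.support v ≤ l → Smooth (fp f (fc f.support v)) I) →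
    pr {x : σ → TR M | inCell v I x ∧ ordEq l (aeval x f)} = hval f I l v

/-- The zeta function as a measure on jets of level `2 l`. -/
def S_Link : Prop :=
  ∀ (σ : Type) [Fintype σ] [DecidableEq σ] (f : MvPolynomial σ ℂ),
    zeta f = Zs f fun _ _ => True

/-- Smoothness of the initial form in the directions of a valid set. -/
def S_Smooth : Prop :=
  ∀ (σ : Type) [Fintype σ] [DecidableEq σ] (f : MvPolynomial σ ℂ) (Y : Finset (σ →₀ ℕ))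
    (S : Finset σ) (v : σ → ℕ), Nondeg f → (∀ i, 0 < v i) → Valid Y S → fc f.support v ⊆ Y →
    (∀ i ∈ S, ∃ a ∈ fc f.support v, a i ≠ 0) → Smooth (fp f (fc f.support v)) S

/-- A box whose unbounded sides start beyond one. -/
def S_Pin : Prop :=
  ∀ (σ : Type) [Fintype σ] [DecidableEq σ] (f : MvPolynomial σ ℂ) (α : ℚ) (Γ : Option σ → Set ℚ)
    (lo : σ → ℚ) (hi : σ → WithTop ℚ) (θ : ℚ), Ctx f α Γ → BoxOK Γ lo hi →
    (∀ j, hi j = ⊤ → 1 < lo j) →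
    (Disjoint (clBox lo hi) (Kset f.support α) → Good α (Zs f (inBox lo hi))) ∧
    (θ ∈ Γ none → θ < 1 →
      Good α (Zs f fun l x => inBox lo hi l x ∧ ¬ nGe f.support θ l x))

/-- Boxes away from the dangerous set. -/
def S_Box : Prop :=
  ∀ (σ : Type) [Fintype σ] [DecidableEq σ] (f : MvPolynomial σ ℂ) (α : ℚ) (Γ : Option σ → Set ℚ)
    (lo : σ → ℚ) (hi : σ → WithTop ℚ) (θ : ℚ), Ctx f α Γ → BoxOK Γ lo hi →
    (Disjoint (clBox lo hi) (Kset f.support α) → Good α (Zs f (inBox lo hi))) ∧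
    (θ ∈ Γ none → θ < 1 →
      Good α (Zs f fun l x => inBox lo hi l x ∧ ¬ nGe f.support θ l x))

/-- The upper part of a cylinder in the directions of a valid set. -/
def S_Cyl : Prop :=
  ∀ (σ : Type) [Fintype σ] [DecidableEq σ] (f : MvPolynomial σ ℂ) (α : ℚ) (Γ : Option σ → Set ℚ)
    (lo hi : σ → ℚ) (θ : ℚ) (Y : Finset (σ →₀ ℕ)) (S : Finset σ), Ctx f α Γ →
    BoxOK Γ lo (fun j => (hi j : WithTop ℚ)) → θ ∈ Γ none → 0 < θ → θ < 1 → Y ⊆ f.support →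
    Valid Y S → (∀ a ∈ f.support, a ∉ Y → 1 < ∑ j, vec a j * lo j) →
    (∀ i ∈ S, ∃ a ∈ Y, a i = 1 ∧ lo i + ∑ j ∈ Sᶜ, vec a j * hi j ≤ θ) →
    Good α (Zs f fun l x => inBox lo (fun j => if j ∈ S then ⊤ else (hi j : WithTop ℚ)) l x ∧
      nGe f.support θ l x)

/-- A box that is long in the directions of a valid set. -/
def S_Inter : Prop :=
  ∀ (σ : Type) [Fintype σ] [DecidableEq σ] (f : MvPolynomial σ ℂ) (α : ℚ) (Γ : Option σ → Set ℚ)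
    (lo hi : σ → ℚ) (Y : Finset (σ →₀ ℕ)) (S : Finset σ), Ctx f α Γ →
    BoxOK Γ lo (fun j => (hi j : WithTop ℚ)) → (∀ j, lo j ≤ hi j) → Y ⊆ f.support → Valid Y S →
    (∀ a ∈ f.support, a ∉ Y → 1 < ∑ j, vec a j * lo j) →
    (∀ i ∈ S, ∃ a ∈ Y, a i = 1 ∧ lo i + ∑ j ∈ Sᶜ, vec a j * hi j < 1) →
    (∀ i ∈ S, ∀ a ∈ Y, a i = 1 → 1 < hi i + ∑ j ∈ Sᶜ, vec a j * lo j) →
    Good α (Zs f (inBox lo fun j => (hi j : WithTop ℚ)))

/-- Compactness and positivity of the dangerous set. -/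
def S_Kc : Prop :=
  ∀ (σ : Type) [Fintype σ] [DecidableEq σ] (A : Finset (σ →₀ ℕ)) (α : ℚ),
    IsCompact (Kset A α) ∧ ∀ u ∈ Kset A α, (∀ i, ∃ a ∈ fr A u, a i ≠ 0) ∧ (∀ i, u i ≤ 1) ∧
      (ConvA A → ∀ i, 0 < u i)

/-- Compatible labels. -/
def S_Lab : Prop :=
  ∀ (σ : Type) [Fintype σ] [DecidableEq σ] (A : Finset (σ →₀ ℕ)) (α : ℚ),
    IsCompact (Kset A α) → HB A α →
    ∃ D : (σ → ℝ) → Finset σ, ∃ ρ : ℝ, 0 < ρ ∧ (∀ u ∈ Kset A α, Indep (fr A u) (D u)) ∧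
      ∀ p : σ → ℝ, ∃ S, ∀ u ∈ Kset A α, dist u p < ρ → S ⊆ D u ∧ Valid (fr A u) S

/-- A small box around a point, long in the directions of `D`. -/
def S_Boxes : Prop :=
  ∀ (σ : Type) [Fintype σ] [DecidableEq σ] (A : Finset (σ →₀ ℕ)) (Γ : Option σ → Set ℚ)
    (u : σ → ℝ) (D : Finset σ) (ρ : ℝ), Dns Γ → 0 < ρ → (∀ i, 0 < u i ∧ u i ≤ 1) →
    (∀ a ∈ A, 1 ≤ dr a u) → Indep (fr A u) D →
    ∃ lo hi : σ → ℚ, BoxOK Γ lo (fun j => (hi j : WithTop ℚ)) ∧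
      (∀ j, (lo j : ℝ) < u j ∧ u j < hi j) ∧
      (∀ r ∈ clBox lo (fun j => (hi j : WithTop ℚ)), dist u r < ρ) ∧
      (∀ a ∈ A, a ∉ fr A u → 1 < ∑ j, vec a j * lo j) ∧
      ∀ i ∈ D, ∀ a ∈ fr A u, a i ≠ 0 → lo i + ∑ j ∈ {i}ᶜ, vec a j * hi j < 1 ∧
        1 < hi i + ∑ j ∈ {i}ᶜ, vec a j * lo j

/-- Inclusion and exclusion. -/
def S_IE : Prop :=
  ∀ (σ : Type) [Fintype σ] [DecidableEq σ] (f : MvPolynomial σ ℂ) (α : ℚ) (Γ : Option σ → Set ℚ)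
    (K : Set (σ → ℝ)) (ι : Type) (T : Finset ι) (lo hi : ι → σ → ℚ),
    (∀ lo' hi', BoxOK Γ lo' hi' → Disjoint (clBox lo' hi') K → Good α (Zs f (inBox lo' hi'))) →
    (∀ k ∈ T, BoxOK Γ (lo k) fun j => (hi k j : WithTop ℚ)) →
    (∀ u ∈ K, ∃ k ∈ T, ∀ j, (lo k j : ℝ) < u j ∧ u j < hi k j) →
    (∀ T' ⊆ T, T'.Nonempty →
      Good α (Zs f fun l x => ∀ k ∈ T', inBox (lo k) (fun j => (hi k j : WithTop ℚ)) l x)) →
    Good α (Zs f fun _ _ => True)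

/-- The covering argument. -/
def S_Cover : Prop :=
  ∀ (σ : Type) [Fintype σ] [DecidableEq σ] (f : MvPolynomial σ ℂ) (α : ℚ) (Γ : Option σ → Set ℚ),
    Ctx f α Γ → HB f.support α → Good α (Zs f fun _ _ => True)

/-- From the combinatorial claim to the existence of strong sets. -/
def S_HB : Prop :=
  ∀ (σ : Type) [Fintype σ] [DecidableEq σ] (A : Finset (σ →₀ ℕ)) (α : ℚ), ConvA A →
    (∀ X ⊆ A, ∀ u : σ → ℚ, (∀ i, 0 < u i) → (∀ a ∈ X, ∑ i, vec a i * u i = 1) → ClaimAt X) →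
    (∀ u ∈ Kset A α, ∀ s ⊆ fr A u, Contrib s → ∃ a, UApex s a) → HB A α

/-- Claim B when no exponent has two coordinates equal to one. -/
def S_ClaimC : Prop :=
  ∀ (σ : Type) [Fintype σ] [DecidableEq σ] (X : Finset (σ →₀ ℕ)),
    (∀ a ∈ X, ∀ i j, a i = 1 → a j = 1 → i = j) → ClaimAt X

/-- The eigenvalue theorem. -/
def S_E : Prop :=
  ∀ (σ : Type) [Fintype σ] [DecidableEq σ] (f : MvPolynomial σ ℂ), coeff 0 f = 0 →
    Convenient f → Nondeg f → ∀ (u : σ → ℝ) (s : Finset (σ →₀ ℕ)) (α : ℚ),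
    (∀ a ∈ f.support, 1 ≤ dr a u) → s ⊆ fr f.support u → Contrib s → (∀ a, ¬ UApex s a) →
    ∑ i, u i = α → (∀ k : ℤ, α ≠ k) →
    IsMonodromyEigenvalue f 0 (Complex.exp (-(2 * Real.pi * Complex.I * α)))

end Pool.Agent.P.MP_9321be_ag.ND
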