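import Pool.Agent.P.MP_9321be_ag.ND.ETool
import Pool.Agent.P.MP_9321be_ag.ND.ZIface

/-!
Assembly of the eigenvalue theorem.
-/

namespace Pool.Agent.P.MP_9321be_ag.ND.E

open Pool.Agent.Lib.Helper83 Set Complex

/-- The eigenvalue theorem for families of exponents. -/
def S_Fam : Prop :=
  ∀ (α σ : Type) [Fintype α] [DecidableEq α] [Fintype σ] [DecidableEq σ] (ex : α → σ → ℕ)
    (c : α → ℂ) (u : σ → ℝ) (s : Finset α) (g : α → ℝ), Conv ex → NDc ex c →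
    (∀ a, 1 ≤ rv ex a ⬝ᵥ u) → (∀ a ∈ s, rv ex a ⬝ᵥ u = 1) → LinearIndepOn ℝ (rv ex) (s : Set α) →
    (∀ i, ∑ a ∈ s, g a * ex a i = 1) →
    (∀ a ∈ s, ∀ i, ex a i = 1 → (∀ b ∈ s, b ≠ a → ex b i = 0) →
      ∃ j, j ≠ i ∧ ex a j ≠ 0 ∧ ∀ b ∈ s, b ≠ a → ex b j = 0) →
    (∀ z : ℤ, ∑ a ∈ s, g a ≠ z) →
    Eig (ev ex c) (exp (-(2 * Real.pi * I * (∑ a ∈ s, g a : ℝ))))

namespace Final

theorem exists_compl {σ : Type} [Fintype σ] {p : ℕ} (y : Fin p → σ → ℝ)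
    (h : LinearIndependent ℝ y) : ∃ (q : ℕ) (u : Fin q → σ → ℝ), p + q = Fintype.card σ ∧
      ⊤ ≤ Submodule.span ℝ (range u ∪ range y) := by
  obtain ⟨W, hW⟩ := (Submodule.span ℝ (range y)).exists_isCompl
  refine ⟨_, W.subtype ∘ Module.finBasis ℝ W, ?_, ?_⟩
  · simpa [finrank_span_eq_card h] using Submodule.finrank_add_eq_of_isCompl hW
  · rw [Submodule.span_union, range_comp, Submodule.span_image, Module.Basis.span_eq,
      Submodule.map_subtype_top, sup_comm, hW.sup_eq_top]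

theorem exists_int_sum {α : Type} (s : Finset α) (g : α → ℝ) (h : ∀ a ∈ s, ∃ z : ℤ, g a = z) :
    ∃ z : ℤ, ∑ a ∈ s, g a = z :=
  Finset.sum_induction g (fun x => ∃ z : ℤ, x = z)
    (fun _ _ ⟨a, ha⟩ ⟨b, hb⟩ => ⟨a + b, by simp [ha, hb]⟩) ⟨0, by simp⟩ h

end Final

open Final

theorem t_Fam (hSm : S_Small) (hND : S_NDNI) (hCo : S_Const) (hGen : S_KGen) (hCl : S_KCl)
    (hUn : S_KUniq) (hNe : S_Near) (hPh : S_Phi) (hVa : S_Val) (hSt : S_Stress) (hAp : S_NVApp)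
    (hA : S_SingA) (hC : S_SingC) (hI : S_Imap) (hCy : S_Cyc) : S_Fam := by
  intro α σ _ _ _ _ ex c u s g cv nd hu hs ind hg ap hz
  classical
  set E := s.filter fun a => ∀ z : ℤ, g a ≠ z with hE
  set τ₀ := s.filter fun a => ∀ z : ℤ, z ≤ 0 → g a ≠ z with hτ
  have hEs : E ⊆ s := Finset.filter_subset _ _
  have hr : ∀ a ∈ s \ E, ∃ z : ℤ, g a = z := fun a ha => by
    simp only [hE, Finset.mem_sdiff, Finset.mem_filter, not_and, not_forall, not_not] at ha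
    exact ha.2 ha.1
  obtain ⟨z₀, hz₀⟩ := exists_int_sum _ g hr
  have hsum := Finset.sum_sdiff (f := g) hEs
  obtain ⟨a₀, ha₀⟩ : E.Nonempty := Finset.nonempty_iff_ne_empty.2 fun e =>
    hz z₀ (by rw [← hsum, hz₀, e]; simp)
  have hEτ : E ⊆ τ₀ := Finset.monotone_filter_right _ fun a _ h z _ => h z
  have hint : ∀ i, ∃ z : ℤ, ∑ a ∈ E, g a * ex a i = z := fun i => by
    obtain ⟨z, e⟩ := exists_int_sum (s \ E) (fun a => g a * ex a i) fun a ha => by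
      obtain ⟨z, e⟩ := hr a ha
      exact ⟨z * ex a i, by simp [e]⟩
    have := Finset.sum_sdiff (f := fun a => g a * ex a i) hEs
    exact ⟨1 - z, by push_cast; linarith [hg i]⟩
  have hI₀ : Intr (rv ex) τ₀ := fun i => by
    obtain ⟨a, h1, h2⟩ := Finset.exists_lt_of_sum_lt (s := s) (f := fun _ => (0 : ℝ))
      (g := fun a => g a * ex a i) (by simp [hg i])
    refine ⟨a, Finset.mem_filter.2 ⟨h1, fun z hz' e => ?_⟩, fun e => ?_⟩
    · have : (z : ℝ) ≤ 0 := by exact_mod_cast hz'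
      nlinarith [(ex a i).cast_nonneg (α := ℝ)]
    · simp [show (ex a i : ℝ) = 0 from e] at h2
  have : Nonempty α := ⟨a₀⟩
  obtain ⟨d, hd⟩ : ∃ d, Fintype.card σ = d + 1 := Nat.exists_eq_succ_of_ne_zero
    (@Fintype.card_ne_zero _ _ ⟨(Function.ne_iff.1 (cv.1 a₀)).choose⟩)
  let e : Fin (d + 1) ≃ σ := (Fintype.equivFinOfCardEq hd).symm
  obtain ⟨h, h0, h1, h2⟩ := (hGen α σ (rv ex)).1 s ind
  obtain ⟨sec, hsec⟩ := (hGen α σ (rv ex)).2 _ h2
  have hsK : s ∈ KK (rv ex) h :=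
    ⟨u, 0, hu, fun a ha => ⟨hs a ha, by simp [h1 a ha]⟩, fun a _ => by simpa using h0 a⟩
  have cx : Cx (rv ex) (KK (rv ex) h) :=
    ⟨fun τ ⟨u, om, k1, k2, k3⟩ τ' e => ⟨u, om, k1, fun a ha => k2 a (e ha), k3⟩, h2,
      hCl α σ ex h cv h2, hUn α σ _ h h2⟩
  let r : Fin τ₀.card → α := fun i => τ₀.equivFin.symm i
  have hr' : Finset.univ.image r = τ₀ := by
    ext a
    simp only [Finset.mem_image, Finset.mem_univ, true_and]
    exact ⟨fun ⟨i, e⟩ => e ▸ (τ₀.equivFin.symm i).2, fun ha => ⟨τ₀.equivFin ⟨a, ha⟩, by simp [r]⟩⟩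
  obtain ⟨q, u₀, hq, hu₀⟩ := exists_compl (rv ex ∘ r)
    ((h2 τ₀ (cx.down s hsK _ (Finset.filter_subset _ _))).comp τ₀.equivFin.symm
      τ₀.equivFin.symm.injective)
  have hp : 0 < τ₀.card := Finset.card_pos.2 ⟨a₀, hEτ ha₀⟩
  have P1 := hPh α σ _ _ sec _ q r u₀ cx.down h2 hsec hp hu₀
  have P2 := hVa α σ _ _ sec _ q _ e r u₀ cx.down h2 hsec hp (hq.trans hd) hu₀
  rw [hr'] at P1 P2
  obtain ⟨Λ, Q1, Q2⟩ := hSt α σ _ _ d e τ₀ q _ cx hI₀ (hq.trans hd) P1 P2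
  obtain ⟨μ, m1, m2, m3⟩ := hAp α σ ex _ s E τ₀ g Λ cx hsK hg (fun a => Finset.mem_filter)
    (fun a => Finset.mem_filter) ap Q1
  have hm : (0 : ℝ) < Fintype.card α := by exact_mod_cast Fintype.card_pos
  obtain ⟨L₀, -, n1⟩ := hNe α σ ex h (3 * Fintype.card α) cv h2 (by positivity)
  obtain ⟨L₁, -, n2⟩ := hI α σ ex h (3 * Fintype.card α) cv h2 (by linarith)
  obtain ⟨ni, ε₀, hε₀, n3⟩ := n1 (max L₀ L₁) (le_max_left _ _)
  obtain ⟨wd, nil⟩ := hA α σ ex (vc h (max L₀ L₁)) (3 * Fintype.card α) _ τ₀ E g q _ P1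
    ⟨a₀, hEτ ha₀⟩ hEτ hint
  have el : exp (-(2 * Real.pi * I * (∑ a ∈ s, g a : ℝ))) =
      exp (-(2 * Real.pi * I * (∑ a ∈ E, g a : ℝ))) := by
    rw [← hsum, hz₀, exp_eq_exp_iff_exists_int]
    exact ⟨-z₀, by push_cast; ring⟩
  rw [el]
  refine hCo α σ ex c _ _ (hND α σ ex c nd) ni ⟨ε₀, hε₀, fun ε₁ hε₁ => ⟨1, one_pos, fun δ hδ => ?_⟩⟩
  obtain ⟨Ψ, W, im⟩ := n2 _ (le_max_right _ _) _ (lt_min hε₀ hε₁) δ hδ.1
  have mono : ∀ ε, min ε₀ ε₁ ≤ ε → Mset (ev ex (vc h (max L₀ L₁))) (min ε₀ ε₁) δ ⊆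
      Mset (ev ex (vc h (max L₀ L₁))) ε δ := fun ε hε p hp =>
    ⟨hp.1.trans_le (pow_le_pow_left₀ (lt_min hε₀ hε₁).le hε 2), hp.2⟩
  obtain ⟨z, z1, z2, z3⟩ := hCy α σ ex _ _ _ _ d e τ₀ E g q _ Ψ W μ le_rfl (fun p hp => hp.2.1) cx
    hI₀ P1 wd im (fun a ha => (Finset.mem_filter.1 ha).2) m2 m3 (Q2 μ m1)
  obtain ⟨N, N1, N2, N3⟩ := hC α σ ex h _ _ _ _ τ₀ E g q _ le_rfl (n3 δ) P1 hI₀ wd
  obtain ⟨k, M, φ, f1, f2, z', f3, f4⟩ := hSm _ dk _ _
    (Mset (ev ex (vc h (max L₀ L₁))) ε₀ δ) N d (q + 1) _ Tool.continuous_dk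
    (fun p hp => ⟨hp.1, by simpa [dk, exp_add] using hp.2.1, by simpa [dk] using hp.2.2⟩)
    (mono ε₀ (min_le_left _ _)) N1 N2 (N3 _) nil ⟨z, z1, z2, z3⟩
  exact ⟨k, M, φ, f1, f2, z', sub_mono (mono ε₁ (min_le_right _ _)) f3, f4⟩

open MvPolynomial in
theorem t_Red (hB : S_BR) (hF : S_Fam) : S_E := by
  intro σ _ _ f h0 hc hn u s al hu hs hcs hU hal hz
  classical
  have hsA : ∀ a ∈ s, a ∈ f.support := fun a ha => (Finset.mem_filter.1 (hs ha)).1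
  obtain ⟨g, hg⟩ := (Submodule.mem_span_image_finset_iff_exists_fun' ℚ).1 hcs.2
  have hg' : ∀ i, ∑ a ∈ s, (g a : ℝ) * a i = 1 := fun i => by
    have := congrFun hg i
    simp only [Finset.sum_apply, Pi.smul_apply, smul_eq_mul, vec] at this
    exact_mod_cast this
  have hsum : ∑ a ∈ s, (g a : ℝ) = al := by
    rw [← hal]
    calc _ = ∑ a ∈ s, (g a : ℝ) * dr a u :=
          Finset.sum_congr rfl fun a ha => by rw [(Finset.mem_filter.1 (hs ha)).2, mul_one]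
      _ = ∑ i, (∑ a ∈ s, (g a : ℝ) * a i) * u i := by
          simp only [dr, Finset.mul_sum, Finset.sum_mul, mul_assoc]
          exact Finset.sum_comm
      _ = _ := by simp [hg']
  have cs : ∀ F : (σ →₀ ℕ) → ℝ, ∑ a ∈ s.subtype (· ∈ f.support), F a = ∑ a ∈ s, F a :=
    fun F => Finset.sum_subtype_of_mem F hsA
  have key := hF f.support σ (fun a => a.1) (fun a => coeff a.1 f) u (s.subtype (· ∈ f.support))
    (fun a => g a.1) ⟨fun a e => ?_, fun i => ?_⟩ (fun w hw x hx => ?_) (fun a => hu a.1 a.2)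
    (fun a ha => (Finset.mem_filter.1 (hs (Finset.mem_subtype.1 ha))).2) ?_
    (fun i => (cs fun a => g a * a i).trans (hg' i)) (fun a ha i h1 h2 => ?_)
    (fun z e => hz z (by exact_mod_cast hsum.symm.trans ((cs fun a => g a).symm.trans e)))
  · rw [cs fun a => g a, hsum, ofReal_ratCast] at key
    refine hB σ f _ (fun e => ?_) ?_
    · obtain ⟨k, hk⟩ := exp_eq_one_iff.1 e
      refine hz (-k) ?_
      have : (al : ℂ) = ((-k : ℤ) : ℚ) :=
        mul_left_cancel₀ two_pi_I_ne_zero (by push_cast; linear_combination -hk)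
      exact_mod_cast this
    · convert key using 2 with x
      rw [eval_eq', ev, ← Finset.sum_coe_sort]
      rfl
  · exact mem_support_iff.1 a.2 (by rw [show a.1 = 0 from DFunLike.coe_injective e, h0])
  · obtain ⟨k, h1, h2⟩ := hc i
    exact ⟨⟨_, mem_support_iff.2 h2⟩, k, h1, Finsupp.single_eq_pi_single i k⟩
  · obtain ⟨i, hi⟩ := hn w hw x hx
    refine ⟨i, fun e => mul_ne_zero (hx i) hi ?_⟩
    rw [← e, show x i * eval x (pderiv i (facePoly f w)) = eval x (X i * pderiv i (facePoly f w))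
      by simp, facePoly, map_sum, Finset.mul_sum, map_sum, Finset.sum_filter, Finset.sum_filter,
      ← Finset.sum_coe_sort]
    refine Finset.sum_congr rfl fun a _ => if_congr ?_ ?_ rfl
    · exact ⟨fun h b => h b.1 b.2, fun h b hb => h ⟨b, hb⟩⟩
    · rw [X_mul_pderiv_monomial, map_nsmul, eval_monomial, nsmul_eq_mul,
        Finsupp.prod_fintype _ _ (by simp), mon]
      ring
  · have := (linearIndependent_algebraMap_comp_iff (S := ℝ)).2 hcs.1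
    exact this.comp (fun a : (s.subtype (· ∈ f.support) : Set f.support) =>
      (⟨a.1.1, Finset.mem_subtype.1 a.2⟩ : (s : Set (σ →₀ ℕ))))
      fun a b e => Subtype.ext (Subtype.ext (Subtype.mk.inj e))
  · have pr : ∀ j, Priv s a.1 j ↔ a.1 j ≠ 0 ∧
        ∀ b ∈ s.subtype (· ∈ f.support), b ≠ a → b.1 j = 0 := fun j =>
      and_congr_right fun _ => ⟨fun h b hb e => h b.1 (Finset.mem_subtype.1 hb)
        fun e' => e (Subtype.ext e'), fun h b hb e => h ⟨b, hsA b hb⟩ (Finset.mem_subtype.2 hb)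
        fun e' => e (congrArg Subtype.val e')⟩
    by_contra hcon
    refine hU a.1 ⟨Finset.mem_subtype.1 ha, i, h1, (pr i).2 ⟨by simp [show a.1 i = 1 from h1], h2⟩,
      fun j hj => by_contra fun e => hcon ⟨j, e, (pr j).1 hj⟩⟩

end Pool.Agent.P.MP_9321be_ag.ND.E
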