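import Pool.Agent.P.MP_9321be_ag.ND.EIface

/-! Geometry of the stellar subdivision. -/

namespace Pool.Agent.P.MP_9321be_ag.ND.E

open Finset

namespace NVGeo

theorem choice (p q r : Prop) (h : ¬ (p ∧ q)) {x y u v : ℝ} (hx : 0 < x) (hy : 0 < y)
    (hu : r → ¬ p → 0 ≤ u) (hv : r → ¬ q → 0 ≤ v) :
    ∃ s, (r → 0 ≤ s) ∧ (¬ p → s * x ≤ u) ∧ (¬ q → s * y ≤ v) ∧
      ((¬ p ∧ s * x = u) ∨ (¬ q ∧ s * y = v)) := by
  have e1 : u / x * x = u := div_mul_cancel₀ _ hx.ne'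
  have e2 : v / y * y = v := div_mul_cancel₀ _ hy.ne'
  by_cases c : ¬ p ∧ (q ∨ u / x ≤ v / y)
  · refine ⟨u / x, fun hr => div_nonneg (hu hr c.1) hx.le, fun _ => e1.le, fun hq => ?_,
      Or.inl ⟨c.1, e1⟩⟩
    exact (le_div_iff₀ hy).1 (c.2.resolve_left hq)
  · have hq : ¬ q := by tauto
    refine ⟨v / y, fun hr => div_nonneg (hv hr hq) hy.le, fun hp => ?_, fun _ => e2.le,
      Or.inr ⟨hq, e2⟩⟩
    exact (le_div_iff₀ hx).1 (not_le.1 fun h => c ⟨hp, Or.inr h⟩).le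

end NVGeo

theorem t_NVGeo : S_NVGeo := by
  intro B σ _ _ _ _ M w Δ Λ b b' x y ok bb hx hy ρ ⟨h1, h2, h3⟩ z
  classical
  obtain ⟨τ, hτ, t, s1, s2, s3, s4, s5⟩ : ∃ τ ∈ Δ, ∃ t : B → ℝ, eraseNone ρ ⊆ τ ∧
      (none ∈ ρ → b ∈ τ ∧ b' ∈ τ) ∧
      (∀ c, some c ∉ ρ → (none ∈ ρ → c ≠ b ∧ c ≠ b') → 0 ≤ t c) ∧ (∀ c ∉ τ, t c = 0) ∧
      ∀ m ∈ M, z ⬝ᵥ m = ∑ c, t c * (w c ⬝ᵥ m) := by
    by_cases hn : none ∈ ρ
    · obtain ⟨τ, a, c, t, d, e, f⟩ := ok.cl _ (h3 hn) z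
      exact ⟨τ, a, t, ((subset_insert _ _).trans (subset_insert _ _)).trans c,
        fun _ => ⟨c (by simp), c (by simp)⟩, fun c g g' => d c (by simp [g, g' hn]), e, f⟩
    · obtain ⟨τ, a, c, t, d, e, f⟩ := ok.cl _ h2 z
      exact ⟨τ, a, t, c, fun h => absurd h hn, fun c g _ => d c (by simp [g]), e, f⟩
  obtain ⟨s, a1, a2, a3, a4⟩ := NVGeo.choice _ _ (none ∉ ρ) h1 hx hy
    (fun h g => s3 b g fun h' => absurd h' h) fun h g => s3 b' g fun h' => absurd h' h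
  have m1 : ∀ c, some c ∈ ρ → c ∈ τ := fun c h => s1 (mem_eraseNone.2 h)
  have hb : none ∈ ρ ∨ s ≠ 0 → b ∈ τ ∧ b' ∈ τ := fun h => by
    by_cases hn : none ∈ ρ
    · exact s2 hn
    have s0 := (a1 hn).lt_of_ne' (h.resolve_left hn)
    constructor <;> by_contra g
    · exact (mul_pos s0 hx).not_ge (s4 _ g ▸ a2 fun h => g (m1 _ h))
    · exact (mul_pos s0 hy).not_ge (s4 _ g ▸ a3 fun h => g (m1 _ h))
  let t' : Option B → ℝ := fun o => o.elim s fun c =>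
    t c - (if c = b then s * x else 0) - if c = b' then s * y else 0
  have tb : t' (some b) = t b - s * x := by simp [t', bb]
  have tb' : t' (some b') = t b' - s * y := by simp [t', bb.symm]
  have sub : eraseNone (univ.filter fun o => o ∈ ρ ∨ t' o ≠ 0) ⊆ τ := fun c hc => by
    rcases (mem_filter.1 (mem_eraseNone.1 hc)).2 with h | h
    · exact m1 c h
    by_contra g
    by_cases s0 : s = 0
    · simp [t', s0, s4 c g] at h
    · have := hb (Or.inr s0)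
      have c1 : c ≠ b := fun e => g (e ▸ this.1)
      have c2 : c ≠ b' := fun e => g (e ▸ this.2)
      simp [t', c1, c2, s4 c g] at h
  refine ⟨univ.filter fun o => o ∈ ρ ∨ t' o ≠ 0, ⟨?_, ok.down _ hτ _ sub, fun h => ?_⟩,
    fun o h => by simp [h], t', ?_, fun o h => by simp at h; exact h.2, fun m hm => ?_⟩
  · simp only [mem_filter, mem_univ, true_and, tb, tb']
    rcases a4 with ⟨c, d⟩ | ⟨c, d⟩ <;> simp [c, d]
  · have := hb (mem_filter.1 h).2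
    exact ok.down _ hτ _ (insert_subset this.1 (insert_subset this.2 sub))
  · rintro (_ | c) h
    · exact a1 h
    by_cases c1 : c = b
    · subst c1; rw [tb]; linarith [a2 h]
    by_cases c2 : c = b'
    · subst c2; rw [tb']; linarith [a3 h]
    simpa [t', c1, c2] using s3 c h fun _ => ⟨c1, c2⟩
  · rw [s5 m hm, Fintype.sum_option]
    simp [t', stw, sub_mul, Finset.sum_sub_distrib, ite_mul]
    ring

end Pool.Agent.P.MP_9321be_ag.ND.E
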