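import Pool.Agent.P.MP_9321be_ag.ND.ZBasic

/-!
Compactness and positivity of the dangerous set.
-/

namespace Pool.Agent.P.MP_9321be_ag.ND

namespace Kc

variable {σ : Type} [Fintype σ] [DecidableEq σ]

omit [DecidableEq σ] in
theorem cont (a : σ →₀ ℕ) : Continuous (dr a) := by
  unfold dr; fun_prop

omit [DecidableEq σ] in
theorem mem_fr' {A : Finset (σ →₀ ℕ)} {u : σ → ℝ} {a : σ →₀ ℕ} :
    a ∈ fr A u ↔ a ∈ A ∧ dr a u = 1 := by
  unfold fr; exact Finset.mem_filter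

omit [DecidableEq σ] in
theorem cover {A : Finset (σ →₀ ℕ)} {α : ℚ} {u : σ → ℝ} (hu : u ∈ Kset A α) (i : σ) :
    ∃ a ∈ fr A u, a i ≠ 0 := by
  by_contra h
  push Not at h
  have h1 : Submodule.span ℚ (vec '' (fr A u : Set (σ →₀ ℕ))) ≤
      LinearMap.ker (LinearMap.proj i : (σ → ℚ) →ₗ[ℚ] ℚ) := by
    rw [Submodule.span_le]
    rintro _ ⟨a, ha, rfl⟩
    simp [vec, h a ha]
  simpa using h1 hu.2.2.2

omit [DecidableEq σ] in
theorem le_one {A : Finset (σ →₀ ℕ)} {α : ℚ} {u : σ → ℝ} (hu : u ∈ Kset A α) (i : σ) :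
    u i ≤ 1 := by
  obtain ⟨a, ha, hi⟩ := cover hu i
  have h1 : (a i : ℝ) * u i ≤ dr a u :=
    Finset.single_le_sum (f := fun j => (a j : ℝ) * u j)
      (fun j _ => mul_nonneg (Nat.cast_nonneg _) (hu.1 j)) (Finset.mem_univ i)
  have h2 : (1 : ℝ) ≤ a i := by exact_mod_cast Nat.one_le_iff_ne_zero.2 hi
  rw [(mem_fr'.1 ha).2] at h1
  exact (le_mul_of_one_le_left (hu.1 i) h2).trans h1

omit [DecidableEq σ] in
theorem closed (A : Finset (σ →₀ ℕ)) (α : ℚ) : IsClosed (Kset A α) := by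
  have e : Kset A α = ⋃ F ∈ {F : Finset (σ →₀ ℕ) | F ⊆ A ∧
      (fun _ => 1 : σ → ℚ) ∈ Submodule.span ℚ (vec '' (F : Set (σ →₀ ℕ)))},
      {u : σ → ℝ | (∀ i, 0 ≤ u i) ∧ (∀ a ∈ A, 1 ≤ dr a u) ∧ ∑ i, u i = α ∧
        ∀ a ∈ F, dr a u = 1} := by
    ext u
    simp only [Set.mem_iUnion, exists_prop]
    constructor
    · rintro ⟨h1, h2, h3, h4⟩
      exact ⟨fr A u, ⟨fun a ha => (mem_fr'.1 ha).1, h4⟩, h1, h2, h3,
        fun a ha => (mem_fr'.1 ha).2⟩
    · rintro ⟨F, ⟨h0, h4⟩, h1, h2, h3, h5⟩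
      exact ⟨h1, h2, h3, Submodule.span_mono
        (Set.image_mono fun a ha => mem_fr'.2 ⟨h0 ha, h5 a ha⟩) h4⟩
  rw [e]
  refine Set.Finite.isClosed_biUnion (A.powerset.finite_toSet.subset fun F hF =>
    Finset.mem_coe.2 (Finset.mem_powerset.2 hF.1)) fun F _ => ?_
  simp only [Set.ofPred_and, Set.ofPred_forall]
  refine (isClosed_iInter fun i => isClosed_le continuous_const (continuous_apply i)).inter
    ((isClosed_iInter fun a => isClosed_iInter fun _ =>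
      isClosed_le continuous_const (cont a)).inter
    ((isClosed_eq (by fun_prop) continuous_const).inter
      (isClosed_iInter fun a => isClosed_iInter fun _ => isClosed_eq (cont a) continuous_const)))

end Kc

theorem t_Kc : S_Kc := by
  intro σ _ _ A α
  refine ⟨(isCompact_Icc (a := (0 : σ → ℝ)) (b := 1)).of_isClosed_subset (Kc.closed A α)
    fun u hu => ⟨hu.1, Kc.le_one hu⟩, fun u hu => ⟨Kc.cover hu, Kc.le_one hu, fun hA i => ?_⟩⟩
  obtain ⟨k, hk⟩ := hA.2.2 i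
  have h1 := hu.2.1 _ hk
  have h2 : dr (Finsupp.single i k) u = k * u i := by
    rw [dr, Finset.sum_eq_single i] <;> simp +contextual [eq_comm]
  refine (hu.1 i).lt_of_ne fun h => ?_
  rw [h2, ← h, mul_zero] at h1
  linarith

end Pool.Agent.P.MP_9321be_ag.ND
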