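import Pool.Agent.P.MP_9321be_ag.ND.Glue
import Pool.Agent.P.MP_9321be_ag.ND.ClaimB
import Pool.Agent.P.MP_9321be_ag.ND.ZAlg
import Pool.Agent.P.MP_9321be_ag.ND.ZBox
import Pool.Agent.P.MP_9321be_ag.ND.ZBoxes
import Pool.Agent.P.MP_9321be_ag.ND.ZCell
import Pool.Agent.P.MP_9321be_ag.ND.ZCover
import Pool.Agent.P.MP_9321be_ag.ND.ZCyl
import Pool.Agent.P.MP_9321be_ag.ND.ZDense
import Pool.Agent.P.MP_9321be_ag.ND.ZGen
import Pool.Agent.P.MP_9321be_ag.ND.ZHB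
import Pool.Agent.P.MP_9321be_ag.ND.ZHensel
import Pool.Agent.P.MP_9321be_ag.ND.ZIE
import Pool.Agent.P.MP_9321be_ag.ND.ZInter
import Pool.Agent.P.MP_9321be_ag.ND.ZKc
import Pool.Agent.P.MP_9321be_ag.ND.ZLab
import Pool.Agent.P.MP_9321be_ag.ND.ZLink
import Pool.Agent.P.MP_9321be_ag.ND.ZPin
import Pool.Agent.P.MP_9321be_ag.ND.ZSer
import Pool.Agent.P.MP_9321be_ag.ND.ZSlice
import Pool.Agent.P.MP_9321be_ag.ND.ZSmooth
import Pool.Agent.P.MP_9321be_ag.ND.EBR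
import Pool.Agent.P.MP_9321be_ag.ND.ECarr
import Pool.Agent.P.MP_9321be_ag.ND.EConst
import Pool.Agent.P.MP_9321be_ag.ND.ECyc
import Pool.Agent.P.MP_9321be_ag.ND.ECycA
import Pool.Agent.P.MP_9321be_ag.ND.EFinal
import Pool.Agent.P.MP_9321be_ag.ND.EG
import Pool.Agent.P.MP_9321be_ag.ND.EImap
import Pool.Agent.P.MP_9321be_ag.ND.EKApprox
import Pool.Agent.P.MP_9321be_ag.ND.EKCl
import Pool.Agent.P.MP_9321be_ag.ND.EKExact
import Pool.Agent.P.MP_9321be_ag.ND.EKGen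
import Pool.Agent.P.MP_9321be_ag.ND.ENDNI
import Pool.Agent.P.MP_9321be_ag.ND.ENIND
import Pool.Agent.P.MP_9321be_ag.ND.ENV
import Pool.Agent.P.MP_9321be_ag.ND.ENVApp
import Pool.Agent.P.MP_9321be_ag.ND.ENVBase
import Pool.Agent.P.MP_9321be_ag.ND.ENVGeo
import Pool.Agent.P.MP_9321be_ag.ND.ENVStep
import Pool.Agent.P.MP_9321be_ag.ND.ENear
import Pool.Agent.P.MP_9321be_ag.ND.EPath
import Pool.Agent.P.MP_9321be_ag.ND.EPhi
import Pool.Agent.P.MP_9321be_ag.ND.ERetr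
import Pool.Agent.P.MP_9321be_ag.ND.ERoot
import Pool.Agent.P.MP_9321be_ag.ND.ESingA
import Pool.Agent.P.MP_9321be_ag.ND.ESingB
import Pool.Agent.P.MP_9321be_ag.ND.ESmall
import Pool.Agent.P.MP_9321be_ag.ND.EStep
import Pool.Agent.P.MP_9321be_ag.ND.EStress
import Pool.Agent.P.MP_9321be_ag.ND.ETC
import Pool.Agent.P.MP_9321be_ag.ND.ETop
import Pool.Agent.P.MP_9321be_ag.ND.EVal
import Pool.Agent.P.MP_9321be_ag.ND.EZc

/-!
The motivic monodromy conjecture for convenient non-degenerate polynomials.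
-/

namespace Pool.Agent.P.MP_9321be_ag.ND

theorem s_Cover : S_Cover :=
  have hS := t_Ser (t_Cell t_Slice)
  have hB := t_Box (t_Pin t_Hensel hS)
  t_Cover t_Kc t_Lab t_Boxes t_IE hB (t_Inter hB (t_Cyl t_Hensel hS t_Smooth) t_Kc)

open E in
theorem s_E : S_E :=
  have hA := t_KApprox t_TC
  have hC := t_Carr t_Zc
  t_Red t_BR (t_Fam t_Small (t_NDNI t_TC)
    (t_Const (t_Step t_TR (t_Retr t_Root)) (t_NDNI t_TC) t_NIND t_Path) t_KGen
    (t_KCl hA t_KExact.1) t_KExact.2 (t_Near hA) (t_Phi t_G) (t_Val t_G) (t_Stress t_Top hC)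
    (t_NVApp (t_NV t_NVBase (t_NVStep t_NVGeo))) t_SingA (t_SingC t_SingB)
    (t_Imap t_KGen t_KExact.1) (t_Cyc t_Zc (t_CycA hC)))

theorem conjecture {σ : Type} [Fintype σ] (f : MvPolynomial σ ℂ) (h0 : MvPolynomial.coeff 0 f = 0)
    (hc : Convenient f) (hn : Nondeg f) : MonodromyConjecture f := by
  classical
  exact glue t_Alg (t_Gen t_Dense) t_Link s_Cover (t_HB t_Kc) s_E f h0 hc hn
    fun X _ _ _ _ => claimAt X

end Pool.Agent.P.MP_9321be_ag.ND
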