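import Mathlib

/-!
Farkas' lemma and Tucker's lemma over the rationals, and two small tools.
-/

namespace Pool.Agent.P.MP_9321be_ag.ND.CB

open Finset Filter Topology

/-- Farkas' lemma (Bartl's induction). -/
theorem farkas {V κ : Type} [AddCommGroup V] [Module ℚ V] [DecidableEq κ] (s : Finset κ) :
    ∀ (φ : κ → V →ₗ[ℚ] ℚ) (ψ : V →ₗ[ℚ] ℚ), (∀ x, (∀ k ∈ s, 0 ≤ φ k x) → 0 ≤ ψ x) →
      ∃ l : κ → ℚ, (∀ k, 0 ≤ l k) ∧ ∀ x, ψ x = ∑ k ∈ s, l k * φ k x := by
  induction s using Finset.induction_on with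
  | empty =>
    intro φ ψ h
    refine ⟨0, fun _ => le_rfl, fun x => ?_⟩
    have h1 := h x (by simp)
    have h2 := h (-x) (by simp)
    rw [map_neg] at h2
    simp only [sum_empty]
    linarith
  | insert m s hm ih =>
    intro φ ψ h
    by_cases h0 : ∀ x, (∀ k ∈ s, 0 ≤ φ k x) → 0 ≤ ψ x
    · obtain ⟨l, h1, h2⟩ := ih φ ψ h0
      refine ⟨Function.update l m 0, fun k => ?_, fun x => ?_⟩
      · by_cases hk : k = m
        · simp [hk]
        · simp [hk, h1 k]
      · rw [sum_insert hm, h2 x, Function.update_self, zero_mul, zero_add]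
        exact sum_congr rfl fun k hk => by
          rw [Function.update_of_ne (fun e : k = m => hm (e ▸ hk))]
    · push Not at h0
      obtain ⟨x0, h1, h2⟩ := h0
      have h3 : φ m x0 < 0 := not_le.1 fun h3 => h2.not_ge (h x0 fun k hk => by
        rcases mem_insert.1 hk with rfl | hk
        exacts [h3, h1 k hk])
      let π : V →ₗ[ℚ] V := LinearMap.id - ((φ m x0)⁻¹ • φ m).smulRight x0
      have hπ : ∀ (θ : V →ₗ[ℚ] ℚ) x, θ (π x) = θ x - (φ m x0)⁻¹ * φ m x * θ x0 := by
        intro θ x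
        simp [π]
      obtain ⟨l, h4, h5⟩ := ih (fun k => φ k ∘ₗ π) (ψ ∘ₗ π) fun x hx => h (π x) fun k hk => by
        rcases mem_insert.1 hk with rfl | hk
        · rw [hπ]
          field_simp [h3.ne]
          simp
        · exact hx k hk
      refine ⟨Function.update l m ((ψ x0 - ∑ k ∈ s, l k * φ k x0) / φ m x0), fun k => ?_,
        fun x => ?_⟩
      · by_cases hk : k = m
        · rw [hk, Function.update_self]
          have : 0 ≤ ∑ k ∈ s, l k * φ k x0 := sum_nonneg fun k hk => mul_nonneg (h4 k) (h1 k hk)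
          exact div_nonneg_of_nonpos (by linarith) h3.le
        · simp [hk, h4 k]
      · have h6 := h5 x
        simp only [LinearMap.comp_apply, hπ, mul_sub, sum_sub_distrib] at h6
        have h7 : ∑ k ∈ s, l k * ((φ m x0)⁻¹ * φ m x * φ k x0) =
            (φ m x0)⁻¹ * φ m x * ∑ k ∈ s, l k * φ k x0 := by
          rw [mul_sum]
          exact sum_congr rfl fun k _ => by ring
        have h8 : ∀ r : ℚ, ∑ k ∈ s, Function.update l m r k * φ k x = ∑ k ∈ s, l k * φ k x :=
          fun r => sum_congr rfl fun k hk => by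
            rw [Function.update_of_ne (fun e : k = m => hm (e ▸ hk))]
        rw [sum_insert hm, Function.update_self, h8, div_eq_mul_inv]
        rw [h7] at h6
        linarith

/-- Tucker's lemma for a skew-symmetric matrix, with complementary slackness. -/
theorem tucker {n : Type} [Fintype n] [DecidableEq n] (M : n → n → ℚ)
    (hM : ∀ i j, M i j = -M j i) (t : n) :
    ∃ x : n → ℚ, (∀ i, 0 ≤ x i) ∧ (∀ i, 0 ≤ ∑ j, M i j * x j) ∧
      (∀ i, x i * ∑ j, M i j * x j = 0) ∧ (0 < x t ∨ 0 < ∑ j, M t j * x j) := by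
  have key : ∃ x : n → ℚ, (∀ i, 0 ≤ x i) ∧ (∀ i, 0 ≤ ∑ j, M i j * x j) ∧
      (0 < x t ∨ 0 < ∑ j, M t j * x j) := by
    by_contra h
    let φ : n ⊕ n → (n → ℚ) →ₗ[ℚ] ℚ :=
      Sum.elim (fun i => LinearMap.proj i) fun i => ∑ j, M i j • LinearMap.proj j
    obtain ⟨l, h1, h2⟩ := farkas univ φ (-LinearMap.proj t) fun x hx => by
      have := not_or.1 fun h' => h ⟨x, fun i => by simpa [φ] using hx (.inl i) (mem_univ _),
        fun i => by simpa [φ] using hx (.inr i) (mem_univ _), h'⟩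
      simpa using this.1
    have h3 : ∀ i, ∑ j, M i j * l (.inr j) = l (.inl i) + if t = i then 1 else 0 := by
      intro i
      have := h2 (Pi.single i 1)
      simp [φ, Pi.single_apply] at this
      rw [sum_congr rfl (g := fun j => -(l (.inr j) * M j i)) fun j _ => by rw [hM]; ring,
        sum_neg_distrib]
      linarith
    refine h ⟨fun j => l (.inr j), fun _ => h1 _, fun i => ?_, .inr ?_⟩
    · rw [h3]
      have := h1 (.inl i)
      split_ifs <;> linarith
    · rw [h3, if_pos rfl]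
      linarith [h1 (.inl t)]
  obtain ⟨x, h1, h2, h3⟩ := key
  refine ⟨x, h1, h2, fun i => ?_, h3⟩
  have h4 : ∑ i, x i * ∑ j, M i j * x j = 0 := by
    have : ∑ i, x i * ∑ j, M i j * x j = -∑ i, x i * ∑ j, M i j * x j := by
      simp only [mul_sum, ← sum_neg_distrib]
      rw [sum_comm]
      exact sum_congr rfl fun i _ => sum_congr rfl fun j _ => by rw [hM j i]; ring
    linarith
  exact (sum_eq_zero_iff_of_nonneg fun i _ => mul_nonneg (h1 i) (h2 i)).1 h4 i (mem_univ _)

theorem ev_pos {x : ℚ} (t : ℚ) (hx : 0 < x) : ∀ᶠ η in 𝓝[>] (0 : ℚ), 0 < x + η * t := by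
  have : Tendsto (fun η : ℚ => x + η * t) (𝓝 0) (𝓝 (x + 0 * t)) :=
    (by fun_prop : Continuous fun η : ℚ => x + η * t).tendsto 0
  exact (this.eventually (lt_mem_nhds (by simpa using hx))).filter_mono nhdsWithin_le_nhds

theorem ev_ex {p : ℚ → Prop} (h : ∀ᶠ η in 𝓝[>] (0 : ℚ), p η) : ∃ η, 0 < η ∧ p η :=
  ((eventually_mem_nhdsWithin (s := Set.Ioi 0)).and h).exists

/-- A class closed under a merge has a member with all properties that merging keeps. -/
theorem exists_generic {V κ : Type} (C : V → Prop) (m : V → V → V) (Q : κ → V → Prop)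
    (hC : ∀ x y, C x → C y → C (m x y))
    (hQ : ∀ k x y, C x → C y → Q k x ∨ Q k y → Q k (m x y)) (h0 : ∃ x, C x) (s : Finset κ) :
    ∃ x, C x ∧ ∀ k ∈ s, ∀ y, C y → Q k y → Q k x := by
  classical
  induction s using Finset.induction_on with
  | empty => simpa using h0
  | insert k s _ ih =>
    obtain ⟨x, h1, h2⟩ := ih
    by_cases h : ∃ y, C y ∧ Q k y
    · obtain ⟨y, h3, h4⟩ := h
      refine ⟨m x y, hC x y h1 h3, fun k' hk z h5 h6 => hQ k' x y h1 h3 ?_⟩
      rcases mem_insert.1 hk with rfl | hk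
      exacts [.inr h4, .inl (h2 k' hk z h5 h6)]
    · refine ⟨x, h1, fun k' hk z h5 h6 => ?_⟩
      rcases mem_insert.1 hk with rfl | hk
      exacts [(h ⟨z, h5, h6⟩).elim, h2 k' hk z h5 h6]

end Pool.Agent.P.MP_9321be_ag.ND.CB
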