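import Pool.Agent.P.MP_9321be_ag.ND.Comb
import Pool.Agent.P.MP_9321be_ag.ND.CBFarkas

/-!
The linear program behind Claim B: admissible weights exist.
-/

namespace Pool.Agent.P.MP_9321be_ag.ND.CB

open Finset Filter Topology

set_option linter.unusedSectionVars false

variable {ι : Type} [Fintype ι] [DecidableEq ι]

/-- The weighted sum of the elements of `X`. -/
noncomputable def PP (X : Finset (ι →₀ ℕ)) : ((ι →₀ ℕ) → ℚ) →ₗ[ℚ] (ι → ℚ) :=
  ∑ a ∈ X, (LinearMap.proj a).smulRight (vec a)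

theorem PP_eq (X : Finset (ι →₀ ℕ)) (μ : (ι →₀ ℕ) → ℚ) : PP X μ = ∑ a ∈ X, μ a • vec a := by
  simp [PP]

theorem PP_apply (X : Finset (ι →₀ ℕ)) (μ : (ι →₀ ℕ) → ℚ) (j : ι) :
    PP X μ j = ∑ a ∈ X, μ a * a j := by
  simp [PP_eq, vec]

/-- The cost of a weight. -/
noncomputable def FF (X : Finset (ι →₀ ℕ)) (g : (ι →₀ ℕ) → ℚ) : ((ι →₀ ℕ) → ℚ) →ₗ[ℚ] ℚ :=
  ∑ a ∈ X, (LinearMap.proj a).smulRight (g a)

theorem FF_eq (X : Finset (ι →₀ ℕ)) (g μ : (ι →₀ ℕ) → ℚ) : FF X g μ = ∑ a ∈ X, μ a * g a := by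
  simp [FF]

theorem PP_single {X : Finset (ι →₀ ℕ)} {a : ι →₀ ℕ} (ha : a ∈ X) :
    PP X (Pi.single a 1) = vec a := by
  simp [PP_eq, Pi.single_apply, ha]

/-- The data extracted from a dual optimal point. -/
structure Setup (X : Finset (ι →₀ ℕ)) where
  E : Finset ι
  S : Finset ι
  g : (ι →₀ ℕ) → ℚ
  sub : S ⊆ E
  one : ∀ a ∈ X, ∀ i ∈ S, a i ≠ 0 → a i = 1 ∧ (∀ j ∈ E, j ≠ i → a j = 0) ∧ g a = 0
  nonneg : ∀ a ∈ X, 0 ≤ g a
  apex : ∀ b ∈ X, g b < 1 → ∀ k, b k = 1 → (∀ j ∈ E, j ≠ k → b j = 0) → k ∈ S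

variable {X : Finset (ι →₀ ℕ)}

/-- The linear conditions on admissible weights. -/
def Setup.Pt (D : Setup X) (μ : (ι →₀ ℕ) → ℚ) : Prop :=
  (∀ j, 1 ≤ PP X μ j) ∧ (∀ j ∈ D.E, PP X μ j = 1) ∧ FF X D.g μ < 1

/-- Admissible weights supported in `Y`. -/
def Setup.Adm (D : Setup X) (Y : Finset (ι →₀ ℕ)) (μ : (ι →₀ ℕ) → ℚ) : Prop :=
  (∀ a ∉ Y, μ a = 0) ∧ (∀ a, 0 ≤ μ a) ∧ D.Pt μ

/-- Linear programming duality with complementary slackness. -/
theorem lp (ht : ∀ i, ∃ a ∈ X, a i ≠ 0) (f : ι → ℚ) :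
    ∃ (y : ι → ℚ) (l : (ι →₀ ℕ) → ℚ), ((∀ i, 0 ≤ y i) ∧ ∀ a ∈ X, y ⬝ᵥ vec a ≤ 1) ∧
      (∀ a, 0 ≤ l a) ∧ (∀ a ∈ X, y ⬝ᵥ vec a ≠ 1 → l a = 0) ∧ (∀ i, f i ≤ PP X l i) ∧
      ∀ i, y i ≠ 0 → PP X l i = f i := by
  let M : Option (ι ⊕ X) → Option (ι ⊕ X) → ℚ := fun r c =>
    match r, c with
    | none, none => 0
    | none, some (.inl i) => f i
    | none, some (.inr _) => -1
    | some (.inl i), none => -f i
    | some (.inl _), some (.inl _) => 0
    | some (.inl i), some (.inr a) => a.1 i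
    | some (.inr _), none => 1
    | some (.inr a), some (.inl i) => -a.1 i
    | some (.inr _), some (.inr _) => 0
  obtain ⟨x, h1, h2, h3, h4⟩ := tucker M (by rintro (_ | _ | _) (_ | _ | _) <;> simp [M]) none
  have e1 : ∀ i, ∑ j, M (some (.inl i)) j * x j =
      -f i * x none + ∑ a : X, a.1 i * x (some (.inr a)) := by
    intro i
    simp [M, Fintype.sum_option]
  have e2 : ∀ a : X, ∑ j, M (some (.inr a)) j * x j =
      x none - ∑ i, a.1 i * x (some (.inl i)) := by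
    intro i
    simp [M, Fintype.sum_option, sub_eq_add_neg]
  have ht0 : 0 < x none := by
    refine h4.elim id fun h4 => ?_
    have h5 : x none = 0 := (mul_eq_zero.1 (h3 none)).resolve_right h4.ne'
    have h6 : ∀ i, x (some (.inl i)) = 0 := by
      intro i
      obtain ⟨a, ha, hi⟩ := ht i
      have h7 := h2 (some (.inr ⟨a, ha⟩))
      rw [e2, h5] at h7
      have h8 := single_le_sum (f := fun i => (a i : ℚ) * x (some (.inl i)))
        (fun j _ => mul_nonneg (Nat.cast_nonneg _) (h1 _)) (mem_univ i)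
      have h9 : (0 : ℚ) < a i := by positivity
      have := h1 (some (.inl i))
      simp only at h7 h8
      nlinarith
    simp [M, Fintype.sum_option, h6] at h4
    exact (h4.not_ge (sum_nonneg fun _ _ => h1 _)).elim
  have e3 : ∀ a : X, (fun i => x (some (.inl i)) / x none) ⬝ᵥ vec a.1 =
      (∑ i, a.1 i * x (some (.inl i))) / x none := by
    intro a
    rw [sum_div]
    exact sum_congr rfl fun i _ => by simp only [vec]; ring
  have e4 : ∀ i, PP X (fun a => if h : a ∈ X then x (some (.inr ⟨a, h⟩)) / x none else 0) i =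
      (∑ a : X, a.1 i * x (some (.inr a))) / x none := by
    intro i
    rw [PP_apply, sum_div, ← sum_coe_sort X]
    exact sum_congr rfl fun a _ => by rw [dif_pos a.2]; ring
  refine ⟨fun i => x (some (.inl i)) / x none,
    fun a => if h : a ∈ X then x (some (.inr ⟨a, h⟩)) / x none else 0,
    ⟨fun i => div_nonneg (h1 _) ht0.le, fun a ha => ?_⟩, fun a => ?_, fun a ha h => ?_,
    fun i => ?_, fun i h => ?_⟩
  · rw [e3 ⟨a, ha⟩, div_le_one ht0]
    linarith [e2 ⟨a, ha⟩, h2 (some (.inr ⟨a, ha⟩))]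
  · dsimp only
    split_ifs
    exacts [div_nonneg (h1 _) ht0.le, le_rfl]
  · rw [e3 ⟨a, ha⟩, Ne, div_eq_one_iff_eq ht0.ne'] at h
    have := h3 (some (.inr ⟨a, ha⟩))
    rw [e2, mul_eq_zero, sub_eq_zero] at this
    simp [ha, this.resolve_right (Ne.symm h)]
  · rw [e4, le_div_iff₀ ht0]
    linarith [e1 i, h2 (some (.inl i))]
  · have := h3 (some (.inl i))
    rw [e1, mul_eq_zero] at this
    rw [e4, div_eq_iff ht0.ne']
    linarith [this.resolve_left fun e => h (by simp [e])]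

/-- There is a setup with an admissible weight that is positive on `X`. -/
theorem exists_setup (ht : ∀ i, ∃ a ∈ X, a i ≠ 0) :
    ∃ (D : Setup X) (μ : (ι →₀ ℕ) → ℚ), D.Adm X μ ∧ ∀ a ∈ X, 0 < μ a := by
  classical
  let F : (ι → ℚ) → Prop := fun y => (∀ i, 0 ≤ y i) ∧ ∀ a ∈ X, y ⬝ᵥ vec a ≤ 1
  let τ : (ι → ℚ) → (ι → Prop) × (X → Prop) := fun y => (fun i => y i = 0, fun a => y ⬝ᵥ vec a = 1)
  let N : (ι → ℚ) → ℚ := fun y => ∑ a ∈ X, (1 - y ⬝ᵥ vec a)⁻¹
  have hrep : ∀ b, ∃ y, (∃ y', F y' ∧ τ y' = b) → F y ∧ τ y = b := fun b => by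
    by_cases h : ∃ y', F y' ∧ τ y' = b
    · obtain ⟨y, h⟩ := h
      exact ⟨y, fun _ => h⟩
    · exact ⟨0, fun h' => (h h').elim⟩
  choose rep hrep using hrep
  obtain ⟨ε, hε, h0⟩ := ev_ex (eventually_all.2 fun b => ev_pos (x := 1)
    (-(N (rep b) * ∑ a ∈ X, (1 - rep b ⬝ᵥ vec a))) one_pos)
  obtain ⟨y', l, h1, h2, h3, h4, h5⟩ := lp ht fun i => 1 - ε * PP X (fun _ => 1) i
  obtain ⟨⟨hy0, hy1⟩, hτ⟩ := hrep (τ y') ⟨y', h1, rfl⟩
  have h0 := h0 (τ y')
  set y := rep (τ y')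
  have hτ1 : ∀ i, y i = 0 ↔ y' i = 0 := fun i => iff_of_eq (congrFun (congrArg Prod.fst hτ) i)
  have hτ2 : ∀ a ∈ X, y ⬝ᵥ vec a = 1 ↔ y' ⬝ᵥ vec a = 1 := fun a ha =>
    iff_of_eq (congrFun (congrArg Prod.snd hτ) ⟨a, ha⟩)
  have hN : ∀ a ∈ X, 0 ≤ (1 - y ⬝ᵥ vec a)⁻¹ := fun a ha => inv_nonneg.2 (sub_nonneg.2 (hy1 a ha))
  have hv : ∀ (a : ι →₀ ℕ) i, 0 ≤ y i * vec a i := fun a i =>
    mul_nonneg (hy0 i) (Nat.cast_nonneg _)
  have hP : PP X (fun a => if a ∈ X then l a + ε else 0) = PP X l + ε • PP X fun _ => 1 := by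
    rw [← map_smul, ← map_add, PP_eq, PP_eq]
    exact sum_congr rfl fun a ha => by simp [ha]
  refine ⟨⟨univ.filter (y · ≠ 0), univ.filter (y · = 1), fun a => N y * (1 - y ⬝ᵥ vec a),
    fun i => ?_,
    fun a ha i hi h => ?_, fun a ha => ?_, fun b hb h k hk hj => ?_⟩,
    fun a => if a ∈ X then l a + ε else 0,
    ⟨fun a ha => if_neg ha, fun a => ?_, fun j => ?_, fun j hj => ?_, ?_⟩, fun a ha => ?_⟩
  · simp +contextual
  · have hi := (mem_filter.1 hi).2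
    have h6 := hy1 a ha
    have h7 : (1 : ℚ) ≤ a i := by exact_mod_cast Nat.one_le_iff_ne_zero.2 h
    have h8 : y ⬝ᵥ vec a = a i + ∑ j ∈ univ.erase i, y j * vec a j := by
      rw [dotProduct, ← add_sum_erase _ _ (mem_univ i), hi, one_mul, vec]
    have h9 : 0 ≤ ∑ j ∈ univ.erase i, y j * vec a j := sum_nonneg fun j _ => hv a j
    refine ⟨by exact_mod_cast (by linarith : (a i : ℚ) = 1), fun j hj hne => ?_, ?_⟩
    · have := (sum_eq_zero_iff_of_nonneg fun j _ => hv a j).1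
        (by linarith : ∑ j ∈ univ.erase i, y j * vec a j = 0) j (by simp [hne])
      simpa [vec, (mem_filter.1 hj).2] using this
    · rw [(by linarith : y ⬝ᵥ vec a = 1), sub_self, mul_zero]
  · exact mul_nonneg (sum_nonneg hN) (sub_nonneg.2 (hy1 a ha))
  · have h6 : y ⬝ᵥ vec b = 1 := by
      by_contra h6
      have h7 : 0 < 1 - y ⬝ᵥ vec b := sub_pos.2 ((hy1 b hb).lt_of_ne h6)
      have h8 := mul_le_mul_of_nonneg_right (single_le_sum hN hb) h7.le
      rw [inv_mul_cancel₀ h7.ne'] at h8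
      exact h.not_ge h8
    rw [dotProduct, sum_eq_single k (fun j _ hne => ?_) (by simp)] at h6
    · simpa [vec, hk] using h6
    · by_cases h7 : y j = 0
      · simp [h7]
      · simp [vec, hj j (by simpa using h7) hne]
  · have := h2 a
    dsimp only
    split_ifs <;> linarith
  · rw [hP]
    have := h4 j
    simp only [Pi.add_apply, Pi.smul_apply, smul_eq_mul]
    linarith
  · rw [hP]
    have := h5 j fun e => (mem_filter.1 hj).2 ((hτ1 j).2 e)
    simp only [Pi.add_apply, Pi.smul_apply, smul_eq_mul]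
    linarith
  · rw [FF_eq, sum_congr rfl (g := fun a => ε * (N y * (1 - y ⬝ᵥ vec a))) fun a ha => ?_,
      ← mul_sum, ← mul_sum]
    · linarith
    · rw [if_pos ha]
      by_cases h : y' ⬝ᵥ vec a = 1
      · simp [(hτ2 a ha).2 h]
      · rw [h3 a ha h, zero_add]
  · have := h2 a
    simp only [if_pos ha]
    linarith

end Pool.Agent.P.MP_9321be_ag.ND.CB
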