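import Pool.Agent.P.MP_9321be_ag.ND.CBDefs

/-!
Ranks of sets of exponents, and the choice of a good dependency.
-/

namespace Pool.Agent.P.MP_9321be_ag.ND.CB

open Finset Submodule Module

set_option linter.unusedSectionVars false

variable {ι : Type} [Fintype ι] [DecidableEq ι] {X Y W W' : Finset (ι →₀ ℕ)}

/-- The rank of a set of exponents. -/
noncomputable def rk (W : Finset (ι →₀ ℕ)) : ℕ :=
  finrank ℚ (span ℚ (vec '' (W : Set (ι →₀ ℕ))))

/-- The elements of `Y` that touch `T`. -/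
def ZZ (Y : Finset (ι →₀ ℕ)) (T : Finset ι) : Finset (ι →₀ ℕ) := Y.filter fun a => ∃ i ∈ T, a i ≠ 0

theorem mem_ZZ {T : Finset ι} {a : ι →₀ ℕ} : a ∈ ZZ Y T ↔ a ∈ Y ∧ ∃ i ∈ T, a i ≠ 0 := mem_filter

theorem mem_ZZ_one {i : ι} {a : ι →₀ ℕ} : a ∈ ZZ Y {i} ↔ a ∈ Y ∧ a i ≠ 0 := by simp [mem_ZZ]

theorem ZZ_union (T T' : Finset ι) : ZZ Y (T ∪ T') = ZZ Y T ∪ ZZ Y T' := by
  ext a
  simp only [mem_ZZ, mem_union, or_and_right, exists_or, and_or_left]

theorem rk_mono (h : W ⊆ W') : rk W ≤ rk W' :=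
  Submodule.finrank_mono (span_mono (Set.image_mono (coe_subset.2 h)))

theorem rk_le_card (W : Finset (ι →₀ ℕ)) : rk W ≤ W.card := by
  classical
  have := finrank_span_finset_le_card (R := ℚ) (W.image vec)
  rw [Set.finrank, coe_image] at this
  exact this.trans card_image_le

theorem rk_submod (W W' : Finset (ι →₀ ℕ)) : rk (W ∩ W') + rk (W ∪ W') ≤ rk W + rk W' := by
  have h1 := Submodule.finrank_sup_add_finrank_inf_eq (span ℚ (vec '' (W : Set (ι →₀ ℕ))))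
    (span ℚ (vec '' (W' : Set (ι →₀ ℕ))))
  have h2 : rk (W ∩ W') ≤ finrank ℚ (span ℚ (vec '' (W : Set (ι →₀ ℕ))) ⊓
      span ℚ (vec '' (W' : Set (ι →₀ ℕ))) : Submodule ℚ (ι → ℚ)) :=
    Submodule.finrank_mono (le_inf (span_mono (Set.image_mono (by simp)))
      (span_mono (Set.image_mono (by simp))))
  rw [← span_union, ← Set.image_union, ← coe_union] at h1
  unfold rk at *
  omega

theorem rk_le_erase (W : Finset (ι →₀ ℕ)) (b : ι →₀ ℕ) : rk W ≤ rk (W.erase b) + 1 := by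
  have h1 := rk_submod (W.erase b) {b}
  have h2 := rk_le_card ({b} : Finset (ι →₀ ℕ))
  have h3 : rk W ≤ rk (W.erase b ∪ {b}) := rk_mono fun a ha => by
    by_cases h : a = b <;> simp [h, ha]
  rw [card_singleton] at h2
  omega

theorem PP_of_sup (hW : W ⊆ X) {d : (ι →₀ ℕ) → ℚ} (hd : ∀ a ∉ W, d a = 0) :
    PP X d = ∑ a ∈ W, d a • vec a := by
  rw [PP_eq]
  exact (sum_subset hW fun a _ ha => by rw [hd a ha, zero_smul]).symm

theorem rk_erase (hW : W ⊆ X) {d : (ι →₀ ℕ) → ℚ} (hd : ∀ a ∉ W, d a = 0) (h0 : PP X d = 0)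
    {b : ι →₀ ℕ} (hb : d b ≠ 0) : rk W ≤ rk (W.erase b) := by
  refine Submodule.finrank_mono (span_le.2 ?_)
  rintro _ ⟨a, ha, rfl⟩
  by_cases h : a = b
  · subst h
    rw [PP_of_sup hW hd, ← add_sum_erase _ _ ha, add_eq_zero_iff_eq_neg] at h0
    refine (smul_mem_iff _ hb).1 ?_
    rw [h0]
    exact neg_mem (sum_mem fun c hc => smul_mem _ _ (subset_span ⟨c, hc, rfl⟩))
  · exact subset_span ⟨a, by simpa [h] using ha, rfl⟩

/-- `W` carries a nonzero dependency. -/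
def Dep (X W : Finset (ι →₀ ℕ)) : Prop :=
  ∃ d : (ι →₀ ℕ) → ℚ, (∀ a ∉ W, d a = 0) ∧ PP X d = 0 ∧ ∃ b, d b ≠ 0

theorem indep_of_not_dep (hW : W ⊆ X) (h : ¬ Dep X W) :
    LinearIndepOn ℚ vec (W : Set (ι →₀ ℕ)) := by
  refine linearIndepOn_iff'.2 fun t g ht h0 a ha => by_contra fun h1 => h
    ⟨fun a => if a ∈ t then g a else 0, fun a ha => if_neg fun h => ha (ht h), ?_, a, by
      simpa [ha] using h1⟩
  rw [PP_of_sup ((coe_subset.1 ht).trans hW) fun a ha => if_neg ha, ← h0]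
  exact sum_congr rfl fun a ha => by rw [if_pos ha]

theorem card_le_rk (hW : W ⊆ X) (h : ¬ Dep X W) : W.card ≤ rk W := by
  have := finrank_span_eq_card (indep_of_not_dep hW h).linearIndependent
  rw [rk, Set.image_eq_range]
  simpa using this.ge

/-- The elements of `Y` touching a coordinate of `S` that only two elements touch. -/
def Inn (Y : Finset (ι →₀ ℕ)) (S : Finset ι) : Finset (ι →₀ ℕ) :=
  ZZ Y (S.filter fun i => (ZZ Y {i}).card = 2)

/-- The rank condition. -/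
def RR (Y : Finset (ι →₀ ℕ)) (S : Finset ι) : Prop := ∀ T ⊆ S, 2 * T.card ≤ rk (ZZ Y T)

theorem RR.two {S : Finset ι} (h : RR Y S) {i : ι} (hi : i ∈ S) : 2 ≤ (ZZ Y {i}).card := by
  simpa using (h {i} (by simpa using hi)).trans (rk_le_card _)

/-- A dependency whose elements outside `Inn` are not critical for the rank condition. -/
theorem exists_dep (hY : Y ⊆ X) {S : Finset ι}
    (hS : ∀ a ∈ Y, ∀ i ∈ S, ∀ j ∈ S, a i ≠ 0 → a j ≠ 0 → i = j) (hR : RR Y S) (hd : Dep X Y) :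
    ∃ d : (ι →₀ ℕ) → ℚ, (∀ a ∉ Y, d a = 0) ∧ PP X d = 0 ∧ (∃ b ∉ Inn Y S, d b ≠ 0) ∧
      ∀ b ∉ Inn Y S, d b ≠ 0 → ∀ T ⊆ S, 2 * T.card ≤ rk ((ZZ Y T).erase b) := by
  have hZ : ∀ T, ZZ Y T ⊆ Y := fun T => filter_subset _ _
  obtain ⟨W, ⟨⟨d, h1, h2, b0, h3⟩, hW⟩, hmin⟩ := exists_minimalFor_of_wellFoundedLT
    (fun W => Dep X W ∧ (W = Y ∨ ∃ T ⊆ S, rk (ZZ Y T) ≤ 2 * T.card ∧ W = ZZ Y T)) card
    ⟨Y, hd, .inl rfl⟩
  have hWY : W ⊆ Y := by
    rcases hW with rfl | ⟨T, -, -, rfl⟩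
    exacts [subset_rfl, hZ T]
  have h4 : ∀ a ∉ Y, d a = 0 := fun a ha => h1 a fun h => ha (hWY h)
  have h5 : ∀ b ∉ Inn Y S, d b ≠ 0 → ∀ T ⊆ S, 2 * T.card ≤ rk ((ZZ Y T).erase b) := by
    intro b hb hdb T hT
    by_contra hlt
    have hbW : b ∈ W := by_contra fun h => hdb (h1 b h)
    have hbT : b ∈ ZZ Y T := by_contra fun h => hlt (by rw [erase_eq_of_notMem h]; exact hR T hT)
    have hTt := rk_le_erase (ZZ Y T) b
    obtain ⟨T', h6, h7, h8⟩ : ∃ T' ⊆ S, rk (ZZ Y T') ≤ 2 * T'.card ∧ W ∩ ZZ Y T = ZZ Y T' := by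
      rcases hW with rfl | ⟨T1, h6, h7, rfl⟩
      · exact ⟨T, hT, by omega, inter_eq_right.2 (hZ T)⟩
      · have h8 : ZZ Y T1 ∩ ZZ Y T = ZZ Y (T1 ∩ T) := by
          ext a
          simp only [mem_inter, mem_ZZ]
          refine ⟨fun ⟨⟨ha, i, hi, h⟩, _, j, hj, h'⟩ => ⟨ha, i, ⟨hi, ?_⟩, h⟩,
            fun ⟨ha, i, hi, h⟩ => ⟨⟨ha, i, hi.1, h⟩, ha, i, hi.2, h⟩⟩
          rwa [hS a ha i (h6 hi) j (hT hj) h h']
        refine ⟨T1 ∩ T, inter_subset_left.trans h6, ?_, h8⟩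
        have h9 := rk_submod (ZZ Y T1) (ZZ Y T)
        rw [h8, ← ZZ_union] at h9
        have := hR _ (union_subset h6 hT)
        have := card_union_add_card_inter T1 T
        omega
    by_cases hdep : Dep X (ZZ Y T')
    · have h9 : W ∩ ZZ Y T = W := eq_of_subset_of_card_le inter_subset_left (by
        rw [h8]
        exact hmin ⟨hdep, .inr ⟨T', h6, h7, rfl⟩⟩ (h8 ▸ card_le_card inter_subset_left))
      have := rk_erase ((hZ T).trans hY) (fun a ha => h1 a fun h => ha (inter_eq_left.1 h9 h))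
        h2 hdb
      have := hR T hT
      omega
    · obtain ⟨hbY, k, hk, hbk⟩ := mem_ZZ.1 (h8 ▸ mem_inter.2 ⟨hbW, hbT⟩)
      refine hb (mem_ZZ.2 ⟨hbY, k, mem_filter.2 ⟨h6 hk, ?_⟩, hbk⟩)
      have e1 := card_le_rk ((hZ T').trans hY) hdep
      have e2 := (hR _ ((erase_subset k T').trans h6)).trans (rk_le_card _)
      have e3 := hR.two (h6 hk)
      have e4 : (ZZ Y (T'.erase k ∪ {k})).card = (ZZ Y (T'.erase k)).card + (ZZ Y {k}).card := by
        rw [ZZ_union, card_union_of_disjoint (disjoint_left.2 fun a h h' => ?_)]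
        obtain ⟨ha, i, hi, h⟩ := mem_ZZ.1 h
        exact (mem_erase.1 hi).1
          (hS a ha i (h6 (mem_of_mem_erase hi)) k (h6 hk) h (mem_ZZ_one.1 h').2)
      rw [union_comm, ← insert_eq, insert_erase hk] at e4
      have := card_erase_add_one hk
      omega
  refine ⟨d, h4, h2, ?_, h5⟩
  · by_contra! h
    have e1 := rk_erase ((hZ _).trans hY) h h2 h3
    have e2 := rk_le_card ((Inn Y S).erase b0)
    have e3 := card_erase_add_one (by_contra fun h' => h3 (h b0 h') : b0 ∈ Inn Y S)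
    have e4 := hR _ (filter_subset (fun i => (ZZ Y {i}).card = 2) S)
    have e5 : (Inn Y S).card ≤ (S.filter fun i => (ZZ Y {i}).card = 2).card * 2 :=
      (card_le_card fun a ha => by
        obtain ⟨ha, i, hi, h⟩ := mem_ZZ.1 ha
        exact mem_biUnion.2 ⟨i, hi, mem_ZZ_one.2 ⟨ha, h⟩⟩).trans
        (card_biUnion_le_card_mul _ (fun i => ZZ Y {i}) 2 fun i hi => (mem_filter.1 hi).2.le)
    unfold Inn at *
    omega

end Pool.Agent.P.MP_9321be_ag.ND.CB
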