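import Pool.Agent.P.MP_9321be_ag.ND.CBState

/-!
The reduction step: a dependent state with the rank condition has a smaller one.
-/

namespace Pool.Agent.P.MP_9321be_ag.ND.CB

open Finset Filter Topology

set_option linter.unusedSectionVars false

variable {ι : Type} [Fintype ι] [DecidableEq ι] {X Y : Finset (ι →₀ ℕ)} {D : Setup X}
  {ν c d : (ι →₀ ℕ) → ℚ}

/-- A relaxed weight whose zero set outside `I` is rigid. -/
theorem exists_rigid (h : D.Gen Y ν) (I : Finset (ι →₀ ℕ)) (h0 : ∀ a ∉ Y, d a = 0)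
    (h1 : PP X d = 0) (h2 : ∃ b ∉ I, d b < 0) (hF : FF X D.g d ≤ 0) :
    ∃ (w : (ι →₀ ℕ) → ℚ) (B : Finset (ι →₀ ℕ)), (∀ a ∉ Y, w a = 0) ∧ (∀ a ∉ I, 0 ≤ w a) ∧
      D.Pt w ∧ (∀ j, PP X ν j = 1 → PP X w j = 1) ∧
      (∀ a, a ∈ B ↔ (a ∈ Y ∧ a ∉ I) ∧ w a = 0) ∧ B.Nonempty ∧ (∀ b ∈ B, d b < 0) ∧
      ∀ ζ : (ι →₀ ℕ) → ℚ, (∀ a ∉ Y, ζ a = 0) → (∀ j, PP X ν j = 1 → PP X ζ j = 0) →
        ∃ κ, ∀ b ∈ B, ζ b = κ * d b := by
  let B : ((ι →₀ ℕ) → ℚ) → Finset (ι →₀ ℕ) := fun w => (Y \ I).filter (w · = 0)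
  have hB : ∀ w a, a ∈ B w ↔ (a ∈ Y ∧ a ∉ I) ∧ w a = 0 := fun w a => by simp [B]
  obtain ⟨w, ⟨w0, w1, w2, w3, w4, w5, w6⟩, hmin⟩ := exists_minimalFor_of_wellFoundedLT
    (fun w : (ι →₀ ℕ) → ℚ => (∀ a ∉ Y, w a = 0) ∧ (∀ a ∉ I, 0 ≤ w a) ∧
      (∀ j, PP X ν j = 1 → PP X w j = 1) ∧ (∀ j, PP X ν j ≠ 1 → 1 < PP X w j) ∧
      FF X D.g w < 1 ∧ (B w).Nonempty ∧ ∀ b ∈ B w, d b < 0) (fun w => (B w).card) (by
    obtain ⟨b, hb, hb'⟩ := h2
    obtain ⟨b, hb, hmin⟩ := exists_min_image ((Y \ I).filter (d · < 0)) (fun b => ν b / -d b)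
      ⟨b, by simpa [hb, hb'] using by_contra fun h => hb'.ne (h0 b h)⟩
    simp only [mem_filter, Finset.mem_sdiff] at hb hmin
    have hα : 0 < ν b / -d b := div_pos (h.pos b hb.1.1) (neg_pos.2 hb.2)
    have hP : PP X (ν + (ν b / -d b) • d) = PP X ν := by simp [h1]
    refine ⟨ν + (ν b / -d b) • d, fun a ha => by simp [h0 a ha, h.adm.1 a ha], fun a ha => ?_,
      fun j hj => hP ▸ hj, fun j hj => hP ▸ (h.adm.2.2.1 j).lt_of_ne' hj, by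
        have := mul_nonpos_of_nonneg_of_nonpos hα.le hF
        rw [map_add, map_smul, smul_eq_mul]
        linarith [h.adm.2.2.2.2],
      ⟨b, (hB _ _).2 ⟨hb.1, ?_⟩⟩, fun a ha => not_le.1 fun h3 => ?_⟩
    · simp only [Pi.add_apply, Pi.smul_apply, smul_eq_mul]
      by_cases h3 : d a < 0
      · have := (le_div_iff₀ (neg_pos.2 h3)).1
          (hmin a ⟨⟨by_contra fun h => h3.ne (h0 a h), ha⟩, h3⟩)
        linarith
      · exact add_nonneg (h.adm.2.1 a) (mul_nonneg hα.le (not_lt.1 h3))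
    · simp only [Pi.add_apply, Pi.smul_apply, smul_eq_mul]
      field_simp [hb.2.ne]
      ring
    · obtain ⟨h4, h5⟩ := (hB _ _).1 ha
      exact (add_pos_of_pos_of_nonneg (h.pos a h4.1) (mul_nonneg hα.le h3)).ne' h5)
  refine ⟨w, B w, w0, w1, ⟨fun j => ?_, fun j hj => w2 j (h.adm.2.2.2.1 j hj), w4⟩, w2, hB w, w5,
    w6, fun ζ z0 z1 => ?_⟩
  · by_cases hj : PP X ν j = 1
    exacts [(w2 j hj).ge, (w3 j hj).le]
  obtain ⟨b, hb, hmax⟩ := exists_max_image (B w) (fun b => ζ b / d b) w5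
  set κ := ζ b / d b with hκ
  have e1 : ∀ a ∈ B w, 0 ≤ ζ a - κ * d a := fun a ha =>
    sub_nonneg.2 ((div_le_iff_of_neg (w6 a ha)).1 (hmax a ha))
  obtain ⟨η, η0, η1, η2, η3⟩ := ev_ex (((eventually_all_finset Y).2 fun a _ =>
    (eventually_imp_distrib_left.2 fun ha : 0 < w a => ev_pos (ζ a - κ * d a) ha)).and
    ((eventually_all.2 fun j => eventually_imp_distrib_left.2 fun hj : PP X ν j ≠ 1 =>
      ev_pos (PP X ζ j) (sub_pos.2 (w3 j hj))).and 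
      (ev_pos (-FF X D.g (ζ - κ • d)) (sub_pos.2 w4))))
  have hP : PP X (w + η • (ζ - κ • d)) = PP X w + η • PP X ζ := by simp [h1]
  have hv : ∀ a, (w + η • (ζ - κ • d)) a = w a + η * (ζ a - κ * d a) := fun a => rfl
  have e2 : B (w + η • (ζ - κ • d)) ⊆ B w := fun a ha => by
    obtain ⟨h4, h5⟩ := (hB _ _).1 ha
    exact (hB _ _).2 ⟨h4, by_contra fun h6 =>
      (η1 a h4.1 ((w1 a h4.2).lt_of_ne' h6)).ne' h5⟩
  have e3 := eq_of_subset_of_card_le e2 (hmin (j := w + η • (ζ - κ • d))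
    ⟨fun a ha => by simp [w0 a ha, z0 a ha, h0 a ha], fun a ha => ?_, fun j hj => ?_,
      fun j hj => ?_, ?_, ⟨b, (hB _ _).2 ⟨((hB _ _).1 hb).1, ?_⟩⟩, fun a ha => w6 a (e2 ha)⟩
    (card_le_card e2))
  · refine ⟨κ, fun a ha => ?_⟩
    have h4 := ((hB _ _).1 (e3 ▸ ha : a ∈ B (w + η • (ζ - κ • d)))).2
    rw [hv, ((hB _ _).1 ha).2, zero_add, mul_eq_zero, sub_eq_zero] at h4
    exact h4.resolve_left η0.ne'
  · rw [hv]
    by_cases h4 : a ∈ Y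
    · rcases (w1 a ha).eq_or_lt with h5 | h5
      · exact add_nonneg h5.le (mul_nonneg η0.le (e1 a ((hB _ _).2 ⟨⟨h4, ha⟩, h5.symm⟩)))
      · exact (η1 a h4 h5).le
    · simp [w0 a h4, z0 a h4, h0 a h4]
  · simp [hP, w2 j hj, z1 j hj]
  · have := η2 j hj
    simp only [hP, Pi.add_apply, Pi.smul_apply, smul_eq_mul]
    linarith
  · rw [map_add, map_smul, smul_eq_mul]
    linarith
  · rw [hv, ((hB _ _).1 hb).2, hκ, div_mul_cancel₀ _ (w6 b hb).ne]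
    simp

theorem step (h : D.Gen Y ν) (hR : RR Y (D.SS Y ν)) (hc0 : ∀ a ∉ Y, c a = 0) (hc : PP X c = 1)
    (hd : Dep X Y) : ∃ Y' ν', ∃ c' : (ι →₀ ℕ) → ℚ, Y' ⊂ Y ∧ D.Gen Y' ν' ∧ RR Y' (D.SS Y' ν') ∧
      (∀ a ∉ Y', c' a = 0) ∧ PP X c' = 1 := by
  have hS : D.SS Y ν ⊆ D.S := fun i hi => (Setup.mem_SS.1 hi).1
  obtain ⟨d, d0, d1, d2, d3, d4⟩ : ∃ d : (ι →₀ ℕ) → ℚ, (∀ a ∉ Y, d a = 0) ∧ PP X d = 0 ∧
      (∃ b ∉ Inn Y (D.SS Y ν), d b < 0) ∧ (∀ b ∉ Inn Y (D.SS Y ν), d b ≠ 0 → ∀ T ⊆ D.SS Y ν,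
        2 * T.card ≤ rk ((ZZ Y T).erase b)) ∧ FF X D.g d ≤ 0 := by
    obtain ⟨d, d0, d1, ⟨b, hb, d2⟩, d3⟩ := exists_dep h.sub
      (fun a ha i hi j hj => D.disj (h.sub ha) (hS hi) (D.sub (hS hj))) hR hd
    have e1 : ∀ v : (ι →₀ ℕ) → ℚ, FF X D.g v < 0 → ∃ b ∉ Inn Y (D.SS Y ν), v b < 0 := by
      intro v hv
      by_contra! h1
      refine hv.not_ge (FF_eq X D.g v ▸ sum_nonneg fun a ha => ?_)
      by_cases h2 : a ∈ Inn Y (D.SS Y ν)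
      · obtain ⟨-, i, hi, h3⟩ := mem_ZZ.1 h2
        simp [(D.one a ha i (hS (mem_filter.1 hi).1) h3).2.2]
      · exact mul_nonneg (h1 a h2) (D.nonneg a ha)
    by_cases e2 : (∃ b ∉ Inn Y (D.SS Y ν), d b < 0) ∧ FF X D.g d ≤ 0
    · exact ⟨d, d0, d1, e2.1, d3, e2.2⟩
    · have e3 : FF X D.g (-d) ≤ 0 := not_lt.1 fun e3 => by
        rw [map_neg, neg_pos] at e3
        exact e2 ⟨e1 d e3, e3.le⟩
      refine ⟨-d, fun a ha => by simp [d0 a ha], by simp [d1], e3.eq_or_lt.elim (fun e4 =>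
        ⟨b, hb, ?_⟩) (e1 _), fun b hb h => d3 b hb (by simpa using h), e3⟩
      rw [map_neg, neg_eq_zero] at e4
      exact neg_neg_of_pos (d2.lt_or_gt.resolve_left fun e5 => e2 ⟨⟨b, hb, e5⟩, e4.le⟩)
  obtain ⟨w, B, w0, w1, w2, w3, hB, hB0, hBd, hP⟩ := exists_rigid h _ d0 d1 d2 d4
  have hcl : ∀ v : (ι →₀ ℕ) → ℚ, (∀ a ∉ Y \ B, v a = 0) → (∀ a ∉ Inn Y (D.SS Y ν), 0 ≤ v a) →
      D.Pt v → ∃ μ, D.Adm (Y \ B) μ ∧ ∀ a, 0 < v a → 0 < μ a := fun v v0 v1 v2 => by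
    obtain ⟨μ, m1, m2, m3⟩ := clamp h.sub hS (fun a ha => v0 a fun h => ha (mem_sdiff.1 h).1) v1 v2
    exact ⟨μ, ⟨fun a ha => m2 a (v0 a ha), m1.2⟩, m3⟩
  have hsd : ∀ v : (ι →₀ ℕ) → ℚ, (∀ a ∉ Y, v a = 0) → (∀ a ∈ B, v a = 0) → ∀ a ∉ Y \ B, v a = 0 :=
    fun v v0 v1 a ha => by
      by_cases h : a ∈ B
      exacts [v1 a h, v0 a fun h' => ha (mem_sdiff.2 ⟨h', h⟩)]
  obtain ⟨μ, m1, m2⟩ := hcl w (hsd w w0 fun a ha => ((hB a).1 ha).2) w1 w2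
  have hYB : Y \ B ⊆ X := sdiff_subset.trans h.sub
  obtain ⟨Y', ν', s1, h', s2⟩ := exists_gen hYB m1
  obtain ⟨κ, hκ⟩ := hP (c - w) (fun a ha => by simp [hc0 a ha, w0 a ha]) fun j hj => by
    simp [hc, w3 j hj]
  have c0 : ∀ a ∉ Y \ B, (c - κ • d) a = 0 := hsd _ (fun a ha => by simp [hc0 a ha, d0 a ha])
    fun a ha => by simpa [((hB a).1 ha).2, sub_eq_zero] using hκ a ha
  have c1 : PP X (c - κ • d) = 1 := by simp [hc, d1]
  have hSS : D.SS Y' ν' ⊆ D.SS Y ν := fun i hi => by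
    obtain ⟨hi, a, ha, h1, h2⟩ := Setup.mem_SS.1 hi
    exact Setup.mem_SS.2 ⟨hi, a, (mem_sdiff.1 (s1 ha)).1, h1, fun j hj h3 =>
      h2 j hj (h.gen ν' (h'.adm.mono (s1.trans sdiff_subset)) j h3)⟩
  refine ⟨Y', ν', c - κ • d, lt_of_le_of_lt s1 (sdiff_ssubset (fun a ha => ((hB a).1 ha).1.1) hB0),
    h', fun T hT => ?_, fun e he => by_contra fun he' => he ?_, c1⟩
  · have e1 : ZZ Y T \ B ⊆ ZZ Y' T := fun a' ha' => by
      obtain ⟨ha', hb⟩ := mem_sdiff.1 ha'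
      obtain ⟨ha', i, hi, h1⟩ := mem_ZZ.1 ha'
      obtain ⟨hi', a, ha, h2, h3⟩ := Setup.mem_SS.1 (hT hi)
      obtain ⟨η, μ', -, h4, h5, -⟩ := shift hYB (h'.adm.mono s1) (h'.pos a ha)
        (mem_sdiff.2 ⟨ha', hb⟩) hi' h2 h1 h3
      exact mem_ZZ.2 ⟨s2 μ' h4 a' h5, i, hi, h1⟩
    refine le_trans ?_ (rk_mono e1)
    by_cases hdis : Disjoint (ZZ Y T) B
    · rw [sdiff_eq_self_of_disjoint hdis]
      exact hR T (hT.trans hSS)
    · obtain ⟨b, hb, hb'⟩ := not_disjoint_iff.1 hdis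
      refine (d3 b ((hB b).1 hb').1.2 (hBd b hb').ne T (hT.trans hSS)).trans
        (rk_mono fun x hx => mem_sdiff.2 ⟨mem_of_mem_erase hx, fun hx' => ?_⟩)
      obtain ⟨hb, i, hi, h1⟩ := mem_ZZ.1 hb
      have hi := hSS (hT hi)
      obtain ⟨a, ha, hab⟩ := exists_mem_ne (hR.two hi) b
      obtain ⟨ha, h2⟩ := mem_ZZ_one.1 ha
      obtain ⟨κ', h3⟩ := hP (Pi.single b 1 - Pi.single a 1) (fun z hz => by
        rw [Pi.sub_apply, Pi.single_eq_of_ne fun e : z = b => hz (e ▸ hb),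
          Pi.single_eq_of_ne fun e : z = a => hz (e ▸ ha), sub_zero]) fun j hj => by
        rw [map_sub, PP_single (h.sub ha), PP_single (h.sub hb)]
        by_cases hji : j = i
        · simp [vec, hji, (D.one a (h.sub ha) i (hS hi) h2).1, (D.one b (h.sub hb) i (hS hi) h1).1]
        · simp [vec, h.avoid hi ha h2 hji hj, h.avoid hi hb h1 hji hj]
      have h4 := h3 b hb'
      have h5 := h3 x hx'
      rw [Pi.sub_apply, Pi.single_eq_same, Pi.single_eq_of_ne hab.symm] at h4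
      rw [Pi.sub_apply, Pi.single_eq_of_ne (ne_of_mem_erase hx), Pi.single_apply] at h5
      have := hBd b hb'
      have := hBd x hx'
      have : κ' < 0 := by nlinarith
      split_ifs at h5 <;> nlinarith
  · set c' := c - κ • d
    obtain ⟨η, η0, η1, η2, η3⟩ := ev_ex (((eventually_all_finset Y').2 fun a ha =>
      ev_pos (c' e * (c' a - ν' a)) (h'.pos a ha)).and ((ev_pos (-c' e) one_pos).and
      (ev_pos (-(c' e * FF X D.g (c' - ν'))) (sub_pos.2 h'.adm.2.2.2.2))))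
    have hv : ∀ a, (ν' + (η * c' e) • (c' - ν')) a = ν' a + η * (c' e * (c' a - ν' a)) :=
      fun a => by simp [mul_assoc]
    have hP' : PP X (ν' + (η * c' e) • (c' - ν')) = PP X ν' + (η * c' e) • (1 - PP X ν') := by
      rw [map_add, map_smul, map_sub, c1]
    obtain ⟨μ', m3, m4⟩ := hcl (ν' + (η * c' e) • (c' - ν'))
      (fun a ha => by simp [hv, c0 a ha, h'.adm.1 a fun h => ha (s1 h)]) (fun a ha => by
        rw [hv]
        by_cases h1 : a ∈ Y \ B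
        · exact (η1 a (s2 μ m1 a (m2 a ((w1 a ha).lt_of_ne' fun h2 => (mem_sdiff.1 h1).2
            ((hB a).2 ⟨⟨(mem_sdiff.1 h1).1, ha⟩, h2⟩))))).le
        · simp [c0 a h1, h'.adm.1 a fun h => h1 (s1 h)]) (by
        refine ⟨fun j => ?_, fun j hj => by rw [hP']; simp [h'.adm.2.2.2.1 j hj], ?_⟩
        · have := h'.adm.2.2.1 j
          simp only [hP', Pi.add_apply, Pi.smul_apply, Pi.sub_apply, Pi.one_apply, smul_eq_mul]
          nlinarith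
        · rw [map_add, map_smul, smul_eq_mul]
          linarith)
    refine s2 μ' m3 e (m4 e ?_)
    rw [hv, h'.adm.1 e he, zero_add, sub_zero]
    exact mul_pos η0 (mul_self_pos.2 he')

/-- A state with the rank condition yields a contributing simplex without apex. -/
theorem no_state (hX : ∀ σ ⊆ X, Contrib σ → ∃ a, UApex σ a) (Y : Finset (ι →₀ ℕ)) :
    ∀ ν c : (ι →₀ ℕ) → ℚ, D.Gen Y ν → RR Y (D.SS Y ν) → (∀ a ∉ Y, c a = 0) → PP X c ≠ 1 := by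
  induction Y using Finset.strongInduction with
  | H Y ih =>
    intro ν c h hR hc0 hc
    by_cases hd : Dep X Y
    · obtain ⟨Y', ν', c', h1, h2, h3, h4, h5⟩ := step h hR hc0 hc hd
      exact ih Y' h1 ν' c' h2 h3 h4 h5
    · obtain ⟨a, ha⟩ := hX Y h.sub ⟨indep_of_not_dep h.sub hd, by
        rw [show (fun _ => 1 : ι → ℚ) = PP X c from hc.symm, PP_of_sup h.sub hc0]
        exact Submodule.sum_mem _ fun a ha =>
          Submodule.smul_mem _ _ (Submodule.subset_span ⟨a, ha, rfl⟩)⟩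
      exact h.not_apex hR a ha

end Pool.Agent.P.MP_9321be_ag.ND.CB
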