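import Mathlib

/-!
Combinatorics of exponent sets: contributing simplices, apices, valid and strong sets.
-/

namespace Pool.Agent.P.MP_9321be_ag.ND

variable {ι : Type} [Fintype ι] [DecidableEq ι]

/-- An exponent as a rational vector. -/
def vec (a : ι →₀ ℕ) : ι → ℚ := fun i => (a i : ℚ)

/-- The coordinate `i` is private to `a` in `σ`. -/
def Priv (σ : Finset (ι →₀ ℕ)) (a : ι →₀ ℕ) (i : ι) : Prop :=
  a i ≠ 0 ∧ ∀ b ∈ σ, b ≠ a → b i = 0

/-- `a ∈ σ` has exactly one private coordinate, and its exponent there is one. -/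
def UApex (σ : Finset (ι →₀ ℕ)) (a : ι →₀ ℕ) : Prop :=
  a ∈ σ ∧ ∃ i, a i = 1 ∧ Priv σ a i ∧ ∀ j, Priv σ a j → j = i

/-- `σ` is linearly independent and spans the all-ones vector. -/
def Contrib (σ : Finset (ι →₀ ℕ)) : Prop :=
  LinearIndepOn ℚ vec (σ : Set (ι →₀ ℕ)) ∧
    (fun _ => 1 : ι → ℚ) ∈ Submodule.span ℚ (vec '' (σ : Set (ι →₀ ℕ)))

/-- Every element of `X` has degree at most one in the coordinates of `S`. -/
def Indep (X : Finset (ι →₀ ℕ)) (S : Finset ι) : Prop := ∀ a ∈ X, ∑ i ∈ S, a i ≤ 1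

/-- `S` is independent and the elements of `X` of degree one in `S` have rank `< 2 |S|`. -/
def Valid (X : Finset (ι →₀ ℕ)) (S : Finset ι) : Prop :=
  Indep X S ∧ Module.finrank ℚ (Submodule.span ℚ
    (vec '' ((X.filter fun a => ∑ i ∈ S, a i = 1 : Finset (ι →₀ ℕ)) : Set (ι →₀ ℕ)))) < 2 * S.card

/-- A minimal valid set. -/
def MinValid (X : Finset (ι →₀ ℕ)) (S : Finset ι) : Prop :=
  Valid X S ∧ ∀ S' ⊂ S, ¬ Valid X S'

/-- A minimal valid set compatible with all minimal valid sets. -/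
def Strong (X : Finset (ι →₀ ℕ)) (S : Finset ι) : Prop :=
  MinValid X S ∧ ∀ S', MinValid X S' → Indep X (S ∪ S')

/-- The conclusion of Claim B for one set `X`. -/
def ClaimAt (X : Finset (ι →₀ ℕ)) : Prop :=
  (fun _ => 1 : ι → ℚ) ∈ Submodule.span ℚ (vec '' (X : Set (ι →₀ ℕ))) →
    (∀ σ ⊆ X, Contrib σ → ∃ a, UApex σ a) → ∃ S, Strong X S

/-- Claim B: if every contributing simplex in `X` has a `U`-apex, there is a strong set. -/
def ClaimB : Prop :=
  ∀ (ι : Type) [Fintype ι] [DecidableEq ι] (X : Finset (ι →₀ ℕ)) (u : ι → ℚ),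
    (∀ i, 0 < u i) → (∀ a ∈ X, ∑ i, vec a i * u i = 1) → ClaimAt X

end Pool.Agent.P.MP_9321be_ag.ND
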