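import Pool.Agent.P.MP_9321be_ag.Defs

/-!
Convenient polynomials that are non-degenerate with respect to their Newton polyhedron.
-/

namespace Pool.Agent.P.MP_9321be_ag.ND

open MvPolynomial

variable {σ : Type} [Fintype σ]

open Classical in
/-- The sum of the terms of `f` whose exponents minimise the weight `w`. For positive `w` these
are the polynomials `f_τ` of the compact faces `τ` of the Newton polyhedron of `f`. -/
noncomputable def facePoly (f : MvPolynomial σ ℂ) (w : σ → ℝ) : MvPolynomial σ ℂ :=
  ∑ a ∈ f.support with ∀ b ∈ f.support, ∑ i, (a i : ℝ) * w i ≤ ∑ i, (b i : ℝ) * w i,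
    monomial a (coeff a f)

/-- `f` is non-degenerate with respect to all compact faces of its Newton polyhedron: no face
polynomial has a critical point in the torus. -/
def Nondeg (f : MvPolynomial σ ℂ) : Prop :=
  ∀ w : σ → ℝ, (∀ i, 0 < w i) → ∀ x : σ → ℂ, (∀ i, x i ≠ 0) →
    ∃ i, eval x (pderiv i (facePoly f w)) ≠ 0

/-- `f` is convenient: it contains a power of each variable. -/
def Convenient (f : MvPolynomial σ ℂ) : Prop :=
  ∀ i, ∃ k, 0 < k ∧ coeff (Finsupp.single i k) f ≠ 0

end Pool.Agent.P.MP_9321be_ag.ND
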