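import Pool.Agent.P.MP_9321be_ag.ND.EIface

/-!
Toolbox for the eigenvalue part.
-/

namespace Pool.Agent.P.MP_9321be_ag.ND.E

open Pool.Agent.Lib.Helper83 Set Complex Filter

variable {α σ : Type} [Fintype α] [DecidableEq α] [Fintype σ] [DecidableEq σ]

/-! ### Difference operators -/

section Dm
variable {M M' : Type} [AddCommGroup M] [AddCommGroup M']

omit [Fintype α] in
@[simp] lemma Dm_zero (F : (α → ℝ) → M) : Dm 0 F = F := rfl

omit [Fintype α] in
lemma Dm_cons (c : α) (μ : Multiset α) (F : (α → ℝ) → M) : Dm (c ::ₘ μ) F = Dc c (Dm μ F) :=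
  Multiset.foldr_cons _ _ _ _

omit [Fintype α] in
lemma Dm_add (μ ν : Multiset α) (F : (α → ℝ) → M) : Dm (μ + ν) F = Dm μ (Dm ν F) :=
  Multiset.foldr_add _ _ _ _

omit [Fintype α] in
lemma Dm_cons' (c : α) (μ : Multiset α) (F : (α → ℝ) → M) : Dm (c ::ₘ μ) F = Dm μ (Dc c F) := by
  rw [← Multiset.singleton_add, add_comm, Dm_add]; rfl

omit [Fintype α] in
/-- Additive maps commute with differences. -/
lemma Dm_map (φ : M →+ M') (μ : Multiset α) (F : (α → ℝ) → M) (k : α → ℝ) :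
    φ (Dm μ F k) = Dm μ (fun k => φ (F k)) k := by
  induction μ using Multiset.induction_on generalizing k with
  | empty => rfl
  | cons c μ ih => simp only [Dm_cons, Dc, map_sub, ih]

omit [Fintype α] in
lemma Dm_fun_zero (μ : Multiset α) : Dm μ (fun _ => (0 : M)) = fun _ => 0 := by
  induction μ using Multiset.induction_on with
  | empty => rfl
  | cons c μ ih => funext k; simp only [Dm_cons, Dc, ih, sub_zero]

omit [Fintype α] in
lemma Dm_fun_add (μ : Multiset α) (F G : (α → ℝ) → M) (k : α → ℝ) :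
    Dm μ (fun k => F k + G k) k = Dm μ F k + Dm μ G k := by
  induction μ using Multiset.induction_on generalizing k with
  | empty => rfl
  | cons c μ ih => simp only [Dm_cons, Dc, ih]; abel

omit [Fintype α] in
lemma Dm_sum {ι : Type} (s : Finset ι) (μ : Multiset α) (F : ι → (α → ℝ) → M) (k : α → ℝ) :
    Dm μ (fun k => ∑ i ∈ s, F i k) k = ∑ i ∈ s, Dm μ (F i) k := by
  classical
  induction s using Finset.induction_on with
  | empty => simp [Dm_fun_zero]
  | insert i s hi ih => simp only [Finset.sum_insert hi, Dm_fun_add, ih]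

omit [Fintype α] in
/-- A factor that is invariant in the directions of `μ` can be pulled out. -/
lemma Dm_smul {R : Type} [Ring R] [Module R M] (μ : Multiset α) (χ : (α → ℝ) → R)
    (hχ : ∀ c ∈ μ, ∀ k, χ (k + Pi.single c 1) = χ k) (F : (α → ℝ) → M) (k : α → ℝ) :
    Dm μ (fun k => χ k • F k) k = χ k • Dm μ F k := by
  induction μ using Multiset.induction_on generalizing k with
  | empty => rfl
  | cons c μ ih =>
    have h := fun k => ih (fun c hc => hχ c (Multiset.mem_cons_of_mem hc)) k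
    simp only [Dm_cons, Dc, h, hχ c (Multiset.mem_cons_self _ _), smul_sub]

omit [Fintype α] in
/-- A function that does not depend on a direction of `μ` is killed. -/
lemma Dm_eq_zero {μ : Multiset α} {c : α} (hc : c ∈ μ) {F : (α → ℝ) → M}
    (hF : ∀ k, F (k + Pi.single c 1) = F k) (k : α → ℝ) : Dm μ F k = 0 := by
  obtain ⟨ν, rfl⟩ := Multiset.exists_cons_of_mem hc
  have : Dc c F = fun _ => 0 := funext fun k => sub_eq_zero.2 (hF k)
  rw [Dm_cons', this, Dm_fun_zero]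

omit [Fintype α] [DecidableEq α] in
lemma isInt_zero : IsInt (0 : α → ℝ) := fun _ => ⟨0, by simp⟩

omit [Fintype α] in
lemma IsInt.add_single {k : α → ℝ} (hk : IsInt k) (c : α) : IsInt (k + Pi.single c 1) := fun a => by
  obtain ⟨z, hz⟩ := hk a
  by_cases h : a = c
  · exact ⟨z + 1, by simp [h ▸ hz, h]⟩
  · exact ⟨z, by simp [hz, h]⟩

omit [Fintype α] in
lemma Dm_mem {N : Type} [SetLike N M] [AddSubgroupClass N M] (P : N) (μ : Multiset α)
    {F : (α → ℝ) → M} (hF : ∀ k, IsInt k → F k ∈ P) {k : α → ℝ} (hk : IsInt k) :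
    Dm μ F k ∈ P := by
  induction μ using Multiset.induction_on generalizing k with
  | empty => exact hF k hk
  | cons c μ ih => rw [Dm_cons]; exact sub_mem (ih (hk.add_single c)) (ih hk)

omit [Fintype α] in
lemma Dm_congr (μ : Multiset α) {F G : (α → ℝ) → M} (h : ∀ k, IsInt k → F k = G k) {k : α → ℝ}
    (hk : IsInt k) : Dm μ F k = Dm μ G k := by
  induction μ using Multiset.induction_on generalizing k with
  | empty => exact h k hk
  | cons c μ ih => simp only [Dm_cons, Dc, ih hk, ih (hk.add_single c)]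

omit [Fintype α] in
lemma Dm_eventually {J : Type} {l : Filter J} (μ : Multiset α) {F : J → (α → ℝ) → M}
    {G : (α → ℝ) → M} (h : ∀ k, IsInt k → ∀ᶠ m in l, F m k = G k) {k : α → ℝ} (hk : IsInt k) :
    ∀ᶠ m in l, Dm μ (F m) k = Dm μ G k := by
  induction μ using Multiset.induction_on generalizing k with
  | empty => exact h k hk
  | cons c μ ih =>
    filter_upwards [ih hk, ih (hk.add_single c)] with m h1 h2
    simp only [Dm_cons, Dc, h1, h2]

end Dm

/-! ### Unfolding the formal cocycle -/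

omit [Fintype α] [Fintype σ] [DecidableEq σ] in
lemma sg_ax {p : ℕ} (r : Fin p → α) (y : Fin p → X0 α σ) :
    sg r (ax ℝ y) = (Matrix.of fun i j : Fin p => if r i = (y j).1 then (1 : ℝ) else 0).det := by
  simp [sg, ax]

omit [Fintype α] [Fintype σ] [DecidableEq σ] in
lemma sg_ax_ne {p k : ℕ} (r : Fin p → α) (y : Fin k → X0 α σ) (h : k ≠ p) : sg r (ax ℝ y) = 0 := by
  simp [sg, ax, h]

lemma cn_zero {E F : Type} (f : E → F) (A : LC ℝ E →ₗ[ℝ] LC ℝ F) (y : Fin 0 → E) :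
    cn f A (ax ℝ y) = 0 := by simp [cn, ax]

lemma cn_succ {E F : Type} (f : E → F) (A : LC ℝ E →ₗ[ℝ] LC ℝ F) {k : ℕ} (y : Fin (k + 1) → E) :
    cn f A (ax ℝ y) = cone (f (y 0)) (A (ax ℝ y)) := by
  rw [cn]; nth_rw 1 [ax]; simp

omit [Fintype σ] [DecidableEq σ] in
@[simp] lemma GG_zero (p : ℕ) (r : Fin p → α) (c : LC ℝ (X0 α σ)) : GG 0 p r c = 0 := by
  simp [GG]

omit [Fintype σ] [DecidableEq σ] in
lemma GG_nil (q p : ℕ) (r : Fin p → α) (y : Fin 0 → X0 α σ) : GG q p r (ax ℝ y) = 0 := by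
  cases q with
  | zero => exact GG_zero _ _ _
  | succ q => simp [GG, cn, ax]

omit [Fintype σ] [DecidableEq σ] in
lemma GG_succ (q p : ℕ) (r : Fin p → α) {k : ℕ} (y : Fin (k + 1) → X0 α σ) :
    GG (q + 1) p r (ax ℝ y) =
      cone (Finset.univ.image r, (y 0).2) (RH0 q (GG q) p r (ax ℝ y)) := by
  simp [GG, cn, ax]

omit [Fintype σ] [DecidableEq σ] in
lemma RH0_zero (p : ℕ) (r : Fin p → α) (c : LC ℝ (X0 α σ)) :
    RH0 0 (GG 0) p r c = sg r c • ax ℝ Fin.elim0 := by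
  simp [RH0]

omit [Fintype σ] [DecidableEq σ] in
lemma RH0_succ (q p : ℕ) (r : Fin p → α) (c : LC ℝ (X0 α σ)) :
    RH0 (q + 1) (GG (q + 1)) p r c = (-1 : ℝ) ^ (q + 1) • GG (q + 1) p r (abd c) +
      ∑ b, GG (q + 1) (p + 1) (Fin.cons b r) c := by
  simp [RH0]

omit [DecidableEq σ] in
lemma Vd_ax {q : ℕ} (u : Fin q → σ → ℝ) (y : Fin (q + 1) → σ → ℝ) :
    Vd u (ax ℝ y) = (Matrix.of fun i j : Fin (q + 1) =>
      (Fin.cons 1 (fun i => u i ⬝ᵥ y j) : Fin (q + 1) → ℝ) i).det := by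
  simp [Vd, ax]

omit [DecidableEq σ] in
lemma Vd_ax_ne {q k : ℕ} (u : Fin q → σ → ℝ) (y : Fin k → σ → ℝ) (h : k ≠ q + 1) :
    Vd u (ax ℝ y) = 0 := by
  simp [Vd, ax, h]

lemma lsub_empty {R E : Type} [CommRing R] {k : ℕ} {c : LC R E} (hc : c ∈ lsub R ∅ (k + 1)) :
    c = 0 := lsub_eq LinearMap.id 0 (fun _ hs => (hs 0).elim) hc

/-! ### The triangulation -/

omit [Fintype α] [DecidableEq α] [DecidableEq σ] in
lemma KK_down (v : α → σ → ℝ) (h : α → ℝ) : ∀ τ ∈ KK v h, ∀ ρ ⊆ τ, ρ ∈ KK v h := by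
  rintro τ ⟨u, ω, h1, h2, h3⟩ ρ hρ
  exact ⟨u, ω, h1, fun a ha => h2 a (hρ ha), h3⟩

omit [Fintype α] [DecidableEq α] [Fintype σ] [DecidableEq σ] in
lemma Intr.mono {v : α → σ → ℝ} {τ τ' : Finset α} (h : Intr v τ) (hs : τ ⊆ τ') : Intr v τ' :=
  fun i => (h i).imp fun _ ha => ⟨hs ha.1, ha.2⟩

omit [DecidableEq α] in
lemma Dτ_convex (τ : Finset α) : Convex ℝ (Dτ τ) := fun x hx y hy a b ha hb hab =>
  ⟨convex_stdSimplex ℝ α hx.1 hy.1 ha hb hab, fun c hc => by simp [hx.2 c hc, hy.2 c hc]⟩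

omit [DecidableEq α] in
lemma Dτ_compact (τ : Finset α) : IsCompact (Dτ τ) := by
  refine (isCompact_stdSimplex ℝ α).inter_right (t := {β | ∀ a ∉ τ, β a = 0}) ?_
  simp only [ofPred_forall]
  exact isClosed_iInter fun a => isClosed_iInter fun _ =>
    isClosed_eq (continuous_apply a) continuous_const

lemma single_mem_Dτ {τ : Finset α} {a : α} (ha : a ∈ τ) : (Pi.single a 1 : α → ℝ) ∈ Dτ τ :=
  ⟨single_mem_stdSimplex ℝ a, fun _ hb => Pi.single_eq_of_ne (ne_of_mem_of_not_mem ha hb).symm _⟩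

/-! ### Chains -/

section chains
variable {R : Type} [CommRing R] {X Y : Type} [TopologicalSpace X] [TopologicalSpace Y]

lemma vtx_face {n : ℕ} (s : C(Dl (n + 1), Y)) (i : Fin (n + 1)) :
    vtx (s.comp (face i)) = vtx s ∘ i.succAbove := by
  funext j
  exact congrArg s (stdSimplex.map_vertex _ _)

lemma aff_vertex {E : Type} [NormedAddCommGroup E] [NormedSpace ℝ E] {n : ℕ} (v : Fin n → E)
    (j : Fin n) : aff v (stdSimplex.vertex j) = v j := congrFun (lin_comp_ee v) j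

lemma Sd_real' [Nonempty X] {E : Type} [NormedAddCommGroup E] [NormedSpace ℝ E] {g : E → X}
    {K : Set E} (hK : Convex ℝ K) (hg : ContinuousOn g K) {k : ℕ} {c : LC R E}
    (hc : c ∈ lsub R K k) : Sd (push g (affL c)) = push g (affL (sd c)) := by
  refine lsub_eq (Sd ∘ₗ push g ∘ₗ affL) (push g ∘ₗ affL ∘ₗ sd) (fun v hv => ?_) hc
  simp only [LinearMap.comp_apply]
  have hm : MapsTo (lin v) (stdSimplex ℝ (Fin k)) K := fun t ht => aff_mem hK hv ⟨t, ht⟩
  have hp : ∀ c ∈ lsub R (stdSimplex ℝ (Fin k)) k,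
      push g (affL (amap (lin v) c)) = push (g ∘ lin v) (affL c) := fun c hc => by
    rw [← (isAff_lin (lin v)).push, push_push g (lin_cont v).continuousOn
      (affL_mem (convex_stdSimplex _ _) hc)]
  rw [← lin_comp_ee v, ← amap_ax, ← sd_nat, hp _ (ee_mem k),
    hp _ (sd_mem (convex_stdSimplex _ _) (ee_mem k))]
  exact Sd_real (convex_stdSimplex _ _) (hg.comp (lin_cont v).continuousOn hm) (ee_mem k)

lemma sd_pow_mem {E : Type} [AddCommGroup E] [Module ℝ E] {K : Set E} (hK : Convex ℝ K) {k : ℕ}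
    {c : LC R E} (hc : c ∈ lsub R K k) (m : ℕ) :
    ((sd : Module.End R (LC R E)) ^ m) c ∈ lsub R K k := by
  induction m with
  | zero => simpa using hc
  | succ m ih => rw [pow_succ', Module.End.mul_apply]; exact sd_mem hK ih

lemma Sd_pow_real [Nonempty X] {E : Type} [NormedAddCommGroup E] [NormedSpace ℝ E] {g : E → X}
    {K : Set E} (hK : Convex ℝ K) (hg : ContinuousOn g K) {k : ℕ} {c : LC R E}
    (hc : c ∈ lsub R K k) (m : ℕ) :
    (Sd ^ m) (push g (affL c)) = push g (affL (((sd : Module.End R (LC R E)) ^ m) c)) := by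
  induction m with
  | zero => simp
  | succ m ih =>
    rw [pow_succ', pow_succ', Module.End.mul_apply, Module.End.mul_apply, ih,
      Sd_real' hK hg (sd_pow_mem hK hc m)]

lemma push_Sd [Nonempty X] [Nonempty Y] {T : X → Y} (hT : Continuous T) (c : Ch R X) :
    push T (Sd c) = Sd (push T c) := by
  refine all_eq (push T ∘ₗ Sd) (Sd ∘ₗ push T) ?_ c
  rintro ⟨k, s⟩
  show push T (Sd (sx R s)) = Sd (push T (sx R s))
  have h := convex_stdSimplex ℝ (Fin k)
  rw [← push_ext s, Sd_real h (ext_cont s) (ee_mem k),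
    push_push T (ext_cont s) (affL_mem h (ee_mem k)),
    push_push T (ext_cont s) (affL_mem h (sd_mem h (ee_mem k))),
    Sd_real h (hT.comp_continuousOn (ext_cont s)) (ee_mem k)]

/-- Complexification of formal chains. -/
noncomputable def cx {E : Type} : LC ℝ E →ₗ[ℝ] LC ℂ E :=
  Finsupp.mapRange.linearMap (Algebra.linearMap ℝ ℂ)

lemma cx_eq {E : Type} (c : LC ℝ E) : Finsupp.mapRange (fun x : ℝ => (x : ℂ)) rfl c = cx c := rfl

@[simp] lemma cx_ax {E : Type} {k : ℕ} (v : Fin k → E) : cx (ax ℝ v) = ax ℂ v := by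
  simp [cx, ax]

lemma cx_amap {E F : Type} (φ : E → F) (c : LC ℝ E) : cx (amap φ c) = amap φ (cx c) :=
  all_eq (cx ∘ₗ amap φ) ((amap φ).restrictScalars ℝ ∘ₗ cx) (fun a => by
    show cx (amap φ (ax ℝ a.2)) = amap φ (cx (ax ℝ a.2))
    simp) c

lemma cx_cone {E : Type} (x : E) (c : LC ℝ E) : cx (cone x c) = cone x (cx c) :=
  all_eq (cx ∘ₗ cone x) ((cone x).restrictScalars ℝ ∘ₗ cx) (fun a => by
    show cx (cone x (ax ℝ a.2)) = cone x (cx (ax ℝ a.2))
    simp) c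

lemma cx_abd {E : Type} (c : LC ℝ E) : cx (abd c) = abd (cx c) := by
  refine all_eq (cx ∘ₗ abd) (abd.restrictScalars ℝ ∘ₗ cx) ?_ c
  rintro ⟨k, v⟩
  show cx (abd (ax ℝ v)) = abd (cx (ax ℝ v))
  cases k with
  | zero => simp
  | succ k =>
    simp only [abd_succ, cx_ax, map_sum, map_smul]
    refine Finset.sum_congr rfl fun i _ => ?_
    rw [← Complex.coe_smul]; push_cast; rfl

lemma cx_mem {E : Type} {K : Set E} {k : ℕ} {c : LC ℝ E} (hc : c ∈ lsub ℝ K k) :
    cx c ∈ lsub ℂ K k :=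
  lsub_mem (N := (lsub ℂ K k).restrictScalars ℝ) cx (fun v hv => by
    rw [cx_ax]; exact ax_mem hv) hc

lemma cx_sd {E : Type} [AddCommGroup E] [Module ℝ E] (c : LC ℝ E) : cx (sd c) = sd (cx c) := by
  have key : ∀ k (v : Fin k → E), cx (sd (ax ℝ v)) = sd (cx (ax ℝ v)) := by
    intro k
    induction k with
    | zero => intro v; simp [sd, rc_zero]
    | succ k ih =>
      intro v
      have h : cx (sd (abd (ax ℝ v))) = sd (cx (abd (ax ℝ v))) :=
        lsub_eq (cx ∘ₗ sd) (sd.restrictScalars ℝ ∘ₗ cx) (fun w _ => ih w)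
          (abd_mem (ax_mem fun _ => mem_univ _))
      rw [cx_abd, cx_ax] at h
      rw [cx_ax]
      unfold sd at h ⊢
      rw [rc_succ, rc_succ, cx_cone]
      simp [h]
  exact all_eq (cx ∘ₗ sd) (sd.restrictScalars ℝ ∘ₗ cx) (fun a => key a.1 a.2) c

lemma cx_sd_pow {E : Type} [AddCommGroup E] [Module ℝ E] (c : LC ℝ E) (m : ℕ) :
    cx (((sd : Module.End ℝ (LC ℝ E)) ^ m) c) = ((sd : Module.End ℂ (LC ℂ E)) ^ m) (cx c) := by
  induction m with
  | zero => simp
  | succ m ih => simp only [pow_succ', Module.End.mul_apply, cx_sd, ih]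

lemma EigOn.mono {T : Y → Y} {lam : ℂ} {S₁ S₂ S₁' S₂' : Set Y} (h : EigOn T lam S₁ S₂)
    (h₁ : S₁ ⊆ S₁') (h₂ : S₂' ⊆ S₂) : EigOn T lam S₁' S₂' := by
  obtain ⟨k, N, φ, a, b, z, hz, c⟩ := h
  exact ⟨k, N, φ, fun c hc => a c (sub_mono h₂ hc), fun z hz => b z (sub_mono h₂ hz),
    z, sub_mono h₁ hz, c⟩

lemma Tl_apply (T : Y → Y) (lam : ℂ) (c : Ch ℂ Y) : Tl T lam c = push T c - lam • c := rfl

end chains

/-! ### Labels -/

omit [Fintype σ] [DecidableEq σ] in
lemma dk_cont : Continuous (dk : YY σ → YY σ) := by unfold dk; fun_prop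

omit [DecidableEq σ] in
lemma dk_maps (F : (σ → ℂ) → ℂ) (ε δ : ℝ) : MapsTo dk (Mset F ε δ) (Mset F ε δ) :=
  fun p hp => ⟨hp.1, by simpa [dk, exp_add] using hp.2.1, by simpa [dk] using hp.2.2⟩

omit [DecidableEq σ] in
lemma Mset_mono (F : (σ → ℂ) → ℂ) {ε ε' : ℝ} (h0 : 0 ≤ ε) (h : ε ≤ ε') (δ : ℝ) :
    Mset F ε δ ⊆ Mset F ε' δ := fun _ hp => ⟨hp.1.trans_le (by gcongr), hp.2⟩

omit [Fintype α] [DecidableEq α] [DecidableEq σ] in
lemma zz_dk (ex : α → σ → ℕ) (c : α → ℂ) (a : α) (p : YY σ) : zz ex c a (dk p) = zz ex c a p := by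
  simp [zz, dk, exp_add, exp_neg]

omit [DecidableEq α] [DecidableEq σ] in
lemma lab_dk [Nonempty α] (ex : α → σ → ℕ) (c : α → ℂ) (K₀ : ℝ) (p : YY σ) :
    lab ex c K₀ (dk p) = lab ex c K₀ p := by
  simp only [lab, Va, mem_ofPred_eq, zz_dk]

omit [DecidableEq α] [DecidableEq σ] in
lemma sum_zz {ex : α → σ → ℕ} {c : α → ℂ} {p : YY σ} (h : ev ex c p.1 = exp p.2) :
    ∑ a, zz ex c a p = 1 := by
  simp only [zz]
  rw [← Finset.sum_mul, ← ev, h, ← exp_add]; simp

omit [DecidableEq α] [DecidableEq σ] in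
/-- Every point of the Milnor fibre lies in the set given by its label. -/
lemma lab_mem [Nonempty α] {ex : α → σ → ℕ} {c : α → ℂ} {K₀ : ℝ} {p : YY σ}
    (hK : 3 * (Fintype.card α : ℝ) ≤ K₀) (h : ev ex c p.1 = exp p.2) :
    p ∈ Va ex c K₀ (lab ex c K₀ p) := by
  refine Classical.epsilon_spec (p := fun a => p ∈ Va ex c K₀ a) ?_
  by_contra hn
  have hm : (0 : ℝ) < Fintype.card α := by exact_mod_cast Fintype.card_pos
  set S := ∑ b, ‖zz ex c b p‖ with hS
  have h1 : ∀ a, K₀ * (zz ex c a p).re ≤ 3 / 2 * S - K₀ * ‖zz ex c a p‖ / 2 := fun a => by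
    have hS0 : 0 ≤ S := Finset.sum_nonneg fun _ _ => norm_nonneg _
    by_cases h2 : S < K₀ * ‖zz ex c a p‖
    · have h3 : (zz ex c a p).re ≤ -‖zz ex c a p‖ / 2 := not_lt.1 fun h3 => hn ⟨a, h2, h3⟩
      nlinarith
    · have h3 := re_le_norm (zz ex c a p)
      nlinarith
  have h2 := Finset.sum_le_sum fun a (_ : a ∈ Finset.univ) => h1 a
  rw [← Finset.mul_sum, ← re_sum, sum_zz h, Finset.sum_sub_distrib, ← Finset.sum_div,
    Finset.sum_const, ← Finset.mul_sum, ← hS, Finset.card_univ, nsmul_eq_mul, one_re] at h2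
  have hS0 : 0 ≤ S := Finset.sum_nonneg fun _ _ => norm_nonneg _
  nlinarith

end Pool.Agent.P.MP_9321be_ag.ND.E
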