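import Pool.Agent.P.MP_9321be_ag.ND.Defs
import Pool.Agent.Lib.Helper83.Bridge

/-!
Definitions for the eigenvalue part.
-/

namespace Pool.Agent.P.MP_9321be_ag.ND.E

open Pool.Agent.Lib.Helper83 Set Complex

variable {α σ : Type} [Fintype α] [DecidableEq α] [Fintype σ] [DecidableEq σ]

/-! ### Polynomials given by coefficient vectors -/

/-- Exponents as real vectors. -/
def rv (ex : α → σ → ℕ) (a : α) : σ → ℝ := fun i => ex a i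

/-- A monomial. -/
def mon (a : σ → ℕ) (x : σ → ℂ) : ℂ := ∏ i, x i ^ a i

/-- The polynomial with coefficients `c`. -/
def ev (ex : α → σ → ℕ) (c : α → ℂ) (x : σ → ℂ) : ℂ := ∑ a, c a * mon (ex a) x

/-- The size of the monomials. -/
noncomputable def Sm (ex : α → σ → ℕ) (x : σ → ℂ) : ℝ := ∑ a, ‖mon (ex a) x‖

/-- The logarithmic derivative `x i * ∂ i`. -/
def lg (ex : α → σ → ℕ) (c : α → ℂ) (x : σ → ℂ) (i : σ) : ℂ :=
  ∑ a, c a * ex a i * mon (ex a) x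

/-- The gradient inequality with explicit constants. -/
def NIq (ex : α → σ → ℕ) (c : α → ℂ) (ε κ : ℝ) : Prop :=
  ∀ x : σ → ℂ, ‖x‖ < ε → κ * Sm ex x ≤ ∑ i, ‖lg ex c x i‖

/-- The gradient inequality. -/
def NI (ex : α → σ → ℕ) (c : α → ℂ) : Prop := ∃ ε > 0, ∃ κ > 0, NIq ex c ε κ

open Classical in
/-- Non-degeneracy on the compact faces. -/
def NDc (ex : α → σ → ℕ) (c : α → ℂ) : Prop :=
  ∀ w : σ → ℝ, (∀ i, 0 < w i) → ∀ x : σ → ℂ, (∀ i, x i ≠ 0) →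
    ∃ i, ∑ a with ∀ b, rv ex a ⬝ᵥ w ≤ rv ex b ⬝ᵥ w, c a * ex a i * mon (ex a) x ≠ 0

/-- Convenient families of nonzero exponents. -/
def Conv (ex : α → σ → ℕ) : Prop :=
  (∀ a, ex a ≠ 0) ∧ ∀ i, ∃ a k, 0 < k ∧ ex a = Pi.single i k

/-- The coefficients of the patchworking polynomial. -/
noncomputable def vc (h : α → ℝ) (L : ℝ) (a : α) : ℂ := (Real.exp (-(L * h a)) : ℝ)

/-! ### Milnor fibres in the ambient space -/

/-- The ambient space. -/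
abbrev YY (σ : Type) := (σ → ℂ) × ℂ

/-- The canonical Milnor fibre as a subset. -/
def Mset (F : (σ → ℂ) → ℂ) (ε δ : ℝ) : Set (YY σ) :=
  {p | ∑ i, ‖p.1 i‖ ^ 2 < ε ^ 2 ∧ F p.1 = exp p.2 ∧ p.2.re < Real.log δ}

/-- The deck transformation. -/
noncomputable def dk (p : YY σ) : YY σ := (p.1, p.2 + 2 * Real.pi * I)

/-- The operator `T - lam` on chains. -/
noncomputable def Tl {Y : Type} [TopologicalSpace Y] (T : Y → Y) (lam : ℂ) :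
    Module.End ℂ (Ch ℂ Y) := push T - lam • LinearMap.id

/-- A generalised eigenclass on `S₂` that is seen by a cycle in `S₁`. -/
def EigOn {Y : Type} [TopologicalSpace Y] (T : Y → Y) (lam : ℂ) (S₁ S₂ : Set Y) : Prop :=
  ∃ (k N : ℕ) (φ : Ch ℂ Y →ₗ[ℂ] ℂ), (∀ c ∈ sub ℂ S₂ (k + 2), φ (bd c) = 0) ∧
    (∀ z ∈ sub ℂ S₂ (k + 1), bd z = 0 → φ ((Tl T lam ^ N) z) = 0) ∧
    ∃ z ∈ sub ℂ S₁ (k + 1), bd z = 0 ∧ φ z ≠ 0

/-- The stable form of being a monodromy eigenvalue at the origin. -/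
def Eig (F : (σ → ℂ) → ℂ) (lam : ℂ) : Prop :=
  ∃ ε₀ > 0, ∀ ε₁ > 0, ∃ δ₀ > 0, ∀ δ ∈ Ioo (0 : ℝ) δ₀,
    EigOn dk lam (Mset F ε₁ δ) (Mset F ε₀ δ)

/-- Points that are almost on the Milnor fibre. -/
def Ap (ex : α → σ → ℕ) (c : α → ℂ) (ε β : ℝ) : Set (YY σ) :=
  {p | ‖p.1‖ < ε ∧ ‖ev ex c p.1 - exp p.2‖ ≤ β * Sm ex p.1}

/-! ### The regular triangulation -/

/-- The regular subdivision of the compact faces given by the heights `h`. -/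
def KK (v : α → σ → ℝ) (h : α → ℝ) : Set (Finset α) :=
  {τ | ∃ u ω : σ → ℝ, (∀ a, 1 ≤ v a ⬝ᵥ u) ∧ (∀ a ∈ τ, v a ⬝ᵥ u = 1 ∧ v a ⬝ᵥ ω + h a = 0) ∧
    ∀ a, v a ⬝ᵥ u = 1 → 0 ≤ v a ⬝ᵥ ω + h a}

/-- All members of `K` are linearly independent. -/
def Ind (v : α → σ → ℝ) (K : Set (Finset α)) : Prop := ∀ τ ∈ K, LinearIndepOn ℝ v (τ : Set α)

/-- Faces that are not contained in a coordinate hyperplane. -/
def Intr (v : α → σ → ℝ) (τ : Finset α) : Prop := ∀ i, ∃ a ∈ τ, v a i ≠ 0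

/-- The links of interior faces are complete. -/
def Cl (v : α → σ → ℝ) (K : Set (Finset α)) : Prop :=
  ∀ ρ ∈ K, Intr v ρ → ∀ y : σ → ℝ, ∃ τ ∈ K, ρ ⊆ τ ∧ ∃ t : α → ℝ, (∀ a ∉ ρ, 0 ≤ t a) ∧
    (∀ a ∉ τ, t a = 0) ∧ y = ∑ a, t a • v a

/-- At most one facet on each side of a ridge. -/
def Uniq (v : α → σ → ℝ) (K : Set (Finset α)) : Prop :=
  ∀ (ρ : Finset α) (b b' : α) (d : σ → ℝ), insert b ρ ∈ K → insert b' ρ ∈ K →
    ρ.card + 1 = Fintype.card σ → (∀ a ∈ ρ, v a ⬝ᵥ d = 0) → 0 < v b ⬝ᵥ d → 0 < v b' ⬝ᵥ d → b = b'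

/-- The properties of the triangulation. -/
structure Cx (v : α → σ → ℝ) (K : Set (Finset α)) : Prop where
  down : ∀ τ ∈ K, ∀ ρ ⊆ τ, ρ ∈ K
  ind : Ind v K
  cl : Cl v K
  uniq : Uniq v K

/-- The determinant of a tuple of vertices. -/
noncomputable def dt {n : ℕ} (e : Fin n ≃ σ) (v : α → σ → ℝ) (t : Fin n → α) : ℝ :=
  (Matrix.of fun i j => v (t i) (e j)).det

open Classical in
/-- The fundamental chain of the triangulation. -/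
noncomputable def zc {n : ℕ} (e : Fin n ≃ σ) (v : α → σ → ℝ) (K : Set (Finset α)) : LC ℝ α :=
  ∑ t : Fin n → α, (if Finset.univ.image t ∈ K then (SignType.sign (dt e v t) : ℝ) else 0) •
    ax ℝ t

/-- Linear sections for the faces. -/
def Sec (v : α → σ → ℝ) (K : Set (Finset α)) (sec : Finset α → (α → ℝ) →ₗ[ℝ] (σ → ℝ)) : Prop :=
  (∀ ρ ∈ K, ∀ a ∈ ρ, ∀ y, v a ⬝ᵥ sec ρ y = y a) ∧ ∀ ρ y, (∀ a ∈ ρ, y a = 0) → sec ρ y = 0

/-! ### Difference operators -/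

/-- The difference operator in the direction `c`. -/
def Dc {M : Type} [AddCommGroup M] (c : α) (F : (α → ℝ) → M) : (α → ℝ) → M :=
  fun k => F (k + Pi.single c 1) - F k

instance Dc_comm {M : Type} [AddCommGroup M] :
    LeftCommutative (Dc : α → ((α → ℝ) → M) → (α → ℝ) → M) :=
  ⟨fun a b F => funext fun k => by
    simp only [Dc]
    rw [add_right_comm k]; abel⟩

/-- Iterated differences. -/
def Dm {M : Type} [AddCommGroup M] (μ : Multiset α) (F : (α → ℝ) → M) : (α → ℝ) → M :=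
  Multiset.foldr Dc F μ

/-- Integral vectors. -/
def IsInt (k : α → ℝ) : Prop := ∀ a, ∃ z : ℤ, k a = z

/-! ### The formal cocycle -/

/-- Vertex data: a label and an argument vector. -/
abbrev X0 (α σ : Type) := α × (σ → ℝ)

/-- Symbols: a face and an argument vector. -/
abbrev Sy (α σ : Type) := Finset α × (σ → ℝ)

/-- Vertices with labels in `τ`. -/
def labIn (σ : Type) (τ : Finset α) : Set (X0 α σ) := {x | x.1 ∈ τ}

/-- The sign with which the labels of a simplex enumerate `r`. -/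
noncomputable def sg {p : ℕ} (r : Fin p → α) : LC ℝ (X0 α σ) →ₗ[ℝ] ℝ :=
  Finsupp.linearCombination ℝ fun x => if h : x.1 = p then
    (Matrix.of fun i j : Fin p => if r i = (x.2 (j.cast h.symm)).1 then (1 : ℝ) else 0).det else 0

/-- Cone over `A` with apex depending on the first vertex. -/
noncomputable def cn {E F : Type} (f : E → F) (A : LC ℝ E →ₗ[ℝ] LC ℝ F) : LC ℝ E →ₗ[ℝ] LC ℝ F :=
  Finsupp.linearCombination ℝ fun x =>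
    if h : 0 < x.1 then cone (f (x.2 ⟨0, h⟩)) (A (ax ℝ x.2)) else 0

/-- The boundary prescribed for the next step of the recursion. -/
noncomputable def RH0 (q : ℕ)
    (G : ∀ p : ℕ, (Fin p → α) → LC ℝ (X0 α σ) →ₗ[ℝ] LC ℝ (Sy α σ)) (p : ℕ) (r : Fin p → α) :
    LC ℝ (X0 α σ) →ₗ[ℝ] LC ℝ (Sy α σ) :=
  (if q = 0 then (sg r).smulRight (ax ℝ Fin.elim0) else 0) + (-1 : ℝ) ^ q • G p r ∘ₗ abd +
    ∑ b, G (p + 1) (Fin.cons b r)

/-- The straightening chains; `GG q p r` has values in chains with `q` vertices. -/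
noncomputable def GG : ℕ → ∀ p : ℕ, (Fin p → α) → LC ℝ (X0 α σ) →ₗ[ℝ] LC ℝ (Sy α σ)
  | 0 => fun _ _ => 0
  | q + 1 => fun p r => cn (fun x => (Finset.univ.image r, x.2)) (RH0 q (GG q) p r)

/-- The volume of a simplex in the coordinates `u`. -/
noncomputable def Vd {q : ℕ} (u : Fin q → σ → ℝ) : LC ℝ (σ → ℝ) →ₗ[ℝ] ℝ :=
  Finsupp.linearCombination ℝ fun y => if h : y.1 = q + 1 then
    (Matrix.of fun i j : Fin (q + 1) =>
      (Fin.cons 1 (fun i => u i ⬝ᵥ y.2 (j.cast h.symm)) : Fin (q + 1) → ℝ) i).det else 0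

/-- Evaluation of a symbol: projection to the affine space `v a ⬝ᵥ y = k a`, `a ∈ ρ`. -/
def evk (v : α → σ → ℝ) (sec : Finset α → (α → ℝ) →ₗ[ℝ] (σ → ℝ)) (k : α → ℝ) (y : Sy α σ) :
    σ → ℝ := y.2 + sec y.1 (k - fun a => v a ⬝ᵥ y.2)

/-- The formal cocycle. -/
noncomputable def Ph (v : α → σ → ℝ) (sec : Finset α → (α → ℝ) →ₗ[ℝ] (σ → ℝ)) {p q : ℕ}
    (r : Fin p → α) (u : Fin q → σ → ℝ) (k : α → ℝ) : LC ℝ (X0 α σ) →ₗ[ℝ] ℝ :=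
  Vd u ∘ₗ amap (evk v sec k) ∘ₗ GG (q + 1) p r

/-- The properties of the formal cocycle. -/
structure PhiP (v : α → σ → ℝ) (K : Set (Finset α)) (τ₀ : Finset α) (q : ℕ)
    (Φ : (α → ℝ) → LC ℝ (X0 α σ) →ₗ[ℝ] ℝ) : Prop where
  coc : ∀ τ ∈ K, ∀ k j, ∀ c ∈ lsub ℝ (labIn σ τ) j, Φ k (abd c) = 0
  tr : ∀ k (m : σ → ℝ) c,
    Φ (k + fun a => v a ⬝ᵥ m) (amap (fun x : X0 α σ => (x.1, x.2 + m)) c) = Φ k c
  van : ∀ τ : Finset α, ¬ τ₀ ⊆ τ → ∀ k j, ∀ c ∈ lsub ℝ (labIn σ τ) j, Φ k c = 0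
  loc : ∀ (τ : Finset α) (k k' : α → ℝ), (∀ a ∈ τ, k a = k' a) →
    ∀ j, ∀ c ∈ lsub ℝ (labIn σ τ) j, Φ k c = Φ k' c
  poly : ∀ c, ∃ P : MvPolynomial α ℝ, P.totalDegree ≤ q ∧ ∀ k, Φ k c = MvPolynomial.eval k P

/-- The mixed differences on the facets have a coherent sign. -/
def ValP {n : ℕ} (e : Fin n ≃ σ) (v : α → σ → ℝ) (K : Set (Finset α)) (τ₀ : Finset α)
    (Φ : (α → ℝ) → LC ℝ (X0 α σ) →ₗ[ℝ] ℝ) : Prop :=
  ∃ κ : ℝ, ∀ t : Fin n → α, Function.Injective t → Finset.univ.image t ∈ K →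
    τ₀ ⊆ Finset.univ.image t → ∀ k, 0 < κ * dt e v t *
      Dm (Finset.univ.image t \ τ₀).val (fun k => Φ k (ax ℝ fun j => (t j, 0))) k

/-- The value of the cocycle on the fundamental chain. -/
noncomputable def NN {n : ℕ} (e : Fin n ≃ σ) (v : α → σ → ℝ) (K : Set (Finset α))
    (Φ : (α → ℝ) → LC ℝ (X0 α σ) →ₗ[ℝ] ℝ) (k : α → ℝ) : ℝ :=
  Φ k (amap (fun a => (a, 0)) (zc e v K))

/-! ### Stresses -/

/-- A linear form. -/
noncomputable def lf {B : Type} [Fintype B] (g : B → ℝ) : MvPolynomial B ℝ :=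
  ∑ b, MvPolynomial.C (g b) * MvPolynomial.X b

/-- An integration functional on the star of `τ₀`. -/
structure StP (v : α → σ → ℝ) (K : Set (Finset α)) (τ₀ : Finset α)
    (Λ : MvPolynomial α ℝ →ₗ[ℝ] ℝ) : Prop where
  th : ∀ (m : σ → ℝ) f, Λ (lf (fun a => v a ⬝ᵥ m) * f) = 0
  nf : ∀ ρ : Finset α, ρ ∪ τ₀ ∉ K → ∀ f, Λ ((∏ a ∈ ρ, MvPolynomial.X a) * f) = 0
  pos : ∀ τ ∈ K, τ₀ ⊆ τ → τ.card = Fintype.card σ → 0 < Λ (∏ a ∈ τ \ τ₀, MvPolynomial.X a)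

section NV
variable {B Z : Type} [Fintype B] [DecidableEq B] [Fintype Z] [DecidableEq Z]

/-- A complete simplicial fan modulo the annihilator of `M`, with an integration functional. -/
structure NOk (M : Submodule ℝ (σ → ℝ)) (w : B → σ → ℝ) (Δ : Set (Finset B))
    (Λ : MvPolynomial B ℝ →ₗ[ℝ] ℝ) : Prop where
  down : ∀ τ ∈ Δ, ∀ ρ ⊆ τ, ρ ∈ Δ
  emp : ∅ ∈ Δ
  card : ∀ ρ ∈ Δ, ρ.card ≤ Module.finrank ℝ M
  cl : ∀ ρ ∈ Δ, ∀ y : σ → ℝ, ∃ τ ∈ Δ, ρ ⊆ τ ∧ ∃ t : B → ℝ, (∀ b ∉ ρ, 0 ≤ t b) ∧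
    (∀ b ∉ τ, t b = 0) ∧ ∀ m ∈ M, y ⬝ᵥ m = ∑ b, t b * (w b ⬝ᵥ m)
  th : ∀ m ∈ M, ∀ f, Λ (lf (fun b => w b ⬝ᵥ m) * f) = 0
  nf : ∀ ρ ∉ Δ, ∀ f, Λ ((∏ b ∈ ρ, MvPolynomial.X b) * f) = 0
  pos : ∀ ρ ∈ Δ, ρ.card = Module.finrank ℝ M → 0 < Λ (∏ b ∈ ρ, MvPolynomial.X b)

/-- The minimum of the coordinates in `P`. -/
noncomputable def mn (P : Finset σ) (y : σ → ℝ) : ℝ := sInf (y '' (P : Set σ))

/-- The divisor attached to a block `P` of coordinates. -/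
noncomputable def Dv (P : Finset σ) (j : σ) (w : B → σ → ℝ) : MvPolynomial B ℝ :=
  lf fun b => w b j - mn P (w b)

/-- No coordinate of `P` is minimal on all rays of `ρ`. -/
def Full (P : Finset σ) (w : B → σ → ℝ) (ρ : Finset B) : Prop :=
  ∀ j ∈ P, ∃ b ∈ ρ, ∃ j' ∈ P, w b j' < w b j

/-- A nonzero integral in which every block is either full or gives a divisor. -/
def NCo (P : Z → Finset σ) (j : Z → σ) (w : B → σ → ℝ) (Λ : MvPolynomial B ℝ →ₗ[ℝ] ℝ) : Prop :=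
  ∃ (μ : B →₀ ℕ) (S : Finset Z), (∀ a ∉ S, Full (P a) w μ.support) ∧
    Λ (MvPolynomial.monomial μ 1 * ∏ a ∈ S, Dv (P a) (j a) w) ≠ 0

/-- The hyperplane `m` does not cut any cone. -/
def Unm (w : B → σ → ℝ) (Δ : Set (Finset B)) (m : σ → ℝ) : Prop :=
  ∀ ρ ∈ Δ, (∀ b ∈ ρ, 0 ≤ w b ⬝ᵥ m) ∨ ∀ b ∈ ρ, w b ⬝ᵥ m ≤ 0

/-- Disjoint blocks with at least two coordinates whose differences lie in `M`. -/
def PHy (M : Submodule ℝ (σ → ℝ)) (P : Z → Finset σ) (j : Z → σ) : Prop :=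
  (∀ a, j a ∈ P a ∧ 2 ≤ (P a).card) ∧ (∀ a a', a ≠ a' → Disjoint (P a) (P a')) ∧
    ∀ a, ∀ i ∈ P a, ∀ i' ∈ P a, (Pi.single i 1 - Pi.single i' 1 : σ → ℝ) ∈ M

/-- Stellar subdivision of the edge `b b'`. -/
def stel (b b' : B) (Δ : Set (Finset B)) : Set (Finset (Option B)) :=
  {ρ | ¬ (some b ∈ ρ ∧ some b' ∈ ρ) ∧ Finset.eraseNone ρ ∈ Δ ∧
    (none ∈ ρ → insert b (insert b' (Finset.eraseNone ρ)) ∈ Δ)}

/-- The rays of the stellar subdivision. -/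
def stw (b b' : B) (x y : ℝ) (w : B → σ → ℝ) (o : Option B) : σ → ℝ :=
  o.elim (x • w b + y • w b') w

end NV

/-! ### Labels and lifts -/

/-- The normalised terms. -/
noncomputable def zz (ex : α → σ → ℕ) (c : α → ℂ) (a : α) (p : YY σ) : ℂ :=
  c a * mon (ex a) p.1 * exp (-p.2)

/-- The term `a` is large and not almost negative. -/
def Va (ex : α → σ → ℕ) (c : α → ℂ) (K₀ : ℝ) (a : α) : Set (YY σ) :=
  {p | ∑ b, ‖zz ex c b p‖ < K₀ * ‖zz ex c a p‖ ∧ -‖zz ex c a p‖ / 2 < (zz ex c a p).re}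

/-- The label of a point. -/
noncomputable def lab [Nonempty α] (ex : α → σ → ℕ) (c : α → ℂ) (K₀ : ℝ) (p : YY σ) : α :=
  Classical.epsilon fun a => p ∈ Va ex c K₀ a

/-- The sheet number. -/
noncomputable def kap (ex : α → σ → ℕ) (c : α → ℂ) (a : α) (p : YY σ) (w : σ → ℝ) : ℝ :=
  rv ex a ⬝ᵥ w - p.2.im / (2 * Real.pi) - arg (zz ex c a p) / (2 * Real.pi)

/-- `w` is an argument vector of the torus point `x`. -/
def Lft (x : σ → ℂ) (w : σ → ℝ) : Prop :=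
  ∀ i, x i ≠ 0 ∧ x i = ‖x i‖ * exp (2 * Real.pi * I * w i)

/-- Coherent lifts of a tuple of points. -/
def Vld [Nonempty α] (ex : α → σ → ℕ) (c : α → ℂ) (K₀ : ℝ) {n : ℕ} (p : Fin n → YY σ)
    (w : Fin n → σ → ℝ) (k : α → ℝ) : Prop :=
  (∀ j, Lft (p j).1 (w j)) ∧ (∀ j j' i, |w j i - w j' i| < 1 / 2) ∧
    ∀ j, kap ex c (lab ex c K₀ (p j)) (p j) (w j) = k (lab ex c K₀ (p j))

/-- The character. -/
noncomputable def chi (g : α → ℝ) (E : Finset α) (k : α → ℝ) : ℂ :=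
  exp (2 * Real.pi * I * (∑ a ∈ E, g a * k a : ℝ))

/-- The vertices of a singular simplex. -/
def vtx {Y : Type} [TopologicalSpace Y] {n : ℕ} (s : C(Dl n, Y)) (j : Fin n) : Y :=
  s (stdSimplex.vertex j)

open Classical in
/-- The singular cochain. -/
noncomputable def PhM [Nonempty α] (ex : α → σ → ℕ) (c : α → ℂ) (K₀ : ℝ) (g : α → ℝ)
    (E : Finset α) (Φ : (α → ℝ) → LC ℝ (X0 α σ) →ₗ[ℝ] ℝ) : Ch ℂ (YY σ) →ₗ[ℂ] ℂ :=
  Finsupp.linearCombination ℂ fun x =>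
    if h : ∃ y : (Fin x.1 → σ → ℝ) × (α → ℝ), Vld ex c K₀ (vtx x.2) y.1 y.2 then
      chi g E h.choose.2 *
        (Φ h.choose.2 (ax ℝ fun j => (lab ex c K₀ (vtx x.2 j), h.choose.1 j)) : ℝ)
    else 0

/-- The value of the singular cochain does not depend on the lift. -/
def WD [Nonempty α] (ex : α → σ → ℕ) (c : α → ℂ) (K₀ : ℝ) (g : α → ℝ)
    (E : Finset α) (Φ : (α → ℝ) → LC ℝ (X0 α σ) →ₗ[ℝ] ℝ) : Prop :=
  ∀ (n : ℕ) (s : C(Dl n, YY σ)) (w : Fin n → σ → ℝ) (k : α → ℝ), Vld ex c K₀ (vtx s) w k →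
    PhM ex c K₀ g E Φ (sx ℂ s) =
      chi g E k * (Φ k (ax ℝ fun j => (lab ex c K₀ (vtx s j), w j)) : ℝ)

open Classical in
/-- On `S` the equation holds and the large terms form a face. -/
def NearS (ex : α → σ → ℕ) (c : α → ℂ) (K₀ : ℝ) (K : Set (Finset α)) (S : Set (YY σ)) : Prop :=
  ∀ p ∈ S, ev ex c p.1 = exp p.2 ∧
    (Finset.univ.filter fun a => ∑ b, ‖zz ex c b p‖ ≤ K₀ * ‖zz ex c a p‖) ∈ K

/-- The geometric simplex of a face. -/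
def Dτ (τ : Finset α) : Set (α → ℝ) := {β | β ∈ stdSimplex ℝ α ∧ ∀ a ∉ τ, β a = 0}

/-- The patchworking maps. -/
structure ImapP (ex : α → σ → ℕ) (c : α → ℂ) (K₀ : ℝ) (K : Set (Finset α)) (S : Set (YY σ))
    (Ψ : (α → ℝ) → (α → ℝ) → YY σ) (W : (α → ℝ) → (α → ℝ) → σ → ℝ) : Prop where
  cont : ∀ τ ∈ K, ∀ k, IsInt k → ContinuousOn (Ψ k) (Dτ τ)
  contW : ∀ k, Continuous (W k)
  maps : ∀ τ ∈ K, ∀ k, IsInt k → MapsTo (Ψ k) (Dτ τ) S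
  loc : ∀ τ ∈ K, ∀ k k' : α → ℝ, (∀ a ∈ τ, k a = k' a) → EqOn (Ψ k) (Ψ k') (Dτ τ)
  lift : ∀ k β, Lft (Ψ k β).1 (W k β)
  labk : ∀ τ ∈ K, ∀ k, IsInt k → ∀ β ∈ Dτ τ, ∀ a, Ψ k β ∈ Va ex c K₀ a →
    a ∈ τ ∧ kap ex c a (Ψ k β) (W k β) = k a

end Pool.Agent.P.MP_9321be_ag.ND.E
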