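import Pool.Agent.P.MP_9321be_ag.ND.EDefs

/-!
Exact statements of the steps of the eigenvalue part.
-/

namespace Pool.Agent.P.MP_9321be_ag.ND.E

open Pool.Agent.Lib.Helper83 Set Complex Filter Topology

/-! ### Homological glue -/

/-- Bridge to the singular homology of Mathlib. -/
def S_BR : Prop :=
  ∀ (σ : Type) [Fintype σ] [DecidableEq σ] (f : MvPolynomial σ ℂ) (lam : ℂ), lam ≠ 1 →
    Eig (fun x => MvPolynomial.eval x f) lam → IsMonodromyEigenvalue f 0 lam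

/-- Transfer of eigenclasses along a pair of maps. -/
def S_TR : Prop :=
  ∀ (Y Y' : Type) [TopologicalSpace Y] [TopologicalSpace Y'] [Nonempty Y] (T : Y → Y)
    (T' : Y' → Y') (lam : ℂ) (S₁ S₂ : Set Y) (S₁' S₂' : Set Y') (g : Y → Y') (h : Y' → Y)
    (H : Y × ℝ → Y), Continuous T' → MapsTo T' S₂' S₂' →
    ContinuousOn g S₁ → MapsTo g S₁ S₁' → ContinuousOn h S₂' → MapsTo h S₂' S₂ →
    (∀ y ∈ S₂', h (T' y) = T (h y)) → ContinuousOn H (S₁ ×ˢ Icc (0 : ℝ) 1) →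
    MapsTo H (S₁ ×ˢ Icc (0 : ℝ) 1) S₂ → (∀ x ∈ S₁, H (x, 0) = x) →
    (∀ x ∈ S₁, H (x, 1) = h (g x)) → EigOn T lam S₁ S₂ → EigOn T' lam S₁' S₂'

/-- From a cocycle on small chains to an eigenclass. -/
def S_Small : Prop :=
  ∀ (Y : Type) [TopologicalSpace Y] [Nonempty Y] (T : Y → Y) (lam : ℂ) (S₁ S₂ : Set Y)
    (N : Y → Set Y) (k M : ℕ) (Φ : Ch ℂ Y →ₗ[ℂ] ℂ), Continuous T → MapsTo T S₂ S₂ → S₁ ⊆ S₂ →
    (∀ p, IsOpen (N p)) → (∀ p ∈ S₂, p ∈ N p) → (∀ c ∈ small ℂ S₂ N (k + 2), Φ (bd c) = 0) →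
    (∀ c, Φ ((Tl T lam ^ M) c) = 0) →
    (∃ z ∈ sub ℂ S₁ (k + 1), bd z = 0 ∧ ∃ c ≠ 0, ∀ᶠ m in atTop, Φ ((Sd ^ m) z) = c) →
    EigOn T lam S₁ S₂

/-! ### Deformation -/

/-- Continuous dependence of the fixed point of a contraction. -/
def S_Root : Prop :=
  ∀ (P : Type) [TopologicalSpace P] (A : Set P) (T : P → ℂ → ℂ) (ρ : ℝ), 0 ≤ ρ →
    ContinuousOn (fun q : P × ℂ => T q.1 q.2) (A ×ˢ Metric.closedBall 0 ρ) →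
    (∀ p ∈ A, MapsTo (T p) (Metric.closedBall 0 ρ) (Metric.closedBall 0 ρ)) →
    (∀ p ∈ A, ∀ t ∈ Metric.closedBall (0 : ℂ) ρ, ∀ t' ∈ Metric.closedBall (0 : ℂ) ρ,
      ‖T p t - T p t'‖ ≤ 1 / 2 * ‖t - t'‖) →
    ∃ τ : P → ℂ, ContinuousOn τ A ∧ ∀ p ∈ A, τ p ∈ Metric.closedBall (0 : ℂ) ρ ∧ T p (τ p) = τ p

/-- Newton retraction onto the Milnor fibre. -/
def S_Retr : Prop :=
  ∀ (α σ : Type) [Fintype α] [DecidableEq α] [Fintype σ] [DecidableEq σ] (ex : α → σ → ℕ)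
    (κ B : ℝ), 0 < κ → ∃ β > 0, ∃ C > 0, ∀ (c : α → ℂ) (ε : ℝ), ‖c‖ ≤ B → NIq ex c ε κ →
    ∃ μ : YY σ → σ → ℂ, ContinuousOn μ (Ap ex c ε β) ∧ (∀ p, μ (dk p) = μ p) ∧
      ∀ p ∈ Ap ex c ε β, ev ex c (p.1 * μ p) = exp p.2 ∧ ∀ j, ‖μ p j - 1‖ ≤ 1 / 2 ∧
        ‖μ p j - 1‖ * Sm ex p.1 ≤ C * ‖ev ex c p.1 - exp p.2‖

/-- The eigenvalue property is locally constant. -/
def S_Step : Prop :=
  ∀ (α σ : Type) [Fintype α] [DecidableEq α] [Fintype σ] [DecidableEq σ] (ex : α → σ → ℕ)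
    (c : α → ℂ) (lam : ℂ), NI ex c → ∃ r > 0, ∀ c' c'' : α → ℂ, ‖c' - c‖ < r → ‖c'' - c‖ < r →
      NI ex c' ∧ (Eig (ev ex c') lam → Eig (ev ex c'') lam)

/-- Tropical compactness. -/
def S_TC : Prop :=
  ∀ (ι E J : Type) [Fintype ι] [Nonempty ι] [Fintype E] (v : ι → E → ℝ) (U : Ultrafilter J)
    (p : J → E → ℝ), ∃ (F : Finset ι) (q : J → E → ℝ) (C : ℝ), F.Nonempty ∧
      (∀ᶠ j in U, ‖q j‖ ≤ C ∧ ∀ a ∈ F, ∀ a' ∈ F, v a ⬝ᵥ (p j - q j) = v a' ⬝ᵥ (p j - q j)) ∧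
      ∀ a ∈ F, ∀ b ∉ F, Tendsto (fun j => v b ⬝ᵥ p j - v a ⬝ᵥ p j) U atTop

/-- Non-degeneracy gives the gradient inequality. -/
def S_NDNI : Prop :=
  ∀ (α σ : Type) [Fintype α] [DecidableEq α] [Fintype σ] [DecidableEq σ] (ex : α → σ → ℕ)
    (c : α → ℂ), NDc ex c → NI ex c

/-- The gradient inequality gives non-degeneracy. -/
def S_NIND : Prop :=
  ∀ (α σ : Type) [Fintype α] [DecidableEq α] [Nonempty α] [Fintype σ] [DecidableEq σ]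
    (ex : α → σ → ℕ) (c : α → ℂ), NI ex c → NDc ex c

/-- On a complex line through an interior non-degenerate point only countably many points are
degenerate. -/
def S_Path : Prop :=
  ∀ (α σ : Type) [Fintype α] [DecidableEq α] [Fintype σ] [DecidableEq σ] (ex : α → σ → ℕ)
    (c₀ c₁ : α → ℂ), (∀ᶠ t in 𝓝 (0 : ℂ), NDc ex (c₀ + t • c₁)) →
      {t : ℂ | ¬ NDc ex (c₀ + t • c₁)}.Countable

/-- The eigenvalue property is constant on non-degenerate polynomials. -/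
def S_Const : Prop :=
  ∀ (α σ : Type) [Fintype α] [DecidableEq α] [Nonempty α] [Fintype σ] [DecidableEq σ]
    (ex : α → σ → ℕ) (c₀ c₁ : α → ℂ) (lam : ℂ), NI ex c₀ → NI ex c₁ →
      Eig (ev ex c₁) lam → Eig (ev ex c₀) lam

/-! ### The triangulation -/

/-- Generic heights and sections. -/
def S_KGen : Prop :=
  ∀ (α σ : Type) [Fintype α] [DecidableEq α] [Fintype σ] [DecidableEq σ] (v : α → σ → ℝ),
    (∀ s : Finset α, LinearIndepOn ℝ v (s : Set α) →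
      ∃ h : α → ℝ, (∀ a, 0 ≤ h a) ∧ (∀ a ∈ s, h a = 0) ∧ Ind v (KK v h)) ∧
    ∀ K, Ind v K → ∃ sec, Sec v K sec

open Classical in
/-- Almost minimal exponents form a face. -/
def S_KApprox : Prop :=
  ∀ (α σ : Type) [Fintype α] [DecidableEq α] [Fintype σ] [DecidableEq σ] (ex : α → σ → ℕ)
    (h : α → ℝ) (κ : ℝ), Conv ex → 0 ≤ κ → ∃ L₀ > 0, ∀ L ≥ L₀, ∃ P : ℝ, ∀ p : σ → ℝ,
      (∀ i, P ≤ p i) → (Finset.univ.filter fun a =>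
        ∀ b, rv ex a ⬝ᵥ p + L * h a ≤ rv ex b ⬝ᵥ p + L * h b + κ) ∈ KK (rv ex) h

/-- Exact supporting weights with a uniform gap. -/
def S_KExact : Prop :=
  ∀ (α σ : Type) [Fintype α] [DecidableEq α] [Fintype σ] [DecidableEq σ] (ex : α → σ → ℕ)
    (h : α → ℝ), Conv ex → Ind (rv ex) (KK (rv ex) h) → ∃ γ > 0, ∀ L > 0, ∀ P R₀ : ℝ,
      ∃ R ≥ R₀, ∃ p : Finset α → σ → ℝ, ∀ τ ∈ KK (rv ex) h, (∀ i, P ≤ p τ i) ∧
        (∀ a ∈ τ, rv ex a ⬝ᵥ p τ + L * h a = R) ∧ ∀ a ∉ τ, R + L * γ ≤ rv ex a ⬝ᵥ p τ + L * h a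

/-- Links of interior faces are complete. -/
def S_KCl : Prop :=
  ∀ (α σ : Type) [Fintype α] [DecidableEq α] [Fintype σ] [DecidableEq σ] (ex : α → σ → ℕ)
    (h : α → ℝ), Conv ex → Ind (rv ex) (KK (rv ex) h) → Cl (rv ex) (KK (rv ex) h)

/-- Uniqueness of the facet on a side of a ridge. -/
def S_KUniq : Prop :=
  ∀ (α σ : Type) [Fintype α] [DecidableEq α] [Fintype σ] [DecidableEq σ] (v : α → σ → ℝ)
    (h : α → ℝ), Ind v (KK v h) → Uniq v (KK v h)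

/-- The boundary of the fundamental chain lies in the coordinate hyperplanes. -/
def S_Zc : Prop :=
  ∀ (α σ : Type) [Fintype α] [DecidableEq α] [Fintype σ] [DecidableEq σ] (v : α → σ → ℝ)
    (K : Set (Finset α)) (d : ℕ) (e : Fin (d + 1) ≃ σ), Cx v K →
    abd (zc e v K) ∈ Finsupp.supported ℝ ℝ {x : Ax α | x.1 = d ∧ Finset.univ.image x.2 ∈ K ∧
      ¬ Intr v (Finset.univ.image x.2)}

/-- Large terms of the patchworking polynomial form a face, and it satisfies the gradient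
inequality. -/
def S_Near : Prop :=
  ∀ (α σ : Type) [Fintype α] [DecidableEq α] [Fintype σ] [DecidableEq σ] (ex : α → σ → ℕ)
    (h : α → ℝ) (K₀ : ℝ), Conv ex → Ind (rv ex) (KK (rv ex) h) → 0 < K₀ → ∃ L₀ > 0, ∀ L ≥ L₀,
      NI ex (vc h L) ∧ ∃ ε > 0, ∀ δ,
        NearS ex (vc h L) K₀ (KK (rv ex) h) (Mset (ev ex (vc h L)) ε δ)

/-! ### The formal cocycle -/

/-- The properties of the straightening chains. -/
def S_G : Prop :=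
  ∀ (α σ : Type) [Fintype α] [DecidableEq α] [Fintype σ] [DecidableEq σ] (q p : ℕ)
    (r : Fin p → α),
    (0 < p → ∀ c : LC ℝ (X0 α σ), abd (GG (q + 1) p r c) = RH0 q (GG q) p r c) ∧
    (¬ Function.Injective r → ∀ c : LC ℝ (X0 α σ), GG q p r c = 0) ∧
    (∀ (τ : Finset α) (j : ℕ), ∀ c ∈ lsub ℝ (labIn σ τ) j,
      GG q p r c ∈ lsub ℝ {y : Sy α σ | Finset.univ.image r ⊆ y.1 ∧ y.1 ⊆ τ} q) ∧
    ∀ (m : σ → ℝ) (c : LC ℝ (X0 α σ)), GG q p r (amap (fun x : X0 α σ => (x.1, x.2 + m)) c) =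
      amap (fun y : Sy α σ => (y.1, y.2 + m)) (GG q p r c)

/-- The formal cocycle has the required properties. -/
def S_Phi : Prop :=
  ∀ (α σ : Type) [Fintype α] [DecidableEq α] [Fintype σ] [DecidableEq σ] (v : α → σ → ℝ)
    (K : Set (Finset α)) (sec : Finset α → (α → ℝ) →ₗ[ℝ] (σ → ℝ)) (p q : ℕ) (r : Fin p → α)
    (u : Fin q → σ → ℝ), (∀ τ ∈ K, ∀ ρ ⊆ τ, ρ ∈ K) → Ind v K → Sec v K sec → 0 < p →
    ⊤ ≤ Submodule.span ℝ (range u ∪ range (v ∘ r)) →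
    PhiP v K (Finset.univ.image r) q (Ph v sec r u)

/-- The mixed differences of the formal cocycle on a facet. -/
def S_Val : Prop :=
  ∀ (α σ : Type) [Fintype α] [DecidableEq α] [Fintype σ] [DecidableEq σ] (v : α → σ → ℝ)
    (K : Set (Finset α)) (sec : Finset α → (α → ℝ) →ₗ[ℝ] (σ → ℝ)) (p q n : ℕ) (e : Fin n ≃ σ)
    (r : Fin p → α) (u : Fin q → σ → ℝ), (∀ τ ∈ K, ∀ ρ ⊆ τ, ρ ∈ K) → Ind v K → Sec v K sec →
    0 < p → p + q = n → ⊤ ≤ Submodule.span ℝ (range u ∪ range (v ∘ r)) →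
    ValP e v K (Finset.univ.image r) (Ph v sec r u)

/-- Acyclic carrier lemma for the fundamental chain. -/
def S_Carr : Prop :=
  ∀ (α σ : Type) [Fintype α] [DecidableEq α] [Fintype σ] [DecidableEq σ] (v : α → σ → ℝ)
    (K : Set (Finset α)) (d : ℕ) (e : Fin (d + 1) ≃ σ) (τ₀ : Finset α) (q : ℕ)
    (Φ : (α → ℝ) → LC ℝ (X0 α σ) →ₗ[ℝ] ℝ) (A : LC ℝ α →ₗ[ℝ] LC ℝ (X0 α σ)),
    Cx v K → Intr v τ₀ → PhiP v K τ₀ q Φ → (∀ c, abd (A c) = A (abd c)) →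
    (∀ t : Fin 0 → α, A (ax ℝ t) = 0) →
    (∀ τ ∈ K, ∀ j, ∀ c ∈ lsub ℝ (τ : Set α) j, A c ∈ lsub ℝ (labIn σ τ) j) →
    ∀ k, Φ k (A (zc e v K)) = 0

/-! ### Stresses -/

/-- The top degree part of a polynomial function as a functional. -/
def S_Top : Prop :=
  ∀ (α : Type) [Fintype α] [DecidableEq α] (P : MvPolynomial α ℝ) (q : ℕ), P.totalDegree ≤ q →
    ∃ Λ : MvPolynomial α ℝ →ₗ[ℝ] ℝ,
      (∀ μ : Multiset α, μ.card = q → ∀ k,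
        Dm μ (fun k => MvPolynomial.eval k P) k = Λ (μ.map MvPolynomial.X).prod) ∧
      (∀ μ : Multiset α, μ.card ≠ q → Λ (μ.map MvPolynomial.X).prod = 0) ∧
      ∀ y : α → ℝ, (∀ (k : α → ℝ) (t : ℝ),
        MvPolynomial.eval (k + t • y) P = MvPolynomial.eval k P) → ∀ f, Λ (lf y * f) = 0

/-- The stress defined by the formal cocycle. -/
def S_Stress : Prop :=
  ∀ (α σ : Type) [Fintype α] [DecidableEq α] [Fintype σ] [DecidableEq σ] (v : α → σ → ℝ)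
    (K : Set (Finset α)) (d : ℕ) (e : Fin (d + 1) ≃ σ) (τ₀ : Finset α) (q : ℕ)
    (Φ : (α → ℝ) → LC ℝ (X0 α σ) →ₗ[ℝ] ℝ), Cx v K → Intr v τ₀ → τ₀.card + q = d + 1 →
    PhiP v K τ₀ q Φ → ValP e v K τ₀ Φ → ∃ Λ, StP v K τ₀ Λ ∧ ∀ μ : Multiset α,
      Λ (μ.map MvPolynomial.X).prod ≠ 0 → ∃ c ≠ 0, ∀ k, Dm μ (NN e v K Φ) k = c

/-- The non-vanishing statement when no cone is cut. -/
def S_NVBase : Prop :=
  ∀ (B Z σ : Type) [Fintype B] [DecidableEq B] [Fintype Z] [DecidableEq Z] [Fintype σ]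
    [DecidableEq σ] (M : Submodule ℝ (σ → ℝ)) (w : B → σ → ℝ) (Δ : Set (Finset B))
    (Λ : MvPolynomial B ℝ →ₗ[ℝ] ℝ) (P : Z → Finset σ) (j : Z → σ), NOk M w Δ Λ → PHy M P j →
    (∀ a, ∀ i ∈ P a, ∀ i' ∈ P a, Unm w Δ (Pi.single i 1 - Pi.single i' 1)) → NCo P j w Λ

/-- Stellar subdivision: geometry. -/
def S_NVGeo : Prop :=
  ∀ (B σ : Type) [Fintype B] [DecidableEq B] [Fintype σ] [DecidableEq σ]
    (M : Submodule ℝ (σ → ℝ)) (w : B → σ → ℝ) (Δ : Set (Finset B))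
    (Λ : MvPolynomial B ℝ →ₗ[ℝ] ℝ) (b b' : B) (x y : ℝ), NOk M w Δ Λ → b ≠ b' → 0 < x → 0 < y →
    ∀ ρ ∈ stel b b' Δ, ∀ z : σ → ℝ, ∃ τ ∈ stel b b' Δ, ρ ⊆ τ ∧ ∃ t : Option B → ℝ,
      (∀ o ∉ ρ, 0 ≤ t o) ∧ (∀ o ∉ τ, t o = 0) ∧
      ∀ m ∈ M, z ⬝ᵥ m = ∑ o, t o * (stw b b' x y w o ⬝ᵥ m)

/-- Stellar subdivision: the functional and the descent of the conclusion. -/
def S_NVStep : Prop :=
  ∀ (B σ : Type) [Fintype B] [DecidableEq B] [Fintype σ] [DecidableEq σ]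
    (M : Submodule ℝ (σ → ℝ)) (w : B → σ → ℝ) (Δ : Set (Finset B))
    (Λ : MvPolynomial B ℝ →ₗ[ℝ] ℝ) (b b' : B) (x y : ℝ), NOk M w Δ Λ → b ≠ b' → 0 < x → 0 < y →
    ∃ Λ', NOk M (stw b b' x y w) (stel b b' Δ) Λ' ∧
      ∀ (Z : Type) [Fintype Z] [DecidableEq Z] (P : Z → Finset σ) (j : Z → σ), (∀ a, j a ∈ P a) →
        NCo P j (stw b b' x y w) Λ' → NCo P j w Λ

/-- The non-vanishing statement. -/
def S_NV : Prop :=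
  ∀ (B Z σ : Type) [Fintype B] [DecidableEq B] [Fintype Z] [DecidableEq Z] [Fintype σ]
    [DecidableEq σ] (M : Submodule ℝ (σ → ℝ)) (w : B → σ → ℝ) (Δ : Set (Finset B))
    (Λ : MvPolynomial B ℝ →ₗ[ℝ] ℝ) (P : Z → Finset σ) (j : Z → σ), NOk M w Δ Λ → PHy M P j →
    NCo P j w Λ

/-- The two-colouring argument. -/
def S_NVApp : Prop :=
  ∀ (α σ : Type) [Fintype α] [DecidableEq α] [Fintype σ] [DecidableEq σ] (ex : α → σ → ℕ)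
    (K : Set (Finset α)) (s E τ₀ : Finset α) (g : α → ℝ) (Λ : MvPolynomial α ℝ →ₗ[ℝ] ℝ),
    Cx (rv ex) K → s ∈ K → (∀ i, ∑ a ∈ s, g a * ex a i = 1) →
    (∀ a, a ∈ E ↔ a ∈ s ∧ ∀ z : ℤ, g a ≠ z) →
    (∀ a, a ∈ τ₀ ↔ a ∈ s ∧ ∀ z : ℤ, z ≤ 0 → g a ≠ z) →
    (∀ a ∈ s, ∀ i, ex a i = 1 → (∀ b ∈ s, b ≠ a → ex b i = 0) →
      ∃ j, j ≠ i ∧ ex a j ≠ 0 ∧ ∀ b ∈ s, b ≠ a → ex b j = 0) →
    StP (rv ex) K τ₀ Λ → ∃ μ : Multiset α, Λ (μ.map MvPolynomial.X).prod ≠ 0 ∧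
      (∀ a ∈ μ, a ∉ E) ∧ Intr (rv ex) (μ.toFinset ∪ E)

/-! ### The patchworking polynomial -/

/-- Independence of the lift and nilpotence. -/
def S_SingA : Prop :=
  ∀ (α σ : Type) [Fintype α] [DecidableEq α] [Nonempty α] [Fintype σ] [DecidableEq σ]
    (ex : α → σ → ℕ) (c : α → ℂ) (K₀ : ℝ) (K : Set (Finset α)) (τ₀ E : Finset α) (g : α → ℝ)
    (q : ℕ) (Φ : (α → ℝ) → LC ℝ (X0 α σ) →ₗ[ℝ] ℝ), PhiP (rv ex) K τ₀ q Φ → τ₀.Nonempty →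
    E ⊆ τ₀ → (∀ i, ∃ z : ℤ, ∑ a ∈ E, g a * ex a i = z) → WD ex c K₀ g E Φ ∧
      ∀ x, PhM ex c K₀ g E Φ
        ((Tl dk (exp (-(2 * Real.pi * I * (∑ a ∈ E, g a : ℝ)))) ^ (q + 1)) x) = 0

/-- Local structure of the labels. -/
def S_SingB : Prop :=
  ∀ (α σ : Type) [Fintype α] [DecidableEq α] [Nonempty α] [Fintype σ] [DecidableEq σ]
    (ex : α → σ → ℕ) (h : α → ℝ) (L K₀ : ℝ) (K : Set (Finset α)) (S : Set (YY σ)),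
    3 * (Fintype.card α : ℝ) ≤ K₀ → NearS ex (vc h L) K₀ K S →
    ∀ p ∈ S, ∃ N : Set (YY σ), IsOpen N ∧ p ∈ N ∧ ∃ τ ∈ K,
      (∀ p' ∈ S ∩ N, lab ex (vc h L) K₀ p' ∈ τ) ∧
      (Intr (rv ex) τ → ∃ (w : YY σ → σ → ℝ) (k : α → ℝ), ∀ (n : ℕ) (t : Fin n → YY σ),
        (∀ j, t j ∈ S ∩ N) → Vld ex (vc h L) K₀ t (w ∘ t) k)

/-- The singular cochain is a cocycle on small chains. -/
def S_SingC : Prop :=
  ∀ (α σ : Type) [Fintype α] [DecidableEq α] [Nonempty α] [Fintype σ] [DecidableEq σ]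
    (ex : α → σ → ℕ) (h : α → ℝ) (L K₀ : ℝ) (K : Set (Finset α)) (S : Set (YY σ))
    (τ₀ E : Finset α) (g : α → ℝ) (q : ℕ) (Φ : (α → ℝ) → LC ℝ (X0 α σ) →ₗ[ℝ] ℝ),
    3 * (Fintype.card α : ℝ) ≤ K₀ → NearS ex (vc h L) K₀ K S → PhiP (rv ex) K τ₀ q Φ →
    Intr (rv ex) τ₀ → WD ex (vc h L) K₀ g E Φ →
    ∃ N : YY σ → Set (YY σ), (∀ p, IsOpen (N p)) ∧ (∀ p ∈ S, p ∈ N p) ∧
      ∀ n, ∀ x ∈ small ℂ S N n, PhM ex (vc h L) K₀ g E Φ (bd x) = 0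

/-- Construction of the patchworking maps. -/
def S_Imap : Prop :=
  ∀ (α σ : Type) [Fintype α] [DecidableEq α] [Fintype σ] [DecidableEq σ] (ex : α → σ → ℕ)
    (h : α → ℝ) (K₀ : ℝ), Conv ex → Ind (rv ex) (KK (rv ex) h) → (Fintype.card α : ℝ) ≤ K₀ →
    ∃ L₀ > 0, ∀ L ≥ L₀, ∀ ε > 0, ∀ δ > 0, ∃ Ψ W,
      ImapP ex (vc h L) K₀ (KK (rv ex) h) (Mset (ev ex (vc h L)) ε δ) Ψ W

/-- Evaluation of the singular cochain on one sheet. -/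
def S_CycA : Prop :=
  ∀ (α σ : Type) [Fintype α] [DecidableEq α] [Nonempty α] [Fintype σ] [DecidableEq σ]
    (ex : α → σ → ℕ) (c : α → ℂ) (K₀ : ℝ) (K : Set (Finset α)) (S : Set (YY σ)) (d : ℕ)
    (e : Fin (d + 1) ≃ σ) (τ₀ E : Finset α) (g : α → ℝ) (q : ℕ)
    (Φ : (α → ℝ) → LC ℝ (X0 α σ) →ₗ[ℝ] ℝ) (Ψ : (α → ℝ) → (α → ℝ) → YY σ)
    (W : (α → ℝ) → (α → ℝ) → σ → ℝ), 3 * (Fintype.card α : ℝ) ≤ K₀ →
    (∀ p ∈ S, ev ex c p.1 = exp p.2) → Cx (rv ex) K → Intr (rv ex) τ₀ →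
    PhiP (rv ex) K τ₀ q Φ → WD ex c K₀ g E Φ → ImapP ex c K₀ K S Ψ W → ∀ k, IsInt k →
    ∀ᶠ m in atTop, PhM ex c K₀ g E Φ ((Sd ^ m) (push (Ψ k) (affL (amap (fun a => Pi.single a 1)
      (Finsupp.mapRange (fun x : ℝ => (x : ℂ)) rfl (zc e (rv ex) K)))))) =
        chi g E k * (NN e (rv ex) K Φ k : ℝ)

/-- The cycle. -/
def S_Cyc : Prop :=
  ∀ (α σ : Type) [Fintype α] [DecidableEq α] [Nonempty α] [Fintype σ] [DecidableEq σ]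
    (ex : α → σ → ℕ) (c : α → ℂ) (K₀ : ℝ) (K : Set (Finset α)) (S : Set (YY σ)) (d : ℕ)
    (e : Fin (d + 1) ≃ σ) (τ₀ E : Finset α) (g : α → ℝ) (q : ℕ)
    (Φ : (α → ℝ) → LC ℝ (X0 α σ) →ₗ[ℝ] ℝ) (Ψ : (α → ℝ) → (α → ℝ) → YY σ)
    (W : (α → ℝ) → (α → ℝ) → σ → ℝ) (μ : Multiset α), 3 * (Fintype.card α : ℝ) ≤ K₀ →
    (∀ p ∈ S, ev ex c p.1 = exp p.2) → Cx (rv ex) K → Intr (rv ex) τ₀ →
    PhiP (rv ex) K τ₀ q Φ → WD ex c K₀ g E Φ → ImapP ex c K₀ K S Ψ W →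
    (∀ a ∈ E, ∀ z : ℤ, g a ≠ z) → (∀ a ∈ μ, a ∉ E) → Intr (rv ex) (μ.toFinset ∪ E) →
    (∃ c₀ ≠ 0, ∀ k, Dm μ (NN e (rv ex) K Φ) k = c₀) →
    ∃ z ∈ sub ℂ S (d + 1), bd z = 0 ∧
      ∃ c₁ ≠ 0, ∀ᶠ m in atTop, PhM ex c K₀ g E Φ ((Sd ^ m) z) = c₁

end Pool.Agent.P.MP_9321be_ag.ND.E
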