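import Pool.Agent.P.MP_9321be_ag.ND.ZIface
import Pool.Agent.P.MP_9321be_ag.ND.ZBasic
import Pool.Agent.P.MP_9321be_ag.Mono

/-!
The monodromy conjecture from the steps.
-/

namespace Pool.Agent.P.MP_9321be_ag.ND

open MvPolynomial

theorem glue (hAlg : S_Alg) (hGen : S_Gen) (hLink : S_Link) (hCover : S_Cover) (hHB : S_HB)
    (hE : S_E) {σ : Type} [Fintype σ] [DecidableEq σ] (f : MvPolynomial σ ℂ)
    (h0 : coeff 0 f = 0) (hc : Convenient f) (hn : Nondeg f)
    (hB : ∀ X ⊆ f.support, ∀ u : σ → ℚ, (∀ i, 0 < u i) → (∀ a ∈ X, ∑ i, vec a i * u i = 1) →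
      ClaimAt X) : MonodromyConjecture f := by
  obtain ⟨i₀, -⟩ := hn (fun _ => 1) (fun _ => one_pos) (fun _ => 1) fun _ => one_ne_zero
  have hA : ConvA f.support := by
    refine ⟨?_, by simpa using h0, fun i => ?_⟩
    · obtain ⟨k, -, hk⟩ := hc i₀
      exact ⟨_, mem_support_iff.2 hk⟩
    · obtain ⟨k, -, hk⟩ := hc i
      exact ⟨k, mem_support_iff.2 hk⟩
  have hf : f ≠ 0 := by
    rintro rfl
    simpa using hA.1
  have e0 : eval (0 : σ → ℂ) f = 0 := by simpa [constantCoeff_eq] using h0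
  have key : ∀ α : ℚ, α ≠ 1 → HB f.support α → Rt lefInv (· ≠ α) (zeta f) := fun α h1 h2 => by
    obtain ⟨Γ, g1, g2⟩ := hGen σ f.support α h1
    rw [hLink σ f]
    exact hCover σ f α Γ ⟨hA, hn, g1, g2⟩ h2
  have hint : ∀ k : ℤ, IsMonodromyEigenvalue f 0
      (Complex.exp (-(2 * Real.pi * Complex.I * ((k : ℚ) : ℂ)))) := fun k => by
    have : Complex.exp (-(2 * Real.pi * Complex.I * ((k : ℚ) : ℂ))) = 1 := by
      rw [← Complex.exp_int_mul_two_pi_mul_I (-k)]
      congr 1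
      push_cast
      ring
    rw [this]
    exact isMonodromyEigenvalue_one hf e0
  have hu : IsUnit lefInv := IsUnit.of_mul_eq_one_right _ (IsLocalization.Away.mul_invSelf lef)
  have main := hAlg MM lefInv hu
    (fun α => IsMonodromyEigenvalue f 0 (Complex.exp (-(2 * Real.pi * Complex.I * α))))
    (by simpa using hint 1) (zeta f) (fun α hα => ?_) ?_
  · obtain ⟨S, h1, h2⟩ := main
    refine fun U hU => ⟨S, fun q hq => ⟨(h1 q hq).1, (h1 q hq).2.1⟩, h2, fun q hq =>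
      ⟨0, mem_of_mem_nhds hU, e0, ?_⟩⟩
    convert (h1 q hq).2.2 using 3
    push_cast
    ring
  · have hk : ∀ k : ℤ, α ≠ k := fun k e => hα (e ▸ hint k)
    refine key α (by simpa using hk 1) (hHB σ _ α hA hB fun u hu s hs hcs => ?_)
    by_contra hcon
    exact hα (hE σ f h0 hc hn u s α hu.2.1 hs hcs (fun a ha => hcon ⟨a, ha⟩) hu.2.2.1 hk)
  · refine (key (-1) (by norm_num) fun X u hu => ?_).mono fun _ _ => trivial
    have := Finset.sum_nonneg fun i (_ : i ∈ Finset.univ) => hu.1 i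
    rw [hu.2.2.1] at this
    norm_num at this

end Pool.Agent.P.MP_9321be_ag.ND
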