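import Pool.Agent.P.MP_9321be_ag.ND.ZIface

/-!
Closure properties of rational series with prescribed slopes.
-/

namespace Pool.Agent.P.MP_9321be_ag.ND

open PowerSeries

variable {R : Type 1} [CommRing R] {u : R} {P Q : ℚ → Prop} {G G' : PowerSeries R}

theorem rationalWith_mono {S S' : Finset (ℕ × ℕ)} (h : S ⊆ S') (hG : RationalWith u S G) :
    RationalWith u S' G := by
  refine Algebra.adjoin_mono (Set.union_subset_union_right _ ?_) hG
  exact fun _ ⟨q, a, b⟩ => ⟨q, h a, b⟩

theorem Rt.mono (h : Rt u P G) (hP : ∀ x, P x → Q x) : Rt u Q G := by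
  obtain ⟨S, h1, h2⟩ := h
  exact ⟨S, fun q hq => ⟨(h1 q hq).1, (h1 q hq).2.1, hP _ (h1 q hq).2.2⟩, h2⟩

theorem Rt.op (op : PowerSeries R → PowerSeries R → PowerSeries R)
    (hop : ∀ (A : Subalgebra R (PowerSeries R)) a b, a ∈ A → b ∈ A → op a b ∈ A)
    (h : Rt u P G) (h' : Rt u P G') : Rt u P (op G G') := by
  classical
  obtain ⟨S, h1, h2⟩ := h
  obtain ⟨S', h1', h2'⟩ := h'
  exact ⟨S ∪ S', fun q hq => (Finset.mem_union.1 hq).elim (h1 q) (h1' q),
    hop _ _ _ (rationalWith_mono Finset.subset_union_left h2)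
      (rationalWith_mono Finset.subset_union_right h2')⟩

theorem Rt.add (h : Rt u P G) (h' : Rt u P G') : Rt u P (G + G') :=
  h.op (· + ·) (fun _ _ _ => add_mem) h'

theorem Rt.sub (h : Rt u P G) (h' : Rt u P G') : Rt u P (G - G') :=
  h.op (· - ·) (fun _ _ _ => sub_mem) h'

theorem Rt.mul (h : Rt u P G) (h' : Rt u P G') : Rt u P (G * G') :=
  h.op (· * ·) (fun _ _ _ => mul_mem) h'

theorem rt_C (c : R) : Rt u P (C c) := ⟨∅, by simp, Subalgebra.algebraMap_mem _ c⟩

theorem rt_X : Rt u P (X : PowerSeries R) := ⟨∅, by simp, Algebra.subset_adjoin (Or.inl rfl)⟩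

theorem rt_zero : Rt u P (0 : PowerSeries R) := by simpa using rt_C (u := u) (P := P) 0

theorem rt_one : Rt u P (1 : PowerSeries R) := by simpa using rt_C (u := u) (P := P) 1

theorem Rt.C_mul (h : Rt u P G) (c : R) : Rt u P (C c * G) := (rt_C c).mul h

theorem Rt.pow (h : Rt u P G) (k : ℕ) : Rt u P (G ^ k) := by
  induction k with
  | zero => simpa using rt_one
  | succ k ih => rw [pow_succ]; exact ih.mul h

theorem rt_sum {ι : Type*} (s : Finset ι) {F : ι → PowerSeries R} (h : ∀ i ∈ s, Rt u P (F i)) :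
    Rt u P (∑ i ∈ s, F i) :=
  Finset.sum_induction F (Rt u P) (fun _ _ => Rt.add) rt_zero h

theorem rt_poly (p : Polynomial R) : Rt u P (p : PowerSeries R) := by
  induction p using Polynomial.induction_on' with
  | add p q hp hq => simpa using hp.add hq
  | monomial k a =>
    rw [← Polynomial.C_mul_X_pow_eq_monomial]
    simpa using (rt_X.pow k).C_mul a

/-- A series with finitely many nonzero coefficients. -/
theorem rt_of_eventually_zero {l₀ : ℕ} (h : ∀ l, l₀ ≤ l → coeff l G = 0) : Rt u P G := by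
  have : G = (trunc l₀ G : Polynomial R) := by
    ext l
    rw [Polynomial.coeff_coe, coeff_trunc]
    split_ifs with hl
    · rfl
    · exact h l (not_lt.1 hl)
  rw [this]
  exact rt_poly _

/-- Finitely many coefficients do not matter. -/
theorem Rt.congr_ev (h : Rt u P G) {l₀ : ℕ} (e : ∀ l, l₀ ≤ l → coeff l G' = coeff l G) :
    Rt u P G' := by
  have := h.add (rt_of_eventually_zero (G := G' - G) (l₀ := l₀) fun l hl => by simp [e l hl])
  simpa using this

/-- Division by an allowed denominator. -/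
theorem Rt.of_mul {m s : ℕ} (hm : 0 < m) (hs : 0 < s) (hP : P ((s : ℚ) / m))
    (h : Rt u P ((1 - C (u ^ s) * X ^ m) * G)) : Rt u P G := by
  have hg := PowerSeries.mul_invOfUnit (1 - C (u ^ s) * X ^ m : PowerSeries R) 1
    (by simp [hm.ne'])
  set g := invOfUnit (1 - C (u ^ s) * X ^ m : PowerSeries R) 1
  have h1 : Rt u P g := ⟨{(m, s)}, by simp [hm, hs, hP],
    Algebra.subset_adjoin (Or.inr ⟨(m, s), by simp, hg⟩)⟩
  have := h1.mul h
  rwa [← mul_assoc, mul_comm g, hg, one_mul] at this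

end Pool.Agent.P.MP_9321be_ag.ND
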