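import Pool.Agent.P.MP_9321be_ag.Trunc
import Pool.Agent.P.MP_9321be_ag.ND.Defs
import Pool.Agent.P.MP_9321be_ag.ND.Comb

/-!
Definitions for the zeta function part.
-/

namespace Pool.Agent.P.MP_9321be_ag.ND

open MvPolynomial

/-- `G` is rational with denominators `1 - u ^ s * T ^ m` whose slopes `s / m` satisfy `P`. -/
def Rt {R : Type 1} [CommRing R] (u : R) (P : ℚ → Prop) (G : PowerSeries R) : Prop :=
  ∃ S : Finset (ℕ × ℕ), (∀ q ∈ S, 0 < q.1 ∧ 0 < q.2 ∧ P ((q.2 : ℚ) / q.1)) ∧ RationalWith u S G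

variable {σ : Type} [Fintype σ] [DecidableEq σ]

/-- Pairing of an exponent with an integral weight. -/
def dn (a : σ →₀ ℕ) (v : σ → ℕ) : ℕ := ∑ i, a i * v i

/-- Pairing of an exponent with a real weight. -/
def dr (a : σ →₀ ℕ) (u : σ → ℝ) : ℝ := ∑ i, (a i : ℝ) * u i

/-- The minimal weight. -/
noncomputable def nn (A : Finset (σ →₀ ℕ)) (v : σ → ℕ) : ℕ := sInf ((fun a => dn a v) '' A)

/-- The exponents of minimal weight. -/
noncomputable def fc (A : Finset (σ →₀ ℕ)) (v : σ → ℕ) : Finset (σ →₀ ℕ) :=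
  A.filter fun a => dn a v = nn A v

open Classical in
/-- The exponents of weight one. -/
noncomputable def fr (A : Finset (σ →₀ ℕ)) (u : σ → ℝ) : Finset (σ →₀ ℕ) :=
  A.filter fun a => dr a u = 1

/-- A nonempty convenient set of nonzero exponents. -/
def ConvA (A : Finset (σ →₀ ℕ)) : Prop :=
  A.Nonempty ∧ 0 ∉ A ∧ ∀ i, ∃ k, Finsupp.single i k ∈ A

/-- The dangerous weights for the slope `α`. -/
def Kset (A : Finset (σ →₀ ℕ)) (α : ℚ) : Set (σ → ℝ) :=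
  {u | (∀ i, 0 ≤ u i) ∧ (∀ a ∈ A, 1 ≤ dr a u) ∧ ∑ i, u i = α ∧
    (fun _ => 1 : σ → ℚ) ∈ Submodule.span ℚ (vec '' (fr A u : Set (σ →₀ ℕ)))}

/-- Each `Γ i` is dense. -/
def Dns {ι : Type} (Γ : ι → Set ℚ) : Prop :=
  ∀ i, ∀ x y : ℝ, x < y → ∃ γ ∈ Γ i, x < (γ : ℝ) ∧ (γ : ℝ) < y

/-- Genericity of the walls. -/
def Gen (A : Finset (σ →₀ ℕ)) (α : ℚ) (Γ : Option σ → Set ℚ) : Prop :=
  ∀ (r : σ → ℚ) (N : ℚ) (lam : (σ →₀ ℕ) → ℚ) (κ : σ → ℚ) (μ : ℚ),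
    (∀ a ∈ A, lam a ≠ 0 → ∑ i, vec a i * r i = N) →
    (∀ j, κ j ≠ 0 → r j ∈ Γ (some j) ∨ r j = 0) →
    (μ ≠ 0 → N ∈ Γ none ∨ N = 0 ∨ N = 1) →
    (∀ i, ∑ a ∈ A, lam a * vec a i + κ i = 1) → ∑ a ∈ A, lam a - μ = 1 →
    ∑ i, r i - N = α - 1 →
    N = 1 ∧ ∃ (lam' : (σ →₀ ℕ) → ℚ) (κ' : σ → ℚ),
      (∀ a ∈ A, lam' a ≠ 0 → ∑ i, vec a i * r i = N) ∧ (∀ j, κ' j ≠ 0 → r j = 0) ∧
      ∀ i, ∑ a ∈ A, lam' a * vec a i + κ' i = 1

/-- Admissible wall data for a polyhedral cell; the index `none` refers to the minimal weight. -/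
def WallOK (Γ : Option σ → Set ℚ) (lo hi : Option σ → ℚ) : Prop :=
  (∀ j, (lo (some j) ∈ Γ (some j) ∨ lo (some j) = 0) ∧ hi (some j) ∈ Γ (some j)) ∧
    (lo none ∈ Γ none ∨ lo none = 0 ∨ lo none = 1) ∧ (hi none ∈ Γ none ∨ hi none = 1) ∧
    0 ≤ lo none

/-- The closure of the cell does not meet the dangerous set. -/
def NoK (A : Finset (σ →₀ ℕ)) (α : ℚ) (lo hi : Option σ → ℚ) : Prop :=
  ∀ r ∈ Kset A α, (∀ j, (lo (some j) : ℝ) ≤ r j ∧ r j ≤ hi (some j)) → lo none ≤ 1 →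
    1 ≤ hi none → False

/-- The wall conditions on a weight `v`, a number `N` and the order `l`. -/
def Walls (lo hi : Option σ → ℚ) (κ : Option σ → ℕ) (l : ℕ) (v : σ → ℕ) (N : ℕ) : Prop :=
  (∀ j, 1 ≤ v j ∧ lo (some j) * l ≤ v j ∧ (v j : ℚ) < hi (some j) * l + κ (some j)) ∧
    lo none * l ≤ N ∧ (N : ℚ) < hi none * l + κ none

/-- The lattice points of a polyhedral cell at level `l`. -/
def cellSet (A F : Finset (σ →₀ ℕ)) (lo hi : Option σ → ℚ) (κ : Option σ → ℕ) (l : ℕ) :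
    Set ((σ → ℕ) × ℕ) :=
  {p | Walls lo hi κ l p.1 p.2 ∧ p.2 ≤ l ∧ (∀ a ∈ F, dn a p.1 = p.2) ∧
    ∀ a ∈ A, a ∉ F → p.2 < dn a p.1}

/-- The part of `f` supported on `F`. -/
noncomputable def fp (f : MvPolynomial σ ℂ) (F : Finset (σ →₀ ℕ)) : MvPolynomial σ ℂ :=
  ∑ a ∈ F, monomial a (coeff a f)

/-- The zero set of `g` is smooth where the coordinates outside `I` do not vanish. -/
def Smooth (g : MvPolynomial σ ℂ) (I : Finset σ) : Prop :=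
  ∀ p : σ → ℂ, (∀ i ∉ I, p i ≠ 0) → eval p g = 0 → ∃ j, eval p (pderiv j g) ≠ 0

/-- `y` has order exactly `l`. -/
def ordEq {M : ℕ} (l : ℕ) (y : TR M) : Prop := tt M ^ l ∣ y ∧ ¬ tt M ^ (l + 1) ∣ y

/-- Order at least `v i` for `i ∈ I` and exactly `v i` for `i ∉ I`. -/
def inCell {M : ℕ} (v : σ → ℕ) (I : Finset σ) (x : σ → TR M) : Prop :=
  ∀ i, tt M ^ v i ∣ x i ∧ (i ∉ I → ¬ tt M ^ (v i + 1) ∣ x i)

/-- The measure of the jets in a cell along which `f` has order `l`. -/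
noncomputable def hval (f : MvPolynomial σ ℂ) (I : Finset σ) (l : ℕ) (v : σ → ℕ) : MM :=
  if l < nn f.support v then 0
  else lefInv ^ (∑ i, v i + l - nn f.support v) *
    if l = nn f.support v then
      pr {p : σ → ℂ | (∀ i ∉ I, p i ≠ 0) ∧ eval p (fp f (fc f.support v)) ≠ 0}
    else (algebraMap K0 MM lef - 1) *
      pr {p : σ → ℂ | (∀ i ∉ I, p i ≠ 0) ∧ eval p (fp f (fc f.support v)) = 0}

/-- The part of the zeta function coming from the jets that satisfy `W`. -/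
noncomputable def Zs (f : MvPolynomial σ ℂ) (W : ∀ l : ℕ, (σ → TR (2 * l)) → Prop) :
    PowerSeries MM :=
  PowerSeries.mk fun l => if l = 0 then 0 else
    pr {x : σ → TR (2 * l) | (∀ i, tt (2 * l) ∣ x i) ∧ ordEq l (aeval x f) ∧ W l x}

/-- Integral threshold of a wall. -/
def th (γ : ℚ) (l : ℕ) : ℕ := ⌈γ * l⌉₊

/-- The orders of the coordinates lie in the box `[lo * l, hi * l)`. -/
def inBox (lo : σ → ℚ) (hi : σ → WithTop ℚ) (l : ℕ) (x : σ → TR (2 * l)) : Prop :=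
  ∀ j, tt (2 * l) ^ th (lo j) l ∣ x j ∧ ∀ γ : ℚ, hi j = γ → ¬ tt (2 * l) ^ th γ l ∣ x j

/-- All monomials have order at least `θ * l`. -/
def nGe (A : Finset (σ →₀ ℕ)) (θ : ℚ) (l : ℕ) (x : σ → TR (2 * l)) : Prop :=
  ∀ a ∈ A, tt (2 * l) ^ th θ l ∣ ∏ i, x i ^ a i

/-- Admissible boxes. -/
def BoxOK (Γ : Option σ → Set ℚ) (lo : σ → ℚ) (hi : σ → WithTop ℚ) : Prop :=
  ∀ j, (lo j ∈ Γ (some j) ∨ lo j = 0) ∧ 0 ≤ lo j ∧ lo j < 2 ∧
    ∀ γ : ℚ, hi j = γ → γ ∈ Γ (some j) ∧ 0 ≤ γ ∧ γ < 2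

/-- The closure of the box. -/
def clBox (lo : σ → ℚ) (hi : σ → WithTop ℚ) : Set (σ → ℝ) :=
  {r | ∀ j, (lo j : ℝ) ≤ r j ∧ ∀ γ : ℚ, hi j = γ → r j ≤ γ}

/-- The standing hypotheses of the zeta function part. -/
structure Ctx (f : MvPolynomial σ ℂ) (α : ℚ) (Γ : Option σ → Set ℚ) : Prop where
  conv : ConvA f.support
  nd : Nondeg f
  dns : Dns Γ
  gen : Gen f.support α Γ

/-- Good series for the slope `α`. -/
abbrev Good (α : ℚ) (G : PowerSeries MM) : Prop := Rt lefInv (· ≠ α) G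

/-- Strong sets exist on all relevant sets of exponents. -/
def HB (A : Finset (σ →₀ ℕ)) (α : ℚ) : Prop :=
  ∀ X : Finset (σ →₀ ℕ), ∀ u ∈ Kset A α, ∀ u' ∈ Kset A α, fr A u ⊆ X → X ⊆ fr A u' →
    ∃ S, Strong X S

end Pool.Agent.P.MP_9321be_ag.ND
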